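import Pool.Agent.P.MP_5d580a_an.N.Hil0

open scoped ComplexOrder InnerProductSpace ComplexConjugate
open Filter Topology

set_option linter.unusedSectionVars false
set_option linter.unusedVariables false
set_option linter.deprecated false

noncomputable section

namespace Pool.Agent.P.MP_5d580a_an.Ng

variable {D C : Type} [CStarAlgebra D] [CStarAlgebra C]
variable {H : Type} [NormedAddCommGroup H] [InnerProductSpace ℂ H] [CompleteSpace H]
variable {L : Type} [NormedAddCommGroup L] [InnerProductSpace ℂ L] [CompleteSpace L]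

namespace HilAux

theorem pos_comm {Z b : H →L[ℂ] H} (h : Commute Z b) : Commute (Z⁺) b := by
  rw [CFC.posPart_def]
  exact h.cfcₙ_real _

theorem neg_comm {Z b : H →L[ℂ] H} (h : Commute Z b) : Commute (Z⁻) b := by
  rw [CFC.negPart_def]
  exact h.cfcₙ_real _

theorem comm_apply {a b : H →L[ℂ] H} (h : Commute a b) (η : H) : a (b η) = b (a η) :=
  congrArg (fun T : H →L[ℂ] H => T η) h.eq

theorem kill {a : H →L[ℂ] H} (ha : 0 ≤ a) {η : H} (h : (⟪η, a η⟫_ℂ).re ≤ 0) : a η = 0 := by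
  have h1 := lim_norm_sq_le ha η
  have h2 : ‖a‖ * (⟪η, a η⟫_ℂ).re ≤ 0 := mul_nonpos_of_nonneg_of_nonpos (norm_nonneg _) h
  have h3 : ‖a η‖ ^ 2 = 0 := le_antisymm (h1.trans h2) (sq_nonneg _)
  exact norm_eq_zero.1 (pow_eq_zero_iff (two_ne_zero) |>.1 h3)

theorem pos0 (Z : H →L[ℂ] H) : 0 ≤ Z⁺ := CFC.posPart_nonneg Z

theorem neg0 (Z : H →L[ℂ] H) : 0 ≤ Z⁻ := CFC.negPart_nonneg Z

theorem re_nonneg {a : H →L[ℂ] H} (ha : 0 ≤ a) (η : H) : 0 ≤ (⟪η, a η⟫_ℂ).re :=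
  (Complex.nonneg_iff.1 (nonneg_iff_inner.1 ha η)).1

/-- the shifted operator -/
def sh (Z : H →L[ℂ] H) (c : ℝ) : H →L[ℂ] H := Z - (c : ℂ) • (1 : H →L[ℂ] H)

theorem sh_apply (Z : H →L[ℂ] H) (c : ℝ) (η : H) : sh Z c η = Z η - (c : ℂ) • η := rfl

theorem sh_sa {Z : H →L[ℂ] H} (hZ : IsSelfAdjoint Z) (c : ℝ) : IsSelfAdjoint (sh Z c) := by
  unfold sh
  rw [IsSelfAdjoint, star_sub, star_smul, star_one, hZ.star_eq]
  simp

theorem sh_comm {Z b : H →L[ℂ] H} (h : Commute Z b) (c : ℝ) : Commute (sh Z c) b :=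
  h.sub_left ((Commute.one_left b).smul_left _)

theorem sh_re (Z : H →L[ℂ] H) (c : ℝ) (η : H) :
    (⟪η, sh Z c η⟫_ℂ).re = (⟪η, Z η⟫_ℂ).re - c * ‖η‖ ^ 2 := by
  rw [sh_apply, inner_sub_right, inner_smul_right, Complex.sub_re, inner_self_eq_norm_sq_to_K]
  congr 1
  have : ((c : ℂ) * ((‖η‖ : ℝ) : ℂ) ^ 2) = ((c * ‖η‖ ^ 2 : ℝ) : ℂ) := by push_cast; ring
  exact (congrArg Complex.re this).trans (Complex.ofReal_re _)

theorem split {Z : H →L[ℂ] H} (hZ : IsSelfAdjoint Z) (η : H) : Z η = Z⁺ η - Z⁻ η := by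
  have h := CFC.posPart_sub_negPart Z hZ
  exact (congrArg (fun T : H →L[ℂ] H => T η) h).symm

theorem pn (Z : H →L[ℂ] H) (η : H) : Z⁺ (Z⁻ η) = 0 :=
  congrArg (fun T : H →L[ℂ] H => T η) (CFC.posPart_mul_negPart Z)

theorem np (Z : H →L[ℂ] H) (η : H) : Z⁻ (Z⁺ η) = 0 :=
  congrArg (fun T : H →L[ℂ] H => T η) (CFC.negPart_mul_posPart Z)

/-- the kernel of a commuting operator inside an irreducible subspace -/
theorem ker_alt {𝒮 : Set (H →L[ℂ] H)} {P : H →L[ℂ] H}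
    (hinv : Inv 𝒮 (Fix1 P)) (hirr : Irr 𝒮 (Fix1 P)) {Y : H →L[ℂ] H}
    (hY : ∀ x ∈ 𝒮, Commute Y (x * P)) :
    (∀ η ∈ Fix1 P, Y η = 0 → η = 0) ∨ (∀ η ∈ Fix1 P, Y η = 0) := by
  have hcl : IsClosed ((Fix1 P ⊓ LinearMap.ker (Y : H →ₗ[ℂ] H) : Submodule ℂ H) : Set H) := by
    rw [Submodule.coe_inf]
    exact (isClosed_Fix1 P).inter Y.isClosed_ker
  have hi : Inv 𝒮 (Fix1 P ⊓ LinearMap.ker (Y : H →ₗ[ℂ] H)) := by
    intro x hx η hη
    refine ⟨hinv x hx η hη.1, ?_⟩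
    have h1 : P η = η := hη.1
    have h2 : Y η = 0 := hη.2
    have h3 := comm_apply (hY x hx) η
    rw [h2, map_zero] at h3
    have h4 : (x * P) η = x η := by rw [mul_apply_eq_comp, h1]
    rw [h4] at h3
    exact h3
  rcases hirr _ hcl inf_le_left hi with h | h
  · left
    intro η hη h0
    have : η ∈ (Fix1 P ⊓ LinearMap.ker (Y : H →ₗ[ℂ] H) : Submodule ℂ H) := ⟨hη, h0⟩
    rw [h] at this
    exact (Submodule.mem_bot ℂ).1 this
  · right
    intro η hη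
    rw [← h] at hη
    exact hη.2

theorem schur_sa {𝒮 : Set (H →L[ℂ] H)} {P : H →L[ℂ] H}
    (hinv : Inv 𝒮 (Fix1 P)) (hirr : Irr 𝒮 (Fix1 P)) {b : H →L[ℂ] H} (hb : IsSelfAdjoint b)
    (hP : Commute b P) (hc : ∀ x ∈ 𝒮, Commute b (x * P)) :
    ∃ c : ℂ, ∀ η ∈ Fix1 P, b η = c • η := by
  by_cases h0 : ∀ η ∈ Fix1 P, η = 0
  · refine ⟨0, fun η hη => ?_⟩
    rw [h0 η hη, map_zero, smul_zero]
  push Not at h0
  obtain ⟨η₀, hη₀, hne⟩ := h0
  have hpos : 0 < ‖η₀‖ ^ 2 := pow_pos (norm_pos_iff.2 hne) 2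
  set t : ℝ := (⟪η₀, b η₀⟫_ℂ).re / ‖η₀‖ ^ 2 with ht
  have hZ := sh_sa hb t
  have hz : (⟪η₀, sh b t η₀⟫_ℂ).re = 0 := by
    rw [sh_re, ht, div_mul_cancel₀ _ hpos.ne', sub_self]
  have hY := ker_alt hinv hirr (Y := (sh b t)⁺) fun x hx => pos_comm (sh_comm (hc x hx) t)
  have hN := ker_alt hinv hirr (Y := (sh b t)⁻) fun x hx => neg_comm (sh_comm (hc x hx) t)
  have hsp := split hZ η₀
  have hre : (⟪η₀, (sh b t)⁺ η₀⟫_ℂ).re - (⟪η₀, (sh b t)⁻ η₀⟫_ℂ).re = 0 := by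
    rw [← Complex.sub_re, ← inner_sub_right, ← hsp, hz]
  have hNK : ∀ η ∈ Fix1 P, (sh b t)⁻ η ∈ Fix1 P := by
    intro η hη
    have h1 : P η = η := hη
    have h2 := comm_apply (neg_comm (sh_comm hP t)) η
    rw [h1] at h2
    exact h2.symm
  have key : (∀ η ∈ Fix1 P, (sh b t)⁺ η = 0) ∧ (∀ η ∈ Fix1 P, (sh b t)⁻ η = 0) := by
    rcases hY with hY | hY
    · exfalso
      have h1 : (sh b t)⁻ η₀ = 0 := hY _ (hNK η₀ hη₀) (pn (sh b t) η₀)
      rw [h1, inner_zero_right, Complex.zero_re, sub_zero] at hre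
      exact hne (hY η₀ hη₀ (kill (pos0 (sh b t)) hre.le))
    · refine ⟨hY, ?_⟩
      rcases hN with hN | hN
      · exfalso
        rw [hY η₀ hη₀, inner_zero_right, Complex.zero_re, zero_sub, neg_eq_zero] at hre
        exact hne (hN η₀ hη₀ (kill (neg0 (sh b t)) hre.le))
      · exact hN
  refine ⟨t, fun η hη => ?_⟩
  have h1 := split hZ η
  rw [key.1 η hη, key.2 η hη, sub_zero, sh_apply] at h1
  exact sub_eq_zero.1 h1

theorem contOn {ℬ : StarSubalgebra ℂ D} {σ : D →ₗ[ℂ] C} (hσ : HomOn ℬ σ) :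
    ContinuousOn σ (ℬ : Set D) := by
  have : LipschitzOnWith 1 σ (ℬ : Set D) := by
    refine LipschitzOnWith.of_dist_le_mul fun x hx y hy => ?_
    rw [dist_eq_norm, dist_eq_norm, ← map_sub, NNReal.coe_one, one_mul]
    exact hσ.norm_le _ (sub_mem hx hy)
  exact this.continuousOn

/-- a property that is closed under the algebra operations inside `ℬ` passes to the adjoin -/
theorem adjoin_ind {G : Set D} {ℬ : StarSubalgebra ℂ D} (hG : G ⊆ ℬ)
    (hs : ∀ x ∈ G, star x ∈ G) {p : D → Prop} (h0 : ∀ x ∈ G, p x)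
    (h1 : ∀ c : ℂ, p (c • 1)) (h2 : ∀ x y, p x → p y → p (x + y))
    (h3 : ∀ x ∈ ℬ, ∀ y ∈ ℬ, p x → p y → p (x * y)) :
    ∀ x ∈ StarAlgebra.adjoin ℂ G, p x := by
  have hle : StarAlgebra.adjoin ℂ G ≤ ℬ := StarAlgebra.adjoin_le hG
  have : ∀ x ∈ StarAlgebra.adjoin ℂ G, p x ∧ p (star x) := by
    intro x hx
    induction hx using StarAlgebra.adjoin_induction with
    | mem x hx => exact ⟨h0 x hx, h0 _ (hs x hx)⟩
    | algebraMap r =>
      rw [Algebra.algebraMap_eq_smul_one, star_smul, star_one]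
      exact ⟨h1 _, h1 _⟩
    | add x y hx hy ihx ihy =>
      rw [star_add]
      exact ⟨h2 _ _ ihx.1 ihy.1, h2 _ _ ihx.2 ihy.2⟩
    | mul x y hx hy ihx ihy =>
      rw [star_mul]
      exact ⟨h3 _ (hle hx) _ (hle hy) ihx.1 ihy.1,
        h3 _ (star_mem (hle hy)) _ (star_mem (hle hx)) ihy.2 ihx.2⟩
    | star x hx ih =>
      rw [star_star]
      exact ⟨ih.2, ih.1⟩
  exact fun x hx => (this x hx).1

/-- passing to the closure along a map that is continuous on `ℬ` -/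
theorem clos_ind {X : Type} [TopologicalSpace X] {G : Set D} {ℬ : StarSubalgebra ℂ D}
    (hℬ : IsClosed (ℬ : Set D)) (hG : G ⊆ ℬ) {f : D → X} (hf : ContinuousOn f (ℬ : Set D))
    {F : Set X} (hF : IsClosed F) (h : ∀ x ∈ StarAlgebra.adjoin ℂ G, f x ∈ F) :
    ∀ x ∈ (StarAlgebra.adjoin ℂ G).topologicalClosure, f x ∈ F := by
  intro x hx
  have hle : StarAlgebra.adjoin ℂ G ≤ ℬ := StarAlgebra.adjoin_le hG
  have hx' : x ∈ closure (StarAlgebra.adjoin ℂ G : Set D) := hx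
  have hcl : IsClosed ((ℬ : Set D) ∩ f ⁻¹' F) := hf.preimage_isClosed_of_isClosed hℬ hF
  have : closure (StarAlgebra.adjoin ℂ G : Set D) ⊆ (ℬ : Set D) ∩ f ⁻¹' F :=
    closure_minimal (fun z hz => ⟨hle hz, h z hz⟩) hcl
  exact (this hx').2

end HilAux

open HilAux in
theorem schur {𝒮 : Set (H →L[ℂ] H)} {K : Submodule ℂ H} (hK : IsClosed (K : Set H))
    (hstar : ∀ x ∈ 𝒮, star x ∈ 𝒮) (hinv : Inv 𝒮 K) (hirr : Irr 𝒮 K) {y : H →L[ℂ] H}
    (h1 : ∀ η ∈ K, y η ∈ K) (h2 : ∀ η ∈ K, (star y) η ∈ K)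
    (hc : ∀ x ∈ 𝒮, ∀ η ∈ K, y (x η) = x (y η)) : ∃ c : ℂ, ∀ η ∈ K, y η = c • η := by
  obtain ⟨P, hP, rfl⟩ := exists_prj K hK
  have hPP : P * P = P := hP.isIdempotentElem.eq
  have hPs : star P = P := hP.isSelfAdjoint.star_eq
  have hy : Commute y P := commute_prj hP h1 h2
  have hx : ∀ x ∈ 𝒮, Commute x P := fun x hx =>
    commute_prj hP (hinv x hx) (hinv _ (hstar x hx))
  have ha : ∀ x ∈ 𝒮, Commute (y * P) (x * P) := by
    intro x hx'
    ext η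
    have e1 : P (x (P η)) = x (P η) := hinv x hx' _ (prj_mem hP η)
    have e2 : P (y (P η)) = y (P η) := h1 _ (prj_mem hP η)
    show y (P (x (P η))) = x (P (y (P η)))
    rw [e1, e2]
    exact hc x hx' _ (prj_mem hP η)
  have haP : Commute (y * P) P := hy.mul_left (Commute.refl P)
  have haP' : Commute (star (y * P)) P := by
    have := haP.star_star
    rwa [hPs] at this
  have ha' : ∀ x ∈ 𝒮, Commute (star (y * P)) (x * P) := by
    intro x hx'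
    have := (ha _ (hstar x hx')).star_star
    rwa [star_mul (star x) P, star_star, hPs, ← (hx x hx').eq] at this
  obtain ⟨c1, hc1⟩ := schur_sa hinv hirr (b := y * P + star (y * P))
    (IsSelfAdjoint.add_star_self _) (haP.add_left haP') fun x hx => (ha x hx).add_left (ha' x hx)
  have hsa : IsSelfAdjoint (Complex.I • (y * P - star (y * P))) := by
    rw [IsSelfAdjoint, star_smul, star_sub, star_star, Complex.star_def, Complex.conj_I,
      neg_smul, ← smul_neg, neg_sub]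
  obtain ⟨c2, hc2⟩ := schur_sa hinv hirr hsa ((haP.sub_left haP').smul_left _)
    fun x hx => ((ha x hx).sub_left (ha' x hx)).smul_left _
  refine ⟨(c1 - Complex.I * c2) / 2, fun η hη => ?_⟩
  have e0 : P η = η := hη
  have e1 : y η + (star (y * P)) η = c1 • η := by
    rw [← hc1 η hη, ContinuousLinearMap.add_apply, mul_apply_eq_comp, e0]
  have e2 : Complex.I • (y η - (star (y * P)) η) = c2 • η := by
    rw [← hc2 η hη, ContinuousLinearMap.smul_apply, ContinuousLinearMap.sub_apply,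
      mul_apply_eq_comp, e0]
  have e3 : y η - (star (y * P)) η = (-Complex.I * c2) • η := by
    rw [mul_smul, ← e2, smul_smul, neg_mul, Complex.I_mul_I, neg_neg, one_smul]
  have e4 : (2 : ℂ) • y η = (c1 - Complex.I * c2) • η := by
    rw [two_smul, sub_eq_add_neg, ← neg_mul, add_smul, ← e1, ← e3]
    abel
  have e5 : y η = (2 : ℂ)⁻¹ • ((2 : ℂ) • y η) := by
    rw [smul_smul, inv_mul_cancel₀ two_ne_zero, one_smul]
  rw [e5, e4, smul_smul, div_eq_inv_mul]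

theorem pos_part {Z : H →L[ℂ] H} (hZ : IsSelfAdjoint Z) {𝒮 : Set (H →L[ℂ] H)}
    {q : ℕ → (H →L[ℂ] H)} (hq : ∀ i, Commute Z (q i)) (h𝒮 : ∀ x ∈ 𝒮, Commute Z x) {c : ℝ}
    (hb : ∀ η ∈ Fix q, (⟪η, Z η⟫_ℂ).re ≤ c * ‖η‖ ^ 2) :
    ∀ ζ ∈ orb 𝒮 (Fix q), (⟪ζ, Z ζ⟫_ℂ).re ≤ c * ‖ζ‖ ^ 2 := by
  have hW := HilAux.sh_sa hZ c
  have hp0 : 0 ≤ (HilAux.sh Z c)⁺ := CFC.posPart_nonneg _
  have hps : star ((HilAux.sh Z c)⁺) = (HilAux.sh Z c)⁺ := (IsSelfAdjoint.of_nonneg hp0).star_eq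
  have hk : ∀ η ∈ Fix q, (HilAux.sh Z c)⁺ η = 0 := by
    intro η hη
    have h1 : (HilAux.sh Z c)⁺ η ∈ Fix q := by
      rw [mem_Fix] at hη ⊢
      intro i
      have := HilAux.comm_apply (HilAux.pos_comm (HilAux.sh_comm (hq i) c)) η
      rw [hη i] at this
      exact this.symm
    have h2 := hb _ h1
    have h3 := HilAux.sh_re Z c ((HilAux.sh Z c)⁺ η)
    rw [HilAux.split hW ((HilAux.sh Z c)⁺ η), HilAux.np, sub_zero] at h3
    have h4 : (HilAux.sh Z c)⁺ ((HilAux.sh Z c)⁺ η) = 0 := HilAux.kill hp0 (by linarith)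
    have h5 := norm_sq_apply ((HilAux.sh Z c)⁺) η
    rw [hps, mul_apply_eq_comp, h4, inner_zero_right, Complex.zero_re] at h5
    exact norm_eq_zero.1 (pow_eq_zero_iff (two_ne_zero) |>.1 h5)
  have hclb : IsClosed ((⊥ : Submodule ℂ H) : Set H) := by
    rw [Submodule.bot_coe]
    exact isClosed_singleton
  have ho := orb_map (𝒮 := 𝒮) (W := Fix q) hclb ((HilAux.sh Z c)⁺) (by
    intro x hx η hη
    rw [HilAux.comm_apply (HilAux.pos_comm (HilAux.sh_comm (h𝒮 x hx) c)) η, hk η hη, map_zero]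
    exact Submodule.zero_mem _)
  intro ζ hζ
  have h1 : (HilAux.sh Z c)⁺ ζ = 0 := (Submodule.mem_bot ℂ).1 (ho ζ hζ)
  have h2 := HilAux.sh_re Z c ζ
  rw [HilAux.split hW ζ, h1, zero_sub, inner_neg_right, Complex.neg_re] at h2
  have h3 := HilAux.re_nonneg (CFC.negPart_nonneg (HilAux.sh Z c)) ζ
  linarith

theorem closure_le {G : Set D} {ℬ : StarSubalgebra ℂ D} (hℬ : IsClosed (ℬ : Set D))
    (hG : G ⊆ ℬ) : (StarAlgebra.adjoin ℂ G).topologicalClosure ≤ ℬ := by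
  exact StarSubalgebra.topologicalClosure_minimal (StarAlgebra.adjoin_le hG) hℬ

theorem inv_closure {G : Set D} {ℬ : StarSubalgebra ℂ D} (hℬ : IsClosed (ℬ : Set D))
    (hG : G ⊆ ℬ) (hs : ∀ x ∈ G, star x ∈ G) {σ : D →ₗ[ℂ] (H →L[ℂ] H)} (hσ : HomOn ℬ σ)
    (h1 : σ 1 = 1) {W : Submodule ℂ H} (hW : IsClosed (W : Set H)) (hi : Inv (σ '' G) W) :
    ∀ x ∈ (StarAlgebra.adjoin ℂ G).topologicalClosure, ∀ η ∈ W, σ x η ∈ W := by
  intro x hx η hη
  have hf : ContinuousOn (fun x => σ x η) (ℬ : Set D) :=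
    (HilAux.contOn hσ).clm_apply continuousOn_const
  refine HilAux.clos_ind hℬ hG hf hW ?_ x hx
  intro z hz
  refine HilAux.adjoin_ind hG hs (p := fun z => ∀ η ∈ W, σ z η ∈ W) ?_ ?_ ?_ ?_ z hz η hη
  · exact fun x hx η hη => hi _ ⟨x, hx, rfl⟩ η hη
  · intro c η hη
    rw [map_smul, h1]
    exact W.smul_mem c hη
  · intro x y hx hy η hη
    rw [map_add]
    exact W.add_mem (hx η hη) (hy η hη)
  · intro x hxB y hyB hx hy η hη
    rw [hσ.mul x hxB y hyB]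
    exact hx _ (hy η hη)

theorem intw_closure {G : Set D} {ℬ : StarSubalgebra ℂ D} (hℬ : IsClosed (ℬ : Set D))
    (hG : G ⊆ ℬ) (hs : ∀ x ∈ G, star x ∈ G) {σ₁ : D →ₗ[ℂ] (H →L[ℂ] H)}
    {σ₂ : D →ₗ[ℂ] (L →L[ℂ] L)} (hσ₁ : HomOn ℬ σ₁) (hσ₂ : HomOn ℬ σ₂) (h1 : σ₁ 1 = 1)
    (h2 : σ₂ 1 = 1) {V : H →L[ℂ] L} (hV : ∀ x ∈ G, ∀ η, V (σ₁ x η) = σ₂ x (V η)) :
    ∀ x ∈ (StarAlgebra.adjoin ℂ G).topologicalClosure, ∀ η, V (σ₁ x η) = σ₂ x (V η) := by
  intro x hx η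
  have hf : ContinuousOn (fun x => V (σ₁ x η) - σ₂ x (V η)) (ℬ : Set D) :=
    (V.continuous.comp_continuousOn ((HilAux.contOn hσ₁).clm_apply continuousOn_const)).sub
      ((HilAux.contOn hσ₂).clm_apply continuousOn_const)
  refine sub_eq_zero.1 (HilAux.clos_ind hℬ hG hf (isClosed_singleton (x := (0 : L))) ?_ x hx)
  intro z hz
  refine sub_eq_zero.2
    (HilAux.adjoin_ind hG hs (p := fun z => ∀ η, V (σ₁ z η) = σ₂ z (V η)) hV ?_ ?_ ?_ z hz η)
  · intro c η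
    rw [map_smul, map_smul, h1, h2]
    exact V.map_smul c η
  · intro x y hx hy η
    rw [map_add, map_add, ContinuousLinearMap.add_apply, ContinuousLinearMap.add_apply, map_add,
      hx, hy]
  · intro x hxB y hyB hx hy η
    rw [hσ₁.mul x hxB y hyB, hσ₂.mul x hxB y hyB, mul_apply_eq_comp, mul_apply_eq_comp, hx, hy]

theorem commute_closure {G : Set D} (hs : ∀ x ∈ G, star x ∈ G) {y : D}
    (h : ∀ x ∈ G, Commute y x) :
    ∀ x ∈ (StarAlgebra.adjoin ℂ G).topologicalClosure, Commute y x := by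
  intro x hx
  have hG : G ⊆ (⊤ : StarSubalgebra ℂ D) := fun _ _ => StarSubalgebra.mem_top
  have hT : IsClosed ((⊤ : StarSubalgebra ℂ D) : Set D) := by
    rw [StarSubalgebra.coe_top]
    exact isClosed_univ
  have hf : Continuous (fun x : D => y * x - x * y) :=
    (continuous_const.mul continuous_id).sub (continuous_id.mul continuous_const)
  refine sub_eq_zero.1
    (HilAux.clos_ind hT hG hf.continuousOn (isClosed_singleton (x := (0 : D))) ?_ x hx)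
  intro z hz
  refine sub_eq_zero.2 (HilAux.adjoin_ind hG hs (p := fun z => Commute y z) h ?_ ?_ ?_ z hz)
  · exact fun c => (Commute.one_right y).smul_right c
  · exact fun _ _ h1 h2 => h1.add_right h2
  · exact fun _ _ _ _ h1 h2 => h1.mul_right h2

end Pool.Agent.P.MP_5d580a_an.Ng
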