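import Pool.Agent.P.MP_5d580a_an.N.Exp
import Pool.Agent.P.MP_5d580a_an.N.Hil

open scoped ComplexOrder InnerProductSpace ComplexConjugate
open Filter Topology

set_option linter.unusedSectionVars false
set_option linter.unusedVariables false
set_option linter.deprecated false

noncomputable section

namespace Pool.Agent.P.MP_5d580a_an.Ng

variable {D C : Type} [CStarAlgebra D] [CStarAlgebra C]
variable {H : Type} [NormedAddCommGroup H] [InnerProductSpace ℂ H] [CompleteSpace H]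
variable {L : Type} [NormedAddCommGroup L] [InnerProductSpace ℂ L] [CompleteSpace L]

variable {T : Tower D} {π : D →ₗ[ℂ] (H →L[ℂ] H)} {ω : ℕ → ℕ}

theorem mem_atom {n : ℕ} {η : H} :
    η ∈ atom T π ω n ↔ ∀ k, n ≤ k → π (T.m k (ω (k + 1))) η = η := by
  rw [atom, mem_Fix]
  constructor
  · intro h k hk
    obtain ⟨d, rfl⟩ := Nat.exists_eq_add_of_le hk
    exact h d
  · intro h k
    exact h (n + k) (Nat.le_add_right n k)

theorem atom_mono {n n' : ℕ} (h : n ≤ n') : atom T π ω n ≤ atom T π ω n' := by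
  intro η hη
  rw [mem_atom] at hη ⊢
  exact fun k hk => hη k (h.trans hk)

theorem atom_le_atoms (n : ℕ) : atom T π ω n ≤ atoms T π ω := by
  exact (le_iSup (fun n => atom T π ω n) n).trans (Submodule.le_topologicalClosure _)

theorem isClosed_atoms : IsClosed (atoms T π ω : Set H) := by
  exact Submodule.isClosed_topologicalClosure _

theorem B1_atoms_le {W : Submodule ℂ H} (hW : IsClosed (W : Set H))
    (h : ∀ n, atom T π ω n ≤ W) : atoms T π ω ≤ W :=
  Submodule.topologicalClosure_minimal _ (iSup_le h) hW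

theorem atom_one (hπ : IsRep T π) {n : ℕ} {η : H} (h : η ∈ atom T π ω n) : π 1 η = η := by
  have h1 := mem_atom.1 h n le_rfl
  have hm : T.m n (ω (n + 1)) ∈ T.B (n + 1) := T.A_le_B _ (T.m_mem _ _)
  have h2 := hπ.mul_apply (one_mem (T.B (n + 1))) hm η
  rw [one_mul, h1] at h2
  exact h2.symm

theorem atoms_le (hπ : IsRep T π) : atoms T π ω ≤ Fix1 (π 1) := by
  exact B1_atoms_le (isClosed_Fix1 _) fun n η h => atom_one hπ h

theorem atom_E (hπ : IsRep T π) (hω : IsPath ω) {n : ℕ} {η : H} (h : η ∈ atom T π ω n) {n' : ℕ}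
    (hn : n ≤ n') (j : ℕ) : π (T.E n' j (ω (n' + j))) η = η := by
  induction j with
  | zero => exact atom_one hπ h
  | succ j ih =>
    have e : T.E n' (j + 1) (ω (n' + (j + 1))) =
        T.E n' j (ω (n' + j)) * T.m (n' + j) (ω (n' + j + 1)) := by
      show T.E n' j (ω (n' + j + 1) / 2) * T.m (n' + j) (ω (n' + j + 1)) = _
      rw [hω.2]
    rw [e, hπ.mul_apply (T.A_le_B _ (T.E_mem _ _ _)) (T.A_le_B _ (T.m_mem _ _)),
      mem_atom.1 h (n' + j) (hn.trans (Nat.le_add_right _ _)), ih]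

theorem atom_of_E (hπ : IsRep T π) (hω : IsPath ω) {n : ℕ} {η : H}
    (h : ∀ j, π (T.E n j (ω (n + j))) η = η) : η ∈ atom T π ω n := by
  rw [mem_atom]
  intro k hk
  have e := T.m_E hω (n := n) (j := k + 1 - n) (k := k) hk (by omega)
  have h2 := hπ.mul_apply (T.A_le_B _ (T.m_mem k (ω (k + 1))))
    (T.A_le_B _ (T.E_mem n (k + 1 - n) (ω (n + (k + 1 - n))))) η
  rw [e, h] at h2
  exact h2.symm

theorem atom_A (hπ : IsRep T π) {n : ℕ} {η : H} (h : η ∈ atom T π ω n) {a : D} (ha : a ∈ T.A n) :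
    π a η ∈ atom T π ω n := by
  rw [mem_atom] at h ⊢
  intro k hk
  have hm : T.m k (ω (k + 1)) ∈ T.B (k + 1) := T.A_le_B _ (T.m_mem _ _)
  have hb : a ∈ T.B n := T.A_le_B _ ha
  rw [← hπ.mul_apply hm hb, (T.m_comm k (ω (k + 1)) a (T.A_mono hk ha)).eq,
    hπ.mul_apply hb hm, h k hk]

theorem atom_t (hπ : IsRep T π) (hω : IsPath ω) {n : ℕ} {η : H} (h : η ∈ atom T π ω n) :
    π (T.t n (ω n)) η ∈ atom T π ω n := by
  refine atom_of_E hπ hω fun j => ?_
  have hE : T.E n j (ω (n + j)) ∈ T.B (n + j) := T.A_le_B _ (T.E_mem _ _ _)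
  rw [← hπ.mul_apply hE (T.t_mem _ _), ← (T.t_E_comm n j (ω n) (hω.mem_desc n j)).eq,
    hπ.mul_apply (T.t_mem _ _) hE, atom_E hπ hω h le_rfl j]

theorem B1_proj_norm {p : D} (hp : IsStarProjection p) : ‖p‖ ≤ 1 := by
  have h1 : ‖star p * p‖ = ‖p‖ * ‖p‖ := CStarRing.norm_star_mul_self
  rw [hp.isSelfAdjoint.star_eq, hp.isIdempotentElem.eq] at h1
  by_contra hc
  push Not at hc
  nlinarith

theorem B1_mm_le (k w w' : ℕ) : ‖T.m k w * T.m k w'‖ ≤ 1 := by
  refine (norm_mul_le _ _).trans ?_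
  exact mul_le_one₀ (B1_proj_norm (T.m_proj _ _)) (norm_nonneg _) (B1_proj_norm (T.m_proj _ _))

theorem B1_mm_half (k w w' : ℕ) (h : bas k (w / 2) ≠ bas k (w' / 2)) :
    ‖T.m k w * T.m k w'‖ ^ 2 ≤ 1 / 2 := by
  have h1 : ‖(T.m k w * T.m k w') * star (T.m k w * T.m k w')‖ =
      ‖T.m k w * T.m k w'‖ * ‖T.m k w * T.m k w'‖ := CStarRing.norm_self_mul_star
  have h2 : (T.m k w * T.m k w') * star (T.m k w * T.m k w') = (2⁻¹ : ℂ) • T.m k w := by
    rw [star_mul, (T.m_proj k w).isSelfAdjoint.star_eq, (T.m_proj k w').isSelfAdjoint.star_eq,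
      ← T.m_sep k w w' h]
    calc T.m k w * T.m k w' * (T.m k w' * T.m k w)
        = T.m k w * (T.m k w' * T.m k w') * T.m k w := by simp only [mul_assoc]
      _ = _ := by rw [(T.m_proj k w').isIdempotentElem.eq]
  rw [h2, norm_smul] at h1
  have h3 := B1_proj_norm (T.m_proj k w)
  have h4 : ‖(2⁻¹ : ℂ)‖ = 1 / 2 := by simp
  rw [h4] at h1
  nlinarith

theorem B1_EE_succ (hω : IsPath ω) (n i w : ℕ) :
    T.E n (i + 1) w * T.E n (i + 1) (ω (n + (i + 1))) =
      (T.E n i (w / 2) * T.E n i (ω (n + i))) *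
        (T.m (n + i) w * T.m (n + i) (ω (n + i + 1))) := by
  have e : T.E n (i + 1) (ω (n + (i + 1))) =
      T.E n i (ω (n + i)) * T.m (n + i) (ω (n + i + 1)) := by
    show T.E n i (ω (n + i + 1) / 2) * T.m (n + i) (ω (n + i + 1)) = _
    rw [hω.2]
  have e2 : T.E n (i + 1) w = T.E n i (w / 2) * T.m (n + i) w := rfl
  have c := (T.m_comm (n + i) w _ (T.E_mem n i (ω (n + i)))).eq
  rw [e, e2]
  calc T.E n i (w / 2) * T.m (n + i) w * (T.E n i (ω (n + i)) * T.m (n + i) (ω (n + i + 1)))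
      = T.E n i (w / 2) * (T.m (n + i) w * T.E n i (ω (n + i))) *
          T.m (n + i) (ω (n + i + 1)) := by simp only [mul_assoc]
    _ = _ := by rw [c]; simp only [mul_assoc]

theorem B1_div_succ (w a : ℕ) : w / 2 / 2 ^ a = w / 2 ^ (a + 1) := by
  rw [Nat.div_div_eq_div_mul, pow_succ']

theorem B1_decay (hω : IsPath ω) {n t₀ : ℕ} (ht : t₀ ≤ n) (i : ℕ) : ∀ w,
    w / 2 ^ (n + i - t₀) % 2 ≠ ω t₀ % 2 →
    ‖T.E n i w * T.E n i (ω (n + i))‖ ^ 2 ≤
      (1 / 2 : ℝ) ^ Nat.count (fun k => sch (n + k) = t₀) i := by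
  induction i with
  | zero =>
    intro w _
    have h1 : ‖T.E n 0 w * T.E n 0 (ω (n + 0))‖ ≤ 1 := by
      refine (norm_mul_le _ _).trans ?_
      exact mul_le_one₀ (B1_proj_norm (T.E_proj _ _ _)) (norm_nonneg _)
        (B1_proj_norm (T.E_proj _ _ _))
    rw [Nat.count_zero, pow_zero]
    exact pow_le_one₀ (norm_nonneg _) h1
  | succ i ih =>
    intro w hw
    have hw' : w / 2 / 2 ^ (n + i - t₀) % 2 ≠ ω t₀ % 2 := by
      rw [B1_div_succ, show n + i - t₀ + 1 = n + (i + 1) - t₀ by omega]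
      exact hw
    have h1 := ih (w / 2) hw'
    rw [B1_EE_succ hω, Nat.count_succ]
    have h2 := norm_mul_le (T.E n i (w / 2) * T.E n i (ω (n + i)))
      (T.m (n + i) w * T.m (n + i) (ω (n + i + 1)))
    have h3 := pow_le_pow_left₀ (norm_nonneg _) h2 2
    refine h3.trans ?_
    rw [mul_pow]
    split_ifs with hs
    · rw [pow_succ (1 / 2 : ℝ)]
      refine mul_le_mul h1 (B1_mm_half _ _ _ ?_) (by positivity) (by positivity)
      have e := hω.div t₀ (n + i - t₀)
      rw [show t₀ + (n + i - t₀) = n + i by omega] at e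
      rw [hω.2, bas, bas, hs, e]
      exact hw'
    · rw [add_zero]
      have h4 : ‖T.m (n + i) w * T.m (n + i) (ω (n + i + 1))‖ ^ 2 ≤ 1 :=
        pow_le_one₀ (norm_nonneg _) (B1_mm_le _ _ _)
      calc _ ≤ (1 / 2 : ℝ) ^ Nat.count (fun k => sch (n + k) = t₀) i * 1 :=
            mul_le_mul h1 h4 (by positivity) (by positivity)
        _ = _ := mul_one _

theorem B1_zero_or (hω : IsPath ω) (n i : ℕ) : ∀ w, w ≠ ω (n + i) →
    T.E n i w * T.E n i (ω (n + i)) = 0 ∨ w / 2 ^ i ≠ ω n := by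
  induction i with
  | zero =>
    intro w hw
    right
    simpa using hw
  | succ i ih =>
    intro w hw
    rw [B1_EE_succ hω]
    by_cases h : w / 2 = ω (n + i)
    · left
      rw [T.m_orth' (n + i) (h.trans (hω.2 _).symm) hw, mul_zero]
    · rcases ih (w / 2) h with h0 | h0
      · left
        rw [h0, zero_mul]
      · right
        rwa [B1_div_succ] at h0

theorem B1_bit (hω : IsPath ω) (n : ℕ) : ∀ v, v < 2 ^ (n + 1) → v ≠ ω n →
    ∃ t₀ ≤ n, v / 2 ^ (n - t₀) % 2 ≠ ω t₀ % 2 := by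
  induction n with
  | zero =>
    intro v hv hne
    refine ⟨0, le_rfl, ?_⟩
    have := hω.1
    simp at hv ⊢
    omega
  | succ n ih =>
    intro v hv hne
    by_cases h : v % 2 = ω (n + 1) % 2
    · have h2 := hω.2 n
      obtain ⟨t₀, ht, h3⟩ := ih (v / 2) (by rw [pow_succ] at hv; omega) (by omega)
      refine ⟨t₀, by omega, ?_⟩
      rwa [B1_div_succ, show n - t₀ + 1 = n + 1 - t₀ by omega] at h3
    · exact ⟨n + 1, le_rfl, by simpa using h⟩

theorem B1_count (n t₀ : ℕ) :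
    Tendsto (Nat.count fun k => sch (n + k) = t₀) atTop atTop := by
  have hinf : (setOf fun k => sch (n + k) = t₀).Infinite := by
    refine Set.infinite_of_forall_exists_gt fun a => ?_
    have h1 := Nat.right_le_pair t₀ (n + a + 1)
    refine ⟨Nat.pair t₀ (n + a + 1) - n, ?_, by omega⟩
    show sch (n + (Nat.pair t₀ (n + a + 1) - n)) = t₀
    rw [show n + (Nat.pair t₀ (n + a + 1) - n) = Nat.pair t₀ (n + a + 1) by omega, sch,
      Nat.unpair_pair]
  refine tendsto_atTop_atTop_of_monotone (Nat.count_monotone _) fun b => ?_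
  exact ⟨Nat.nth (fun k => sch (n + k) = t₀) b, (Nat.count_nth_of_infinite hinf b).ge⟩

theorem B1_small (hω : IsPath ω) (n : ℕ) {ε : ℝ} (hε : 0 < ε) :
    ∀ᶠ i in atTop, ∀ w, w < 2 ^ (n + i + 1) → w ≠ ω (n + i) →
      ‖T.E n i w * T.E n i (ω (n + i))‖ ^ 2 ≤ ε := by
  have h1 : ∀ t₀ ∈ Finset.range (n + 1), ∀ᶠ i in atTop,
      (1 / 2 : ℝ) ^ Nat.count (fun k => sch (n + k) = t₀) i ≤ ε := by
    intro t₀ _
    have h2 := (tendsto_pow_atTop_nhds_zero_of_lt_one (r := (1 / 2 : ℝ)) (by norm_num)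
      (by norm_num)).comp (B1_count n t₀)
    exact h2.eventually (ge_mem_nhds hε)
  filter_upwards [(Filter.eventually_all_finset _).2 h1] with i hi w hw hne
  rcases B1_zero_or (T := T) hω n i w hne with h0 | h0
  · rw [h0, norm_zero]
    simpa using hε.le
  · have hlt : w / 2 ^ i < 2 ^ (n + 1) := by
      rw [Nat.div_lt_iff_lt_mul (by positivity), ← pow_add]
      rwa [show n + 1 + i = n + i + 1 by omega]
    obtain ⟨t₀, ht, hb⟩ := B1_bit hω n _ hlt h0
    refine (B1_decay hω ht i w ?_).trans (hi t₀ (Finset.mem_range.2 (by omega)))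
    rwa [Nat.div_div_eq_div_mul, ← pow_add, show i + (n - t₀) = n + i - t₀ by omega] at hb

/-- vectors on which a sequence of operators tends to zero -/
def B1_null (X : ℕ → (H →L[ℂ] H)) : Submodule ℂ H where
  carrier := {η | Tendsto (fun j => X j η) atTop (𝓝 0)}
  add_mem' := by
    intro x y hx hy
    have := Tendsto.add hx hy
    simpa only [Set.mem_setOf_eq, map_add, add_zero] using this
  zero_mem' := by
    simp only [Set.mem_setOf_eq, map_zero]
    exact tendsto_const_nhds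
  smul_mem' := by
    intro c x hx
    have := Tendsto.const_smul hx c
    simpa only [Set.mem_setOf_eq, map_smul, smul_zero] using this

theorem B1_null_closed {X : ℕ → (H →L[ℂ] H)} (hX : ∀ j η, ‖X j η‖ ≤ ‖η‖) :
    IsClosed (B1_null X : Set H) := by
  refine isClosed_of_closure_subset fun η hη => ?_
  show Tendsto (fun j => X j η) atTop (𝓝 0)
  rw [Metric.tendsto_nhds]
  intro ε hε
  obtain ⟨ζ, hζ, hd⟩ := Metric.mem_closure_iff.1 hη (ε / 2) (by positivity)
  have h1 : Tendsto (fun j => X j ζ) atTop (𝓝 0) := hζ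
  filter_upwards [Metric.tendsto_nhds.1 h1 (ε / 2) (by positivity)] with j hj
  rw [dist_zero_right] at hj ⊢
  rw [dist_eq_norm] at hd
  have h2 : X j η = X j (η - ζ) + X j ζ := by rw [map_sub, sub_add_cancel]
  have h3 := hX j (η - ζ)
  rw [h2]
  exact (norm_add_le _ _).trans_lt (by linarith)

theorem B1_off_atom (hπ : IsRep T π) (hω : IsPath ω) {n d y : ℕ} {η : H}
    (h : η ∈ atom T π ω (n + d)) (hy : y < 2 ^ (n + 1)) :
    Tendsto (fun j => π (T.Rm n j ((desc y j).erase (ω (n + j)))) η) atTop (𝓝 0) := by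
  rw [← tendsto_add_atTop_iff_nat d, Metric.tendsto_nhds]
  intro ε hε
  have hδ : 0 < ε ^ 2 / (‖η‖ ^ 2 + 1) := by positivity
  filter_upwards [B1_small (T := T) hω (n + d) hδ] with i hi
  rw [dist_zero_right, add_comm i d]
  set S := (desc y (d + i)).erase (ω (n + (d + i))) with hS
  have h1 := hπ.Rm_le n (d + i) S η
  have h2 := hπ.sum_t (n + (d + i)) S η
  have h3 : ∀ w ∈ S, ‖π (T.t (n + (d + i)) w) (π (T.E n (d + i) w) η)‖ ^ 2 ≤
      ε ^ 2 / (‖η‖ ^ 2 + 1) * ‖π (T.t (n + (d + i)) w) η‖ ^ 2 := by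
    intro w hw
    rw [hS, Finset.mem_erase, mem_desc] at hw
    have hlt : w < 2 ^ (n + d + i + 1) := by
      have h4 : w / 2 ^ (d + i) < 2 ^ (n + 1) := hw.2 ▸ hy
      rw [Nat.div_lt_iff_lt_mul (by positivity), ← pow_add] at h4
      rwa [show n + d + i + 1 = n + 1 + (d + i) by omega]
    have hq := hi w hlt (by rw [add_assoc]; exact hw.1)
    have hE1 : T.E n (d + i) w ∈ T.B (n + (d + i)) := T.A_le_B _ (T.E_mem _ _ _)
    have hE2 : T.E (n + d) i (ω (n + d + i)) ∈ T.B (n + (d + i)) := by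
      rw [← add_assoc]
      exact T.A_le_B _ (T.E_mem _ _ _)
    have hx := mul_mem hE1 hE2
    have e1 : π (T.E n (d + i) w) η =
        π (T.E n (d + i) w * T.E (n + d) i (ω (n + d + i))) η := by
      rw [hπ.mul_apply hE1 hE2, atom_E hπ hω h le_rfl i]
    have hn : ‖T.E n (d + i) w * T.E (n + d) i (ω (n + d + i))‖ ≤
        ‖T.E (n + d) i w * T.E (n + d) i (ω (n + d + i))‖ := by
      rw [T.E_add, mul_assoc]
      refine (norm_mul_le _ _).trans ?_
      exact mul_le_of_le_one_left (norm_nonneg _) (B1_proj_norm (T.E_proj _ _ _))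
    rw [e1, ← hπ.mul_apply (T.t_mem _ _) hx, (T.t_cent _ w _ hx).eq,
      hπ.mul_apply hx (T.t_mem _ _)]
    have h5 := hπ.apply_le hx (π (T.t (n + (d + i)) w) η)
    refine (pow_le_pow_left₀ (norm_nonneg _) h5 2).trans ?_
    rw [mul_pow]
    exact mul_le_mul_of_nonneg_right ((pow_le_pow_left₀ (norm_nonneg _) hn 2).trans hq)
      (by positivity)
  have h6 := (h1.trans (Finset.sum_le_sum h3))
  rw [← Finset.mul_sum] at h6
  have h7 : ε ^ 2 / (‖η‖ ^ 2 + 1) * ‖η‖ ^ 2 < ε ^ 2 := by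
    rw [div_mul_eq_mul_div, div_lt_iff₀ (by positivity)]
    have : 0 < ε ^ 2 := by positivity
    nlinarith
  have h8 := (h6.trans (mul_le_mul_of_nonneg_left h2 hδ.le)).trans_lt h7
  exact lt_of_pow_lt_pow_left₀ 2 hε.le h8

/-- labels off the path die on vectors that follow the path -/
theorem off_path (hπ : IsRep T π) (hω : IsPath ω) {η : H} (h : η ∈ atoms T π ω) {n y : ℕ}
    (hy : y < 2 ^ (n + 1)) :
    Tendsto (fun j => π (T.Rm n j ((desc y j).erase (ω (n + j)))) η) atTop (𝓝 0) := by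
  have hle : atoms T π ω ≤ B1_null fun j => π (T.Rm n j ((desc y j).erase (ω (n + j)))) := by
    refine B1_atoms_le (B1_null_closed fun j ζ => ?_) fun n' ζ hζ => ?_
    · refine (hπ.apply_le (T.Rm_mem _ _ _) ζ).trans ?_
      exact mul_le_of_le_one_left (norm_nonneg _) (T.Rm_norm n j y (Finset.erase_subset _ _))
    · exact B1_off_atom hπ hω (d := n') (atom_mono (Nat.le_add_left n' n) hζ) hy
  exact hle h

/-- expansion of a label off the path -/
theorem exp_off (hπ : IsRep T π) (hω : IsPath ω) {η : H} (h : η ∈ atoms T π ω) {n y : ℕ}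
    (hy : y < 2 ^ (n + 1)) (hne : y ≠ ω n) :
    Tendsto (fun j => π (T.Ps n j y) η) atTop (𝓝 (π (T.t n y) η)) := by
  have h1 := (off_path hπ hω h hy).const_sub (π (T.t n y) η)
  rw [sub_zero] at h1
  refine h1.congr fun j => ?_
  have hn : ω (n + j) ∉ desc y j := by
    rw [mem_desc, hω.div]
    exact fun e => hne e.symm
  rw [Finset.erase_eq_of_notMem hn, T.expand n j y, map_add, ContinuousLinearMap.add_apply,
    add_sub_cancel_right]

/-- expansion of the label on the path -/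
theorem exp_on (hπ : IsRep T π) (hω : IsPath ω) {η : H} (h : η ∈ atoms T π ω) (n : ℕ) :
    Tendsto (fun j => π (T.Ps n j (ω n)) η +
      π (T.E n j (ω (n + j)) * T.Dd n j (ω (n + j))) (π (T.t (n + j) (ω (n + j))) η)) atTop
      (𝓝 (π (T.t n (ω n)) η)) := by
  have h1 := (off_path hπ hω h (hω.lt n)).const_sub (π (T.t n (ω n)) η)
  rw [sub_zero] at h1
  refine h1.congr fun j => ?_
  have e : T.Rm n j (desc (ω n) j) =
      T.E n j (ω (n + j)) * T.Dd n j (ω (n + j)) * T.t (n + j) (ω (n + j)) +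
        T.Rm n j ((desc (ω n) j).erase (ω (n + j))) :=
    (Finset.add_sum_erase _ (fun w => T.E n j w * T.Dd n j w * T.t (n + j) w)
      (hω.mem_desc n j)).symm
  have hm : T.E n j (ω (n + j)) * T.Dd n j (ω (n + j)) ∈ T.B (n + j) :=
    T.A_le_B _ (mul_mem (T.E_mem _ _ _) (T.Dd_mem _ _ _))
  rw [T.expand n j (ω n), e, map_add, map_add, ContinuousLinearMap.add_apply,
    ContinuousLinearMap.add_apply, hπ.mul_apply hm (T.t_mem _ _)]
  abel

theorem B1_atoms_map (y : H →L[ℂ] H) (h : ∀ n, ∀ η ∈ atom T π ω n, y η ∈ atoms T π ω) {η : H}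
    (hη : η ∈ atoms T π ω) : y η ∈ atoms T π ω := by
  have hle : atoms T π ω ≤ (atoms T π ω).comap (y : H →ₗ[ℂ] H) :=
    B1_atoms_le (isClosed_atoms.preimage y.continuous) fun n ζ hζ => h n ζ hζ
  exact hle hη

theorem B1_atoms_A (hπ : IsRep T π) {n : ℕ} {a : D} (ha : a ∈ T.A n) {η : H}
    (hη : η ∈ atoms T π ω) : π a η ∈ atoms T π ω :=
  B1_atoms_map (π a) (fun n' _ hζ => atom_le_atoms (n + n')
    (atom_A hπ (atom_mono (Nat.le_add_left n' n) hζ) (T.A_mono (Nat.le_add_right n n') ha))) hη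

theorem B1_atoms_t (hπ : IsRep T π) (hω : IsPath ω) {n y : ℕ} (hy : y < 2 ^ (n + 1)) {η : H}
    (hη : η ∈ atoms T π ω) : π (T.t n y) η ∈ atoms T π ω := by
  by_cases hne : y = ω n
  · subst hne
    refine B1_atoms_map _ (fun n' ζ hζ => ?_) hη
    have hζ' := atom_le_atoms n' hζ
    refine isClosed_atoms.mem_of_tendsto (exp_on hπ hω hζ' n) ?_
    filter_upwards [eventually_ge_atTop n'] with j hj
    refine add_mem (B1_atoms_A hπ (T.Ps_mem _ _ _) hζ') ?_
    refine B1_atoms_A hπ (mul_mem (T.E_mem _ _ _) (T.Dd_mem _ _ _)) ?_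
    exact atom_le_atoms (n + j) (atom_t hπ hω (atom_mono (by omega) hζ))
  · refine isClosed_atoms.mem_of_tendsto (exp_off hπ hω hη hy hne) ?_
    exact Eventually.of_forall fun j => B1_atoms_A hπ (T.Ps_mem _ _ _) hη

theorem atoms_inv (hπ : IsRep T π) (hω : IsPath ω) : Inv (opsB T π) (atoms T π ω) := by
  rintro _ ⟨n, x, hx, rfl⟩ η hη
  obtain ⟨a₀, ha₀, a, ha, rfl⟩ := T.gen n x hx
  rw [map_add, map_sum, ContinuousLinearMap.add_apply, ContinuousLinearMap.sum_apply]
  refine add_mem (B1_atoms_A hπ ha₀ hη) (sum_mem fun w hw => ?_)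
  rw [hπ.mul_apply (T.A_le_B _ (ha w)) (T.t_mem _ _)]
  exact B1_atoms_A hπ (ha w) (B1_atoms_t hπ hω (Finset.mem_range.1 hw) hη)

end Pool.Agent.P.MP_5d580a_an.Ng
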