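import Pool.Agent.P.MP_5d580a_an.N.Exp
import Pool.Agent.P.MP_5d580a_an.N.Hil

open scoped ComplexOrder InnerProductSpace ComplexConjugate
open Filter Topology

set_option linter.unusedSectionVars false
set_option linter.unusedVariables false
set_option linter.deprecated false

noncomputable section

namespace Pool.Agent.P.MP_5d580a_an.Ng

variable {D C : Type} [CStarAlgebra D] [CStarAlgebra C]
variable {H : Type} [NormedAddCommGroup H] [InnerProductSpace ℂ H] [CompleteSpace H]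
variable {L : Type} [NormedAddCommGroup L] [InnerProductSpace ℂ L] [CompleteSpace L]

variable {T : Tower D} {π : D →ₗ[ℂ] (H →L[ℂ] H)}

namespace B2Aux

theorem E_swap (T : Tower D) (n j i w : ℕ) :
    T.E n (j + i) w = T.E (n + j) i w * T.E n j (w / 2 ^ i) := by
  rw [T.E_add, (T.E_comm (n + j) i w (T.E_mem n j (w / 2 ^ i))).eq]

theorem E_B (T : Tower D) (n j w : ℕ) : T.E n j w ∈ T.B (n + j) :=
  T.A_le_B _ (T.E_mem n j w)

theorem E_le (hπ : IsRep T π) (n j w : ℕ) (ζ : H) : ‖π (T.E n j w) ζ‖ ≤ ‖ζ‖ :=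
  proj_norm_le ((hπ (n + j)).proj (E_B T n j w) (T.E_proj n j w)) ζ

theorem E_anti (hπ : IsRep T π) (n j i w : ℕ) (η : H) :
    ‖π (T.E n (j + i) w) η‖ ≤ ‖π (T.E n j (w / 2 ^ i)) η‖ := by
  rw [E_swap, hπ.mul_apply (E_B T _ _ _) (E_B T _ _ _)]
  exact E_le hπ _ _ _ _

theorem tree (f : ℕ → ℕ → ℝ) (hf : ∀ j i w, f (j + i) w ≤ f j (w / 2 ^ i)) (ε : ℝ) (y : ℕ)
    (h : ∀ j, ∃ w, w / 2 ^ j = y ∧ ε < f j w) :
    ∃ W : ℕ → ℕ, W 0 = y ∧ (∀ j, W (j + 1) / 2 = W j) ∧ ∀ j, ε < f j (W j) := by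
  classical
  let Q : ℕ → ℕ → Prop := fun j w => ∀ i, ∃ w', w' / 2 ^ i = w ∧ ε < f (j + i) w'
  have h0 : Q 0 y := fun i => by simpa using h i
  have key : ∀ j v i d, (∃ w', w' / 2 ^ (i + d) = v ∧ ε < f (j + (i + d)) w') →
      ∃ w', w' / 2 ^ i = v ∧ ε < f (j + i) w' := by
    rintro j v i d ⟨w', h1, h2⟩
    refine ⟨w' / 2 ^ d, ?_, ?_⟩
    · rw [Nat.div_div_eq_div_mul, ← pow_add, add_comm d i, h1]
    · have := hf (j + i) d w'
      rw [add_assoc] at this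
      exact h2.trans_le this
  have step : ∀ j w, Q j w → ∃ v, v / 2 = w ∧ Q (j + 1) v := by
    intro j w hw
    by_contra hc
    have c1 : ¬ Q (j + 1) (2 * w) := fun hq => hc ⟨2 * w, by omega, hq⟩
    have c2 : ¬ Q (j + 1) (2 * w + 1) := fun hq => hc ⟨2 * w + 1, by omega, hq⟩
    obtain ⟨i1, hi1⟩ := not_forall.1 c1
    obtain ⟨i2, hi2⟩ := not_forall.1 c2
    obtain ⟨w', h1, h2⟩ := hw (i1 + i2 + 1)
    have e1 : w' / 2 ^ (i1 + i2) / 2 = w := by
      rw [Nat.div_div_eq_div_mul, ← pow_succ, h1]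
    have e2 : j + (i1 + i2 + 1) = j + 1 + (i1 + i2) := by omega
    rw [e2] at h2
    rcases (show w' / 2 ^ (i1 + i2) = 2 * w ∨ w' / 2 ^ (i1 + i2) = 2 * w + 1 by omega) with e | e
    · exact hi1 (key (j + 1) _ i1 i2 ⟨w', e, h2⟩)
    · rw [add_comm i1 i2] at e h2
      exact hi2 (key (j + 1) _ i2 i1 ⟨w', e, h2⟩)
  choose nx hnx using step
  let seq : (j : ℕ) → {w // Q j w} := fun j =>
    Nat.rec (motive := fun j => {w // Q j w}) ⟨y, h0⟩
      (fun j p => ⟨nx j p.1 p.2, (hnx j p.1 p.2).2⟩) j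
  refine ⟨fun j => (seq j).1, rfl, fun j => (hnx j (seq j).1 (seq j).2).1, fun j => ?_⟩
  obtain ⟨w', h1, h2⟩ := (seq j).2 0
  simp only [pow_zero, Nat.div_one] at h1
  rw [h1] at h2
  exact h2

end B2Aux

/-- Koenig lemma for the tree of basis projections -/
theorem koenig (hπ : IsRep T π) {n y : ℕ} (hy : y < 2 ^ (n + 1)) (η : H)
    (h : ∀ ω, IsPath ω → ω n = y →
      Tendsto (fun j => π (T.E n j (ω (n + j))) η) atTop (𝓝 0)) {ε : ℝ} (hε : 0 < ε) :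
    ∃ j, ∀ w ∈ desc y j, ‖π (T.E n j w) η‖ ≤ ε := by
  by_contra hc
  have hc' : ∀ j, ∃ w, w / 2 ^ j = y ∧ ε < ‖π (T.E n j w) η‖ := by
    intro j
    by_contra h2
    refine hc ⟨j, fun w hw => ?_⟩
    by_contra h3
    exact h2 ⟨w, mem_desc.1 hw, lt_of_not_ge h3⟩
  obtain ⟨W, W0, Ws, Wf⟩ := B2Aux.tree (fun j w => ‖π (T.E n j w) η‖)
    (fun j i w => B2Aux.E_anti hπ n j i w η) ε y hc'
  have Wd : ∀ i j, W (j + i) / 2 ^ i = W j := by
    intro i j
    induction i with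
    | zero => simp
    | succ i ih =>
      rw [pow_succ', ← Nat.div_div_eq_div_mul, ← add_assoc, Ws, ih]
  have hp : IsPath fun k => W k / 2 ^ n := by
    refine ⟨?_, fun k => ?_⟩
    · show W 0 / 2 ^ n < 2
      rw [W0, Nat.div_lt_iff_lt_mul (by positivity), ← pow_succ']
      exact hy
    · show W (k + 1) / 2 ^ n / 2 = W k / 2 ^ n
      rw [Nat.div_div_eq_div_mul, mul_comm, ← Nat.div_div_eq_div_mul, Ws]
  have hn : (fun k => W k / 2 ^ n) n = y := by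
    have := Wd n 0
    rw [zero_add, W0] at this
    exact this
  have ht := h _ hp hn
  have e : ∀ j, W (n + j) / 2 ^ n = W j := fun j => by rw [add_comm]; exact Wd n j
  simp only [e] at ht
  have := (ht.norm.eventually (gt_mem_nhds (show ‖(0 : H)‖ < ε by simpa using hε))).exists
  obtain ⟨j, hj⟩ := this
  exact lt_irrefl _ ((Wf j).trans hj)

namespace B2Aux

theorem sum_desc_add {M : Type} [AddCommMonoid M] (y j i : ℕ) (f : ℕ → ℕ → M) :
    ∑ w ∈ desc y (j + i), f (w / 2 ^ i) w = ∑ v ∈ desc y j, ∑ w ∈ desc v i, f v w := by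
  classical
  have hm : ∀ w ∈ desc y (j + i), w / 2 ^ i ∈ desc y j := by
    intro w hw
    rw [mem_desc] at hw ⊢
    rw [Nat.div_div_eq_div_mul, ← pow_add, add_comm i j, hw]
  rw [← Finset.sum_fiberwise_of_maps_to hm]
  refine Finset.sum_congr rfl fun v hv => ?_
  have e : (desc y (j + i)).filter (fun w => w / 2 ^ i = v) = desc v i := by
    ext w
    rw [Finset.mem_filter, mem_desc, mem_desc]
    refine ⟨fun h => h.2, fun h => ⟨?_, h⟩⟩
    rw [add_comm j i, pow_add, ← Nat.div_div_eq_div_mul, h]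
    exact mem_desc.1 hv
  rw [e]
  refine Finset.sum_congr rfl fun w hw => ?_
  rw [mem_desc.1 hw]

theorem sumT_mem (T : Tower D) (N : ℕ) (S : Finset ℕ) : ∑ w ∈ S, T.t N w ∈ T.B N :=
  sum_mem fun w _ => T.t_mem N w

theorem sumT_proj (T : Tower D) (N : ℕ) (S : Finset ℕ) :
    IsStarProjection (∑ w ∈ S, T.t N w) := by
  classical
  induction S using Finset.induction_on with
  | empty => simp
  | insert a S ha ih =>
    rw [Finset.sum_insert ha]
    refine (T.t_proj N a).add ih ?_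
    rw [Finset.mul_sum]
    exact Finset.sum_eq_zero fun w hw => T.t_orth N a w fun e => ha (e ▸ hw)

theorem sumT_inner (hπ : IsRep T π) (N : ℕ) (S : Finset ℕ) (ζ : H) :
    (⟪ζ, π (∑ w ∈ S, T.t N w) ζ⟫_ℂ).re = ∑ w ∈ S, ‖π (T.t N w) ζ‖ ^ 2 := by
  rw [map_sum, ContinuousLinearMap.sum_apply, inner_sum, Complex.re_sum]
  refine Finset.sum_congr rfl fun w _ => ?_
  have hp := (hπ N).proj (T.t_mem N w) (T.t_proj N w)
  rw [norm_sq_apply, hp.isSelfAdjoint.star_eq, hp.isIdempotentElem.eq]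

theorem Rm_bound (hπ : IsRep T π) (n j i y : ℕ) (η : H) :
    ‖π (T.Rm n (j + i) (desc y (j + i))) η‖ ^ 2 ≤
      ∑ v ∈ desc y j, ∑ w ∈ desc v i, ‖π (T.t (n + j + i) w) (π (T.E n j v) η)‖ ^ 2 := by
  refine (hπ.Rm_le n (j + i) _ η).trans ?_
  rw [← sum_desc_add y j i fun v w => ‖π (T.t (n + j + i) w) (π (T.E n j v) η)‖ ^ 2]
  refine Finset.sum_le_sum fun w _ => ?_
  rw [E_swap, hπ.mul_apply (E_B T _ _ _) (E_B T _ _ _), ← add_assoc,
    ← hπ.mul_apply (T.t_mem _ _) (E_B T _ _ _), (T.t_cent _ w _ (E_B T (n + j) i w)).eq,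
    hπ.mul_apply (E_B T _ _ _) (T.t_mem _ _)]
  gcongr
  exact E_le hπ _ _ _ _

theorem scalar_lim (hπ : IsRep T π) (hirr : Irr (opsB T π) (Fix1 (π 1))) (𝒰 : Ultrafilter ℕ)
    (h𝒰 : (𝒰 : Filter ℕ) ≤ atTop) (N : ℕ) (S : ℕ → Finset ℕ) :
    ∃ c : ℝ, ∀ ζ ∈ Fix1 (π 1),
      Tendsto (fun i => ∑ w ∈ S i, ‖π (T.t (N + i) w) ζ‖ ^ 2) 𝒰 (𝓝 (c * ‖ζ‖ ^ 2)) := by
  have hP : ∀ i, IsStarProjection (π (∑ w ∈ S i, T.t (N + i) w)) := fun i =>
    (hπ _).proj (sumT_mem T _ _) (sumT_proj T _ _)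
  obtain ⟨Z, -, hZ⟩ := exists_wot_ultra 𝒰 (fun i => π (∑ w ∈ S i, T.t (N + i) w)) 1
    fun i => (hP i).norm_le
  have hcm : ∀ x ∈ opsB T π, ∀ ξ, Z (x ξ) = x (Z ξ) := by
    rintro _ ⟨m, x, hx, rfl⟩ ξ
    refine ext_inner_left ℂ fun ζ => ?_
    have h1 := hZ (π x ξ) ζ
    have h2 := hZ ξ (star (π x) ζ)
    rw [inner_star_left] at h2
    refine tendsto_nhds_unique h1 (h2.congr' ?_)
    filter_upwards [h𝒰 (eventually_ge_atTop m)] with i hi
    have hx' : x ∈ T.B (N + i) := T.B_mono (show m ≤ N + i from le_add_left hi) hx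
    have hc : Commute (∑ w ∈ S i, T.t (N + i) w) x :=
      Commute.sum_left _ _ _ fun w _ => T.t_cent _ w x hx'
    rw [inner_star_left, ← hπ.mul_apply hx' (sumT_mem T _ _), ← hc.eq,
      hπ.mul_apply (sumT_mem T _ _) hx']
  have h1m : π 1 ∈ opsB T π := ⟨0, 1, one_mem _, rfl⟩
  have hc1 : Commute Z (π 1) := by
    ext ξ
    exact hcm _ h1m ξ
  have hc2 : Commute (star Z) (π 1) := by
    have := hc1.star_star
    rwa [(hπ 0).one_proj.isSelfAdjoint.star_eq] at this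
  have fx : ∀ Y : H →L[ℂ] H, Commute Y (π 1) → ∀ ξ ∈ Fix1 (π 1), Y ξ ∈ Fix1 (π 1) := by
    intro Y hY ξ hξ
    rw [mem_Fix1] at hξ ⊢
    rw [← mul_apply_eq_comp, ← hY.eq, mul_apply_eq_comp, hξ]
  obtain ⟨c, hc⟩ := schur (isClosed_Fix1 (π 1)) (𝒮 := opsB T π) (by
      rintro _ ⟨m, x, hx, rfl⟩
      exact ⟨m, star x, star_mem hx, ((hπ m).star x hx).symm⟩)
    (by
      rintro _ ⟨m, x, hx, rfl⟩ ξ hξ
      rw [mem_Fix1, ← mul_apply_eq_comp, (hπ m).one_mul hx])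
    hirr (fx Z hc1) (fx _ hc2) fun x hx ξ _ => hcm x hx ξ
  refine ⟨c.re, fun ζ hζ => ?_⟩
  have h3 := (Complex.continuous_re.tendsto _).comp (hZ ζ ζ)
  have e : (⟪ζ, Z ζ⟫_ℂ).re = c.re * ‖ζ‖ ^ 2 := by
    have e0 : ⟪ζ, ζ⟫_ℂ = ((‖ζ‖ ^ 2 : ℝ) : ℂ) := by
      rw [inner_self_eq_norm_sq_to_K, Complex.ofReal_pow]
      rfl
    rw [hc ζ hζ, inner_smul_right, e0, Complex.re_mul_ofReal]
  rw [e] at h3
  refine h3.congr fun i => ?_
  exact sumT_inner hπ _ _ ζ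

end B2Aux

/-- without atoms the labels are determined in an irreducible representation -/
theorem no_atom (hπ : IsRep T π) (hirr : Irr (opsB T π) (Fix1 (π 1))) {n y : ℕ}
    (hy : y < 2 ^ (n + 1)) (η : H)
    (h : ∀ ω, IsPath ω → ω n = y →
      Tendsto (fun j => π (T.E n j (ω (n + j))) η) atTop (𝓝 0)) :
    Tendsto (fun j => π (T.Rm n j (desc y j)) η) atTop (𝓝 0) := by
  classical
  by_contra hc
  rw [Metric.tendsto_nhds] at hc
  obtain ⟨δ, hδ'⟩ := not_forall.1 hc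
  obtain ⟨hδ, hfr⟩ := Classical.not_imp.1 hδ'
  obtain ⟨j, hj⟩ := koenig hπ hy η h (half_pos hδ)
  have hfr2 : ∃ᶠ i in atTop, δ ≤ ‖π (T.Rm n (j + i) (desc y (j + i))) η‖ := by
    rw [Filter.frequently_atTop]
    intro a
    by_contra h2
    refine hfr ((eventually_ge_atTop (j + a)).mono fun b hb => ?_)
    rw [dist_zero_right]
    by_contra h3
    refine h2 ⟨b - j, by omega, ?_⟩
    rw [show j + (b - j) = b by omega]
    exact le_of_not_gt h3
  have := Filter.frequently_iff_neBot.1 hfr2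
  let 𝒰 : Ultrafilter ℕ :=
    Ultrafilter.of (atTop ⊓ 𝓟 {i | δ ≤ ‖π (T.Rm n (j + i) (desc y (j + i))) η‖})
  have u1 : (𝒰 : Filter ℕ) ≤ atTop := (Ultrafilter.of_le _).trans inf_le_left
  have u2 : ∀ᶠ i in (𝒰 : Filter ℕ), δ ≤ ‖π (T.Rm n (j + i) (desc y (j + i))) η‖ :=
    ((Ultrafilter.of_le _).trans inf_le_right) (mem_principal_self _)
  choose c hcv using fun v => B2Aux.scalar_lim hπ hirr 𝒰 u1 (n + j) fun i => desc v i
  have hz : ∀ v, π (T.E n j v) η ∈ Fix1 (π 1) := fun v => by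
    rw [mem_Fix1, ← mul_apply_eq_comp, (hπ _).one_mul (B2Aux.E_B T n j v)]
  have lim := tendsto_finset_sum (desc y j) fun v _ => hcv v _ (hz v)
  have low : δ ^ 2 ≤ ∑ v ∈ desc y j, c v * ‖π (T.E n j v) η‖ ^ 2 := by
    refine ge_of_tendsto lim (u2.mono fun i hi => ?_)
    exact (pow_le_pow_left₀ hδ.le hi 2).trans (B2Aux.Rm_bound hπ n j i y η)
  by_cases hK : ∃ ξ ∈ Fix1 (π 1), ξ ≠ 0
  · obtain ⟨ξ, hξ, hξ0⟩ := hK
    have hp : 0 < ‖ξ‖ ^ 2 := by positivity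
    have c0 : ∀ v, 0 ≤ c v := fun v => by
      have : 0 ≤ c v * ‖ξ‖ ^ 2 :=
        ge_of_tendsto' (hcv v ξ hξ) fun i => Finset.sum_nonneg fun w _ => by positivity
      exact nonneg_of_mul_nonneg_left this hp
    have c1 : ∑ v ∈ desc y j, c v ≤ 1 := by
      have l2 := tendsto_finset_sum (desc y j) fun v _ => hcv v ξ hξ
      have : ∑ v ∈ desc y j, c v * ‖ξ‖ ^ 2 ≤ ‖ξ‖ ^ 2 := by
        refine le_of_tendsto' l2 fun i => ?_
        rw [← B2Aux.sum_desc_add y j i fun _ w => ‖π (T.t (n + j + i) w) ξ‖ ^ 2]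
        exact hπ.sum_t _ _ ξ
      rw [← Finset.sum_mul] at this
      by_contra h3
      nlinarith
    have up : ∑ v ∈ desc y j, c v * ‖π (T.E n j v) η‖ ^ 2 ≤ ∑ v ∈ desc y j, c v * (δ / 2) ^ 2 :=
      Finset.sum_le_sum fun v hv => mul_le_mul_of_nonneg_left
        (pow_le_pow_left₀ (norm_nonneg _) (hj v hv) 2) (c0 v)
    rw [← Finset.sum_mul] at up
    have : 0 < δ ^ 2 := by positivity
    nlinarith
  · have z0 : ∀ v, π (T.E n j v) η = 0 := fun v => by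
      by_contra h3
      exact hK ⟨_, hz v, h3⟩
    simp only [z0, norm_zero, ne_eq, OfNat.ofNat_ne_zero, not_false_eq_true, zero_pow, mul_zero,
      Finset.sum_const_zero] at low
    have : 0 < δ ^ 2 := by positivity
    linarith

end Pool.Agent.P.MP_5d580a_an.Ng
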