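import Pool.Agent.P.MP_5d580a_an.N.Exp
import Pool.Agent.P.MP_5d580a_an.N.Hil

open scoped ComplexOrder InnerProductSpace ComplexConjugate
open Filter Topology

set_option linter.unusedSectionVars false
set_option linter.unusedVariables false
set_option linter.deprecated false

noncomputable section

namespace Pool.Agent.P.MP_5d580a_an.Ng

variable {D C : Type} [CStarAlgebra D] [CStarAlgebra C]
variable {H : Type} [NormedAddCommGroup H] [InnerProductSpace ℂ H] [CompleteSpace H]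
variable {L : Type} [NormedAddCommGroup L] [InnerProductSpace ℂ L] [CompleteSpace L]

theorem Bk_norm_le {u p : D} (hu : IsSelfAdjoint u) (hp : IsStarProjection p) (h : u * u = p) :
    ‖u‖ ≤ 1 := by
  have h1 : ‖u‖ * ‖u‖ = ‖p‖ := by
    rw [← CStarRing.norm_star_mul_self, hu.star_eq, h]
  have h2 : ‖p‖ ≤ 1 := hp.norm_le
  nlinarith [norm_nonneg u]

namespace Blk

variable {T : Tower D} (b : Blk T)

theorem mono : StrictMono b.N := by
  refine strictMono_nat_of_lt_succ fun i => ?_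
  rw [b.succ]
  exact Nat.lt_add_of_pos_right (b.pos i)

theorem le_N (i : ℕ) : i ≤ b.N i := by
  exact b.mono.le_apply

theorem e_mem (i : ℕ) : b.e i ∈ T.A (b.N (i + 1)) := by
  refine mul_mem ?_ (b.χ_mem i)
  have := T.E_mem (b.N i) (b.J i) (b.ω (b.N (i + 1)))
  rwa [← b.succ] at this

theorem e_proj (i : ℕ) : IsStarProjection (b.e i) := by
  exact (T.E_proj _ _ _).mul (b.χ_proj i) (b.χ_E i).symm

theorem e_comm (i : ℕ) {a : D} (ha : a ∈ T.A (b.N i)) : Commute (b.e i) a := by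
  exact (T.E_comm _ _ _ ha).mul_left (b.χ_comm i a ha)

theorem e_e (i j : ℕ) : Commute (b.e i) (b.e j) := by
  have key : ∀ i j, i < j → Commute (b.e j) (b.e i) := fun i j h =>
    b.e_comm j (T.A_mono (b.mono.monotone h) (b.e_mem i))
  rcases lt_trichotomy i j with h | rfl | h
  · exact (key i j h).symm
  · exact Commute.refl _
  · exact key j i h

theorem e_u (i : ℕ) : b.e i * b.u i = b.u i := by
  have h : b.u i * b.e i = b.u i := b.u_e i
  have h2 := congrArg star h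
  rwa [star_mul, (b.u_sa i).star_eq, (b.e_proj i).isSelfAdjoint.star_eq] at h2

theorem u_e' (i : ℕ) : b.u i * b.e i = b.u i := by
  exact b.u_e i

theorem u_sq' (i : ℕ) : b.u i * b.u i = b.e i := by
  exact b.u_sq i

theorem u_norm (i : ℕ) : ‖b.u i‖ ≤ 1 := by
  exact Bk_norm_le (b.u_sa i) (b.e_proj i) (b.u_sq' i)

theorem m_e {i k : ℕ} (h1 : b.N i ≤ k) (h2 : k < b.N (i + 1)) :
    T.m k (b.ω (k + 1)) * b.e i = b.e i := by
  have h3 := T.m_E b.path (n := b.N i) (j := b.J i) h1 (by rwa [← b.succ])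
  rw [← b.succ] at h3
  rw [e, ← mul_assoc, h3]

theorem sy_mem (i : ℕ) : b.sy i ∈ T.B (b.N i) := by
  exact T.s_mem _ _

theorem sy_e (i : ℕ) : Commute (b.sy i) (b.e i) := by
  have hw : b.ω (b.N (i + 1)) ∈ desc (b.ω (b.N i)) (b.J i) := by
    rw [b.succ]
    exact b.path.mem_desc _ _
  have h1 := T.s_E (b.N i) (b.J i) (b.ω (b.N i)) hw
  have h2 := T.s_E_comm (b.N i) (b.J i) (b.ω (b.N i)) hw
  have h3 : Commute (b.χ i) (T.s (b.N i + b.J i) (b.ω (b.N (i + 1)))) := by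
    refine (T.s_cent _ _ ?_).symm
    rw [← b.succ]
    exact T.A_le_B _ (b.χ_mem i)
  have h4 : Commute (b.χ i) (T.s (b.N i) (b.ω (b.N i)) *
      T.E (b.N i) (b.J i) (b.ω (b.N (i + 1)))) := by
    rw [h1]
    exact ((b.χ_A i).add_right ((b.χ_D i).mul_right h3)).mul_right (b.χ_E i)
  show T.s (b.N i) (b.ω (b.N i)) * (T.E (b.N i) (b.J i) (b.ω (b.N (i + 1))) * b.χ i) =
    T.E (b.N i) (b.J i) (b.ω (b.N (i + 1))) * b.χ i * T.s (b.N i) (b.ω (b.N i))
  rw [← mul_assoc, ← h4.eq, ← (b.χ_E i).eq, mul_assoc, h2.eq]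

theorem est' (i : ℕ) : ‖b.sy i * b.e i - b.u i * b.sy (i + 1)‖ ≤ (1 / 2 : ℝ) ^ i := by
  exact b.est i

theorem o_mem (i : ℕ) : b.o i ∈ T.A (b.N i) := by
  induction i with
  | zero => exact one_mem _
  | succ i ih => exact mul_mem (T.A_mono (b.mono.monotone (Nat.le_succ i)) ih) (b.e_mem i)

theorem o_proj (i : ℕ) : IsStarProjection (b.o i) := by
  induction i with
  | zero => exact IsStarProjection.one D
  | succ i ih => exact ih.mul (b.e_proj i) (b.e_comm i (b.o_mem i)).symm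

theorem e_o {i j : ℕ} (h : j < i) : b.e j * b.o i = b.o i := by
  induction i with
  | zero => exact absurd h (Nat.not_lt_zero j)
  | succ i ih =>
    show b.e j * (b.o i * b.e i) = b.o i * b.e i
    rcases (Nat.lt_succ_iff.1 h).lt_or_eq with h | rfl
    · rw [← mul_assoc, ih h]
    · rw [← mul_assoc, (b.e_comm j (b.o_mem j)).eq, mul_assoc, (b.e_proj j).isIdempotentElem.eq]

theorem U_mem (i : ℕ) : b.U i ∈ T.A (b.N i) := by
  induction i with
  | zero => exact one_mem _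
  | succ i ih => exact mul_mem (T.A_mono (b.mono.monotone (Nat.le_succ i)) ih) (b.u_mem i)

theorem U_sa (i : ℕ) : IsSelfAdjoint (b.U i) := by
  induction i with
  | zero => exact IsSelfAdjoint.one D
  | succ i ih =>
    show star (b.U i * b.u i) = b.U i * b.u i
    rw [star_mul, ih.star_eq, (b.u_sa i).star_eq, (b.u_comm i _ (b.U_mem i)).eq]

theorem U_sq (i : ℕ) : b.U i * b.U i = b.o i := by
  induction i with
  | zero => exact mul_one _
  | succ i ih =>
    show b.U i * b.u i * (b.U i * b.u i) = b.o i * b.e i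
    rw [← ih, ← b.u_sq' i, mul_assoc, ← mul_assoc (b.u i), (b.u_comm i _ (b.U_mem i)).eq]
    simp only [mul_assoc]

theorem U_o (i : ℕ) : b.U i * b.o i = b.U i := by
  induction i with
  | zero => exact mul_one _
  | succ i ih =>
    show b.U i * b.u i * (b.o i * b.e i) = b.U i * b.u i
    rw [mul_assoc, ← mul_assoc (b.u i), (b.u_comm i _ (b.o_mem i)).eq, mul_assoc, b.u_e' i,
      ← mul_assoc, ih]

theorem o_U (i : ℕ) : b.o i * b.U i = b.U i := by
  have h2 := congrArg star (b.U_o i)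
  rwa [star_mul, (b.U_sa i).star_eq, (b.o_proj i).isSelfAdjoint.star_eq] at h2

theorem U_norm (i : ℕ) : ‖b.U i‖ ≤ 1 := by
  exact Bk_norm_le (b.U_sa i) (b.o_proj i) (b.U_sq i)

theorem shift_e (i₀ i : ℕ) : (b.shift i₀).e i = b.e (i₀ + i) := rfl

theorem shift_sy (i₀ i : ℕ) : (b.shift i₀).sy i = b.sy (i₀ + i) := rfl

theorem o_add (i₀ i : ℕ) : b.o (i₀ + i) = b.o i₀ * (b.shift i₀).o i := by
  induction i with
  | zero => exact (mul_one _).symm
  | succ i ih =>
    show b.o (i₀ + i) * b.e (i₀ + i) = b.o i₀ * ((b.shift i₀).o i * b.e (i₀ + i))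
    rw [ih, mul_assoc]

theorem U_add (i₀ i : ℕ) : b.U (i₀ + i) = b.U i₀ * (b.shift i₀).U i := by
  induction i with
  | zero => exact (mul_one _).symm
  | succ i ih =>
    show b.U (i₀ + i) * b.u (i₀ + i) = b.U i₀ * ((b.shift i₀).U i * b.u (i₀ + i))
    rw [ih, mul_assoc]

theorem shift_o_comm (i₀ i : ℕ) {a : D} (ha : a ∈ T.A (b.N i₀)) :
    Commute ((b.shift i₀).o i) a := by
  induction i with
  | zero => exact Commute.one_left a
  | succ i ih =>
    exact ih.mul_left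
      (b.e_comm (i₀ + i) (T.A_mono (b.mono.monotone (Nat.le_add_right i₀ i)) ha))

theorem shift_U_comm (i₀ i : ℕ) {a : D} (ha : a ∈ T.A (b.N i₀)) :
    Commute ((b.shift i₀).U i) a := by
  induction i with
  | zero => exact Commute.one_left a
  | succ i ih =>
    exact ih.mul_left
      (b.u_comm (i₀ + i) a (T.A_mono (b.mono.monotone (Nat.le_add_right i₀ i)) ha))

/-- passage to the next corner -/
theorem corner_succ {i : ℕ} {x : D} (hx : x ∈ corner (T.A (b.N i)) (b.o i) 1) :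
    x * b.e i ∈ corner (T.A (b.N (i + 1))) (b.o (i + 1)) 1 := by
  obtain ⟨h1, h2, h3, -⟩ := mem_corner.1 hx
  have he := (b.e_proj i).isIdempotentElem.eq
  refine mem_corner.2 ⟨mul_mem (T.A_mono (b.mono.monotone (Nat.le_succ i)) h1) (b.e_mem i),
    ?_, ?_, by rw [mul_one, one_mul]⟩
  · show b.o i * b.e i * (x * b.e i) = x * b.e i
    rw [mul_assoc, ← mul_assoc (b.e i), (b.e_comm i h1).eq, mul_assoc, he, ← mul_assoc, h2]
  · show x * b.e i * (b.o i * b.e i) = x * b.e i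
    rw [mul_assoc, ← mul_assoc (b.e i), (b.e_comm i (b.o_mem i)).eq, mul_assoc, he,
      ← mul_assoc, h3]

theorem even_succ {i : ℕ} {x : D} (hx : x ∈ corner (T.A (b.N i)) (b.o i) (b.U i)) :
    x * b.e i ∈ corner (T.A (b.N (i + 1))) (b.o (i + 1)) (b.U (i + 1)) := by
  obtain ⟨h1, h2, h3, h4⟩ := mem_corner.1 hx
  obtain ⟨k1, k2, k3, -⟩ := mem_corner.1
    (b.corner_succ (mem_corner.2 ⟨h1, h2, h3, by rw [mul_one, one_mul]⟩))
  refine mem_corner.2 ⟨k1, k2, k3, ?_⟩
  show x * b.e i * (b.U i * b.u i) = b.U i * b.u i * (x * b.e i)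
  have e1 : x * b.e i * (b.U i * b.u i) = b.U i * x * b.u i := by
    rw [mul_assoc, ← mul_assoc (b.e i), (b.e_comm i (b.U_mem i)).eq, mul_assoc, b.e_u i,
      ← mul_assoc, h4]
  have e2 : b.U i * b.u i * (x * b.e i) = b.U i * x * b.u i := by
    rw [mul_assoc, ← mul_assoc (b.u i), (b.u_comm i x h1).eq, mul_assoc, b.u_e' i, ← mul_assoc]
  rw [e1, e2]

theorem cut_mem {i : ℕ} {a : D} (ha : a ∈ T.A (b.N i)) :
    b.o i * a * b.o i ∈ corner (T.A (b.N i)) (b.o i) 1 := by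
  have ho := (b.o_proj i).isIdempotentElem.eq
  refine mem_corner.2 ⟨mul_mem (mul_mem (b.o_mem i) ha) (b.o_mem i), ?_, ?_,
    by rw [mul_one, one_mul]⟩
  · rw [← mul_assoc, ← mul_assoc, ho]
  · rw [mul_assoc, ho]

theorem tw_mem {i : ℕ} {x : D} (hx : x ∈ corner (T.A (b.N i)) (b.o i) 1) :
    b.U i * x * b.U i ∈ corner (T.A (b.N i)) (b.o i) 1 := by
  obtain ⟨h1, -, -, -⟩ := mem_corner.1 hx
  refine mem_corner.2 ⟨mul_mem (mul_mem (b.U_mem i) h1) (b.U_mem i), ?_, ?_,
    by rw [mul_one, one_mul]⟩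
  · rw [← mul_assoc, ← mul_assoc, b.o_U i]
  · rw [mul_assoc, b.U_o i]

variable {π : D →ₗ[ℂ] (H →L[ℂ] H)}

theorem fix_le_atom (hπ : IsRep T π) :
    (Fix fun i => π (b.e i)) ≤ atom T π b.ω (b.N 0) := by
  intro η hη
  rw [mem_Fix] at hη
  refine mem_Fix.2 fun k => ?_
  have hex : ∃ i, b.N 0 + k < b.N (i + 1) :=
    ⟨b.N 0 + k, lt_of_lt_of_le (Nat.lt_succ_self _) (b.le_N _)⟩
  classical
  have h2 := Nat.find_spec hex
  have h1 : b.N (Nat.find hex) ≤ b.N 0 + k := by
    rcases Nat.eq_zero_or_pos (Nat.find hex) with h0 | h0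
    · rw [h0]
      exact Nat.le_add_right _ _
    · have h3 := Nat.find_min hex (Nat.sub_lt h0 Nat.one_pos)
      rw [Nat.sub_add_cancel h0] at h3
      exact not_lt.1 h3
  have h4 := hπ.mul_apply (T.A_le_B _ (T.m_mem (b.N 0 + k) (b.ω (b.N 0 + k + 1))))
    (T.A_le_B _ (b.e_mem (Nat.find hex))) η
  rw [b.m_e h1 h2, hη] at h4
  exact h4.symm

theorem fix_o (hπ : IsRep T π) {η : H} (h : η ∈ Fix fun i => π (b.e i)) (i : ℕ) :
    π (b.o i) η = η := by
  rw [mem_Fix] at h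
  induction i with
  | zero =>
    have h4 := hπ.mul_apply (n := 0) (one_mem _) (T.A_le_B _ (b.e_mem 0)) η
    rw [one_mul, h] at h4
    exact h4.symm
  | succ i ih =>
    show π (b.o i * b.e i) η = η
    rw [hπ.mul_apply (T.A_le_B _ (b.o_mem i)) (T.A_le_B _ (b.e_mem i)), h, ih]

theorem corner_fix (hπ : IsRep T π) {i : ℕ} {x : D} (hx : x ∈ corner (T.A (b.N i)) (b.o i) 1)
    {η : H} (h : η ∈ Fix fun i => π (b.e i)) : π x η ∈ Fix fun i => π (b.e i) := by
  obtain ⟨h1, h2, -, -⟩ := mem_corner.1 hx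
  rw [mem_Fix] at h
  refine mem_Fix.2 fun j => ?_
  rw [← hπ.mul_apply (T.A_le_B _ (b.e_mem j)) (T.A_le_B _ h1)]
  rcases lt_or_ge j i with hj | hj
  · have : b.e j * x = x := by
      rw [← h2, ← mul_assoc, b.e_o hj]
    rw [this]
  · rw [(b.e_comm j (T.A_mono (b.mono.monotone hj) h1)).eq,
      hπ.mul_apply (T.A_le_B _ h1) (T.A_le_B _ (b.e_mem j)), h]

/-- two corner operators can be represented on a common level -/
theorem ops_level (hπ : IsRep T π) {P : H →L[ℂ] H} (hP : IsStarProjection P)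
    (hF : Fix1 P = Fix fun i => π (b.e i)) {i j : ℕ} (hij : i ≤ j) {x : D}
    (hx : x ∈ corner (T.A (b.N i)) (b.o i) 1) :
    ∃ x' ∈ corner (T.A (b.N j)) (b.o j) 1, π x' * P = π x * P ∧
      π (b.U j * x' * b.U j) * P = π (b.U i * x * b.U i) * P := by
  have heP : ∀ k, π (b.e k) * P = P := fun k => by
    ext η
    have h1 := prj_mem hP η
    rw [hF, mem_Fix] at h1
    exact h1 k
  induction j, hij using Nat.le_induction with
  | base => exact ⟨x, hx, rfl, rfl⟩
  | succ j hij ih =>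
    obtain ⟨y, hy, h1, h2⟩ := ih
    have hy1 := (mem_corner.1 hy).1
    refine ⟨y * b.e j, b.corner_succ hy, ?_, ?_⟩
    · rw [hπ.mul (T.A_le_B _ hy1) (T.A_le_B _ (b.e_mem j)), mul_assoc, heP, h1]
    · have hm : b.U j * y * b.U j ∈ T.A (b.N j) := mul_mem (mul_mem (b.U_mem j) hy1) (b.U_mem j)
      have e1 : b.U (j + 1) * (y * b.e j) * b.U (j + 1) = b.U j * y * b.U j * b.e j := by
        show b.U j * b.u j * (y * b.e j) * (b.U j * b.u j) = b.U j * y * b.U j * b.e j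
        have e2 : b.u j * (y * b.e j) = y * b.u j := by
          rw [← mul_assoc, (b.u_comm j y hy1).eq, mul_assoc, b.u_e' j]
        have e3 : b.u j * (b.U j * b.u j) = b.U j * b.e j := by
          rw [← mul_assoc, (b.u_comm j _ (b.U_mem j)).eq, mul_assoc, b.u_sq' j]
        rw [mul_assoc (b.U j) (b.u j), e2, mul_assoc, mul_assoc, e3]
        simp only [mul_assoc]
      rw [e1, hπ.mul (T.A_le_B _ hm) (T.A_le_B _ (b.e_mem j)), mul_assoc, heP, h2]

end Blk

end Pool.Agent.P.MP_5d580a_an.Ng
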