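import Pool.Agent.P.MP_5d580a_an.N.Defs

open scoped ComplexOrder InnerProductSpace ComplexConjugate
open Filter Topology

set_option linter.unusedSectionVars false
set_option linter.unusedVariables false
set_option linter.deprecated false

noncomputable section

namespace Pool.Agent.P.MP_5d580a_an.Ng

variable {D C : Type} [CStarAlgebra D] [CStarAlgebra C]
variable {H : Type} [NormedAddCommGroup H] [InnerProductSpace ℂ H] [CompleteSpace H]
variable {L : Type} [NormedAddCommGroup L] [InnerProductSpace ℂ L] [CompleteSpace L]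

theorem finite_spec (S : StarSubalgebra ℂ D) [FiniteDimensional ℂ S] {k : D} (hk : k ∈ S) :
    (spectrum ℝ k).Finite := by
  have hC : (spectrum ℂ k).Finite := by
    rcases subsingleton_or_nontrivial D with hD | hD
    · rw [spectrum.of_subsingleton]; exact Set.finite_empty
    · obtain ⟨p, hp, hp0⟩ : IsIntegral ℂ (⟨k, hk⟩ : S) := IsIntegral.of_finite ℂ _
      have h1 : Polynomial.aeval (⟨k, hk⟩ : S) p = 0 := by
        rw [Polynomial.aeval_def]; exact hp0
      have h2 : Polynomial.aeval k p = 0 := by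
        have h3 := Polynomial.aeval_algHom_apply (S.toSubalgebra.val) (⟨k, hk⟩ : S) p
        have h4 : (S.toSubalgebra.val) (⟨k, hk⟩ : S) = k := rfl
        rw [h4] at h3
        rw [h3]
        have h5 : (Polynomial.aeval (⟨k, hk⟩ : S.toSubalgebra) p) = 0 := h1
        rw [h5, map_zero]
      refine (Polynomial.finite_setOf_isRoot hp.ne_zero).subset fun x hx => ?_
      have h6 := spectrum.subset_polynomial_aeval k p ⟨x, hx, rfl⟩
      rw [h2, spectrum.zero_eq] at h6
      exact h6
  rw [← spectrum.preimage_algebraMap ℂ]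
  exact hC.preimage (algebraMap ℝ ℂ).injective.injOn

namespace SpecAux

theorem closed (S : StarSubalgebra ℂ D) [FiniteDimensional ℂ S] : IsClosed (S : Set D) := by
  have : FiniteDimensional ℂ (Subalgebra.toSubmodule S.toSubalgebra) :=
    (inferInstance : FiniteDimensional ℂ S)
  exact Submodule.closed_of_finiteDimensional (Subalgebra.toSubmodule S.toSubalgebra)

theorem mem (S : StarSubalgebra ℂ D) [FiniteDimensional ℂ S] {k : D} (hk : k ∈ S) (f : ℝ → ℝ) :
    cfc f k ∈ S := by
  have := closed S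
  exact cfc_mem (𝕜' := ℂ) f hk

theorem mul {k : D} (hf : (spectrum ℝ k).Finite) (f g : ℝ → ℝ) :
    cfc f k * cfc g k = cfc (fun t => f t * g t) k :=
  (cfc_mul f g k (hf.continuousOn _) (hf.continuousOn _)).symm

theorem add {k : D} (hf : (spectrum ℝ k).Finite) (f g : ℝ → ℝ) :
    cfc f k + cfc g k = cfc (fun t => f t + g t) k :=
  (cfc_add (a := k) f g (hf.continuousOn _) (hf.continuousOn _)).symm

theorem sub {k : D} (hf : (spectrum ℝ k).Finite) (f g : ℝ → ℝ) :
    cfc f k - cfc g k = cfc (fun t => f t - g t) k :=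
  (cfc_sub f g k (hf.continuousOn _) (hf.continuousOn _)).symm

theorem smul {k : D} (hf : (spectrum ℝ k).Finite) (r : ℝ) (f : ℝ → ℝ) :
    r • cfc f k = cfc (fun t => r * f t) k :=
  (cfc_const_mul r f k (hf.continuousOn _)).symm

theorem idl {k : D} (hf : (spectrum ℝ k).Finite) (hsa : IsSelfAdjoint k) (f : ℝ → ℝ) :
    k * cfc f k = cfc (fun t => t * f t) k := by
  rw [← mul hf (fun t => t) f, cfc_id' ℝ k]

theorem idr {k : D} (hf : (spectrum ℝ k).Finite) (hsa : IsSelfAdjoint k) (f : ℝ → ℝ) :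
    cfc f k * k = cfc (fun t => f t * t) k := by
  rw [← mul hf f (fun t => t), cfc_id' ℝ k]

theorem one_sub {k : D} (hf : (spectrum ℝ k).Finite) (hsa : IsSelfAdjoint k) (f : ℝ → ℝ) :
    1 - cfc f k = cfc (fun t => 1 - f t) k := by
  rw [← sub hf (fun _ => 1) f, cfc_const_one ℝ k]

theorem sq {k : D} (hf : (spectrum ℝ k).Finite) (hsa : IsSelfAdjoint k) :
    k * k = cfc (fun t : ℝ => t * t) k := by
  rw [← mul hf (fun t => t) (fun t => t), cfc_id' ℝ k]

theorem comp_sq {k : D} (hf : (spectrum ℝ k).Finite) (hsa : IsSelfAdjoint k) (g : ℝ → ℝ) :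
    cfc (fun t : ℝ => g (t * t)) k = cfc g (k * k) := by
  rw [sq hf hsa]
  exact cfc_comp' g (fun t : ℝ => t * t) k ((hf.image _).continuousOn _) (hf.continuousOn _) hsa

theorem sa (k : D) (f : ℝ → ℝ) : IsSelfAdjoint (cfc f k) := cfc_predicate f k

theorem proj {k : D} (hf : (spectrum ℝ k).Finite) (p : ℝ → Prop) [DecidablePred p] :
    IsStarProjection (cfc (fun t : ℝ => if p t then (1 : ℝ) else 0) k) := by
  refine ⟨?_, sa k _⟩
  rw [IsIdempotentElem, mul hf]
  refine cfc_congr fun t _ => ?_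
  by_cases h : p t <;> simp [h]

theorem comm {k y : D} (h : Commute y k) (f : ℝ → ℝ) : Commute y (cfc f k) :=
  (h.symm.cfc_real f).symm

theorem abs_le {k : D} {t : ℝ} (ht : t ∈ spectrum ℝ k) : |t| ≤ ‖k‖ := by
  rcases subsingleton_or_nontrivial D with hD | hD
  · rw [spectrum.of_subsingleton] at ht; exact absurd ht (Set.notMem_empty _)
  · exact spectrum.norm_le_norm_of_mem ht

end SpecAux

/-- spectral decomposition -/
theorem spec_dec (S : StarSubalgebra ℂ D) [FiniteDimensional ℂ S] {k : D} (hk : k ∈ S)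
    (hsa : IsSelfAdjoint k) :
    ∃ (Λ : Finset ℝ) (e : ℝ → D), (∀ l, e l ∈ S) ∧ (∀ l, IsStarProjection (e l)) ∧
      (∀ l l', l ≠ l' → e l * e l' = 0) ∧ ∑ l ∈ Λ, e l = 1 ∧ (∀ l, k * e l = (l : ℂ) • e l) ∧
      (∀ l ∈ Λ, e l ≠ 0) ∧ ∀ y, Commute y k → ∀ l, Commute y (e l) := by
  classical
  have hf := finite_spec S hk
  refine ⟨hf.toFinset, fun l => cfc (fun t : ℝ => if t = l then (1 : ℝ) else 0) k,
    fun l => SpecAux.mem S hk _, fun l => SpecAux.proj hf _, ?_, ?_, ?_, ?_,
    fun y hy l => SpecAux.comm hy _⟩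
  · intro l l' hl
    rw [SpecAux.mul hf, ← cfc_const_zero ℝ k]
    refine cfc_congr fun t _ => ?_
    by_cases h : t = l
    · have h' : t ≠ l' := fun h' => hl (h.symm.trans h')
      simp [h']
    · simp [h]
  · rw [← cfc_sum (fun l : ℝ => fun t : ℝ => if t = l then (1 : ℝ) else 0) k hf.toFinset
      (fun i _ => hf.continuousOn _), ← cfc_const_one ℝ k]
    refine cfc_congr fun t ht => ?_
    rw [Finset.sum_apply, Finset.sum_ite_eq, if_pos (hf.mem_toFinset.2 ht)]
  · intro l
    rw [Complex.coe_smul, SpecAux.idl hf hsa, SpecAux.smul hf]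
    refine cfc_congr fun t _ => ?_
    by_cases h : t = l <;> simp [h]
  · intro l hl h0
    have h1 : cfc (fun t : ℝ => if t = l then (1 : ℝ) else 0) k = cfc (fun _ : ℝ => (0 : ℝ)) k := by
      rw [cfc_const_zero]; exact h0
    have h2 := (cfc_eq_cfc_iff_eqOn (a := k) hsa (hf.continuousOn _) (hf.continuousOn _)).1 h1
      (hf.mem_toFinset.1 hl)
    simp at h2

/-- cut at a spectral level of a sum of two squares -/
theorem spec_cut (S : StarSubalgebra ℂ D) [FiniteDimensional ℂ S] {a b : D} (ha : a ∈ S)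
    (hb : b ∈ S) {δ : ℝ} (hδ : 0 < δ) :
    ∃ χ ∈ S, IsStarProjection χ ∧
      (∀ y, Commute y (star a * a + star b * b) → Commute y χ) ∧
      ‖a * χ‖ ^ 2 ≤ δ ∧ ‖b * χ‖ ^ 2 ≤ δ ∧
      ∃ z ∈ S, star a * a + star b * b - (δ : ℂ) • (1 - χ) = star z * z := by
  classical
  letI : PartialOrder D := CStarAlgebra.spectralOrder D
  haveI : StarOrderedRing D := CStarAlgebra.spectralOrderedRing D
  obtain ⟨k, hkdef⟩ : ∃ k, k = star a * a + star b * b := ⟨_, rfl⟩
  have hk : k ∈ S := by
    rw [hkdef]; exact add_mem (mul_mem (star_mem ha) ha) (mul_mem (star_mem hb) hb)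
  have hk0 : 0 ≤ k := by
    rw [hkdef]; exact add_nonneg (star_mul_self_nonneg a) (star_mul_self_nonneg b)
  have hsa : IsSelfAdjoint k := IsSelfAdjoint.of_nonneg hk0
  have hf := finite_spec S hk
  have hpos : ∀ t ∈ spectrum ℝ k, 0 ≤ t := fun t ht => spectrum_nonneg_of_nonneg hk0 ht
  obtain ⟨χ, hχ⟩ : ∃ χ, χ = cfc (fun t : ℝ => if t < δ then (1 : ℝ) else 0) k := ⟨_, rfl⟩
  have hp : IsStarProjection χ := by rw [hχ]; exact SpecAux.proj hf _
  have hn : ‖χ * k * χ‖ ≤ δ := by
    rw [hχ, SpecAux.idr hf hsa, SpecAux.mul hf]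
    refine norm_cfc_le hδ.le fun t ht => ?_
    by_cases h : t < δ
    · simp only [h, if_true, one_mul, mul_one, Real.norm_eq_abs]
      rw [abs_of_nonneg (hpos t ht)]; exact h.le
    · simp only [h, if_false, mul_zero, norm_zero]; exact hδ.le
  have hsum : star (a * χ) * (a * χ) + star (b * χ) * (b * χ) = χ * k * χ := by
    rw [hkdef, star_mul, star_mul, hp.isSelfAdjoint.star_eq]
    noncomm_ring
  have hA : ∀ x y : D, star x * x + star y * y = χ * k * χ → ‖x‖ ^ 2 ≤ δ := by
    intro x y hxy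
    rw [pow_two, ← CStarRing.norm_star_mul_self]
    refine le_trans (CStarAlgebra.norm_le_norm_of_nonneg_of_le (star_mul_self_nonneg x) ?_) hn
    rw [← hxy]
    exact le_add_of_nonneg_right (star_mul_self_nonneg y)
  refine ⟨χ, by rw [hχ]; exact SpecAux.mem S hk _, hp, ?_, hA _ _ hsum,
    hA _ (a * χ) (by rw [add_comm]; exact hsum), ?_⟩
  · intro y hy
    rw [hχ]; rw [← hkdef] at hy; exact SpecAux.comm hy _
  · refine ⟨cfc (fun t : ℝ => √(t - δ * (1 - if t < δ then (1 : ℝ) else 0))) k,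
      SpecAux.mem S hk _, ?_⟩
    rw [← hkdef, (SpecAux.sa k _).star_eq, SpecAux.mul hf, hχ, SpecAux.one_sub hf hsa,
      Complex.coe_smul, SpecAux.smul hf]
    conv_lhs => arg 1; rw [← cfc_id' ℝ k]
    rw [SpecAux.sub hf]
    refine cfc_congr fun t ht => ?_
    refine (Real.mul_self_sqrt ?_).symm
    by_cases h : t < δ
    · simp only [h, if_true, sub_self, mul_zero, sub_zero]; exact hpos t ht
    · simp only [h, if_false, sub_zero, mul_one]; linarith [not_lt.1 h]

/-- the part of a selfadjoint contraction that is almost a symmetry -/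
theorem ang (S : StarSubalgebra ℂ D) [FiniteDimensional ℂ S] {d : D} (hd : d ∈ S)
    (hsa : IsSelfAdjoint d) (hn : ‖d‖ ≤ 1) {ε : ℝ} (h0 : 0 < ε) (h1 : ε < 1) :
    ∃ χ ∈ S, ∃ u ∈ S, ∃ y ∈ S, IsStarProjection χ ∧ IsSelfAdjoint u ∧ u * u = χ ∧ u * χ = u ∧
      (∀ z, Commute z (d * d) → Commute z χ) ∧ (∀ z, Commute z d → Commute z u) ∧
      ‖d * χ - u‖ ≤ ε ∧ ‖(1 - d * d) * χ‖ ≤ ε ∧ 1 - χ = y * (1 - d * d) ∧ ‖y‖ ≤ 1 / ε := by
  classical
  have hf := finite_spec S hd
  have hab : ∀ t ∈ spectrum ℝ d, -1 ≤ t ∧ t ≤ 1 := fun t ht =>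
    abs_le.1 ((SpecAux.abs_le ht).trans hn)
  refine ⟨cfc (fun t : ℝ => if 1 - ε ≤ t * t then (1 : ℝ) else 0) d, SpecAux.mem S hd _,
    cfc (fun t : ℝ => if 1 - ε ≤ t * t then (if 0 ≤ t then (1 : ℝ) else -1) else 0) d,
    SpecAux.mem S hd _,
    cfc (fun t : ℝ => if 1 - ε ≤ t * t then (0 : ℝ) else 1 / (1 - t * t)) d, SpecAux.mem S hd _,
    SpecAux.proj hf _, SpecAux.sa d _, ?_, ?_, ?_, fun z hz => SpecAux.comm hz _, ?_, ?_, ?_, ?_⟩
  · rw [SpecAux.mul hf]
    refine cfc_congr fun t _ => ?_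
    by_cases h : 1 - ε ≤ t * t <;> by_cases h' : 0 ≤ t <;> simp only [h, h', if_true, if_false] <;>
      norm_num
  · rw [SpecAux.mul hf]
    refine cfc_congr fun t _ => ?_
    by_cases h : 1 - ε ≤ t * t <;> simp only [h, if_true, if_false, mul_one, mul_zero]
  · intro z hz
    rw [SpecAux.comp_sq hf hsa (fun v => if 1 - ε ≤ v then (1 : ℝ) else 0)]
    exact SpecAux.comm hz _
  · rw [SpecAux.idl hf hsa, SpecAux.sub hf]
    refine norm_cfc_le h0.le fun t ht => ?_
    obtain ⟨h2, h3⟩ := hab t ht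
    rw [Real.norm_eq_abs, abs_le]
    by_cases h : 1 - ε ≤ t * t
    · by_cases h' : 0 ≤ t
      · simp only [h, h', if_true, mul_one]
        constructor <;> nlinarith
      · simp only [h, h', if_true, if_false, mul_one]
        have h'' := not_le.1 h'
        constructor <;> nlinarith
    · simp only [h, if_false, mul_zero, sub_zero]
      constructor <;> linarith
  · rw [SpecAux.sq hf hsa, SpecAux.one_sub hf hsa, SpecAux.mul hf]
    refine norm_cfc_le h0.le fun t ht => ?_
    obtain ⟨h2, h3⟩ := hab t ht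
    rw [Real.norm_eq_abs, abs_le]
    by_cases h : 1 - ε ≤ t * t
    · simp only [h, if_true, mul_one]
      constructor <;> nlinarith
    · simp only [h, if_false, mul_zero]
      constructor <;> linarith
  · rw [SpecAux.sq hf hsa, SpecAux.one_sub hf hsa, SpecAux.one_sub hf hsa, SpecAux.mul hf]
    refine cfc_congr fun t _ => ?_
    by_cases h : 1 - ε ≤ t * t
    · simp only [h, if_true, sub_self, zero_mul]
    · have h2 : 1 - t * t ≠ 0 := by
        have := not_le.1 h
        linarith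
      simp only [h, if_false, sub_zero]
      rw [one_div, inv_mul_cancel₀ h2]
  · refine norm_cfc_le (one_div_pos.2 h0).le fun t ht => ?_
    by_cases h : 1 - ε ≤ t * t
    · simp only [h, if_true, norm_zero]; exact (one_div_pos.2 h0).le
    · have h2 := not_le.1 h
      simp only [h, if_false, Real.norm_eq_abs]
      rw [abs_of_nonneg (one_div_pos.2 (by linarith)).le]
      exact one_div_le_one_div_of_le h0 (by linarith)

/-- support and sign of a selfadjoint element -/
theorem supp_sign (S : StarSubalgebra ℂ D) [FiniteDimensional ℂ S] {b : D} (hb : b ∈ S)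
    (hsa : IsSelfAdjoint b) :
    ∃ hp ∈ S, ∃ hm ∈ S, IsStarProjection hp ∧ IsStarProjection hm ∧ hp * hm = 0 ∧
      (hp + hm) * b = b ∧ (∀ o, o * b = b → o * hp = hp ∧ o * hm = hm) ∧
      ∀ U, U * b = -(b * U) → U * hp = hm * U ∧ U * hm = hp * U := by
  classical
  have hf := finite_spec S hb
  refine ⟨cfc (fun t : ℝ => if 0 < t then (1 : ℝ) else 0) b, SpecAux.mem S hb _,
    cfc (fun t : ℝ => if t < 0 then (1 : ℝ) else 0) b, SpecAux.mem S hb _,
    SpecAux.proj hf _, SpecAux.proj hf _, ?_, ?_, ?_, ?_⟩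
  · rw [SpecAux.mul hf, ← cfc_const_zero ℝ b]
    refine cfc_congr fun t _ => ?_
    by_cases h : 0 < t
    · simp [h, not_lt.2 h.le]
    · simp [h]
  · rw [SpecAux.add hf, SpecAux.idr hf hsa]
    conv_rhs => rw [← cfc_id' ℝ b]
    refine cfc_congr fun t _ => ?_
    rcases lt_trichotomy t 0 with h | h | h
    · simp [h, not_lt.2 h.le]
    · simp [h]
    · simp [h, not_lt.2 h.le]
  · intro o ho
    have key : ∀ (p : ℝ → Prop) [DecidablePred p], ¬ p 0 →
        o * cfc (fun t : ℝ => if p t then (1 : ℝ) else 0) b =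
          cfc (fun t : ℝ => if p t then (1 : ℝ) else 0) b := by
      intro p _ hp0
      have h1 : cfc (fun t : ℝ => if p t then (1 : ℝ) else 0) b =
          b * cfc (fun t : ℝ => if p t then t⁻¹ else 0) b := by
        rw [SpecAux.idl hf hsa]
        refine cfc_congr fun t _ => ?_
        by_cases h : p t
        · have h' : t ≠ 0 := fun h' => hp0 (h' ▸ h)
          simp only [h, if_true]
          rw [mul_inv_cancel₀ h']
        · simp only [h, if_false, mul_zero]
      rw [h1, ← mul_assoc, ho]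
    exact ⟨key _ (lt_irrefl _), key _ (lt_irrefl _)⟩
  · intro U hU
    obtain ⟨χ, hχ⟩ : ∃ χ, χ = cfc (fun v : ℝ => if v = 0 then (0 : ℝ) else 1 / 2) (b * b) :=
      ⟨_, rfl⟩
    obtain ⟨φ, hφ⟩ : ∃ φ, φ = cfc (fun v : ℝ => (2 * √v)⁻¹) (b * b) := ⟨_, rfl⟩
    have hUk : Commute U (b * b) := by
      show U * (b * b) = b * b * U
      rw [← mul_assoc, hU, neg_mul, mul_assoc, hU, mul_neg, neg_neg, mul_assoc]
    have hUχ : U * χ = χ * U := by rw [hχ]; exact SpecAux.comm hUk _
    have hUφ : U * φ = φ * U := by rw [hφ]; exact SpecAux.comm hUk _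
    have hp : cfc (fun t : ℝ => if 0 < t then (1 : ℝ) else 0) b = χ + b * φ := by
      rw [hχ, hφ, ← SpecAux.comp_sq hf hsa, ← SpecAux.comp_sq hf hsa, SpecAux.idl hf hsa,
        SpecAux.add hf]
      refine cfc_congr fun t _ => ?_
      simp only [Real.sqrt_mul_self_eq_abs, mul_self_eq_zero]
      rcases lt_trichotomy t 0 with h | h | h
      · rw [if_neg (not_lt.2 h.le), if_neg h.ne, abs_of_neg h]
        have := h.ne
        field_simp
        ring
      · simp [h]
      · rw [if_pos h, if_neg h.ne', abs_of_pos h]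
        have := h.ne'
        field_simp
        ring
    have hm : cfc (fun t : ℝ => if t < 0 then (1 : ℝ) else 0) b = χ - b * φ := by
      rw [hχ, hφ, ← SpecAux.comp_sq hf hsa, ← SpecAux.comp_sq hf hsa, SpecAux.idl hf hsa,
        SpecAux.sub hf]
      refine cfc_congr fun t _ => ?_
      simp only [Real.sqrt_mul_self_eq_abs, mul_self_eq_zero]
      rcases lt_trichotomy t 0 with h | h | h
      · rw [if_pos h, if_neg h.ne, abs_of_neg h]
        have := h.ne
        field_simp
        ring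
      · simp [h]
      · rw [if_neg (not_lt.2 h.le), if_neg h.ne', abs_of_pos h]
        have := h.ne'
        field_simp
        ring
    have h3 : U * (b * φ) = -(b * φ * U) := by
      rw [← mul_assoc, hU, neg_mul, mul_assoc, hUφ, mul_assoc]
    rw [hp, hm]
    constructor
    · rw [mul_add, sub_mul, hUχ, h3, sub_eq_add_neg]
    · rw [mul_sub, add_mul, hUχ, h3, sub_neg_eq_add]

end Pool.Agent.P.MP_5d580a_an.Ng
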