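import Pool.Agent.P.MP_5d580a_an.N.B1
import Pool.Agent.P.MP_5d580a_an.N.B2
import Pool.Agent.P.MP_5d580a_an.N.Spec

open scoped ComplexOrder InnerProductSpace ComplexConjugate
open Filter Topology

set_option linter.unusedSectionVars false
set_option linter.unusedVariables false
set_option linter.deprecated false

noncomputable section

namespace Pool.Agent.P.MP_5d580a_an.Ng

variable {D C : Type} [CStarAlgebra D] [CStarAlgebra C]
variable {H : Type} [NormedAddCommGroup H] [InnerProductSpace ℂ H] [CompleteSpace H]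
variable {L : Type} [NormedAddCommGroup L] [InnerProductSpace ℂ L] [CompleteSpace L]

variable {T : Tower D} {π : D →ₗ[ℂ] (H →L[ℂ] H)}

theorem Blk_DdB (T : Tower D) (n j w : ℕ) : T.Dd n j w ∈ T.B (n + j) :=
  T.AB le_rfl (T.Dd_mem n j w)

theorem Blk_EB (T : Tower D) (n j w : ℕ) : T.E n j w ∈ T.B (n + j) :=
  T.AB le_rfl (T.E_mem n j w)

theorem Blk_Dd_split (T : Tower D) {ω : ℕ → ℕ} (hω : IsPath ω) (n i j : ℕ) :
    T.Dd n (i + j) (ω (n + (i + j))) =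
      T.Dd (n + i) j (ω (n + i + j)) * T.Dd n i (ω (n + i)) := by
  rw [T.Dd_add, ← add_assoc, hω.div (n + i) j]
  exact (T.Dd_comm (n + i) j _ (T.Dd_mem n i _)).eq.symm

theorem Blk_DD_split (T : Tower D) {ω : ℕ → ℕ} (hω : IsPath ω) (n i j : ℕ) :
    T.Dd n (i + j) (ω (n + (i + j))) * T.Dd n (i + j) (ω (n + (i + j))) =
      (T.Dd (n + i) j (ω (n + i + j)) * T.Dd (n + i) j (ω (n + i + j))) *
        (T.Dd n i (ω (n + i)) * T.Dd n i (ω (n + i))) := by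
  rw [Blk_Dd_split T hω]
  have hc := (T.Dd_comm (n + i) j (ω (n + i + j)) (T.Dd_mem n i (ω (n + i)))).eq
  set a := T.Dd (n + i) j (ω (n + i + j))
  set b := T.Dd n i (ω (n + i))
  calc a * b * (a * b) = a * (b * a) * b := by simp only [mul_assoc]
    _ = a * (a * b) * b := by rw [hc]
    _ = a * a * (b * b) := by simp only [mul_assoc]

theorem Blk_apply_le (hπ : IsRep T π) {n : ℕ} {x : D} (hx : x ∈ T.B n) (h1 : ‖x‖ ≤ 1) (η : H) :
    ‖π x η‖ ≤ ‖η‖ :=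
  (hπ.apply_le hx η).trans (mul_le_of_le_one_left (norm_nonneg _) h1)

theorem Blk_Dd_step (hπ : IsRep T π) {ω : ℕ → ℕ} (hω : IsPath ω) (n i j : ℕ) (η : H) :
    ‖π (T.Dd n (i + j) (ω (n + (i + j)))) η‖ ≤ ‖π (T.Dd n i (ω (n + i))) η‖ := by
  rw [Blk_Dd_split T hω, hπ.mul_apply (Blk_DdB T _ _ _) (Blk_DdB T _ _ _)]
  exact Blk_apply_le hπ (Blk_DdB T _ _ _) (T.Dd_norm _ _ _) _

theorem Blk_DD_norm (T : Tower D) (n j w : ℕ) : ‖T.Dd n j w * T.Dd n j w‖ ≤ 1 :=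
  (norm_mul_le _ _).trans
    (mul_le_one₀ (T.Dd_norm n j w) (norm_nonneg _) (T.Dd_norm n j w))

theorem Blk_inner_DD (hπ : IsRep T π) (n j w : ℕ) (ξ : H) :
    ⟪ξ, π (T.Dd n j w * T.Dd n j w) ξ⟫_ℂ = ((‖π (T.Dd n j w) ξ‖ ^ 2 : ℝ) : ℂ) := by
  have hsa : star (π (T.Dd n j w)) = π (T.Dd n j w) :=
    ((hπ (n + j)).sa (Blk_DdB T n j w) (T.Dd_sa n j w)).star_eq
  rw [hπ.mul_apply (Blk_DdB T _ _ _) (Blk_DdB T _ _ _)]
  have h := inner_star_right (π (T.Dd n j w)) ξ (π (T.Dd n j w) ξ)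
  rw [hsa] at h
  rw [h, inner_self_eq_norm_sq_to_K]
  push_cast
  rfl

theorem memory (hπ : IsRep T π) (hirr : Irr (opsB T π) (Fix1 (π 1))) (hg : ¬ Good T π) :
    ∃ ω, IsPath ω ∧ ∃ n, ∃ η ∈ atom T π ω n, ∃ δ : ℝ, 0 < δ ∧
      ∀ j, δ ≤ ‖π (T.Dd n j (ω (n + j))) η‖ := by
  have hg' : ∃ n y, y < 2 ^ (n + 1) ∧ ∃ η,
      ¬ Tendsto (fun j => π (T.Rm n j (desc y j)) η) atTop (𝓝 0) := by
    by_contra hc
    exact hg fun n y hy η => by
      by_contra hc'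
      exact hc ⟨n, y, hy, η, hc'⟩
  obtain ⟨n, y, hy, η, hη⟩ := hg'
  have h1 : ∃ ω, IsPath ω ∧ ω n = y ∧
      ¬ Tendsto (fun j => π (T.E n j (ω (n + j))) η) atTop (𝓝 0) := by
    by_contra hc
    refine hη (no_atom hπ hirr hy η fun ω hω hn => ?_)
    by_contra hc'
    exact hc ⟨ω, hω, hn, hc'⟩
  obtain ⟨ω, hω, hωn, hne⟩ := h1
  have hqp : ∀ j, IsStarProjection (π (T.E n j (ω (n + j)))) := fun j =>
    (hπ (n + j)).proj (Blk_EB T n j _) (T.E_proj n j _)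
  have hqs : ∀ j, π (T.E n j (ω (n + j))) * π (T.E n (j + 1) (ω (n + (j + 1)))) =
      π (T.E n (j + 1) (ω (n + (j + 1)))) := fun j => by
    rw [← hπ.mul (Blk_EB T _ _ _) (Blk_EB T _ _ _), T.E_succ_path hω]
  obtain ⟨P, hP, hPF⟩ := exists_prj (Fix fun j => π (T.E n j (ω (n + j)))) (isClosed_Fix _)
  have hlim : Tendsto (fun j => π (T.E n j (ω (n + j))) η) atTop (𝓝 (P η)) :=
    dec_lim (q := fun j => π (T.E n j (ω (n + j)))) hqp hqs hP hPF η
  have hη' : P η ≠ 0 := fun h => hne (h ▸ hlim)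
  have hPa : P η ∈ atom T π ω n := by
    have h := prj_mem hP η
    rw [hPF] at h
    exact atom_of_E hπ hω (mem_Fix.1 h)
  have hat : atoms T π ω = Fix1 (π 1) := by
    rcases hirr _ isClosed_atoms (atoms_le hπ) (atoms_inv hπ hω) with h | h
    · exfalso
      have h2 := atom_le_atoms n hPa
      rw [h] at h2
      exact hη' ((Submodule.mem_bot ℂ).1 h2)
    · exact h
  refine ⟨ω, hω, n, P η, hPa, ?_⟩
  by_contra hc
  have hc' : ∀ δ : ℝ, 0 < δ → ∃ j, ‖π (T.Dd n j (ω (n + j))) (P η)‖ < δ := by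
    intro δ hδ
    by_contra h
    exact hc ⟨δ, hδ, fun j => not_lt.1 fun h' => h ⟨j, h'⟩⟩
  apply hη
  have hD : Tendsto (fun j => ‖π (T.Dd n j (ω (n + j))) (P η)‖) atTop (𝓝 0) := by
    rw [Metric.tendsto_atTop]
    intro ε hε
    obtain ⟨j, hj⟩ := hc' ε hε
    refine ⟨j, fun k hk => ?_⟩
    obtain ⟨i, rfl⟩ := Nat.exists_eq_add_of_le hk
    rw [Real.dist_eq, sub_zero, abs_of_nonneg (norm_nonneg _)]
    exact (Blk_Dd_step hπ hω n j i _).trans_lt hj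
  have h1mem : π 1 η ∈ atoms T π ω := by
    rw [hat]
    exact prj_mem (hπ 0).one_proj η
  have hoff : Tendsto (fun j => π (T.Rm n j ((desc y j).erase (ω (n + j)))) η) atTop (𝓝 0) := by
    refine (off_path hπ hω h1mem hy).congr fun j => ?_
    rw [← hπ.mul_apply (T.Rm_mem n j _) (one_mem (T.B 0)), mul_one]
  have hE : Tendsto (fun j => ‖π (T.E n j (ω (n + j))) η - P η‖) atTop (𝓝 0) :=
    tendsto_iff_norm_sub_tendsto_zero.1 hlim
  have hon : Tendsto (fun j => π (T.E n j (ω (n + j)) * T.Dd n j (ω (n + j)) *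
      T.t (n + j) (ω (n + j))) η) atTop (𝓝 0) := by
    have hs := hD.add hE
    rw [add_zero] at hs
    refine squeeze_zero_norm (fun j => ?_) hs
    have hcomm : T.E n j (ω (n + j)) * T.Dd n j (ω (n + j)) * T.t (n + j) (ω (n + j)) =
        T.t (n + j) (ω (n + j)) * (T.Dd n j (ω (n + j)) * T.E n j (ω (n + j))) := by
      rw [(T.E_Dd n j _ n j _).eq]
      exact (T.t_cent (n + j) _ _ (mul_mem (Blk_DdB T _ _ _) (Blk_EB T _ _ _))).eq.symm
    rw [hcomm, hπ.mul_apply (T.t_mem _ _) (mul_mem (Blk_DdB T _ _ _) (Blk_EB T _ _ _)),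
      hπ.mul_apply (Blk_DdB T _ _ _) (Blk_EB T _ _ _)]
    refine (Blk_apply_le hπ (T.t_mem _ _) (T.t_proj _ _).norm_le _).trans ?_
    have hsplit : π (T.Dd n j (ω (n + j))) (π (T.E n j (ω (n + j))) η) =
        π (T.Dd n j (ω (n + j))) (P η) +
          π (T.Dd n j (ω (n + j))) (π (T.E n j (ω (n + j))) η - P η) := by
      rw [map_sub, add_sub_cancel]
    rw [hsplit]
    exact (norm_add_le _ _).trans (add_le_add le_rfl
      (Blk_apply_le hπ (Blk_DdB T _ _ _) (T.Dd_norm _ _ _) _))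
  have hs := hon.add hoff
  rw [add_zero] at hs
  refine hs.congr fun j => ?_
  have hmem : ω (n + j) ∈ desc y j := hωn ▸ hω.mem_desc n j
  rw [← ContinuousLinearMap.add_apply, ← map_add]
  congr 2
  exact Finset.add_sum_erase (desc y j)
    (fun w => T.E n j w * T.Dd n j w * T.t (n + j) w) hmem

/-- a vector on which the tails of the memory factors are almost isometric -/
theorem memory_vec (hπ : IsRep T π) {ω : ℕ → ℕ} (hω : IsPath ω) {n : ℕ} {η : H}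
    (hη : η ∈ atom T π ω n) {δ : ℝ} (hδ : 0 < δ) (h : ∀ j, δ ≤ ‖π (T.Dd n j (ω (n + j))) η‖) :
    ∃ ζ ∈ atom T π ω n, ζ ≠ 0 ∧ ∀ ε : ℝ, 0 < ε → ∃ N₀, ∀ N, N₀ ≤ N → ∀ j,
      ‖ζ - π (T.Dd N j (ω (N + j)) * T.Dd N j (ω (N + j))) ζ‖ ≤ ε := by
  obtain ⟨G, hG⟩ : ∃ G : ℕ → (H →L[ℂ] H),
      ∀ j, G j = π (T.Dd n j (ω (n + j)) * T.Dd n j (ω (n + j))) := ⟨_, fun _ => rfl⟩
  have hmem : ∀ N j w, T.Dd N j w * T.Dd N j w ∈ T.B (N + j) := fun N j w =>
    mul_mem (Blk_DdB T _ _ _) (Blk_DdB T _ _ _)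
  have hsa : ∀ j, IsSelfAdjoint (-G j) := fun j => by
    rw [hG]
    refine IsSelfAdjoint.neg ((hπ (n + j)).sa (hmem _ _ _) ?_)
    exact ((T.Dd_sa n j _).commute_iff (T.Dd_sa n j _)).1 (Commute.refl _)
  have hmono : ∀ j, -G j ≤ -G (j + 1) := fun j => by
    rw [← sub_nonneg, nonneg_iff_inner]
    intro ξ
    have e : (-G (j + 1) - -G j) ξ = G j ξ - G (j + 1) ξ := by
      simp only [ContinuousLinearMap.sub_apply, ContinuousLinearMap.neg_apply]
      abel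
    rw [e, inner_sub_right, hG, hG, Blk_inner_DD hπ, Blk_inner_DD hπ, ← Complex.ofReal_sub,
      Complex.zero_le_real, sub_nonneg]
    exact pow_le_pow_left₀ (norm_nonneg _) (Blk_Dd_step hπ hω n j 1 ξ) 2
  have hK : ∀ j, ‖-G j‖ ≤ 1 := fun j => by
    rw [norm_neg, hG]
    exact ((hπ (n + j)).norm_le _ (hmem _ _ _)).trans (Blk_DD_norm T _ _ _)
  obtain ⟨z, -, -, -, hz⟩ := exists_mono_lim (fun j => -G j) hsa hmono 1 hK
  have hlim : Tendsto (fun j => G j η) atTop (𝓝 (-z η)) := by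
    have h2 := (hz η).neg
    simpa only [ContinuousLinearMap.neg_apply, neg_neg] using h2
  generalize -z η = ζ at hlim
  refine ⟨ζ, ?_, ?_, ?_⟩
  · rw [mem_atom] at hη ⊢
    intro k hk
    have h2 := ((π (T.m k (ω (k + 1)))).continuous.tendsto ζ).comp hlim
    refine tendsto_nhds_unique h2 (hlim.congr fun j => ?_)
    have hm : T.m k (ω (k + 1)) ∈ T.B (k + 1) := T.AB le_rfl (T.m_mem _ _)
    have hc := ((T.m_Dd k (ω (k + 1)) n j (ω (n + j))).mul_right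
      (T.m_Dd k (ω (k + 1)) n j (ω (n + j)))).eq
    show G j η = π (T.m k (ω (k + 1))) (G j η)
    rw [hG, ← hπ.mul_apply hm (hmem _ _ _), hc, hπ.mul_apply (hmem _ _ _) hm, hη k hk]
  · rintro rfl
    have h2 : Tendsto (fun j => (⟪η, G j η⟫_ℂ).re) atTop (𝓝 (⟪η, (0 : H)⟫_ℂ).re) :=
      (Complex.continuous_re.tendsto _).comp (Tendsto.inner tendsto_const_nhds hlim)
    rw [inner_zero_right, Complex.zero_re] at h2
    have h3 : δ ^ 2 ≤ 0 := by
      refine ge_of_tendsto' h2 fun j => ?_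
      rw [hG, Blk_inner_DD hπ, Complex.ofReal_re]
      exact pow_le_pow_left₀ hδ.le (h j) 2
    exact absurd h3 (not_le.2 (pow_pos hδ 2))
  · intro ε hε
    obtain ⟨j₀, hj₀⟩ := Metric.tendsto_atTop.1 hlim (ε / 2) (half_pos hε)
    refine ⟨n + j₀, fun N hN j => ?_⟩
    obtain ⟨i, rfl⟩ : ∃ i, N = n + i := ⟨N - n, by omega⟩
    have hi : j₀ ≤ i := by omega
    have e1 : π (T.Dd (n + i) j (ω (n + i + j)) * T.Dd (n + i) j (ω (n + i + j))) (G i η) =
        G (i + j) η := by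
      rw [hG, hG, Blk_DD_split T hω n i j, hπ.mul_apply (hmem _ _ _) (hmem _ _ _)]
    have e2 : ζ - π (T.Dd (n + i) j (ω (n + i + j)) * T.Dd (n + i) j (ω (n + i + j))) ζ =
        π (T.Dd (n + i) j (ω (n + i + j)) * T.Dd (n + i) j (ω (n + i + j))) (G i η - ζ) -
          (G (i + j) η - ζ) := by
      rw [map_sub, e1]
      abel
    have b1 := hj₀ i hi
    have b2 := hj₀ (i + j) (by omega)
    rw [dist_eq_norm] at b1 b2
    have b3 := Blk_apply_le hπ (hmem (n + i) j (ω (n + i + j))) (Blk_DD_norm T _ _ _) (G i η - ζ)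
    rw [e2]
    refine (norm_sub_le _ _).trans ?_
    linarith

theorem Blk_A_DD (T : Tower D) (n j w : ℕ) :
    Commute (T.Aa n j w) (T.Dd n j w * T.Dd n j w) := by
  have h := eq_neg_of_add_eq_zero_left (T.Aa_anti n j w)
  set a := T.Aa n j w
  set d := T.Dd n j w
  show a * (d * d) = d * d * a
  calc a * (d * d) = a * d * d := by rw [mul_assoc]
    _ = -(d * (a * d)) := by rw [h, neg_mul, mul_assoc, h]
    _ = d * d * a := by rw [h, mul_neg, neg_neg, mul_assoc]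

theorem Blk_est (T : Tower D) (n j y : ℕ) {w : ℕ} (hw : w ∈ desc y j) {χ u : D}
    (hχ : χ ∈ T.A (n + j)) (hp : IsStarProjection χ) (hEu : Commute (T.E n j w) u) {c : ℝ}
    (hc : 0 ≤ c) (h1 : ‖T.Dd n j w * χ - u‖ ≤ c)
    (h2 : ‖(1 - T.Dd n j w * T.Dd n j w) * χ‖ ≤ c ^ 2) :
    ‖T.s n y * (T.E n j w * χ) - u * T.E n j w * T.s (n + j) w‖ ≤ 2 * c := by
  have hs := T.s_E n j y hw
  have hc1 := (T.s_cent (n + j) w (mul_mem (Blk_EB T n j w) (T.AB le_rfl hχ))).eq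
  have hEd := (T.E_Dd n j w n j w).eq
  have hEa := (T.E_Aa n j w n j w).eq
  have hsq := eq_sub_of_add_eq (T.Aa_sq n j w)
  have hsa := (T.Aa_sa n j w).star_eq
  have hE1 : ‖T.E n j w‖ ≤ 1 := (T.E_proj n j w).norm_le
  have hs1 := T.s_norm (n + j) w
  have hEu' := hEu.eq
  set a := T.Aa n j w
  set d := T.Dd n j w
  set E := T.E n j w
  set s' := T.s (n + j) w
  have e : T.s n y * (E * χ) - u * E * s' = E * (a * χ) + E * ((d * χ - u) * s') := by
    calc T.s n y * (E * χ) - u * E * s' = T.s n y * E * χ - u * E * s' := by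
          rw [mul_assoc (T.s n y)]
      _ = (a * E) * χ + d * (s' * (E * χ)) - u * E * s' := by
          rw [hs]; noncomm_ring
      _ = (E * a) * χ + (d * E) * χ * s' - E * u * s' := by
          rw [hc1, hEa, hEu']; noncomm_ring
      _ = E * (a * χ) + E * ((d * χ - u) * s') := by
          rw [← hEd]; noncomm_ring
  have ha : ‖a * χ‖ ≤ c := by
    refine le_of_sq_le_sq ?_ hc
    have e2 : star (a * χ) * (a * χ) = χ * ((1 - d * d) * χ) := by
      rw [star_mul, hsa, hp.isSelfAdjoint.star_eq, ← hsq]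
      simp only [mul_assoc]
    rw [sq, ← CStarRing.norm_star_mul_self, e2]
    exact (norm_mul_le _ _).trans
      ((mul_le_of_le_one_left (norm_nonneg _) hp.norm_le).trans h2)
  have hb : ‖(d * χ - u) * s'‖ ≤ c :=
    (norm_mul_le _ _).trans ((mul_le_of_le_one_right (norm_nonneg _) hs1).trans h1)
  have k1 : ‖E * (a * χ)‖ ≤ c :=
    (norm_mul_le _ _).trans ((mul_le_of_le_one_left (norm_nonneg _) hE1).trans ha)
  have k2 : ‖E * ((d * χ - u) * s')‖ ≤ c :=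
    (norm_mul_le _ _).trans ((mul_le_of_le_one_left (norm_nonneg _) hE1).trans hb)
  rw [e]
  refine (norm_add_le _ _).trans ?_
  linarith

theorem Blk_e_comm (b : Blk T) {i j : ℕ} (hij : i < j) : Commute (b.e j) (b.e i) := by
  have hN : Monotone b.N := monotone_nat_of_le_succ fun i => by rw [b.succ]; omega
  have h1 : T.E (b.N i) (b.J i) (b.ω (b.N (i + 1))) ∈ T.A (b.N (i + 1)) := by
    rw [b.succ i]
    exact T.E_mem _ _ _
  have h2 : b.e i ∈ T.A (b.N j) := T.A_mono (hN hij) (mul_mem h1 (b.χ_mem i))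
  exact (T.E_comm _ _ _ h2).mul_left (b.χ_comm j _ h2)

theorem Blk_e_mem (b : Blk T) (i : ℕ) : b.e i ∈ T.B (b.N (i + 1)) := by
  have h1 : T.E (b.N i) (b.J i) (b.ω (b.N (i + 1))) ∈ T.A (b.N (i + 1)) := by
    rw [b.succ i]
    exact T.E_mem _ _ _
  exact T.AB le_rfl (mul_mem h1 (b.χ_mem i))

theorem Blk_fix (hπ : IsRep T π) (b : Blk T) {ζ₀ : H} (h0 : ζ₀ ≠ 0)
    (hs : ∀ i, ‖ζ₀ - π (b.e i) ζ₀‖ ≤ (1 / 2 : ℝ) ^ i * (‖ζ₀‖ / 4)) :
    ∃ ζ : H, ζ ≠ 0 ∧ ∀ i, π (b.e i) ζ = ζ := by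
  have hc : ∀ i j, Commute (b.e i) (b.e j) := fun i j => by
    rcases lt_trichotomy i j with h | rfl | h
    · exact (Blk_e_comm b h).symm
    · exact Commute.refl _
    · exact Blk_e_comm b h
  refine prod_fix (q := fun i => π (b.e i)) (fun i => ?_) (fun i j => ?_) h0 hs
  · exact (hπ _).proj (Blk_e_mem b i) ((T.E_proj _ _ _).mul (b.χ_proj i) (b.χ_E i).symm)
  · show π (b.e i) * π (b.e j) = π (b.e j) * π (b.e i)
    rw [← hπ.mul (Blk_e_mem b i) (Blk_e_mem b j), ← hπ.mul (Blk_e_mem b j) (Blk_e_mem b i),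
      (hc i j).eq]

theorem exists_blk (hπ : IsRep T π) (hirr : Irr (opsB T π) (Fix1 (π 1))) (hg : ¬ Good T π) :
    ∃ b : Blk T, ∃ ζ : H, ζ ≠ 0 ∧ ∀ i, π (b.e i) ζ = ζ := by
  obtain ⟨ω, hω, n, η, hη, δ, hδ, hd⟩ := memory hπ hirr hg
  obtain ⟨ζ, hζ, h0, htail⟩ := memory_vec hπ hω hη hδ hd
  have hζ0 : 0 < ‖ζ‖ := norm_pos_iff.2 h0
  have hε0 : ∀ i : ℕ, 0 < ((1 / 2 : ℝ) ^ (i + 1)) ^ 2 := fun i => by positivity
  have hc1 : ∀ i : ℕ, (1 / 2 : ℝ) ^ (i + 1) < 1 := fun i =>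
    pow_lt_one₀ (by norm_num) (by norm_num) (Nat.succ_ne_zero i)
  have hε1 : ∀ i : ℕ, ((1 / 2 : ℝ) ^ (i + 1)) ^ 2 < 1 := fun i =>
    pow_lt_one₀ (by positivity) (hc1 i) (by norm_num)
  have hε2 : ∀ i : ℕ, ((1 / 2 : ℝ) ^ (i + 1)) ^ 2 ≤ (1 / 2 : ℝ) ^ (i + 1) := fun i => by
    rw [sq]
    exact mul_le_of_le_one_left (by positivity) (hc1 i).le
  choose M hM using fun i : ℕ => htail
    (((1 / 2 : ℝ) ^ (i + 1)) ^ 2 * ((1 / 2 : ℝ) ^ i * (‖ζ‖ / 4))) (by positivity)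
  obtain ⟨N, hN0, hNs⟩ : ∃ N : ℕ → ℕ, N 0 = n + M 0 ∧ ∀ i, N (i + 1) = N i + (M (i + 1) + 1) :=
    ⟨fun i => Nat.rec (n + M 0) (fun i x => x + (M (i + 1) + 1)) i, rfl, fun _ => rfl⟩
  have hNn : ∀ i, n ≤ N i := fun i => by
    induction i with
    | zero => omega
    | succ i ih => rw [hNs]; omega
  have hNM : ∀ i, M i ≤ N i := fun i => by
    cases i with
    | zero => omega
    | succ i => rw [hNs]; omega
  obtain ⟨J, hJ0, hJ⟩ : ∃ J : ℕ → ℕ, (∀ i, 0 < J i) ∧ ∀ i, N (i + 1) = N i + J i :=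
    ⟨fun i => M (i + 1) + 1, fun i => Nat.succ_pos _, hNs⟩
  have hang := fun i : ℕ =>
    haveI := T.finA (N i + J i)
    ang (T.A (N i + J i)) (T.Dd_mem (N i) (J i) (ω (N i + J i))) (T.Dd_sa _ _ _)
      (T.Dd_norm _ _ _) (hε0 i) (hε1 i)
  choose χ hχ u hu y hy hp husa huu huχ hcχ hcu he1 he2 he3 he4 using hang
  have hEχ : ∀ i, Commute (T.E (N i) (J i) (ω (N i + J i))) (χ i) := fun i =>
    hcχ i _ ((T.E_Dd _ _ _ _ _ _).mul_right (T.E_Dd _ _ _ _ _ _))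
  have hEu : ∀ i, Commute (T.E (N i) (J i) (ω (N i + J i))) (u i) := fun i =>
    hcu i _ (T.E_Dd _ _ _ _ _ _)
  have hEE : ∀ i, T.E (N i) (J i) (ω (N i + J i)) * T.E (N i) (J i) (ω (N i + J i)) =
      T.E (N i) (J i) (ω (N i + J i)) := fun i => (T.E_proj _ _ _).isIdempotentElem.eq
  let b : Blk T :=
    { ω := ω
      N := N
      J := J
      χ := χ
      u := fun i => u i * T.E (N i) (J i) (ω (N i + J i))
      path := hω
      succ := hJ
      pos := hJ0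
      χ_mem := fun i => by rw [hJ]; exact hχ i
      χ_proj := hp
      χ_comm := fun i a ha =>
        (hcχ i a ((T.Dd_comm _ _ _ ha).symm.mul_right (T.Dd_comm _ _ _ ha).symm)).symm
      χ_E := fun i => by rw [hJ]; exact (hEχ i).symm
      χ_A := fun i => by rw [hJ]; exact (hcχ i _ (Blk_A_DD T _ _ _)).symm
      χ_D := fun i => by
        rw [hJ]; exact (hcχ i _ ((Commute.refl _).mul_right (Commute.refl _))).symm
      u_mem := fun i => by rw [hJ]; exact mul_mem (hu i) (T.E_mem _ _ _)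
      u_sa := fun i =>
        ((husa i).commute_iff (T.E_proj _ _ _).isSelfAdjoint).1 (hEu i).symm
      u_comm := fun i a ha =>
        (hcu i a (T.Dd_comm _ _ _ ha).symm).symm.mul_left (T.E_comm _ _ _ ha)
      u_sq := fun i => by
        rw [hJ, (hEχ i).eq, ← huu i, mul_assoc, ← mul_assoc (T.E _ _ _) (u i), (hEu i).eq,
          mul_assoc (u i), hEE i, mul_assoc]
      u_e := fun i => by
        rw [hJ, mul_assoc, ← mul_assoc (T.E _ _ _) (T.E _ _ _), hEE i, (hEχ i).eq, ← mul_assoc,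
          huχ i]
      est := fun i => by
        rw [hJ]
        have h := Blk_est T (N i) (J i) (ω (N i)) (hω.mem_desc (N i) (J i)) (hχ i) (hp i) (hEu i)
          (c := (1 / 2 : ℝ) ^ (i + 1)) (by positivity) ((he1 i).trans (hε2 i)) (he2 i)
        refine h.trans (le_of_eq ?_)
        rw [pow_succ]
        ring }
  refine ⟨b, Blk_fix hπ b h0 fun i => ?_⟩
  have e0 : b.e i = χ i * T.E (N i) (J i) (ω (N i + J i)) := by
    show T.E (N i) (J i) (ω (N (i + 1))) * χ i = _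
    rw [hJ, (hEχ i).eq]
  have hχB : χ i ∈ T.B (N i + J i) := T.AB le_rfl (hχ i)
  have hyB : y i ∈ T.B (N i + J i) := T.AB le_rfl (hy i)
  have hdd : T.Dd (N i) (J i) (ω (N i + J i)) * T.Dd (N i) (J i) (ω (N i + J i)) ∈
      T.B (N i + J i) := mul_mem (Blk_DdB T _ _ _) (Blk_DdB T _ _ _)
  have e1 : ζ - π (b.e i) ζ = π (y i) (ζ - π (T.Dd (N i) (J i) (ω (N i + J i)) *
      T.Dd (N i) (J i) (ω (N i + J i))) ζ) := by
    have h1 := atom_one hπ hζ
    have h2 : π (1 - χ i) ζ = ζ - π (χ i) ζ := by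
      rw [map_sub, ContinuousLinearMap.sub_apply, h1]
    rw [e0, hπ.mul_apply hχB (Blk_EB T _ _ _), atom_E hπ hω hζ (hNn i), ← h2, he3 i,
      hπ.mul_apply hyB (sub_mem (one_mem _) hdd), map_sub π, ContinuousLinearMap.sub_apply, h1]
  rw [e1]
  refine (hπ.apply_le hyB _).trans ?_
  refine (mul_le_mul (he4 i) (hM i (N i) (hNM i) (J i)) (norm_nonneg _)
    (one_div_pos.2 (hε0 i)).le).trans (le_of_eq ?_)
  rw [← mul_assoc, one_div_mul_cancel (hε0 i).ne', one_mul]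

end Pool.Agent.P.MP_5d580a_an.Ng
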