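import Pool.Agent.P.MP_5d580a_an.N.Defs

open scoped ComplexOrder InnerProductSpace ComplexConjugate
open Filter Topology

set_option linter.unusedSectionVars false
set_option linter.unusedVariables false
set_option linter.deprecated false

noncomputable section

namespace Pool.Agent.P.MP_5d580a_an.Ng

variable {D C : Type} [CStarAlgebra D] [CStarAlgebra C]
variable {H : Type} [NormedAddCommGroup H] [InnerProductSpace ℂ H] [CompleteSpace H]
variable {L : Type} [NormedAddCommGroup L] [InnerProductSpace ℂ L] [CompleteSpace L]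

theorem HomAux.closed_of_fin (S : StarSubalgebra ℂ D) [h : FiniteDimensional ℂ S] :
    IsClosed (S : Set D) := by
  have hfin : FiniteDimensional ℂ (Subalgebra.toSubmodule S.toSubalgebra) := h
  exact (Subalgebra.toSubmodule S.toSubalgebra).closed_of_finiteDimensional

theorem HomAux.le_of_mul_self_le {a b : ℝ} (hb : 0 ≤ b) (h : a * a ≤ b * b) : a ≤ b := by
  by_contra hlt
  push Not at hlt
  nlinarith

theorem HomOn.of_closed {S : StarSubalgebra ℂ D} (hS : IsClosed (S : Set D)) {f : D →ₗ[ℂ] C}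
    (hm : ∀ x ∈ S, ∀ y ∈ S, f (x * y) = f x * f y) (hs : ∀ x ∈ S, f (Star.star x) = Star.star (f x)) :
    HomOn S f := by
  refine ⟨hm, hs, fun x hx => ?_⟩
  have : IsClosed (S : Set D) := hS
  let φ : S →⋆ₙₐ[ℂ] C :=
    { toFun := fun y => f y
      map_smul' := fun c y => by simp
      map_zero' := by simp
      map_add' := fun y z => by simp
      map_mul' := fun y z => hm _ y.2 _ z.2
      map_star' := fun y => hs _ y.2 }
  exact NonUnitalStarAlgHom.norm_apply_le φ ⟨x, hx⟩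

theorem HomOn.mono {S S' : StarSubalgebra ℂ D} {f : D →ₗ[ℂ] C} (h : HomOn S f) (hS : S' ≤ S) :
    HomOn S' f := by
  exact ⟨fun x hx y hy => h.mul x (hS hx) y (hS hy), fun x hx => h.star x (hS hx),
    fun x hx => h.norm_le x (hS hx)⟩

theorem HomOn.comp {E : Type} [CStarAlgebra E] {S : StarSubalgebra ℂ D} {S' : StarSubalgebra ℂ C}
    {f : D →ₗ[ℂ] C} {g : C →ₗ[ℂ] E} (hg : HomOn S' g) (hf : HomOn S f)
    (h : ∀ x ∈ S, f x ∈ S') : HomOn S (g.comp f) := by
  refine ⟨fun x hx y hy => ?_, fun x hx => ?_, fun x hx => ?_⟩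
  · rw [LinearMap.comp_apply, LinearMap.comp_apply, LinearMap.comp_apply, hf.mul x hx y hy,
      hg.mul _ (h x hx) _ (h y hy)]
  · rw [LinearMap.comp_apply, LinearMap.comp_apply, hf.star x hx, hg.star _ (h x hx)]
  · rw [LinearMap.comp_apply]
    exact (hg.norm_le _ (h x hx)).trans (hf.norm_le x hx)

theorem HomOn.proj {S : StarSubalgebra ℂ D} {f : D →ₗ[ℂ] C} (h : HomOn S f) {x : D} (hx : x ∈ S)
    (hp : IsStarProjection x) : IsStarProjection (f x) := by
  refine ⟨?_, ?_⟩
  · show f x * f x = f x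
    rw [← h.mul x hx x hx, hp.isIdempotentElem.eq]
  · show Star.star (f x) = f x
    rw [← h.star x hx, hp.isSelfAdjoint.star_eq]

theorem HomOn.sa {S : StarSubalgebra ℂ D} {f : D →ₗ[ℂ] C} (h : HomOn S f) {x : D} (hx : x ∈ S)
    (hp : IsSelfAdjoint x) : IsSelfAdjoint (f x) := by
  show Star.star (f x) = f x
  rw [← h.star x hx, hp.star_eq]

theorem HomOn.commute {S : StarSubalgebra ℂ D} {f : D →ₗ[ℂ] C} (h : HomOn S f) {x y : D}
    (hx : x ∈ S) (hy : y ∈ S) (hc : Commute x y) : Commute (f x) (f y) := by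
  show f x * f y = f y * f x
  rw [← h.mul x hx y hy, ← h.mul y hy x hx, hc.eq]

theorem HomOn.one_proj {S : StarSubalgebra ℂ D} {f : D →ₗ[ℂ] C} (h : HomOn S f) :
    IsStarProjection (f 1) := by
  exact h.proj (one_mem S) (IsStarProjection.one D)

theorem HomOn.one_mul {S : StarSubalgebra ℂ D} {f : D →ₗ[ℂ] C} (h : HomOn S f) {x : D}
    (hx : x ∈ S) : f 1 * f x = f x := by
  rw [← h.mul 1 (one_mem S) x hx, _root_.one_mul]

theorem HomOn.mul_one {S : StarSubalgebra ℂ D} {f : D →ₗ[ℂ] C} (h : HomOn S f) {x : D}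
    (hx : x ∈ S) : f x * f 1 = f x := by
  rw [← h.mul x hx 1 (one_mem S), _root_.mul_one]

theorem HomOn.cut {S : StarSubalgebra ℂ D} {f : D →ₗ[ℂ] C} (h : HomOn S f) {q : C}
    (hq : IsStarProjection q) (hc : ∀ x ∈ S, Commute q (f x)) :
    HomOn S ((LinearMap.mulRight ℂ q).comp f) := by
  refine ⟨fun x hx y hy => ?_, fun x hx => ?_, fun x hx => ?_⟩
  · simp only [LinearMap.comp_apply, LinearMap.mulRight_apply]
    rw [h.mul x hx y hy, mul_assoc (f x) q, ← mul_assoc q (f y), (hc y hy).eq, mul_assoc (f y) q q,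
      hq.isIdempotentElem.eq, mul_assoc]
  · simp only [LinearMap.comp_apply, LinearMap.mulRight_apply]
    rw [star_mul, hq.isSelfAdjoint.star_eq, ← h.star x hx, (hc _ (star_mem hx)).eq]
  · simp only [LinearMap.comp_apply, LinearMap.mulRight_apply]
    calc ‖f x * q‖ ≤ ‖f x‖ * ‖q‖ := norm_mul_le _ _
      _ ≤ ‖x‖ * 1 := mul_le_mul (h.norm_le x hx) hq.norm_le (norm_nonneg _) (norm_nonneg _)
      _ = ‖x‖ := _root_.mul_one _

theorem norm_add_orth {p q x y : C} (hp : IsStarProjection p) (hq : IsStarProjection q)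
    (hpq : p * q = 0) (h1 : p * x = x) (h2 : x * p = x) (h3 : q * y = y) (h4 : y * q = y) {c : ℝ}
    (hx : ‖x‖ ≤ c) (hy : ‖y‖ ≤ c) : ‖x + y‖ ≤ c := by
  have hqp : q * p = 0 := by
    have := congrArg star hpq
    rwa [star_mul, hp.isSelfAdjoint.star_eq, hq.isSelfAdjoint.star_eq, star_zero] at this
  have hx1 : star x * p = star x := by
    have := congrArg star h1
    rwa [star_mul, hp.isSelfAdjoint.star_eq] at this
  have hy1 : star y * q = star y := by
    have := congrArg star h3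
    rwa [star_mul, hq.isSelfAdjoint.star_eq] at this
  have hy2 : q * star y = star y := by
    have := congrArg star h4
    rwa [star_mul, hq.isSelfAdjoint.star_eq] at this
  have e1 : star x * y = 0 := by
    rw [← hx1, ← h3, mul_assoc, ← mul_assoc p, hpq, zero_mul, mul_zero]
  have e2 : star y * x = 0 := by
    rw [← hy1, ← h1, mul_assoc, ← mul_assoc q, hqp, zero_mul, mul_zero]
  have e3 : x * star y = 0 := by
    rw [← h2, ← hy2, mul_assoc, ← mul_assoc p, hpq, zero_mul, mul_zero]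
  have e4 : star x * x * (star y * y) = 0 := by
    rw [mul_assoc, ← mul_assoc x, e3, zero_mul, mul_zero]
  have e5 : star (x + y) * (x + y) = star x * x + star y * y := by
    rw [star_add, add_mul, mul_add, mul_add, e1, e2, add_zero, zero_add]
  have e6 := (IsSelfAdjoint.star_mul_self x).norm_add_eq_max (IsSelfAdjoint.star_mul_self y) e4
  rw [← e5, CStarRing.norm_star_mul_self, CStarRing.norm_star_mul_self,
    CStarRing.norm_star_mul_self] at e6
  have hc : 0 ≤ c := (norm_nonneg x).trans hx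
  refine HomAux.le_of_mul_self_le hc ?_
  rw [e6]
  exact max_le (mul_self_le_mul_self (norm_nonneg _) hx) (mul_self_le_mul_self (norm_nonneg _) hy)

theorem HomOn.add_orth {S : StarSubalgebra ℂ D} {f g : D →ₗ[ℂ] C} (hf : HomOn S f)
    (hg : HomOn S g) (h : f 1 * g 1 = 0) : HomOn S (f + g) := by
  have h' : g 1 * f 1 = 0 := by
    have := congrArg Star.star h
    rwa [star_mul, hf.one_proj.isSelfAdjoint.star_eq, hg.one_proj.isSelfAdjoint.star_eq,
      star_zero] at this
  refine ⟨fun x hx y hy => ?_, fun x hx => ?_, fun x hx => ?_⟩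
  · have e1 : f x * g y = 0 := by
      rw [← hf.mul_one hx, ← hg.one_mul hy, mul_assoc, ← mul_assoc (f 1), h, zero_mul, mul_zero]
    have e2 : g x * f y = 0 := by
      rw [← hg.mul_one hx, ← hf.one_mul hy, mul_assoc, ← mul_assoc (g 1), h', zero_mul, mul_zero]
    simp only [LinearMap.add_apply]
    rw [add_mul, mul_add, mul_add, e1, e2, add_zero, zero_add, hf.mul x hx y hy, hg.mul x hx y hy]
  · simp only [LinearMap.add_apply]
    rw [star_add, hf.star x hx, hg.star x hx]
  · rw [LinearMap.add_apply]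
    exact norm_add_orth hf.one_proj hg.one_proj h (hf.one_mul hx) (hf.mul_one hx) (hg.one_mul hx)
      (hg.mul_one hx) (hf.norm_le x hx) (hg.norm_le x hx)

theorem IsRep.mul {T : Tower D} {π : D →ₗ[ℂ] (H →L[ℂ] H)} (h : IsRep T π) {n n' : ℕ} {x y : D}
    (hx : x ∈ T.B n) (hy : y ∈ T.B n') : π (x * y) = π x * π y := by
  exact (h (max n n')).mul x (T.B_mono (le_max_left n n') hx) y (T.B_mono (le_max_right n n') hy)

theorem IsRep.mul_apply {T : Tower D} {π : D →ₗ[ℂ] (H →L[ℂ] H)} (h : IsRep T π) {n n' : ℕ}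
    {x y : D} (hx : x ∈ T.B n) (hy : y ∈ T.B n') (η : H) : π (x * y) η = π x (π y η) := by
  rw [h.mul hx hy]
  rfl

theorem IsRep.apply_le {T : Tower D} {π : D →ₗ[ℂ] (H →L[ℂ] H)} (h : IsRep T π) {n : ℕ} {x : D}
    (hx : x ∈ T.B n) (η : H) : ‖π x η‖ ≤ ‖x‖ * ‖η‖ := by
  exact ((π x).le_opNorm η).trans
    (mul_le_mul_of_nonneg_right ((h n).norm_le x hx) (norm_nonneg η))

theorem Tower.finA (T : Tower D) (n : ℕ) : FiniteDimensional ℂ (T.A n) := by
  have := T.fin n
  exact FiniteDimensional.of_injective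
    (StarSubalgebra.inclusion (T.A_le_B n)).toLinearMap
    (StarSubalgebra.inclusion_injective (T.A_le_B n))

theorem Tower.A_closed (T : Tower D) (n : ℕ) : IsClosed (T.A n : Set D) := by
  have := T.finA n
  exact HomAux.closed_of_fin (T.A n)

theorem Tower.B_closed (T : Tower D) (n : ℕ) : IsClosed (T.B n : Set D) := by
  have := T.fin n
  exact HomAux.closed_of_fin (T.B n)

theorem Tower.AB (T : Tower D) {n n' : ℕ} (h : n ≤ n') {a : D} (ha : a ∈ T.A n) : a ∈ T.B n' := by
  exact T.B_mono h (T.A_le_B n ha)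

theorem exists_net (S : StarSubalgebra ℂ D) [FiniteDimensional ℂ S] :
    ∃ (nN : ℕ → ℕ) (nc : ℕ → ℕ → D), (∀ n l, nc n l ∈ S) ∧
      ∀ n, ∀ x ∈ S, ‖x‖ ≤ 1 → ∃ l < nN n, ‖x - nc n l‖ ≤ 1 / ((n : ℝ) + 1) := by
  have hfin : FiniteDimensional ℂ (Subalgebra.toSubmodule S.toSubalgebra) := ‹FiniteDimensional ℂ S›
  set W : Submodule ℂ D := Subalgebra.toSubmodule S.toSubalgebra with hW
  have : ProperSpace W := FiniteDimensional.proper ℂ W
  have hc : IsCompact (Metric.closedBall (0 : W) 1) := isCompact_closedBall 0 1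
  have key : ∀ n : ℕ, ∃ (N : ℕ) (c : ℕ → D), (∀ l, c l ∈ S) ∧
      ∀ x ∈ S, ‖x‖ ≤ 1 → ∃ l < N, ‖x - c l‖ ≤ 1 / ((n : ℝ) + 1) := by
    intro n
    have hpos : (0 : ℝ) < 1 / ((n : ℝ) + 1) := by positivity
    obtain ⟨t, -, htf, hcov⟩ := finite_cover_balls_of_compact hc hpos
    let l : List W := htf.toFinset.toList
    refine ⟨l.length, fun i => ((l.getD i 0 : W) : D), fun i => (l.getD i 0).2, ?_⟩
    intro x hx hx1
    have hxb : (⟨x, hx⟩ : W) ∈ Metric.closedBall (0 : W) 1 := by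
      rw [mem_closedBall_zero_iff]
      exact hx1
    obtain ⟨y, hy, hxy⟩ := Set.mem_iUnion₂.1 (hcov hxb)
    have hyl : y ∈ l := by
      simp only [l, Finset.mem_toList, Set.Finite.mem_toFinset]
      exact hy
    obtain ⟨i, hi, rfl⟩ := List.getElem_of_mem hyl
    refine ⟨i, hi, ?_⟩
    rw [Metric.mem_ball, dist_eq_norm] at hxy
    have e : l.getD i 0 = l[i] := by simp [List.getD, hi]
    show ‖x - ((l.getD i 0 : W) : D)‖ ≤ _
    rw [e]
    exact le_of_lt hxy
  choose nN nc h1 h2 using key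
  exact ⟨nN, nc, h1, h2⟩

end Pool.Agent.P.MP_5d580a_an.Ng
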