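import Pool.Agent.P.MP_5d580a_an.N.Hil
import Pool.Agent.P.MP_5d580a_an.N.Hom

open scoped ComplexOrder InnerProductSpace ComplexConjugate
open Filter Topology

set_option linter.unusedSectionVars false
set_option linter.unusedVariables false
set_option linter.deprecated false

noncomputable section

namespace Pool.Agent.P.MP_5d580a_an.Ng

variable {D C : Type} [CStarAlgebra D] [CStarAlgebra C]
variable {H : Type} [NormedAddCommGroup H] [InnerProductSpace ℂ H] [CompleteSpace H]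
variable {L : Type} [NormedAddCommGroup L] [InnerProductSpace ℂ L] [CompleteSpace L]

/-- a decreasing sequence of projections that tends strongly to zero -/
structure Dec (F : ℕ → (H →L[ℂ] H)) : Prop where
  proj : ∀ i, IsStarProjection (F i)
  succ : ∀ i, F i * F (i + 1) = F (i + 1)
  null : ∀ η, Tendsto (fun i => F i η) atTop (𝓝 0)

/-- `x` is the strong sum of the blocks `y i` -/
structure IsBs (F : ℕ → (H →L[ℂ] H)) (y : ℕ → (H →L[ℂ] H)) (x : H →L[ℂ] H) : Prop where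
  left : F 0 * x = x
  right : x * F 0 = x
  blk : ∀ i, x * (F i - F (i + 1)) = y i
  blk' : ∀ i, (F i - F (i + 1)) * x = y i

variable {F : ℕ → (H →L[ℂ] H)}

theorem Bs_le (h : Dec F) {i j : ℕ} (hij : i ≤ j) : F i * F j = F j ∧ F j * F i = F j :=
  dec_mul h.proj h.succ hij

theorem Bs_ann_F (h : Dec F) (i m : ℕ) :
    (F i - F (i + 1)) * F m = if m ≤ i then F i - F (i + 1) else 0 := by
  split_ifs with hm
  · rw [sub_mul, (Bs_le h hm).2, (Bs_le h (hm.trans (Nat.le_succ i))).2]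
  · rw [sub_mul, (Bs_le h (by omega : i ≤ m)).1, (Bs_le h (by omega : i + 1 ≤ m)).1, sub_self]

theorem Bs_F_ann (h : Dec F) (i m : ℕ) :
    F m * (F i - F (i + 1)) = if m ≤ i then F i - F (i + 1) else 0 := by
  split_ifs with hm
  · rw [mul_sub, (Bs_le h hm).1, (Bs_le h (hm.trans (Nat.le_succ i))).1]
  · rw [mul_sub, (Bs_le h (by omega : i ≤ m)).2, (Bs_le h (by omega : i + 1 ≤ m)).2, sub_self]

theorem Bs_sub_proj (h : Dec F) {i j : ℕ} (hij : i ≤ j) : IsStarProjection (F i - F j) := by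
  refine ⟨?_, (h.proj i).isSelfAdjoint.sub (h.proj j).isSelfAdjoint⟩
  show (F i - F j) * (F i - F j) = F i - F j
  rw [sub_mul, mul_sub, mul_sub, (Bs_le h le_rfl).1, (Bs_le h le_rfl).1, (Bs_le h hij).1,
    (Bs_le h hij).2]
  abel

theorem Bs_ann_ann (h : Dec F) (i : ℕ) :
    (F i - F (i + 1)) * (F i - F (i + 1)) = F i - F (i + 1) :=
  (Bs_sub_proj h (Nat.le_succ i)).isIdempotentElem

theorem Bs_ann_orth (h : Dec F) {i j : ℕ} (hij : i ≠ j) :
    (F i - F (i + 1)) * (F j - F (j + 1)) = 0 := by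
  rw [mul_sub, Bs_ann_F h, Bs_ann_F h]
  by_cases h1 : j ≤ i
  · rw [if_pos h1, if_pos (by omega), sub_self]
  · rw [if_neg h1, if_neg (by omega), sub_self]

theorem Bs_sum_ann (F : ℕ → (H →L[ℂ] H)) (k : ℕ) :
    ∑ i ∈ Finset.range k, (F i - F (i + 1)) = F 0 - F k := Finset.sum_range_sub' F k

theorem Bs_sum_norm (h : Dec F) {y : ℕ → (H →L[ℂ] H)}
    (hl : ∀ i, (F i - F (i + 1)) * y i = y i) (hr : ∀ i, y i * (F i - F (i + 1)) = y i) {c : ℝ}
    (hc : ∀ i, ‖y i‖ ≤ c) (k : ℕ) : ‖∑ i ∈ Finset.range k, y i‖ ≤ c := by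
  have h0 : 0 ≤ c := (norm_nonneg _).trans (hc 0)
  induction k with
  | zero => simpa using h0
  | succ k ih =>
    rw [Finset.sum_range_succ]
    refine norm_add_orth (Bs_sub_proj h (Nat.zero_le k)) (Bs_sub_proj h (Nat.le_succ k)) ?_ ?_ ?_
      (hl k) (hr k) ih (hc k)
    · rw [sub_mul, Bs_F_ann h, Bs_F_ann h, if_pos (Nat.zero_le k), if_pos le_rfl, sub_self]
    · rw [Finset.mul_sum]
      refine Finset.sum_congr rfl fun i hi => ?_
      have hi' := Finset.mem_range.1 hi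
      rw [← hl i, ← mul_assoc, sub_mul (F 0), Bs_F_ann h, Bs_F_ann h, if_pos (Nat.zero_le i),
        if_neg (by omega), sub_zero]
    · rw [Finset.sum_mul]
      refine Finset.sum_congr rfl fun i hi => ?_
      have hi' := Finset.mem_range.1 hi
      rw [← hr i, mul_assoc, mul_sub (F i - F (i + 1)), Bs_ann_F h, Bs_ann_F h,
        if_pos (Nat.zero_le i), if_neg (by omega), sub_zero]

theorem Bs_wot_const {ι : Type} {l : Filter ι} [l.NeBot] {T : ι → (H →L[ℂ] H)} {S : H →L[ℂ] H}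
    (h : ∀ ξ η, Tendsto (fun i => ⟪η, T i ξ⟫_ℂ) l (𝓝 ⟪η, S ξ⟫_ℂ)) {a b z : H →L[ℂ] H}
    (hT : ∀ᶠ i in l, a * T i * b = z) : a * S * b = z := by
  ext ξ
  refine ext_inner_left ℂ fun η => ?_
  have h1 := h (b ξ) ((star a) η)
  have h2 : Tendsto (fun i => ⟪(star a) η, T i (b ξ)⟫_ℂ) l (𝓝 ⟪η, z ξ⟫_ℂ) := by
    refine tendsto_const_nhds.congr' (hT.mono fun i hi => ?_)
    show ⟪η, z ξ⟫_ℂ = ⟪(star a) η, T i (b ξ)⟫_ℂ
    rw [inner_star_left, ← hi]
    rfl
  have h3 := tendsto_nhds_unique h1 h2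
  rw [inner_star_left] at h3
  exact h3

theorem Bs_lim_le (h : Dec F) {x : H →L[ℂ] H} {z : ℕ → (H →L[ℂ] H)} {c K : ℝ} (h0 : 0 ≤ c)
    (hz : ∀ k, ‖z k‖ ≤ K) (hb : ∀ᶠ k in atTop, ‖x - z k * F k‖ ≤ c) : ‖x‖ ≤ c := by
  refine ContinuousLinearMap.opNorm_le_bound _ h0 fun η => ?_
  have h1 : Tendsto (fun k => c * ‖η‖ + K * ‖F k η‖) atTop (𝓝 (c * ‖η‖ + K * ‖(0 : H)‖)) :=
    tendsto_const_nhds.add ((h.null η).norm.const_mul K)
  rw [norm_zero, mul_zero, add_zero] at h1
  refine ge_of_tendsto h1 (hb.mono fun k hk => ?_)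
  have h2 : x η = (x - z k * F k) η + z k (F k η) := by simp
  calc ‖x η‖ ≤ ‖(x - z k * F k) η‖ + ‖z k (F k η)‖ := by
        conv_lhs => rw [h2]
        exact norm_add_le _ _
    _ ≤ c * ‖η‖ + K * ‖F k η‖ := by
        refine add_le_add ?_ ?_
        · exact ((x - z k * F k).le_opNorm η).trans
            (mul_le_mul_of_nonneg_right hk (norm_nonneg _))
        · exact ((z k).le_opNorm _).trans (mul_le_mul_of_nonneg_right (hz k) (norm_nonneg _))

theorem Bs_cut {y : ℕ → (H →L[ℂ] H)} {x : H →L[ℂ] H} (hx : IsBs F y x) (m : ℕ) :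
    x - x * F m = ∑ i ∈ Finset.range m, y i := by
  have h1 : x * (F 0 - F m) = ∑ i ∈ Finset.range m, y i := by
    rw [← Bs_sum_ann, Finset.mul_sum]
    exact Finset.sum_congr rfl fun i _ => hx.blk i
  rw [← h1, mul_sub, hx.right]

theorem Dec.ann_proj (h : Dec F) (i : ℕ) : IsStarProjection (F i - F (i + 1)) := by
  exact Bs_sub_proj h (Nat.le_succ i)

theorem Dec.ann_orth (h : Dec F) {i j : ℕ} (hij : i ≠ j) :
    (F i - F (i + 1)) * (F j - F (j + 1)) = 0 := by
  exact Bs_ann_orth h hij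

theorem Dec.ann_F (h : Dec F) (i m : ℕ) :
    (F i - F (i + 1)) * F m = if m ≤ i then F i - F (i + 1) else 0 := by
  exact Bs_ann_F h i m

theorem Dec.ext (h : Dec F) {x x' : H →L[ℂ] H} (h1 : x * F 0 = x) (h2 : x' * F 0 = x')
    (he : ∀ i, x * (F i - F (i + 1)) = x' * (F i - F (i + 1))) : x = x' := by
  have h3 : ∀ k, (x - x') - (x - x') * F k = 0 := by
    intro k
    have h4 : (x - x') * (F 0 - F k) = 0 := by
      rw [← Bs_sum_ann, Finset.mul_sum]
      refine Finset.sum_eq_zero fun i _ => ?_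
      rw [sub_mul, he i, sub_self]
    rw [← h4, mul_sub (x - x'), sub_mul x x' (F 0), h1, h2]
  have h5 : ‖x - x'‖ ≤ 0 := Bs_lim_le h le_rfl (z := fun _ => x - x') (fun _ => le_rfl)
    (Eventually.of_forall fun k => by rw [h3 k, norm_zero])
  exact sub_eq_zero.1 (norm_le_zero_iff.1 h5)

theorem Dec.exists_bs (h : Dec F) {y : ℕ → (H →L[ℂ] H)}
    (hl : ∀ i, (F i - F (i + 1)) * y i = y i) (hr : ∀ i, y i * (F i - F (i + 1)) = y i) {c : ℝ}
    (hc : ∀ i, ‖y i‖ ≤ c) : ∃ x, IsBs F y x := by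
  obtain ⟨S, -, hS⟩ := exists_wot_ultra (Ultrafilter.of (atTop : Filter ℕ))
    (fun k => ∑ i ∈ Finset.range k, y i) c (Bs_sum_norm h hl hr hc)
  have hev : ∀ i, ∀ᶠ k in (Ultrafilter.of (atTop : Filter ℕ) : Filter ℕ), i < k := fun i =>
    (eventually_gt_atTop i).filter_mono (Ultrafilter.of_le _)
  refine ⟨S, ?_, ?_, fun i => ?_, fun i => ?_⟩
  · have := mul_eq_of_wot hS (a := F 0) (b := 1) (c := 1) (d := 1)
      (Eventually.of_forall fun k => by
        rw [mul_one, mul_one, one_mul, Finset.mul_sum]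
        refine Finset.sum_congr rfl fun i _ => ?_
        rw [← hl i, ← mul_assoc, Bs_F_ann h, if_pos (Nat.zero_le i)])
    simpa using this
  · have := mul_eq_of_wot hS (a := 1) (b := F 0) (c := 1) (d := 1)
      (Eventually.of_forall fun k => by
        rw [mul_one, one_mul, Finset.sum_mul]
        refine Finset.sum_congr rfl fun i _ => ?_
        rw [← hr i, mul_assoc, Bs_ann_F h, if_pos (Nat.zero_le i)])
    simpa using this
  · have := Bs_wot_const hS (a := 1) (b := F i - F (i + 1)) (z := y i)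
      ((hev i).mono fun k hk => by
        rw [one_mul, Finset.sum_mul, Finset.sum_eq_single i, hr i]
        · intro j _ hj
          rw [← hr j, mul_assoc, Bs_ann_orth h hj, mul_zero]
        · intro hi
          exact absurd (Finset.mem_range.2 hk) hi)
    simpa using this
  · have := Bs_wot_const hS (a := F i - F (i + 1)) (b := 1) (z := y i)
      ((hev i).mono fun k hk => by
        rw [mul_one, Finset.mul_sum, Finset.sum_eq_single i, hl i]
        · intro j _ hj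
          rw [← hl j, ← mul_assoc, Bs_ann_orth h (Ne.symm hj), zero_mul]
        · intro hi
          exact absurd (Finset.mem_range.2 hk) hi)
    simpa using this

theorem IsBs.norm_le (h : Dec F) {y : ℕ → (H →L[ℂ] H)} {x : H →L[ℂ] H} (hx : IsBs F y x) {c : ℝ}
    (hc : ∀ i, ‖y i‖ ≤ c) : ‖x‖ ≤ c := by
  have h0 : 0 ≤ c := (norm_nonneg _).trans (hc 0)
  refine Bs_lim_le h h0 (z := fun _ => x) (fun _ => le_rfl) (Eventually.of_forall fun k => ?_)
  rw [Bs_cut hx]
  refine Bs_sum_norm h (fun i => ?_) (fun i => ?_) hc k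
  · rw [← hx.blk' i, ← mul_assoc, Bs_ann_ann h]
  · rw [← hx.blk i, mul_assoc, Bs_ann_ann h]

theorem IsBs.unique (h : Dec F) {y : ℕ → (H →L[ℂ] H)} {x x' : H →L[ℂ] H} (hx : IsBs F y x)
    (hx' : IsBs F y x') : x = x' := by
  exact h.ext hx.right hx'.right fun i => (hx.blk i).trans (hx'.blk i).symm

theorem IsBs.add {y y' : ℕ → (H →L[ℂ] H)} {x x' : H →L[ℂ] H} (hx : IsBs F y x)
    (hx' : IsBs F y' x') : IsBs F (fun i => y i + y' i) (x + x') := by
  refine ⟨?_, ?_, fun i => ?_, fun i => ?_⟩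
  · rw [mul_add, hx.left, hx'.left]
  · rw [add_mul, hx.right, hx'.right]
  · rw [add_mul, hx.blk, hx'.blk]
  · rw [mul_add, hx.blk', hx'.blk']

theorem IsBs.sub {y y' : ℕ → (H →L[ℂ] H)} {x x' : H →L[ℂ] H} (hx : IsBs F y x)
    (hx' : IsBs F y' x') : IsBs F (fun i => y i - y' i) (x - x') := by
  refine ⟨?_, ?_, fun i => ?_, fun i => ?_⟩
  · rw [mul_sub, hx.left, hx'.left]
  · rw [sub_mul, hx.right, hx'.right]
  · rw [sub_mul, hx.blk, hx'.blk]
  · rw [mul_sub, hx.blk', hx'.blk']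

theorem IsBs.smul {y : ℕ → (H →L[ℂ] H)} {x : H →L[ℂ] H} (hx : IsBs F y x) (c : ℂ) :
    IsBs F (fun i => c • y i) (c • x) := by
  refine ⟨?_, ?_, fun i => ?_, fun i => ?_⟩
  · rw [mul_smul_comm, hx.left]
  · rw [smul_mul_assoc, hx.right]
  · rw [smul_mul_assoc, hx.blk]
  · rw [mul_smul_comm, hx.blk']

theorem IsBs.sum {ι : Type} (S : Finset ι) {y : ι → ℕ → (H →L[ℂ] H)} {x : ι → (H →L[ℂ] H)}
    (hx : ∀ l ∈ S, IsBs F (y l) (x l)) : IsBs F (fun i => ∑ l ∈ S, y l i) (∑ l ∈ S, x l) := by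
  refine ⟨?_, ?_, fun i => ?_, fun i => ?_⟩
  · rw [Finset.mul_sum]
    exact Finset.sum_congr rfl fun l hl => (hx l hl).left
  · rw [Finset.sum_mul]
    exact Finset.sum_congr rfl fun l hl => (hx l hl).right
  · rw [Finset.sum_mul]
    exact Finset.sum_congr rfl fun l hl => (hx l hl).blk i
  · rw [Finset.mul_sum]
    exact Finset.sum_congr rfl fun l hl => (hx l hl).blk' i

theorem IsBs.mul (h : Dec F) {y y' : ℕ → (H →L[ℂ] H)} {x x' : H →L[ℂ] H} (hx : IsBs F y x)
    (hx' : IsBs F y' x') : IsBs F (fun i => y i * y' i) (x * x') := by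
  refine ⟨?_, ?_, fun i => ?_, fun i => ?_⟩
  · rw [← mul_assoc, hx.left]
  · rw [mul_assoc, hx'.right]
  · calc x * x' * (F i - F (i + 1))
        = x * ((F i - F (i + 1)) * ((F i - F (i + 1)) * x')) := by
          rw [← mul_assoc (F i - F (i + 1)), Bs_ann_ann h, hx'.blk', mul_assoc, hx'.blk]
      _ = y i * y' i := by rw [hx'.blk', ← mul_assoc, hx.blk]
  · calc (F i - F (i + 1)) * (x * x')
        = x * (F i - F (i + 1)) * (F i - F (i + 1)) * x' := by
          rw [mul_assoc x (F i - F (i + 1)), Bs_ann_ann h, hx.blk, ← mul_assoc, hx.blk']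
      _ = y i * y' i := by rw [hx.blk, mul_assoc, hx'.blk']

theorem IsBs.star (h : Dec F) {y : ℕ → (H →L[ℂ] H)} {x : H →L[ℂ] H} (hx : IsBs F y x) :
    IsBs F (fun i => Star.star (y i)) (Star.star x) := by
  have h0 : Star.star (F 0) = F 0 := (h.proj 0).isSelfAdjoint
  have h1 : ∀ i, Star.star (F i - F (i + 1)) = F i - F (i + 1) := fun i =>
    (h.ann_proj i).isSelfAdjoint
  refine ⟨?_, ?_, fun i => ?_, fun i => ?_⟩
  · have := congrArg Star.star hx.right
    rwa [star_mul, h0] at this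
  · have := congrArg Star.star hx.left
    rwa [star_mul, h0] at this
  · have := congrArg Star.star (hx.blk' i)
    rwa [star_mul, h1] at this
  · have := congrArg Star.star (hx.blk i)
    rwa [star_mul, h1] at this

theorem Dec.bs_F (h : Dec F) (m : ℕ) :
    IsBs F (fun i => if m ≤ i then F i - F (i + 1) else 0) (F m) := by
  exact ⟨(Bs_le h (Nat.zero_le m)).1, (Bs_le h (Nat.zero_le m)).2, fun i => Bs_F_ann h i m,
    fun i => Bs_ann_F h i m⟩

theorem IsBs.cut (h : Dec F) {y : ℕ → (H →L[ℂ] H)} {x : H →L[ℂ] H} (hx : IsBs F y x) (m : ℕ) :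
    x * (1 - F m) = ∑ i ∈ Finset.range m, y i := by
  rw [mul_sub, mul_one, Bs_cut hx]

/-- telescoping estimate -/
theorem Dec.tele (h : Dec F) {x : H →L[ℂ] H} {r : ℕ → (H →L[ℂ] H)} (hr : ∀ i, r i * F i = r i)
    (hn : ∀ i, ‖r i‖ ≤ 1)
    (he : ∀ i, ‖x * (F i - F (i + 1)) - (r i - r (i + 1))‖ ≤ (1 / 2 : ℝ) ^ i) (i : ℕ) :
    ‖x * F i - r i‖ ≤ 2 * (1 / 2 : ℝ) ^ i := by
  have h1 : ∀ j, ‖x * (F i - F (i + j)) - (r i - r (i + j))‖ ≤
      2 * (1 / 2 : ℝ) ^ i - 2 * (1 / 2 : ℝ) ^ (i + j) := by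
    intro j
    induction j with
    | zero => simp
    | succ j ih =>
      have e : x * (F i - F (i + (j + 1))) - (r i - r (i + (j + 1))) =
          (x * (F i - F (i + j)) - (r i - r (i + j))) +
            (x * (F (i + j) - F (i + j + 1)) - (r (i + j) - r (i + j + 1))) := by
        rw [← add_assoc]
        simp only [mul_sub]
        abel
      rw [e]
      refine (norm_add_le _ _).trans ((add_le_add ih (he (i + j))).trans (le_of_eq ?_))
      rw [← add_assoc, pow_succ]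
      ring
  refine Bs_lim_le h (by positivity) (z := fun k => x - r k) (K := ‖x‖ + 1)
    (fun k => (norm_sub_le _ _).trans (add_le_add le_rfl (hn k)))
    ((eventually_ge_atTop i).mono fun k hk => ?_)
  obtain ⟨j, rfl⟩ := Nat.exists_eq_add_of_le hk
  have e : x * F i - r i - (x - r (i + j)) * F (i + j) =
      x * (F i - F (i + j)) - (r i - r (i + j)) := by
    rw [sub_mul, hr, mul_sub]
    abel
  rw [e]
  refine (h1 j).trans ?_
  have : (0 : ℝ) ≤ 2 * (1 / 2 : ℝ) ^ (i + j) := by positivity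
  linarith

end Pool.Agent.P.MP_5d580a_an.Ng
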