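import Pool.Agent.P.MP_5d580a_an.N.Exp0

open scoped ComplexOrder InnerProductSpace ComplexConjugate
open Filter Topology

set_option linter.unusedSectionVars false
set_option linter.unusedVariables false
set_option linter.deprecated false

noncomputable section

namespace Pool.Agent.P.MP_5d580a_an.Ng

variable {D C : Type} [CStarAlgebra D] [CStarAlgebra C]
variable {H : Type} [NormedAddCommGroup H] [InnerProductSpace ℂ H] [CompleteSpace H]
variable {L : Type} [NormedAddCommGroup L] [InnerProductSpace ℂ L] [CompleteSpace L]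

theorem Exp_desc_zero (y : ℕ) : desc y 0 = {y} := by
  ext w
  rw [mem_desc, Finset.mem_singleton, pow_zero, Nat.div_one]

theorem Exp_half {y j w : ℕ} (hw : w ∈ desc y (j + 1)) : w / 2 ∈ desc y j := by
  rw [mem_desc] at hw ⊢
  rw [Nat.div_div_eq_div_mul, ← pow_succ', hw]

theorem Exp_sum_proj (P : ℕ → (H →L[ℂ] H)) (hP : ∀ w, IsStarProjection (P w))
    (ho : ∀ w w', w ≠ w' → P w * P w' = 0) (S : Finset ℕ) (η : H) :
    ∑ w ∈ S, ‖P w η‖ ^ 2 ≤ ‖η‖ ^ 2 := by
  induction S using Finset.induction_on generalizing η with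
  | empty => simp
  | insert a S ha ih =>
    rw [Finset.sum_insert ha, proj_pyth (hP a) η]
    have h1 : ∀ w ∈ S, ‖P w η‖ ^ 2 = ‖P w ((1 - P a) η)‖ ^ 2 := by
      intro w hw
      have hne : w ≠ a := fun h => ha (h ▸ hw)
      have h2 : P w * (1 - P a) = P w := by rw [mul_sub, mul_one, ho w a hne, sub_zero]
      have h3 : P w ((1 - P a) η) = (P w * (1 - P a)) η := rfl
      rw [h3, h2]
    rw [Finset.sum_congr rfl h1]
    have := ih ((1 - P a) η)
    linarith

theorem Exp_pyth (v : ℕ → H) (ho : ∀ w w', w ≠ w' → ⟪v w, v w'⟫_ℂ = 0) (S : Finset ℕ) :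
    ‖∑ w ∈ S, v w‖ ^ 2 = ∑ w ∈ S, ‖v w‖ ^ 2 := by
  induction S using Finset.induction_on with
  | empty => simp
  | insert a S ha ih =>
    rw [Finset.sum_insert ha, Finset.sum_insert ha, ← ih]
    have h0 : ⟪v a, ∑ w ∈ S, v w⟫_ℂ = 0 := by
      rw [inner_sum]
      exact Finset.sum_eq_zero fun w hw => ho a w fun h => ha (h ▸ hw)
    have := norm_add_sq_eq_norm_sq_add_norm_sq_of_inner_eq_zero (𝕜 := ℂ) _ _ h0
    simp only [pow_two]
    exact this

namespace Tower

variable (T : Tower D)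

theorem Exp_E_succ (n j w : ℕ) : T.E n (j + 1) w = T.E n j (w / 2) * T.m (n + j) w := rfl

theorem Exp_Dd_succ (n j w : ℕ) :
    T.Dd n (j + 1) w = T.Dd n j (w / 2) * (T.pp (n + j) (w / 2) - T.pm (n + j) (w / 2)) := rfl

theorem Exp_Aa_succ (n j w : ℕ) : T.Aa n (j + 1) w = T.Aa n j (w / 2) +
    T.Dd n j (w / 2) * (T.pp (n + j) (w / 2) + T.pm (n + j) (w / 2) - 1) := rfl

theorem Exp_t_m (k w : ℕ) : T.t k (w / 2) * T.m k w =
    (T.pm k (w / 2) + (T.pp k (w / 2) - T.pm k (w / 2)) * T.t (k + 1) w) * T.m k w := by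
  have hc : ∀ v v', T.m k v * T.t (k + 1) v' = T.t (k + 1) v' * T.m k v := fun v v' =>
    (T.t_cent (k + 1) v' _ (T.A_le_B _ (T.m_mem k v))).eq.symm
  have hi : T.m k w * T.m k w = T.m k w := (T.m_proj k w).isIdempotentElem.eq
  have key : (T.m k (2 * (w / 2)) * T.t (k + 1) (2 * (w / 2)) +
      T.m k (2 * (w / 2) + 1) * T.t (k + 1) (2 * (w / 2) + 1)) * T.m k w =
      T.t (k + 1) w * T.m k w := by
    rw [hc, hc, add_mul, mul_assoc, mul_assoc]
    rcases Nat.mod_two_eq_zero_or_one w with h | h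
    · have e : 2 * (w / 2) = w := by omega
      rw [T.m_orth' k (w := 2 * (w / 2) + 1) (w' := w) (by omega) (by omega), e, hi, mul_zero,
        add_zero]
    · have e : 2 * (w / 2) + 1 = w := by omega
      rw [T.m_orth' k (w := 2 * (w / 2)) (w' := w) (by omega) (by omega), e, hi, mul_zero,
        zero_add]
  conv_lhs => rw [T.step k (w / 2)]
  rw [add_mul, add_mul, mul_assoc, key, mul_assoc]

theorem Exp_s_m (k w : ℕ) : T.s k (w / 2) * T.m k w =
    ((T.pp k (w / 2) + T.pm k (w / 2) - 1) +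
      (T.pp k (w / 2) - T.pm k (w / 2)) * T.s (k + 1) w) * T.m k w := by
  unfold s
  rw [sub_mul, smul_mul_assoc, T.Exp_t_m k w, two_smul, two_smul]
  noncomm_ring

theorem Exp_X_comm (n j w : ℕ) :
    Commute (T.E n j w) (T.Aa n j w + T.Dd n j w * T.s (n + j) w) :=
  (T.E_Aa n j w n j w).add_right ((T.E_Dd n j w n j w).mul_right
    (T.s_cent (n + j) w (T.A_le_B _ (T.E_mem n j w))).symm)

theorem Exp_sum_t_mul (k : ℕ) {S : Finset ℕ} {w : ℕ} (hw : w ∈ S) :
    (∑ v ∈ S, T.t k v) * T.t k w = T.t k w := by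
  rw [Finset.sum_mul, Finset.sum_eq_single_of_mem w hw fun v _ hv => T.t_orth k v w hv]
  exact (T.t_proj k w).isIdempotentElem.eq

theorem Exp_mul_sum_t (k : ℕ) {S : Finset ℕ} {w : ℕ} (hw : w ∈ S) :
    T.t k w * (∑ v ∈ S, T.t k v) = T.t k w := by
  rw [Finset.mul_sum, Finset.sum_eq_single_of_mem w hw fun v _ hv => T.t_orth k w v hv.symm]
  exact (T.t_proj k w).isIdempotentElem.eq

theorem Exp_sum_t_proj (k : ℕ) (S : Finset ℕ) : IsStarProjection (∑ v ∈ S, T.t k v) := by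
  refine ⟨?_, ?_⟩
  · show (∑ v ∈ S, T.t k v) * (∑ v ∈ S, T.t k v) = ∑ v ∈ S, T.t k v
    conv_lhs => rw [Finset.sum_mul]
    exact Finset.sum_congr rfl fun w hw => T.Exp_mul_sum_t k hw
  · show star (∑ v ∈ S, T.t k v) = ∑ v ∈ S, T.t k v
    rw [star_sum]
    exact Finset.sum_congr rfl fun w _ => (T.t_proj k w).isSelfAdjoint.star_eq

theorem Exp_ED_mem (n j w : ℕ) : T.E n j w * T.Dd n j w ∈ T.B (n + j) :=
  T.A_le_B _ (mul_mem (T.E_mem n j w) (T.Dd_mem n j w))

theorem Exp_term_r (n j w : ℕ) : T.E n j w * T.Dd n j w * T.t (n + j) w * T.t (n + j) w =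
    T.E n j w * T.Dd n j w * T.t (n + j) w := by
  rw [mul_assoc, (T.t_proj (n + j) w).isIdempotentElem.eq]

theorem Exp_term_l (n j w : ℕ) : T.t (n + j) w * (T.E n j w * T.Dd n j w * T.t (n + j) w) =
    T.E n j w * T.Dd n j w * T.t (n + j) w := by
  rw [← mul_assoc, (T.t_cent (n + j) w _ (T.Exp_ED_mem n j w)).eq, T.Exp_term_r]

theorem Exp_term_norm (n j w : ℕ) : ‖T.E n j w * T.Dd n j w * T.t (n + j) w‖ ≤ 1 := by
  have h1 := (T.E_proj n j w).norm_le
  have h2 := T.Dd_norm n j w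
  have h3 := (T.t_proj (n + j) w).norm_le
  have h4 : ‖T.E n j w * T.Dd n j w‖ ≤ 1 :=
    (norm_mul_le _ _).trans (mul_le_one₀ h1 (norm_nonneg _) h2)
  exact (norm_mul_le _ _).trans (mul_le_one₀ h4 (norm_nonneg _) h3)

theorem Exp_Rm_norm (n j : ℕ) (S : Finset ℕ) : ‖T.Rm n j S‖ ≤ 1 := by
  unfold Rm
  induction S using Finset.induction_on with
  | empty => simp
  | insert a S ha ih =>
    rw [Finset.sum_insert ha, add_comm]
    refine norm_add_orth (T.Exp_sum_t_proj (n + j) S) (T.t_proj (n + j) a) ?_ ?_ ?_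
      (T.Exp_term_l n j a) (T.Exp_term_r n j a) ih (T.Exp_term_norm n j a)
    · rw [Finset.sum_mul]
      exact Finset.sum_eq_zero fun v hv => T.t_orth _ v a fun h => ha (h ▸ hv)
    · rw [Finset.mul_sum]
      refine Finset.sum_congr rfl fun w hw => ?_
      rw [← T.Exp_term_l n j w, ← mul_assoc, T.Exp_sum_t_mul _ hw]
    · rw [Finset.sum_mul]
      refine Finset.sum_congr rfl fun w hw => ?_
      rw [mul_assoc _ (T.t (n + j) w), T.Exp_mul_sum_t _ hw]

theorem Exp_E_path {ω : ℕ → ℕ} (hω : IsPath ω) (n j : ℕ) :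
    T.E n (j + 1) (ω (n + (j + 1))) = T.E n j (ω (n + j)) * T.m (n + j) (ω (n + j + 1)) := by
  have h : ω (n + (j + 1)) / 2 = ω (n + j) := hω.2 (n + j)
  rw [T.Exp_E_succ, h]
  rfl

theorem sum_E (n j y : ℕ) : ∑ w ∈ desc y j, T.E n j w = 1 := by
  induction j with
  | zero => rw [Exp_desc_zero, Finset.sum_singleton]; rfl
  | succ j ih =>
    rw [sum_desc_succ, ← ih]
    refine Finset.sum_congr rfl fun w _ => ?_
    have e1 : 2 * w / 2 = w := by omega
    have e2 : (2 * w + 1) / 2 = w := by omega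
    rw [T.Exp_E_succ, T.Exp_E_succ, e1, e2, ← mul_add, T.m_add, mul_one]

theorem E_orth (n j y : ℕ) {w w' : ℕ} (hw : w ∈ desc y j) (hw' : w' ∈ desc y j) (hne : w ≠ w') :
    T.E n j w * T.E n j w' = 0 := by
  induction j generalizing w w' with
  | zero =>
    rw [Exp_desc_zero, Finset.mem_singleton] at hw hw'
    exact absurd (hw.trans hw'.symm) hne
  | succ j ih =>
    have hc := (T.m_comm (n + j) w _ (T.E_mem n j (w' / 2))).eq
    have e : T.E n (j + 1) w * T.E n (j + 1) w' =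
        T.E n j (w / 2) * T.E n j (w' / 2) * (T.m (n + j) w * T.m (n + j) w') := by
      rw [T.Exp_E_succ, T.Exp_E_succ, mul_assoc, ← mul_assoc (T.m (n + j) w), hc]
      simp only [mul_assoc]
    rw [e]
    by_cases h : w / 2 = w' / 2
    · rw [T.m_orth' (n + j) h hne, mul_zero]
    · rw [ih (Exp_half hw) (Exp_half hw') h, zero_mul]

theorem E_add (n i j w : ℕ) : T.E n (i + j) w = T.E n i (w / 2 ^ j) * T.E (n + i) j w := by
  induction j generalizing w with
  | zero => rw [pow_zero, Nat.div_one]; exact (mul_one _).symm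
  | succ j ih =>
    rw [← add_assoc, T.Exp_E_succ, T.Exp_E_succ, ih, Nat.div_div_eq_div_mul, ← pow_succ',
      mul_assoc, add_assoc]

theorem Dd_add (n i j w : ℕ) : T.Dd n (i + j) w = T.Dd n i (w / 2 ^ j) * T.Dd (n + i) j w := by
  induction j generalizing w with
  | zero => rw [pow_zero, Nat.div_one]; exact (mul_one _).symm
  | succ j ih =>
    rw [← add_assoc, T.Exp_Dd_succ, T.Exp_Dd_succ, ih, Nat.div_div_eq_div_mul, ← pow_succ',
      mul_assoc, add_assoc]

theorem s_E (n j y : ℕ) {w : ℕ} (hw : w ∈ desc y j) :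
    T.s n y * T.E n j w = (T.Aa n j w + T.Dd n j w * T.s (n + j) w) * T.E n j w := by
  induction j generalizing w with
  | zero =>
    rw [Exp_desc_zero, Finset.mem_singleton] at hw
    subst hw
    show T.s n w * 1 = (0 + 1 * T.s n w) * 1
    rw [zero_add, one_mul]
  | succ j ih =>
    have hE := T.E_mem n j (w / 2)
    have c1 := (T.s_cent (n + j) (w / 2) (T.A_le_B _ hE)).eq
    have cp := T.pp_comm (n + j) (w / 2) _ hE
    have cm := T.pm_comm (n + j) (w / 2) _ hE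
    have cs := T.s_cent (n + j + 1) w (T.AB (Nat.le_succ (n + j)) hE)
    have c2 := ((((cp.add_left cm).sub_left (Commute.one_left _))).add_left
      ((cp.sub_left cm).mul_left cs)).eq
    have k1 : T.s (n + j) (w / 2) * (T.E n j (w / 2) * T.m (n + j) w) =
        ((T.pp (n + j) (w / 2) + T.pm (n + j) (w / 2) - 1) +
          (T.pp (n + j) (w / 2) - T.pm (n + j) (w / 2)) * T.s (n + j + 1) w) *
          (T.E n j (w / 2) * T.m (n + j) w) := by
      rw [← mul_assoc, c1, mul_assoc, T.Exp_s_m, ← mul_assoc, ← c2, mul_assoc]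
    rw [T.Exp_E_succ, T.Exp_Aa_succ, T.Exp_Dd_succ, ← mul_assoc, ih (Exp_half hw), mul_assoc,
      add_mul, mul_assoc, k1, ← add_assoc n j 1]
    noncomm_ring

theorem s_E_comm (n j y : ℕ) {w : ℕ} (hw : w ∈ desc y j) : Commute (T.s n y) (T.E n j w) := by
  have h := T.s_E n j y hw
  have hX : IsSelfAdjoint (T.Aa n j w + T.Dd n j w * T.s (n + j) w) := by
    refine (T.Aa_sa n j w).add ?_
    show star (T.Dd n j w * T.s (n + j) w) = T.Dd n j w * T.s (n + j) w
    rw [star_mul, (T.s_sa _ _).star_eq, (T.Dd_sa _ _ _).star_eq]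
    exact (T.s_cent (n + j) w (T.A_le_B _ (T.Dd_mem n j w))).eq
  have h2 := congrArg star h
  rw [star_mul, star_mul, hX.star_eq, (T.s_sa _ _).star_eq,
    (T.E_proj n j w).isSelfAdjoint.star_eq, (T.Exp_X_comm n j w).eq, ← h] at h2
  exact h2.symm

theorem t_E_comm (n j y : ℕ) {w : ℕ} (hw : w ∈ desc y j) : Commute (T.t n y) (T.E n j w) := by
  rw [T.t_eq_s]
  exact ((Commute.one_left _).add_left (T.s_E_comm n j y hw)).smul_left _

theorem Ps_mem (n j y : ℕ) : T.Ps n j y ∈ T.A (n + j) := by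
  unfold Ps
  exact sum_mem fun w _ => (T.A (n + j)).smul_mem (mul_mem (T.E_mem n j w)
    (sub_mem (add_mem (one_mem _) (T.Aa_mem n j w)) (T.Dd_mem n j w))) _

theorem Rm_mem (n j : ℕ) (S : Finset ℕ) : T.Rm n j S ∈ T.B (n + j) := by
  unfold Rm
  exact sum_mem fun w _ => mul_mem (T.Exp_ED_mem n j w) (T.t_mem _ _)

theorem expand (n j y : ℕ) : T.t n y = T.Ps n j y + T.Rm n j (desc y j) := by
  unfold Ps Rm
  have e : T.t n y = ∑ w ∈ desc y j, T.t n y * T.E n j w := by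
    rw [← Finset.mul_sum, T.sum_E n j y, mul_one]
  rw [← Finset.sum_add_distrib, e]
  refine Finset.sum_congr rfl fun w hw => ?_
  rw [T.t_eq_s n y, T.t_eq_s (n + j) w, smul_mul_assoc, mul_smul_comm, ← smul_add, add_mul,
    T.s_E n j y hw, ← (T.Exp_X_comm n j w).eq]
  congr 1
  noncomm_ring

theorem Rm_norm (n j y : ℕ) {S : Finset ℕ} (hS : S ⊆ desc y j) : ‖T.Rm n j S‖ ≤ 1 := by
  exact T.Exp_Rm_norm n j S

theorem m_E {ω : ℕ → ℕ} (hω : IsPath ω) {n j k : ℕ} (h1 : n ≤ k) (h2 : k < n + j) :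
    T.m k (ω (k + 1)) * T.E n j (ω (n + j)) = T.E n j (ω (n + j)) := by
  induction j with
  | zero => omega
  | succ j ih =>
    rw [T.Exp_E_path hω]
    by_cases h : k = n + j
    · subst h
      rw [← mul_assoc, (T.m_comm (n + j) _ _ (T.E_mem n j _)).eq, mul_assoc,
        (T.m_proj _ _).isIdempotentElem.eq]
    · rw [← mul_assoc, ih (by omega)]

theorem E_mul_of_m {ω : ℕ → ℕ} (hω : IsPath ω) {n j : ℕ} {g : D}
    (h : ∀ k, n ≤ k → k < n + j → T.m k (ω (k + 1)) * g = g) : T.E n j (ω (n + j)) * g = g := by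
  induction j with
  | zero => exact one_mul g
  | succ j ih =>
    rw [T.Exp_E_path hω, mul_assoc, h (n + j) (by omega) (by omega)]
    exact ih fun k h1 h2 => h k h1 (by omega)

theorem E_succ_path {ω : ℕ → ℕ} (hω : IsPath ω) (n j : ℕ) :
    T.E n j (ω (n + j)) * T.E n (j + 1) (ω (n + (j + 1))) = T.E n (j + 1) (ω (n + (j + 1))) := by
  rw [T.Exp_E_path hω, ← mul_assoc, (T.E_proj _ _ _).isIdempotentElem.eq]

end Tower

/-- labels are orthogonal in a representation -/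
theorem IsRep.sum_t {T : Tower D} {π : D →ₗ[ℂ] (H →L[ℂ] H)} (h : IsRep T π) (n : ℕ)
    (S : Finset ℕ) (η : H) : ∑ w ∈ S, ‖π (T.t n w) η‖ ^ 2 ≤ ‖η‖ ^ 2 := by
  refine Exp_sum_proj (fun w => π (T.t n w)) (fun w => (h n).proj (T.t_mem n w) (T.t_proj n w))
    (fun w w' hne => ?_) S η
  show π (T.t n w) * π (T.t n w') = 0
  rw [← h.mul (T.t_mem n w) (T.t_mem n w'), T.t_orth n w w' hne, map_zero]

/-- norm of the label part of the expansion -/
theorem IsRep.Rm_le {T : Tower D} {π : D →ₗ[ℂ] (H →L[ℂ] H)} (h : IsRep T π) (n j : ℕ)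
    (S : Finset ℕ) (η : H) :
    ‖π (T.Rm n j S) η‖ ^ 2 ≤ ∑ w ∈ S, ‖π (T.t (n + j) w) (π (T.E n j w) η)‖ ^ 2 := by
  have hm : ∀ w, T.E n j w * T.Dd n j w * T.t (n + j) w ∈ T.B (n + j) := fun w =>
    mul_mem (T.Exp_ED_mem n j w) (T.t_mem _ _)
  have hv : ∀ w, π (T.E n j w * T.Dd n j w * T.t (n + j) w) η =
      π (T.t (n + j) w) (π (T.E n j w * T.Dd n j w * T.t (n + j) w) η) := fun w => by
    rw [← h.mul_apply (T.t_mem _ w) (hm w), T.Exp_term_l]
  have e : π (T.Rm n j S) η = ∑ w ∈ S, π (T.E n j w * T.Dd n j w * T.t (n + j) w) η := by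
    unfold Tower.Rm
    rw [map_sum, ContinuousLinearMap.sum_apply]
  rw [e, Exp_pyth (fun w => π (T.E n j w * T.Dd n j w * T.t (n + j) w) η)]
  · refine Finset.sum_le_sum fun w _ => ?_
    have hE := T.A_le_B _ (T.E_mem n j w)
    have hD := T.A_le_B _ (T.Dd_mem n j w)
    have e2 : T.E n j w * T.Dd n j w * T.t (n + j) w =
        T.Dd n j w * (T.t (n + j) w * T.E n j w) := by
      rw [(T.E_Dd n j w n j w).eq, mul_assoc, (T.t_cent (n + j) w _ hE).eq]
    show ‖π (T.E n j w * T.Dd n j w * T.t (n + j) w) η‖ ^ 2 ≤ _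
    rw [e2, h.mul_apply hD (mul_mem (T.t_mem _ w) hE), h.mul_apply (T.t_mem _ w) hE]
    refine pow_le_pow_left₀ (norm_nonneg _) ((h.apply_le hD _).trans ?_) 2
    exact mul_le_of_le_one_left (norm_nonneg _) (T.Dd_norm n j w)
  · intro w w' hne
    show ⟪π (T.E n j w * T.Dd n j w * T.t (n + j) w) η,
      π (T.E n j w' * T.Dd n j w' * T.t (n + j) w') η⟫_ℂ = 0
    have hp := ((h (n + j)).proj (T.t_mem _ w) (T.t_proj _ w)).isSelfAdjoint.star_eq
    rw [hv w, hv w', ← hp, inner_star_left, ← h.mul_apply (T.t_mem _ w) (T.t_mem _ w'),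
      T.t_orth _ w w' hne, map_zero, ContinuousLinearMap.zero_apply, inner_zero_right]

end Pool.Agent.P.MP_5d580a_an.Ng
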