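import Pool.Agent.P.MP_5d580a_an.N.Hil
import Pool.Agent.P.MP_5d580a_an.N.Exp

open scoped ComplexOrder InnerProductSpace ComplexConjugate
open Filter Topology

set_option linter.unusedSectionVars false
set_option linter.unusedVariables false
set_option linter.deprecated false

noncomputable section

namespace Pool.Agent.P.MP_5d580a_an.Ng

variable {D C : Type} [CStarAlgebra D] [CStarAlgebra C]
variable {H : Type} [NormedAddCommGroup H] [InnerProductSpace ℂ H] [CompleteSpace H]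
variable {L : Type} [NormedAddCommGroup L] [InnerProductSpace ℂ L] [CompleteSpace L]

namespace LS

variable {T : Tower (H →L[ℂ] H)} (S : LS T)

theorem F_proj (M : ℕ) : IsStarProjection (S.F M) := by
  exact (S.hom M).one_proj

theorem F_succ (M : ℕ) : S.F M * S.F (M + 1) = S.F (M + 1) := by
  exact (S.succ M 1 (one_mem _)).symm

theorem Φ_le {M M' : ℕ} (h : M ≤ M') {x : H →L[ℂ] H} (hx : x ∈ T.B M) :
    S.Φ M' x = S.Φ M x * S.F M' ∧ S.Φ M' x = S.F M' * S.Φ M x := by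
  have key : ∀ x ∈ T.B M, S.Φ M' x = S.Φ M x * S.F M' := by
    intro x hx
    induction M', h using Nat.le_induction with
    | base => exact ((S.hom M).mul_one hx).symm
    | succ M' h ih =>
      rw [S.succ M' x (T.B_mono h hx), ih, mul_assoc]
      exact congrArg (fun w => S.Φ M x * w) (S.F_succ M')
  refine ⟨key x hx, ?_⟩
  have h1 := congrArg star (key (star x) (star_mem hx))
  rw [(S.hom M').star x (T.B_mono h hx), (S.hom M).star x hx, star_star, star_mul, star_star,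
    (S.F_proj M').isSelfAdjoint.star_eq] at h1
  exact h1

theorem F_comm (M : ℕ) : ∀ y ∈ S.genB, Commute (S.F M) y := by
  rintro y (⟨M', x, hx, rfl⟩ | ⟨q, rfl⟩)
  · rcases le_total M' M with h | h
    · have h1 := S.Φ_le h hx
      exact h1.2.symm.trans h1.1
    · have h1 := dec_mul S.F_proj S.F_succ h
      have h2 : S.F M' * S.Φ M' x = S.Φ M' x := (S.hom M').one_mul hx
      have h3 : S.Φ M' x * S.F M' = S.Φ M' x := (S.hom M').mul_one hx
      show S.F M * S.Φ M' x = S.Φ M' x * S.F M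
      calc S.F M * S.Φ M' x = S.F M * (S.F M' * S.Φ M' x) := by rw [h2]
        _ = S.Φ M' x := by rw [← mul_assoc, h1.1, h2]
        _ = S.Φ M' x * S.F M' * S.F M := by rw [mul_assoc, h1.2, h3]
        _ = S.Φ M' x * S.F M := by rw [h3]
  · exact (S.Ξ_comm q M 1 (one_mem _)).symm

theorem Ξ_gen (q : ℕ) : ∀ y ∈ S.genB, Commute (S.Ξ q) y := by
  rintro y (⟨M, x, hx, rfl⟩ | ⟨q', rfl⟩)
  · exact S.Ξ_comm q M x hx
  · exact S.Ξ_Ξ q q'

theorem genA_le : S.genA ⊆ S.genB := by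
  rintro y (⟨M, x, hx, rfl⟩ | ⟨q', rfl⟩)
  · exact Or.inl ⟨M, x, T.A_le_B M hx, rfl⟩
  · exact Or.inr ⟨q', rfl⟩

theorem genA_star : ∀ y ∈ S.genA, star y ∈ S.genA := by
  rintro y (⟨M, x, hx, rfl⟩ | ⟨q', rfl⟩)
  · exact Or.inl ⟨M, star x, star_mem hx, ((S.hom M).star x (T.A_le_B M hx)).symm⟩
  · exact Or.inr ⟨q', (S.Ξ_proj q').isSelfAdjoint.star_eq⟩

theorem genB_star : ∀ y ∈ S.genB, star y ∈ S.genB := by
  rintro y (⟨M, x, hx, rfl⟩ | ⟨q', rfl⟩)
  · exact Or.inl ⟨M, star x, star_mem hx, ((S.hom M).star x hx).symm⟩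
  · exact Or.inr ⟨q', (S.Ξ_proj q').isSelfAdjoint.star_eq⟩

theorem F_genA (M : ℕ) : S.F M ∈ S.genA := by
  exact Or.inl ⟨M, 1, one_mem _, rfl⟩

theorem Ls_gen (M : ℕ) {y : H →L[ℂ] H} (hy : y ∈ T.B M) : S.Φ M y ∈ S.genB :=
  Or.inl ⟨M, y, hy, rfl⟩

theorem Ls_dig (x : ℕ → Bool) (M : ℕ) :
    IsStarProjection (if x M then S.Ξ M else 1 - S.Ξ M) := by
  split_ifs
  · exact S.Ξ_proj M
  · exact (S.Ξ_proj M).one_sub

theorem Ls_cut_comm (x : ℕ → Bool) (M : ℕ) : ∀ y ∈ S.genB, Commute (S.cut x M) y := by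
  intro y hy
  induction M with
  | zero => exact Commute.one_left y
  | succ M ih =>
    refine Commute.mul_left ih ?_
    split_ifs
    · exact S.Ξ_gen M y hy
    · exact (Commute.one_left y).sub_left (S.Ξ_gen M y hy)

theorem Ls_cut_dig (x : ℕ → Bool) (M q : ℕ) :
    Commute (S.cut x M) (if x q then S.Ξ q else 1 - S.Ξ q) := by
  have h := S.Ls_cut_comm x M (S.Ξ q) (Or.inr ⟨q, rfl⟩)
  split_ifs
  · exact h
  · exact (Commute.one_right _).sub_right h

theorem cut_proj (x : ℕ → Bool) (M : ℕ) : IsStarProjection (S.cut x M) := by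
  induction M with
  | zero => exact IsStarProjection.one _
  | succ M ih => exact ih.mul (S.Ls_dig x M) (S.Ls_cut_dig x M M)

theorem cut_mem (x : ℕ → Bool) (M : ℕ) : S.cut x M ∈ StarAlgebra.adjoin ℂ S.genA := by
  induction M with
  | zero => exact one_mem _
  | succ M ih =>
    have h : S.Ξ M ∈ StarAlgebra.adjoin ℂ S.genA :=
      StarAlgebra.subset_adjoin ℂ _ (Or.inr ⟨M, rfl⟩)
    refine mul_mem ih ?_
    split_ifs
    · exact h
    · exact sub_mem (one_mem _) h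

theorem cut_comm (x : ℕ → Bool) (M : ℕ) : ∀ y ∈ S.genB, Commute (S.cut x M) y := by
  exact S.Ls_cut_comm x M

theorem Ls_cut_le (x : ℕ → Bool) {M M' : ℕ} (h : M ≤ M') :
    S.cut x M * S.cut x M' = S.cut x M' ∧ S.cut x M' * S.cut x M = S.cut x M' := by
  refine dec_mul (q := S.cut x) (S.cut_proj x) (fun i => ?_) h
  show S.cut x i * (S.cut x i * _) = S.cut x i * _
  rw [← mul_assoc, (S.cut_proj x i).isIdempotentElem.eq]

theorem cut_le (x : ℕ → Bool) {M M' : ℕ} (h : M ≤ M') :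
    S.cut x M * S.cut x M' = S.cut x M' := by
  exact (S.Ls_cut_le x h).1

theorem cut_digit (x : ℕ → Bool) {q M : ℕ} (h : q < M) :
    S.Ξ q * S.cut x M = if x q then S.cut x M else 0 := by
  have h1 := S.cut_le x (Nat.succ_le_of_lt h)
  have h2 : S.cut x q * S.Ξ q = S.Ξ q * S.cut x q := S.cut_comm x q (S.Ξ q) (Or.inr ⟨q, rfl⟩)
  have h3 : S.Ξ q * S.Ξ q = S.Ξ q := (S.Ξ_proj q).isIdempotentElem.eq
  have h4 : S.cut x (q + 1) = S.cut x q * (if x q then S.Ξ q else 1 - S.Ξ q) := rfl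
  have h5 : S.Ξ q * S.cut x (q + 1) = if x q then S.cut x (q + 1) else 0 := by
    rw [h4, ← mul_assoc, ← h2, mul_assoc]
    split_ifs
    · rw [h3]
    · rw [mul_sub, mul_one, h3, sub_self, mul_zero]
  rw [← h1, ← mul_assoc, h5]
  split_ifs
  · rfl
  · rw [zero_mul]

theorem Ψ_hom (x : ℕ → Bool) (M : ℕ) : HomOn (T.B M) (S.Ψ x M) := by
  exact (S.hom M).cut (S.cut_proj x M) fun y hy => S.cut_comm x M _ (S.Ls_gen M hy)

theorem Ψ_le (x : ℕ → Bool) {M M' : ℕ} (h : M ≤ M') {y : H →L[ℂ] H} (hy : y ∈ T.B M) :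
    S.Ψ x M' y = S.Ψ x M y * S.Ψ x M' 1 ∧ S.Ψ x M' y = S.Ψ x M' 1 * S.Ψ x M y := by
  have h1 := S.Φ_le h hy
  have h2 := S.Ls_cut_le x h
  have h3 : S.cut x M * S.F M' = S.F M' * S.cut x M :=
    S.cut_comm x M _ (S.Ls_gen M' (one_mem _))
  have h4 : S.cut x M' * S.Φ M y = S.Φ M y * S.cut x M' := S.cut_comm x M' _ (S.Ls_gen M hy)
  constructor
  · show S.Φ M' y * S.cut x M' = S.Φ M y * S.cut x M * (S.F M' * S.cut x M')
    rw [h1.1, mul_assoc (S.Φ M y) (S.cut x M), ← mul_assoc (S.cut x M), h3,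
      mul_assoc (S.F M'), h2.1, mul_assoc]
  · show S.Φ M' y * S.cut x M' = S.F M' * S.cut x M' * (S.Φ M y * S.cut x M)
    rw [h1.2, mul_assoc (S.F M') (S.cut x M'), ← mul_assoc (S.cut x M'), h4,
      mul_assoc (S.Φ M y), h2.2, mul_assoc]

theorem Ψ_A (x : ℕ → Bool) (M : ℕ) {a : H →L[ℂ] H} (ha : a ∈ T.A M) :
    S.Ψ x M a ∈ StarAlgebra.adjoin ℂ S.genA := by
  exact mul_mem (StarAlgebra.subset_adjoin ℂ _ (Or.inl ⟨M, a, ha, rfl⟩)) (S.cut_mem x M)

theorem Ψ_B (x : ℕ → Bool) (M : ℕ) {y : H →L[ℂ] H} (hy : y ∈ T.B M) :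
    S.Ψ x M y ∈ StarAlgebra.adjoin ℂ S.genB := by
  exact mul_mem (StarAlgebra.subset_adjoin ℂ _ (S.Ls_gen M hy))
    (StarAlgebra.adjoin_mono S.genA_le (S.cut_mem x M))

end LS

variable {T : Tower (H →L[ℂ] H)} {S S' : LS T} {x : ℕ → Bool} {γ : Germ T}

theorem IsChild.F_le (h : IsChild S x γ S') (i : ℕ) : S.F i * S'.F i = S'.F i := by
  have hi : i ≤ γ.N i + 1 := (γ.mono.le_apply).trans (Nat.le_succ _)
  have hg : γ.g i ∈ T.B (γ.N i + 1) :=
    T.B_mono (Nat.le_succ _) (T.A_le_B _ (γ.g_mem i))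
  have h1 := dec_mul S.F_proj S.F_succ hi
  have h2 : S.F (γ.N i + 1) * S.Φ (γ.N i + 1) (γ.g i) = S.Φ (γ.N i + 1) (γ.g i) :=
    (S.hom _).one_mul hg
  rw [h.F i, S.Ψ_apply, ← mul_assoc, ← h2, ← mul_assoc, h1.1]

theorem IsChild.F_mem (h : IsChild S x γ S') (i : ℕ) : S'.F i ∈ StarAlgebra.adjoin ℂ S.genA := by
  rw [h.F i]
  exact S.Ψ_A x _ (T.A_mono (Nat.le_succ _) (γ.g_mem i))

theorem Ls_comm {G : Set (H →L[ℂ] H)} (hs : ∀ y ∈ G, star y ∈ G) {F : ℕ → (H →L[ℂ] H)}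
    (hF : ∀ η, Tendsto (fun i => F i η) atTop (𝓝 0)) {z y : H →L[ℂ] H}
    (hz : ∀ y ∈ G, Commute z y) (hy : ∀ i, y * (1 - F i) ∈ StarAlgebra.adjoin ℂ G) :
    Commute z y := by
  have hc : ∀ i, Commute z (y * (1 - F i)) := fun i =>
    commute_closure hs hz _ (StarSubalgebra.le_topologicalClosure _ (hy i))
  show z * y = y * z
  ext η
  have h1 : Tendsto (fun i => z (y (η - F i η))) atTop (𝓝 (z (y (η - 0)))) :=
    (z.continuous.tendsto _).comp ((y.continuous.tendsto _).comp (tendsto_const_nhds.sub (hF η)))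
  have h2 : Tendsto (fun i => y (z η - F i (z η))) atTop (𝓝 (y (z η - 0))) :=
    (y.continuous.tendsto _).comp (tendsto_const_nhds.sub (hF (z η)))
  have h3 : (fun i => z (y (η - F i η))) = fun i => y (z η - F i (z η)) := by
    funext i
    exact congrArg (fun w : H →L[ℂ] H => w η) (hc i).eq
  rw [h3] at h1
  have h4 := tendsto_nhds_unique h1 h2
  rw [sub_zero, sub_zero] at h4
  exact h4

theorem IsChild.commA (h : IsChild S x γ S') {z : H →L[ℂ] H} (hz : ∀ y ∈ S.genA, Commute z y) :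
    ∀ y ∈ S'.genA, Commute z y := by
  exact fun y hy => Ls_comm S.genA_star h.null hz (h.cutA y hy)

theorem IsChild.commB (h : IsChild S x γ S') {z : H →L[ℂ] H} (hz : ∀ y ∈ S.genB, Commute z y) :
    ∀ y ∈ S'.genB, Commute z y := by
  exact fun y hy => Ls_comm S.genB_star h.null hz (h.cutB y hy)

end Pool.Agent.P.MP_5d580a_an.Ng
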