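import Pool.Agent.P.MP_5d580a_an.N.Ch2
import Pool.Agent.P.MP_5d580a_an.N.Ls

open scoped ComplexOrder InnerProductSpace ComplexConjugate
open Filter Topology

set_option linter.unusedSectionVars false
set_option linter.unusedVariables false
set_option linter.deprecated false

noncomputable section

namespace Pool.Agent.P.MP_5d580a_an.Ng

variable {D C : Type} [CStarAlgebra D] [CStarAlgebra C]
variable {H : Type} [NormedAddCommGroup H] [InnerProductSpace ℂ H] [CompleteSpace H]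
variable {L : Type} [NormedAddCommGroup L] [InnerProductSpace ℂ L] [CompleteSpace L]

variable {T : Tower (H →L[ℂ] H)}

theorem Ch_mul (S : LS T) (x : ℕ → Bool) {M M' : ℕ} (h : M ≤ M') {y z : H →L[ℂ] H}
    (hy : y ∈ T.B M) (hz : z ∈ T.B M') : S.Ψ x M y * S.Ψ x M' z = S.Ψ x M' (y * z) := by
  have hh := S.Ψ_hom x M'
  rw [hh.mul y (T.B_mono h hy) z hz, (S.Ψ_le x h hy).1, mul_assoc, hh.one_mul hz]

theorem Ch_null (S : LS T) (x : ℕ → Bool) (γ : Germ T) (η : H) :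
    Tendsto (fun i => S.Ψ x (γ.N i + 1) (γ.g i) η) atTop (𝓝 0) := by
  have h0 : ∀ i, γ.N 0 ≤ γ.N i := fun i => γ.mono.monotone (Nat.zero_le i)
  have hj : Tendsto (fun i => γ.N i - γ.N 0) atTop atTop :=
    (tendsto_sub_atTop_nat (γ.N 0)).comp γ.mono.tendsto_atTop
  have hlim := (S.null γ.ω γ.path (γ.N 0) η).comp hj
  rw [tendsto_zero_iff_norm_tendsto_zero] at hlim ⊢
  refine squeeze_zero (fun i => norm_nonneg _) (fun i => ?_) hlim
  simp only [Function.comp_apply]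
  set j := γ.N i - γ.N 0 with hjdef
  have hN : γ.N 0 + j = γ.N i := Nat.add_sub_cancel' (h0 i)
  set E := T.E (γ.N 0) j (γ.ω (γ.N 0 + j)) with hE
  have hEg : E * γ.g i = γ.g i :=
    T.E_mul_of_m γ.path fun k h1 h2 => γ.g_m i k h1 (hN ▸ h2)
  have hEp : IsStarProjection E := T.E_proj _ _ _
  have hgE : γ.g i * E = γ.g i := by
    have := congrArg star hEg
    rwa [star_mul, hEp.isSelfAdjoint.star_eq, (γ.g_proj i).isSelfAdjoint.star_eq] at this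
  have hle : γ.N 0 + j ≤ γ.N i + 1 := by omega
  have hEB : E ∈ T.B (γ.N 0 + j) := T.A_le_B _ (T.E_mem _ _ _)
  have hEB' : E ∈ T.B (γ.N i + 1) := T.B_mono hle hEB
  have hgB : γ.g i ∈ T.B (γ.N i + 1) := T.AB (Nat.le_succ _) (γ.g_mem i)
  have hh := S.Ψ_hom x (γ.N i + 1)
  have hc : Commute (S.cut x (γ.N i + 1)) (S.Φ (γ.N i + 1) E) :=
    S.cut_comm x _ _ (Or.inl ⟨_, E, hEB', rfl⟩)
  have key : S.Ψ x (γ.N i + 1) (γ.g i) =
      S.Ψ x (γ.N i + 1) (γ.g i) * (S.cut x (γ.N i + 1) * (S.F (γ.N i + 1) * S.Φ (γ.N 0 + j) E)) := by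
    rw [← (S.Φ_le hle hEB).2, hc.eq, ← S.Ψ_apply, ← hh.mul _ hgB _ hEB', hgE]
  rw [key]
  simp only [ContinuousLinearMap.mul_apply]
  have n1 := (hh.proj hgB (γ.g_proj i)).norm_le
  have n2 := (S.cut_proj x (γ.N i + 1)).norm_le
  have n3 := (S.F_proj (γ.N i + 1)).norm_le
  have e1 : ∀ (p : H →L[ℂ] H), ‖p‖ ≤ 1 → ∀ v, ‖p v‖ ≤ ‖v‖ := fun p hp v =>
    (p.le_opNorm v).trans (mul_le_of_le_one_left (norm_nonneg _) hp)
  exact (e1 _ n1 _).trans ((e1 _ n2 _).trans (e1 _ n3 _))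

theorem Ch_dec (S : LS T) (x : ℕ → Bool) (γ : Germ T) :
    Dec fun i => S.Ψ x (γ.N i + 1) (γ.g i) where
  proj i := (S.Ψ_hom x _).proj (T.AB (Nat.le_succ _) (γ.g_mem i)) (γ.g_proj i)
  succ i := by
    have h : γ.N i + 1 ≤ γ.N (i + 1) + 1 := Nat.succ_le_succ (γ.mono.monotone (Nat.le_succ i))
    rw [Ch_mul S x h (T.AB (Nat.le_succ _) (γ.g_mem i)) (T.AB (Nat.le_succ _) (γ.g_mem (i + 1))),
      γ.g_succ]
  null := Ch_null S x γ

theorem Ch_pk (S : LS T) (x : ℕ → Bool) (γ : Germ T) (i : ℕ) :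
    ∃ k : Pk (H →L[ℂ] H), IsPk T i (StarAlgebra.adjoin ℂ S.genA) (StarAlgebra.adjoin ℂ S.genB) k
      (S.Ψ x (γ.N i + 1) (γ.g i) - S.Ψ x (γ.N (i + 1) + 1) (γ.g (i + 1)))
      (S.Ψ x (γ.N i + 1) (γ.r i) - S.Ψ x (γ.N (i + 1) + 1) (γ.r i) +
        S.Ψ x (γ.N (i + 1) + 1) (γ.r' i)) (S.Ψ x (γ.N 0 + 1) γ.w) γ.W := by
  have h : γ.N i + 1 ≤ γ.N (i + 1) + 1 := Nat.succ_le_succ (γ.mono.monotone (Nat.le_succ i))
  have h0 : ∀ i, γ.N 0 + 1 ≤ γ.N i + 1 := fun i =>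
    Nat.succ_le_succ (γ.mono.monotone (Nat.zero_le i))
  have hW : γ.W ∈ T.B i := T.AB (Nat.zero_le i) γ.W_mem
  have hle' : StarAlgebra.adjoin ℂ S.genA ≤ StarAlgebra.adjoin ℂ S.genB :=
    StarAlgebra.adjoin_mono S.genA_le
  have hw : γ.w ∈ T.B (γ.N 0 + 1) := T.AB (Nat.le_succ _) γ.w_mem
  have hg : γ.g i ∈ T.B (γ.N i + 1) := T.AB (Nat.le_succ _) (γ.g_mem i)
  have hg' : γ.g (i + 1) ∈ T.B (γ.N (i + 1) + 1) := T.AB (Nat.le_succ _) (γ.g_mem (i + 1))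
  have hr : γ.r i ∈ T.B (γ.N i + 1) := T.B_mono (Nat.le_succ _) (γ.r_mem i)
  have hgg : γ.g i - γ.g (i + 1) ∈ T.B (γ.N (i + 1) + 1) := sub_mem (T.B_mono h hg) hg'
  have hh := S.Ψ_hom x (γ.N (i + 1) + 1)
  have p0 := pk_map (γ.pk0 i) (T.A_le_B _) hW hle' (S.Ψ_hom x (γ.N i + 1))
    (fun a ha => S.Ψ_A x _ ha) (fun y hy => S.Ψ_B x _ hy) hh.one_proj.one_sub
    (sub_mem (one_mem _) (S.Ψ_A x _ (one_mem _)))
    (fun y hy => (Commute.one_left _).sub_left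
      ((S.Ψ_le x h hy).2.symm.trans (S.Ψ_le x h hy).1))
    (Ch_mul S x (h0 i) hw hg).symm
  have p1 := pk_map (γ.pk1 i) (T.A_le_B _) hW hle' hh
    (fun a ha => S.Ψ_A x _ ha) (fun y hy => S.Ψ_B x _ hy) (IsStarProjection.one _)
    (one_mem _) (fun y hy => Commute.one_left _) (Ch_mul S x (h0 (i + 1)) hw hgg).symm
  have p := pk_add p0 p1 (by
    rw [mul_one, mul_assoc, sub_mul, one_mul, hh.one_mul hgg, sub_self, mul_zero])
  rw [mul_one, mul_one, mul_sub, mul_sub, mul_one, mul_one, ← (S.Ψ_le x h hg).1,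
    ← (S.Ψ_le x h hr).1, map_sub, sub_add_sub_cancel] at p
  exact p

theorem exists_child (S : LS T) (x : ℕ → Bool) (γ : Germ T) : ∃ S' : LS T, IsChild S x γ S' := by
  have hF := Ch_dec S x γ
  obtain ⟨S', h1, h2, h3, h4, α, hα, β, hβ, nβ, h5⟩ := exists_ls hF
    (StarAlgebra.adjoin_mono S.genA_le) γ.W_mem (Ch_pk S x γ)
  have hg : ∀ i, γ.g i ∈ T.B (γ.N i + 1) := fun i => T.AB (Nat.le_succ _) (γ.g_mem i)
  have hr : ∀ i, γ.r i ∈ T.B (γ.N i + 1) := fun i => T.B_mono (Nat.le_succ _) (γ.r_mem i)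
  refine ⟨S', h1, fun η => ?_, fun y hy i => ?_, fun y hy i => ?_, ?_, α, hα, β, hβ, nβ,
    fun i => ?_⟩
  · simp only [h1]
    exact hF.null η
  · rw [h1]
    exact h2 y hy i
  · rw [h1]
    exact h3 y hy i
  · rw [h4]
    exact Ch_mul S x le_rfl (T.AB (Nat.le_succ _) γ.w_mem) (hg 0)
  · rw [h1]
    refine hF.tele (r := fun i => S.Ψ x (γ.N i + 1) (γ.r i)) (fun i => ?_) (fun i => ?_)
      (fun i => ?_) i
    · rw [Ch_mul S x le_rfl (hr i) (hg i), γ.r_g]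
    · exact ((S.Ψ_hom x _).norm_le _ (hr i)).trans (γ.r_norm i)
    · have h : γ.N i + 1 ≤ γ.N (i + 1) + 1 := Nat.succ_le_succ (γ.mono.monotone (Nat.le_succ i))
      have hr' : γ.r' i ∈ T.B (γ.N (i + 1) + 1) := by
        rw [← (γ.pk1 i).val]
        exact add_mem (T.A_le_B _ (γ.pk1 i).α_mem) (mul_mem (T.A_le_B _ (γ.pk1 i).β_mem)
          ((γ.pk1 i).mapB _ (T.B_mono (Nat.zero_le i) T.ℓ_mem)))
      have hm : γ.r' i - (γ.r i - γ.r (i + 1)) ∈ T.B (γ.N (i + 1) + 1) :=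
        sub_mem hr' (sub_mem (T.B_mono h (hr i)) (hr (i + 1)))
      refine le_trans (le_of_eq ?_) (((S.Ψ_hom x _).norm_le _ hm).trans (γ.est i))
      rw [h5 i, map_sub, map_sub]
      congr 1
      abel

/-- the root local system -/
def Ch_root (hw : Wit T) : LS T where
  Φ _ := LinearMap.id
  Ξ _ := 0
  hom _ := ⟨fun _ _ _ _ => rfl, fun _ _ => rfl, fun _ _ => le_rfl⟩
  succ _ y _ := (mul_one y).symm
  Ξ_proj _ := IsStarProjection.zero _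
  Ξ_comm _ _ _ _ := Commute.zero_left _
  Ξ_Ξ _ _ := Commute.refl _
  null := hw.null

/-- the local systems along the tree -/
def Ch_ls (hw : Wit T) (Γ : Set (Germ T)) : Node Γ → LS T
  | [] => Ch_root hw
  | e :: c => Classical.choose (exists_child (Ch_ls hw Γ c) e.1 e.2.1)

theorem exists_tree (hw : Wit T) (Γ : Set (Germ T)) : Nonempty (Tree Γ) :=
  ⟨⟨Ch_ls hw Γ, fun _ _ _ => rfl, fun _ => rfl,
    fun e c => Classical.choose_spec (exists_child (Ch_ls hw Γ c) e.1 e.2.1)⟩⟩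

end Pool.Agent.P.MP_5d580a_an.Ng
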