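import Pool.Agent.P.MP_5d580a_an.N.Hom

open scoped ComplexOrder InnerProductSpace ComplexConjugate
open Filter Topology

set_option linter.unusedSectionVars false
set_option linter.unusedVariables false
set_option linter.deprecated false

noncomputable section

namespace Pool.Agent.P.MP_5d580a_an.Ng

variable {D C : Type} [CStarAlgebra D] [CStarAlgebra C]
variable {H : Type} [NormedAddCommGroup H] [InnerProductSpace ℂ H] [CompleteSpace H]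
variable {L : Type} [NormedAddCommGroup L] [InnerProductSpace ℂ L] [CompleteSpace L]

variable {T : Tower D} {j : ℕ} {𝒜 ℬ : StarSubalgebra ℂ D} {ρ ρ' r r' w W : D}

theorem IsPk.ρ_proj {k : Pk D} (h : IsPk T j 𝒜 ℬ k ρ r w W) : IsStarProjection ρ := by
  rw [← h.one]; exact h.hom.one_proj

theorem IsPk.depth {k : Pk D} (h : IsPk T j 𝒜 ℬ k ρ r w W) {j' : ℕ} (hj : j' ≤ j) :
    IsPk T j' 𝒜 ℬ k ρ r w W :=
  { h with
    hom := h.hom.mono (T.B_mono hj)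
    mapA := fun a ha => h.mapA a (T.A_mono hj ha)
    mapB := fun x hx => h.mapB x (T.B_mono hj hx)
    ξ_comm := fun q x hx => h.ξ_comm q x (T.B_mono hj hx) }

theorem Pk_pos (n : ℕ) : (0 : ℝ) ≤ 1 / ((n : ℝ) + 1) := by positivity

theorem pk_zero : ∃ k : Pk D, IsPk T j 𝒜 ℬ k 0 0 w W := by
  refine ⟨⟨0, fun _ => 0, 0, 0⟩, ?_⟩
  constructor
  · exact ⟨fun x _ y _ => by simp, fun x _ => by simp, fun x _ => by simp⟩
  · rfl
  · intro a _; exact zero_mem _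
  · intro a _; exact zero_mem _
  · intro q; exact zero_mem _
  · intro q; exact IsStarProjection.zero D
  · intro q; simp
  · intro q x _; exact Commute.zero_left _
  · intro q q'; exact Commute.zero_left _
  · exact zero_mem _
  · exact zero_mem _
  · simp
  · simp
  · simp
  · simp
  · simp
  · simp
  · simp
  · simp
  · intro n; simpa using Pk_pos n
  · intro n; simpa using Pk_pos n

/-- the digit projections attached to two choices of net indices -/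
def Pk_dig (e : D) (la lb : ℕ → ℕ) (q : ℕ) : D :=
  if (Nat.unpair (q / 2)).2 = (if q % 2 = 0 then la else lb) (Nat.unpair (q / 2)).1 then e else 0

theorem Pk_dig_cases (e : D) (la lb : ℕ → ℕ) (q : ℕ) :
    Pk_dig e la lb q = e ∨ Pk_dig e la lb q = 0 := by
  unfold Pk_dig
  split_ifs <;> simp

theorem Pk_dig_zero (e : D) (la lb : ℕ → ℕ) (n l : ℕ) :
    Pk_dig e la lb (ix n l 0) = if l = la n then e else 0 := by
  have h1 : ix n l 0 / 2 = Nat.pair n l := by unfold ix; omega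
  have h2 : ix n l 0 % 2 = 0 := by unfold ix; omega
  simp [Pk_dig, h1, h2]

theorem Pk_dig_one (e : D) (la lb : ℕ → ℕ) (n l : ℕ) :
    Pk_dig e la lb (ix n l 1) = if l = lb n then e else 0 := by
  have h1 : ix n l 1 / 2 = Nat.pair n l := by unfold ix; omega
  have h2 : ix n l 1 % 2 = 1 := by unfold ix; omega
  simp [Pk_dig, h1, h2]

theorem Pk_single_apx {f : D →ₗ[ℂ] D} (hf : HomOn (T.B j) f) {α : D} (hα : α ∈ T.A 0) {n l₀ : ℕ}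
    (hl : l₀ < T.nN n) (ha : ‖α - T.nc n l₀‖ ≤ 1 / ((n : ℝ) + 1)) :
    ‖f α - ∑ l ∈ Finset.range (T.nN n), (if l = l₀ then f 1 else 0) * f (T.nc n l)‖ ≤
      1 / ((n : ℝ) + 1) := by
  have hB : T.nc n l₀ ∈ T.B j := T.AB (Nat.zero_le j) (T.nc_mem n l₀)
  rw [Finset.sum_eq_single l₀, if_pos rfl, hf.one_mul hB, ← map_sub]
  · exact (hf.norm_le _ (sub_mem (T.AB (Nat.zero_le j) hα) hB)).trans ha
  · intro l _ hne; rw [if_neg hne, zero_mul]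
  · intro hn; exact absurd (Finset.mem_range.2 hl) hn

/-- a single copy with constant coefficients -/
theorem pk_single {f : D →ₗ[ℂ] D} (hf : HomOn (T.B j) f) (hA : ∀ a ∈ T.A j, f a ∈ 𝒜)
    (hB : ∀ x ∈ T.B j, f x ∈ ℬ) {α β : D} (hα : α ∈ T.A 0) (hβ : β ∈ T.A 0) (nα : ‖α‖ ≤ 1)
    (nβ : ‖β‖ ≤ 1) (hW : f W = w * f 1) :
    ∃ k : Pk D, IsPk T j 𝒜 ℬ k (f 1) (f (α + β * T.ℓ)) w W := by
  choose la hla hla' using fun n => T.net n α hα nα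
  choose lb hlb hlb' using fun n => T.net n β hβ nβ
  have hαB : α ∈ T.B j := T.AB (Nat.zero_le j) hα
  have hβB : β ∈ T.B j := T.AB (Nat.zero_le j) hβ
  have hℓ : T.ℓ ∈ T.B j := T.B_mono (Nat.zero_le j) T.ℓ_mem
  have h1 : f 1 ∈ 𝒜 := hA 1 (one_mem _)
  refine ⟨⟨f, Pk_dig (f 1) la lb, f α, f β⟩, ?_⟩
  constructor
  · exact hf
  · rfl
  · exact hA
  · exact hB
  · intro q
    rcases Pk_dig_cases (f 1) la lb q with h | h <;> simp only [h]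
    · exact h1
    · exact zero_mem _
  · intro q
    rcases Pk_dig_cases (f 1) la lb q with h | h <;> simp only [h]
    · exact hf.one_proj
    · exact IsStarProjection.zero D
  · intro q
    rcases Pk_dig_cases (f 1) la lb q with h | h <;> simp only [h]
    · exact hf.one_mul (one_mem _)
    · exact zero_mul _
  · intro q x hx
    rcases Pk_dig_cases (f 1) la lb q with h | h <;> simp only [h]
    · exact (hf.one_mul hx).trans (hf.mul_one hx).symm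
    · exact Commute.zero_left _
  · intro q q'
    rcases Pk_dig_cases (f 1) la lb q with h | h <;>
      rcases Pk_dig_cases (f 1) la lb q' with h' | h' <;> simp only [h, h']
    · exact Commute.refl _
    · exact Commute.zero_right _
    · exact Commute.zero_left _
    · exact Commute.zero_left _
  · exact hA α (T.A_mono (Nat.zero_le j) hα)
  · exact hA β (T.A_mono (Nat.zero_le j) hβ)
  · exact hf.one_mul hαB
  · exact hf.mul_one hαB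
  · exact hf.one_mul hβB
  · exact hf.mul_one hβB
  · exact (hf.norm_le α hαB).trans nα
  · exact (hf.norm_le β hβB).trans nβ
  · show f α + f β * f T.ℓ = f (α + β * T.ℓ)
    rw [map_add, hf.mul β hβB _ hℓ]
  · exact hW
  · intro n
    simp only [Pk_dig_zero]
    exact Pk_single_apx hf hα (hla n) (hla' n)
  · intro n
    simp only [Pk_dig_one]
    exact Pk_single_apx hf hβ (hlb n) (hlb' n)

/-- elements cut on both sides by `ρ` -/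
def Pk_In (ρ x : D) : Prop := ρ * x = x ∧ x * ρ = x

theorem Pk_In.orth {x y : D} (hx : Pk_In ρ x) (hy : Pk_In ρ' y) (ho : ρ * ρ' = 0) : x * y = 0 := by
  rw [← hx.2, ← hy.1, mul_assoc, ← mul_assoc ρ, ho, zero_mul, mul_zero]

theorem Pk_In.mul {x y : D} (hx : Pk_In ρ x) (hy : Pk_In ρ y) : Pk_In ρ (x * y) :=
  ⟨by rw [← mul_assoc, hx.1], by rw [mul_assoc, hy.2]⟩

theorem Pk_In.sub {x y : D} (hx : Pk_In ρ x) (hy : Pk_In ρ y) : Pk_In ρ (x - y) :=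
  ⟨by rw [mul_sub, hx.1, hy.1], by rw [sub_mul, hx.2, hy.2]⟩

theorem Pk_In.sum {ι : Type} {S : Finset ι} {x : ι → D} (hx : ∀ i ∈ S, Pk_In ρ (x i)) :
    Pk_In ρ (∑ i ∈ S, x i) :=
  ⟨by rw [Finset.mul_sum]; exact Finset.sum_congr rfl fun i hi => (hx i hi).1,
    by rw [Finset.sum_mul]; exact Finset.sum_congr rfl fun i hi => (hx i hi).2⟩

theorem IsPk.Pk_f {k : Pk D} (h : IsPk T j 𝒜 ℬ k ρ r w W) {x : D} (hx : x ∈ T.B j) :
    Pk_In ρ (k.f x) := by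
  rw [← h.one]; exact ⟨h.hom.one_mul hx, h.hom.mul_one hx⟩

theorem IsPk.Pk_ρ {k : Pk D} (h : IsPk T j 𝒜 ℬ k ρ r w W) : Pk_In ρ ρ :=
  ⟨h.ρ_proj.isIdempotentElem, h.ρ_proj.isIdempotentElem⟩

theorem IsPk.Pk_ξ {k : Pk D} (h : IsPk T j 𝒜 ℬ k ρ r w W) (q : ℕ) : Pk_In ρ (k.ξ q) := by
  refine ⟨?_, h.ξ_le q⟩
  have := congrArg star (h.ξ_le q)
  rwa [star_mul, h.ρ_proj.isSelfAdjoint.star_eq, (h.ξ_proj q).isSelfAdjoint.star_eq] at this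

theorem Pk_add_mul {x x' y y' : D} (hx : Pk_In ρ x) (hx' : Pk_In ρ' x') (hy : Pk_In ρ y)
    (hy' : Pk_In ρ' y') (ho : ρ * ρ' = 0) (ho' : ρ' * ρ = 0) :
    (x + x') * (y + y') = x * y + x' * y' := by
  rw [add_mul, mul_add, mul_add, hx.orth hy' ho, hx'.orth hy ho', add_zero, zero_add]

theorem Pk_add_apx {k k' : Pk D} (h : IsPk T j 𝒜 ℬ k ρ r w W) (h' : IsPk T j 𝒜 ℬ k' ρ' r' w W)
    (ho : ρ * ρ' = 0) (ho' : ρ' * ρ = 0) {a a' : D} (ha : Pk_In ρ a) (ha' : Pk_In ρ' a')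
    (n b : ℕ) {c : ℝ}
    (h1 : ‖a - ∑ l ∈ Finset.range (T.nN n), k.ξ (ix n l b) * k.f (T.nc n l)‖ ≤ c)
    (h2 : ‖a' - ∑ l ∈ Finset.range (T.nN n), k'.ξ (ix n l b) * k'.f (T.nc n l)‖ ≤ c) :
    ‖a + a' - ∑ l ∈ Finset.range (T.nN n),
      (k.ξ (ix n l b) + k'.ξ (ix n l b)) * (k.f (T.nc n l) + k'.f (T.nc n l))‖ ≤ c := by
  have hn : ∀ l, T.nc n l ∈ T.B j := fun l => T.AB (Nat.zero_le j) (T.nc_mem n l)
  have e : a + a' - ∑ l ∈ Finset.range (T.nN n),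
      (k.ξ (ix n l b) + k'.ξ (ix n l b)) * (k.f (T.nc n l) + k'.f (T.nc n l)) =
      (a - ∑ l ∈ Finset.range (T.nN n), k.ξ (ix n l b) * k.f (T.nc n l)) +
      (a' - ∑ l ∈ Finset.range (T.nN n), k'.ξ (ix n l b) * k'.f (T.nc n l)) := by
    rw [Finset.sum_congr rfl fun l _ =>
      Pk_add_mul (h.Pk_ξ _) (h'.Pk_ξ _) (h.Pk_f (hn l)) (h'.Pk_f (hn l)) ho ho',
      Finset.sum_add_distrib]
    abel
  have i1 := ha.sub (Pk_In.sum (S := Finset.range (T.nN n))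
    fun l _ => (h.Pk_ξ (ix n l b)).mul (h.Pk_f (hn l)))
  have i2 := ha'.sub (Pk_In.sum (S := Finset.range (T.nN n))
    fun l _ => (h'.Pk_ξ (ix n l b)).mul (h'.Pk_f (hn l)))
  rw [e]
  exact norm_add_orth h.ρ_proj h'.ρ_proj ho i1.1 i1.2 i2.1 i2.2 h1 h2

theorem pk_add (h : ∃ k : Pk D, IsPk T j 𝒜 ℬ k ρ r w W)
    (h' : ∃ k : Pk D, IsPk T j 𝒜 ℬ k ρ' r' w W) (ho : ρ * ρ' = 0) :
    ∃ k : Pk D, IsPk T j 𝒜 ℬ k (ρ + ρ') (r + r') w W := by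
  obtain ⟨k, h⟩ := h
  obtain ⟨k', h'⟩ := h'
  have ho' : ρ' * ρ = 0 := by
    have := congrArg star ho
    rwa [star_mul, h.ρ_proj.isSelfAdjoint.star_eq, h'.ρ_proj.isSelfAdjoint.star_eq,
      star_zero] at this
  have hℓ : T.ℓ ∈ T.B j := T.B_mono (Nat.zero_le j) T.ℓ_mem
  have a1 : Pk_In ρ k.α := ⟨h.α_l, h.α_r⟩
  have a2 : Pk_In ρ' k'.α := ⟨h'.α_l, h'.α_r⟩
  have b1 : Pk_In ρ k.β := ⟨h.β_l, h.β_r⟩
  have b2 : Pk_In ρ' k'.β := ⟨h'.β_l, h'.β_r⟩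
  refine ⟨⟨k.f + k'.f, fun q => k.ξ q + k'.ξ q, k.α + k'.α, k.β + k'.β⟩, ?_⟩
  constructor
  · exact h.hom.add_orth h'.hom (by rw [h.one, h'.one, ho])
  · show k.f 1 + k'.f 1 = ρ + ρ'
    rw [h.one, h'.one]
  · intro a ha; exact add_mem (h.mapA a ha) (h'.mapA a ha)
  · intro a ha; exact add_mem (h.mapB a ha) (h'.mapB a ha)
  · intro q; exact add_mem (h.ξ_mem q) (h'.ξ_mem q)
  · intro q; exact (h.ξ_proj q).add (h'.ξ_proj q) ((h.Pk_ξ q).orth (h'.Pk_ξ q) ho)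
  · intro q
    show (k.ξ q + k'.ξ q) * (ρ + ρ') = k.ξ q + k'.ξ q
    rw [Pk_add_mul (h.Pk_ξ q) (h'.Pk_ξ q) h.Pk_ρ h'.Pk_ρ ho ho', h.ξ_le, h'.ξ_le]
  · intro q x hx
    show (k.ξ q + k'.ξ q) * (k.f x + k'.f x) = (k.f x + k'.f x) * (k.ξ q + k'.ξ q)
    rw [Pk_add_mul (h.Pk_ξ q) (h'.Pk_ξ q) (h.Pk_f hx) (h'.Pk_f hx) ho ho',
      Pk_add_mul (h.Pk_f hx) (h'.Pk_f hx) (h.Pk_ξ q) (h'.Pk_ξ q) ho ho',
      (h.ξ_comm q x hx).eq, (h'.ξ_comm q x hx).eq]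
  · intro q q'
    show (k.ξ q + k'.ξ q) * (k.ξ q' + k'.ξ q') = (k.ξ q' + k'.ξ q') * (k.ξ q + k'.ξ q)
    rw [Pk_add_mul (h.Pk_ξ q) (h'.Pk_ξ q) (h.Pk_ξ q') (h'.Pk_ξ q') ho ho',
      Pk_add_mul (h.Pk_ξ q') (h'.Pk_ξ q') (h.Pk_ξ q) (h'.Pk_ξ q) ho ho',
      (h.ξ_ξ q q').eq, (h'.ξ_ξ q q').eq]
  · exact add_mem h.α_mem h'.α_mem
  · exact add_mem h.β_mem h'.β_mem
  · show (ρ + ρ') * (k.α + k'.α) = k.α + k'.α
    rw [Pk_add_mul h.Pk_ρ h'.Pk_ρ a1 a2 ho ho', a1.1, a2.1]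
  · show (k.α + k'.α) * (ρ + ρ') = k.α + k'.α
    rw [Pk_add_mul a1 a2 h.Pk_ρ h'.Pk_ρ ho ho', a1.2, a2.2]
  · show (ρ + ρ') * (k.β + k'.β) = k.β + k'.β
    rw [Pk_add_mul h.Pk_ρ h'.Pk_ρ b1 b2 ho ho', b1.1, b2.1]
  · show (k.β + k'.β) * (ρ + ρ') = k.β + k'.β
    rw [Pk_add_mul b1 b2 h.Pk_ρ h'.Pk_ρ ho ho', b1.2, b2.2]
  · exact norm_add_orth h.ρ_proj h'.ρ_proj ho a1.1 a1.2 a2.1 a2.2 h.α_norm h'.α_norm
  · exact norm_add_orth h.ρ_proj h'.ρ_proj ho b1.1 b1.2 b2.1 b2.2 h.β_norm h'.β_norm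
  · show k.α + k'.α + (k.β + k'.β) * (k.f T.ℓ + k'.f T.ℓ) = r + r'
    rw [Pk_add_mul b1 b2 (h.Pk_f hℓ) (h'.Pk_f hℓ) ho ho', ← h.val, ← h'.val]
    abel
  · show k.f W + k'.f W = w * (ρ + ρ')
    rw [h.tw, h'.tw, mul_add]
  · intro n; exact Pk_add_apx h h' ho ho' a1 a2 n 0 (h.α_apx n) (h'.α_apx n)
  · intro n; exact Pk_add_apx h h' ho ho' b1 b2 n 1 (h.β_apx n) (h'.β_apx n)

theorem pk_sum {ι : Type} (S : Finset ι) {ρ r : ι → D}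
    (h : ∀ i ∈ S, ∃ k : Pk D, IsPk T j 𝒜 ℬ k (ρ i) (r i) w W)
    (ho : ∀ i ∈ S, ∀ i' ∈ S, i ≠ i' → ρ i * ρ i' = 0) :
    ∃ k : Pk D, IsPk T j 𝒜 ℬ k (∑ i ∈ S, ρ i) (∑ i ∈ S, r i) w W := by
  classical
  induction S using Finset.induction_on with
  | empty => simpa using pk_zero
  | insert a S ha ih =>
    rw [Finset.sum_insert ha, Finset.sum_insert ha]
    refine pk_add (h a (Finset.mem_insert_self a S))
      (ih (fun i hi => h i (Finset.mem_insert_of_mem hi))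
        fun i hi i' hi' => ho i (Finset.mem_insert_of_mem hi) i' (Finset.mem_insert_of_mem hi')) ?_
    rw [Finset.mul_sum]
    refine Finset.sum_eq_zero fun i hi => ho a (Finset.mem_insert_self a S) i
      (Finset.mem_insert_of_mem hi) ?_
    rintro rfl
    exact ha hi

theorem Pk_map_apx {k : Pk D} (h : IsPk T j 𝒜 ℬ k ρ r w W) (hle : 𝒜 ≤ ℬ) {G : D →ₗ[ℂ] D}
    (hG : HomOn ℬ G) {a : D} (ha : a ∈ 𝒜) (n b : ℕ) {c : ℝ}
    (h1 : ‖a - ∑ l ∈ Finset.range (T.nN n), k.ξ (ix n l b) * k.f (T.nc n l)‖ ≤ c) :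
    ‖G a - ∑ l ∈ Finset.range (T.nN n), G (k.ξ (ix n l b)) * G (k.f (T.nc n l))‖ ≤ c := by
  have hn : ∀ l, k.f (T.nc n l) ∈ ℬ := fun l =>
    h.mapB _ (T.AB (Nat.zero_le j) (T.nc_mem n l))
  rw [Finset.sum_congr rfl fun l _ => (hG.mul _ (hle (h.ξ_mem (ix n l b))) _ (hn l)).symm,
    ← map_sum, ← map_sub]
  exact (hG.norm_le _ (sub_mem (hle ha)
    (sum_mem fun l _ => mul_mem (hle (h.ξ_mem _)) (hn l)))).trans h1

/-- transport along a homomorphism -/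
theorem Pk_map_hom {k : Pk D} (h : IsPk T j 𝒜 ℬ k ρ r w W) (hle : 𝒜 ≤ ℬ)
    {𝒜' ℬ' : StarSubalgebra ℂ D} {G : D →ₗ[ℂ] D} (hG : HomOn ℬ G)
    (hA : ∀ a ∈ 𝒜, G a ∈ 𝒜') (hB : ∀ x ∈ ℬ, G x ∈ ℬ') {w' : D} (hw : G (w * ρ) = w' * G ρ) :
    ∃ k' : Pk D, IsPk T j 𝒜' ℬ' k' (G ρ) (G r) w' W := by
  have hρ : ρ ∈ ℬ := h.one ▸ h.mapB 1 (one_mem _)
  have hℓ : k.f T.ℓ ∈ ℬ := h.mapB _ (T.B_mono (Nat.zero_le j) T.ℓ_mem)
  have hα := hle h.α_mem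
  have hβ := hle h.β_mem
  have hξ : ∀ q, k.ξ q ∈ ℬ := fun q => hle (h.ξ_mem q)
  refine ⟨⟨G.comp k.f, fun q => G (k.ξ q), G k.α, G k.β⟩, ?_⟩
  constructor
  · exact hG.comp h.hom h.mapB
  · show G (k.f 1) = G ρ
    rw [h.one]
  · intro a ha; exact hA _ (h.mapA a ha)
  · intro a ha; exact hB _ (h.mapB a ha)
  · intro q; exact hA _ (h.ξ_mem q)
  · intro q; exact hG.proj (hξ q) (h.ξ_proj q)
  · intro q
    show G (k.ξ q) * G ρ = G (k.ξ q)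
    rw [← hG.mul _ (hξ q) _ hρ, h.ξ_le]
  · intro q x hx; exact hG.commute (hξ q) (h.mapB x hx) (h.ξ_comm q x hx)
  · intro q q'; exact hG.commute (hξ q) (hξ q') (h.ξ_ξ q q')
  · exact hA _ h.α_mem
  · exact hA _ h.β_mem
  · show G ρ * G k.α = G k.α
    rw [← hG.mul _ hρ _ hα, h.α_l]
  · show G k.α * G ρ = G k.α
    rw [← hG.mul _ hα _ hρ, h.α_r]
  · show G ρ * G k.β = G k.β
    rw [← hG.mul _ hρ _ hβ, h.β_l]
  · show G k.β * G ρ = G k.β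
    rw [← hG.mul _ hβ _ hρ, h.β_r]
  · exact (hG.norm_le _ hα).trans h.α_norm
  · exact (hG.norm_le _ hβ).trans h.β_norm
  · show G k.α + G k.β * G (k.f T.ℓ) = G r
    rw [← hG.mul _ hβ _ hℓ, ← map_add, h.val]
  · show G (k.f W) = w' * G ρ
    rw [h.tw, hw]
  · intro n; exact Pk_map_apx h hle hG h.α_mem n 0 (h.α_apx n)
  · intro n; exact Pk_map_apx h hle hG h.β_mem n 1 (h.β_apx n)

/-- transport along a homomorphism followed by a cut -/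
theorem pk_map {k : Pk D} (h : IsPk T j 𝒜 ℬ k ρ r w W) (hle : 𝒜 ≤ ℬ) (hW : W ∈ T.B j)
    {𝒜' ℬ' : StarSubalgebra ℂ D} (hle' : 𝒜' ≤ ℬ') {g : D →ₗ[ℂ] D} (hg : HomOn ℬ g)
    (hA : ∀ a ∈ 𝒜, g a ∈ 𝒜') (hB : ∀ x ∈ ℬ, g x ∈ ℬ') {q : D} (hq : IsStarProjection q)
    (hqA : q ∈ 𝒜') (hc : ∀ x ∈ ℬ, Commute q (g x)) {w' : D} (hw : g (w * ρ) = w' * g ρ) :
    ∃ k' : Pk D, IsPk T j 𝒜' ℬ' k' (g ρ * q) (g r * q) w' W := by
  refine Pk_map_hom (G := (LinearMap.mulRight ℂ q).comp g) h hle (hg.cut hq hc)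
    (fun a ha => mul_mem (hA a ha) hqA) (fun x hx => mul_mem (hB x hx) (hle' hqA)) ?_
  show g (w * ρ) * q = w' * (g ρ * q)
  rw [hw, mul_assoc]

end Pool.Agent.P.MP_5d580a_an.Ng
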