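import Pool.Agent.P.MP_5d580a_an.N.Bs
import Pool.Agent.P.MP_5d580a_an.N.Pk

open scoped ComplexOrder InnerProductSpace ComplexConjugate
open Filter Topology

set_option linter.unusedSectionVars false
set_option linter.unusedVariables false
set_option linter.deprecated false

noncomputable section

namespace Pool.Agent.P.MP_5d580a_an.Ng

variable {D C : Type} [CStarAlgebra D] [CStarAlgebra C]
variable {H : Type} [NormedAddCommGroup H] [InnerProductSpace ℂ H] [CompleteSpace H]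
variable {L : Type} [NormedAddCommGroup L] [InnerProductSpace ℂ L] [CompleteSpace L]

variable {T : Tower (H →L[ℂ] H)}

namespace Ch2Aux

theorem E_mem (T : Tower D) (n : ℕ) : ∀ j w, T.E n j w ∈ T.A (n + j) := by
  intro j
  induction j with
  | zero => intro w; exact one_mem _
  | succ j ih =>
    intro w
    show T.E n j (w / 2) * T.m (n + j) w ∈ T.A (n + j + 1)
    exact mul_mem (T.A_mono (Nat.le_succ _) (ih _)) (T.m_mem _ _)

theorem E_norm (T : Tower D) (n : ℕ) : ∀ j w, ‖T.E n j w‖ ≤ 1 := by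
  intro j
  induction j with
  | zero => intro w; exact (IsStarProjection.one D).norm_le
  | succ j ih =>
    intro w
    show ‖T.E n j (w / 2) * T.m (n + j) w‖ ≤ 1
    calc ‖T.E n j (w / 2) * T.m (n + j) w‖ ≤ ‖T.E n j (w / 2)‖ * ‖T.m (n + j) w‖ :=
          norm_mul_le _ _
      _ ≤ 1 * 1 := mul_le_mul (ih _) (T.m_proj _ _).norm_le (norm_nonneg _) zero_le_one
      _ = 1 := one_mul 1

theorem bs_congr {F : ℕ → (H →L[ℂ] H)} {y y' : ℕ → (H →L[ℂ] H)} {x : H →L[ℂ] H}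
    (hx : IsBs F y x) (h : ∀ i, y i = y' i) : IsBs F y' x := by
  have : y = y' := funext h
  rw [← this]; exact hx

theorem bs_eq {F : ℕ → (H →L[ℂ] H)} (hF : Dec F) {y y' : ℕ → (H →L[ℂ] H)} {x x' : H →L[ℂ] H}
    (hx : IsBs F y x) (hx' : IsBs F y' x') (h : ∀ i, y i = y' i) : x = x' :=
  IsBs.unique hF (bs_congr hx h) hx'

/-- a linear family of block sums on a subspace extends to a linear map -/
theorem exists_lin {F : ℕ → (H →L[ℂ] H)} (hF : Dec F) (S : Submodule ℂ (H →L[ℂ] H))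
    (y : ℕ → ((H →L[ℂ] H) →ₗ[ℂ] (H →L[ℂ] H)))
    (h : ∀ x ∈ S, ∃ z, IsBs F (fun i => y i x) z) :
    ∃ Φ : (H →L[ℂ] H) →ₗ[ℂ] (H →L[ℂ] H), ∀ x ∈ S, IsBs F (fun i => y i x) (Φ x) := by
  choose z hz using h
  let φ : S →ₗ[ℂ] (H →L[ℂ] H) :=
    { toFun := fun x => z x.1 x.2
      map_add' := fun x x' =>
        bs_eq hF (hz _ (x + x').2) ((hz _ x.2).add (hz _ x'.2)) (fun i => by
          show y i (x.1 + x'.1) = y i x.1 + y i x'.1
          rw [map_add])
      map_smul' := fun c x =>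
        bs_eq hF (hz _ (c • x).2) ((hz _ x.2).smul c) (fun i => by
          show y i (c • x.1) = c • y i x.1
          rw [map_smul]) }
  obtain ⟨Φ, hΦ⟩ := LinearMap.exists_extend φ
  refine ⟨Φ, fun x hx => ?_⟩
  have : Φ x = z x hx := by
    have := LinearMap.congr_fun hΦ ⟨x, hx⟩
    simpa [φ] using this
  rw [this]
  exact hz x hx

theorem mem_closure_of_apx {S : StarSubalgebra ℂ D} {a : D} {b : ℕ → D} (hb : ∀ n, b n ∈ S)
    (h : ∀ n : ℕ, ‖a - b n‖ ≤ 1 / ((n : ℝ) + 1)) : a ∈ S.topologicalClosure := by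
  show a ∈ closure (S : Set D)
  rw [Metric.mem_closure_iff]
  intro ε hε
  obtain ⟨n, hn⟩ := exists_nat_one_div_lt hε
  exact ⟨b n, hb n, by rw [dist_eq_norm]; exact (h n).trans_lt hn⟩

end Ch2Aux

open Ch2Aux in
/-- a local system from a sequence of packets on the annuli -/
theorem exists_ls {F : ℕ → (H →L[ℂ] H)} (hF : Dec F) {𝒜 ℬ : StarSubalgebra ℂ (H →L[ℂ] H)}
    (hle : 𝒜 ≤ ℬ) {r : ℕ → (H →L[ℂ] H)} {w W : H →L[ℂ] H} (hW : W ∈ T.A 0)
    (hk : ∀ i, ∃ k : Pk (H →L[ℂ] H), IsPk T i 𝒜 ℬ k (F i - F (i + 1)) (r i) w W) :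
    ∃ S : LS T, (∀ i, S.F i = F i) ∧ (∀ y ∈ S.genA, ∀ i, y * (1 - F i) ∈ 𝒜) ∧
      (∀ y ∈ S.genB, ∀ i, y * (1 - F i) ∈ ℬ) ∧ S.Φ 0 W = w * F 0 ∧
      ∃ α ∈ (StarAlgebra.adjoin ℂ S.genA).topologicalClosure,
        ∃ β ∈ (StarAlgebra.adjoin ℂ S.genA).topologicalClosure, ‖β‖ ≤ 1 ∧
          ∀ i, (α + β * S.Φ 0 T.ℓ) * (F i - F (i + 1)) = r i := by
  classical
  choose k hk using hk
  -- the blocks of the copies
  let y : ℕ → ℕ → ((H →L[ℂ] H) →ₗ[ℂ] (H →L[ℂ] H)) := fun M i => if M ≤ i then (k i).f else 0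
  have y_pos : ∀ M i, M ≤ i → ∀ x, y M i x = (k i).f x := by
    intro M i h x
    simp only [y, if_pos h]
  have y_neg : ∀ M i, ¬ M ≤ i → ∀ x, y M i x = 0 := by
    intro M i h x
    simp only [y, if_neg h, LinearMap.zero_apply]
  have y_norm : ∀ M, ∀ x ∈ T.B M, ∀ i, ‖y M i x‖ ≤ ‖x‖ := by
    intro M x hx i
    by_cases h : M ≤ i
    · rw [y_pos M i h]; exact (hk i).hom.norm_le x (T.B_mono h hx)
    · rw [y_neg M i h, norm_zero]; exact norm_nonneg _
  have hex : ∀ M, ∃ Φ : (H →L[ℂ] H) →ₗ[ℂ] (H →L[ℂ] H),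
      ∀ x ∈ T.B M, IsBs F (fun i => y M i x) (Φ x) := by
    intro M
    refine exists_lin hF (Subalgebra.toSubmodule (T.B M).toSubalgebra) (y M) ?_
    intro x hx
    have hx' : x ∈ T.B M := hx
    refine hF.exists_bs (c := ‖x‖) ?_ ?_ (y_norm M x hx')
    · intro i
      by_cases h : M ≤ i
      · rw [y_pos M i h, ← (hk i).one]; exact (hk i).hom.one_mul (T.B_mono h hx')
      · rw [y_neg M i h, mul_zero]
    · intro i
      by_cases h : M ≤ i
      · rw [y_pos M i h, ← (hk i).one]; exact (hk i).hom.mul_one (T.B_mono h hx')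
      · rw [y_neg M i h, zero_mul]
  choose Φ hΦ using hex
  -- the digits
  have ξ_l : ∀ i q, (F i - F (i + 1)) * (k i).ξ q = (k i).ξ q := by
    intro i q
    have h1 := congrArg star ((hk i).ξ_le q)
    rwa [star_mul, (hF.ann_proj i).isSelfAdjoint.star_eq,
      ((hk i).ξ_proj q).isSelfAdjoint.star_eq] at h1
  have hexΞ : ∀ q, ∃ z, IsBs F (fun i => (k i).ξ q) z := fun q =>
    hF.exists_bs (c := 1) (fun i => ξ_l i q) (fun i => (hk i).ξ_le q)
      (fun i => ((hk i).ξ_proj q).norm_le)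
  choose Ξ hΞ using hexΞ
  obtain ⟨α, hα⟩ : ∃ z, IsBs F (fun i => (k i).α) z :=
    hF.exists_bs (c := 1) (fun i => (hk i).α_l) (fun i => (hk i).α_r) (fun i => (hk i).α_norm)
  obtain ⟨β, hβ⟩ : ∃ z, IsBs F (fun i => (k i).β) z :=
    hF.exists_bs (c := 1) (fun i => (hk i).β_l) (fun i => (hk i).β_r) (fun i => (hk i).β_norm)
  have hom : ∀ M, HomOn (T.B M) (Φ M) := by
    intro M
    refine ⟨fun x hx x' hx' => ?_, fun x hx => ?_, fun x hx => ?_⟩
    · refine bs_eq hF (hΦ M _ (mul_mem hx hx')) (IsBs.mul hF (hΦ M x hx) (hΦ M x' hx')) ?_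
      intro i
      by_cases h : M ≤ i
      · simp only [y_pos M i h]
        exact (hk i).hom.mul x (T.B_mono h hx) x' (T.B_mono h hx')
      · simp only [y_neg M i h, mul_zero]
    · refine bs_eq hF (hΦ M _ (star_mem hx)) (IsBs.star hF (hΦ M x hx)) ?_
      intro i
      by_cases h : M ≤ i
      · simp only [y_pos M i h]
        exact (hk i).hom.star x (T.B_mono h hx)
      · simp only [y_neg M i h, star_zero]
    · exact IsBs.norm_le hF (hΦ M x hx) (y_norm M x hx)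
  have hone : ∀ M, Φ M 1 = F M := by
    intro M
    refine bs_eq hF (hΦ M 1 (one_mem _)) (hF.bs_F M) ?_
    intro i
    by_cases h : M ≤ i
    · simp only [y_pos M i h, if_pos h]
      exact (hk i).one
    · simp only [y_neg M i h, if_neg h]
  have hsucc : ∀ M, ∀ x ∈ T.B M, Φ (M + 1) x = Φ M x * Φ (M + 1) 1 := by
    intro M x hx
    refine bs_eq hF (hΦ (M + 1) x (T.B_mono (Nat.le_succ M) hx))
      (IsBs.mul hF (hΦ M x hx) (hΦ (M + 1) 1 (one_mem _))) ?_
    intro i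
    by_cases h : M + 1 ≤ i
    · have h' : M ≤ i := Nat.le_of_succ_le h
      simp only [y_pos (M + 1) i h, y_pos M i h']
      exact ((hk i).hom.mul_one (T.B_mono h' hx)).symm
    · simp only [y_neg (M + 1) i h, mul_zero]
  have hΞp : ∀ q, IsStarProjection (Ξ q) := by
    intro q
    refine ⟨?_, ?_⟩
    · exact bs_eq hF (IsBs.mul hF (hΞ q) (hΞ q)) (hΞ q)
        (fun i => ((hk i).ξ_proj q).isIdempotentElem.eq)
    · exact bs_eq hF (IsBs.star hF (hΞ q)) (hΞ q)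
        (fun i => ((hk i).ξ_proj q).isSelfAdjoint.star_eq)
  have hΞc : ∀ q M, ∀ x ∈ T.B M, Commute (Ξ q) (Φ M x) := by
    intro q M x hx
    refine bs_eq hF (IsBs.mul hF (hΞ q) (hΦ M x hx)) (IsBs.mul hF (hΦ M x hx) (hΞ q)) ?_
    intro i
    by_cases h : M ≤ i
    · simp only [y_pos M i h]
      exact ((hk i).ξ_comm q x (T.B_mono h hx)).eq
    · simp only [y_neg M i h, mul_zero, zero_mul]
  have hΞΞ : ∀ q q', Commute (Ξ q) (Ξ q') := fun q q' =>
    bs_eq hF (IsBs.mul hF (hΞ q) (hΞ q')) (IsBs.mul hF (hΞ q') (hΞ q))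
      (fun i => ((hk i).ξ_ξ q q').eq)
  have hnull : ∀ ω, IsPath ω → ∀ n η,
      Tendsto (fun j => Φ (n + j) (T.E n j (ω (n + j))) η) atTop (𝓝 0) := by
    intro ω _ n η
    have h0 : Tendsto (fun j => ‖F (n + j) η‖) atTop (𝓝 0) := by
      have h1 := (hF.null η).comp (tendsto_atTop_mono (fun j => Nat.le_add_left j n) tendsto_id)
      have h2 := h1.norm
      rw [norm_zero] at h2
      exact h2
    refine squeeze_zero_norm (fun j => ?_) h0
    have hm : T.E n j (ω (n + j)) ∈ T.B (n + j) := T.A_le_B _ (E_mem T n j _)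
    have h1 : Φ (n + j) (T.E n j (ω (n + j))) η =
        Φ (n + j) (T.E n j (ω (n + j))) (F (n + j) η) := by
      conv_lhs => rw [← (hom (n + j)).mul_one hm, hone]
      rfl
    rw [h1]
    calc ‖Φ (n + j) (T.E n j (ω (n + j))) (F (n + j) η)‖
        ≤ ‖Φ (n + j) (T.E n j (ω (n + j)))‖ * ‖F (n + j) η‖ := ContinuousLinearMap.le_opNorm _ _
      _ ≤ 1 * ‖F (n + j) η‖ := mul_le_mul_of_nonneg_right
          (((hom (n + j)).norm_le _ hm).trans (E_norm T n j _)) (norm_nonneg _)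
      _ = ‖F (n + j) η‖ := one_mul _
  let S : LS T :=
    { Φ := Φ, Ξ := Ξ, hom := hom, succ := hsucc, Ξ_proj := hΞp, Ξ_comm := hΞc, Ξ_Ξ := hΞΞ,
      null := hnull }
  have hΞcut : ∀ q i, Ξ q * (1 - F i) ∈ 𝒜 := by
    intro q i
    rw [IsBs.cut hF (hΞ q) i]
    exact sum_mem fun j _ => (hk j).ξ_mem q
  have hapx : ∀ (b : ℕ) (a : ℕ → (H →L[ℂ] H)) (z : H →L[ℂ] H), IsBs F a z →
      (∀ i n, ‖a i - ∑ l ∈ Finset.range (T.nN n), (k i).ξ (ix n l b) * (k i).f (T.nc n l)‖ ≤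
        1 / ((n : ℝ) + 1)) → z ∈ (StarAlgebra.adjoin ℂ S.genA).topologicalClosure := by
    intro b a z hz ha
    refine mem_closure_of_apx
      (b := fun n => ∑ l ∈ Finset.range (T.nN n), Ξ (ix n l b) * Φ 0 (T.nc n l)) ?_ ?_
    · intro n
      refine sum_mem fun l _ => mul_mem ?_ ?_
      · exact StarAlgebra.subset_adjoin ℂ _ (Or.inr ⟨_, rfl⟩)
      · exact StarAlgebra.subset_adjoin ℂ _ (Or.inl ⟨0, _, T.nc_mem n l, rfl⟩)
    · intro n
      have h1 := hz.sub (IsBs.sum (Finset.range (T.nN n))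
        (fun l _ => IsBs.mul hF (hΞ (ix n l b)) (hΦ 0 _ (T.A_le_B 0 (T.nc_mem n l)))))
      refine IsBs.norm_le hF h1 fun i => ?_
      simp only [y_pos 0 i (Nat.zero_le i)]
      exact ha i n
  refine ⟨S, hone, ?_, ?_, ?_, α, hapx 0 _ α hα (fun i n => (hk i).α_apx n), β,
    hapx 1 _ β hβ (fun i n => (hk i).β_apx n),
    IsBs.norm_le hF hβ (fun i => (hk i).β_norm), ?_⟩
  · rintro _ (⟨M, a, ha, rfl⟩ | ⟨q, rfl⟩) i
    · show Φ M a * (1 - F i) ∈ 𝒜
      rw [IsBs.cut hF (hΦ M a (T.A_le_B M ha)) i]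
      refine sum_mem fun j _ => ?_
      by_cases h : M ≤ j
      · rw [y_pos M j h]; exact (hk j).mapA a (T.A_mono h ha)
      · rw [y_neg M j h]; exact zero_mem _
    · exact hΞcut q i
  · rintro _ (⟨M, a, ha, rfl⟩ | ⟨q, rfl⟩) i
    · show Φ M a * (1 - F i) ∈ ℬ
      rw [IsBs.cut hF (hΦ M a ha) i]
      refine sum_mem fun j _ => ?_
      by_cases h : M ≤ j
      · rw [y_pos M j h]; exact (hk j).mapB a (T.B_mono h ha)
      · rw [y_neg M j h]; exact zero_mem _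
    · exact hle (hΞcut q i)
  · show Φ 0 W = w * F 0
    have hWB := hΦ 0 W (T.A_le_B 0 hW)
    refine hF.ext hWB.right ?_ fun i => ?_
    · rw [mul_assoc, (hF.proj 0).isIdempotentElem.eq]
    · rw [hWB.blk i, y_pos 0 i (Nat.zero_le i), (hk i).tw, mul_assoc, (hF.bs_F 0).blk i,
        if_pos (Nat.zero_le i)]
  · intro i
    show (α + β * Φ 0 T.ℓ) * (F i - F (i + 1)) = r i
    rw [(hα.add (IsBs.mul hF hβ (hΦ 0 T.ℓ T.ℓ_mem))).blk i, y_pos 0 i (Nat.zero_le i)]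
    exact (hk i).val

end Pool.Agent.P.MP_5d580a_an.Ng
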