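import Pool.Agent.P.MP_5d580a_an.N.Ct0

open scoped ComplexOrder InnerProductSpace ComplexConjugate
open Filter Topology

set_option linter.unusedSectionVars false
set_option linter.unusedVariables false
set_option linter.deprecated false

noncomputable section

namespace Pool.Agent.P.MP_5d580a_an.Ng

variable {D C : Type} [CStarAlgebra D] [CStarAlgebra C]
variable {H : Type} [NormedAddCommGroup H] [InnerProductSpace ℂ H] [CompleteSpace H]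
variable {L : Type} [NormedAddCommGroup L] [InnerProductSpace ℂ L] [CompleteSpace L]

variable {T : Tower D} {π : D →ₗ[ℂ] (H →L[ℂ] H)} {ω : ℕ → ℕ}

theorem Ct_fix_atom (hπ : IsRep T π) {N : ℕ → ℕ} (hN : StrictMono N) {g : ℕ → D}
    (hg : ∀ i, g i ∈ T.A (N i))
    (hm : ∀ i k, N 0 ≤ k → k < N i → T.m k (ω (k + 1)) * g i = g i) :
    (Fix fun i => π (g i)) ≤ atom T π ω (N 0) := by
  intro η hη
  rw [mem_Fix] at hη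
  rw [mem_atom]
  intro k hk
  have h1 : k < N (k + 1) := lt_of_lt_of_le (Nat.lt_succ_self k) (hN.id_le (k + 1))
  have h2 := hπ.mul_apply (T.A_le_B _ (T.m_mem k (ω (k + 1)))) (T.A_le_B _ (hg (k + 1))) η
  rw [hm (k + 1) k hk h1, hη (k + 1)] at h2
  exact h2.symm

theorem Ct_orb_atoms (hπ : IsRep T π) {W : Submodule ℂ H} {n₀ : ℕ} (hW : W ≤ atom T π ω n₀) :
    orb (opsA T π) W ≤ atoms T π ω := by
  refine orb_le isClosed_atoms ?_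
  rintro x ⟨n, a, ha, rfl⟩ η hη
  exact atom_le_atoms (max n n₀)
    (atom_A hπ (atom_mono (le_max_right n n₀) (hW hη)) (T.A_mono (le_max_left n n₀) ha))

/-- the defect of a label symmetry -/
def Ct_C (π₁ : D →ₗ[ℂ] (H →L[ℂ] H)) (π₂ : D →ₗ[ℂ] (L →L[ℂ] L)) (V : H →L[ℂ] L) (x : D) :
    H →L[ℂ] L :=
  V ∘L π₁ x - π₂ x ∘L V

theorem Ct_C_apply (π₁ : D →ₗ[ℂ] (H →L[ℂ] H)) (π₂ : D →ₗ[ℂ] (L →L[ℂ] L)) (V : H →L[ℂ] L) (x : D)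
    (η : H) : Ct_C π₁ π₂ V x η = V (π₁ x η) - π₂ x (V η) := rfl

theorem Ct_C_norm {π₁ : D →ₗ[ℂ] (H →L[ℂ] H)} {π₂ : D →ₗ[ℂ] (L →L[ℂ] L)} (h₁ : IsRep T π₁)
    (h₂ : IsRep T π₂) (V : H →L[ℂ] L) (n y : ℕ) : ‖Ct_C π₁ π₂ V (T.s n y)‖ ≤ 2 * ‖V‖ := by
  have a1 : ‖π₁ (T.s n y)‖ ≤ 1 := ((h₁ n).norm_le _ (T.s_mem n y)).trans (T.s_norm n y)
  have a2 : ‖π₂ (T.s n y)‖ ≤ 1 := ((h₂ n).norm_le _ (T.s_mem n y)).trans (T.s_norm n y)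
  have b1 : ‖V ∘L π₁ (T.s n y)‖ ≤ ‖V‖ :=
    (ContinuousLinearMap.opNorm_comp_le _ _).trans (mul_le_of_le_one_right (norm_nonneg _) a1)
  have b2 : ‖π₂ (T.s n y) ∘L V‖ ≤ ‖V‖ :=
    (ContinuousLinearMap.opNorm_comp_le _ _).trans (mul_le_of_le_one_left (norm_nonneg _) a2)
  calc ‖Ct_C π₁ π₂ V (T.s n y)‖ ≤ ‖V ∘L π₁ (T.s n y)‖ + ‖π₂ (T.s n y) ∘L V‖ := norm_sub_le _ _
    _ ≤ 2 * ‖V‖ := by linarith

theorem Ct_C_intw {π₁ : D →ₗ[ℂ] (H →L[ℂ] H)} {π₂ : D →ₗ[ℂ] (L →L[ℂ] L)} (h₁ : IsRep T π₁)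
    (h₂ : IsRep T π₂) {V : H →L[ℂ] L}
    (hV : ∀ n, ∀ a ∈ T.A n, ∀ η, V (π₁ a η) = π₂ a (V η)) (n y : ℕ) {a : D} (ha : a ∈ T.A n)
    (η : H) : Ct_C π₁ π₂ V (T.s n y) (π₁ a η) = π₂ a (Ct_C π₁ π₂ V (T.s n y) η) := by
  have hb := T.A_le_B n ha
  have hs := T.s_mem n y
  have hc : T.s n y * a = a * T.s n y := (T.s_cent n y hb).eq
  rw [Ct_C_apply, Ct_C_apply, map_sub, ← h₁.mul_apply hs hb, hc, h₁.mul_apply hb hs, hV n a ha,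
    hV n a ha, ← h₂.mul_apply hs hb, hc, h₂.mul_apply hb hs]

theorem Ct_C_comm {π₁ : D →ₗ[ℂ] (H →L[ℂ] H)} {π₂ : D →ₗ[ℂ] (L →L[ℂ] L)} (h₁ : IsRep T π₁)
    (h₂ : IsRep T π₂) {V : H →L[ℂ] L}
    (hV : ∀ n, ∀ a ∈ T.A n, ∀ η, V (π₁ a η) = π₂ a (V η)) (n y : ℕ) {a : D} (ha : a ∈ T.A n) :
    (ContinuousLinearMap.adjoint (Ct_C π₁ π₂ V (T.s n y)) ∘L Ct_C π₁ π₂ V (T.s n y)) * π₁ a =
      π₁ a * (ContinuousLinearMap.adjoint (Ct_C π₁ π₂ V (T.s n y)) ∘L Ct_C π₁ π₂ V (T.s n y)) := by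
  ext η
  simp only [mul_apply_eq_comp, ContinuousLinearMap.comp_apply]
  rw [Ct_C_intw h₁ h₂ hV n y ha]
  refine intw_adj (fun ξ => ?_) _
  rw [← (h₁ n).star a (T.A_le_B n ha), ← (h₂ n).star a (T.A_le_B n ha)]
  exact Ct_C_intw h₁ h₂ hV n y (star_mem ha) ξ

theorem Ct_inner (A : H →L[ℂ] L) (η : H) :
    (⟪η, (ContinuousLinearMap.adjoint A ∘L A) η⟫_ℂ).re = ‖A η‖ ^ 2 := by
  rw [ContinuousLinearMap.comp_apply, ContinuousLinearMap.adjoint_inner_right,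
    ← @inner_self_eq_norm_sq ℂ]
  rfl

/-- the bound on the defects extends to the orbit along an ultrafilter -/
theorem Ct_ultra {π₁ : D →ₗ[ℂ] (H →L[ℂ] H)} {π₂ : D →ₗ[ℂ] (L →L[ℂ] L)} (h₁ : IsRep T π₁)
    (h₂ : IsRep T π₂) {V : H →L[ℂ] L}
    (hV : ∀ n, ∀ a ∈ T.A n, ∀ η, V (π₁ a η) = π₂ a (V η)) {N : ℕ → ℕ}
    (hN : StrictMono N) {g : ℕ → D} (hg : ∀ i, g i ∈ T.A (N i)) {κ : ℝ} (hκ : 0 ≤ κ)
    (hb : ∀ η ∈ Fix fun i => π₁ (g i), ∀ ε : ℝ, 0 < ε → ∀ᶠ i in atTop,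
      ‖V (π₁ (T.s (N i) (ω (N i))) η) - π₂ (T.s (N i) (ω (N i))) (V η)‖ ≤ κ * ‖η‖ + ε)
    {ζ : H} (hζ : ζ ∈ orb (opsA T π₁) (Fix fun i => π₁ (g i))) :
    ∃ c : ℝ, c ≤ κ ^ 2 * ‖ζ‖ ^ 2 ∧
      Tendsto (fun i => ‖Ct_C π₁ π₂ V (T.s (N i) (ω (N i))) ζ‖ ^ 2)
        (Ultrafilter.of (atTop : Filter ℕ)) (𝓝 c) := by
  have hU : (↑(Ultrafilter.of (atTop : Filter ℕ)) : Filter ℕ) ≤ atTop := Ultrafilter.of_le _
  obtain ⟨Z, -, hZ⟩ := exists_wot_ultra (Ultrafilter.of (atTop : Filter ℕ))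
    (fun i => ContinuousLinearMap.adjoint (Ct_C π₁ π₂ V (T.s (N i) (ω (N i)))) ∘L
      Ct_C π₁ π₂ V (T.s (N i) (ω (N i)))) ((2 * ‖V‖) * (2 * ‖V‖)) (fun i => by
      have h := Ct_C_norm h₁ h₂ V (N i) (ω (N i))
      rw [ContinuousLinearMap.norm_adjoint_comp_self]
      exact mul_self_le_mul_self (norm_nonneg _) h)
  have hre : ∀ η : H, Tendsto (fun i => ‖Ct_C π₁ π₂ V (T.s (N i) (ω (N i))) η‖ ^ 2)
      (Ultrafilter.of (atTop : Filter ℕ)) (𝓝 (⟪η, Z η⟫_ℂ).re) := fun η =>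
    ((Complex.continuous_re.tendsto _).comp (hZ η η)).congr fun i => Ct_inner _ η
  have hsa : IsSelfAdjoint Z := sa_of_wot hZ (Eventually.of_forall fun i => by
    rw [IsSelfAdjoint, ContinuousLinearMap.star_eq_adjoint, ContinuousLinearMap.adjoint_comp,
      ContinuousLinearMap.adjoint_adjoint])
  have hcomm : ∀ n, ∀ a ∈ T.A n, Commute Z (π₁ a) := fun n a ha =>
    commute_of_wot hZ (hU ((eventually_ge_atTop n).mono fun i hi =>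
      Ct_C_comm h₁ h₂ hV (N i) (ω (N i)) (T.A_mono (hi.trans (hN.id_le i)) ha)))
  refine ⟨_, pos_part hsa (fun i => hcomm _ _ (hg i)) ?_ ?_ ζ hζ, hre ζ⟩
  · rintro x ⟨n, a, ha, rfl⟩
    exact hcomm n a ha
  · intro η hη
    have key : ∀ ε : ℝ, 0 < ε → (⟪η, Z η⟫_ℂ).re ≤ (κ * ‖η‖ + ε) ^ 2 := fun ε hε =>
      le_of_tendsto (hre η) (hU ((hb η hη ε hε).mono fun i hi =>
        pow_le_pow_left₀ (norm_nonneg _) hi 2))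
    have hc : Tendsto (fun ε : ℝ => (κ * ‖η‖ + ε) ^ 2) (𝓝[>] 0) (𝓝 ((κ * ‖η‖ + 0) ^ 2)) :=
      tendsto_nhdsWithin_of_tendsto_nhds
        (((continuous_const.add continuous_id).pow 2).tendsto 0)
    have := ge_of_tendsto hc (eventually_nhdsWithin_of_forall key)
    rw [add_zero, mul_pow] at this
    exact this

theorem Ct_step {π₁ : D →ₗ[ℂ] (H →L[ℂ] H)} {π₂ : D →ₗ[ℂ] (L →L[ℂ] L)} (h₁ : IsRep T π₁)
    (h₂ : IsRep T π₂) {V : H →L[ℂ] L}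
    (hV : ∀ n, ∀ a ∈ T.A n, ∀ η, V (π₁ a η) = π₂ a (V η)) (n j y w : ℕ) (ζ : H) :
    ‖V (π₁ (T.Ps n j y) ζ + π₁ (T.E n j w * T.Dd n j w) (π₁ (T.t (n + j) w) ζ)) -
      (π₂ (T.Ps n j y) (V ζ) + π₂ (T.E n j w * T.Dd n j w) (π₂ (T.t (n + j) w) (V ζ)))‖ ≤
      1 / 2 * ‖Ct_C π₁ π₂ V (T.s (n + j) w) ζ‖ := by
  have hED : T.E n j w * T.Dd n j w ∈ T.A (n + j) := mul_mem (T.E_mem n j w) (T.Dd_mem n j w)
  have hn : ‖T.E n j w * T.Dd n j w‖ ≤ 1 :=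
    (norm_mul_le _ _).trans (mul_le_one₀ (T.E_proj n j w).norm_le (norm_nonneg _) (T.Dd_norm n j w))
  have e1 : V (π₁ (T.t (n + j) w) ζ) - π₂ (T.t (n + j) w) (V ζ) =
      (2⁻¹ : ℂ) • Ct_C π₁ π₂ V (T.s (n + j) w) ζ := by
    rw [T.t_eq_s, Ct_C_apply]
    simp only [map_smul, map_add, ContinuousLinearMap.smul_apply, ContinuousLinearMap.add_apply]
    rw [hV 0 1 (one_mem _), ← smul_sub, add_sub_add_left_eq_sub]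
  rw [map_add, hV _ _ (T.Ps_mem n j y), hV _ _ hED, add_sub_add_left_eq_sub, ← map_sub, e1]
  calc ‖π₂ (T.E n j w * T.Dd n j w) ((2⁻¹ : ℂ) • Ct_C π₁ π₂ V (T.s (n + j) w) ζ)‖
      ≤ ‖T.E n j w * T.Dd n j w‖ * ‖(2⁻¹ : ℂ) • Ct_C π₁ π₂ V (T.s (n + j) w) ζ‖ :=
        h₂.apply_le (T.A_le_B _ hED) _
    _ ≤ ‖(2⁻¹ : ℂ) • Ct_C π₁ π₂ V (T.s (n + j) w) ζ‖ := mul_le_of_le_one_left (norm_nonneg _) hn
    _ = 1 / 2 * ‖Ct_C π₁ π₂ V (T.s (n + j) w) ζ‖ := by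
        rw [norm_smul]
        simp

/-- contraction lemma -/
theorem contract {π₁ : D →ₗ[ℂ] (H →L[ℂ] H)} {π₂ : D →ₗ[ℂ] (L →L[ℂ] L)} (h₁ : IsRep T π₁)
    (h₂ : IsRep T π₂) {V : H →L[ℂ] L}
    (hV : ∀ n, ∀ a ∈ T.A n, ∀ η, V (π₁ a η) = π₂ a (V η)) (hω : IsPath ω) {N : ℕ → ℕ}
    (hN : StrictMono N) {g : ℕ → D} (hg : ∀ i, g i ∈ T.A (N i))
    (hm : ∀ i k, N 0 ≤ k → k < N i → T.m k (ω (k + 1)) * g i = g i)
    (o₁ : Fix1 (π₁ 1) ≤ orb (opsA T π₁) (Fix fun i => π₁ (g i)))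
    (o₂ : Fix1 (π₂ 1) ≤ orb (opsA T π₂) (Fix fun i => π₂ (g i))) {κ : ℝ} (hκ : 0 ≤ κ)
    (hb : ∀ η ∈ Fix fun i => π₁ (g i), ∀ ε : ℝ, 0 < ε → ∀ᶠ i in atTop,
      ‖V (π₁ (T.s (N i) (ω (N i))) η) - π₂ (T.s (N i) (ω (N i))) (V η)‖ ≤ κ * ‖η‖ + ε)
    {n y : ℕ} (hy : y < 2 ^ (n + 1)) (ζ : H) :
    ‖V (π₁ (T.t n y) ζ) - π₂ (T.t n y) (V ζ)‖ ≤ if y = ω n then κ / 2 * ‖ζ‖ else 0 := by
  have hB1 : (1 : D) ∈ T.B n := one_mem _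
  have f₁ : π₁ 1 ζ ∈ Fix1 (π₁ 1) := by
    rw [mem_Fix1, ← h₁.mul_apply hB1 hB1, one_mul]
  have e0 : V (π₁ 1 ζ) = π₂ 1 (V ζ) := hV 0 1 (one_mem _) ζ
  have f₂ : V (π₁ 1 ζ) ∈ Fix1 (π₂ 1) := by
    rw [mem_Fix1, e0, ← h₂.mul_apply hB1 hB1, one_mul]
  have a₁ : π₁ 1 ζ ∈ atoms T π₁ ω := Ct_orb_atoms h₁ (Ct_fix_atom h₁ hN hg hm) (o₁ f₁)
  have a₂ : V (π₁ 1 ζ) ∈ atoms T π₂ ω := Ct_orb_atoms h₂ (Ct_fix_atom h₂ hN hg hm) (o₂ f₂)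
  have t₁ : π₁ (T.t n y) ζ = π₁ (T.t n y) (π₁ 1 ζ) := by
    rw [← h₁.mul_apply (T.t_mem n y) hB1, mul_one]
  have t₂ : π₂ (T.t n y) (V ζ) = π₂ (T.t n y) (V (π₁ 1 ζ)) := by
    rw [e0, ← h₂.mul_apply (T.t_mem n y) hB1, mul_one]
  have hn1 : ‖π₁ 1 ζ‖ ≤ ‖ζ‖ := proj_norm_le (h₁ n).one_proj ζ
  rw [t₁, t₂]
  obtain ⟨c, hc, hlim⟩ := Ct_ultra h₁ h₂ hV hN hg hκ hb (o₁ f₁)
  generalize π₁ 1 ζ = ξ at a₁ a₂ hn1 hc hlim ⊢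
  split_ifs with hyn
  · subst hyn
    have hU : (↑(Ultrafilter.of (atTop : Filter ℕ)) : Filter ℕ) ≤ atTop := Ultrafilter.of_le _
    have l1 := (((V.continuous.tendsto _).comp (exp_on h₁ hω a₁ n)).sub (exp_on h₂ hω a₂ n)).norm
    have hsub : Tendsto (fun i => N i - n) atTop atTop :=
      (tendsto_sub_atTop_nat n).comp hN.tendsto_atTop
    have l2 := ((l1.comp hsub).pow 2).mono_left hU
    have l3 := le_of_tendsto_of_tendsto l2 (hlim.const_mul (1 / 4 : ℝ))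
      (hU ((eventually_ge_atTop n).mono fun i hi => by
        have hi' : n + (N i - n) = N i := Nat.add_sub_cancel' (hi.trans (hN.id_le i))
        have h := Ct_step h₁ h₂ hV n (N i - n) (ω n) (ω (n + (N i - n))) ξ
        have h' := pow_le_pow_left₀ (norm_nonneg _) h 2
        refine h'.trans (le_of_eq ?_)
        rw [hi']
        ring))
    refine (pow_le_pow_iff_left₀ (norm_nonneg _) (by positivity) two_ne_zero).1 (l3.trans ?_)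
    have h3 : ‖ξ‖ ^ 2 ≤ ‖ζ‖ ^ 2 := pow_le_pow_left₀ (norm_nonneg _) hn1 2
    have h4 : κ ^ 2 * ‖ξ‖ ^ 2 ≤ κ ^ 2 * ‖ζ‖ ^ 2 := mul_le_mul_of_nonneg_left h3 (sq_nonneg κ)
    nlinarith
  · have l1 := (V.continuous.tendsto _).comp (exp_off h₁ hω a₁ hy hyn)
    have l2 := exp_off h₂ hω a₂ hy hyn
    have e := tendsto_nhds_unique (l1.congr fun j => hV _ _ (T.Ps_mem n j y) ξ) l2
    rw [e, sub_self, norm_zero]

end Pool.Agent.P.MP_5d580a_an.Ng
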