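import Pool.Agent.P.MP_5d580a_an.N.B1

open scoped ComplexOrder InnerProductSpace ComplexConjugate
open Filter Topology

set_option linter.unusedSectionVars false
set_option linter.unusedVariables false
set_option linter.deprecated false

noncomputable section

namespace Pool.Agent.P.MP_5d580a_an.Ng

variable {D C : Type} [CStarAlgebra D] [CStarAlgebra C]
variable {H : Type} [NormedAddCommGroup H] [InnerProductSpace ℂ H] [CompleteSpace H]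
variable {L : Type} [NormedAddCommGroup L] [InnerProductSpace ℂ L] [CompleteSpace L]

variable {T : Tower D} {π : D →ₗ[ℂ] (H →L[ℂ] H)} {ω : ℕ → ℕ}

theorem Ct0_mem {W : Submodule ℂ H} {n : ℕ} {a : D} (ha : a ∈ T.A n) {η : H} (hη : η ∈ W) :
    π a η ∈ orb (opsA T π) W :=
  mem_orb (𝒮 := opsA T π) ⟨n, a, ha, rfl⟩ hη

theorem Ct0_orb_A (hπ : IsRep T π) {W : Submodule ℂ H} {n : ℕ} {a : D} (ha : a ∈ T.A n) {ζ : H}
    (hζ : ζ ∈ orb (opsA T π) W) : π a ζ ∈ orb (opsA T π) W := by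
  refine orb_map (isClosed_orb _ _) (π a) ?_ ζ hζ
  rintro _ ⟨m, a', ha', rfl⟩ η hη
  rw [← hπ.mul_apply (T.A_le_B n ha) (T.A_le_B m ha')]
  exact Ct0_mem (mul_mem (T.A_mono (le_max_left n m) ha) (T.A_mono (le_max_right n m) ha')) hη

theorem Ct0_gen (hπ : IsRep T π) {n : ℕ} {a₀ : D} {a : ℕ → D} (ha : ∀ w, a w ∈ T.A n) (η : H) :
    π (a₀ + ∑ w ∈ Finset.range (2 ^ (n + 1)), a w * T.t n w) η =
      π a₀ η + ∑ w ∈ Finset.range (2 ^ (n + 1)), π (a w) (π (T.t n w) η) := by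
  rw [map_add, map_sum, ContinuousLinearMap.add_apply, ContinuousLinearMap.sum_apply]
  congr 1
  exact Finset.sum_congr rfl fun w _ => hπ.mul_apply (T.A_le_B n (ha w)) (T.t_mem n w) η

theorem Ct0_ED_norm (T : Tower D) (n j w : ℕ) : ‖T.E n j w * T.Dd n j w‖ ≤ 1 :=
  (norm_mul_le _ _).trans
    (mul_le_one₀ (T.E_proj n j w).norm_le (norm_nonneg _) (T.Dd_norm n j w))

theorem Ct0_label (hπ : IsRep T π) (hω : IsPath ω) {N : ℕ → ℕ} (hN : StrictMono N)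
    {W : Submodule ℂ H} {n₀ : ℕ} (hW : W ≤ atom T π ω n₀)
    (h : ∀ η ∈ W, ∀ ε : ℝ, 0 < ε → ∀ᶠ i in atTop, ∃ a ∈ T.A (N i), ∃ η' ∈ W,
      ‖π (T.s (N i) (ω (N i))) η - π a η'‖ ≤ ε)
    {n y : ℕ} (hy : y < 2 ^ (n + 1)) {m : ℕ} {a : D} (ha : a ∈ T.A m) {η : H} (hη : η ∈ W) :
    π (T.t n y) (π a η) ∈ orb (opsA T π) W := by
  have hO : π a η ∈ orb (opsA T π) W := Ct0_mem ha hη
  have hat : π a η ∈ atoms T π ω :=
    atom_le_atoms (max n₀ m) (atom_A hπ (atom_mono (le_max_left n₀ m) (hW hη))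
      (T.A_mono (le_max_right n₀ m) ha))
  have hc := isClosed_orb (opsA T π) W
  by_cases hne : y = ω n
  · subst hne
    rw [← SetLike.mem_coe, ← hc.closure_eq, Metric.mem_closure_iff]
    intro ε hε
    have ht : Tendsto (fun i => N i - n) atTop atTop :=
      (tendsto_sub_atTop_nat n).comp hN.tendsto_atTop
    have h1 := (Metric.tendsto_nhds.1 ((exp_on hπ hω hat n).comp ht)) (ε / 2) (by positivity)
    have hpos : 0 < ‖a‖ + 1 := by positivity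
    have h2 := h η hη (ε / (‖a‖ + 1)) (by positivity)
    have h3 : ∀ᶠ i in atTop, max n m ≤ N i := hN.tendsto_atTop.eventually_ge_atTop _
    obtain ⟨i, hi1, ⟨a', ha', η', hη', hi2⟩, hi3⟩ := (h1.and (h2.and h3)).exists
    simp only [Function.comp_apply] at hi1
    obtain ⟨j, hj⟩ : ∃ j, N i = n + j := ⟨N i - n, by have := le_max_left n m; omega⟩
    have hj' : N i - n = j := by omega
    rw [hj'] at hi1
    rw [hj] at ha' hi2 hi3
    have haB : a ∈ T.B (n + j) := T.AB ((le_max_right n m).trans hi3) ha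
    have hED : T.E n j (ω (n + j)) * T.Dd n j (ω (n + j)) ∈ T.A (n + j) :=
      mul_mem (T.E_mem _ _ _) (T.Dd_mem _ _ _)
    have hcomm : π (T.t (n + j) (ω (n + j))) (π a η) =
        π a ((2⁻¹ : ℂ) • (π 1 η + π (T.s (n + j) (ω (n + j))) η)) := by
      rw [← hπ.mul_apply (T.t_mem _ _) haB, (T.t_cent _ _ a haB).eq,
        hπ.mul_apply haB (T.t_mem _ _), T.t_eq_s, map_smul, map_add]
      rfl
    refine ⟨π (T.Ps n j (ω n)) (π a η) + π (T.E n j (ω (n + j)) * T.Dd n j (ω (n + j)))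
      (π a ((2⁻¹ : ℂ) • (π 1 η + π a' η'))), ?_, ?_⟩
    · refine add_mem (Ct0_orb_A hπ (T.Ps_mem _ _ _) hO)
        (Ct0_orb_A hπ hED (Ct0_orb_A hπ ha (Submodule.smul_mem _ _ (add_mem ?_ ?_))))
      · exact Ct0_mem (one_mem (T.A 0)) hη
      · exact Ct0_mem ha' hη'
    · rw [hcomm] at hi1
      have h4 : dist (π (T.Ps n j (ω n)) (π a η) +
          π (T.E n j (ω (n + j)) * T.Dd n j (ω (n + j)))
            (π a ((2⁻¹ : ℂ) • (π 1 η + π (T.s (n + j) (ω (n + j))) η))))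
          (π (T.Ps n j (ω n)) (π a η) + π (T.E n j (ω (n + j)) * T.Dd n j (ω (n + j)))
            (π a ((2⁻¹ : ℂ) • (π 1 η + π a' η')))) ≤ ε / 2 := by
        rw [dist_add_left, dist_eq_norm, ← map_sub, ← map_sub, ← smul_sub, add_sub_add_left_eq_sub]
        refine (hπ.apply_le (T.A_le_B _ hED) _).trans ?_
        refine (mul_le_of_le_one_left (norm_nonneg _) (Ct0_ED_norm T _ _ _)).trans ?_
        refine (hπ.apply_le haB _).trans ?_
        rw [norm_smul, norm_inv, Complex.norm_two]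
        have h5 : ‖a‖ * (ε / (‖a‖ + 1)) ≤ ε := by
          rw [← mul_div_assoc, div_le_iff₀ hpos]
          nlinarith [norm_nonneg a]
        have h6 := mul_le_mul_of_nonneg_left hi2 (norm_nonneg a)
        nlinarith
      exact lt_of_le_of_lt (dist_triangle_left _ _ _)
        ((add_lt_add_of_lt_of_le hi1 h4).trans_eq (add_halves ε))
  · refine hc.mem_of_tendsto (exp_off hπ hω hat hy hne) (Eventually.of_forall fun j => ?_)
    exact Ct0_orb_A hπ (T.Ps_mem _ _ _) hO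

/-- the orbit under `A` of a space of path vectors that almost absorbs the path symmetries
is invariant under `B` -/
theorem orb_inv (hπ : IsRep T π) (hω : IsPath ω) {N : ℕ → ℕ} (hN : StrictMono N)
    {W : Submodule ℂ H} {n₀ : ℕ} (hW : W ≤ atom T π ω n₀)
    (h : ∀ η ∈ W, ∀ ε : ℝ, 0 < ε → ∀ᶠ i in atTop, ∃ a ∈ T.A (N i), ∃ η' ∈ W,
      ‖π (T.s (N i) (ω (N i))) η - π a η'‖ ≤ ε) :
    Inv (opsB T π) (orb (opsA T π) W) := by
  rintro _ ⟨n, x, hx, rfl⟩ ζ hζ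
  refine orb_map (isClosed_orb _ _) (π x) ?_ ζ hζ
  rintro _ ⟨m, a', ha', rfl⟩ η hη
  obtain ⟨a₀, ha₀, a, ha, rfl⟩ := T.gen n x hx
  rw [Ct0_gen hπ ha]
  refine add_mem (Ct0_orb_A hπ ha₀ (Ct0_mem ha' hη))
    (Submodule.sum_mem _ fun w hw => Ct0_orb_A hπ (ha w) ?_)
  exact Ct0_label hπ hω hN hW h (Finset.mem_range.1 hw) ha' hη

/-- good representations: intertwiners of `A` intertwine the labels -/
theorem good_intw {π₁ : D →ₗ[ℂ] (H →L[ℂ] H)} {π₂ : D →ₗ[ℂ] (L →L[ℂ] L)} (h₁ : IsRep T π₁)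
    (h₂ : IsRep T π₂) (g₁ : Good T π₁) (g₂ : Good T π₂) {V : H →L[ℂ] L}
    (hV : ∀ n, ∀ a ∈ T.A n, ∀ η, V (π₁ a η) = π₂ a (V η)) {n y : ℕ} (hy : y < 2 ^ (n + 1))
    (η : H) : V (π₁ (T.t n y) η) = π₂ (T.t n y) (V η) := by
  have h1 : Tendsto (fun j => V (π₁ (T.Rm n j (desc y j)) η) - π₂ (T.Rm n j (desc y j)) (V η))
      atTop (𝓝 (V 0 - 0)) :=
    ((V.continuous.tendsto 0).comp (g₁ n y hy η)).sub (g₂ n y hy (V η))
  have h2 : ∀ j, V (π₁ (T.Rm n j (desc y j)) η) - π₂ (T.Rm n j (desc y j)) (V η) =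
      V (π₁ (T.t n y) η) - π₂ (T.t n y) (V η) := by
    intro j
    rw [T.expand n j y, map_add, map_add, ContinuousLinearMap.add_apply,
      ContinuousLinearMap.add_apply, map_add, hV _ _ (T.Ps_mem n j y)]
    abel
  simp only [h2, map_zero, sub_zero] at h1
  exact sub_eq_zero.1 (tendsto_nhds_unique tendsto_const_nhds h1)

/-- intertwining of `A` and of the labels gives intertwining of `B` -/
theorem intw_B {π₁ : D →ₗ[ℂ] (H →L[ℂ] H)} {π₂ : D →ₗ[ℂ] (L →L[ℂ] L)} (h₁ : IsRep T π₁)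
    (h₂ : IsRep T π₂) {V : H →L[ℂ] L}
    (hV : ∀ n, ∀ a ∈ T.A n, ∀ η, V (π₁ a η) = π₂ a (V η))
    (ht : ∀ n y, y < 2 ^ (n + 1) → ∀ η, V (π₁ (T.t n y) η) = π₂ (T.t n y) (V η)) :
    ∀ n, ∀ x ∈ T.B n, ∀ η, V (π₁ x η) = π₂ x (V η) := by
  intro n x hx η
  obtain ⟨a₀, ha₀, a, ha, rfl⟩ := T.gen n x hx
  rw [Ct0_gen h₁ ha, Ct0_gen h₂ ha, map_add, map_sum, hV n a₀ ha₀]
  congr 1
  refine Finset.sum_congr rfl fun w hw => ?_
  rw [hV n _ (ha w), ht n w (Finset.mem_range.1 hw)]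

/-- the defect of the root symmetry -/
theorem root_defect {π₁ : D →ₗ[ℂ] (H →L[ℂ] H)} {π₂ : D →ₗ[ℂ] (L →L[ℂ] L)} (h₁ : IsRep T π₁)
    (h₂ : IsRep T π₂) {V : H →L[ℂ] L}
    (hV : ∀ n, ∀ a ∈ T.A n, ∀ η, V (π₁ a η) = π₂ a (V η)) (hω : IsPath ω) {κ : ℝ} (hκ : 0 ≤ κ)
    (ht : ∀ y, y < 2 → ∀ ζ,
      ‖V (π₁ (T.t 0 y) ζ) - π₂ (T.t 0 y) (V ζ)‖ ≤ if y = ω 0 then κ / 2 * ‖ζ‖ else 0) (ζ : H) :
    ‖V (π₁ T.ℓ ζ) - π₂ T.ℓ (V ζ)‖ ≤ 3 / 4 * κ * ‖ζ‖ := by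
  have hB : ∀ b, T.h b ∈ T.B 0 := fun b => T.A_le_B 0 (T.h_mem b)
  have hn : ∀ b, ‖T.h b‖ ≤ 3 / 2 := fun b => by
    nlinarith [T.h_norm b, norm_nonneg (T.h b)]
  have e : V (π₁ T.ℓ ζ) - π₂ T.ℓ (V ζ) =
      π₂ (T.h 0) (V (π₁ (T.t 0 0) ζ) - π₂ (T.t 0 0) (V ζ)) +
        π₂ (T.h 1) (V (π₁ (T.t 0 1) ζ) - π₂ (T.t 0 1) (V ζ)) := by
    rw [T.root]
    simp only [map_add, ContinuousLinearMap.add_apply, map_sub]
    rw [h₁.mul_apply (hB 0) (T.t_mem 0 0), h₁.mul_apply (hB 1) (T.t_mem 0 1),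
      h₂.mul_apply (hB 0) (T.t_mem 0 0), h₂.mul_apply (hB 1) (T.t_mem 0 1),
      hV 0 _ T.hs_mem, hV 0 _ (T.h_mem 0), hV 0 _ (T.h_mem 1)]
    abel
  have hb : ∀ b (v : L), ‖π₂ (T.h b) v‖ ≤ 3 / 2 * ‖v‖ := fun b v =>
    (h₂.apply_le (hB b) v).trans (mul_le_mul_of_nonneg_right (hn b) (norm_nonneg _))
  rw [e]
  refine (norm_add_le _ _).trans ((add_le_add (hb _ _) (hb _ _)).trans ?_)
  have t0 := ht 0 (by norm_num) ζ
  have t1 := ht 1 (by norm_num) ζ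
  have hω0 : ω 0 = 0 ∨ ω 0 = 1 := by have := hω.1; omega
  rcases hω0 with h0 | h0
  · rw [h0] at t0 t1
    rw [if_pos rfl] at t0
    rw [if_neg (by norm_num)] at t1
    linarith
  · rw [h0] at t0 t1
    rw [if_neg (by norm_num)] at t0
    rw [if_pos rfl] at t1
    linarith

end Pool.Agent.P.MP_5d580a_an.Ng
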