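import Pool.Agent.P.MP_5d580a_an.Pure
import Pool.Agent.P.MP_5d580a_an.Kap

/-!
Definitions for the counterexample to the noncommutative Stone-Weierstrass problem.
Inner products are conjugate linear in the first slot.
-/

open scoped ComplexOrder InnerProductSpace ComplexConjugate
open Filter Topology

set_option linter.unusedSectionVars false
set_option linter.unusedVariables false

noncomputable section

namespace Pool.Agent.P.MP_5d580a_an.Ng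

/-! ## Combinatorics of labels -/

/-- the level whose bit selects the basis of site `k` -/
def sch (k : ℕ) : ℕ := (Nat.unpair k).1

/-- the basis used at site `k` by the label `y` of level `k` -/
def bas (k y : ℕ) : ℕ := y / 2 ^ (k - sch k) % 2

/-- descendants of the label `y` after `j` levels -/
def desc (y j : ℕ) : Finset ℕ := Finset.Ico (y * 2 ^ j) ((y + 1) * 2 ^ j)

/-- an infinite branch of the label tree -/
def IsPath (ω : ℕ → ℕ) : Prop := ω 0 < 2 ∧ ∀ k, ω (k + 1) / 2 = ω k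

/-- index of a digit -/
def ix (n l b : ℕ) : ℕ := 2 * Nat.pair n l + b

section Alg

variable {D C : Type} [CStarAlgebra D] [CStarAlgebra C]

/-- a linear map that is a contractive star homomorphism on `S` (not necessarily unital) -/
structure HomOn (S : StarSubalgebra ℂ D) (f : D →ₗ[ℂ] C) : Prop where
  mul : ∀ x ∈ S, ∀ y ∈ S, f (x * y) = f x * f y
  star : ∀ x ∈ S, f (star x) = star (f x)
  norm_le : ∀ x ∈ S, ‖f x‖ ≤ ‖x‖

/-- two anticommuting symmetries -/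
structure Qubit (Z X : D) : Prop where
  zsa : IsSelfAdjoint Z
  xsa : IsSelfAdjoint X
  zz : Z * Z = 1
  xx : X * X = 1
  anti : Z * X = -(X * Z)

/-- the self-similar tower of finite dimensional pairs `A n ≤ B n` -/
structure Tower (D : Type) [CStarAlgebra D] where
  A : ℕ → StarSubalgebra ℂ D
  B : ℕ → StarSubalgebra ℂ D
  t : ℕ → ℕ → D
  m : ℕ → ℕ → D
  pp : ℕ → ℕ → D
  pm : ℕ → ℕ → D
  κ : ℕ → ℕ → D
  ψ : ℕ → ℕ → (D →ₗ[ℂ] D)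
  ℓ : D
  hs : D
  h : ℕ → D
  Z1 : D
  X1 : D
  Z2 : D
  X2 : D
  nN : ℕ → ℕ
  nc : ℕ → ℕ → D
  A_le_B : ∀ n, A n ≤ B n
  A_mono : Monotone A
  B_mono : Monotone B
  fin : ∀ n, FiniteDimensional ℂ (B n)
  t_mem : ∀ n w, t n w ∈ B n
  t_proj : ∀ n w, IsStarProjection (t n w)
  t_orth : ∀ n w w', w ≠ w' → t n w * t n w' = 0
  t_cent : ∀ n w, ∀ x ∈ B n, Commute (t n w) x
  gen : ∀ n, ∀ x ∈ B n, ∃ a₀ ∈ A n, ∃ a : ℕ → D, (∀ w, a w ∈ A n) ∧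
    x = a₀ + ∑ w ∈ Finset.range (2 ^ (n + 1)), a w * t n w
  m_mem : ∀ k w, m k w ∈ A (k + 1)
  m_proj : ∀ k w, IsStarProjection (m k w)
  m_comm : ∀ k w, ∀ a ∈ A k, Commute (m k w) a
  m_add : ∀ k y, m k (2 * y) + m k (2 * y + 1) = 1
  m_sep : ∀ k w w', bas k (w / 2) ≠ bas k (w' / 2) →
    m k w * m k w' * m k w = (2⁻¹ : ℂ) • m k w
  pp_mem : ∀ k y, pp k y ∈ A (k + 1)
  pm_mem : ∀ k y, pm k y ∈ A (k + 1)
  pp_proj : ∀ k y, IsStarProjection (pp k y)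
  pm_proj : ∀ k y, IsStarProjection (pm k y)
  pp_comm : ∀ k y, ∀ a ∈ A k, Commute (pp k y) a
  pm_comm : ∀ k y, ∀ a ∈ A k, Commute (pm k y) a
  pp_m : ∀ k y w, Commute (pp k y) (m k w)
  pm_m : ∀ k y w, Commute (pm k y) (m k w)
  step : ∀ k y, t k y = pm k y + (pp k y - pm k y) *
    (m k (2 * y) * t (k + 1) (2 * y) + m k (2 * y + 1) * t (k + 1) (2 * y + 1))
  κ_mem : ∀ n y, κ n y ∈ A (n + 1)
  κ_proj : ∀ n y, IsStarProjection (κ n y)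
  κ_comm : ∀ n y, ∀ a ∈ A n, Commute (κ n y) a
  ψ_hom : ∀ n y, HomOn (B n) (ψ n y)
  ψ_one : ∀ n y, ψ n y 1 = 1
  ψ_A : ∀ n y, ∀ a ∈ A n, ψ n y a ∈ A (n + 1)
  ψ_B : ∀ n y, ∀ x ∈ B n, ψ n y x ∈ B (n + 1)
  ψ_comm : ∀ n y, ∀ x ∈ B n, ∀ a ∈ A n, Commute (ψ n y x) a
  ψ_κ : ∀ n y, ∀ x ∈ B n, Commute (ψ n y x) (κ n y)
  t_eq : ∀ n y, (2 : ℂ) • t n y = κ n y * (1 + ψ n y ℓ)
  ℓ_mem : ℓ ∈ B 0
  hs_mem : hs ∈ A 0
  h_mem : ∀ b, h b ∈ A 0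
  h_norm : ∀ b, ‖h b‖ ^ 2 ≤ 2
  root : ℓ = hs + h 0 * t 0 0 + h 1 * t 0 1
  q1 : Qubit Z1 X1
  q2 : Qubit Z2 X2
  Z1_mem : Z1 ∈ A 0
  X1_mem : X1 ∈ A 0
  Z2_mem : Z2 ∈ A 0
  X2_mem : X2 ∈ A 0
  Z1_ℓ : Commute Z1 ℓ
  X1_ℓ : Commute X1 ℓ
  Z2_ℓ : Commute Z2 ℓ
  X2_ℓ : Commute X2 ℓ
  Z1_Z2 : Commute Z1 Z2
  Z1_X2 : Commute Z1 X2
  X1_Z2 : Commute X1 Z2
  X1_X2 : Commute X1 X2
  nc_mem : ∀ n l, nc n l ∈ A 0
  net : ∀ n, ∀ x ∈ A 0, ‖x‖ ≤ 1 → ∃ l < nN n, ‖x - nc n l‖ ≤ 1 / ((n : ℝ) + 1)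

namespace Tower

variable (T : Tower D)

/-- the symmetry of a label -/
def s (n y : ℕ) : D := (2 : ℂ) • T.t n y - 1

/-- product of the basis projections along the last `j` steps of the label `w` of level `n + j` -/
def E (n : ℕ) : ℕ → ℕ → D
  | 0, _ => 1
  | j + 1, w => E n j (w / 2) * T.m (n + j) w

/-- memory factor along the last `j` steps of the label `w` of level `n + j` -/
def Dd (n : ℕ) : ℕ → ℕ → D
  | 0, _ => 1
  | j + 1, w => Dd n j (w / 2) * (T.pp (n + j) (w / 2) - T.pm (n + j) (w / 2))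

/-- determined part along the last `j` steps of the label `w` of level `n + j` -/
def Aa (n : ℕ) : ℕ → ℕ → D
  | 0, _ => 0
  | j + 1, w => Aa n j (w / 2) +
      T.Dd n j (w / 2) * (T.pp (n + j) (w / 2) + T.pm (n + j) (w / 2) - 1)

/-- part of the expansion of a label projection carried by the labels in `S` -/
def Rm (n j : ℕ) (S : Finset ℕ) : D := ∑ w ∈ S, T.E n j w * T.Dd n j w * T.t (n + j) w

/-- part of the expansion of a label projection that lies in `A` -/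
def Ps (n j y : ℕ) : D :=
  ∑ w ∈ desc y j, (2⁻¹ : ℂ) • (T.E n j w * (1 + T.Aa n j w - T.Dd n j w))

end Tower

/-- elements of `S` cut by `o` and commuting with `c` -/
def corner (S : StarSubalgebra ℂ D) (o c : D) : Submodule ℂ D where
  carrier := {x | x ∈ S ∧ o * x = x ∧ x * o = x ∧ x * c = c * x}
  add_mem' := by
    rintro x y ⟨h1, h2, h3, h4⟩ ⟨k1, k2, k3, k4⟩
    exact ⟨add_mem h1 k1, by rw [mul_add, h2, k2], by rw [add_mul, h3, k3],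
      by rw [add_mul, mul_add, h4, k4]⟩
  zero_mem' := ⟨zero_mem S, mul_zero o, zero_mul o, by rw [zero_mul, mul_zero]⟩
  smul_mem' := by
    rintro c' x ⟨h1, h2, h3, h4⟩
    exact ⟨S.smul_mem h1 c', by rw [mul_smul_comm, h2], by rw [smul_mul_assoc, h3],
      by rw [smul_mul_assoc, mul_smul_comm, h4]⟩

theorem mem_corner {S : StarSubalgebra ℂ D} {o c x : D} :
    x ∈ corner S o c ↔ x ∈ S ∧ o * x = x ∧ x * o = x ∧ x * c = c * x := Iff.rfl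

/-- data of a packet of copies of the tower -/
structure Pk (D : Type) [CStarAlgebra D] where
  f : D →ₗ[ℂ] D
  ξ : ℕ → D
  α : D
  β : D

/-- the packet `k` of depth `j` has unit `ρ` and writes `r` as `α + β * f ℓ` -/
structure IsPk (T : Tower D) (j : ℕ) (𝒜 ℬ : StarSubalgebra ℂ D) (k : Pk D) (ρ r w W : D) :
    Prop where
  hom : HomOn (T.B j) k.f
  one : k.f 1 = ρ
  mapA : ∀ a ∈ T.A j, k.f a ∈ 𝒜
  mapB : ∀ x ∈ T.B j, k.f x ∈ ℬ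
  ξ_mem : ∀ q, k.ξ q ∈ 𝒜
  ξ_proj : ∀ q, IsStarProjection (k.ξ q)
  ξ_le : ∀ q, k.ξ q * ρ = k.ξ q
  ξ_comm : ∀ q, ∀ x ∈ T.B j, Commute (k.ξ q) (k.f x)
  ξ_ξ : ∀ q q', Commute (k.ξ q) (k.ξ q')
  α_mem : k.α ∈ 𝒜
  β_mem : k.β ∈ 𝒜
  α_l : ρ * k.α = k.α
  α_r : k.α * ρ = k.α
  β_l : ρ * k.β = k.β
  β_r : k.β * ρ = k.β
  α_norm : ‖k.α‖ ≤ 1
  β_norm : ‖k.β‖ ≤ 1
  val : k.α + k.β * k.f T.ℓ = r
  tw : k.f W = w * ρ
  α_apx : ∀ n, ‖k.α - ∑ l ∈ Finset.range (T.nN n), k.ξ (ix n l 0) * k.f (T.nc n l)‖ ≤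
    1 / ((n : ℝ) + 1)
  β_apx : ∀ n, ‖k.β - ∑ l ∈ Finset.range (T.nN n), k.ξ (ix n l 1) * k.f (T.nc n l)‖ ≤
    1 / ((n : ℝ) + 1)

/-- blocks along a path on which the memory of the label survives -/
structure Blk (T : Tower D) where
  ω : ℕ → ℕ
  N : ℕ → ℕ
  J : ℕ → ℕ
  χ : ℕ → D
  u : ℕ → D
  path : IsPath ω
  succ : ∀ i, N (i + 1) = N i + J i
  pos : ∀ i, 0 < J i
  χ_mem : ∀ i, χ i ∈ T.A (N (i + 1))
  χ_proj : ∀ i, IsStarProjection (χ i)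
  χ_comm : ∀ i, ∀ a ∈ T.A (N i), Commute (χ i) a
  χ_E : ∀ i, Commute (χ i) (T.E (N i) (J i) (ω (N (i + 1))))
  χ_A : ∀ i, Commute (χ i) (T.Aa (N i) (J i) (ω (N (i + 1))))
  χ_D : ∀ i, Commute (χ i) (T.Dd (N i) (J i) (ω (N (i + 1))))
  u_mem : ∀ i, u i ∈ T.A (N (i + 1))
  u_sa : ∀ i, IsSelfAdjoint (u i)
  u_comm : ∀ i, ∀ a ∈ T.A (N i), Commute (u i) a
  u_sq : ∀ i, u i * u i = T.E (N i) (J i) (ω (N (i + 1))) * χ i
  u_e : ∀ i, u i * (T.E (N i) (J i) (ω (N (i + 1))) * χ i) = u i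
  est : ∀ i, ‖T.s (N i) (ω (N i)) * (T.E (N i) (J i) (ω (N (i + 1))) * χ i) -
    u i * T.s (N (i + 1)) (ω (N (i + 1)))‖ ≤ (1 / 2 : ℝ) ^ i

namespace Blk

variable {T : Tower D} (b : Blk T)

/-- the projection of block `i` -/
def e (i : ℕ) : D := T.E (b.N i) (b.J i) (b.ω (b.N (i + 1))) * b.χ i

/-- the symmetry of the path label at the start of block `i` -/
def sy (i : ℕ) : D := T.s (b.N i) (b.ω (b.N i))

/-- product of the first block projections -/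
def o : ℕ → D
  | 0 => 1
  | i + 1 => o i * b.e i

/-- product of the first block signs -/
def U : ℕ → D
  | 0 => 1
  | i + 1 => U i * b.u i

/-- the blocks from `i₀` on -/
def shift (i₀ : ℕ) : Blk T where
  ω := b.ω
  N i := b.N (i₀ + i)
  J i := b.J (i₀ + i)
  χ i := b.χ (i₀ + i)
  u i := b.u (i₀ + i)
  path := b.path
  succ i := b.succ (i₀ + i)
  pos i := b.pos (i₀ + i)
  χ_mem i := b.χ_mem (i₀ + i)
  χ_proj i := b.χ_proj (i₀ + i)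
  χ_comm i := b.χ_comm (i₀ + i)
  χ_E i := b.χ_E (i₀ + i)
  χ_A i := b.χ_A (i₀ + i)
  χ_D i := b.χ_D (i₀ + i)
  u_mem i := b.u_mem (i₀ + i)
  u_sa i := b.u_sa (i₀ + i)
  u_comm i := b.u_comm (i₀ + i)
  u_sq i := b.u_sq (i₀ + i)
  u_e i := b.u_e (i₀ + i)
  est i := (b.est (i₀ + i)).trans
    (pow_le_pow_of_le_one (by norm_num) (by norm_num) (Nat.le_add_left i i₀))

end Blk

/-- the projections `g i` compress `A` to the span of `1` and `w` -/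
def Exc (T : Tower D) (g : ℕ → D) (w : D) : Prop :=
  ∀ n, ∀ a ∈ T.A n, ∀ ε : ℝ, 0 < ε → ∃ (i : ℕ) (c c' : ℂ),
    ‖g i * a * g i - (c • 1 + c' • w) * g i‖ ≤ ε

/-- excising projections along blocks -/
structure Pre (T : Tower D) where
  b : Blk T
  U : ℕ → D
  g : ℕ → D
  w : D
  U_succ : ∀ i, U (i + 1) = U i * b.u i
  U_mem : U 0 ∈ T.A (b.N 0)
  U_sa : IsSelfAdjoint (U 0)
  U_norm : ‖U 0‖ ≤ 1
  g_mem : ∀ i, g i ∈ T.A (b.N i)
  g_proj : ∀ i, IsStarProjection (g i)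
  g_succ : ∀ i, g i * b.e i * g (i + 1) = g (i + 1)
  g_U : ∀ i, Commute (g i) (U i)
  U_sq : U 0 * U 0 * g 0 = g 0
  w_mem : w ∈ T.A (b.N 0)
  w_sa : IsSelfAdjoint w
  w_g : ∀ i, Commute w (g i)
  w_sq : w * w * g 0 = g 0
  alt : w = 1 ∨ (U 0 * w + w * U 0) * g 0 = 0
  exc : Exc T g w

/-- a germ: excising projections with packets on all annuli -/
structure Germ (T : Tower D) where
  ω : ℕ → ℕ
  N : ℕ → ℕ
  g : ℕ → D
  u : ℕ → D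
  r : ℕ → D
  r' : ℕ → D
  w : D
  W : D
  k0 : ℕ → Pk D
  k1 : ℕ → Pk D
  path : IsPath ω
  mono : StrictMono N
  g_mem : ∀ i, g i ∈ T.A (N i)
  g_proj : ∀ i, IsStarProjection (g i)
  g_succ : ∀ i, g i * g (i + 1) = g (i + 1)
  g_m : ∀ i k, N 0 ≤ k → k < N i → T.m k (ω (k + 1)) * g i = g i
  u_mem : ∀ i, u i ∈ T.A (N i)
  u_norm : ∀ i, ‖u i‖ ≤ 1
  r_mem : ∀ i, r i ∈ T.B (N i)
  r_norm : ∀ i, ‖r i‖ ≤ 1
  r_g : ∀ i, r i * g i = r i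
  s_g : ∀ i, T.s (N i) (ω (N i)) * g i = u i * r i
  w_mem : w ∈ T.A (N 0)
  W_mem : W ∈ T.A 0
  pk0 : ∀ i, IsPk T i (T.A (N i + 1)) (T.B (N i + 1)) (k0 i) (g i) (r i) w W
  pk1 : ∀ i, IsPk T i (T.A (N (i + 1) + 1)) (T.B (N (i + 1) + 1)) (k1 i) (g i - g (i + 1))
    (r' i) w W
  est : ∀ i, ‖r' i - (r i - r (i + 1))‖ ≤ (1 / 2 : ℝ) ^ i
  exc : Exc T g w

/-- two germs see each other through an element of `A` -/
def Overlap {T : Tower D} (γ' γ : Germ T) : Prop :=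
  ∃ n, ∃ a ∈ T.A n, ∃ δ : ℝ, 0 < δ ∧ ∀ i, δ ≤ ‖γ'.g i * a * γ.g i‖

/-- a maximal family of germs without overlaps -/
structure MaxFam {T : Tower D} (Γ : Set (Germ T)) : Prop where
  disj : ∀ γ ∈ Γ, ∀ γ' ∈ Γ, γ ≠ γ' → ¬ Overlap γ' γ
  max : ∀ γ, γ ∈ Γ ∨ ∃ γ' ∈ Γ, Overlap γ' γ

end Alg

section Hil

variable {H : Type} [NormedAddCommGroup H] [InnerProductSpace ℂ H] [CompleteSpace H]

/-- fixed vectors of an operator -/
def Fix1 (P : H →L[ℂ] H) : Submodule ℂ H where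
  carrier := {η | P η = η}
  add_mem' := by
    intro x y hx hy
    show P (x + y) = x + y
    rw [map_add, show P x = x from hx, show P y = y from hy]
  zero_mem' := map_zero P
  smul_mem' := by
    intro c x hx
    show P (c • x) = c • x
    rw [map_smul, show P x = x from hx]

theorem mem_Fix1 {P : H →L[ℂ] H} {η : H} : η ∈ Fix1 P ↔ P η = η := Iff.rfl

/-- common fixed vectors of a sequence of operators -/
def Fix (q : ℕ → (H →L[ℂ] H)) : Submodule ℂ H := ⨅ i, Fix1 (q i)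

theorem mem_Fix {q : ℕ → (H →L[ℂ] H)} {η : H} : η ∈ Fix q ↔ ∀ i, q i η = η := by
  simp only [Fix, Submodule.mem_iInf, mem_Fix1]

/-- the subspace `W` is invariant under the set `𝒮` -/
def Inv (𝒮 : Set (H →L[ℂ] H)) (W : Submodule ℂ H) : Prop := ∀ x ∈ 𝒮, ∀ η ∈ W, x η ∈ W

/-- the only closed invariant subspaces of `K` are `⊥` and `K` -/
def Irr (𝒮 : Set (H →L[ℂ] H)) (K : Submodule ℂ H) : Prop :=
  ∀ W : Submodule ℂ H, IsClosed (W : Set H) → W ≤ K → Inv 𝒮 W → W = ⊥ ∨ W = K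

/-- closed span of the orbit of `W` under `𝒮` -/
def orb (𝒮 : Set (H →L[ℂ] H)) (W : Submodule ℂ H) : Submodule ℂ H :=
  (Submodule.span ℂ {ζ | ∃ x ∈ 𝒮, ∃ η ∈ W, ζ = x η}).topologicalClosure

/-- an algebra of operators with unit `P` normalised by a symmetry `r` -/
structure ZSet (P r : H →L[ℂ] H) (𝒪 : Set (H →L[ℂ] H)) : Prop where
  P_proj : IsStarProjection P
  add : ∀ x ∈ 𝒪, ∀ y ∈ 𝒪, x + y ∈ 𝒪
  smul : ∀ (c : ℂ), ∀ x ∈ 𝒪, c • x ∈ 𝒪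
  mul : ∀ x ∈ 𝒪, ∀ y ∈ 𝒪, x * y ∈ 𝒪
  star : ∀ x ∈ 𝒪, star x ∈ 𝒪
  P_mem : P ∈ 𝒪
  left : ∀ x ∈ 𝒪, P * x = x
  right : ∀ x ∈ 𝒪, x * P = x
  r_sa : IsSelfAdjoint r
  r_sq : r * r = P
  r_P : r * P = r
  cj : ∀ x ∈ 𝒪, r * x * r ∈ 𝒪

variable {D : Type} [CStarAlgebra D]

/-- a representation of the tower (not necessarily unital) -/
def IsRep (T : Tower D) (π : D →ₗ[ℂ] (H →L[ℂ] H)) : Prop := ∀ n, HomOn (T.B n) π

/-- image of the union of the `A n` -/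
def opsA (T : Tower D) (π : D →ₗ[ℂ] (H →L[ℂ] H)) : Set (H →L[ℂ] H) :=
  {y | ∃ n, ∃ a ∈ T.A n, y = π a}

/-- image of the union of the `B n` -/
def opsB (T : Tower D) (π : D →ₗ[ℂ] (H →L[ℂ] H)) : Set (H →L[ℂ] H) :=
  {y | ∃ n, ∃ x ∈ T.B n, y = π x}

/-- vectors that follow the path `ω` from level `n` on -/
def atom (T : Tower D) (π : D →ₗ[ℂ] (H →L[ℂ] H)) (ω : ℕ → ℕ) (n : ℕ) : Submodule ℂ H :=
  Fix fun k => π (T.m (n + k) (ω (n + k + 1)))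

/-- closure of the vectors that eventually follow the path `ω` -/
def atoms (T : Tower D) (π : D →ₗ[ℂ] (H →L[ℂ] H)) (ω : ℕ → ℕ) : Submodule ℂ H :=
  (⨆ n, atom T π ω n).topologicalClosure

/-- all labels are determined by `A` -/
def Good (T : Tower D) (π : D →ₗ[ℂ] (H →L[ℂ] H)) : Prop :=
  ∀ n y, y < 2 ^ (n + 1) → ∀ η, Tendsto (fun j => π (T.Rm n j (desc y j)) η) atTop (𝓝 0)

/-- the norms of `z * g i` are seen on two fixed vectors -/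
def Seen (T : Tower D) (π : D →ₗ[ℂ] (H →L[ℂ] H)) (g : ℕ → D) : Prop :=
  ∃ η₁ η₂ : H, ‖η₁‖ = 1 ∧ ‖η₂‖ = 1 ∧ (∀ i, π (g i) η₁ = η₁) ∧ (∀ i, π (g i) η₂ = η₂) ∧
    ∀ n, ∀ z ∈ T.A n, ∀ δ : ℝ, (∀ i, δ ≤ ‖z * g i‖) → δ ≤ ‖π z η₁‖ ∨ δ ≤ ‖π z η₂‖

/-- the corner operators of a block system, cut by `P` -/
def Blk.ops {T : Tower D} (b : Blk T) (π : D →ₗ[ℂ] (H →L[ℂ] H)) (P : H →L[ℂ] H) :
    Set (H →L[ℂ] H) :=
  {y | ∃ i, ∃ x ∈ corner (T.A (b.N i)) (b.o i) 1, y = π x * P}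

/-- the limit symmetry `r` of a block system in a representation -/
structure RData {T : Tower D} (b : Blk T) (π : D →ₗ[ℂ] (H →L[ℂ] H)) (P r : H →L[ℂ] H) :
    Prop where
  fix : Fix1 P = Fix fun i => π (b.e i)
  z : ZSet P r (b.ops π P)
  apx : ∀ i, ‖π (b.U i * b.sy i) * P - r‖ ≤ 2 * (1 / 2 : ℝ) ^ i
  tw : ∀ i, ∀ x ∈ corner (T.A (b.N i)) (b.o i) 1, r * (π x * P) * r = π (b.U i * x * b.U i) * P

/-- vectors of the two signs for excising projections -/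
def Signs {T : Tower D} (p : Pre T) (π : D →ₗ[ℂ] (H →L[ℂ] H)) : Prop :=
  ∃ η₁ η₂ : H, ‖η₁‖ = 1 ∧ ‖η₂‖ = 1 ∧ (∀ i, π (p.g i) η₁ = η₁) ∧ (∀ i, π (p.g i) η₂ = η₂) ∧
    π p.w η₁ = η₁ ∧ (p.w = 1 ∨ π p.w η₂ = -η₂)

/-- the witness: an operator commuting with `A` and not with `ℓ`, and no atoms -/
structure Wit (T : Tower (H →L[ℂ] H)) : Prop where
  flip : ∃ V : H →L[ℂ] H, (∀ n, ∀ a ∈ T.A n, Commute V a) ∧ ¬ Commute V T.ℓ
  null : ∀ ω, IsPath ω → ∀ n η, Tendsto (fun j => T.E n j (ω (n + j)) η) atTop (𝓝 0)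

/-- a local system of copies of the tower -/
structure LS (T : Tower (H →L[ℂ] H)) where
  Φ : ℕ → ((H →L[ℂ] H) →ₗ[ℂ] (H →L[ℂ] H))
  Ξ : ℕ → (H →L[ℂ] H)
  hom : ∀ M, HomOn (T.B M) (Φ M)
  succ : ∀ M, ∀ x ∈ T.B M, Φ (M + 1) x = Φ M x * Φ (M + 1) 1
  Ξ_proj : ∀ q, IsStarProjection (Ξ q)
  Ξ_comm : ∀ q M, ∀ x ∈ T.B M, Commute (Ξ q) (Φ M x)
  Ξ_Ξ : ∀ q q', Commute (Ξ q) (Ξ q')
  null : ∀ ω, IsPath ω → ∀ n η,
    Tendsto (fun j => Φ (n + j) (T.E n j (ω (n + j))) η) atTop (𝓝 0)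

namespace LS

variable {T : Tower (H →L[ℂ] H)} (S : LS T)

/-- the units of the local system -/
def F (M : ℕ) : H →L[ℂ] H := S.Φ M 1

/-- generators of the small algebra -/
def genA : Set (H →L[ℂ] H) := {y | (∃ M, ∃ a ∈ T.A M, y = S.Φ M a) ∨ ∃ q, y = S.Ξ q}

/-- generators of the large algebra -/
def genB : Set (H →L[ℂ] H) := {y | (∃ M, ∃ x ∈ T.B M, y = S.Φ M x) ∨ ∃ q, y = S.Ξ q}

/-- the projection on the first digits of the point `x` -/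
def cut (x : ℕ → Bool) : ℕ → (H →L[ℂ] H)
  | 0 => 1
  | M + 1 => cut x M * (if x M then S.Ξ M else 1 - S.Ξ M)

/-- the system localised at the point `x` -/
def Ψ (x : ℕ → Bool) (M : ℕ) : (H →L[ℂ] H) →ₗ[ℂ] (H →L[ℂ] H) :=
  (LinearMap.mulRight ℂ (S.cut x M)).comp (S.Φ M)

theorem Ψ_apply (x : ℕ → Bool) (M : ℕ) (y : H →L[ℂ] H) : S.Ψ x M y = S.Φ M y * S.cut x M := rfl

end LS

/-- `S'` is obtained from `S` by inserting the packets of the germ `γ` at the point `x` -/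
structure IsChild {T : Tower (H →L[ℂ] H)} (S : LS T) (x : ℕ → Bool) (γ : Germ T) (S' : LS T) :
    Prop where
  F : ∀ i, S'.F i = S.Ψ x (γ.N i + 1) (γ.g i)
  null : ∀ η, Tendsto (fun i => S'.F i η) atTop (𝓝 0)
  cutA : ∀ y ∈ S'.genA, ∀ i, y * (1 - S'.F i) ∈ StarAlgebra.adjoin ℂ S.genA
  cutB : ∀ y ∈ S'.genB, ∀ i, y * (1 - S'.F i) ∈ StarAlgebra.adjoin ℂ S.genB
  tw : S'.Φ 0 γ.W = S.Ψ x (γ.N 0 + 1) (γ.w * γ.g 0)
  rel : ∃ α ∈ (StarAlgebra.adjoin ℂ S'.genA).topologicalClosure,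
    ∃ β ∈ (StarAlgebra.adjoin ℂ S'.genA).topologicalClosure, ‖β‖ ≤ 1 ∧
      ∀ i, ‖(α + β * S'.Φ 0 T.ℓ) * S'.F i - S.Ψ x (γ.N i + 1) (γ.r i)‖ ≤ 2 * (1 / 2 : ℝ) ^ i

/-- nodes of the tree of insertions, last insertion first -/
abbrev Node {T : Tower (H →L[ℂ] H)} (Γ : Set (Germ T)) : Type := List ((ℕ → Bool) × Γ)

/-- the tree of local systems -/
structure Tree {T : Tower (H →L[ℂ] H)} (Γ : Set (Germ T)) where
  ls : Node Γ → LS T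
  root_Φ : ∀ M, ∀ x ∈ T.B M, (ls []).Φ M x = x
  root_Ξ : ∀ q, (ls []).Ξ q = 0
  child : ∀ e c, IsChild (ls c) e.1 e.2.1 (ls (e :: c))

namespace Tree

variable {T : Tower (H →L[ℂ] H)} {Γ : Set (Germ T)} (τ : Tree Γ)

/-- small generators at and below the node `c` -/
def GA (c : Node Γ) : Set (H →L[ℂ] H) := {y | ∃ l, y ∈ (τ.ls (l ++ c)).genA}

/-- large generators at and below the node `c` -/
def GB (c : Node Γ) : Set (H →L[ℂ] H) := {y | ∃ l, y ∈ (τ.ls (l ++ c)).genB}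

/-- the small algebra -/
def sm : StarSubalgebra ℂ (H →L[ℂ] H) := (StarAlgebra.adjoin ℂ (τ.GA [])).topologicalClosure

/-- the large algebra -/
def lg : StarSubalgebra ℂ (H →L[ℂ] H) := (StarAlgebra.adjoin ℂ (τ.GB [])).topologicalClosure

variable {L : Type} [NormedAddCommGroup L] [InnerProductSpace ℂ L] [CompleteSpace L]

/-- a unital representation of the large algebra -/
structure IsR (σ : (H →L[ℂ] H) →ₗ[ℂ] (L →L[ℂ] L)) : Prop where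
  hom : HomOn τ.lg σ
  one : σ 1 = 1

/-- the fibre space of a node -/
def KK (σ : (H →L[ℂ] H) →ₗ[ℂ] (L →L[ℂ] L)) (c : Node Γ) : Submodule ℂ L :=
  Fix fun i => σ ((τ.ls c).F i)

/-- irreducibility of the generators below a node on its fibre space -/
def IrrAt (σ : (H →L[ℂ] H) →ₗ[ℂ] (L →L[ℂ] L)) (c : Node Γ) : Prop :=
  Irr (σ '' τ.GB c) (τ.KK σ c)

/-- the representation of the tower on the fibre space of a node -/
structure Fib (σ : (H →L[ℂ] H) →ₗ[ℂ] (L →L[ℂ] L)) (c : Node Γ) (P : L →L[ℂ] L)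
    (π : (H →L[ℂ] H) →ₗ[ℂ] (L →L[ℂ] L)) : Prop where
  proj : IsStarProjection P
  fix : Fix1 P = τ.KK σ c
  rep : IsRep T π
  one : π 1 = P
  eq : ∀ M, ∀ x ∈ T.B M, π x = σ ((τ.ls c).Φ M x) * P

end Tree

end Hil

end Pool.Agent.P.MP_5d580a_an.Ng
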