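import Pool.Agent.P.MP_5d580a_an.N.Bk
import Pool.Agent.P.MP_5d580a_an.N.Ct0

open scoped ComplexOrder InnerProductSpace ComplexConjugate
open Filter Topology

set_option linter.unusedSectionVars false
set_option linter.unusedVariables false
set_option linter.deprecated false

noncomputable section

namespace Pool.Agent.P.MP_5d580a_an.Ng

variable {D C : Type} [CStarAlgebra D] [CStarAlgebra C]
variable {H : Type} [NormedAddCommGroup H] [InnerProductSpace ℂ H] [CompleteSpace H]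
variable {L : Type} [NormedAddCommGroup L] [InnerProductSpace ℂ L] [CompleteSpace L]

variable {T : Tower D} {π : D →ₗ[ℂ] (H →L[ℂ] H)}

namespace RzAux

variable (b : Blk T) {P : H →L[ℂ] H}

theorem eB (i : ℕ) : b.e i ∈ T.B (b.N (i + 1)) := T.A_le_B _ (b.e_mem i)
theorem oB (i : ℕ) : b.o i ∈ T.B (b.N i) := T.A_le_B _ (b.o_mem i)
theorem UB (i : ℕ) : b.U i ∈ T.B (b.N i) := T.A_le_B _ (b.U_mem i)
theorem vB (i : ℕ) : b.U i * b.sy i ∈ T.B (b.N i) := mul_mem (UB b i) (b.sy_mem i)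

theorem sy_comm (i : ℕ) {x : D} (hx : x ∈ T.B (b.N i)) : b.sy i * x = x * b.sy i :=
  (T.s_cent _ _ hx).eq

theorem sy_sq (i : ℕ) : b.sy i * b.sy i = 1 := T.s_sq _ _

theorem v_sa (i : ℕ) : star (b.U i * b.sy i) = b.U i * b.sy i := by
  rw [star_mul, (b.U_sa i).star_eq, show star (b.sy i) = b.sy i from (T.s_sa _ _).star_eq,
    sy_comm b i (UB b i)]

theorem v_x_v (i : ℕ) {x : D} (hx : x ∈ T.B (b.N i)) :
    b.U i * b.sy i * x * (b.U i * b.sy i) = b.U i * x * b.U i := by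
  have h := sy_comm b i (mul_mem hx (UB b i))
  calc b.U i * b.sy i * x * (b.U i * b.sy i) = b.U i * (b.sy i * (x * b.U i)) * b.sy i := by
        simp only [mul_assoc]
    _ = b.U i * (x * b.U i) * (b.sy i * b.sy i) := by rw [h]; simp only [mul_assoc]
    _ = b.U i * x * b.U i := by rw [sy_sq, mul_one, mul_assoc]

theorem mul_P (hP : IsStarProjection P) {y : H →L[ℂ] H} (h : ∀ η ∈ Fix1 P, y η = η) :
    y * P = P :=
  ContinuousLinearMap.ext fun η => h _ (prj_mem hP η)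

theorem P_mul (hP : IsStarProjection P) {y : H →L[ℂ] H} (h : ∀ η ∈ Fix1 P, y η ∈ Fix1 P) :
    P * (y * P) = y * P :=
  ContinuousLinearMap.ext fun η => h _ (prj_mem hP η)

theorem e_P (hP : IsStarProjection P) (hF : Fix1 P = Fix fun i => π (b.e i)) (i : ℕ) :
    π (b.e i) * P = P :=
  mul_P hP fun η hη => mem_Fix.1 (hF ▸ hη) i

theorem o_P (hπ : IsRep T π) (hP : IsStarProjection P) (hF : Fix1 P = Fix fun i => π (b.e i))
    (i : ℕ) : π (b.o i) * P = P :=
  mul_P hP fun η hη => b.fix_o hπ (hF ▸ hη) i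

theorem P_o (hπ : IsRep T π) (hP : IsStarProjection P) (hF : Fix1 P = Fix fun i => π (b.e i))
    (i : ℕ) : P * π (b.o i) = P := by
  have h := congrArg star (o_P b hπ hP hF i)
  rwa [star_mul, hP.isSelfAdjoint.star_eq,
    ((hπ _).sa (oB b i) (b.o_proj i).isSelfAdjoint).star_eq] at h

theorem P_corner (hπ : IsRep T π) (hP : IsStarProjection P)
    (hF : Fix1 P = Fix fun i => π (b.e i)) {i : ℕ} {x : D}
    (hx : x ∈ corner (T.A (b.N i)) (b.o i) 1) : P * (π x * P) = π x * P :=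
  P_mul hP fun η hη => hF ▸ b.corner_fix hπ hx (hF ▸ hη)

theorem star_corner {i : ℕ} {x : D} (hx : x ∈ corner (T.A (b.N i)) (b.o i) 1) :
    star x ∈ corner (T.A (b.N i)) (b.o i) 1 := by
  obtain ⟨h1, h2, h3, -⟩ := hx
  have ho := (b.o_proj i).isSelfAdjoint.star_eq
  refine ⟨star_mem h1, ?_, ?_, by rw [mul_one, one_mul]⟩
  · have h := congrArg star h3
    rwa [star_mul, ho] at h
  · have h := congrArg star h2
    rwa [star_mul, ho] at h

theorem two_ops (hπ : IsRep T π) (hP : IsStarProjection P)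
    (hF : Fix1 P = Fix fun i => π (b.e i)) {x y : H →L[ℂ] H} (hx : x ∈ b.ops π P)
    (hy : y ∈ b.ops π P) : ∃ i, ∃ a ∈ corner (T.A (b.N i)) (b.o i) 1,
      ∃ a' ∈ corner (T.A (b.N i)) (b.o i) 1, x = π a * P ∧ y = π a' * P := by
  obtain ⟨i, a, ha, rfl⟩ := hx
  obtain ⟨j, a', ha', rfl⟩ := hy
  obtain ⟨c, hc, h1, -⟩ := b.ops_level hπ hP hF (le_max_left i j) ha
  obtain ⟨c', hc', h2, -⟩ := b.ops_level hπ hP hF (le_max_right i j) ha'
  exact ⟨_, c, hc, c', hc', h1.symm, h2.symm⟩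

theorem step_le (hπ : IsRep T π) (hP : IsStarProjection P)
    (hF : Fix1 P = Fix fun i => π (b.e i)) (i : ℕ) :
    dist (π (b.U i * b.sy i) * P) (π (b.U (i + 1) * b.sy (i + 1)) * P) ≤ 1 * (1 / 2 : ℝ) ^ i := by
  have hle : T.B (b.N i) ≤ T.B (b.N (i + 1)) := T.B_mono (b.mono.monotone (Nat.le_succ i))
  have h1 : π (b.U i * b.sy i) * P = π (b.U i * (b.sy i * b.e i)) * P := by
    rw [← mul_assoc, hπ.mul (vB b i) (eB b i), mul_assoc, e_P b hP hF]
  have h2 : b.U (i + 1) * b.sy (i + 1) = b.U i * (b.u i * b.sy (i + 1)) := mul_assoc _ _ _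
  have hm : b.U i * (b.sy i * b.e i - b.u i * b.sy (i + 1)) ∈ T.B (b.N (i + 1)) :=
    mul_mem (hle (UB b i)) (sub_mem (mul_mem (hle (b.sy_mem i)) (eB b i))
      (mul_mem (T.A_le_B _ (b.u_mem i)) (b.sy_mem _)))
  rw [dist_eq_norm, h1, h2, ← sub_mul, ← map_sub, ← mul_sub]
  calc ‖π (b.U i * (b.sy i * b.e i - b.u i * b.sy (i + 1))) * P‖
      ≤ ‖π (b.U i * (b.sy i * b.e i - b.u i * b.sy (i + 1)))‖ * ‖P‖ := norm_mul_le _ _
    _ ≤ ‖b.U i * (b.sy i * b.e i - b.u i * b.sy (i + 1))‖ * 1 :=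
        mul_le_mul ((hπ _).norm_le _ hm) (hP.norm_le _) (norm_nonneg _) (norm_nonneg _)
    _ ≤ ‖b.U i‖ * ‖b.sy i * b.e i - b.u i * b.sy (i + 1)‖ := by
        rw [mul_one]; exact norm_mul_le _ _
    _ ≤ 1 * (1 / 2 : ℝ) ^ i := mul_le_mul (b.U_norm i) (b.est' i) (norm_nonneg _) zero_le_one

theorem star_R (hπ : IsRep T π) (hP : IsStarProjection P) (i : ℕ) :
    star (π (b.U i * b.sy i) * P) = P * π (b.U i * b.sy i) := by
  rw [star_mul, hP.isSelfAdjoint.star_eq, ← (hπ _).star _ (vB b i), v_sa]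

theorem R_x_R (hπ : IsRep T π) (hP : IsStarProjection P)
    (hF : Fix1 P = Fix fun i => π (b.e i)) {i : ℕ} {x : D}
    (hx : x ∈ corner (T.A (b.N i)) (b.o i) 1) (k : ℕ) :
    star (π (b.U (i + k) * b.sy (i + k)) * P) * π x * (π (b.U (i + k) * b.sy (i + k)) * P) =
      π (b.U i * x * b.U i) * P := by
  have hxB : x ∈ T.B (b.N (i + k)) := T.AB (b.mono.monotone (Nat.le_add_right i k)) hx.1
  have ht := b.tw_mem hx
  have h1 : b.U (i + k) * x * b.U (i + k) = b.U i * x * b.U i * b.o (i + k) := by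
    have c1 := (b.shift_U_comm i k (mul_mem hx.1 (b.U_mem i))).eq
    calc b.U (i + k) * x * b.U (i + k)
        = b.U i * ((b.shift i).U k * (x * b.U i)) * (b.shift i).U k := by
          rw [b.U_add]; simp only [mul_assoc]
      _ = b.U i * x * b.U i * ((b.shift i).U k * (b.shift i).U k) := by
          rw [c1]; simp only [mul_assoc]
      _ = b.U i * x * (b.U i * b.o i) * (b.shift i).o k := by rw [Blk.U_sq, b.U_o]
      _ = b.U i * x * b.U i * b.o (i + k) := by rw [b.o_add]; simp only [mul_assoc]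
  calc star (π (b.U (i + k) * b.sy (i + k)) * P) * π x * (π (b.U (i + k) * b.sy (i + k)) * P)
      = P * (π (b.U (i + k) * b.sy (i + k)) * π x * π (b.U (i + k) * b.sy (i + k)) * P) := by
        rw [star_R b hπ hP]; simp only [mul_assoc]
    _ = P * (π (b.U i * x * b.U i * b.o (i + k)) * P) := by
        rw [← hπ.mul (vB b _) hxB, ← hπ.mul (mul_mem (vB b _) hxB) (vB b _), v_x_v b _ hxB, h1]
    _ = π (b.U i * x * b.U i) * P := by
        rw [hπ.mul (T.A_le_B _ ht.1) (oB b _), mul_assoc (π _), o_P b hπ hP hF,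
          P_corner b hπ hP hF ht]

theorem o_corner (i : ℕ) : b.o i ∈ corner (T.A (b.N i)) (b.o i) 1 :=
  ⟨b.o_mem i, (b.o_proj i).isIdempotentElem.eq, (b.o_proj i).isIdempotentElem.eq,
    by rw [mul_one, one_mul]⟩

end RzAux

open RzAux in
theorem exists_rdata (hπ : IsRep T π) (b : Blk T) : ∃ P r : H →L[ℂ] H, RData b π P r := by
  obtain ⟨P, hP, hF⟩ := exists_prj _ (isClosed_Fix fun i => π (b.e i))
  have hPP : P * P = P := hP.isIdempotentElem.eq
  have hs := step_le b hπ hP hF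
  obtain ⟨r, hr⟩ := cauchySeq_tendsto_of_complete
    (cauchySeq_of_le_geometric (1 / 2) 1 (by norm_num) hs)
  have hrP : r * P = r := by
    refine tendsto_nhds_unique (hr.mul_const P) ?_
    simpa only [mul_assoc, hPP] using hr
  have her : ∀ j, π (b.e j) * r = r := by
    intro j
    refine tendsto_nhds_unique (hr.const_mul (π (b.e j))) (hr.congr' ?_)
    filter_upwards [eventually_gt_atTop j] with i hi
    rw [← mul_assoc, ← hπ.mul (eB b j) (vB b i), ← mul_assoc, ← b.o_U i, ← mul_assoc, b.e_o hi]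
  have hPr : P * r = r := ContinuousLinearMap.ext fun η => by
    have h : r η ∈ Fix1 P := hF ▸ mem_Fix.2 fun j => congrArg (fun y : H →L[ℂ] H => y η) (her j)
    exact h
  have hsa : star r = r := by
    have h1 := hr.const_mul P
    have h2 := h1.star
    rw [hPr] at h1 h2
    refine tendsto_nhds_unique h2 (h1.congr fun i => ?_)
    rw [star_mul, star_R b hπ hP, hP.isSelfAdjoint.star_eq, mul_assoc]
  have htw : ∀ i, ∀ x ∈ corner (T.A (b.N i)) (b.o i) 1,
      r * (π x * P) * r = π (b.U i * x * b.U i) * P := by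
    intro i x hx
    have h1 := hr.comp (tendsto_add_atTop_nat i)
    have h2 := (h1.star.mul_const (π x)).mul h1
    rw [hsa] at h2
    rw [mul_assoc, mul_assoc, hPr, ← mul_assoc]
    refine tendsto_nhds_unique h2 (tendsto_const_nhds.congr fun k => ?_)
    simp only [Function.comp_apply, add_comm k i]
    exact (R_x_R b hπ hP hF hx k).symm
  refine ⟨P, r, hF, ⟨hP, ?_, ?_, ?_, ?_, ?_, ?_, ?_, hsa, ?_, hrP, ?_⟩, fun i => ?_, htw⟩
  · intro x hx y hy
    obtain ⟨i, a, ha, a', ha', rfl, rfl⟩ := two_ops b hπ hP hF hx hy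
    exact ⟨i, a + a', add_mem ha ha', by rw [map_add, add_mul]⟩
  · rintro c x ⟨i, a, ha, rfl⟩
    exact ⟨i, c • a, Submodule.smul_mem _ c ha, by rw [map_smul, smul_mul_assoc]⟩
  · intro x hx y hy
    obtain ⟨i, a, ha, a', ha', rfl, rfl⟩ := two_ops b hπ hP hF hx hy
    refine ⟨i, a * a', ⟨mul_mem ha.1 ha'.1, by rw [← mul_assoc, ha.2.1],
      by rw [mul_assoc, ha'.2.2.1], by rw [mul_one, one_mul]⟩, ?_⟩
    rw [mul_assoc, P_corner b hπ hP hF ha', hπ.mul (T.A_le_B _ ha.1) (T.A_le_B _ ha'.1),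
      mul_assoc]
  · rintro x ⟨i, a, ha, rfl⟩
    refine ⟨i, star a, star_corner b ha, ?_⟩
    rw [← P_corner b hπ hP hF ha, star_mul, star_mul, hP.isSelfAdjoint.star_eq,
      ← (hπ _).star _ (T.A_le_B _ ha.1), mul_assoc, P_corner b hπ hP hF (star_corner b ha)]
  · exact ⟨0, b.o 0, o_corner b 0, (o_P b hπ hP hF 0).symm⟩
  · rintro x ⟨i, a, ha, rfl⟩
    exact P_corner b hπ hP hF ha
  · rintro x ⟨i, a, ha, rfl⟩
    rw [mul_assoc, hPP]
  · have h := htw 0 _ (o_corner b 0)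
    rwa [o_P b hπ hP hF, hrP, b.U_o, b.U_sq, o_P b hπ hP hF] at h
  · rintro x ⟨i, a, ha, rfl⟩
    exact ⟨i, _, b.tw_mem ha, htw i a ha⟩
  · have h := dist_le_of_le_geometric_of_tendsto (1 / 2) 1 (by norm_num) hs hr i
    rw [dist_eq_norm] at h
    refine h.trans (le_of_eq ?_)
    ring

open RzAux in
theorem RData.irr (hπ : IsRep T π) (hirr : Irr (opsB T π) (Fix1 (π 1))) {b : Blk T}
    {P r : H →L[ℂ] H} (h : RData b π P r) : Irr (insert r (b.ops π P)) (Fix1 P) := by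
  intro W hW hle hinv
  have hP := h.z.P_proj
  have hF := h.fix
  have h1 : ∀ η ∈ Fix1 P, π 1 η = η := fun η hη => b.fix_o hπ (hF ▸ hη) 0
  have hi : Inv (opsB T π) (orb (opsA T π) W) := by
    refine orb_inv hπ b.path b.mono (n₀ := b.N 0) (hle.trans (hF ▸ b.fix_le_atom hπ)) ?_
    intro η hη ε hε
    have ht : Tendsto (fun i : ℕ => 2 * (1 / 2 : ℝ) ^ i * ‖η‖) atTop (𝓝 (2 * 0 * ‖η‖)) :=
      ((tendsto_pow_atTop_nhds_zero_of_lt_one (by norm_num) (by norm_num)).const_mul 2).mul_const _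
    rw [mul_zero, zero_mul] at ht
    filter_upwards [ht.eventually (eventually_le_nhds hε)] with i hi
    refine ⟨b.U i, b.U_mem i, r η, hinv r (Set.mem_insert _ _) η hη, ?_⟩
    have h2 : π (b.sy i) η = π (b.U i) ((π (b.U i * b.sy i) * P) η) := by
      have h3 : (π (b.U i * b.sy i) * P) η = π (b.U i * b.sy i) η :=
        congrArg (π (b.U i * b.sy i)) (hle hη)
      rw [h3, ← hπ.mul_apply (UB b i) (vB b i), ← mul_assoc, b.U_sq, ← sy_comm b i (oB b i),
        hπ.mul_apply (b.sy_mem i) (oB b i), b.fix_o hπ (hF ▸ hle hη)]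
    change ‖π (b.sy i) η - π (b.U i) (r η)‖ ≤ ε
    rw [h2, ← map_sub, ← ContinuousLinearMap.sub_apply]
    calc ‖π (b.U i) ((π (b.U i * b.sy i) * P - r) η)‖
        ≤ ‖b.U i‖ * ‖(π (b.U i * b.sy i) * P - r) η‖ := hπ.apply_le (UB b i) _
      _ ≤ 1 * (2 * (1 / 2 : ℝ) ^ i * ‖η‖) :=
          mul_le_mul (b.U_norm i) ((ContinuousLinearMap.le_opNorm _ _).trans
            (mul_le_mul_of_nonneg_right (h.apx i) (norm_nonneg _))) (norm_nonneg _) zero_le_one
      _ ≤ ε := by rwa [one_mul]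
  have ho : orb (opsA T π) W ≤ Fix1 (π 1) := by
    refine orb_le (isClosed_Fix1 _) ?_
    rintro x ⟨n, a, ha, rfl⟩ η -
    exact congrArg (fun y : H →L[ℂ] H => y η) ((hπ n).one_mul (T.A_le_B _ ha))
  rcases hirr _ (isClosed_orb _ _) ho hi with h0 | h0
  · refine Or.inl (eq_bot_iff.2 fun η hη => ?_)
    rw [← h0, ← h1 η (hle hη)]
    exact mem_orb (𝒮 := opsA T π) ⟨0, 1, one_mem _, rfl⟩ hη
  · refine Or.inr (le_antisymm hle fun ζ hζ => ?_)
    have h2 : ζ ∈ orb (opsA T π) W := h0 ▸ h1 ζ hζ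
    rw [← mem_Fix1.1 hζ]
    refine orb_map hW P ?_ ζ h2
    rintro x ⟨n, a, ha, rfl⟩ η hη
    have ha' : a ∈ T.A (b.N n) := T.A_mono (b.le_N n) ha
    have hc := b.cut_mem ha'
    have h3 : P * (π a * P) = π (b.o n * a * b.o n) * P := by
      rw [← P_corner b hπ hP hF hc, hπ.mul (mul_mem (oB b n) (T.A_le_B _ ha')) (oB b n),
        hπ.mul (oB b n) (T.A_le_B _ ha'), mul_assoc (π (b.o n) * π a), o_P b hπ hP hF,
        mul_assoc (π (b.o n)), ← mul_assoc P (π (b.o n)), P_o b hπ hP hF]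
    have h4 : P (π a η) = (π (b.o n * a * b.o n) * P) η := by
      rw [← h3]
      exact congrArg (fun v => P (π a v)) (mem_Fix1.1 (hle hη)).symm
    rw [h4]
    exact hinv _ (Set.mem_insert_of_mem _ ⟨n, _, hc, rfl⟩) η hη

end Pool.Agent.P.MP_5d580a_an.Ng
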