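import Pool.Agent.P.MP_5d580a_an.N.Ex

open scoped ComplexOrder InnerProductSpace ComplexConjugate
open Filter Topology

set_option linter.unusedSectionVars false
set_option linter.unusedVariables false
set_option linter.deprecated false

noncomputable section

namespace Pool.Agent.P.MP_5d580a_an.Ng

variable {D C : Type} [CStarAlgebra D] [CStarAlgebra C]
variable {H : Type} [NormedAddCommGroup H] [InnerProductSpace ℂ H] [CompleteSpace H]
variable {L : Type} [NormedAddCommGroup L] [InnerProductSpace ℂ L] [CompleteSpace L]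

variable {T : Tower D} {π : D →ₗ[ℂ] (H →L[ℂ] H)} {N : ℕ → ℕ} {o c e : ℕ → D}
  {W : Submodule ℂ H}

theorem Ex2_eprod (h : ExSet T π N o c e W) (i j : ℕ) :
    eprod e i j ∈ T.A (N (i + j)) ∧ IsStarProjection (eprod e i j) ∧
      ∀ a ∈ T.A (N i), Commute (eprod e i j) a := by
  induction j with
  | zero => exact ⟨one_mem _, IsStarProjection.one D, fun a _ => Commute.one_left a⟩
  | succ j ih =>
    obtain ⟨h1, h2, h3⟩ := ih
    refine ⟨mul_mem (T.A_mono (h.mono (Nat.le_succ _)) h1) (h.e_mem (i + j)),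
      h2.mul (h.e_proj _) (h.e_comm _ _ h1).symm, fun a ha => ?_⟩
    exact (h3 a ha).mul_left (h.e_comm _ a (T.A_mono (h.mono (Nat.le_add_right i j)) ha))

/-- filling in the levels between the steps -/
theorem Ex2_fill (h : ExSet T π N o c e W) {I : ℕ → ℕ} (hI : StrictMono I) (h0 : I 0 = 0)
    {g : ℕ → D} (hg : ∀ k, g k ∈ corner (T.A (N (I k))) (o (I k)) (c (I k)))
    (hp : ∀ k, IsStarProjection (g k))
    (hs : ∀ k, g k * eprod e (I k) (I (k + 1) - I k) * g (k + 1) = g (k + 1)) :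
    ∃ G : ℕ → D, (∀ i, G i ∈ corner (T.A (N i)) (o i) (c i)) ∧ (∀ i, IsStarProjection (G i)) ∧
      (∀ i, G i * e i * G (i + 1) = G (i + 1)) ∧ ∀ k, G (I k) = g k := by
  classical
  have hex : ∀ j, ∃ k, I k ≤ j ∧ j < I (k + 1) := by
    intro j
    induction j with
    | zero => exact ⟨0, h0.le, h0.ge.trans_lt (hI (Nat.lt_add_one 0))⟩
    | succ j ih =>
      obtain ⟨k, h1, h2⟩ := ih
      by_cases hc : j + 1 < I (k + 1)
      · exact ⟨k, by omega, hc⟩
      · exact ⟨k + 1, by omega, by have := hI (Nat.lt_add_one (k + 1)); omega⟩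
  choose K hK1 hK2 using hex
  have huniq : ∀ j k, I k ≤ j → j < I (k + 1) → K j = k := by
    intro j k h1 h2
    have a1 : K j < k + 1 := hI.lt_iff_lt.mp (lt_of_le_of_lt (hK1 j) h2)
    have a2 : k < K j + 1 := hI.lt_iff_lt.mp (lt_of_le_of_lt h1 (hK2 j))
    omega
  have hproj : ∀ k j, IsStarProjection (g k * eprod e (I k) j) := fun k j =>
    (hp k).mul (Ex2_eprod h _ _).2.1 ((Ex2_eprod h _ _).2.2 _ (hg k).1).symm
  have hval : ∀ k, g (K (I k)) * eprod e (I (K (I k))) (I k - I (K (I k))) = g k := by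
    intro k
    rw [huniq (I k) k le_rfl (hI (Nat.lt_succ_self k)), Nat.sub_self, eprod, mul_one]
  refine ⟨fun j => g (K j) * eprod e (I (K j)) (j - I (K j)), fun j => ?_, fun j => hproj _ _,
    fun j => ?_, hval⟩
  · have := (h.lift (hg (K j)) (j - I (K j))).1
    rwa [Nat.add_sub_cancel' (hK1 j)] at this
  · have h1 := hK1 j
    have h2 := hK2 j
    have he : g (K j) * eprod e (I (K j)) (j - I (K j)) * e j =
        g (K j) * eprod e (I (K j)) (j + 1 - I (K j)) := by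
      rw [show j + 1 - I (K j) = j - I (K j) + 1 by omega, eprod, Nat.add_sub_cancel' h1,
        mul_assoc]
    show g (K j) * eprod e (I (K j)) (j - I (K j)) * e j *
      (g (K (j + 1)) * eprod e (I (K (j + 1))) (j + 1 - I (K (j + 1)))) =
      g (K (j + 1)) * eprod e (I (K (j + 1))) (j + 1 - I (K (j + 1)))
    rw [he]
    by_cases hc : j + 1 < I (K j + 1)
    · rw [huniq (j + 1) (K j) (by omega) hc]
      exact (hproj _ _).isIdempotentElem.eq
    · have h3 : j + 1 = I (K j + 1) := by omega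
      rw [h3, hval]
      exact hs _

/-- countable spanning families of the corners -/
theorem Ex2_span (T : Tower D) (n : ℕ) (o c : D) :
    ∃ b : ℕ → D, Submodule.span ℂ (Set.range b) = corner (T.A n) o c := by
  have := T.finA n
  have : FiniteDimensional ℂ (Subalgebra.toSubmodule (T.A n).toSubalgebra) := T.finA n
  have : FiniteDimensional ℂ (corner (T.A n) o c) :=
    Submodule.finiteDimensional_of_le (S₂ := Subalgebra.toSubmodule (T.A n).toSubalgebra)
      fun x hx => hx.1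
  obtain ⟨s, hs⟩ : (corner (T.A n) o c).FG := Module.Finite.iff_fg.mp inferInstance
  obtain ⟨b, hb⟩ := (s.countable_toSet.insert 0).exists_eq_range (Set.insert_nonempty _ _)
  exact ⟨b, by rw [← hb, Submodule.span_insert_zero, hs]⟩

/-- the constant of an approximate excision is close to the value of the state -/
theorem Ex2_const (hπ : IsRep T π) {n n' : ℕ} {g x : D} (hg : g ∈ T.A n) (hx : x ∈ T.A n')
    (hp : IsStarProjection g) {η : H} (h1 : ‖η‖ = 1) (hf : π g η = η) {z : ℂ} {ε : ℝ}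
    (hz : ‖g * x * g - z • g‖ ≤ ε) : ‖g * x * g - ⟪η, π x η⟫_ℂ • g‖ ≤ 2 * ε := by
  have hg' : g ∈ T.B (max n n') := T.AB (le_max_left _ _) hg
  have hx' : x ∈ T.B (max n n') := T.AB (le_max_right _ _) hx
  have hm : g * x * g - z • g ∈ T.B (max n n') :=
    sub_mem (mul_mem (mul_mem hg' hx') hg') ((T.B _).smul_mem hg' z)
  have hsa : IsSelfAdjoint (π g) := (hπ _).sa hg' hp.isSelfAdjoint
  have e1 : ⟪η, π (g * x * g - z • g) η⟫_ℂ = ⟪η, π x η⟫_ℂ - z := by
    rw [map_sub, map_smul, ContinuousLinearMap.sub_apply, ContinuousLinearMap.smul_apply,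
      hπ.mul_apply (mul_mem hg' hx') hg', hf, hπ.mul_apply hg' hx', inner_sub_right,
      inner_smul_right, inner_self_eq_norm_sq_to_K, h1,
      ← ContinuousLinearMap.adjoint_inner_left, hsa.adjoint_eq, hf]
    simp
  have e2 : ‖⟪η, π x η⟫_ℂ - z‖ ≤ ε := by
    rw [← e1]
    refine (norm_inner_le_norm _ _).trans ?_
    have := hπ.apply_le hm η
    rw [h1] at this ⊢
    linarith
  have e3 : g * x * g - ⟪η, π x η⟫_ℂ • g = (g * x * g - z • g) - (⟪η, π x η⟫_ℂ - z) • g := by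
    rw [sub_smul]; abel
  rw [e3]
  refine (norm_sub_le _ _).trans ?_
  rw [norm_smul]
  have e4 := mul_le_mul e2 hp.norm_le (norm_nonneg _) ((norm_nonneg _).trans e2)
  linarith

/-- excision of a vector state by a decreasing sequence of projections -/
theorem ExSet.excise (h : ExSet T π N o c e W) :
    ∃ (g : ℕ → D) (η : H), (∀ i, g i ∈ corner (T.A (N i)) (o i) (c i)) ∧
      (∀ i, IsStarProjection (g i)) ∧ (∀ i, g i * e i * g (i + 1) = g (i + 1)) ∧ η ∈ W ∧
      ‖η‖ = 1 ∧ (∀ i, π (g i) η = η) ∧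
      ∀ i, ∀ x ∈ corner (T.A (N i)) (o i) (c i), ∀ ε : ℝ, 0 < ε → ∀ᶠ j in atTop,
        ‖g j * x * g j - ⟪η, π x η⟫_ℂ • g j‖ ≤ ε := by
  classical
  choose b hb using fun i => Ex2_span T (N i) (o i) (c i)
  have hbm : ∀ i l, b i l ∈ corner (T.A (N i)) (o i) (c i) := fun i l => by
    rw [← hb]; exact Submodule.subset_span ⟨l, rfl⟩
  let S := {s : ℕ × D × H // s.2.1 ∈ corner (T.A (N s.1)) (o s.1) (c s.1) ∧
    IsStarProjection s.2.1 ∧ s.2.2 ∈ W ∧ ‖s.2.2‖ = 1 ∧ π s.2.1 s.2.2 = s.2.2}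
  let x : ℕ → D := fun k => b k.unpair.1.unpair.1 k.unpair.1.unpair.2
  have hstep : ∀ (k : ℕ) (s : S), ∃ s' : S, s.1.1 < s'.1.1 ∧
      s.1.2.1 * eprod e s.1.1 (s'.1.1 - s.1.1) * s'.1.2.1 = s'.1.2.1 ∧
      ‖s'.1.2.2 - s.1.2.2‖ ≤ (1 / 2 : ℝ) ^ k ∧
      ∃ z : ℂ, ‖s'.1.2.1 * x k * s'.1.2.1 - z • s'.1.2.1‖ ≤ (1 / 2 : ℝ) ^ k := by
    rintro k ⟨⟨i, g, η⟩, h1, h2, h3, h4, h5⟩
    obtain ⟨j, hj, -, g', a1, a2, a3, η', a4, a5, a6, a7, a8⟩ :=
      h.step h1 h2 h3 h4 h5 (hbm k.unpair.1.unpair.1 k.unpair.1.unpair.2)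
        (ε := (1 / 2 : ℝ) ^ k) (by positivity)
    refine ⟨⟨⟨i + j, g', η'⟩, a1, a2, a4, a5, a6⟩, by simpa using hj, ?_, a7, a8⟩
    simpa using a3
  choose f hf1 hf2 hf3 hf4 using hstep
  obtain ⟨η₀, hη₀, hne⟩ := Submodule.exists_mem_ne_zero_of_ne_bot h.ne
  have hn0 : ‖η₀‖ ≠ 0 := norm_ne_zero_iff.mpr hne
  have hW0 : ((‖η₀‖⁻¹ : ℝ) : ℂ) • η₀ ∈ W := W.smul_mem _ hη₀
  let s0 : S := ⟨⟨0, o 0, ((‖η₀‖⁻¹ : ℝ) : ℂ) • η₀⟩, h.o_mem 0, h.o_proj 0, hW0, by
    show ‖((‖η₀‖⁻¹ : ℝ) : ℂ) • η₀‖ = 1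
    rw [norm_smul, Complex.norm_real, norm_inv, norm_norm, inv_mul_cancel₀ hn0],
    h.fix 0 _ hW0⟩
  let s : ℕ → S := fun k => Nat.rec s0 (fun k t => f k t) k
  have hs : ∀ k, s (k + 1) = f k (s k) := fun k => rfl
  have hI : StrictMono fun k => (s k).1.1 := strictMono_nat_of_lt_succ fun k => hf1 k (s k)
  obtain ⟨G, hG1, hG2, hG3, hG4⟩ := Ex2_fill h hI rfl (g := fun k => (s k).1.2.1)
    (fun k => (s k).2.1) (fun k => (s k).2.2.1) (fun k => hf2 k (s k))
  have hdec : ∀ i, G i * G (i + 1) = G (i + 1) := by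
    intro i
    conv_lhs => rw [← hG3 i]
    rw [← mul_assoc, ← mul_assoc, (hG2 i).isIdempotentElem.eq, hG3]
  have hcau : CauchySeq fun k => (s k).1.2.2 := by
    refine cauchySeq_of_le_geometric (1 / 2) 1 (by norm_num) fun k => ?_
    rw [dist_comm, dist_eq_norm, one_mul]
    exact hf3 k (s k)
  obtain ⟨η, hη⟩ := cauchySeq_tendsto_of_complete hcau
  have hW : η ∈ W := h.closed.mem_of_tendsto hη (Eventually.of_forall fun k => (s k).2.2.2.1)
  have hn : ‖η‖ = 1 := by
    refine tendsto_nhds_unique hη.norm ?_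
    have : (fun k => ‖(s k).1.2.2‖) = fun _ => (1 : ℝ) := funext fun k => (s k).2.2.2.2.1
    rw [this]
    exact tendsto_const_nhds
  have hfix : ∀ i, π (G i) η = η := by
    intro i
    refine (isClosed_Fix1 (π (G i))).mem_of_tendsto hη ?_
    filter_upwards [eventually_ge_atTop i] with k hk
    have hik : i ≤ (s k).1.1 := hk.trans (hI.id_le k)
    have e1 : π (G (s k).1.1) (s k).1.2.2 = (s k).1.2.2 := by
      rw [hG4]; exact (s k).2.2.2.2.2
    show π (G i) (s k).1.2.2 = (s k).1.2.2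
    conv_lhs => rw [← e1]
    rw [← h.rep.mul_apply (T.A_le_B _ (hG1 i).1) (T.A_le_B _ (hG1 _).1),
      (dec_mul hG2 hdec hik).1, e1]
  refine ⟨G, η, hG1, hG2, hG3, hW, hn, hfix, ?_⟩
  have hmain : ∀ i, ∀ y ∈ Submodule.span ℂ (Set.range (b i)),
      Tendsto (fun j => G j * y * G j - ⟪η, π y η⟫_ℂ • G j) atTop (𝓝 0) := by
    intro i y hy
    induction hy using Submodule.span_induction with
    | mem y hy =>
      obtain ⟨l, rfl⟩ := hy
      rw [NormedAddGroup.tendsto_nhds_zero]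
      intro ε hε
      obtain ⟨q, hq⟩ := exists_pow_lt_of_lt_one (half_pos hε) (by norm_num : (1 / 2 : ℝ) < 1)
      let k := Nat.pair (Nat.pair i l) q
      have hxk : x k = b i l := by simp [x, k]
      obtain ⟨z, hz⟩ := hf4 k (s k)
      rw [hxk, ← hs, ← hG4 (k + 1)] at hz
      have hb2 := Ex2_const h.rep (hG1 _).1 (hbm i l).1 (hG2 _) hn (hfix _) hz
      have hk : (1 / 2 : ℝ) ^ k ≤ (1 / 2 : ℝ) ^ q :=
        pow_le_pow_of_le_one (by norm_num) (by norm_num) (Nat.right_le_pair _ _)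
      filter_upwards [eventually_ge_atTop (s (k + 1)).1.1] with j hj
      obtain ⟨d1, d2⟩ := dec_mul hG2 hdec hj
      have e1 : G j * b i l * G j - ⟪η, π (b i l) η⟫_ℂ • G j =
          G j * (G (s (k + 1)).1.1 * b i l * G (s (k + 1)).1.1 -
            ⟪η, π (b i l) η⟫_ℂ • G (s (k + 1)).1.1) * G j := by
        rw [mul_sub, sub_mul, ← mul_assoc, ← mul_assoc, d2, mul_assoc (G j * b i l), d1,
          mul_smul_comm, smul_mul_assoc, d2, (hG2 j).isIdempotentElem.eq]
      rw [e1]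
      have n1 := (hG2 j).norm_le
      refine lt_of_le_of_lt ((norm_mul_le _ _).trans (mul_le_mul (norm_mul_le _ _) n1
        (norm_nonneg _) (by positivity))) ?_
      have n2 := mul_le_mul n1 hb2 (norm_nonneg _) zero_le_one
      linarith
    | zero => simp
    | add y y' _ _ h1 h2 =>
      have := h1.add h2
      rw [add_zero] at this
      refine this.congr fun j => ?_
      rw [map_add, ContinuousLinearMap.add_apply, inner_add_right, add_smul, mul_add, add_mul]
      abel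
    | smul a y _ h1 =>
      have := h1.const_smul a
      rw [smul_zero] at this
      refine this.congr fun j => ?_
      rw [map_smul, ContinuousLinearMap.smul_apply, inner_smul_right, smul_sub, mul_smul_comm,
        smul_mul_assoc, mul_smul]
  intro i y hy ε hε
  rw [← hb] at hy
  filter_upwards [NormedAddGroup.tendsto_nhds_zero.mp (hmain i y hy) ε hε] with j hj
  exact hj.le

end Pool.Agent.P.MP_5d580a_an.Ng
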