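import Pool.Agent.P.MP_5d580a_an.N.Hom
import Pool.Agent.P.MP_5d580a_an.N.Hil

open scoped ComplexOrder InnerProductSpace ComplexConjugate
open Filter Topology

set_option linter.unusedSectionVars false
set_option linter.unusedVariables false
set_option linter.deprecated false

noncomputable section

namespace Pool.Agent.P.MP_5d580a_an.Ng

variable {D C : Type} [CStarAlgebra D] [CStarAlgebra C]
variable {H : Type} [NormedAddCommGroup H] [InnerProductSpace ℂ H] [CompleteSpace H]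
variable {L : Type} [NormedAddCommGroup L] [InnerProductSpace ℂ L] [CompleteSpace L]

variable {T : Tower D} {π : D →ₗ[ℂ] (H →L[ℂ] H)}

theorem Ov_cut {p q x : D} (hp : IsStarProjection p) (hq : IsStarProjection q) :
    ‖p * x * q‖ ≤ ‖x‖ := by
  calc ‖p * x * q‖ ≤ ‖p‖ * ‖x‖ * ‖q‖ :=
        (norm_mul_le _ _).trans (mul_le_mul_of_nonneg_right (norm_mul_le _ _) (norm_nonneg _))
    _ ≤ 1 * ‖x‖ * 1 := by
        gcongr
        · exact hp.norm_le
        · exact hq.norm_le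
    _ = ‖x‖ := by ring

theorem Ov_anti {g g' : ℕ → D} (hp : ∀ i, IsStarProjection (g i))
    (hp' : ∀ i, IsStarProjection (g' i)) (hs : ∀ i, g i * g (i + 1) = g (i + 1))
    (hs' : ∀ i, g' i * g' (i + 1) = g' (i + 1)) (a : D) {i j k l : ℕ} (hik : i ≤ k)
    (hjl : j ≤ l) : ‖g k * a * g' l‖ ≤ ‖g i * a * g' j‖ := by
  have h1 := (dec_mul hp hs hik).2
  have h2 := (dec_mul hp' hs' hjl).1
  have h3 : g k * a * g' l = g k * (g i * a * g' j) * g' l := by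
    calc g k * a * g' l = (g k * g i) * a * (g' j * g' l) := by rw [h1, h2]
      _ = g k * (g i * a * g' j) * g' l := by simp only [mul_assoc]
  rw [h3]
  exact Ov_cut (hp k) (hp' l)

theorem Ov_norm_sq {p y : D} (hp : IsStarProjection p) : ‖y * p‖ ^ 2 = ‖y * p * star y‖ := by
  have h : y * p * star y = (y * p) * star (y * p) := by
    rw [star_mul, hp.isSelfAdjoint.star_eq]
    calc y * p * star y = y * (p * p) * star y := by rw [hp.isIdempotentElem.eq]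
      _ = y * p * (p * star y) := by simp only [mul_assoc]
  rw [h, CStarRing.norm_self_mul_star, sq]

theorem Ov_inner_proj {q : H →L[ℂ] H} (hq : IsStarProjection q) (ζ : H) :
    ‖⟪ζ, q ζ⟫_ℂ‖ = ‖q ζ‖ ^ 2 := by
  have h : ⟪ζ, q ζ⟫_ℂ = ⟪q ζ, q ζ⟫_ℂ := by
    rw [← inner_star_right, hq.isSelfAdjoint.star_eq, ← ContinuousLinearMap.mul_apply,
      hq.isIdempotentElem.eq]
  rw [h, inner_self_eq_norm_sq_to_K]
  simp

theorem Ov_inner_le (hπ : IsRep T π) {n : ℕ} {y : D} (hy : y ∈ T.B n) (η' η : H) :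
    ‖⟪η', π y η⟫_ℂ‖ ≤ ‖y‖ * (‖η'‖ * ‖η‖) := by
  calc ‖⟪η', π y η⟫_ℂ‖ ≤ ‖η'‖ * ‖π y η‖ := norm_inner_le_norm _ _
    _ ≤ ‖η'‖ * (‖y‖ * ‖η‖) := by gcongr; exact hπ.apply_le hy η
    _ = ‖y‖ * (‖η'‖ * ‖η‖) := by ring

theorem Ov_sandwich (hπ : IsRep T π) {n n' m : ℕ} {p p' x : D} (hp : p ∈ T.B n)
    (hp' : p' ∈ T.B n') (hx : x ∈ T.B m) (hs : IsStarProjection p') {η η' : H}
    (hη : π p η = η) (hη' : π p' η' = η') : ⟪η', π (p' * x * p) η⟫_ℂ = ⟪η', π x η⟫_ℂ := by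
  have hm : p' * x ∈ T.B (max n' m) :=
    mul_mem (T.B_mono (le_max_left _ _) hp') (T.B_mono (le_max_right _ _) hx)
  rw [hπ.mul_apply hm hp, hη, hπ.mul_apply hp' hx, ← inner_star_left,
    ((hπ n').proj hp' hs).isSelfAdjoint.star_eq, hη']

theorem Ov_zero {z : ℂ} {M : ℝ} (hM : 0 ≤ M) (h : ∀ ε : ℝ, 0 < ε → ‖z‖ ≤ ε * M) : z = 0 := by
  have h1 : ‖z‖ ≤ 0 := by
    refine le_of_forall_pos_le_add fun ε hε => ?_
    have h2 := h (ε / (M + 1)) (by positivity)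
    have h3 : ε / (M + 1) * M ≤ ε := by
      rw [div_mul_eq_mul_div, div_le_iff₀ (by positivity)]
      nlinarith
    linarith
  exact norm_le_zero_iff.1 h1

/-- a decreasing sequence of projections that does not kill a vector has a fixed vector -/
theorem lim_fix (hπ : IsRep T π) {N : ℕ → ℕ} {g : ℕ → D} (hg : ∀ i, g i ∈ T.B (N i))
    (hp : ∀ i, IsStarProjection (g i)) (hs : ∀ i, g i * g (i + 1) = g (i + 1)) {ζ : H} {δ : ℝ}
    (hδ : 0 < δ) (h : ∀ i, δ ≤ ‖π (g i) ζ‖) :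
    ∃ η : H, η ≠ 0 ∧ (∀ i, π (g i) η = η) ∧ Tendsto (fun i => π (g i) ζ) atTop (𝓝 η) := by
  have hq : ∀ i, IsStarProjection (π (g i)) := fun i => (hπ (N i)).proj (hg i) (hp i)
  have hqs : ∀ i, π (g i) * π (g (i + 1)) = π (g (i + 1)) := fun i => by
    rw [← hπ.mul (hg i) (hg (i + 1)), hs i]
  obtain ⟨P, hP, hF⟩ := exists_prj (Fix fun i => π (g i)) (isClosed_Fix _)
  have hlim := dec_lim hq hqs hP hF ζ
  refine ⟨P ζ, ?_, ?_, hlim⟩
  · have h1 : δ ≤ ‖P ζ‖ := ge_of_tendsto' hlim.norm h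
    intro h0
    rw [h0, norm_zero] at h1
    linarith
  · have h2 := prj_mem hP ζ
    rw [hF, mem_Fix] at h2
    exact h2

/-- overlap lemma -/
theorem overlap_vec (hπ : IsRep T π) {N N' : ℕ → ℕ} {g g' : ℕ → D} (hg : ∀ i, g i ∈ T.A (N i))
    (hg' : ∀ i, g' i ∈ T.A (N' i)) (hp : ∀ i, IsStarProjection (g i))
    (hp' : ∀ i, IsStarProjection (g' i)) (hs' : ∀ i, g' i * g' (i + 1) = g' (i + 1)) {η : H}
    (h1 : ‖η‖ = 1) {n : ℕ} {a : D} (ha : a ∈ T.A n)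
    (hx : ∀ j, ∀ ε : ℝ, 0 < ε → ∀ᶠ i in atTop,
      ‖g i * (a * g' j * star a) * g i - ⟪η, π (a * g' j * star a) η⟫_ℂ • g i‖ ≤ ε)
    {δ : ℝ} (hδ : 0 < δ) (h : ∀ i, δ ≤ ‖g i * a * g' i‖) :
    ∃ η' : H, η' ≠ 0 ∧ (∀ i, π (g' i) η' = η') ∧
      Tendsto (fun i => π (g' i) (π (star a) η)) atTop (𝓝 η') := by
  have haB : a ∈ T.B n := T.A_le_B n ha
  have hsB : star a ∈ T.B n := star_mem haB
  have hg'B : ∀ i, g' i ∈ T.B (N' i) := fun i => T.A_le_B _ (hg' i)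
  refine lim_fix hπ hg'B hp' hs' hδ fun j => ?_
  have hq : IsStarProjection (π (g' j)) := (hπ (N' j)).proj (hg'B j) (hp' j)
  have hz : ‖⟪η, π (a * g' j * star a) η⟫_ℂ‖ = ‖π (g' j) (π (star a) η)‖ ^ 2 := by
    have hm : a * g' j ∈ T.B (max n (N' j)) :=
      mul_mem (T.B_mono (le_max_left _ _) haB) (T.B_mono (le_max_right _ _) (hg'B j))
    rw [hπ.mul_apply hm hsB, hπ.mul_apply haB (hg'B j), ← inner_star_left,
      ← (hπ n).star a haB, Ov_inner_proj hq]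
  have key : δ ^ 2 ≤ ‖π (g' j) (π (star a) η)‖ ^ 2 := by
    refine le_of_forall_pos_le_add fun ε hε => ?_
    obtain ⟨i, hi, hij⟩ := ((hx j ε hε).and (eventually_ge_atTop j)).exists
    have h2 : δ ≤ ‖g i * a * g' j‖ := by
      refine (h i).trans ?_
      have h3 : g i * a * g' i = 1 * (g i * a * g' j) * g' i := by
        rw [one_mul, mul_assoc (g i * a), (dec_mul hp' hs' hij).1]
      rw [h3]
      exact Ov_cut (IsStarProjection.one D) (hp' i)
    have h4 : ‖g i * a * g' j‖ ^ 2 = ‖g i * (a * g' j * star a) * g i‖ := by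
      rw [Ov_norm_sq (hp' j), star_mul, (hp i).isSelfAdjoint.star_eq]
      simp only [mul_assoc]
    have h5 : ‖g i * (a * g' j * star a) * g i‖ ≤
        ‖⟪η, π (a * g' j * star a) η⟫_ℂ • g i‖ + ε := by
      have := norm_sub_norm_le (g i * (a * g' j * star a) * g i)
        (⟪η, π (a * g' j * star a) η⟫_ℂ • g i)
      linarith
    have h6 : ‖⟪η, π (a * g' j * star a) η⟫_ℂ • g i‖ ≤ ‖π (g' j) (π (star a) η)‖ ^ 2 := by
      rw [norm_smul, hz]
      exact mul_le_of_le_one_right (by positivity) (hp i).norm_le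
    have h7 : δ ^ 2 ≤ ‖g i * a * g' j‖ ^ 2 := by gcongr
    linarith
  exact (pow_le_pow_iff_left₀ hδ.le (norm_nonneg _) two_ne_zero).1 key

/-- the norms `‖g i * a * g' i‖` decrease -/
theorem small_of_not (g g' : ℕ → D) (hp : ∀ i, IsStarProjection (g i))
    (hp' : ∀ i, IsStarProjection (g' i)) (hs : ∀ i, g i * g (i + 1) = g (i + 1))
    (hs' : ∀ i, g' i * g' (i + 1) = g' (i + 1)) (a : D)
    (h : ¬ ∃ δ : ℝ, 0 < δ ∧ ∀ i, δ ≤ ‖g i * a * g' i‖) {ε : ℝ} (hε : 0 < ε) :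
    ∀ᶠ i in atTop, ‖g i * a * g' i‖ ≤ ε := by
  push Not at h
  obtain ⟨i₀, hi₀⟩ := h ε hε
  filter_upwards [eventually_ge_atTop i₀] with i hi
  exact (Ov_anti hp hp' hs hs' a hi hi).trans hi₀.le

/-- two vectors fixed by an excising sequence define the same value -/
theorem same_state (hπ : IsRep T π) {N : ℕ → ℕ} {g : ℕ → D} (hg : ∀ i, g i ∈ T.A (N i))
    (hp : ∀ i, IsStarProjection (g i)) {n : ℕ} {x : D} (hx : x ∈ T.A n) {z : ℂ}
    (h : ∀ ε : ℝ, 0 < ε → ∀ᶠ i in atTop, ‖g i * x * g i - z • g i‖ ≤ ε) {η : H}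
    (hη : ∀ i, π (g i) η = η) : ⟪η, π x η⟫_ℂ = z * ⟪η, η⟫_ℂ := by
  have hxB : x ∈ T.B n := T.A_le_B n hx
  have hgB : ∀ i, g i ∈ T.B (N i) := fun i => T.A_le_B _ (hg i)
  rw [← sub_eq_zero]
  refine Ov_zero (M := ‖η‖ * ‖η‖) (by positivity) fun ε hε => ?_
  obtain ⟨i, hi⟩ := (h ε hε).exists
  have hgi : g i ∈ T.B (max (N i) n) := T.B_mono (le_max_left _ _) (hgB i)
  have hm : g i * x * g i - z • g i ∈ T.B (max (N i) n) :=
    sub_mem (mul_mem (mul_mem hgi (T.B_mono (le_max_right _ _) hxB)) hgi)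
      ((T.B _).smul_mem hgi z)
  have h1 : ⟪η, π x η⟫_ℂ - z * ⟪η, η⟫_ℂ = ⟪η, π (g i * x * g i - z • g i) η⟫_ℂ := by
    rw [map_sub, map_smul, ContinuousLinearMap.sub_apply, ContinuousLinearMap.smul_apply,
      inner_sub_right, inner_smul_right, hη i,
      Ov_sandwich hπ (hgB i) (hgB i) hxB (hp i) (hη i) (hη i)]
  rw [h1]
  refine (Ov_inner_le hπ hm η η).trans ?_
  gcongr

theorem Pre.g_dec (p : Pre T) (i : ℕ) : p.g i * p.g (i + 1) = p.g (i + 1) := by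
  calc p.g i * p.g (i + 1) = p.g i * (p.g i * p.b.e i * p.g (i + 1)) := by rw [p.g_succ i]
    _ = (p.g i * p.g i) * p.b.e i * p.g (i + 1) := by simp only [mul_assoc]
    _ = p.g (i + 1) := by rw [(p.g_proj i).isIdempotentElem.eq, p.g_succ i]

theorem Signs.seen (hπ : IsRep T π) {p : Pre T} (h : Signs p π) : Seen T π p.g := by
  obtain ⟨η₁, η₂, n1, n2, f1, f2, w1, w2⟩ := h
  refine ⟨η₁, η₂, n1, n2, f1, f2, fun n z hz δ hδ => ?_⟩
  by_contra hcon
  push Not at hcon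
  obtain ⟨c1, c2⟩ := hcon
  have hδ0 : 0 < δ := lt_of_le_of_lt (norm_nonneg _) c1
  set m : ℝ := max (‖π z η₁‖ ^ 2) (‖π z η₂‖ ^ 2) with hm
  have hmδ : m < δ ^ 2 := by
    refine max_lt ?_ ?_
    · gcongr
    · gcongr
  have hε : 0 < (δ ^ 2 - m) / 3 := by linarith
  have hzB : z ∈ T.B n := T.A_le_B n hz
  have ha : star z * z ∈ T.A n := mul_mem (star_mem hz) hz
  have haB : star z * z ∈ T.B n := T.A_le_B n ha
  obtain ⟨i, c, c', hc⟩ := p.exc n _ ha _ hε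
  have hgB : p.g i ∈ T.B (p.b.N i) := T.A_le_B _ (p.g_mem i)
  have hwB : p.w ∈ T.B (p.b.N 0) := T.A_le_B _ p.w_mem
  have hgp := p.g_proj i
  have hexp : (c • (1 : D) + c' • p.w) * p.g i = c • p.g i + c' • (p.w * p.g i) := by
    rw [add_mul, smul_mul_assoc, smul_mul_assoc, one_mul]
  have hmem : p.g i * (star z * z) * p.g i - (c • (1 : D) + c' • p.w) * p.g i ∈
      T.B (max (max (p.b.N i) (p.b.N 0)) n) := by
    have k1 : p.g i ∈ T.B (max (max (p.b.N i) (p.b.N 0)) n) :=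
      T.B_mono ((le_max_left _ _).trans (le_max_left _ _)) hgB
    have k2 : p.w ∈ T.B (max (max (p.b.N i) (p.b.N 0)) n) :=
      T.B_mono ((le_max_right _ _).trans (le_max_left _ _)) hwB
    have k3 : star z * z ∈ T.B (max (max (p.b.N i) (p.b.N 0)) n) :=
      T.B_mono (le_max_right _ _) haB
    rw [hexp]
    exact sub_mem (mul_mem (mul_mem k1 k3) k1)
      (add_mem ((T.B _).smul_mem k1 c) ((T.B _).smul_mem (mul_mem k2 k1) c'))
  have hval : ∀ (η : H) (s : ℂ), ‖η‖ = 1 → π (p.g i) η = η → π p.w η = s • η →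
      ‖c + c' * s‖ ≤ ‖π z η‖ ^ 2 + (δ ^ 2 - m) / 3 := by
    intro η s hn hf hw
    have k1 := Ov_inner_le hπ hmem η η
    rw [hn, mul_one, mul_one] at k1
    have k2 : ⟪η, π (p.g i * (star z * z) * p.g i - (c • (1 : D) + c' • p.w) * p.g i) η⟫_ℂ =
        ⟪π z η, π z η⟫_ℂ - (c + c' * s) := by
      rw [map_sub, ContinuousLinearMap.sub_apply, inner_sub_right,
        Ov_sandwich hπ hgB hgB haB hgp hf hf, hπ.mul_apply (star_mem hzB) hzB,
        (hπ n).star z hzB, inner_star_right, hexp, map_add, map_smul, map_smul,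
        ContinuousLinearMap.add_apply, ContinuousLinearMap.smul_apply,
        ContinuousLinearMap.smul_apply, hπ.mul_apply hwB hgB, hf, hw, inner_add_right,
        inner_smul_right, inner_smul_right, inner_smul_right, inner_self_eq_norm_sq_to_K η, hn]
      simp
    rw [k2] at k1
    have k3 : ‖⟪π z η, π z η⟫_ℂ‖ = ‖π z η‖ ^ 2 := by
      rw [inner_self_eq_norm_sq_to_K]
      simp
    have k4 := norm_sub_norm_le (c + c' * s) ⟪π z η, π z η⟫_ℂ
    rw [norm_sub_rev] at k4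
    linarith
  have v1 : ‖c + c'‖ ≤ m + (δ ^ 2 - m) / 3 := by
    have := hval η₁ 1 n1 (f1 i) (by rw [w1, one_smul])
    rw [mul_one] at this
    linarith [le_max_left (‖π z η₁‖ ^ 2) (‖π z η₂‖ ^ 2)]
  have hbound : ‖(c • (1 : D) + c' • p.w) * p.g i‖ ≤ m + (δ ^ 2 - m) / 3 := by
    rcases w2 with w2 | w2
    · rw [hexp, w2, one_mul, ← add_smul, norm_smul]
      exact (mul_le_of_le_one_right (norm_nonneg _) hgp.norm_le).trans v1
    · have v2 : ‖c - c'‖ ≤ m + (δ ^ 2 - m) / 3 := by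
        have := hval η₂ (-1) n2 (f2 i) (by rw [w2, neg_one_smul])
        rw [mul_neg_one, ← sub_eq_add_neg] at this
        linarith [le_max_right (‖π z η₁‖ ^ 2) (‖π z η₂‖ ^ 2)]
      have hgg : p.g i * p.g i = p.g i := hgp.isIdempotentElem.eq
      have hwg : p.g i * p.w = p.w * p.g i := (p.w_g i).eq.symm
      have hww : p.w * (p.w * p.g i) = p.g i := by
        have k := (dec_mul p.g_proj p.g_dec (Nat.zero_le i)).1
        calc p.w * (p.w * p.g i) = p.w * (p.w * (p.g 0 * p.g i)) := by rw [k]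
          _ = (p.w * p.w * p.g 0) * p.g i := by simp only [mul_assoc]
          _ = p.g i := by rw [p.w_sq, k]
      set v : D := p.w * p.g i with hv
      have gv : p.g i * v = v := by rw [hv, ← mul_assoc, hwg, mul_assoc, hgg]
      have vg : v * p.g i = v := by rw [hv, mul_assoc, hgg]
      have vv : v * v = p.g i := by
        calc v * v = p.w * (p.g i * v) := by rw [hv, mul_assoc]
          _ = p.g i := by rw [gv, hv, hww]
      have vs : star v = v := by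
        rw [hv, star_mul, p.w_sa.star_eq, hgp.isSelfAdjoint.star_eq, hwg]
      have hs2 : star (2⁻¹ : ℂ) = 2⁻¹ := by simp
      have pp : IsStarProjection ((2⁻¹ : ℂ) • (p.g i + v)) := by
        constructor
        · show (2⁻¹ : ℂ) • (p.g i + v) * (2⁻¹ : ℂ) • (p.g i + v) = (2⁻¹ : ℂ) • (p.g i + v)
          rw [smul_mul_smul_comm, add_mul, mul_add, mul_add, hgg, gv, vg, vv]
          module
        · show star ((2⁻¹ : ℂ) • (p.g i + v)) = (2⁻¹ : ℂ) • (p.g i + v)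
          rw [star_smul, star_add, hs2, vs, hgp.isSelfAdjoint.star_eq]
      have pm : IsStarProjection ((2⁻¹ : ℂ) • (p.g i - v)) := by
        constructor
        · show (2⁻¹ : ℂ) • (p.g i - v) * (2⁻¹ : ℂ) • (p.g i - v) = (2⁻¹ : ℂ) • (p.g i - v)
          rw [smul_mul_smul_comm, sub_mul, mul_sub, mul_sub, hgg, gv, vg, vv]
          module
        · show star ((2⁻¹ : ℂ) • (p.g i - v)) = (2⁻¹ : ℂ) • (p.g i - v)
          rw [star_smul, star_sub, hs2, vs, hgp.isSelfAdjoint.star_eq]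
      have p0 : (2⁻¹ : ℂ) • (p.g i + v) * (2⁻¹ : ℂ) • (p.g i - v) = 0 := by
        rw [smul_mul_smul_comm, add_mul, mul_sub, mul_sub, hgg, gv, vg, vv]
        module
      have hdec : c • p.g i + c' • v =
          (c + c') • ((2⁻¹ : ℂ) • (p.g i + v)) + (c - c') • ((2⁻¹ : ℂ) • (p.g i - v)) := by
        module
      rw [hexp, hdec]
      refine norm_add_orth pp pm p0 ?_ ?_ ?_ ?_ ?_ ?_
      · rw [mul_smul_comm (c + c'), pp.isIdempotentElem.eq]
      · rw [smul_mul_assoc (c + c'), pp.isIdempotentElem.eq]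
      · rw [mul_smul_comm (c - c'), pm.isIdempotentElem.eq]
      · rw [smul_mul_assoc (c - c'), pm.isIdempotentElem.eq]
      · rw [norm_smul (c + c')]
        exact (mul_le_of_le_one_right (norm_nonneg _) pp.norm_le).trans v1
      · rw [norm_smul (c - c')]
        exact (mul_le_of_le_one_right (norm_nonneg _) pm.norm_le).trans v2
  have h1 : ‖z * p.g i‖ ^ 2 = ‖p.g i * (star z * z) * p.g i‖ := by
    have k : p.g i * (star z * z) * p.g i = star (z * p.g i) * (z * p.g i) := by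
      rw [star_mul, hgp.isSelfAdjoint.star_eq]
      simp only [mul_assoc]
    rw [k, CStarRing.norm_star_mul_self, sq]
  have h2 : δ ^ 2 ≤ ‖z * p.g i‖ ^ 2 := by
    gcongr
    exact hδ i
  have h3 := norm_sub_norm_le (p.g i * (star z * z) * p.g i) ((c • (1 : D) + c' • p.w) * p.g i)
  linarith

theorem Seen.transfer (hπ : IsRep T π) {γ γ' : Germ T} (h : Seen T π γ.g) (ho : Overlap γ' γ) :
    ∃ η : H, η ≠ 0 ∧ ∀ i, π (γ'.g i) η = η := by
  obtain ⟨η₁, η₂, n1, n2, f1, f2, hs⟩ := h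
  obtain ⟨n, a, ha, δ, hδ, hov⟩ := ho
  have haB : a ∈ T.B n := T.A_le_B n ha
  have hg'B : ∀ i, γ'.g i ∈ T.B (γ'.N i) := fun i => T.A_le_B _ (γ'.g_mem i)
  have h1 : ∀ j, δ ≤ ‖π (γ'.g j) (π a η₁)‖ ∨ δ ≤ ‖π (γ'.g j) (π a η₂)‖ := by
    intro j
    have hz : γ'.g j * a ∈ T.A (max (γ'.N j) n) :=
      mul_mem (T.A_mono (le_max_left _ _) (γ'.g_mem j)) (T.A_mono (le_max_right _ _) ha)
    have h2 := hs _ _ hz δ fun i => (hov (max i j)).trans
      (Ov_anti γ'.g_proj γ.g_proj γ'.g_succ γ.g_succ a (le_max_right _ _) (le_max_left _ _))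
    rwa [hπ.mul_apply (hg'B j) haB, hπ.mul_apply (hg'B j) haB] at h2
  have hanti : ∀ (ξ : H) {j k : ℕ}, j ≤ k → ‖π (γ'.g k) ξ‖ ≤ ‖π (γ'.g j) ξ‖ := by
    intro ξ j k hjk
    have h2 : π (γ'.g k) ξ = π (γ'.g k) (π (γ'.g j) ξ) := by
      rw [← hπ.mul_apply (hg'B k) (hg'B j), (dec_mul γ'.g_proj γ'.g_succ hjk).2]
    rw [h2]
    exact proj_norm_le ((hπ _).proj (hg'B k) (γ'.g_proj k)) _
  have h3 : (∀ j, δ ≤ ‖π (γ'.g j) (π a η₁)‖) ∨ ∀ j, δ ≤ ‖π (γ'.g j) (π a η₂)‖ := by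
    by_contra hcon
    push Not at hcon
    obtain ⟨⟨j1, hj1⟩, ⟨j2, hj2⟩⟩ := hcon
    rcases h1 (max j1 j2) with h4 | h4
    · linarith [hanti (π a η₁) (le_max_left j1 j2)]
    · linarith [hanti (π a η₂) (le_max_right j1 j2)]
  rcases h3 with h3 | h3
  · obtain ⟨η, h0, hf, -⟩ := lim_fix hπ hg'B γ'.g_proj γ'.g_succ hδ h3
    exact ⟨η, h0, hf⟩
  · obtain ⟨η, h0, hf, -⟩ := lim_fix hπ hg'B γ'.g_proj γ'.g_succ hδ h3
    exact ⟨η, h0, hf⟩

theorem Overlap.symm {γ γ' : Germ T} (h : Overlap γ' γ) : Overlap γ γ' := by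
  obtain ⟨n, a, ha, δ, hδ, hov⟩ := h
  refine ⟨n, star a, star_mem ha, δ, hδ, fun i => ?_⟩
  have h1 : γ.g i * star a * γ'.g i = star (γ'.g i * a * γ.g i) := by
    rw [star_mul, star_mul, (γ.g_proj i).isSelfAdjoint.star_eq,
      (γ'.g_proj i).isSelfAdjoint.star_eq, mul_assoc]
  rw [h1, norm_star]
  exact hov i

theorem orth_of_not_overlap (hπ : IsRep T π) {γ γ' : Germ T} (h : ¬ Overlap γ' γ) {η η' : H}
    (hη : ∀ i, π (γ.g i) η = η) (hη' : ∀ i, π (γ'.g i) η' = η') {n : ℕ} {a : D}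
    (ha : a ∈ T.A n) : ⟪η', π a η⟫_ℂ = 0 := by
  have haB : a ∈ T.B n := T.A_le_B n ha
  have hgB : ∀ i, γ.g i ∈ T.B (γ.N i) := fun i => T.A_le_B _ (γ.g_mem i)
  have hg'B : ∀ i, γ'.g i ∈ T.B (γ'.N i) := fun i => T.A_le_B _ (γ'.g_mem i)
  have hno : ¬ ∃ δ : ℝ, 0 < δ ∧ ∀ i, δ ≤ ‖γ'.g i * a * γ.g i‖ := fun hh => h ⟨n, a, ha, hh⟩
  refine Ov_zero (M := ‖η'‖ * ‖η‖) (by positivity) fun ε hε => ?_
  obtain ⟨i, hi⟩ :=
    (small_of_not γ'.g γ.g γ'.g_proj γ.g_proj γ'.g_succ γ.g_succ a hno hε).exists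
  have hm : γ'.g i * a * γ.g i ∈ T.B (max (max (γ'.N i) n) (γ.N i)) :=
    mul_mem (mul_mem (T.B_mono ((le_max_left _ _).trans (le_max_left _ _)) (hg'B i))
      (T.B_mono ((le_max_right _ _).trans (le_max_left _ _)) haB))
      (T.B_mono (le_max_right _ _) (hgB i))
  rw [← Ov_sandwich hπ (hgB i) (hg'B i) haB (γ'.g_proj i) (hη i) (hη' i)]
  refine (Ov_inner_le hπ hm η' η).trans ?_
  gcongr

theorem exists_maxFam (T : Tower D) : ∃ Γ : Set (Germ T), MaxFam Γ := by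
  obtain ⟨Γ, hΓ⟩ := zorn_subset
    {Γ : Set (Germ T) | ∀ γ ∈ Γ, ∀ γ' ∈ Γ, γ ≠ γ' → ¬ Overlap γ' γ} (by
      intro c hc hch
      refine ⟨⋃₀ c, ?_, fun s hs => Set.subset_sUnion_of_mem hs⟩
      rintro γ ⟨s, hs, h1⟩ γ' ⟨s', hs', h2⟩ hne
      rcases hch.total hs hs' with h3 | h3
      · exact hc hs' γ (h3 h1) γ' h2 hne
      · exact hc hs γ h1 γ' (h3 h2) hne)
  refine ⟨Γ, hΓ.prop, fun γ => ?_⟩
  by_contra hcon
  push Not at hcon
  obtain ⟨h1, h2⟩ := hcon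
  have h3 : insert γ Γ ∈
      {Γ : Set (Germ T) | ∀ γ ∈ Γ, ∀ γ' ∈ Γ, γ ≠ γ' → ¬ Overlap γ' γ} := by
    intro x hx y hy hne
    rcases hx with rfl | hx
    · rcases hy with rfl | hy
      · exact absurd rfl hne
      · exact h2 y hy
    · rcases hy with rfl | hy
      · exact fun ho => h2 x hx ho.symm
      · exact hΓ.prop x hx y hy hne
  exact h1 (hΓ.le_of_ge h3 (Set.subset_insert γ Γ) (Set.mem_insert γ Γ))

end Pool.Agent.P.MP_5d580a_an.Ng
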