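import Pool.Agent.P.MP_5d580a_an.N.Z0

open scoped ComplexOrder InnerProductSpace ComplexConjugate
open Filter Topology

set_option linter.unusedSectionVars false
set_option linter.unusedVariables false
set_option linter.deprecated false

noncomputable section

namespace Pool.Agent.P.MP_5d580a_an.Ng

variable {D C : Type} [CStarAlgebra D] [CStarAlgebra C]
variable {H : Type} [NormedAddCommGroup H] [InnerProductSpace ℂ H] [CompleteSpace H]
variable {L : Type} [NormedAddCommGroup L] [InnerProductSpace ℂ L] [CompleteSpace L]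

variable {P r : H →L[ℂ] H} {𝒪 : Set (H →L[ℂ] H)}

theorem Z_Pr (h : ZSet P r 𝒪) : P * r = r := by
  have := congrArg star h.r_P
  rwa [star_mul, h.r_sa.star_eq, h.P_proj.isSelfAdjoint.star_eq] at this

theorem Z_schur (h : ZSet P r 𝒪) (hi : Irr (insert r 𝒪) (Fix1 P)) {y : H →L[ℂ] H}
    (hc : ∀ x ∈ 𝒪, y * x = x * y) (hr : y * r = r * y) (hP : y * P = y) :
    ∃ c : ℂ, y = c • P := by
  have hP' : P * y = y := by rw [← hc P h.P_mem, hP]
  have hP'' : P * star y = star y := by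
    have := congrArg star hP
    rwa [star_mul, h.P_proj.isSelfAdjoint.star_eq] at this
  have fx : ∀ {z : H →L[ℂ] H}, P * z = z → ∀ η, z η ∈ Fix1 P := fun {z} hz η =>
    congrArg (fun T : H →L[ℂ] H => T η) hz
  obtain ⟨c, hc⟩ := schur (𝒮 := insert r 𝒪) (y := y) (isClosed_Fix1 P)
    (by
      rintro x (rfl | hx)
      · rw [h.r_sa.star_eq]; exact Set.mem_insert _ _
      · exact Set.mem_insert_of_mem _ (h.star x hx))
    (by
      rintro x (rfl | hx) η _
      · exact fx (Z_Pr h) η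
      · exact fx (h.left x hx) η)
    hi (fun η _ => fx hP' η) (fun η _ => fx hP'' η)
    (by
      rintro x (rfl | hx) η _
      · exact congrArg (fun T : H →L[ℂ] H => T η) hr
      · exact congrArg (fun T : H →L[ℂ] H => T η) (hc x hx))
  refine ⟨c, ContinuousLinearMap.ext fun η => ?_⟩
  rw [← hP]
  exact hc _ (prj_mem h.P_proj η)

theorem Z_avg (h : ZSet P r 𝒪) (hi : Irr (insert r 𝒪) (Fix1 P)) {u : H →L[ℂ] H}
    (hc : ∀ x ∈ 𝒪, u * x = x * u) (hP : u * P = u) : ∃ c : ℂ, u + r * u * r = c • P := by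
  have hP' : P * u = u := by rw [← hc P h.P_mem, hP]
  refine Z_schur h hi (fun x hx => ?_) ?_ ?_
  · have h1 : r * u * r * x = x * (r * u * r) := by
      calc r * u * r * x = r * u * r * (x * (r * r)) := by rw [h.r_sq, h.right x hx]
        _ = r * (u * (r * x * r)) * r := by simp only [mul_assoc]
        _ = (r * r) * x * (r * u * r) := by rw [hc _ (h.cj x hx)]; simp only [mul_assoc]
        _ = x * (r * u * r) := by rw [h.r_sq, h.left x hx]
    rw [add_mul, mul_add, hc x hx, h1]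
  · calc (u + r * u * r) * r = u * r + r * (u * (r * r)) := by simp only [add_mul, mul_assoc]
      _ = r * u + (r * r) * u * r := by rw [h.r_sq, hP, hP', add_comm]
      _ = r * (u + r * u * r) := by simp only [mul_add, mul_assoc]
  · rw [add_mul, hP, mul_assoc, h.r_P]

theorem Z_key (h : ZSet P r 𝒪) (hi : Irr (insert r 𝒪) (Fix1 P)) {W : Submodule ℂ H}
    (hW : IsClosed (W : Set H)) (hle : W ≤ Fix1 P) (hinv : Inv 𝒪 W) (h0 : W ≠ ⊥)
    (h1 : W ≠ Fix1 P) :
    ∃ G : H →L[ℂ] H, IsStarProjection G ∧ Fix1 G = W ∧ (∀ x ∈ 𝒪, G * x = x * G) ∧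
      G * P = G ∧ P * G = G ∧ r * G * r = P - G := by
  obtain ⟨G, hG, rfl⟩ := exists_prj W hW
  have hc : ∀ x ∈ 𝒪, G * x = x * G := fun x hx =>
    (commute_prj hG (hinv x hx) (hinv _ (h.star x hx))).eq.symm
  have hPG : P * G = G := ContinuousLinearMap.ext fun η => hle (prj_mem hG η)
  have hGP : G * P = G := by rw [hc P h.P_mem, hPG]
  have hGG : G * G = G := hG.isIdempotentElem.eq
  have hPP : P * P = P := h.P_proj.isIdempotentElem.eq
  refine ⟨G, hG, rfl, hc, hGP, hPG, ?_⟩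
  obtain ⟨c, hcc⟩ := Z_avg h hi hc hGP
  have e1 : r * G * r = c • P - G := by rw [← hcc, add_sub_cancel_left]
  have e2 : r * G * r * (r * G * r) = r * G * r := by
    calc r * G * r * (r * G * r) = r * (G * (r * r) * G) * r := by simp only [mul_assoc]
      _ = r * G * r := by rw [h.r_sq, hGP, hGG]
  rw [e1] at e2
  simp only [sub_mul, mul_sub, smul_mul_assoc, mul_smul_comm, hPP, hPG, hGP, hGG] at e2
  by_cases hc1 : c = 1
  · rw [e1, hc1, one_smul]
  exfalso
  have e3 : (c - 1) • (c • P - (2 : ℂ) • G) = 0 := by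
    linear_combination (norm := module) e2
  have e4 : c • P = (2 : ℂ) • G :=
    sub_eq_zero.1 ((smul_eq_zero.1 e3).resolve_left (sub_ne_zero.2 hc1))
  have e5 : (c - 2) • G = 0 := by
    have := congrArg (· * G) e4
    simp only [smul_mul_assoc, hPG, hGG] at this
    rw [sub_smul, this, sub_self]
  rcases smul_eq_zero.1 e5 with e6 | e6
  · rw [sub_eq_zero.1 e6] at e4
    exact h1 (by rw [smul_right_injective _ (two_ne_zero (α := ℂ)) e4])
  · refine h0 ((Submodule.eq_bot_iff _).2 fun η hη => ?_)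
    rw [← mem_Fix1.1 hη, e6]; rfl

theorem Z_irr (h : ZSet P r 𝒪) (hi : Irr (insert r 𝒪) (Fix1 P)) {W : Submodule ℂ H}
    (hW : IsClosed (W : Set H)) (hle : W ≤ Fix1 P) (hinv : Inv 𝒪 W) (h0 : W ≠ ⊥)
    (h1 : W ≠ Fix1 P) : Irr 𝒪 W := by
  intro W' hW' hle' hinv'
  by_cases h0' : W' = ⊥
  · exact Or.inl h0'
  right
  obtain ⟨G, hG, rfl, -, hGP, hPG, hr⟩ := Z_key h hi hW hle hinv h0 h1
  obtain ⟨G', hG', rfl, -, hGP', hPG', hr'⟩ := Z_key h hi hW' (hle'.trans hle) hinv' h0'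
    fun e => h1 (le_antisymm hle (e ▸ hle'))
  have a1 : G * G' = G' := ContinuousLinearMap.ext fun η => hle' (prj_mem hG' η)
  have a2 : G' * G = G' := by
    have := congrArg star a1
    rwa [star_mul, hG.isSelfAdjoint.star_eq, hG'.isSelfAdjoint.star_eq] at this
  have a3 : (G - G') * (G - G') = G - G' := by
    simp only [sub_mul, mul_sub, a1, a2, hG.isIdempotentElem.eq, hG'.isIdempotentElem.eq]
    abel
  have a4 : r * (G - G') * r = -(G - G') := by
    rw [mul_sub, sub_mul, hr, hr']; abel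
  have a5 : r * (G - G') * r * (r * (G - G') * r) = r * (G - G') * r := by
    calc r * (G - G') * r * (r * (G - G') * r)
        = r * ((G - G') * (r * r) * (G - G')) * r := by simp only [mul_assoc]
      _ = r * (G - G') * r := by rw [h.r_sq, sub_mul G G' P, hGP, hGP', a3]
  rw [a4, neg_mul_neg, a3] at a5
  have a6 : (2 : ℂ) • (G - G') = 0 := by rw [two_smul]; exact add_eq_zero_iff_eq_neg.2 a5
  rw [sub_eq_zero.1 ((smul_eq_zero.1 a6).resolve_left two_ne_zero)]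

theorem Z_disj (h : ZSet P r 𝒪) (hi : Irr (insert r 𝒪) (Fix1 P)) {W : Submodule ℂ H}
    (hW : IsClosed (W : Set H)) (hle : W ≤ Fix1 P) (hinv : Inv 𝒪 W) (h0 : W ≠ ⊥)
    (h1 : W ≠ Fix1 P) :
    ∀ η ∈ W, ∀ η' ∈ W, (∀ x ∈ 𝒪, ⟪η, x η⟫_ℂ = ⟪r η', x (r η')⟫_ℂ) → η = 0 := by
  intro η hη η' hη' he
  obtain ⟨G, hG, rfl, -, hGP, hPG, hr⟩ := Z_key h hi hW hle hinv h0 h1
  have hPr : ∀ ζ, P (r ζ) = r ζ := fun ζ => congrArg (fun T : H →L[ℂ] H => T ζ) (Z_Pr h)
  have hPη : P η = η := hle hη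
  have a1 : G * r * G = 0 := by
    calc G * r * G = (r * r) * G * r * G := by rw [h.r_sq, hPG]
      _ = r * ((r * G * r) * G) := by simp only [mul_assoc]
      _ = 0 := by rw [hr, sub_mul, hPG, hG.isIdempotentElem.eq, sub_self, mul_zero]
  have a2 : ∀ ζ ∈ Fix1 G, G (r ζ) = 0 := fun ζ hζ => by
    rw [← mem_Fix1.1 hζ]
    exact congrArg (fun T : H →L[ℂ] H => T ζ) a1
  obtain ⟨U, hU, hU1, hU2⟩ := h.state hPη (hPr η') he
  obtain ⟨c, hc⟩ := Z_avg h hi (u := U * P)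
    (fun x hx => by rw [mul_assoc, h.left x hx, ← mul_assoc, ← (hU x hx).eq, mul_assoc,
      h.right x hx])
    (by rw [mul_assoc, h.P_proj.isIdempotentElem.eq])
  have a3 : U (r η) = 0 := hU2 _ fun x hx => by
    rw [← mem_Fix1.1 (hinv x hx η hη), ← inner_star_right, hG.isSelfAdjoint.star_eq, a2 η hη,
      inner_zero_right]
  have a4 : U (P η) + r (U (P (r η))) = c • P η := congrArg (fun T : H →L[ℂ] H => T η) hc
  rw [hPη, hPr, a3, map_zero, add_zero, hU1] at a4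
  have a5 : r η' = 0 := by
    have := a2 η' hη'
    rwa [a4, map_smul, mem_Fix1.1 hη, ← a4] at this
  have a6 := he P h.P_mem
  rw [a5, inner_zero_left, hPη] at a6
  exact inner_self_eq_zero.1 a6

theorem Z_ex (hn : ¬ Irr 𝒪 (Fix1 P)) : ∃ W : Submodule ℂ H, IsClosed (W : Set H) ∧
    W ≤ Fix1 P ∧ Inv 𝒪 W ∧ W ≠ ⊥ ∧ W ≠ Fix1 P := by
  by_contra hc
  refine hn fun W h1 h2 h3 => ?_
  by_contra h4
  exact hc ⟨W, h1, h2, h3, fun e => h4 (Or.inl e), fun e => h4 (Or.inr e)⟩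

/-- second case: there is a nonzero odd selfadjoint element -/
theorem ZSet.odd (h : ZSet P r 𝒪) (hi : Irr (insert r 𝒪) (Fix1 P)) (hn : ¬ Irr 𝒪 (Fix1 P)) :
    ∃ x ∈ 𝒪, x ≠ 0 ∧ IsSelfAdjoint x ∧ r * x = -(x * r) := by
  by_contra hc
  have hz : ∀ x ∈ 𝒪, IsSelfAdjoint x → r * x = -(x * r) → x = 0 := fun x hx h1 h2 => by
    by_contra h3
    exact hc ⟨x, hx, h3, h1, h2⟩
  have hsub : ∀ x ∈ 𝒪, ∀ y ∈ 𝒪, x - y ∈ 𝒪 := fun x hx y hy => by
    have := h.add x hx _ (h.smul (-1) y hy)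
    rwa [neg_one_smul, ← sub_eq_add_neg] at this
  have hz' : ∀ z ∈ 𝒪, r * z = -(z * r) → z = 0 := fun z hz1 h2 => by
    have h3 : r * Star.star z = -(Star.star z * r) := by
      have := congrArg Star.star h2
      rw [star_neg, star_mul, star_mul, h.r_sa.star_eq] at this
      rw [this, neg_neg]
    have h4 : z + Star.star z = 0 := hz _ (h.add _ hz1 _ (h.star _ hz1)) (IsSelfAdjoint.add_star_self z)
      (by rw [mul_add, add_mul, h2, h3, neg_add])
    have h5 : Complex.I • (z - Star.star z) = 0 := hz _ (h.smul _ _ (hsub _ hz1 _ (h.star _ hz1)))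
      (by
        rw [IsSelfAdjoint, star_smul, star_sub, star_star, Complex.star_def, Complex.conj_I,
          neg_smul, ← smul_neg, neg_sub])
      (by rw [mul_smul_comm, smul_mul_assoc, mul_sub, sub_mul, h2, h3, ← smul_neg, neg_sub_neg,
        neg_sub])
    have h6 := sub_eq_zero.1 ((smul_eq_zero.1 h5).resolve_left Complex.I_ne_zero)
    rw [← h6, ← two_smul ℂ] at h4
    exact (smul_eq_zero.1 h4).resolve_left two_ne_zero
  have hr : ∀ x ∈ 𝒪, r * x = x * r := fun x hx => by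
    have a1 : r * (x - r * x * r) = r * x - x * r := by
      rw [mul_sub, ← mul_assoc, ← mul_assoc, h.r_sq, h.left x hx]
    have a2 : (x - r * x * r) * r = x * r - r * x := by
      rw [sub_mul, mul_assoc (r * x), h.r_sq, mul_assoc, h.right x hx]
    have a3 := hz' _ (hsub _ hx _ (h.cj x hx)) (by rw [a1, a2, neg_sub])
    rw [a3, mul_zero] at a1
    exact sub_eq_zero.1 a1.symm
  obtain ⟨c, hcc⟩ := Z_schur h hi hr rfl h.r_P
  refine hn fun W h1 h2 h3 => hi W h1 h2 ?_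
  rintro x (rfl | hx) η hη
  · have : x η = c • P η := congrArg (fun T : H →L[ℂ] H => T η) hcc
    rw [this, mem_Fix1.1 (h2 hη)]
    exact W.smul_mem c hη
  · exact h3 x hx η hη

/-- second case: the space splits in two disjoint irreducible halves exchanged by `r` -/
theorem ZSet.half (h : ZSet P r 𝒪) (hi : Irr (insert r 𝒪) (Fix1 P)) (hn : ¬ Irr 𝒪 (Fix1 P))
    {x₀ : H →L[ℂ] H} (hx : x₀ ∈ 𝒪) (hx0 : x₀ ≠ 0) :
    ∃ W : Submodule ℂ H, IsClosed (W : Set H) ∧ W ≤ Fix1 P ∧ Inv 𝒪 W ∧ Irr 𝒪 W ∧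
      (∃ η ∈ W, x₀ η ≠ 0) ∧
      ∀ η ∈ W, ∀ η' ∈ W, (∀ x ∈ 𝒪, ⟪η, x η⟫_ℂ = ⟪r η', x (r η')⟫_ℂ) → η = 0 := by
  obtain ⟨W, hW, hle, hinv, h0, h1⟩ := Z_ex hn
  by_cases hex : ∃ η ∈ W, x₀ η ≠ 0
  · exact ⟨W, hW, hle, hinv, Z_irr h hi hW hle hinv h0 h1, hex, Z_disj h hi hW hle hinv h0 h1⟩
  obtain ⟨G, hG, rfl, hc, hGP, hPG, hr⟩ := Z_key h hi hW hle hinv h0 h1
  have a0 : x₀ * G = 0 := ContinuousLinearMap.ext fun η => by
    by_contra h2
    exact hex ⟨G η, prj_mem hG η, h2⟩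
  have hG' : IsStarProjection (P - G) := hG.sub_of_mul_eq_left h.P_proj hGP
  have hle' : Fix1 (P - G) ≤ Fix1 P := fun η hη => by
    have : P * (P - G) = P - G := by rw [mul_sub, hPG, h.P_proj.isIdempotentElem.eq]
    have h3 : P ((P - G) η) = (P - G) η := congrArg (fun T : H →L[ℂ] H => T η) this
    rwa [mem_Fix1.1 hη] at h3
  have hinv' : Inv 𝒪 (Fix1 (P - G)) := fun x hx' η hη => by
    have : (P - G) * x = x * (P - G) := by
      rw [sub_mul, mul_sub, hc x hx', h.left x hx', h.right x hx']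
    have h3 : (P - G) (x η) = x ((P - G) η) := congrArg (fun T : H →L[ℂ] H => T η) this
    rwa [mem_Fix1.1 hη] at h3
  have hex' : ∃ η ∈ Fix1 (P - G), x₀ η ≠ 0 := by
    by_contra h2
    refine hx0 (ContinuousLinearMap.ext fun η => ?_)
    have : x₀ * (P - G) = x₀ := by rw [mul_sub, a0, sub_zero, h.right x₀ hx]
    rw [← this]
    by_contra h3
    exact h2 ⟨(P - G) η, prj_mem hG' η, h3⟩
  have h0' : Fix1 (P - G) ≠ ⊥ := fun e => by
    obtain ⟨η, h2, h3⟩ := hex'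
    rw [e, Submodule.mem_bot] at h2
    exact h3 (by rw [h2, map_zero])
  have h1' : Fix1 (P - G) ≠ Fix1 P := fun e => by
    refine h0 ((Submodule.eq_bot_iff _).2 fun η hη => ?_)
    have h2 : η ∈ Fix1 (P - G) := e ▸ hle hη
    have h3 : P η - G η = η := h2
    rw [mem_Fix1.1 hη, mem_Fix1.1 (hle hη), sub_self] at h3
    exact h3.symm
  have hW' := isClosed_Fix1 (P - G)
  exact ⟨_, hW', hle', hinv', Z_irr h hi hW' hle' hinv' h0' h1', hex',
    Z_disj h hi hW' hle' hinv' h0' h1'⟩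

end Pool.Agent.P.MP_5d580a_an.Ng
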