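import Pool.Agent.P.MP_5d580a_an.N.Bk
import Pool.Agent.P.MP_5d580a_an.N.Z
import Pool.Agent.P.MP_5d580a_an.N.Ex2
import Pool.Agent.P.MP_5d580a_an.N.Ov

open scoped ComplexOrder InnerProductSpace ComplexConjugate
open Filter Topology

set_option linter.unusedSectionVars false
set_option linter.unusedVariables false
set_option linter.deprecated false

noncomputable section

namespace Pool.Agent.P.MP_5d580a_an.Ng

variable {D C : Type} [CStarAlgebra D] [CStarAlgebra C]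
variable {H : Type} [NormedAddCommGroup H] [InnerProductSpace ℂ H] [CompleteSpace H]
variable {L : Type} [NormedAddCommGroup L] [InnerProductSpace ℂ L] [CompleteSpace L]

variable {T : Tower D} {π : D →ₗ[ℂ] (H →L[ℂ] H)}

namespace Ty1Aux

theorem U_even (b : Blk T) {i M : ℕ} (hM : i ≤ M) {a : D} (ha : a ∈ T.A (b.N i)) {s : ℂ}
    (h : a * b.U i = s • (b.U i * a)) : a * b.U M = s • (b.U M * a) := by
  obtain ⟨k, rfl⟩ := Nat.exists_eq_add_of_le hM
  have hc := (b.shift_U_comm i k ha).eq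
  rw [b.U_add, ← mul_assoc, h, smul_mul_assoc, mul_assoc, mul_assoc, hc]

theorem o_dec (b : Blk T) (i : ℕ) : b.o i * b.o (i + 1) = b.o (i + 1) := by
  show b.o i * (b.o i * b.e i) = b.o i * b.e i
  rw [← mul_assoc, (b.o_proj i).isIdempotentElem.eq]

theorem st_mem (b : Blk T) {i : ℕ} {x : D} (hx : x ∈ corner (T.A (b.N i)) (b.o i) 1) :
    star x ∈ corner (T.A (b.N i)) (b.o i) 1 := by
  obtain ⟨h1, h2, h3, -⟩ := hx
  have ho := (b.o_proj i).isSelfAdjoint.star_eq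
  refine ⟨star_mem h1, ?_, ?_, by rw [mul_one, one_mul]⟩
  · rw [← ho, ← star_mul, h3]
  · rw [← ho, ← star_mul, h2]

/-- the even part -/
theorem ev_mem (b : Blk T) {i : ℕ} {x : D} (hx : x ∈ corner (T.A (b.N i)) (b.o i) 1) :
    (2⁻¹ : ℂ) • (x + b.U i * x * b.U i) ∈ corner (T.A (b.N i)) (b.o i) (b.U i) := by
  have hm := Submodule.smul_mem _ (2⁻¹ : ℂ) (Submodule.add_mem _ hx (b.tw_mem hx))
  obtain ⟨h1, h2, h3, -⟩ := hm
  refine ⟨h1, h2, h3, ?_⟩
  rw [smul_mul_assoc, mul_smul_comm, add_mul, mul_add, mul_assoc _ (b.U i) (b.U i), b.U_sq,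
    mul_assoc _ x (b.o i), hx.2.2.1, ← mul_assoc (b.U i) _ (b.U i), ← mul_assoc (b.U i) (b.U i),
    b.U_sq, hx.2.1, add_comm]

/-- the odd part -/
theorem od_mem (b : Blk T) {i : ℕ} {x : D} (hx : x ∈ corner (T.A (b.N i)) (b.o i) 1) :
    (2⁻¹ : ℂ) • (x - b.U i * x * b.U i) ∈ corner (T.A (b.N i)) (b.o i) 1 ∧
      (2⁻¹ : ℂ) • (x - b.U i * x * b.U i) * b.U i =
        (-1 : ℂ) • (b.U i * (2⁻¹ : ℂ) • (x - b.U i * x * b.U i)) := by
  refine ⟨Submodule.smul_mem _ (2⁻¹ : ℂ) (Submodule.sub_mem _ hx (b.tw_mem hx)), ?_⟩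
  rw [smul_mul_assoc, mul_smul_comm, sub_mul, mul_sub, mul_assoc _ (b.U i) (b.U i), b.U_sq,
    mul_assoc _ x (b.o i), hx.2.2.1, ← mul_assoc (b.U i) _ (b.U i), ← mul_assoc (b.U i) (b.U i),
    b.U_sq, hx.2.1, smul_comm, neg_one_smul, neg_sub]

theorem ev_add_od (x y : D) : (2⁻¹ : ℂ) • (x + y) + (2⁻¹ : ℂ) • (x - y) = x := by
  rw [← smul_add, add_add_sub_cancel, ← two_smul ℂ x, smul_smul]
  norm_num

theorem tw_sign {b : Blk T} {P r : H →L[ℂ] H} (h : RData b π P r) {i : ℕ} {x : D}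
    (hx : x ∈ corner (T.A (b.N i)) (b.o i) 1) {s : ℂ} (hs : x * b.U i = s • (b.U i * x)) :
    r * (π x * P) = s • (π x * P * r) := by
  have h1 := h.tw i x hx
  have h2 : b.U i * x * b.U i = s • x := by
    rw [mul_assoc, hs, mul_smul_comm, ← mul_assoc, b.U_sq, hx.2.1]
  have h3 : π x * P * P = π x * P := h.z.right _ ⟨i, x, hx, rfl⟩
  rw [h2, map_smul, smul_mul_assoc] at h1
  calc r * (π x * P) = r * (π x * P) * r * r := by
        rw [mul_assoc _ r r, h.z.r_sq, mul_assoc r, h3]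
    _ = s • (π x * P * r) := by rw [h1, smul_mul_assoc]

theorem P_r {P r : H →L[ℂ] H} {𝒪 : Set (H →L[ℂ] H)} (h : ZSet P r 𝒪) : P * r = r := by
  have := congrArg star h.r_P
  rwa [star_mul, h.r_sa.star_eq, h.P_proj.isSelfAdjoint.star_eq] at this

theorem fix_P {P r : H →L[ℂ] H} {𝒪 : Set (H →L[ℂ] H)} (h : ZSet P r 𝒪) {c : ℂ} {η : H}
    (hη : η ∈ Fix1 (c • r)) : P η = η := by
  have h1 : c • r η = η := hη
  have h2 : P (r η) = r η := by
    have := congrArg (fun y : H →L[ℂ] H => y η) (P_r h)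
    simpa using this
  rw [← h1, map_smul, h2]

theorem sign_map {b : Blk T} {P r : H →L[ℂ] H} (h : RData b π P r) {i : ℕ} {x : D}
    (hx : x ∈ corner (T.A (b.N i)) (b.o i) 1) {s : ℂ} (hs : x * b.U i = s • (b.U i * x))
    (hss : s * s = 1) {c : ℂ} {η : H} (hη : η ∈ Fix1 (c • r)) :
    π x η ∈ Fix1 ((s * c) • r) := by
  have h1 := congrArg (fun y : H →L[ℂ] H => y η) (tw_sign h hx hs)
  have hP := fix_P h.z hη
  have h2 : c • r η = η := hη
  have h3 : P (r η) = r η := by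
    have := congrArg (fun y : H →L[ℂ] H => y η) (P_r h.z)
    simpa using this
  simp only [ContinuousLinearMap.mul_apply, ContinuousLinearMap.smul_apply, hP, h3] at h1
  show (s * c) • r (π x η) = π x η
  rw [h1, smul_smul, mul_right_comm, hss, one_mul, ← map_smul, h2]

theorem orth {r : H →L[ℂ] H} (hr : IsSelfAdjoint r) {c : ℂ} (hc : c = 1 ∨ c = -1) {η η' : H}
    (hη : η ∈ Fix1 (c • r)) (hη' : η' ∈ Fix1 ((-1 * c) • r)) : ⟪η, η'⟫_ℂ = 0 := by
  have h1 : c • r η = η := hη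
  have h2 : (-1 * c) • r η' = η' := hη'
  have h3 : ⟪r η, η'⟫_ℂ = ⟪η, r η'⟫_ℂ := by
    rw [← inner_star_left, hr.star_eq]
  have h4 : ⟪η, η'⟫_ℂ = conj c * ⟪r η, η'⟫_ℂ := by rw [← inner_smul_left, h1]
  have h5 : ⟪η, η'⟫_ℂ = (-1 * c) * ⟪η, r η'⟫_ℂ := by rw [← inner_smul_right, h2]
  have h6 : conj c = c := by rcases hc with rfl | rfl <;> simp
  rw [h6, h3] at h4
  linear_combination (h4 + h5) / 2

theorem exset (hπ : IsRep T π) {b : Blk T} {P r : H →L[ℂ] H} (h : RData b π P r) {c : ℂ}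
    (hne : Fix1 (c • r) ≠ ⊥) (hi : Irr {x | x ∈ b.ops π P ∧ r * x = x * r} (Fix1 (c • r))) :
    ExSet T π b.N b.o b.U b.e (Fix1 (c • r)) where
  rep := hπ
  mono := b.mono.monotone
  o_mem i := ⟨b.o_mem i, (b.o_proj i).isIdempotentElem.eq, (b.o_proj i).isIdempotentElem.eq, by
    rw [b.o_U, b.U_o]⟩
  o_proj := b.o_proj
  c_sa := b.U_sa
  e_mem := b.e_mem
  e_proj := b.e_proj
  e_comm i a ha := b.e_comm i ha
  o_succ i := rfl
  succ i x hx := b.even_succ hx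
  closed := isClosed_Fix1 _
  ne := hne
  fix i η hη := b.fix_o hπ (h.fix ▸ fix_P h.z hη) i
  inv := by
    rintro _ ⟨i, x, hx, rfl⟩ η hη
    have := sign_map h (x := x) ⟨hx.1, hx.2.1, hx.2.2.1, by rw [mul_one, one_mul]⟩ (s := 1)
      (by rw [one_smul]; exact hx.2.2.2) (one_mul 1) hη
    rwa [one_mul] at this
  irr := by
    refine Irr.of_agree ?_ hi
    rintro _ ⟨⟨i, x, hx, rfl⟩, hc⟩
    refine ⟨_, ⟨i, _, ev_mem b hx, rfl⟩, fun η hη => ?_⟩
    have h1 := h.tw i x hx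
    have h3 : π x * P * P = π x * P := h.z.right _ ⟨i, x, hx, rfl⟩
    rw [hc, mul_assoc _ r r, h.z.r_sq, h3] at h1
    have h2 := congrArg (fun y : H →L[ℂ] H => y η) h1
    have hP := fix_P h.z hη
    simp only [ContinuousLinearMap.mul_apply, hP] at h2
    rw [ContinuousLinearMap.mul_apply, hP, map_smul, map_add, ContinuousLinearMap.smul_apply,
      ContinuousLinearMap.add_apply, ← h2, ← two_smul ℂ (π x η), smul_smul]
    norm_num

theorem g_cut (b : Blk T) {g : ℕ → D} (hg : ∀ i, g i ∈ corner (T.A (b.N i)) (b.o i) (b.U i))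
    {M k : ℕ} (hk : M ≤ k) (a : D) : g k * (b.o M * a * b.o M) * g k = g k * a * g k := by
  obtain ⟨h1, h2⟩ := dec_mul b.o_proj (o_dec b) hk
  have h3 : g k * b.o M = g k := by rw [← (hg k).2.2.1, mul_assoc, h2]
  have h4 : b.o M * g k = g k := by rw [← (hg k).2.1, ← mul_assoc, h1]
  calc g k * (b.o M * a * b.o M) * g k = (g k * b.o M) * a * (b.o M * g k) := by
        simp only [mul_assoc]
    _ = g k * a * g k := by rw [h3, h4]

/-- excision for all even elements -/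
theorem exc_even (hπ : IsRep T π) (b : Blk T) {g : ℕ → D}
    (hg : ∀ i, g i ∈ corner (T.A (b.N i)) (b.o i) (b.U i)) {η : H}
    (ho : ∀ i, π (b.o i) η = η)
    (hx : ∀ i, ∀ x ∈ corner (T.A (b.N i)) (b.o i) (b.U i), ∀ ε : ℝ, 0 < ε → ∀ᶠ j in atTop,
        ‖g j * x * g j - ⟪η, π x η⟫_ℂ • g j‖ ≤ ε)
    {M : ℕ} {a : D} (ha : a ∈ T.A (b.N M)) (hc : a * b.U M = b.U M * a) {ε : ℝ} (hε : 0 < ε) :
    ∀ᶠ j in atTop, ‖g j * a * g j - ⟪η, π a η⟫_ℂ • g j‖ ≤ ε := by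
  have h0 := b.cut_mem ha
  have h1 : b.o M * a * b.o M ∈ corner (T.A (b.N M)) (b.o M) (b.U M) := by
    refine ⟨h0.1, h0.2.1, h0.2.2.1, ?_⟩
    rw [mul_assoc _ (b.o M), b.o_U, mul_assoc, hc, ← mul_assoc, b.o_U, ← mul_assoc, ← mul_assoc,
      b.U_o, ← hc, mul_assoc, b.U_o]
  have hoB := T.A_le_B _ (b.o_mem M)
  have haB := T.A_le_B _ ha
  have h2 : ⟪η, π (b.o M * a * b.o M) η⟫_ℂ = ⟪η, π a η⟫_ℂ := by
    rw [hπ.mul_apply (mul_mem hoB haB) hoB, ho, hπ.mul_apply hoB haB, ← inner_star_left,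
      ((hπ _).sa hoB (b.o_proj M).isSelfAdjoint).star_eq, ho]
  filter_upwards [hx M _ h1 ε hε, eventually_ge_atTop M] with j hj hjM
  rwa [g_cut b hg hjM, h2] at hj

/-- odd elements are killed -/
theorem exc_odd (hπ : IsRep T π) {b : Blk T} {P r : H →L[ℂ] H} (h : RData b π P r)
    (hi : Irr (b.ops π P) (Fix1 P)) {c : ℂ} (hc : c = 1 ∨ c = -1) {g : ℕ → D}
    (hg : ∀ i, g i ∈ corner (T.A (b.N i)) (b.o i) (b.U i)) (hp : ∀ i, IsStarProjection (g i))
    (hs : ∀ i, g i * g (i + 1) = g (i + 1)) {η : H} (hη : η ∈ Fix1 (c • r)) (h1 : ‖η‖ = 1)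
    (hf : ∀ i, π (g i) η = η)
    (hx : ∀ M, ∀ a ∈ T.A (b.N M), a * b.U M = b.U M * a → ∀ ε : ℝ, 0 < ε →
      ∀ᶠ j in atTop, ‖g j * a * g j - ⟪η, π a η⟫_ℂ • g j‖ ≤ ε)
    {i : ℕ} {x : D} (hxm : x ∈ corner (T.A (b.N i)) (b.o i) 1)
    (hodd : x * b.U i = (-1 : ℂ) • (b.U i * x)) {ε : ℝ} (hε : 0 < ε) :
    ∀ᶠ j in atTop, ‖g j * x * g j‖ ≤ ε := by
  refine small_of_not g g hp hp hs hs x ?_ hε
  rintro ⟨δ, hδ, hb⟩
  have hg1 : ∀ j, g j ∈ corner (T.A (b.N j)) (b.o j) 1 := fun j =>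
    ⟨(hg j).1, (hg j).2.1, (hg j).2.2.1, by rw [mul_one, one_mul]⟩
  have hge : ∀ j, g j * b.U j = (1 : ℂ) • (b.U j * g j) := fun j => by
    rw [one_smul]; exact (hg j).2.2.2
  have hodd' : star x * b.U i = (-1 : ℂ) • (b.U i * star x) := by
    have := congrArg star hodd
    rw [star_mul, neg_one_smul, star_neg, star_mul, (b.U_sa i).star_eq] at this
    rw [this, neg_one_smul, neg_neg]
  obtain ⟨η', hne, hf', hlim⟩ := overlap_vec hπ (fun j => (hg j).1) (fun j => (hg j).1) hp hp hs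
    h1 hxm.1 (fun j ε hε => by
      have e1 := U_even b (le_max_left i j) hxm.1 hodd
      have e2 := U_even b (le_max_right i j) (hg j).1 (hge j)
      have e3 := U_even b (le_max_left i j) (st_mem b hxm).1 hodd'
      have m1 := T.A_mono (b.mono.monotone (le_max_left i j)) hxm.1
      have m2 := T.A_mono (b.mono.monotone (le_max_right i j)) (hg j).1
      refine hx (max i j) _ (mul_mem (mul_mem m1 m2) (star_mem m1)) ?_ ε hε
      rw [mul_assoc, e3, mul_smul_comm, ← mul_assoc, mul_assoc x, e2, one_smul, ← mul_assoc, e1,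
        neg_one_smul, neg_one_smul, neg_mul, neg_mul, neg_neg]
      simp only [mul_assoc]) hδ hb
  have hv : π (star x) η ∈ Fix1 ((-1 * c) • r) :=
    sign_map h (st_mem b hxm) hodd' (by norm_num) hη
  have hη' : η' ∈ Fix1 ((-1 * c) • r) := by
    refine (isClosed_Fix1 _).mem_of_tendsto hlim (Eventually.of_forall fun j => ?_)
    have := sign_map h (hg1 j) (hge j) (one_mul 1) hv
    rwa [one_mul] at this
  set ζ : H := ((‖η'‖ : ℂ)⁻¹) • η' with hζ
  have hζm : ζ ∈ Fix1 ((-1 * c) • r) := Submodule.smul_mem _ _ hη'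
  have hζf : ∀ j, π (g j) ζ = ζ := fun j => by rw [hζ, map_smul, hf']
  have hζ1 : ‖ζ‖ = 1 := by
    rw [hζ, norm_smul, norm_inv, Complex.norm_real, norm_norm,
      inv_mul_cancel₀ (norm_ne_zero_iff.2 hne)]
  have hζi : ⟪ζ, ζ⟫_ℂ = 1 := by
    rw [inner_self_eq_norm_sq_to_K, hζ1]
    simp
  have hc' : -1 * c = 1 ∨ -1 * c = -1 := by rcases hc with rfl | rfl <;> simp
  refine h.z.not_orth hi (fix_P h.z hη) (fix_P h.z hζm) (norm_ne_zero_iff.1 (by rw [h1]; simp))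
    ?_ (orth h.z.r_sa hc hη hζm)
  rintro _ ⟨l, z, hz, rfl⟩
  have hze := ev_mem b hz
  obtain ⟨hzo, hzo'⟩ := od_mem b hz
  have k1 := same_state hπ (fun j => (hg j).1) hp hze.1 (hx l _ hze.1 hze.2.2.2) hζf
  have k2 := orth h.z.r_sa hc hη (sign_map h hzo hzo' (by norm_num) hη)
  have k3 := orth h.z.r_sa hc' hζm (sign_map h hzo hzo' (by norm_num) hζm)
  rw [ContinuousLinearMap.mul_apply, ContinuousLinearMap.mul_apply, fix_P h.z hη, fix_P h.z hζm,
    ← ev_add_od z (b.U l * z * b.U l), map_add, ContinuousLinearMap.add_apply,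
    ContinuousLinearMap.add_apply, inner_add_right, inner_add_right, k1, k2, k3, hζi, mul_one]

end Ty1Aux

open Ty1Aux in
theorem type_one (hπ : IsRep T π) {b : Blk T} {P r : H →L[ℂ] H} (h : RData b π P r)
    (hne : Fix1 P ≠ ⊥) (hi : Irr (b.ops π P) (Fix1 P)) : ∃ p : Pre T, Signs p π := by
  obtain ⟨c, hc, hW, hirr⟩ := h.z.even hi hne
  have hE := exset hπ h hW hirr
  obtain ⟨g, η, hg, hp, hs, hη, h1, hf, hx⟩ := hE.excise
  have hs' : ∀ i, g i * g (i + 1) = g (i + 1) := fun i => by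
    rw [← hs i, ← mul_assoc, ← mul_assoc, (hp i).isIdempotentElem.eq]
  have ho : ∀ i, π (b.o i) η = η := fun i => hE.fix i η hη
  have hx' : ∀ M, ∀ a ∈ T.A (b.N M), a * b.U M = b.U M * a → ∀ ε : ℝ, 0 < ε →
      ∀ᶠ j in atTop, ‖g j * a * g j - ⟪η, π a η⟫_ℂ • g j‖ ≤ ε :=
    fun M a ha hc ε hε => exc_even hπ b hg ho hx ha hc hε
  have hexc : Exc T g 1 := by
    intro n a ha ε hε
    have ha' : a ∈ T.A (b.N n) := T.A_mono (b.le_N n) ha
    have hz := b.cut_mem ha'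
    have hze := ev_mem b hz
    obtain ⟨hzo, hzo'⟩ := od_mem b hz
    obtain ⟨j, k1, k2, k3⟩ := ((hx' n _ hze.1 hze.2.2.2 _ (half_pos hε)).and
      ((exc_odd hπ h hi hc hg hp hs' hη h1 hf hx' hzo hzo' (half_pos hε)).and
        (eventually_ge_atTop n))).exists
    refine ⟨j, ⟪η, π ((2⁻¹ : ℂ) • (b.o n * a * b.o n + b.U n * (b.o n * a * b.o n) * b.U n)) η⟫_ℂ,
      0, ?_⟩
    rw [zero_smul, add_zero, smul_mul_assoc, one_mul, ← g_cut b hg k3 a]
    nth_rewrite 1 [← ev_add_od (b.o n * a * b.o n) (b.U n * (b.o n * a * b.o n) * b.U n)]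
    rw [mul_add, add_mul, add_sub_right_comm]
    exact (norm_add_le _ _).trans ((add_le_add k1 k2).trans (add_halves ε).le)
  refine ⟨⟨b, b.U, g, 1, fun i => rfl, b.U_mem 0, b.U_sa 0, b.U_norm 0, fun i => (hg i).1, hp, hs,
    fun i => (hg i).2.2.2, ?_, one_mem _, IsSelfAdjoint.one _, fun i => Commute.one_left _, ?_,
    Or.inl rfl, hexc⟩, η, η, h1, h1, hf, hf, ho 0, Or.inl rfl⟩
  · rw [b.U_sq]
    exact (hg 0).2.1
  · rw [one_mul, one_mul]

end Pool.Agent.P.MP_5d580a_an.Ng
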