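import Pool.Agent.P.MP_5d580a_an.N.Bk
import Pool.Agent.P.MP_5d580a_an.N.Z
import Pool.Agent.P.MP_5d580a_an.N.Ex2
import Pool.Agent.P.MP_5d580a_an.N.Ov

open scoped ComplexOrder InnerProductSpace ComplexConjugate
open Filter Topology

set_option linter.unusedSectionVars false
set_option linter.unusedVariables false
set_option linter.deprecated false

noncomputable section

namespace Pool.Agent.P.MP_5d580a_an.Ng

variable {D C : Type} [CStarAlgebra D] [CStarAlgebra C]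
variable {H : Type} [NormedAddCommGroup H] [InnerProductSpace ℂ H] [CompleteSpace H]
variable {L : Type} [NormedAddCommGroup L] [InnerProductSpace ℂ L] [CompleteSpace L]

variable {T : Tower D} {π : D →ₗ[ℂ] (H →L[ℂ] H)}

namespace Ty2Aux

theorem mulA (hπ : IsRep T π) {n n' : ℕ} {x y : D} (hx : x ∈ T.A n) (hy : y ∈ T.A n') :
    π (x * y) = π x * π y := hπ.mul (T.A_le_B n hx) (T.A_le_B n' hy)

theorem appA (hπ : IsRep T π) {n n' : ℕ} {x y : D} (hx : x ∈ T.A n) (hy : y ∈ T.A n') (η : H) :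
    π (x * y) η = π x (π y η) := hπ.mul_apply (T.A_le_B n hx) (T.A_le_B n' hy) η

theorem starA (hπ : IsRep T π) {n : ℕ} {x : D} (hx : x ∈ T.A n) : π (star x) = star (π x) :=
  (hπ n).star x (T.A_le_B n hx)

theorem flip_sa {x y : D} (hx : IsSelfAdjoint x) (hy : IsSelfAdjoint y) {z : D}
    (hz : IsSelfAdjoint z) (h : x * y = z) : y * x = z := by
  have := congrArg star h
  rwa [star_mul, hx.star_eq, hy.star_eq, hz.star_eq] at this

theorem corner_star {S : StarSubalgebra ℂ D} {o x : D} (ho : IsSelfAdjoint o)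
    (hx : x ∈ corner S o 1) : star x ∈ corner S o 1 := by
  obtain ⟨h1, h2, h3, -⟩ := hx
  refine ⟨star_mem h1, ?_, ?_, by rw [mul_one, one_mul]⟩
  · have := congrArg star h3
    rwa [star_mul, ho.star_eq] at this
  · have := congrArg star h2
    rwa [star_mul, ho.star_eq] at this

variable {b : Blk T} {P r : H →L[ℂ] H}

theorem comm_P (hπ : IsRep T π) (h : RData b π P r) {i : ℕ} {x : D}
    (hx : x ∈ corner (T.A (b.N i)) (b.o i) 1) : Commute (π x) P := by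
  refine commute_prj h.z.P_proj (fun η hη => ?_) (fun η hη => ?_)
  · rw [h.fix] at hη ⊢
    exact b.corner_fix hπ hx hη
  · rw [← starA hπ hx.1]
    rw [h.fix] at hη ⊢
    exact b.corner_fix hπ (corner_star (b.o_proj i).isSelfAdjoint hx) hη

theorem P_r (h : RData b π P r) : P * r = r := by
  have := congrArg star h.z.r_P
  rwa [star_mul, h.z.r_sa.star_eq, h.z.P_proj.isSelfAdjoint.star_eq] at this

theorem P_r_app (h : RData b π P r) (η : H) : P (r η) = r η := by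
  rw [← ContinuousLinearMap.mul_apply, P_r h]

theorem inner_r (h : RData b π P r) {η : H} (hη : P η = η) : ⟪r η, r η⟫_ℂ = ⟪η, η⟫_ℂ := by
  have h1 : ⟪r η, r η⟫_ℂ = ⟪η, (star r) (r η)⟫_ℂ := by
    rw [ContinuousLinearMap.star_eq_adjoint, ContinuousLinearMap.adjoint_inner_right]
  rw [h1, h.z.r_sa.star_eq, ← ContinuousLinearMap.mul_apply, h.z.r_sq, hη]

/-- twisting a fixed vector -/
theorem tw_fix (hπ : IsRep T π) (h : RData b π P r) {i : ℕ} {x : D}
    (hx : x ∈ corner (T.A (b.N i)) (b.o i) 1) {η : H} (hη : P η = η) (hf : π x η = η) :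
    π (b.U i * x * b.U i) (r η) = r η := by
  have h1 := congrArg (fun y : H →L[ℂ] H => y (r η)) (h.tw i x hx)
  simp only [ContinuousLinearMap.mul_apply, P_r_app h] at h1
  rw [← h1, ← ContinuousLinearMap.mul_apply r r η, h.z.r_sq, hη, hf]

/-- the two halves of the support of an odd element -/
structure Hp (b : Blk T) (π : D →ₗ[ℂ] (H →L[ℂ] H)) (P : H →L[ℂ] H) (i₀ : ℕ) (p m : D) :
    Prop where
  p_mem : p ∈ T.A (b.N i₀)
  m_mem : m ∈ T.A (b.N i₀)
  p_proj : IsStarProjection p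
  m_proj : IsStarProjection m
  pm : p * m = 0
  o_p : b.o i₀ * p = p
  U_p : b.U i₀ * p = m * b.U i₀
  U_m : b.U i₀ * m = p * b.U i₀
  ne : π p * P ≠ 0

theorem exists_hp (hπ : IsRep T π) (h : RData b π P r)
    (hi : Irr (insert r (b.ops π P)) (Fix1 P)) (hn : ¬ Irr (b.ops π P) (Fix1 P)) :
    ∃ i₀ p m, Hp b π P i₀ p m := by
  obtain ⟨X, hX, hX0, hXsa, hXr⟩ := h.z.odd hi hn
  have hXP := h.z.right X hX
  obtain ⟨i, x, hx, rfl⟩ := hX
  have hU := b.U_sq i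
  have hosa := (b.o_proj i).isSelfAdjoint
  have htw : π (b.U i * x * b.U i) * P = -(π x * P) := by
    rw [← h.tw i x hx, hXr, neg_mul, mul_assoc (π x * P), h.z.r_sq, hXP]
  set x1 : D := (2⁻¹ : ℂ) • (x - b.U i * x * b.U i) with hx1
  have m1 : x1 ∈ corner (T.A (b.N i)) (b.o i) 1 :=
    Submodule.smul_mem _ _ (Submodule.sub_mem _ hx (b.tw_mem hx))
  have e1 : π x1 * P = π x * P := by
    rw [hx1, map_smul, map_sub, smul_mul_assoc, sub_mul, htw, sub_neg_eq_add, ← two_smul ℂ,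
      smul_smul]
    norm_num
  have a1 : b.U i * x1 = -(x1 * b.U i) := by
    rw [hx1, mul_smul_comm, smul_mul_assoc, ← smul_neg, mul_sub, sub_mul, ← mul_assoc,
      ← mul_assoc, hU, hx.2.1, mul_assoc (b.U i * x), hU, mul_assoc, hx.2.2.1, neg_sub]
  have a2 : b.U i * star x1 = -(star x1 * b.U i) := by
    have := congrArg star a1
    rw [star_neg, star_mul, star_mul, (b.U_sa i).star_eq] at this
    rw [this, neg_neg]
  have m2 := corner_star hosa m1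
  have e2 : π (star x1) * P = π x * P := by
    rw [(comm_P hπ h m2).eq, starA hπ m1.1, ← hXsa.star_eq, ← e1, star_mul,
      h.z.P_proj.isSelfAdjoint.star_eq]
  set b0 : D := (2⁻¹ : ℂ) • (x1 + star x1) with hb0
  have m3 : b0 ∈ corner (T.A (b.N i)) (b.o i) 1 :=
    Submodule.smul_mem _ _ (Submodule.add_mem _ m1 m2)
  have e3 : π b0 * P = π x * P := by
    rw [hb0, map_smul, map_add, smul_mul_assoc, add_mul, e1, e2, ← two_smul ℂ, smul_smul]
    norm_num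
  have s3 : IsSelfAdjoint b0 := by
    rw [IsSelfAdjoint, hb0, star_smul, star_add, star_star, add_comm]
    norm_num
  have a3 : b.U i * b0 = -(b0 * b.U i) := by
    rw [hb0, mul_smul_comm, smul_mul_assoc, ← smul_neg, mul_add, add_mul, a1, a2, neg_add]
  have := T.finA (b.N i)
  obtain ⟨p, hp, m, hm, pp, mp, pm, hs, ho, hUU⟩ := supp_sign (T.A (b.N i)) m3.1 s3
  obtain ⟨o1, o2⟩ := ho _ m3.2.1
  obtain ⟨u1, u2⟩ := hUU _ a3
  refine ⟨i, p, m, hp, hm, pp, mp, pm, o1, u1, u2, fun h0 => hX0 ?_⟩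
  have cp : p ∈ corner (T.A (b.N i)) (b.o i) 1 :=
    ⟨hp, o1, flip_sa hosa pp.isSelfAdjoint pp.isSelfAdjoint o1, by rw [mul_one, one_mul]⟩
  have t1 := h.tw i p cp
  rw [h0, mul_zero, zero_mul, u1, mul_assoc, hU,
    flip_sa hosa mp.isSelfAdjoint mp.isSelfAdjoint o2] at t1
  rw [← e3, ← hs, mulA hπ (add_mem hp hm) m3.1, mul_assoc, (comm_P hπ h m3).eq, ← mul_assoc,
    map_add, add_mul, h0, ← t1, add_zero, zero_mul]

variable {i₀ : ℕ} {p m : D}

theorem lev (b : Blk T) (i₀ i : ℕ) {a : D} (ha : a ∈ T.A (b.N i₀)) : a ∈ T.A (b.N (i₀ + i)) :=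
  T.A_mono (b.mono.monotone (Nat.le_add_right i₀ i)) ha

theorem Hp.mp (k : Hp b π P i₀ p m) : m * p = 0 :=
  flip_sa k.p_proj.isSelfAdjoint k.m_proj.isSelfAdjoint (IsSelfAdjoint.zero D) k.pm

theorem Hp.cp (k : Hp b π P i₀ p m) : p ∈ corner (T.A (b.N i₀)) (b.o i₀) 1 :=
  ⟨k.p_mem, k.o_p, flip_sa (b.o_proj i₀).isSelfAdjoint k.p_proj.isSelfAdjoint
    k.p_proj.isSelfAdjoint k.o_p, by rw [mul_one, one_mul]⟩

theorem Hp.V_p (k : Hp b π P i₀ p m) (i : ℕ) : b.U (i₀ + i) * p = m * b.U (i₀ + i) := by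
  rw [b.U_add, mul_assoc, (b.shift_U_comm i₀ i k.p_mem).eq, ← mul_assoc, k.U_p, mul_assoc]

theorem Hp.V_m (k : Hp b π P i₀ p m) (i : ℕ) : b.U (i₀ + i) * m = p * b.U (i₀ + i) := by
  rw [b.U_add, mul_assoc, (b.shift_U_comm i₀ i k.m_mem).eq, ← mul_assoc, k.U_m, mul_assoc]

theorem Hp.oo_proj (k : Hp b π P i₀ p m) (i : ℕ) :
    IsStarProjection (p * (b.shift i₀).o i) :=
  k.p_proj.mul ((b.shift i₀).o_proj i) (b.shift_o_comm i₀ i k.p_mem).symm

theorem Hp.oo_mem (k : Hp b π P i₀ p m) (i : ℕ) : p * (b.shift i₀).o i ∈ T.A (b.N (i₀ + i)) :=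
  mul_mem (lev b i₀ i k.p_mem) ((b.shift i₀).o_mem i)

theorem Hp.o_oo (k : Hp b π P i₀ p m) (i : ℕ) :
    b.o (i₀ + i) * (p * (b.shift i₀).o i) = p * (b.shift i₀).o i := by
  rw [b.o_add, mul_assoc, ← mul_assoc ((b.shift i₀).o i), (b.shift_o_comm i₀ i k.p_mem).eq,
    mul_assoc p, ((b.shift i₀).o_proj i).isIdempotentElem.eq, ← mul_assoc, k.o_p]

theorem Hp.corner_le (k : Hp b π P i₀ p m) {i : ℕ} {x : D}
    (hx : x ∈ corner (T.A (b.N (i₀ + i))) (p * (b.shift i₀).o i) 1) :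
    x ∈ corner (T.A (b.N (i₀ + i))) (b.o (i₀ + i)) 1 := by
  obtain ⟨h1, h2, h3, h4⟩ := hx
  refine ⟨h1, ?_, ?_, h4⟩
  · rw [← h2, ← mul_assoc, k.o_oo]
  · rw [← h3, mul_assoc, flip_sa (b.o_proj _).isSelfAdjoint (k.oo_proj i).isSelfAdjoint
      (k.oo_proj i).isSelfAdjoint (k.o_oo i)]

theorem Hp.p_mul (k : Hp b π P i₀ p m) {i : ℕ} {x : D}
    (hx : x ∈ corner (T.A (b.N (i₀ + i))) (p * (b.shift i₀).o i) 1) : p * x = x := by
  rw [← hx.2.1, ← mul_assoc, ← mul_assoc, k.p_proj.isIdempotentElem.eq]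

theorem Hp.cut (k : Hp b π P i₀ p m) {i : ℕ} {a : D} (ha : a ∈ T.A (b.N (i₀ + i))) :
    p * (b.shift i₀).o i * a * (p * (b.shift i₀).o i) ∈
      corner (T.A (b.N (i₀ + i))) (p * (b.shift i₀).o i) 1 := by
  have e := (k.oo_proj i).isIdempotentElem.eq
  refine ⟨mul_mem (mul_mem (k.oo_mem i) ha) (k.oo_mem i), ?_, ?_, by rw [mul_one, one_mul]⟩
  · rw [← mul_assoc, ← mul_assoc (p * (b.shift i₀).o i), ← mul_assoc, e, mul_assoc]
  · rw [mul_assoc, e]

theorem exSet (hπ : IsRep T π) (h : RData b π P r) (k : Hp b π P i₀ p m) {W : Submodule ℂ H}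
    (hc : IsClosed (W : Set H)) (hle : W ≤ Fix1 P) (hinv : Inv (b.ops π P) W)
    (hirr : Irr (b.ops π P) W) (hne : ∃ η ∈ W, (π p * P) η ≠ 0) :
    ExSet T π (fun i => b.N (i₀ + i)) (fun i => p * (b.shift i₀).o i) (fun _ => 1)
      (b.shift i₀).e (W ⊓ Fix1 (π p * P)) := by
  have hq : π p * P ∈ b.ops π P := ⟨i₀, p, k.cp, rfl⟩
  have hqp : IsStarProjection (π p * P) :=
    ((hπ _).proj (T.A_le_B _ k.p_mem) k.p_proj).mul h.z.P_proj (comm_P hπ h k.cp)
  have hfix : ∀ i, ∀ η ∈ W ⊓ Fix1 (π p * P), π (p * (b.shift i₀).o i) η = η := by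
    rintro i η ⟨h1, h2⟩
    have h3 : P η = η := hle h1
    have h4 : η ∈ Fix fun i => π (b.e i) := by rw [← h.fix]; exact h3
    have h5 : η ∈ Fix fun i => π ((b.shift i₀).e i) := mem_Fix.2 fun j => mem_Fix.1 h4 (i₀ + j)
    have h6 : π p (P η) = η := h2
    rw [appA hπ k.p_mem ((b.shift i₀).o_mem i), (b.shift i₀).fix_o hπ h5, ← h6, h3, ← h3, h6]
    rw [← h3, h6, h3]
  refine
    { rep := hπ
      mono := fun i j hij => b.mono.monotone (Nat.add_le_add_left hij i₀)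
      o_mem := fun i => ⟨k.oo_mem i, (k.oo_proj i).isIdempotentElem.eq,
        (k.oo_proj i).isIdempotentElem.eq, by rw [mul_one, one_mul]⟩
      o_proj := k.oo_proj
      c_sa := fun _ => IsSelfAdjoint.one D
      e_mem := (b.shift i₀).e_mem
      e_proj := (b.shift i₀).e_proj
      e_comm := fun i a ha => (b.shift i₀).e_comm i ha
      o_succ := fun i => (mul_assoc _ _ _).symm
      succ := ?_
      closed := hc.inter (isClosed_Fix1 _)
      ne := ?_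
      fix := hfix
      inv := ?_
      irr := ?_ }
  · rintro i x ⟨h1, h2, h3, -⟩
    have e1 := ((b.shift i₀).e_proj i).isIdempotentElem.eq
    have c1 := (b.shift i₀).e_comm i h1
    have c2 := (b.shift i₀).e_comm i (k.oo_mem i)
    have e2 : p * (b.shift i₀).o (i + 1) = p * (b.shift i₀).o i * (b.shift i₀).e i :=
      (mul_assoc _ _ _).symm
    refine ⟨mul_mem (T.A_mono (b.mono.monotone (Nat.le_succ _)) h1) ((b.shift i₀).e_mem i),
      ?_, ?_, by rw [mul_one, one_mul]⟩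
    · show p * (b.shift i₀).o (i + 1) * _ = _
      rw [e2, mul_assoc, ← mul_assoc ((b.shift i₀).e i), c1.eq, mul_assoc x, e1, ← mul_assoc, h2]
    · show _ * (p * (b.shift i₀).o (i + 1)) = _
      rw [e2, mul_assoc, ← mul_assoc ((b.shift i₀).e i), c2.eq, mul_assoc (p * _), e1,
        ← mul_assoc, h3]
  · obtain ⟨η, h1, h2⟩ := hne
    intro h0
    have : (π p * P) η ∈ W ⊓ Fix1 (π p * P) := ⟨hinv _ hq η h1, prj_mem hqp η⟩
    rw [h0] at this
    exact h2 this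
  · rintro _ ⟨i, x, hx, rfl⟩ η ⟨h1, h2⟩
    have h3 : P η = η := hle h1
    have h4 : π x η ∈ W := by
      have := hinv _ ⟨i₀ + i, x, k.corner_le hx, rfl⟩ η h1
      rwa [ContinuousLinearMap.mul_apply, h3] at this
    refine ⟨h4, ?_⟩
    show π p (P (π x η)) = π x η
    rw [show P (π x η) = π x η from hle h4, ← appA hπ k.p_mem hx.1, k.p_mul hx]
  · refine Irr.of_agree ?_ (h.z.compress hc hinv hirr hq hqp)
    rintro y ⟨hy, y1, y2⟩
    have hy' := hy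
    obtain ⟨j, x, hx, rfl⟩ := hy
    obtain ⟨x', hx', e1, -⟩ := b.ops_level hπ h.z.P_proj h.fix (Nat.le_add_left j i₀) hx
    refine ⟨_, ⟨j, _, k.cut hx'.1, rfl⟩, fun η hη => ?_⟩
    have h3 : P η = η := hle hη.1
    have h4 : (π x * P) η ∈ W ⊓ Fix1 (π p * P) := by
      refine ⟨hinv _ hy' η hη.1, ?_⟩
      show (π p * P) ((π x * P) η) = _
      rw [← ContinuousLinearMap.mul_apply, y1]
    have h5 : π x' η = (π x * P) η := by rw [← e1, ContinuousLinearMap.mul_apply, h3]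
    rw [appA hπ (mul_mem (k.oo_mem j) hx'.1) (k.oo_mem j), hfix j η hη,
      appA hπ (k.oo_mem j) hx'.1, h5, hfix j _ h4]

/-- excising projections below `p` -/
structure Eg (b : Blk T) (π : D →ₗ[ℂ] (H →L[ℂ] H)) (P : H →L[ℂ] H) (i₀ : ℕ) (p : D)
    (g : ℕ → D) (η : H) : Prop where
  mem : ∀ i, g i ∈ corner (T.A (b.N (i₀ + i))) (p * (b.shift i₀).o i) 1
  proj : ∀ i, IsStarProjection (g i)
  succ : ∀ i, g i * b.e (i₀ + i) * g (i + 1) = g (i + 1)
  Pη : P η = η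
  norm : ‖η‖ = 1
  fix : ∀ i, π (g i) η = η
  exc : ∀ n, ∀ a ∈ T.A n, ∀ ε : ℝ, 0 < ε → ∀ᶠ j in atTop,
    ‖g j * a * g j - ⟪η, π a η⟫_ℂ • g j‖ ≤ ε

theorem dec_of_succ {g e : ℕ → D} (hp : ∀ i, IsStarProjection (g i))
    (hs : ∀ i, g i * e i * g (i + 1) = g (i + 1)) (i : ℕ) : g i * g (i + 1) = g (i + 1) := by
  rw [← hs i, ← mul_assoc, ← mul_assoc, (hp i).isIdempotentElem.eq]

theorem lev' (b : Blk T) (i₀ : ℕ) {n j : ℕ} (hj : n ≤ j) {a : D} (ha : a ∈ T.A n) :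
    a ∈ T.A (b.N (i₀ + j)) :=
  T.A_mono ((hj.trans (Nat.le_add_left j i₀)).trans (b.le_N _)) ha

theorem exists_eg (hπ : IsRep T π) (k : Hp b π P i₀ p m) {W : Submodule ℂ H}
    (hle : W ≤ Fix1 P)
    (hE : ExSet T π (fun i => b.N (i₀ + i)) (fun i => p * (b.shift i₀).o i) (fun _ => 1)
      (b.shift i₀).e W) : ∃ g, ∃ η ∈ W, Eg b π P i₀ p g η := by
  obtain ⟨g, η, h1, h2, h3, h4, h5, h6, h7⟩ := hE.excise
  refine ⟨g, η, h4, h1, h2, h3, hle h4, h5, h6, fun n a ha ε hε => ?_⟩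
  have ha' := lev' b i₀ le_rfl ha
  have hf := hE.fix n η h4
  have hz : ⟪η, π (p * (b.shift i₀).o n * a * (p * (b.shift i₀).o n)) η⟫_ℂ = ⟪η, π a η⟫_ℂ := by
    have hsa : IsSelfAdjoint (π (p * (b.shift i₀).o n)) :=
      (hπ _).sa (T.A_le_B _ (k.oo_mem n)) (k.oo_proj n).isSelfAdjoint
    rw [appA hπ (mul_mem (k.oo_mem n) ha') (k.oo_mem n), hf, appA hπ (k.oo_mem n) ha',
      ← hsa.star_eq, ContinuousLinearMap.star_eq_adjoint,
      ContinuousLinearMap.adjoint_inner_right, hf]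
  filter_upwards [h7 n _ (k.cut ha') ε hε, eventually_ge_atTop n] with j hj hn
  obtain ⟨d1, d2⟩ := dec_mul h2 (dec_of_succ h2 h3) hn
  have e1 : p * (b.shift i₀).o n * g j = g j := by rw [← d1, ← mul_assoc, (h1 n).2.1]
  have e2 : g j * (p * (b.shift i₀).o n) = g j := by rw [← d2, mul_assoc, (h1 n).2.2.1]
  rwa [hz, ← mul_assoc, ← mul_assoc (g j) _ a, e2, mul_assoc (g j * a), e1] at hj

/-- the twisted projections -/
def tw (b : Blk T) (i₀ : ℕ) (g : ℕ → D) (i : ℕ) : D := b.U (i₀ + i) * g i * b.U (i₀ + i)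

section

variable {g : ℕ → D} {η : H} (k : Hp b π P i₀ p m) (G : Eg b π P i₀ p g η)
include k G

theorem g_cor (i : ℕ) : g i ∈ corner (T.A (b.N (i₀ + i))) (b.o (i₀ + i)) 1 :=
  k.corner_le (G.mem i)

theorem t_cor (i : ℕ) : tw b i₀ g i ∈ corner (T.A (b.N (i₀ + i))) (b.o (i₀ + i)) 1 :=
  b.tw_mem (g_cor k G i)

theorem tw_tw (i : ℕ) : b.U (i₀ + i) * tw b i₀ g i * b.U (i₀ + i) = g i := by
  rw [tw, ← mul_assoc, ← mul_assoc, b.U_sq, (g_cor k G i).2.1, mul_assoc, b.U_sq,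
    (g_cor k G i).2.2.1]

theorem t_proj (i : ℕ) : IsStarProjection (tw b i₀ g i) := by
  refine ⟨?_, ?_⟩
  · show tw b i₀ g i * tw b i₀ g i = tw b i₀ g i
    have e : tw b i₀ g i * tw b i₀ g i = b.U (i₀ + i) * (g i * (b.U (i₀ + i) * b.U (i₀ + i)) *
        g i) * b.U (i₀ + i) := by simp only [tw, mul_assoc]
    rw [e, b.U_sq, (g_cor k G i).2.2.1, (G.proj i).isIdempotentElem.eq, tw]
  · show star (tw b i₀ g i) = tw b i₀ g i
    rw [tw, star_mul, star_mul, (b.U_sa _).star_eq, (G.proj i).isSelfAdjoint.star_eq, mul_assoc]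

theorem p_g (i : ℕ) : p * g i = g i := k.p_mul (G.mem i)

theorem g_p (i : ℕ) : g i * p = g i :=
  flip_sa k.p_proj.isSelfAdjoint (G.proj i).isSelfAdjoint (G.proj i).isSelfAdjoint (p_g k G i)

theorem m_t (i : ℕ) : m * tw b i₀ g i = tw b i₀ g i := by
  rw [tw, ← mul_assoc, ← mul_assoc, ← k.V_p, mul_assoc (b.U _) p, p_g k G]

theorem t_m (i : ℕ) : tw b i₀ g i * m = tw b i₀ g i :=
  flip_sa k.m_proj.isSelfAdjoint (t_proj k G i).isSelfAdjoint (t_proj k G i).isSelfAdjoint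
    (m_t k G i)

theorem g_t (i j : ℕ) : g i * tw b i₀ g j = 0 := by
  rw [← g_p k G i, ← m_t k G j, mul_assoc, ← mul_assoc p, k.pm, zero_mul, mul_zero]

theorem t_g (i j : ℕ) : tw b i₀ g i * g j = 0 := by
  rw [← p_g k G j, ← t_m k G i, mul_assoc, ← mul_assoc m, k.mp, zero_mul, mul_zero]

theorem g_dec (i : ℕ) : g i * g (i + 1) = g (i + 1) :=
  dec_of_succ (e := fun i => b.e (i₀ + i)) G.proj G.succ i

theorem e_g (i : ℕ) : b.e (i₀ + i) * g (i + 1) = g (i + 1) := by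
  rw [← G.succ i, ← mul_assoc, ← mul_assoc, (b.e_comm _ (G.mem i).1).eq, mul_assoc (g i),
    (b.e_proj _).isIdempotentElem.eq]

theorem t_succ (i : ℕ) : tw b i₀ g (i + 1) =
    b.U (i₀ + i) * b.u (i₀ + i) * g (i + 1) * b.U (i₀ + (i + 1)) := rfl

theorem t_dec (i : ℕ) : tw b i₀ g i * tw b i₀ g (i + 1) = tw b i₀ g (i + 1) := by
  have e : tw b i₀ g i * tw b i₀ g (i + 1) = b.U (i₀ + i) * (g i * (b.U (i₀ + i) * b.U (i₀ + i)) *
      b.u (i₀ + i) * g (i + 1)) * b.U (i₀ + (i + 1)) := by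
    rw [t_succ k G]; simp only [tw, mul_assoc]
  rw [e, b.U_sq, (g_cor k G i).2.2.1, ← (b.u_comm _ _ (G.mem i).1).eq, mul_assoc (b.u _),
    g_dec k G, t_succ k G, ← mul_assoc]

theorem e_t (i : ℕ) : b.e (i₀ + i) * tw b i₀ g (i + 1) = tw b i₀ g (i + 1) := by
  rw [t_succ k G, ← mul_assoc, ← mul_assoc, ← mul_assoc, (b.e_comm _ (b.U_mem _)).eq,
    mul_assoc (b.U _) (b.e _), b.e_u]

theorem w_g (i : ℕ) : (p - m) * g i = g i := by
  rw [sub_mul, p_g k G, ← p_g k G i, ← mul_assoc m, k.mp, zero_mul, sub_zero]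

theorem w_t (i : ℕ) : (p - m) * tw b i₀ g i = -tw b i₀ g i := by
  rw [sub_mul, m_t k G, ← m_t k G i, ← mul_assoc p, k.pm, zero_mul, zero_sub]

theorem w_sa : IsSelfAdjoint (p - m) := k.p_proj.isSelfAdjoint.sub k.m_proj.isSelfAdjoint

theorem tw_level {n : ℕ} {a : D} (ha : a ∈ T.A n) {j : ℕ} (hj : n ≤ j) :
    b.U (i₀ + j) * a * b.U (i₀ + j) * g j = b.U (i₀ + n) * a * b.U (i₀ + n) * g j := by
  induction j, hj using Nat.le_induction with
  | base => rfl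
  | succ j hj ih =>
    have ha' := lev' b i₀ hj ha
    have hU := b.U_mem (i₀ + j)
    have e : b.U (i₀ + (j + 1)) * a * b.U (i₀ + (j + 1)) * g (j + 1) =
        b.U (i₀ + j) * (b.u (i₀ + j) * (a * b.U (i₀ + j))) * b.u (i₀ + j) * g (j + 1) := by
      show b.U (i₀ + j) * b.u (i₀ + j) * a * (b.U (i₀ + j) * b.u (i₀ + j)) * g (j + 1) = _
      simp only [mul_assoc]
    rw [e, (b.u_comm _ _ (mul_mem ha' hU)).eq, ← mul_assoc, mul_assoc _ (b.u _) (b.u _), b.u_sq',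
      mul_assoc _ (b.e _), e_g k G, ← g_dec k G j, ← mul_assoc, ← mul_assoc (b.U _) a, ih,
      ← mul_assoc]

theorem exc_t {n : ℕ} {a : D} (ha : a ∈ T.A n) :
    ∃ z : ℂ, ∀ ε : ℝ, 0 < ε → ∀ᶠ j in atTop,
      ‖tw b i₀ g j * a * tw b i₀ g j - z • tw b i₀ g j‖ ≤ ε := by
  have ha' : b.U (i₀ + n) * a * b.U (i₀ + n) ∈ T.A (b.N (i₀ + n)) :=
    mul_mem (mul_mem (b.U_mem _) (lev' b i₀ le_rfl ha)) (b.U_mem _)
  refine ⟨⟪η, π (b.U (i₀ + n) * a * b.U (i₀ + n)) η⟫_ℂ, fun ε hε => ?_⟩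
  filter_upwards [G.exc _ _ ha' ε hε, eventually_ge_atTop n] with j hj hn
  set z := ⟪η, π (b.U (i₀ + n) * a * b.U (i₀ + n)) η⟫_ℂ
  have e : tw b i₀ g j * a * tw b i₀ g j - z • tw b i₀ g j = b.U (i₀ + j) *
      (g j * (b.U (i₀ + n) * a * b.U (i₀ + n)) * g j - z • g j) * b.U (i₀ + j) := by
    rw [mul_assoc (g j), ← tw_level k G ha hn]
    simp only [tw, mul_assoc, mul_sub, sub_mul, mul_smul_comm, smul_mul_assoc]
  rw [e]
  have hU := b.U_norm (i₀ + j)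
  calc _ ≤ ‖b.U (i₀ + j)‖ * ‖g j * (b.U (i₀ + n) * a * b.U (i₀ + n)) * g j - z • g j‖ *
        ‖b.U (i₀ + j)‖ :=
        (norm_mul_le _ _).trans (mul_le_mul_of_nonneg_right (norm_mul_le _ _) (norm_nonneg _))
    _ ≤ 1 * ε * 1 := by gcongr
    _ = ε := by ring

theorem cross (hπ : IsRep T π) (h : RData b π P r) {W : Submodule ℂ H}
    (hc : IsClosed (W : Set H)) (hle : W ≤ Fix1 P) (hinv : Inv (b.ops π P) W) (hη : η ∈ W)
    (hl : ∀ η ∈ W, ∀ η' ∈ W,
      (∀ x ∈ b.ops π P, ⟪η, x η⟫_ℂ = ⟪r η', x (r η')⟫_ℂ) → η = 0)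
    {n : ℕ} {a : D} (ha : a ∈ T.A n) {ε : ℝ} (hε : 0 < ε) :
    ∀ᶠ j in atTop, ‖g j * a * tw b i₀ g j‖ ≤ ε := by
  refine small_of_not g _ G.proj (t_proj k G) (g_dec k G) (t_dec k G) a ?_ hε
  rintro ⟨δ, hδ, hb⟩
  obtain ⟨ζ, z0, z1, z2⟩ := overlap_vec hπ (N := fun i => b.N (i₀ + i))
    (N' := fun i => b.N (i₀ + i)) (fun i => (G.mem i).1) (fun i => (t_cor k G i).1) G.proj
    (t_proj k G) (t_dec k G) G.norm ha (fun j ε hε => G.exc (max n (b.N (i₀ + j))) _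
      (mul_mem (mul_mem (T.A_mono (le_max_left _ _) ha)
        (T.A_mono (le_max_right _ _) (t_cor k G j).1))
        (star_mem (T.A_mono (le_max_left _ _) ha))) ε hε) hδ hb
  have hζ : ζ ∈ W := by
    refine hc.mem_of_tendsto z2 ?_
    filter_upwards [eventually_ge_atTop n] with j hj
    have ha' := star_mem (lev' b i₀ hj ha)
    have c1 := t_cor k G j
    have c2 := g_cor k G j
    have cy : tw b i₀ g j * star a * g j ∈ corner (T.A (b.N (i₀ + j))) (b.o (i₀ + j)) 1 :=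
      ⟨mul_mem (mul_mem c1.1 ha') c2.1, by rw [← mul_assoc, ← mul_assoc, c1.2.1],
        by rw [mul_assoc, c2.2.2.1], by rw [mul_one, one_mul]⟩
    have := hinv _ ⟨_, _, cy, rfl⟩ η hη
    rwa [ContinuousLinearMap.mul_apply, G.Pη, appA hπ (mul_mem c1.1 ha') c2.1, G.fix,
      appA hπ c1.1 ha'] at this
  have hn : (‖ζ‖ : ℂ) ≠ 0 := by exact_mod_cast norm_ne_zero_iff.2 z0
  set ξ : H := (‖ζ‖ : ℂ)⁻¹ • ζ with hξ
  have x1 : ξ ∈ W := W.smul_mem _ hζ
  have x2 : P ξ = ξ := hle x1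
  have x3 : ⟪ξ, ξ⟫_ℂ = 1 := by
    rw [inner_self_eq_norm_sq_to_K, hξ, norm_smul, norm_inv, Complex.norm_real, norm_norm,
      inv_mul_cancel₀ (norm_ne_zero_iff.2 z0)]
    norm_num
  have x4 : ∀ j, π (g j) (r ξ) = r ξ := fun j => by
    have := tw_fix hπ h (t_cor k G j) x2 (by rw [hξ, map_smul, z1 j])
    rwa [tw_tw k G] at this
  have h0 := hl η hη ξ x1 (by
    rintro _ ⟨j, x, hx, rfl⟩
    rw [ContinuousLinearMap.mul_apply, ContinuousLinearMap.mul_apply, G.Pη, P_r_app h,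
      same_state hπ (N := fun i => b.N (i₀ + i)) (fun i => (G.mem i).1) G.proj hx.1
        (G.exc _ _ hx.1) x4, inner_r h x2, x3, mul_one])
  have := G.norm
  rw [h0, norm_zero] at this
  exact zero_ne_one this

theorem exc_all
    (hx : ∀ n, ∀ a ∈ T.A n, ∀ ε : ℝ, 0 < ε → ∀ᶠ j in atTop, ‖g j * a * tw b i₀ g j‖ ≤ ε) :
    Exc T (fun i => g i + tw b i₀ g i) (p - m) := by
  intro n a ha ε hε
  have h4 : 0 < ε / 4 := by positivity
  obtain ⟨z₂, hz₂⟩ := exc_t k G ha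
  obtain ⟨j, e1, e2, e3, e4⟩ := ((G.exc n a ha _ h4).and ((hz₂ _ h4).and ((hx n a ha _ h4).and
    (hx n _ (star_mem ha) _ h4)))).exists
  set z₁ := ⟪η, π a η⟫_ℂ
  refine ⟨j, (z₁ + z₂) / 2, (z₁ - z₂) / 2, ?_⟩
  have e5 : ‖tw b i₀ g j * a * g j‖ ≤ ε / 4 := by
    rw [← norm_star, star_mul, star_mul, (G.proj j).isSelfAdjoint.star_eq,
      (t_proj k G j).isSelfAdjoint.star_eq, ← mul_assoc]
    exact e4
  have e : (g j + tw b i₀ g j) * a * (g j + tw b i₀ g j) -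
      (((z₁ + z₂) / 2) • (1 : D) + ((z₁ - z₂) / 2) • (p - m)) * (g j + tw b i₀ g j) =
      (g j * a * g j - z₁ • g j) + (tw b i₀ g j * a * tw b i₀ g j - z₂ • tw b i₀ g j) +
        g j * a * tw b i₀ g j + tw b i₀ g j * a * g j := by
    rw [add_mul (_ • (1 : D)), smul_mul_assoc, smul_mul_assoc, one_mul, mul_add (p - m),
      w_g k G, w_t k G]
    simp only [add_mul, mul_add]
    module
  show ‖(g j + tw b i₀ g j) * a * (g j + tw b i₀ g j) - _ * (g j + tw b i₀ g j)‖ ≤ ε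
  rw [e]
  refine (norm_add_le _ _).trans ?_
  have := norm_add₃_le (a := g j * a * g j - z₁ • g j)
    (b := tw b i₀ g j * a * tw b i₀ g j - z₂ • tw b i₀ g j) (c := g j * a * tw b i₀ g j)
  linarith

/-- the excising system of the second type -/
def pre (hx : Exc T (fun i => g i + tw b i₀ g i) (p - m)) : Pre T where
  b := b.shift i₀
  U i := b.U (i₀ + i)
  g i := g i + tw b i₀ g i
  w := p - m
  U_succ i := rfl
  U_mem := b.U_mem (i₀ + 0)
  U_sa := b.U_sa _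
  U_norm := b.U_norm _
  g_mem i := add_mem (G.mem i).1 (t_cor k G i).1
  g_proj i := (G.proj i).add (t_proj k G i) (g_t k G i i)
  g_succ i := by
    rw [mul_assoc, Blk.shift_e, mul_add, e_g k G, e_t k G, add_mul, mul_add, mul_add, g_dec k G,
      g_t k G, t_g k G, t_dec k G, add_zero, zero_add]
  g_U i := by
    show _ * _ = _ * _
    rw [add_mul, mul_add, tw, mul_assoc (_ * g i), b.U_sq, mul_assoc, (g_cor k G i).2.2.1,
      ← mul_assoc, ← mul_assoc, b.U_sq, (g_cor k G i).2.1, add_comm]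
  U_sq := by rw [b.U_sq, mul_add, (g_cor k G 0).2.1, (t_cor k G 0).2.1]
  w_mem := sub_mem k.p_mem k.m_mem
  w_sa := w_sa k G
  w_g i := by
    show _ * _ = _ * _
    rw [add_mul, mul_add, w_g k G, w_t k G,
      flip_sa (w_sa k G) (G.proj i).isSelfAdjoint (G.proj i).isSelfAdjoint (w_g k G i),
      flip_sa (w_sa k G) (t_proj k G i).isSelfAdjoint (t_proj k G i).isSelfAdjoint.neg
        (w_t k G i)]
  w_sq := by
    rw [mul_assoc, mul_add, w_g k G, w_t k G, mul_add, mul_neg, w_g k G, w_t k G, neg_neg]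
  alt := Or.inr (by
    rw [mul_sub, sub_mul, k.V_p, k.V_m, sub_add_sub_cancel, sub_self, zero_mul])
  exc := hx

end

end Ty2Aux

open Ty2Aux in
theorem type_two (hπ : IsRep T π) {b : Blk T} {P r : H →L[ℂ] H} (h : RData b π P r)
    (hi : Irr (insert r (b.ops π P)) (Fix1 P)) (hn : ¬ Irr (b.ops π P) (Fix1 P)) :
    ∃ p : Pre T, Signs p π := by
  obtain ⟨i₀, p, m, k⟩ := exists_hp hπ h hi hn
  obtain ⟨W, hc, hle, hinv, hirr, hne, hl⟩ := h.z.half hi hn ⟨i₀, p, k.cp, rfl⟩ k.ne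
  obtain ⟨g, η, hη, G⟩ := exists_eg hπ k (inf_le_left.trans hle) (exSet hπ h k hc hle hinv hirr hne)
  have hx := exc_all k G fun n a ha ε hε => cross k G hπ h hc hle hinv hη.1 hl ha hε
  have f1 : ∀ i, π (tw b i₀ g i) (r η) = r η := fun i =>
    tw_fix hπ h (g_cor k G i) G.Pη (G.fix i)
  have hw : p - m ∈ T.A (b.N i₀) := sub_mem k.p_mem k.m_mem
  refine ⟨pre k G hx, η, r η, G.norm, ?_, fun i => ?_, fun i => ?_, ?_, Or.inr ?_⟩
  · have := inner_r h G.Pη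
    rw [inner_self_eq_norm_sq_to_K, inner_self_eq_norm_sq_to_K, G.norm] at this
    have h2 : ‖r η‖ ^ 2 = 1 ^ 2 := by exact_mod_cast this
    exact (pow_left_inj₀ (norm_nonneg _) zero_le_one two_ne_zero).1 h2
  · show π (g i + tw b i₀ g i) η = η
    have : π (tw b i₀ g i) η = 0 := by
      rw [← G.fix i, ← appA hπ (t_cor k G i).1 (G.mem i).1, t_g k G, map_zero,
        ContinuousLinearMap.zero_apply]
    rw [map_add, ContinuousLinearMap.add_apply, G.fix, this, add_zero]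
  · show π (g i + tw b i₀ g i) (r η) = r η
    have : π (g i) (r η) = 0 := by
      rw [← f1 i, ← appA hπ (G.mem i).1 (t_cor k G i).1, g_t k G, map_zero,
        ContinuousLinearMap.zero_apply]
    rw [map_add, ContinuousLinearMap.add_apply, f1, this, zero_add]
  · show π (p - m) η = η
    rw [← G.fix 0, ← appA hπ hw (G.mem 0).1, w_g k G]
  · show π (p - m) (r η) = -r η
    rw [← f1 0, ← appA hπ hw (t_cor k G 0).1, w_t k G, map_neg, ContinuousLinearMap.neg_apply]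

end Pool.Agent.P.MP_5d580a_an.Ng
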