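import Pool.Agent.P.MP_5d580a_an.N.Germ
import Pool.Agent.P.MP_5d580a_an.N.Blk
import Pool.Agent.P.MP_5d580a_an.N.Rz
import Pool.Agent.P.MP_5d580a_an.N.Ty1
import Pool.Agent.P.MP_5d580a_an.N.Ty2

open scoped ComplexOrder InnerProductSpace ComplexConjugate
open Filter Topology

set_option linter.unusedSectionVars false
set_option linter.unusedVariables false
set_option linter.deprecated false

noncomputable section

namespace Pool.Agent.P.MP_5d580a_an.Ng

variable {D C : Type} [CStarAlgebra D] [CStarAlgebra C]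
variable {H : Type} [NormedAddCommGroup H] [InnerProductSpace ℂ H] [CompleteSpace H]
variable {L : Type} [NormedAddCommGroup L] [InnerProductSpace ℂ L] [CompleteSpace L]

variable {T : Tower D} {π : D →ₗ[ℂ] (H →L[ℂ] H)}

/-- an irreducible representation is good or has an active germ -/
theorem dichotomy (hπ : IsRep T π) (hirr : Irr (opsB T π) (Fix1 (π 1))) (hg : ¬ Good T π) :
    ∃ γ : Germ T, Seen T π γ.g := by
  obtain ⟨b, ζ, hζ, hf⟩ := exists_blk hπ hirr hg
  obtain ⟨P, r, h⟩ := exists_rdata hπ b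
  have hne : Fix1 P ≠ ⊥ := by
    rw [h.fix]
    intro h0
    have : ζ ∈ (Fix fun i => π (b.e i)) := mem_Fix.2 hf
    rw [h0] at this
    exact hζ this
  have hp : ∃ p : Pre T, Signs p π := by
    by_cases hi : Irr (b.ops π P) (Fix1 P)
    · exact type_one hπ h hne hi
    · exact type_two hπ h (h.irr hπ hirr) hi
  obtain ⟨p, hs⟩ := hp
  obtain ⟨γ, hγ⟩ := p.germ
  exact ⟨γ, hγ ▸ hs.seen hπ⟩

theorem active_germ (hπ : IsRep T π) (hirr : Irr (opsB T π) (Fix1 (π 1))) (hg : ¬ Good T π)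
    {Γ : Set (Germ T)} (hΓ : MaxFam Γ) : ∃ γ ∈ Γ, ∃ η : H, η ≠ 0 ∧ ∀ i, π (γ.g i) η = η := by
  obtain ⟨γ, hs⟩ := dichotomy hπ hirr hg
  rcases hΓ.max γ with h | ⟨γ', h, ho⟩
  · obtain ⟨η₁, η₂, h1, -, f1, -⟩ := hs
    refine ⟨γ, h, η₁, ?_, f1⟩
    rintro rfl
    simp at h1
  · exact ⟨γ', h, hs.transfer hπ ho⟩

end Pool.Agent.P.MP_5d580a_an.Ng
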