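import Pool.Agent.P.MP_5d580a_an.N.Hom
import Pool.Agent.P.MP_5d580a_an.N.Hil
import Pool.Agent.P.MP_5d580a_an.N.Spec

open scoped ComplexOrder InnerProductSpace ComplexConjugate
open Filter Topology

set_option linter.unusedSectionVars false
set_option linter.unusedVariables false
set_option linter.deprecated false

noncomputable section

namespace Pool.Agent.P.MP_5d580a_an.Ng

variable {D C : Type} [CStarAlgebra D] [CStarAlgebra C]
variable {H : Type} [NormedAddCommGroup H] [InnerProductSpace ℂ H] [CompleteSpace H]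
variable {L : Type} [NormedAddCommGroup L] [InnerProductSpace ℂ L] [CompleteSpace L]

/-- a tower of corners acting irreducibly on `W` -/
structure ExSet (T : Tower D) (π : D →ₗ[ℂ] (H →L[ℂ] H)) (N : ℕ → ℕ) (o c e : ℕ → D)
    (W : Submodule ℂ H) : Prop where
  rep : IsRep T π
  mono : Monotone N
  o_mem : ∀ i, o i ∈ corner (T.A (N i)) (o i) (c i)
  o_proj : ∀ i, IsStarProjection (o i)
  c_sa : ∀ i, IsSelfAdjoint (c i)
  e_mem : ∀ i, e i ∈ T.A (N (i + 1))
  e_proj : ∀ i, IsStarProjection (e i)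
  e_comm : ∀ i, ∀ a ∈ T.A (N i), Commute (e i) a
  o_succ : ∀ i, o (i + 1) = o i * e i
  succ : ∀ i, ∀ x ∈ corner (T.A (N i)) (o i) (c i),
    x * e i ∈ corner (T.A (N (i + 1))) (o (i + 1)) (c (i + 1))
  closed : IsClosed (W : Set H)
  ne : W ≠ ⊥
  fix : ∀ i, ∀ η ∈ W, π (o i) η = η
  inv : Inv {y | ∃ i, ∃ x ∈ corner (T.A (N i)) (o i) (c i), y = π x} W
  irr : Irr {y | ∃ i, ∃ x ∈ corner (T.A (N i)) (o i) (c i), y = π x} W

variable {T : Tower D} {π : D →ₗ[ℂ] (H →L[ℂ] H)} {N : ℕ → ℕ} {o c e : ℕ → D}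
  {W : Submodule ℂ H}

/-- product of the step projections from level `i` on -/
def eprod (e : ℕ → D) (i : ℕ) : ℕ → D
  | 0 => 1
  | j + 1 => eprod e i j * e (i + j)

theorem Ex_star {S : StarSubalgebra ℂ D} {o c x : D} (ho : IsStarProjection o)
    (hc : IsSelfAdjoint c) (hx : x ∈ corner S o c) : star x ∈ corner S o c := by
  obtain ⟨h1, h2, h3, h4⟩ := mem_corner.1 hx
  refine mem_corner.2 ⟨star_mem h1, ?_, ?_, ?_⟩
  · have := congrArg star h3
    rwa [star_mul, ho.isSelfAdjoint.star_eq] at this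
  · have := congrArg star h2
    rwa [star_mul, ho.isSelfAdjoint.star_eq] at this
  · have := congrArg star h4
    rw [star_mul, star_mul, hc.star_eq] at this
    exact this.symm

theorem Ex_mul {S : StarSubalgebra ℂ D} {o c x y : D} (hx : x ∈ corner S o c)
    (hy : y ∈ corner S o c) : x * y ∈ corner S o c := by
  obtain ⟨h1, h2, h3, h4⟩ := mem_corner.1 hx
  obtain ⟨k1, k2, k3, k4⟩ := mem_corner.1 hy
  refine mem_corner.2 ⟨mul_mem h1 k1, ?_, ?_, ?_⟩
  · rw [← mul_assoc, h2]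
  · rw [mul_assoc, k3]
  · rw [mul_assoc, k4, ← mul_assoc, h4, mul_assoc]

theorem Ex_memB {i : ℕ} {x : D} (hx : x ∈ corner (T.A (N i)) (o i) (c i)) : x ∈ T.B (N i) :=
  T.A_le_B _ (mem_corner.1 hx).1

theorem Ex_e_fix (h : ExSet T π N o c e W) (k : ℕ) {η : H} (hη : η ∈ W) : π (e k) η = η := by
  have h1 : e k * o (k + 1) = o (k + 1) := by
    rw [h.o_succ, ← mul_assoc, (h.e_comm k _ (mem_corner.1 (h.o_mem k)).1).eq, mul_assoc,
      (h.e_proj k).isIdempotentElem.eq]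
  have h2 := h.rep.mul_apply (T.A_le_B _ (h.e_mem k)) (Ex_memB (h.o_mem (k + 1))) η
  rw [h1, h.fix _ _ hη] at h2
  exact h2.symm

theorem ExSet.lift (h : ExSet T π N o c e W) {i : ℕ} {x : D}
    (hx : x ∈ corner (T.A (N i)) (o i) (c i)) (j : ℕ) :
    x * eprod e i j ∈ corner (T.A (N (i + j))) (o (i + j)) (c (i + j)) ∧
      ∀ η ∈ W, π (x * eprod e i j) η = π x η := by
  induction j with
  | zero =>
    refine ⟨?_, fun η _ => ?_⟩
    · simpa [eprod] using hx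
    · simp [eprod]
  | succ j ih =>
    obtain ⟨h1, h2⟩ := ih
    have h3 : x * eprod e i (j + 1) = x * eprod e i j * e (i + j) := by
      rw [eprod, mul_assoc]
    refine ⟨?_, fun η hη => ?_⟩
    · rw [h3]
      exact h.succ (i + j) _ h1
    · rw [h3, h.rep.mul_apply (Ex_memB h1) (T.A_le_B _ (h.e_mem (i + j))), Ex_e_fix h _ hη,
        h2 η hη]

theorem Ex_lift_le (h : ExSet T π N o c e W) {i k : ℕ} (hik : i ≤ k) {x : D}
    (hx : x ∈ corner (T.A (N i)) (o i) (c i)) :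
    ∃ x' ∈ corner (T.A (N k)) (o k) (c k), ∀ η ∈ W, π x' η = π x η := by
  obtain ⟨j, rfl⟩ := Nat.exists_eq_add_of_le hik
  exact ⟨_, (h.lift hx j).1, (h.lift hx j).2⟩

theorem Ex_inv (h : ExSet T π N o c e W) {i : ℕ} {x : D}
    (hx : x ∈ corner (T.A (N i)) (o i) (c i)) {η : H} (hη : η ∈ W) : π x η ∈ W :=
  h.inv _ ⟨i, x, hx, rfl⟩ η hη

theorem Ex_pi_star (h : ExSet T π N o c e W) {i : ℕ} {x : D}
    (hx : x ∈ corner (T.A (N i)) (o i) (c i)) : π (star x) = star (π x) :=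
  (h.rep _).star _ (Ex_memB hx)

theorem Ex_cstar (h : ExSet T π N o c e W) {i : ℕ} {x : D}
    (hx : x ∈ corner (T.A (N i)) (o i) (c i)) : star x ∈ corner (T.A (N i)) (o i) (c i) :=
  Ex_star (h.o_proj i) (h.c_sa i) hx

/-- operators that agree on `W` have adjoints that agree on `W` -/
theorem Ex_agree_star {a b : H →L[ℂ] H} (ha : ∀ η ∈ W, (star a) η ∈ W)
    (hb : ∀ η ∈ W, (star b) η ∈ W) (hab : ∀ η ∈ W, a η = b η) :
    ∀ η ∈ W, (star a) η = (star b) η := by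
  intro η hη
  have hz : (star a) η - (star b) η ∈ W := W.sub_mem (ha η hη) (hb η hη)
  have h0 : ⟪(star a) η - (star b) η, (star a) η - (star b) η⟫_ℂ = 0 := by
    rw [inner_sub_right, inner_star_right, inner_star_right, hab _ hz, sub_self]
  exact sub_eq_zero.1 (inner_self_eq_zero.1 h0)

theorem Ex_star_agree (h : ExSet T π N o c e W) {i k : ℕ} {x x' : D}
    (hx : x ∈ corner (T.A (N i)) (o i) (c i)) (hx' : x' ∈ corner (T.A (N k)) (o k) (c k))
    (hab : ∀ η ∈ W, π x' η = π x η) : ∀ η ∈ W, π (star x') η = π (star x) η := by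
  rw [Ex_pi_star h hx, Ex_pi_star h hx']
  refine Ex_agree_star (fun η hη => ?_) (fun η hη => ?_) hab
  · rw [← Ex_pi_star h hx']
    exact Ex_inv h (Ex_cstar h hx') hη
  · rw [← Ex_pi_star h hx]
    exact Ex_inv h (Ex_cstar h hx) hη

/-- operators that leave `W` and its complement invariant and act on `W` as a corner element -/
def Ex_alg (h : ExSet T π N o c e W) : StarSubalgebra ℂ (H →L[ℂ] H) where
  carrier := {s | (∀ η ∈ W, (star s) η ∈ W) ∧
    ∃ i, ∃ x ∈ corner (T.A (N i)) (o i) (c i), ∀ η ∈ W, s η = π x η}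
  mul_mem' := by
    rintro s t ⟨s1, i, x, hx, s2⟩ ⟨t1, k, y, hy, t2⟩
    refine ⟨fun η hη => ?_, ?_⟩
    · rw [star_mul, ContinuousLinearMap.mul_apply]
      exact t1 _ (s1 η hη)
    · obtain ⟨x', hx', h1⟩ := Ex_lift_le h (le_max_left i k) hx
      obtain ⟨y', hy', h2⟩ := Ex_lift_le h (le_max_right i k) hy
      refine ⟨max i k, x' * y', Ex_mul hx' hy', fun η hη => ?_⟩
      rw [h.rep.mul_apply (Ex_memB hx') (Ex_memB hy'), ContinuousLinearMap.mul_apply, t2 η hη,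
        h2 η hη, s2 _ (Ex_inv h hy hη), h1 _ (Ex_inv h hy hη)]
  add_mem' := by
    rintro s t ⟨s1, i, x, hx, s2⟩ ⟨t1, k, y, hy, t2⟩
    refine ⟨fun η hη => ?_, ?_⟩
    · rw [star_add, ContinuousLinearMap.add_apply]
      exact W.add_mem (s1 η hη) (t1 η hη)
    · obtain ⟨x', hx', h1⟩ := Ex_lift_le h (le_max_left i k) hx
      obtain ⟨y', hy', h2⟩ := Ex_lift_le h (le_max_right i k) hy
      refine ⟨max i k, x' + y', add_mem hx' hy', fun η hη => ?_⟩
      rw [map_add, ContinuousLinearMap.add_apply, ContinuousLinearMap.add_apply, s2 η hη, t2 η hη,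
        h1 η hη, h2 η hη]
  algebraMap_mem' := by
    intro z
    refine ⟨fun η hη => ?_, 0, z • o 0, Submodule.smul_mem _ z (h.o_mem 0), fun η hη => ?_⟩
    · rw [← algebraMap_star_comm, Algebra.algebraMap_eq_smul_one, ContinuousLinearMap.smul_apply,
        ContinuousLinearMap.one_apply]
      exact W.smul_mem _ hη
    · rw [Algebra.algebraMap_eq_smul_one, map_smul, ContinuousLinearMap.smul_apply,
        ContinuousLinearMap.smul_apply, ContinuousLinearMap.one_apply, h.fix 0 η hη]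
  star_mem' := by
    rintro s ⟨s1, i, x, hx, s2⟩
    refine ⟨fun η hη => ?_, i, star x, Ex_cstar h hx, ?_⟩
    · rw [star_star, s2 η hη]
      exact Ex_inv h hx hη
    · rw [Ex_pi_star h hx]
      refine Ex_agree_star s1 (fun η hη => ?_) s2
      rw [← Ex_pi_star h hx]
      exact Ex_inv h (Ex_cstar h hx) hη

theorem Ex_mem_alg (h : ExSet T π N o c e W) {s : H →L[ℂ] H} :
    s ∈ Ex_alg h ↔ (∀ η ∈ W, (star s) η ∈ W) ∧
      ∃ i, ∃ x ∈ corner (T.A (N i)) (o i) (c i), ∀ η ∈ W, s η = π x η := Iff.rfl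

/-- an operator supported on `W` is in the double commutant -/
theorem Ex_bicomm (h : ExSet T π N o c e W) {Q : H →L[ℂ] H} (hQ : IsStarProjection Q)
    (hF : Fix1 Q = W) {R : H →L[ℂ] H} (h1 : Q * R = R) (h2 : R * Q = R) (y : H →L[ℂ] H)
    (hy : ∀ s ∈ Ex_alg h, s * y = y * s) : y * R = R * y := by
  have hQW : ∀ η ∈ W, Q η = η := fun η hη => mem_Fix1.1 (hF ▸ hη)
  have hWQ : ∀ η, Q η ∈ W := fun η => hF ▸ prj_mem hQ η
  have hQm : Q ∈ Ex_alg h := by
    refine (Ex_mem_alg h).2 ⟨fun η hη => ?_, 0, o 0, h.o_mem 0, fun η hη => ?_⟩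
    · rw [hQ.isSelfAdjoint.star_eq]
      exact hWQ η
    · rw [hQW η hη, h.fix 0 η hη]
  have hc := hy Q hQm
  have hc' : Q * star y = star y * Q := by
    have := congrArg star hc
    rw [star_mul, star_mul, hQ.isSelfAdjoint.star_eq] at this
    exact this.symm
  have hinv : ∀ u : H →L[ℂ] H, Q * u = u * Q → ∀ η ∈ W, u η ∈ W := by
    intro u hu η hη
    have h3 : Q (u η) = u η := by
      rw [← ContinuousLinearMap.mul_apply, hu, ContinuousLinearMap.mul_apply, hQW η hη]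
    rw [← h3]
    exact hWQ _
  obtain ⟨z, hz⟩ := schur h.closed (by
      rintro _ ⟨i, x, hx, rfl⟩
      exact ⟨i, star x, Ex_cstar h hx, (Ex_pi_star h hx).symm⟩) h.inv h.irr (hinv y hc)
    (hinv _ hc') (by
      rintro _ ⟨i, x, hx, rfl⟩ η hη
      have hm : π x ∈ Ex_alg h := by
        refine (Ex_mem_alg h).2 ⟨fun ζ hζ => ?_, i, x, hx, fun _ _ => rfl⟩
        rw [← Ex_pi_star h hx]
        exact Ex_inv h (Ex_cstar h hx) hζ
      rw [← ContinuousLinearMap.mul_apply, ← hy _ hm, ContinuousLinearMap.mul_apply])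
  have hyQ : y * Q = z • Q := by
    ext η
    rw [ContinuousLinearMap.mul_apply, hz _ (hWQ η), ContinuousLinearMap.smul_apply]
  calc y * R = y * Q * R := by rw [mul_assoc, h1]
    _ = z • R := by rw [hyQ, smul_mul_assoc, h1]
    _ = R * (y * Q) := by rw [hyQ, mul_smul_comm, h2]
    _ = R * y := by rw [← hc, ← mul_assoc, h2]

/-- approximate transitivity for an element and its adjoint -/
theorem ExSet.trans (h : ExSet T π N o c e W) {η ν : H} (hη : η ∈ W) (hν : ν ∈ W)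
    (h1 : ‖η‖ = 1) (h0 : ⟪η, ν⟫_ℂ = 0) {ε : ℝ} (hε : 0 < ε) :
    ∃ i, ∃ l ∈ corner (T.A (N i)) (o i) (c i), ‖π l η‖ ≤ ε ∧ ‖π (star l) η - ν‖ ≤ ε := by
  obtain ⟨Q, hQ, hF⟩ := exists_prj W h.closed
  have hQW : ∀ η ∈ W, Q η = η := fun η hη => mem_Fix1.1 (hF ▸ hη)
  obtain ⟨R, hR⟩ : ∃ R : H →L[ℂ] H, R = InnerProductSpace.rankOne ℂ η ν := ⟨_, rfl⟩
  have hRs : star R = InnerProductSpace.rankOne ℂ ν η := by
    rw [hR, ContinuousLinearMap.star_eq_adjoint, InnerProductSpace.adjoint_rankOne]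
  have hR0 : R η = 0 := by
    rw [hR, InnerProductSpace.rankOne_apply, ← inner_conj_symm, h0, map_zero, zero_smul]
  have hR1 : (star R) η = ν := by
    rw [hRs, InnerProductSpace.rankOne_apply, inner_self_eq_norm_sq_to_K, h1]
    simp
  have hQR : Q * R = R := by
    ext ζ
    rw [ContinuousLinearMap.mul_apply, hR, InnerProductSpace.rankOne_apply, map_smul, hQW η hη]
  have hQR' : Q * star R = star R := by
    ext ζ
    rw [ContinuousLinearMap.mul_apply, hRs, InnerProductSpace.rankOne_apply, map_smul, hQW ν hν]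
  have hRQ : R * Q = R := by
    have := congrArg star hQR'
    rwa [star_mul, star_star, hQ.isSelfAdjoint.star_eq] at this
  have hRQ' : star R * Q = star R := by
    have := congrArg star hQR
    rwa [star_mul, hQ.isSelfAdjoint.star_eq] at this
  have hsa1 : IsSelfAdjoint (R + star R) := IsSelfAdjoint.add_star_self R
  have hsa2 : IsSelfAdjoint (Complex.I • (R - star R)) := by
    rw [IsSelfAdjoint, star_smul, star_sub, star_star, Complex.star_def, Complex.conj_I,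
      neg_smul, ← smul_neg, neg_sub]
  obtain ⟨s1, hs1, sa1, a1⟩ := approx_sa (Ex_alg h) (T := R + star R)
    (Ex_bicomm h hQ hF (by rw [mul_add, hQR, hQR']) (by rw [add_mul, hRQ, hRQ'])) hsa1 {η} hε
  obtain ⟨s2, hs2, sa2, a2⟩ := approx_sa (Ex_alg h) (T := Complex.I • (R - star R))
    (Ex_bicomm h hQ hF (by rw [mul_smul_comm, mul_sub, hQR, hQR'])
      (by rw [smul_mul_assoc, sub_mul, hRQ, hRQ'])) hsa2 {η} hε
  have b1 := a1 η (Finset.mem_singleton_self η)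
  have b2 := a2 η (Finset.mem_singleton_self η)
  rw [ContinuousLinearMap.add_apply, hR0, hR1, zero_add] at b1
  rw [ContinuousLinearMap.smul_apply, ContinuousLinearMap.sub_apply, hR0, hR1, zero_sub] at b2
  have hs : (2⁻¹ : ℂ) • (s1 - Complex.I • s2) ∈ Ex_alg h :=
    (Ex_alg h).smul_mem (sub_mem hs1 ((Ex_alg h).smul_mem hs2 _)) _
  obtain ⟨t1, i, l, hl, t2⟩ := (Ex_mem_alg h).1 hs
  have t3 := Ex_agree_star t1 (b := π l) (fun ζ hζ => by
    rw [← Ex_pi_star h hl]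
    exact Ex_inv h (Ex_cstar h hl) hζ) t2 η hη
  have hst : star ((2⁻¹ : ℂ) • (s1 - Complex.I • s2)) = (2⁻¹ : ℂ) • (s1 + Complex.I • s2) := by
    rw [star_smul, star_sub, star_smul, sa1.star_eq, sa2.star_eq, Complex.star_def,
      Complex.conj_I, neg_smul, sub_neg_eq_add, map_inv₀, map_ofNat]
  have hII : Complex.I • Complex.I • ν = -ν := by
    rw [smul_smul, Complex.I_mul_I, neg_smul, one_smul]
  have hn : ∀ u v : H, ‖u‖ ≤ ε → ‖v‖ ≤ ε → ‖(2⁻¹ : ℂ) • (u + v)‖ ≤ ε := by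
    intro u v hu hv
    have := norm_add_le u v
    rw [norm_smul, norm_inv, Complex.norm_ofNat]
    linarith
  have hI : ∀ v : H, ‖Complex.I • v‖ = ‖v‖ := fun v => by
    rw [norm_smul, Complex.norm_I, one_mul]
  refine ⟨i, l, hl, ?_, ?_⟩
  · rw [← t2 η hη]
    have e1 : ((2⁻¹ : ℂ) • (s1 - Complex.I • s2)) η =
        (2⁻¹ : ℂ) • ((s1 η - ν) + -(Complex.I • (s2 η - Complex.I • -ν))) := by
      rw [ContinuousLinearMap.smul_apply, ContinuousLinearMap.sub_apply,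
        ContinuousLinearMap.smul_apply, smul_sub Complex.I, smul_neg, smul_neg, hII]
      congr 1
      abel
    rw [e1]
    exact hn _ _ b1 (by rw [norm_neg, hI]; exact b2)
  · rw [Ex_pi_star h hl, ← t3, hst]
    have e1 : ((2⁻¹ : ℂ) • (s1 + Complex.I • s2)) η - ν =
        (2⁻¹ : ℂ) • ((s1 η - ν) + (Complex.I • (s2 η - Complex.I • -ν))) := by
      rw [ContinuousLinearMap.smul_apply, ContinuousLinearMap.add_apply,
        ContinuousLinearMap.smul_apply, smul_sub Complex.I, smul_neg, smul_neg, hII]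
      module
    rw [e1]
    exact hn _ _ b1 (by rw [hI]; exact b2)

theorem Ex_o_add (h : ExSet T π N o c e W) (k d : ℕ) : o (k + d) = o k * eprod e k d := by
  induction d with
  | zero => simp [eprod]
  | succ d ih => rw [← add_assoc, h.o_succ, ih, eprod, mul_assoc]

theorem Ex_lift_proj (h : ExSet T π N o c e W) {i : ℕ} {g : D}
    (hg : g ∈ corner (T.A (N i)) (o i) (c i)) (hp : IsStarProjection g) (j : ℕ) :
    IsStarProjection (g * eprod e i j) := by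
  induction j with
  | zero => simpa [eprod] using hp
  | succ j ih =>
    rw [eprod, ← mul_assoc]
    exact ih.mul (h.e_proj _) (h.e_comm _ _ (mem_corner.1 (h.lift hg j).1).1).symm

/-- lifting an element that is only seen through the unit of the higher corner -/
theorem Ex_lift_o (h : ExSet T π N o c e W) {i k : ℕ} (hik : i ≤ k) {x : D}
    (hx : x ∈ corner (T.A (N i)) (o i) (c i)) :
    x * o k ∈ corner (T.A (N k)) (o k) (c k) ∧ ∀ η ∈ W, π (x * o k) η = π x η := by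
  obtain ⟨j, rfl⟩ := Nat.exists_eq_add_of_le hik
  have h1 : x * o (i + j) = x * eprod e i j := by
    rw [Ex_o_add h, ← mul_assoc, (mem_corner.1 hx).2.2.1]
  rw [h1]
  exact h.lift hx j

theorem Ex_normalise {ζ η : H} (h1 : ‖η‖ = 1) {τ : ℝ} (hτ : τ ≤ 1 / 2) (hd : ‖η - ζ‖ ≤ τ) :
    ∃ r : ℂ, ‖r • ζ‖ = 1 ∧ ‖r • ζ - η‖ ≤ 2 * τ := by
  have h2 : |‖η‖ - ‖ζ‖| ≤ τ := (abs_norm_sub_norm_le η ζ).trans hd
  rw [h1] at h2
  have h3 := abs_le.1 h2
  have h4 : 0 < ‖ζ‖ := by linarith [h3.2]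
  refine ⟨((‖ζ‖⁻¹ : ℝ) : ℂ), ?_, ?_⟩
  · rw [norm_smul, Complex.norm_real, norm_inv, norm_norm, inv_mul_cancel₀ h4.ne']
  · have e1 : ((‖ζ‖⁻¹ : ℝ) : ℂ) • ζ - η = ((‖ζ‖⁻¹ - 1 : ℝ) : ℂ) • ζ - (η - ζ) := by
      rw [Complex.ofReal_sub, sub_smul, Complex.ofReal_one, one_smul]
      abel
    have e2 : ‖((‖ζ‖⁻¹ - 1 : ℝ) : ℂ) • ζ‖ = |1 - ‖ζ‖| := by
      rw [norm_smul, Complex.norm_real, Real.norm_eq_abs, ← abs_of_pos h4, ← abs_mul,
        abs_of_pos h4, sub_mul, inv_mul_cancel₀ h4.ne', one_mul]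
    rw [e1]
    have := norm_sub_le (((‖ζ‖⁻¹ - 1 : ℝ) : ℂ) • ζ) (η - ζ)
    rw [e2] at this
    linarith

/-- the spectral cut nearly fixes a vector on which both squares are small -/
theorem Ex_near {S : StarSubalgebra ℂ D} (hπ : HomOn S π) {a b χ z : D} (ha : a ∈ S) (hb : b ∈ S)
    (hχ : χ ∈ S) (hz : z ∈ S) (hp : IsStarProjection χ) {δ : ℝ}
    (he : star a * a + star b * b - (δ : ℂ) • (1 - χ) = star z * z) (η : H) :
    δ * ‖π (1 - χ) η‖ ^ 2 ≤ ‖π a η‖ ^ 2 + ‖π b η‖ ^ 2 := by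
  have key : ∀ u ∈ S, ‖π u η‖ ^ 2 = (⟪η, π (star u * u) η⟫_ℂ).re := by
    intro u hu
    rw [norm_sq_apply, hπ.mul _ (star_mem hu) _ hu, hπ.star _ hu]
  have h1 : star (1 - χ) * (1 - χ) = 1 - χ := by
    rw [hp.one_sub.isSelfAdjoint.star_eq, hp.one_sub.isIdempotentElem.eq]
  have h2 := key _ (sub_mem (one_mem S) hχ)
  rw [h1] at h2
  have h3 := key z hz
  rw [← he, map_sub, map_add, map_smul, ContinuousLinearMap.sub_apply,
    ContinuousLinearMap.add_apply, ContinuousLinearMap.smul_apply, inner_sub_right,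
    inner_add_right, inner_smul_right, Complex.sub_re, Complex.add_re, Complex.re_ofReal_mul,
    ← key a ha, ← key b hb, ← h2] at h3
  have h4 := sq_nonneg ‖π z η‖
  linarith

theorem Ex_cut_norm {g χ l : D} (hg : IsStarProjection (g * χ)) {t : ℝ} (ht : 0 ≤ t)
    (hl : ‖l * g * χ‖ ^ 2 ≤ t ^ 2) : ‖g * χ * l * (g * χ)‖ ≤ t := by
  have h1 : ‖l * g * χ‖ ≤ t := (pow_le_pow_iff_left₀ (norm_nonneg _) ht two_ne_zero).1 hl
  calc ‖g * χ * l * (g * χ)‖ = ‖g * χ * (l * g * χ)‖ := by simp only [mul_assoc]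
    _ ≤ ‖g * χ‖ * ‖l * g * χ‖ := norm_mul_le _ _
    _ ≤ 1 * t := by gcongr; exact hg.norm_le
    _ = t := one_mul t

/-- one step of excision -/
theorem ExSet.step (h : ExSet T π N o c e W) {i : ℕ} {g : D}
    (hg : g ∈ corner (T.A (N i)) (o i) (c i)) (hp : IsStarProjection g) {η : H} (hη : η ∈ W)
    (h1 : ‖η‖ = 1) (hf : π g η = η) {i' : ℕ} {x : D}
    (hx : x ∈ corner (T.A (N i')) (o i') (c i')) {ε : ℝ} (hε : 0 < ε) :
    ∃ j, 0 < j ∧ i' ≤ i + j ∧ ∃ g' ∈ corner (T.A (N (i + j))) (o (i + j)) (c (i + j)),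
      IsStarProjection g' ∧ g * eprod e i j * g' = g' ∧ ∃ η' ∈ W, ‖η'‖ = 1 ∧ π g' η' = η' ∧
        ‖η' - η‖ ≤ ε ∧ ∃ z : ℂ, ‖g' * x * g' - z • g'‖ ≤ ε := by
  obtain ⟨z, hz⟩ : ∃ z : ℂ, z = ⟪η, π x η⟫_ℂ := ⟨_, rfl⟩
  obtain ⟨ν, hν⟩ : ∃ ν : H, ν = π g (π (star x) η) - conj z • η := ⟨_, rfl⟩
  have hνW : ν ∈ W := by
    rw [hν]
    exact W.sub_mem (Ex_inv h hg (Ex_inv h (Ex_cstar h hx) hη)) (W.smul_mem _ hη)
  have hgs : star (π g) = π g := by rw [← Ex_pi_star h hg, hp.isSelfAdjoint.star_eq]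
  have h0 : ⟪η, ν⟫_ℂ = 0 := by
    rw [hν, inner_sub_right, ← hgs, inner_star_right, hf, Ex_pi_star h hx, inner_star_right,
      inner_smul_right, inner_self_eq_norm_sq_to_K, h1, hz, inner_conj_symm]
    simp
  obtain ⟨τ, hτ0, hτ1, hτ2⟩ : ∃ τ : ℝ, 0 < τ ∧ τ ≤ 1 / 2 ∧ 2 * τ ≤ ε :=
    ⟨min (1 / 2) (ε / 2), lt_min (by norm_num) (by linarith), min_le_left _ _,
      by linarith [min_le_right (1 / 2 : ℝ) (ε / 2)]⟩
  have hε' : 0 < τ * (ε / 2) / 2 := by positivity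
  obtain ⟨i2, l0, hl0, t1, t2⟩ := h.trans hη hνW h1 h0 hε'
  obtain ⟨j, hj⟩ : ∃ j, j = i' + i2 + 1 := ⟨_, rfl⟩
  refine ⟨j, by omega, by omega, ?_⟩
  obtain ⟨hg1, ag⟩ := h.lift hg j
  have pg := Ex_lift_proj h hg hp j
  generalize g * eprod e i j = g1 at hg1 ag pg ⊢
  obtain ⟨hx1, ax⟩ := Ex_lift_o h (show i' ≤ i + j by omega) hx
  obtain ⟨l, hl, al⟩ := Ex_lift_le h (show i2 ≤ i + j by omega) hl0
  generalize i + j = k at hg1 hx1 ax hl ⊢
  have gg : g1 * g1 = g1 := pg.isIdempotentElem.eq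
  have gs : star g1 = g1 := pg.isSelfAdjoint.star_eq
  have gη : π g1 η = η := by rw [ag η hη, hf]
  obtain ⟨y, hy⟩ : ∃ y : D, y = g1 * (x * o k) * g1 - z • g1 := ⟨_, rfl⟩
  have hyc : y ∈ corner (T.A (N k)) (o k) (c k) := by
    rw [hy]
    exact sub_mem (Ex_mul (Ex_mul hg1 hx1) hg1) (Submodule.smul_mem _ _ hg1)
  have hyν : π (star y) η = ν := by
    have hxs := Ex_cstar h hx1
    rw [hy, star_sub, star_smul, star_mul, star_mul g1, gs, map_sub, map_smul,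
      ContinuousLinearMap.sub_apply, ContinuousLinearMap.smul_apply,
      h.rep.mul_apply (Ex_memB hg1) (Ex_memB (Ex_mul hxs hg1)),
      h.rep.mul_apply (Ex_memB hxs) (Ex_memB hg1), gη, Ex_star_agree h hx hx1 ax η hη,
      ag _ (Ex_inv h (Ex_cstar h hx) hη), hν]
    rfl
  obtain ⟨l2, hl2⟩ : ∃ l2 : D, l2 = star y - star l := ⟨_, rfl⟩
  have hl2c : l2 ∈ corner (T.A (N k)) (o k) (c k) := by
    rw [hl2]
    exact sub_mem (Ex_cstar h hyc) (Ex_cstar h hl)
  have hyl : y = l + star l2 := by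
    rw [hl2, star_sub, star_star, star_star]
    abel
  have u1 : ‖π (l * g1) η‖ ≤ τ * (ε / 2) / 2 := by
    rw [h.rep.mul_apply (Ex_memB hl) (Ex_memB hg1), gη, al η hη]
    exact t1
  have u2 : ‖π (l2 * g1) η‖ ≤ τ * (ε / 2) / 2 := by
    rw [h.rep.mul_apply (Ex_memB hl2c) (Ex_memB hg1), gη, hl2, map_sub,
      ContinuousLinearMap.sub_apply, hyν, Ex_star_agree h hl0 hl al η hη, norm_sub_rev]
    exact t2
  have hac := Ex_mul hl hg1
  have hbc := Ex_mul hl2c hg1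
  have := T.finA (N k)
  obtain ⟨χ, hχ, pχ, cχ, n1, n2, w, hw, he⟩ := spec_cut (T.A (N k)) (mem_corner.1 hac).1
    (mem_corner.1 hbc).1 (δ := (ε / 2) ^ 2) (by positivity)
  have hK : star (l * g1) * (l * g1) + star (l2 * g1) * (l2 * g1) ∈
      corner (T.A (N k)) (o k) (c k) :=
    add_mem (Ex_mul (Ex_cstar h hac) hac) (Ex_mul (Ex_cstar h hbc) hbc)
  have c1 : Commute g1 χ := by
    refine cχ _ ?_
    have e1 : ∀ u : D, g1 * (star (u * g1) * (u * g1)) = star (u * g1) * (u * g1) * g1 := by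
      intro u
      rw [star_mul, gs]
      calc g1 * (g1 * star u * (u * g1)) = (g1 * g1) * star u * (u * g1) := by
            simp only [mul_assoc]
        _ = g1 * star u * (u * (g1 * g1)) := by rw [gg]
        _ = g1 * star u * (u * g1) * g1 := by simp only [mul_assoc]
    show _ * _ = _ * _
    rw [mul_add, add_mul, e1, e1]
  have c2 : Commute (c k) χ := cχ _ (mem_corner.1 hK).2.2.2.symm
  obtain ⟨m1, m2, m3, m4⟩ := mem_corner.1 hg1
  have pg' : IsStarProjection (g1 * χ) := pg.mul pχ c1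
  have hg' : g1 * χ ∈ corner (T.A (N k)) (o k) (c k) := by
    refine mem_corner.2 ⟨mul_mem m1 hχ, ?_, ?_, ?_⟩
    · rw [← mul_assoc, m2]
    · rw [c1.eq, mul_assoc, m3]
    · rw [mul_assoc, ← c2.eq, ← mul_assoc, m4, mul_assoc]
  have e1 : g1 * (g1 * χ) = g1 * χ := by rw [← mul_assoc, gg]
  have e2 : g1 * χ * g1 = g1 * χ := by rw [c1.eq, mul_assoc, gg]
  have e3 : g1 * χ * (g1 * χ) = g1 * χ := pg'.isIdempotentElem.eq
  have hπ : HomOn (T.A (N k)) π := (h.rep (N k)).mono (T.A_le_B _)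
  have near := Ex_near hπ (mem_corner.1 hac).1 (mem_corner.1 hbc).1 hχ hw pχ he η
  have hone : π 1 η = η := by
    have h3 := h.rep.mul_apply (one_mem (T.B (N k))) (Ex_memB (h.o_mem k)) η
    rw [one_mul, h.fix _ _ hη] at h3
    exact h3.symm
  have hζ : π (1 - χ) η = η - π (g1 * χ) η := by
    rw [map_sub, ContinuousLinearMap.sub_apply, hone, c1.eq,
      h.rep.mul_apply (T.A_le_B _ hχ) (Ex_memB hg1), gη]
  rw [hζ] at near
  have hd : ‖η - π (g1 * χ) η‖ ≤ τ := by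
    have v1 := pow_le_pow_left₀ (norm_nonneg _) u1 2
    have v2 := pow_le_pow_left₀ (norm_nonneg _) u2 2
    have v0 : 0 < (ε / 2) ^ 2 := by positivity
    have v3 : (ε / 2) ^ 2 * ‖η - π (g1 * χ) η‖ ^ 2 ≤ (ε / 2) ^ 2 * τ ^ 2 := by
      have v4 : (τ * (ε / 2) / 2) ^ 2 = (ε / 2) ^ 2 * τ ^ 2 / 4 := by ring
      have v5 : 0 ≤ (ε / 2) ^ 2 * τ ^ 2 := by positivity
      linarith
    exact (pow_le_pow_iff_left₀ (norm_nonneg _) hτ0.le two_ne_zero).1
      (le_of_mul_le_mul_left v3 v0)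
  obtain ⟨r, r1, r2⟩ := Ex_normalise h1 hτ1 hd
  refine ⟨g1 * χ, hg', pg', e1, r • π (g1 * χ) η, W.smul_mem _ (Ex_inv h hg' hη), r1, ?_,
    r2.trans hτ2, z, ?_⟩
  · rw [map_smul, ← h.rep.mul_apply (Ex_memB hg') (Ex_memB hg'), e3]
  · have e4 : g1 * χ * x * (g1 * χ) - z • (g1 * χ) = g1 * χ * y * (g1 * χ) := by
      rw [hy, mul_sub, sub_mul, mul_smul_comm, smul_mul_assoc, e2, e3]
      congr 1
      calc g1 * χ * x * (g1 * χ) = (g1 * χ * g1) * x * ((o k * g1) * χ) := by rw [e2, m2]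
        _ = (g1 * χ * g1) * x * (o k * (g1 * (g1 * χ))) := by rw [e1, mul_assoc (o k)]
        _ = g1 * χ * (g1 * (x * o k) * g1) * (g1 * χ) := by simp only [mul_assoc]
    have e5 : ‖g1 * χ * star l2 * (g1 * χ)‖ = ‖g1 * χ * l2 * (g1 * χ)‖ := by
      rw [← norm_star, star_mul, star_mul (g1 * χ), star_star, pg'.isSelfAdjoint.star_eq,
        mul_assoc (g1 * χ)]
    have f1 := Ex_cut_norm pg' (by linarith : 0 ≤ ε / 2) n1
    have f2 := Ex_cut_norm pg' (by linarith : 0 ≤ ε / 2) n2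
    rw [e4, hyl, mul_add, add_mul]
    have f3 := norm_add_le (g1 * χ * l * (g1 * χ)) (g1 * χ * star l2 * (g1 * χ))
    rw [e5] at f3
    linarith

end Pool.Agent.P.MP_5d580a_an.Ng
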