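import Pool.Agent.P.MP_5d580a_an.N.Hom

open scoped ComplexOrder InnerProductSpace ComplexConjugate
open Filter Topology

set_option linter.unusedSectionVars false
set_option linter.unusedVariables false
set_option linter.deprecated false

noncomputable section

namespace Pool.Agent.P.MP_5d580a_an.Ng

variable {D C : Type} [CStarAlgebra D] [CStarAlgebra C]
variable {H : Type} [NormedAddCommGroup H] [InnerProductSpace ℂ H] [CompleteSpace H]
variable {L : Type} [NormedAddCommGroup L] [InnerProductSpace ℂ L] [CompleteSpace L]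

theorem mem_desc {y j w : ℕ} : w ∈ desc y j ↔ w / 2 ^ j = y := by
  have h : 0 < 2 ^ j := by positivity
  rw [desc, Finset.mem_Ico, Nat.div_eq_iff h]
  have e : (y + 1) * 2 ^ j = y * 2 ^ j + 2 ^ j := by ring
  omega

theorem sum_desc_succ {M : Type} [AddCommMonoid M] (y j : ℕ) (f : ℕ → M) :
    ∑ w ∈ desc y (j + 1), f w = ∑ w ∈ desc y j, (f (2 * w) + f (2 * w + 1)) := by
  have key : ∀ a n : ℕ, ∑ w ∈ Finset.Ico (2 * a) (2 * (a + n)), f w =
      ∑ w ∈ Finset.Ico a (a + n), (f (2 * w) + f (2 * w + 1)) := by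
    intro a n
    induction n with
    | zero => simp
    | succ n ih =>
      have e1 : 2 * (a + (n + 1)) = 2 * (a + n) + 1 + 1 := by ring
      rw [e1, Finset.sum_Ico_succ_top (by omega), Finset.sum_Ico_succ_top (by omega), ih,
        ← add_assoc a n 1, Finset.sum_Ico_succ_top (by omega), add_assoc]
  have e2 : y * 2 ^ (j + 1) = 2 * (y * 2 ^ j) := by ring
  have e3 : (y + 1) * 2 ^ (j + 1) = 2 * (y * 2 ^ j + 2 ^ j) := by ring
  have e4 : (y + 1) * 2 ^ j = y * 2 ^ j + 2 ^ j := by ring
  rw [desc, desc, e2, e3, e4, key]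

theorem IsPath.lt {ω : ℕ → ℕ} (h : IsPath ω) (k : ℕ) : ω k < 2 ^ (k + 1) := by
  induction k with
  | zero => simpa using h.1
  | succ k ih =>
    have h1 := h.2 k
    have e : 2 ^ (k + 1 + 1) = 2 * 2 ^ (k + 1) := by ring
    omega

theorem IsPath.div {ω : ℕ → ℕ} (h : IsPath ω) (n j : ℕ) : ω (n + j) / 2 ^ j = ω n := by
  induction j with
  | zero => simp
  | succ j ih =>
    rw [pow_succ', ← Nat.div_div_eq_div_mul, ← add_assoc, h.2, ih]

theorem IsPath.mem_desc {ω : ℕ → ℕ} (h : IsPath ω) (n j : ℕ) : ω (n + j) ∈ desc (ω n) j := by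
  exact Ng.mem_desc.mpr (h.div n j)

theorem Exp0_norm {x y : D} (hx : IsSelfAdjoint x) (hy : IsSelfAdjoint y)
    (h : x * x + y * y = 1) : ‖x‖ ≤ 1 := by
  let _ := CStarAlgebra.spectralOrder D
  have := CStarAlgebra.spectralOrderedRing D
  have h1 : (0 : D) ≤ x * x := by simpa [hx.star_eq] using star_mul_self_nonneg x
  have h2 : (0 : D) ≤ y * y := by simpa [hy.star_eq] using star_mul_self_nonneg y
  have h3 : x * x ≤ 1 := by rw [← h]; exact le_add_of_nonneg_right h2
  have h4 : ‖x * x‖ ≤ 1 :=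
    (CStarAlgebra.norm_le_norm_of_nonneg_of_le h1 h3).trans (IsStarProjection.one D).norm_le
  have h5 : ‖x * x‖ = ‖x‖ * ‖x‖ := by
    simpa [hx.star_eq] using CStarRing.norm_star_mul_self (x := x)
  nlinarith [norm_nonneg x]

theorem Exp0_ring {R : Type} [Ring R] {p q : R} (hp : p * p = p) (hq : q * q = q) :
    (p + q - 1) * (p + q - 1) + (p - q) * (p - q) = 1 ∧
      (p + q - 1) * (p - q) + (p - q) * (p + q - 1) = 0 := by
  constructor
  · calc (p + q - 1) * (p + q - 1) + (p - q) * (p - q)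
        = 2 * (p * p) + 2 * (q * q) - 2 * p - 2 * q + 1 := by noncomm_ring
      _ = 1 := by rw [hp, hq]; noncomm_ring
  · calc (p + q - 1) * (p - q) + (p - q) * (p + q - 1)
        = 2 * (p * p) - 2 * (q * q) - 2 * p + 2 * q := by noncomm_ring
      _ = 0 := by rw [hp, hq]; noncomm_ring

theorem Exp0_step {R : Type} [Ring R] {A B a d : R} (h1 : A * A + B * B = 1)
    (h2 : A * B + B * A = 0) (h3 : a * a + d * d = 1) (h4 : a * d + d * a = 0)
    (aA : Commute a A) (aB : Commute a B) (dA : Commute d A) (dB : Commute d B) :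
    (A + B * a) * (A + B * a) + B * d * (B * d) = 1 ∧
      (A + B * a) * (B * d) + B * d * (A + B * a) = 0 := by
  have e1 : B * a * A = B * A * a := by rw [mul_assoc, aA.eq, mul_assoc]
  have e2 : B * d * A = B * A * d := by rw [mul_assoc, dA.eq, mul_assoc]
  have e3 : ∀ x : R, B * a * (B * x) = B * B * (a * x) := by
    intro x
    rw [mul_assoc, ← mul_assoc a, aB.eq, mul_assoc, mul_assoc]
  have e4 : ∀ x : R, B * d * (B * x) = B * B * (d * x) := by
    intro x
    rw [mul_assoc, ← mul_assoc d, dB.eq, mul_assoc, mul_assoc]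
  constructor
  · calc (A + B * a) * (A + B * a) + B * d * (B * d)
        = A * A + (A * B * a + B * a * A) + (B * a * (B * a) + B * d * (B * d)) := by
          noncomm_ring
      _ = A * A + (A * B + B * A) * a + B * B * (a * a + d * d) := by
          rw [e1, e3, e4, add_mul, mul_add]
      _ = 1 := by rw [h2, h3, zero_mul, add_zero, mul_one, h1]
  · calc (A + B * a) * (B * d) + B * d * (A + B * a)
        = (A * B * d + B * d * A) + (B * a * (B * d) + B * d * (B * a)) := by noncomm_ring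
      _ = (A * B + B * A) * d + B * B * (a * d + d * a) := by
          rw [e2, e3, e4, add_mul, mul_add]
      _ = 0 := by rw [h2, h4, zero_mul, mul_zero, add_zero]

namespace Tower

variable (T : Tower D)

theorem Exp0_d_comm (k y : ℕ) {a : D} (ha : a ∈ T.A k) : Commute (T.pp k y - T.pm k y) a :=
  (T.pp_comm k y a ha).sub_left (T.pm_comm k y a ha)

theorem Exp0_a_comm (k y : ℕ) {a : D} (ha : a ∈ T.A k) : Commute (T.pp k y + T.pm k y - 1) a :=
  ((T.pp_comm k y a ha).add_left (T.pm_comm k y a ha)).sub_left (Commute.one_left a)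

theorem Exp0_d_sa (k y : ℕ) : IsSelfAdjoint (T.pp k y - T.pm k y) :=
  (T.pp_proj k y).isSelfAdjoint.sub (T.pm_proj k y).isSelfAdjoint

theorem Exp0_a_sa (k y : ℕ) : IsSelfAdjoint (T.pp k y + T.pm k y - 1) :=
  ((T.pp_proj k y).isSelfAdjoint.add (T.pm_proj k y).isSelfAdjoint).sub (IsSelfAdjoint.one D)

theorem Exp0_m_pp (k v k' y : ℕ) : Commute (T.m k v) (T.pp k' y) := by
  rcases lt_trichotomy k' k with h | rfl | h
  · exact T.m_comm k v _ (T.A_mono h (T.pp_mem k' y))
  · exact (T.pp_m _ _ _).symm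
  · exact (T.pp_comm k' y _ (T.A_mono h (T.m_mem k v))).symm

theorem Exp0_m_pm (k v k' y : ℕ) : Commute (T.m k v) (T.pm k' y) := by
  rcases lt_trichotomy k' k with h | rfl | h
  · exact T.m_comm k v _ (T.A_mono h (T.pm_mem k' y))
  · exact (T.pm_m _ _ _).symm
  · exact (T.pm_comm k' y _ (T.A_mono h (T.m_mem k v))).symm

theorem s_mem (n y : ℕ) : T.s n y ∈ T.B n := by
  exact sub_mem ((T.B n).smul_mem (T.t_mem n y) _) (one_mem _)

theorem s_sa (n y : ℕ) : IsSelfAdjoint (T.s n y) := by
  have h := (T.t_proj n y).isSelfAdjoint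
  unfold s
  rw [two_smul]
  exact (h.add h).sub (IsSelfAdjoint.one D)

theorem s_sq (n y : ℕ) : T.s n y * T.s n y = 1 := by
  have h : T.t n y * T.t n y = T.t n y := (T.t_proj n y).isIdempotentElem
  unfold s
  rw [two_smul]
  calc (T.t n y + T.t n y - 1) * (T.t n y + T.t n y - 1)
      = 4 * (T.t n y * T.t n y) - 4 * T.t n y + 1 := by noncomm_ring
    _ = 1 := by rw [h]; noncomm_ring

theorem s_norm (n y : ℕ) : ‖T.s n y‖ ≤ 1 := by
  exact Exp0_norm (T.s_sa n y) (IsSelfAdjoint.zero D) (by rw [T.s_sq]; simp)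

theorem s_cent (n y : ℕ) {x : D} (hx : x ∈ T.B n) : Commute (T.s n y) x := by
  exact ((T.t_cent n y x hx).smul_left _).sub_left (Commute.one_left x)

theorem t_eq_s (n y : ℕ) : T.t n y = (2⁻¹ : ℂ) • (1 + T.s n y) := by
  unfold s
  rw [add_sub_cancel, smul_smul]
  norm_num

theorem m_orth (k y : ℕ) : T.m k (2 * y) * T.m k (2 * y + 1) = 0 := by
  have h : T.m k (2 * y) * T.m k (2 * y) = T.m k (2 * y) := (T.m_proj k _).isIdempotentElem
  have h1 : T.m k (2 * y + 1) = 1 - T.m k (2 * y) := eq_sub_of_add_eq' (T.m_add k y)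
  rw [h1, mul_sub, h, mul_one, sub_self]

/-- two different labels with the same parent have orthogonal basis projections -/
theorem m_orth' (k : ℕ) {w w' : ℕ} (h : w / 2 = w' / 2) (hne : w ≠ w') :
    T.m k w * T.m k w' = 0 := by
  have h1 := T.m_orth k (w / 2)
  have h2 : T.m k (2 * (w / 2) + 1) * T.m k (2 * (w / 2)) = 0 := by
    have := congrArg star h1
    rwa [star_mul, (T.m_proj k _).isSelfAdjoint.star_eq, (T.m_proj k _).isSelfAdjoint.star_eq,
      star_zero] at this
  rcases Nat.mod_two_eq_zero_or_one w with h3 | h3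
  · have e1 : w = 2 * (w / 2) := by omega
    have e2 : w' = 2 * (w / 2) + 1 := by omega
    rw [e2]
    nth_rewrite 1 [e1]
    exact h1
  · have e1 : w = 2 * (w / 2) + 1 := by omega
    have e2 : w' = 2 * (w / 2) := by omega
    rw [e2]
    nth_rewrite 1 [e1]
    exact h2

theorem m_m {k k' : ℕ} (h : k ≠ k') (w w' : ℕ) : Commute (T.m k w) (T.m k' w') := by
  rcases lt_or_gt_of_ne h with h1 | h1
  · exact (T.m_comm k' w' _ (T.A_mono h1 (T.m_mem k w))).symm
  · exact T.m_comm k w _ (T.A_mono h1 (T.m_mem k' w'))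

theorem E_mem (n j w : ℕ) : T.E n j w ∈ T.A (n + j) := by
  induction j generalizing w with
  | zero => exact one_mem _
  | succ j ih => exact mul_mem (T.A_mono (Nat.le_succ _) (ih _)) (T.m_mem _ _)

theorem Dd_mem (n j w : ℕ) : T.Dd n j w ∈ T.A (n + j) := by
  induction j generalizing w with
  | zero => exact one_mem _
  | succ j ih =>
    exact mul_mem (T.A_mono (Nat.le_succ _) (ih _)) (sub_mem (T.pp_mem _ _) (T.pm_mem _ _))

theorem Aa_mem (n j w : ℕ) : T.Aa n j w ∈ T.A (n + j) := by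
  induction j generalizing w with
  | zero => exact zero_mem _
  | succ j ih =>
    exact add_mem (T.A_mono (Nat.le_succ _) (ih _))
      (mul_mem (T.A_mono (Nat.le_succ _) (T.Dd_mem _ _ _))
        (sub_mem (add_mem (T.pp_mem _ _) (T.pm_mem _ _)) (one_mem _)))

theorem E_comm (n j w : ℕ) {a : D} (ha : a ∈ T.A n) : Commute (T.E n j w) a := by
  induction j generalizing w with
  | zero => exact Commute.one_left a
  | succ j ih =>
    exact (ih _).mul_left (T.m_comm _ _ _ (T.A_mono (Nat.le_add_right n j) ha))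

theorem Dd_comm (n j w : ℕ) {a : D} (ha : a ∈ T.A n) : Commute (T.Dd n j w) a := by
  induction j generalizing w with
  | zero => exact Commute.one_left a
  | succ j ih =>
    exact (ih _).mul_left (T.Exp0_d_comm _ _ (T.A_mono (Nat.le_add_right n j) ha))

theorem Aa_comm (n j w : ℕ) {a : D} (ha : a ∈ T.A n) : Commute (T.Aa n j w) a := by
  induction j generalizing w with
  | zero => exact Commute.zero_left a
  | succ j ih =>
    exact (ih _).add_left ((T.Dd_comm _ _ _ ha).mul_left
      (T.Exp0_a_comm _ _ (T.A_mono (Nat.le_add_right n j) ha)))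

theorem E_proj (n j w : ℕ) : IsStarProjection (T.E n j w) := by
  induction j generalizing w with
  | zero => exact IsStarProjection.one D
  | succ j ih =>
    exact (ih _).mul (T.m_proj _ _) (T.m_comm _ _ _ (T.E_mem n j _)).symm

theorem Dd_sa (n j w : ℕ) : IsSelfAdjoint (T.Dd n j w) := by
  induction j generalizing w with
  | zero => exact IsSelfAdjoint.one D
  | succ j ih =>
    exact ((ih _).commute_iff (T.Exp0_d_sa _ _)).mp (T.Exp0_d_comm _ _ (T.Dd_mem n j _)).symm

theorem Aa_sa (n j w : ℕ) : IsSelfAdjoint (T.Aa n j w) := by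
  induction j generalizing w with
  | zero => exact IsSelfAdjoint.zero D
  | succ j ih =>
    exact (ih _).add (((T.Dd_sa _ _ _).commute_iff (T.Exp0_a_sa _ _)).mp
      (T.Exp0_a_comm _ _ (T.Dd_mem n j _)).symm)

theorem m_Dd (k v n j w : ℕ) : Commute (T.m k v) (T.Dd n j w) := by
  induction j generalizing w with
  | zero => exact Commute.one_right _
  | succ j ih => exact (ih _).mul_right ((T.Exp0_m_pp _ _ _ _).sub_right (T.Exp0_m_pm _ _ _ _))

theorem m_Aa (k v n j w : ℕ) : Commute (T.m k v) (T.Aa n j w) := by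
  induction j generalizing w with
  | zero => exact Commute.zero_right _
  | succ j ih =>
    exact (ih _).add_right ((T.m_Dd _ _ _ _ _).mul_right
      (((T.Exp0_m_pp _ _ _ _).add_right (T.Exp0_m_pm _ _ _ _)).sub_right (Commute.one_right _)))

theorem E_Dd (n j w n' j' w' : ℕ) : Commute (T.E n j w) (T.Dd n' j' w') := by
  induction j generalizing w with
  | zero => exact Commute.one_left _
  | succ j ih => exact (ih _).mul_left (T.m_Dd _ _ _ _ _)

theorem E_Aa (n j w n' j' w' : ℕ) : Commute (T.E n j w) (T.Aa n' j' w') := by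
  induction j generalizing w with
  | zero => exact Commute.one_left _
  | succ j ih => exact (ih _).mul_left (T.m_Aa _ _ _ _ _)

theorem Exp0_both (n j w : ℕ) : T.Aa n j w * T.Aa n j w + T.Dd n j w * T.Dd n j w = 1 ∧
    T.Aa n j w * T.Dd n j w + T.Dd n j w * T.Aa n j w = 0 := by
  induction j generalizing w with
  | zero => simp [Aa, Dd]
  | succ j ih =>
    have h := Exp0_ring (T.pp_proj (n + j) (w / 2)).isIdempotentElem
      (T.pm_proj (n + j) (w / 2)).isIdempotentElem
    exact Exp0_step (ih _).1 (ih _).2 h.1 h.2 (T.Exp0_a_comm _ _ (T.Aa_mem n j _))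
      (T.Exp0_a_comm _ _ (T.Dd_mem n j _)) (T.Exp0_d_comm _ _ (T.Aa_mem n j _))
      (T.Exp0_d_comm _ _ (T.Dd_mem n j _))

theorem Aa_sq (n j w : ℕ) : T.Aa n j w * T.Aa n j w + T.Dd n j w * T.Dd n j w = 1 := by
  exact (T.Exp0_both n j w).1

theorem Aa_anti (n j w : ℕ) : T.Aa n j w * T.Dd n j w + T.Dd n j w * T.Aa n j w = 0 := by
  exact (T.Exp0_both n j w).2

theorem Dd_norm (n j w : ℕ) : ‖T.Dd n j w‖ ≤ 1 := by
  exact Exp0_norm (T.Dd_sa n j w) (T.Aa_sa n j w) (by rw [add_comm]; exact T.Aa_sq n j w)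

end Tower

end Pool.Agent.P.MP_5d580a_an.Ng
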