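import Pool.Agent.P.MP_5d580a_an.N.TDefs

open scoped ComplexOrder InnerProductSpace ComplexConjugate Matrix Kronecker
open Filter Topology

set_option linter.unusedSectionVars false
set_option linter.unusedVariables false
set_option linter.deprecated false

noncomputable section

namespace Pool.Agent.P.MP_5d580a_an.Ng

variable {D C : Type} [CStarAlgebra D] [CStarAlgebra C]
variable {H : Type} [NormedAddCommGroup H] [InnerProductSpace ℂ H] [CompleteSpace H]
variable {L : Type} [NormedAddCommGroup L] [InnerProductSpace ℂ L] [CompleteSpace L]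

namespace T2Aux

/-- rank one projections of the two complementary bases of a qubit -/
def p (β b : Bool) : Matrix Bool Bool ℂ := Matrix.of fun c c' =>
  if β then (if c = c' then 2⁻¹ else if b then -2⁻¹ else 2⁻¹) else if c = b ∧ c' = b then 1 else 0

lemma p_transpose (β b : Bool) : (p β b)ᵀ = p β b := by
  ext c c'; cases β <;> cases b <;> cases c <;> cases c' <;> simp [p]

lemma p_adj (β b : Bool) : (p β b)ᴴ = p β b := by
  ext c c'; cases β <;> cases b <;> cases c <;> cases c' <;> simp [p]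

lemma p_sq (β b : Bool) : p β b * p β b = p β b := by
  ext c c'
  cases β <;> cases b <;> cases c <;> cases c' <;> simp [p, Matrix.mul_apply] <;> norm_num

lemma p_orth (β : Bool) {b b' : Bool} (h : b ≠ b') : p β b * p β b' = 0 := by
  ext c c'
  cases β <;> cases b <;> cases b' <;> cases c <;> cases c' <;>
    simp [p, Matrix.mul_apply] at h ⊢

lemma p_add (β : Bool) : p β false + p β true = 1 := by
  ext c c'
  cases β <;> cases c <;> cases c' <;> simp [p] <;> norm_num

lemma p_sep {β β' : Bool} (h : β ≠ β') (b b' : Bool) :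
    p β b * p β' b' * p β b = (2⁻¹ : ℂ) • p β b := by
  ext c c'
  cases β <;> cases β' <;> cases b <;> cases b' <;> cases c <;> cases c' <;>
    simp [p, Matrix.mul_apply] at h ⊢

lemma p_trace (β b : Bool) : (p β b).trace = 1 := by
  cases β <;> cases b <;> simp [p, Matrix.trace]

section W
variable {I I0 I1 K K0 K1 : Type} [Fintype I] [Fintype I0] [Fintype I1] [Fintype K] [Fintype K0]
  [Fintype K1]

/-- `a ⊗ t ⊗ vec r`, reordered -/
def W (a : Matrix I I0 ℂ) (t : Matrix K K0 ℂ) (r : Matrix Bool Bool ℂ) :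
    Matrix ((I × Bool) × (K × Bool)) (I0 × K0) ℂ :=
  Matrix.of fun x y => a x.1.1 y.1 * t x.2.1 y.2 * r x.1.2 x.2.2

lemma W_left (a' : Matrix I1 I ℂ) (t' : Matrix K1 K ℂ) (q q' : Matrix Bool Bool ℂ)
    (a : Matrix I I0 ℂ) (t : Matrix K K0 ℂ) (r : Matrix Bool Bool ℂ) :
    ((a' ⊗ₖ q) ⊗ₖ (t' ⊗ₖ q')) * W a t r = W (a' * a) (t' * t) (q * r * q'ᵀ) := by
  ext ⟨⟨i, c⟩, ⟨k, d⟩⟩ ⟨i0, k0⟩
  simp only [W, Matrix.mul_apply, Matrix.of_apply, Matrix.kronecker_apply, Fintype.sum_prod_type,
    Matrix.transpose_apply]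
  rw [Finset.sum_mul_sum, Finset.sum_mul]
  refine Finset.sum_congr rfl fun i' _ => ?_
  rw [Finset.sum_comm, Finset.sum_mul]
  refine Finset.sum_congr rfl fun k' _ => ?_
  simp only [Fintype.sum_bool]
  ring

lemma W_right (a : Matrix I I0 ℂ) (t : Matrix K K0 ℂ) (r : Matrix Bool Bool ℂ)
    (a' : Matrix I0 I1 ℂ) (t' : Matrix K0 K1 ℂ) :
    W a t r * (a' ⊗ₖ t') = W (a * a') (t * t') r := by
  ext ⟨⟨i, c⟩, ⟨k, d⟩⟩ ⟨i0, k0⟩
  simp only [W, Matrix.mul_apply, Matrix.of_apply, Matrix.kronecker_apply, Fintype.sum_prod_type]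
  rw [Finset.sum_mul_sum, Finset.sum_mul]
  refine Finset.sum_congr rfl fun i' _ => ?_
  rw [Finset.sum_mul]
  refine Finset.sum_congr rfl fun k' _ => ?_
  ring

lemma W_adj (a : Matrix I I0 ℂ) (t : Matrix K K0 ℂ) (r : Matrix Bool Bool ℂ)
    (a' : Matrix I I1 ℂ) (t' : Matrix K K1 ℂ) (r' : Matrix Bool Bool ℂ) :
    (W a t r)ᴴ * W a' t' r' = (rᴴ * r').trace • ((aᴴ * a') ⊗ₖ (tᴴ * t')) := by
  ext ⟨i0, k0⟩ ⟨i1, k1⟩
  simp only [W, Matrix.mul_apply, Matrix.of_apply, Matrix.kronecker_apply, Fintype.sum_prod_type,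
    Matrix.conjTranspose_apply, Matrix.smul_apply, smul_eq_mul, Matrix.trace, Matrix.diag_apply,
    star_mul']
  rw [Finset.sum_mul_sum, Finset.mul_sum]
  refine Finset.sum_congr rfl fun i' _ => ?_
  rw [Finset.sum_comm, Finset.mul_sum]
  refine Finset.sum_congr rfl fun k' _ => ?_
  simp only [Fintype.sum_bool]
  ring

lemma W_add (a : Matrix I I0 ℂ) (t : Matrix K K0 ℂ) (r r' : Matrix Bool Bool ℂ) :
    W a t (r + r') = W a t r + W a t r' := by
  ext x y; simp [W, mul_add]

lemma W_zero (a : Matrix I I0 ℂ) (t : Matrix K K0 ℂ) : W a t 0 = 0 := by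
  ext x y; simp [W]

end W

/-- the parent label -/
def half {n : ℕ} (w : Fin (2 * n)) : Fin n := ⟨w / 2, by have := w.2; omega⟩

/-- the parity of a label -/
def par (w : ℕ) : Bool := decide (w % 2 = 1)

/-- labels of the next level are pairs -/
def split (n : ℕ) : Fin (2 * n) ≃ Fin n × Bool where
  toFun w := (half w, par w)
  invFun x := ⟨2 * x.1 + if x.2 then 1 else 0, by have := x.1.2; split_ifs <;> omega⟩
  left_inv w := by
    ext
    simp only [half, par, decide_eq_true_eq]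
    split_ifs <;> omega
  right_inv := by
    rintro ⟨y, b⟩
    cases b
    · ext
      · simp [half]
      · simp [par]
    · ext
      · simp only [half, if_true]; omega
      · simp [par]

/-- the projection of the new site attached to a label -/
def pw (β : ℕ → Bool) (w : ℕ) : Matrix Bool Bool ℂ := p (β (w / 2)) (par w)

/-- the same for optional labels -/
def q (β : ℕ → Bool) {n : ℕ} : Option (Fin (2 * n)) → Matrix Bool Bool ℂ
  | none => 1
  | some w => pw β w

lemma q_transpose (β : ℕ → Bool) {n : ℕ} (w : Option (Fin (2 * n))) : (q β w)ᵀ = q β w := by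
  cases w <;> simp [q, pw, p_transpose]

lemma q_adj (β : ℕ → Bool) {n : ℕ} (w : Option (Fin (2 * n))) : (q β w)ᴴ = q β w := by
  cases w <;> simp [q, pw, p_adj]

lemma q_sq (β : ℕ → Bool) {n : ℕ} (w : Option (Fin (2 * n))) : q β w * q β w = q β w := by
  cases w <;> simp [q, pw, p_sq]

lemma q_orth (β : ℕ → Bool) {n : ℕ} {w w' : Option (Fin (2 * n))} (h : w ≠ w')
    (h' : w.map half = w'.map half) : q β w * q β w' = 0 := by
  rcases w with _ | w <;> rcases w' with _ | w'
  · exact absurd rfl h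
  · simp at h'
  · simp at h'
  · have h1 : half w = half w' := by simpa using h'
    have h2 : (w : ℕ) / 2 = w' / 2 := congrArg Fin.val h1
    have h3 : par w ≠ par w' := fun h3 => h (congrArg some ((split n).injective (Prod.ext h1 h3)))
    simp only [q, pw, h2]
    exact p_orth _ h3

lemma sum_q (β : ℕ → Bool) {n : ℕ} {X : Type} [AddCommMonoid X]
    (Φ : Option (Fin n) → Matrix Bool Bool ℂ → X)
    (hΦ : ∀ y r r', Φ y (r + r') = Φ y r + Φ y r') :
    ∑ w : Option (Fin (2 * n)), Φ (w.map half) (q β w) = ∑ y, Φ y 1 := by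
  rw [Fintype.sum_option, Fintype.sum_option]
  congr 1
  rw [Fintype.sum_equiv (split n) (fun w => Φ ((some w).map half) (q β (some w)))
    (fun x => Φ (some x.1) (p (β x.1) x.2)) (fun w => rfl), Fintype.sum_prod_type]
  refine Finset.sum_congr rfl fun y _ => ?_
  rw [Fintype.sum_bool, ← hΦ, add_comm, p_add]

section iota
variable {I : Type} [Fintype I] [DecidableEq I]

lemma kron_sub (a : Matrix I I ℂ) (r r' : Matrix Bool Bool ℂ) :
    a ⊗ₖ (r - r') = a ⊗ₖ r - a ⊗ₖ r' := by
  ext x y; simp [mul_sub]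

lemma sub_kron (a a' : Matrix I I ℂ) (r : Matrix Bool Bool ℂ) :
    (a - a') ⊗ₖ r = a ⊗ₖ r - a' ⊗ₖ r := by
  ext x y; simp [sub_mul]

lemma kron_proj {a : Matrix I I ℂ} {r : Matrix Bool Bool ℂ} (ha : IsStarProjection a)
    (h1 : r * r = r) (h2 : rᴴ = r) : IsStarProjection (a ⊗ₖ r) := by
  have h : aᴴ = a := ha.isSelfAdjoint
  refine ⟨?_, ?_⟩
  · show (a ⊗ₖ r) * (a ⊗ₖ r) = a ⊗ₖ r
    rw [← Matrix.mul_kronecker_mul, ha.isIdempotentElem.eq, h1]
  · show (a ⊗ₖ r)ᴴ = a ⊗ₖ r
    rw [Matrix.conjTranspose_kronecker, h, h2]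

lemma kron_comm {a a' : Matrix I I ℂ} {r r' : Matrix Bool Bool ℂ} (h : Commute a a')
    (h' : Commute r r') : Commute (a ⊗ₖ r) (a' ⊗ₖ r') := by
  show (a ⊗ₖ r) * (a' ⊗ₖ r') = (a' ⊗ₖ r') * (a ⊗ₖ r)
  rw [← Matrix.mul_kronecker_mul, ← Matrix.mul_kronecker_mul, h.eq, h'.eq]

/-- `a ↦ a ⊗ 1` -/
def amp : Matrix I I ℂ →⋆ₐ[ℂ] Matrix (I × Bool) (I × Bool) ℂ where
  toFun a := a ⊗ₖ (1 : Matrix Bool Bool ℂ)
  map_one' := Matrix.one_kronecker_one
  map_mul' a b := by rw [← Matrix.mul_kronecker_mul, one_mul]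
  map_zero' := Matrix.zero_kronecker _
  map_add' a b := Matrix.add_kronecker _ _ _
  commutes' c := by
    simp only [Algebra.algebraMap_eq_smul_one, Matrix.smul_kronecker, Matrix.one_kronecker_one]
  map_star' a := by
    rw [Matrix.star_eq_conjTranspose, Matrix.star_eq_conjTranspose,
      Matrix.conjTranspose_kronecker, Matrix.conjTranspose_one]

lemma amp_apply (a : Matrix I I ℂ) : amp a = a ⊗ₖ (1 : Matrix Bool Bool ℂ) := rfl

/-- the splitting site -/
def ix (β : ℕ → Bool) (n : ℕ) : Fn n I →⋆ₐ[ℂ] Fn (2 * n) (I × Bool) where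
  toFun f w := f (w.map half) ⊗ₖ q β w + f none ⊗ₖ (1 - q β w)
  map_one' := by
    funext w
    simp only [Pi.one_apply]
    rw [← Matrix.kronecker_add, add_sub_cancel, Matrix.one_kronecker_one]
  map_mul' f g := by
    funext w
    simp only [Pi.mul_apply, add_mul, mul_add, ← Matrix.mul_kronecker_mul, mul_sub, sub_mul,
      q_sq, mul_one, one_mul, sub_self, Matrix.kronecker_zero, add_zero, zero_add, sub_zero]
  map_zero' := by
    funext w
    simp
  map_add' f g := by
    funext w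
    simp only [Pi.add_apply, Matrix.add_kronecker]
    abel
  commutes' c := by
    funext w
    simp only [Algebra.algebraMap_eq_smul_one, Pi.smul_apply, Pi.one_apply, Matrix.smul_kronecker]
    rw [← smul_add, ← Matrix.kronecker_add, add_sub_cancel, Matrix.one_kronecker_one]
  map_star' f := by
    funext w
    simp only [Pi.star_apply, Matrix.star_eq_conjTranspose, Matrix.conjTranspose_add,
      Matrix.conjTranspose_kronecker, Matrix.conjTranspose_sub, Matrix.conjTranspose_one, q_adj]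

lemma ix_apply (β : ℕ → Bool) (n : ℕ) (f : Fn n I) (w : Option (Fin (2 * n))) :
    ix β n f w = f (w.map half) ⊗ₖ q β w + f none ⊗ₖ (1 - q β w) := rfl

lemma ix_cst (β : ℕ → Bool) (n : ℕ) (a : Matrix I I ℂ) : ix β n (cst a) = cst (amp a) := by
  funext w
  simp only [ix_apply, cst, amp_apply]
  rw [← Matrix.kronecker_add, add_sub_cancel]

lemma lab_proj (n y : ℕ) : IsStarProjection (lab n I y) := by
  refine ⟨?_, ?_⟩
  · show lab n I y * lab n I y = lab n I y
    funext z
    simp only [lab, Pi.mul_apply]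
    split_ifs <;> simp
  · show star (lab n I y) = lab n I y
    funext z
    simp only [lab, Pi.star_apply]
    split_ifs <;> simp

lemma lab_comm (n y : ℕ) (f : Fn n I) : Commute (lab n I y) f := by
  show lab n I y * f = f * lab n I y
  funext z
  simp only [lab, Pi.mul_apply]
  split_ifs <;> simp

lemma lab_zero {n y : ℕ} (h : ¬ y < n) : lab n I y = 0 := by
  funext z
  rcases z with _ | z
  · simp [lab]
  · have : (z : ℕ) ≠ y := fun e => h (e ▸ z.2)
    simp [lab, this]

lemma proj_eval {n : ℕ} {f : Fn n I} (h : IsStarProjection f) (z : Option (Fin n)) :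
    IsStarProjection (f z) :=
  ⟨congrFun h.isIdempotentElem.eq z, congrFun h.isSelfAdjoint.star_eq z⟩

end iota

/-- the normalising constant -/
def c0 : ℂ := (((Real.sqrt 2)⁻¹ : ℝ) : ℂ)

lemma c0_sq : star c0 * c0 = 2⁻¹ := by
  have h : (Real.sqrt 2)⁻¹ * (Real.sqrt 2)⁻¹ = 2⁻¹ := by
    rw [← mul_inv, Real.mul_self_sqrt (by norm_num)]
  simp only [c0, Complex.star_def, Complex.conj_ofReal]
  rw [← Complex.ofReal_mul, h]
  norm_num

section main
variable (S : Stage) (M : Mid S) (β : ℕ → Bool)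

/-- the isometry between the witness spaces -/
def V : Matrix ((M.I × Bool) × (S.K × Bool)) (S.I × S.K) ℂ := W M.e 1 (c0 • 1)

/-- the new purifying projections -/
def T' (ε : Bool) (w : Option (Fin (2 * S.n))) : Matrix (S.K × Bool) (S.K × Bool) ℂ :=
  S.T ε (w.map half) ⊗ₖ q β w

lemma V_mid (r : Matrix Bool Bool ℂ) :
    (V S M)ᴴ * W M.e (1 : Matrix S.K S.K ℂ) (c0 • r) =
      (2⁻¹ * r.trace) • (1 : Matrix (S.I × S.K) (S.I × S.K) ℂ) := by
  rw [V, W_adj, M.e_iso, Matrix.conjTranspose_one, one_mul, Matrix.one_kronecker_one,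
    Matrix.conjTranspose_smul, Matrix.conjTranspose_one, Matrix.smul_mul, one_mul, smul_smul,
    c0_sq, Matrix.trace_smul, smul_eq_mul]

lemma V_iso : (V S M)ᴴ * V S M = 1 := by
  have := V_mid S M 1
  rw [Matrix.trace_one, Fintype.card_bool] at this
  rw [show (V S M)ᴴ * V S M = (V S M)ᴴ * W M.e (1 : Matrix S.K S.K ℂ) (c0 • 1) from rfl, this]
  norm_num

lemma V_int (ε : Bool) (f : Fn S.n S.I) :
    (∑ w, ix β S.n (M.ι f) w ⊗ₖ T' S β ε w) * V S M = V S M * ∑ y, f y ⊗ₖ S.T ε y := by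
  rw [Matrix.sum_mul, Matrix.mul_sum]
  have h1 : ∀ w, (ix β S.n (M.ι f) w ⊗ₖ T' S β ε w) * V S M =
      W (M.e * f (w.map half)) (S.T ε (w.map half)) (c0 • q β w) := by
    intro w
    rw [ix_apply, Matrix.add_kronecker, Matrix.add_mul, T', V, W_left, W_left, q_transpose,
      M.e_int]
    simp only [Matrix.mul_smul, Matrix.smul_mul, mul_one, q_sq, sub_mul, one_mul, sub_self,
      W_zero, add_zero]
  simp only [h1]
  rw [sum_q β (fun y r => W (M.e * f y) (S.T ε y) (c0 • r))
    (fun y r r' => by rw [smul_add, W_add])]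
  refine Finset.sum_congr rfl fun y _ => ?_
  rw [V, W_right, one_mul]

/-- the next stage -/
def next : Stage where
  I := M.I × Bool
  K := S.K × Bool
  n := 2 * S.n
  n_pos := by have := S.n_pos; omega
  T := T' S β
  Ω := V S M *ᵥ S.Ω
  ℓ := ix β S.n (M.ι S.ℓ)
  T_proj ε w := kron_proj (S.T_proj ε _) (q_sq β w) (q_adj β w)
  T_orth ε w w' h := by
    rw [T', T', ← Matrix.mul_kronecker_mul]
    by_cases h' : w.map half = w'.map half
    · rw [q_orth β h h', Matrix.kronecker_zero]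
    · rw [S.T_orth ε _ _ h', Matrix.zero_kronecker]
  T_sum ε := by
    simp only [T']
    rw [sum_q β (fun y r => S.T ε y ⊗ₖ r) (fun y r r' => Matrix.kronecker_add _ _ _),
      ← kron_sum_left, S.T_sum, Matrix.one_kronecker_one]
  Ω_norm := by
    rw [Matrix.star_mulVec, ← Matrix.dotProduct_mulVec, Matrix.mulVec_mulVec, V_iso,
      Matrix.one_mulVec, S.Ω_norm]
  ℓ_sa := (S.ℓ_sa.map M.ι).map (ix β S.n)
  ℓ_sq := by rw [← map_mul, ← map_mul, S.ℓ_sq, map_one, map_one]
  vac0 := by rw [Matrix.mulVec_mulVec, V_int, ← Matrix.mulVec_mulVec, S.vac0]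
  vac1 := by rw [Matrix.mulVec_mulVec, V_int, ← Matrix.mulVec_mulVec, S.vac1, Matrix.mulVec_neg]

/-- reduction of a label into the range -/
def red (y : ℕ) : Fin S.n := ⟨y % S.n, Nat.mod_lt _ S.n_pos⟩

lemma red_val (y : Fin S.n) : red S y = y := Fin.ext (Nat.mod_eq_of_lt y.2)

/-- the projections `κ`, extended by zero -/
def kap (y : ℕ) : Matrix M.I M.I ℂ := if y < S.n then M.κ (red S y) else 0

lemma ι_lab_comm (y : ℕ) (z : Option (Fin S.n)) (a : Matrix S.I S.I ℂ) :
    Commute (M.ι (lab S.n S.I y) z) (M.ιA a) := by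
  have h := (lab_comm S.n y (cst a)).map M.ι
  rw [M.ι_cst] at h
  exact congrFun h.eq z

lemma step_eq (y : ℕ) : ix β S.n (M.ι (lab S.n S.I y)) =
    cst (amp (M.ι (lab S.n S.I y) none)) +
      cst (amp (M.ι (lab S.n S.I y) (some (red S y))) - amp (M.ι (lab S.n S.I y) none)) *
      (cst ((1 : Matrix M.I M.I ℂ) ⊗ₖ pw β (2 * y)) * lab (2 * S.n) (M.I × Bool) (2 * y) +
        cst ((1 : Matrix M.I M.I ℂ) ⊗ₖ pw β (2 * y + 1)) *
          lab (2 * S.n) (M.I × Bool) (2 * y + 1)) := by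
  by_cases hy : y < S.n
  swap
  · rw [lab_zero hy, map_zero, map_zero]
    funext w
    simp [cst]
  obtain ⟨y, rfl⟩ : ∃ y' : Fin S.n, (y' : ℕ) = y := ⟨⟨y, hy⟩, rfl⟩
  rw [red_val]
  obtain ⟨g, hg⟩ : ∃ g, g = M.ι (lab S.n S.I y) := ⟨_, rfl⟩
  have hb : ∀ z, z ≠ some y → g z = g none := by
    rw [hg]; exact M.bin y
  rw [← hg]
  funext w
  simp only [ix_apply, Pi.add_apply, Pi.mul_apply, cst, amp_apply]
  have key : ∀ r : Matrix Bool Bool ℂ, g (some y) ⊗ₖ r + g none ⊗ₖ (1 - r) =
      g none ⊗ₖ (1 : Matrix Bool Bool ℂ) + (g (some y) ⊗ₖ (1 : Matrix Bool Bool ℂ) -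
        g none ⊗ₖ (1 : Matrix Bool Bool ℂ)) * ((1 : Matrix M.I M.I ℂ) ⊗ₖ r) := by
    intro r
    rw [sub_mul, ← Matrix.mul_kronecker_mul, ← Matrix.mul_kronecker_mul, kron_sub]
    simp only [mul_one, one_mul]
    abel
  rcases w with _ | w
  · simp [lab, q]
  by_cases h0 : (w : ℕ) = 2 * y
  · have e : half w = y := Fin.ext (by simp only [half]; omega)
    have h1 : (w : ℕ) ≠ 2 * y + 1 := by omega
    simp only [Option.map_some, e, q, lab, Option.some.injEq, h0, if_true, mul_one]
    rw [if_neg (by omega), mul_zero, add_zero]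
    exact key _
  by_cases h1 : (w : ℕ) = 2 * y + 1
  · have e : half w = y := Fin.ext (by simp only [half]; omega)
    simp only [Option.map_some, e, q, lab, Option.some.injEq, h1, if_true, mul_one]
    rw [if_neg (by omega), mul_zero, zero_add]
    exact key _
  have e : half w ≠ y := fun e => by
    have := congrArg Fin.val e
    simp only [half] at this
    omega
  simp only [Option.map_some, lab, Option.some.injEq, h0, h1, if_false, mul_zero, add_zero]
  rw [hb _ (by simpa using e), ← Matrix.kronecker_add, add_sub_cancel]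

/-- the step -/
def stp : Step S (next S M β) β where
  hn := rfl
  ι := (ix β S.n).comp M.ι
  ιA := amp.comp M.ιA
  V := V S M
  m w := (1 : Matrix M.I M.I ℂ) ⊗ₖ pw β w
  pp y := amp (M.ι (lab S.n S.I y) (some (red S y)))
  pm y := amp (M.ι (lab S.n S.I y) none)
  κ y := amp (kap S M y)
  ψ y := (ix β S.n).comp (M.ψ (red S y))
  ι_cst a := by
    show ix β S.n (M.ι (cst a)) = _
    rw [M.ι_cst, ix_cst]
    rfl
  ι_ℓ := rfl
  V_iso := V_iso S M
  V_int ε f := V_int S M β ε f
  m_proj w := kron_proj (IsStarProjection.one _) (p_sq _ _) (p_adj _ _)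
  m_comm w a := kron_comm (Commute.one_left _) (Commute.one_right _)
  m_add y := by
    have e1 : pw β (2 * y) = p (β y) false := by simp [pw, par]
    have e2 : pw β (2 * y + 1) = p (β y) true := by
      have : (2 * y + 1) / 2 = y := by omega
      simp [pw, par, this]
    show (1 : Matrix M.I M.I ℂ) ⊗ₖ pw β (2 * y) + (1 : Matrix M.I M.I ℂ) ⊗ₖ pw β (2 * y + 1) =
      (1 : Matrix (M.I × Bool) (M.I × Bool) ℂ)
    rw [← Matrix.kronecker_add, e1, e2, p_add, Matrix.one_kronecker_one]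
  m_sep w w' h := by
    show ((1 : Matrix M.I M.I ℂ) ⊗ₖ pw β w) * ((1 : Matrix M.I M.I ℂ) ⊗ₖ pw β w') *
      ((1 : Matrix M.I M.I ℂ) ⊗ₖ pw β w) = (2⁻¹ : ℂ) • ((1 : Matrix M.I M.I ℂ) ⊗ₖ pw β w)
    rw [← Matrix.mul_kronecker_mul, ← Matrix.mul_kronecker_mul, pw, pw, p_sep h, mul_one, mul_one,
      Matrix.kronecker_smul]
  m_V w := by
    show (V S M)ᴴ * (((1 : Matrix M.I M.I ℂ) ⊗ₖ pw β w) ⊗ₖ
      (1 : Matrix (S.K × Bool) (S.K × Bool) ℂ)) * V S M = _
    have h := V_mid S M (pw β w)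
    rw [pw, p_trace, mul_one] at h
    rw [Matrix.mul_assoc, ← Matrix.one_kronecker_one, ← h]
    congr 1
    rw [V, W_left]
    simp [pw]
  pp_proj y := (proj_eval ((lab_proj S.n y).map M.ι) _).map amp
  pm_proj y := (proj_eval ((lab_proj S.n y).map M.ι) _).map amp
  pp_comm y a := (ι_lab_comm S M y _ a).map amp
  pm_comm y a := (ι_lab_comm S M y _ a).map amp
  pp_m y w := kron_comm (Commute.one_right _) (Commute.one_left _)
  pm_m y w := kron_comm (Commute.one_right _) (Commute.one_left _)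
  step y := step_eq S M β y
  κ_proj y := by
    refine IsStarProjection.map ?_ amp
    rw [kap]
    split_ifs
    · exact M.κ_proj _
    · exact IsStarProjection.zero _
  κ_comm y a := by
    refine Commute.map (?_ : Commute (kap S M y) (M.ιA a)) amp
    rw [kap]
    split_ifs
    · exact M.κ_comm _ _
    · exact Commute.zero_left _
  ψ_cst y a := by
    obtain ⟨a', h⟩ := M.ψ_cst (red S y) a
    refine ⟨amp a', ?_⟩
    show ix β S.n (M.ψ (red S y) (cst a)) = _
    rw [h, ix_cst]
    rfl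
  ψ_comm y f a := by
    have h := (M.ψ_comm (red S y) f a).map (ix β S.n)
    rw [ix_cst] at h
    exact h
  ψ_κ y f := by
    have h : Commute (M.ψ (red S y) f) (cst (kap S M y)) := by
      rw [kap]
      split_ifs
      · exact M.ψ_κ _ _
      · exact Commute.zero_right _
    have h' := h.map (ix β S.n)
    rw [ix_cst] at h'
    exact h'
  ψ_ker y f h0 h1 := by
    show ix β S.n (M.ψ (red S y) f) = 0
    rw [M.ψ_ker _ f h0 h1, map_zero]
  t_eq y := by
    have h : (2 : ℂ) • M.ι (lab S.n S.I y) = cst (kap S M y) * (1 + M.ψ (red S y) S.ℓ) := by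
      rw [kap]
      split_ifs with hy
      · have := M.t_eq (red S y)
        rwa [show ((red S y : Fin S.n) : ℕ) = y from Nat.mod_eq_of_lt hy] at this
      · rw [lab_zero hy, map_zero, smul_zero]
        exact (zero_mul _).symm
    have h' := congrArg (ix β S.n) h
    rw [map_smul, map_mul, map_add, map_one, ix_cst] at h'
    exact h'

end main

end T2Aux

theorem exists_step (S : Stage) (M : Mid S) (β : ℕ → Bool) :
    ∃ S' : Stage, Nonempty (Step S S' β) :=
  ⟨T2Aux.next S M β, ⟨T2Aux.stp S M β⟩⟩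

end Pool.Agent.P.MP_5d580a_an.Ng
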