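import Pool.Agent.P.MP_5d580a_an.N.T3

open scoped ComplexOrder InnerProductSpace ComplexConjugate Matrix Kronecker
open Filter Topology

set_option linter.unusedSectionVars false
set_option linter.unusedVariables false
set_option linter.deprecated false

noncomputable section

namespace Pool.Agent.P.MP_5d580a_an.Ng

variable {D C : Type} [CStarAlgebra D] [CStarAlgebra C]
variable {H : Type} [NormedAddCommGroup H] [InnerProductSpace ℂ H] [CompleteSpace H]
variable {L : Type} [NormedAddCommGroup L] [InnerProductSpace ℂ L] [CompleteSpace L]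

namespace T4Aux

section Lim

variable {J : ℕ → Type} [∀ k, Fintype (J k)] [∀ k, DecidableEq (J k)]
  {V : ∀ k, Matrix (J (k + 1)) (J k) ℂ} {j : ∀ k, (J k → ℂ) →ₗ[ℂ] H}

theorem lift (h : IsLim J V j) {k k' : ℕ} (hk : k ≤ k') (v : J k → ℂ) :
    ∃ v', j k' v' = j k v := by
  induction k', hk using Nat.le_induction with
  | base => exact ⟨v, rfl⟩
  | succ m _ ih =>
    obtain ⟨v', hv'⟩ := ih
    exact ⟨V m *ᵥ v', (h.succ m v').trans hv'⟩

theorem star_eq (h : IsLim J V j) (n : ℕ) {x y : H →L[ℂ] H}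
    (he : ∀ k, n ≤ k → ∀ v v', ⟪x (j k v), j k v'⟫_ℂ = ⟪j k v, y (j k v')⟫_ℂ) :
    x = star y := by
  rw [ContinuousLinearMap.star_eq_adjoint, ContinuousLinearMap.eq_adjoint_iff]
  intro a b
  have key : (fun p : H × H => ⟪x p.1, p.2⟫_ℂ) = fun p : H × H => ⟪p.1, y p.2⟫_ℂ := by
    refine Continuous.ext_on (h.dense.prod h.dense) (by fun_prop) (by fun_prop) ?_
    rintro ⟨a, b⟩ ⟨ha, hb⟩
    simp only [Set.mem_iUnion, Set.mem_range] at ha hb
    obtain ⟨k, v, rfl⟩ := ha
    obtain ⟨k', v', rfl⟩ := hb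
    obtain ⟨w, hw⟩ := lift h (show k ≤ n + k + k' by omega) v
    obtain ⟨w', hw'⟩ := lift h (show k' ≤ n + k + k' by omega) v'
    simp only [← hw, ← hw']
    exact he _ (by omega) w w'
  exact congrFun key (a, b)

theorem inner_mv (h : IsLim J V j) (k : ℕ) (x : Matrix (J k) (J k) ℂ) (v v' : J k → ℂ) :
    ⟪j k (xᴴ *ᵥ v), j k v'⟫_ℂ = ⟪j k v, j k (x *ᵥ v')⟫_ℂ := by
  rw [h.inner, h.inner, Matrix.star_mulVec, Matrix.conjTranspose_conjTranspose,
    Matrix.dotProduct_mulVec]

theorem normsq (h : IsLim J V j) (k : ℕ) (v : J k → ℂ) :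
    ((‖j k v‖ ^ 2 : ℝ) : ℂ) = star v ⬝ᵥ v := by
  rw [← h.inner, inner_self_eq_norm_sq_to_K]
  simp

theorem jinj (h : IsLim J V j) (k : ℕ) (v : J k → ℂ) (hv : j k v = 0) : v = 0 := by
  have := h.inner k v v
  rw [hv, inner_zero_left] at this
  exact dotProduct_star_self_eq_zero.1 this.symm

/-- matrices with `x xᴴ x = x` act as contractions -/
theorem contr (h : IsLim J V j) (k : ℕ) (x : Matrix (J k) (J k) ℂ) (hx : x * xᴴ * x = x)
    (v : J k → ℂ) : ‖j k (x *ᵥ v)‖ ≤ ‖j k v‖ := by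
  have e1 : ⟪j k ((xᴴ * x) *ᵥ v), j k v⟫_ℂ = ⟪j k (x *ᵥ v), j k (x *ᵥ v)⟫_ℂ := by
    rw [← Matrix.mulVec_mulVec, inner_mv h]
  have e2 : ⟪j k ((xᴴ * x) *ᵥ v), j k ((xᴴ * x) *ᵥ v)⟫_ℂ = ⟪j k (x *ᵥ v), j k (x *ᵥ v)⟫_ℂ := by
    conv_lhs => rw [← Matrix.mulVec_mulVec v xᴴ x, inner_mv h, Matrix.mulVec_mulVec,
      Matrix.mulVec_mulVec, hx]
  have e3 : ‖j k ((xᴴ * x) *ᵥ v)‖ = ‖j k (x *ᵥ v)‖ := by
    rw [@norm_eq_sqrt_re_inner ℂ, @norm_eq_sqrt_re_inner ℂ _ _ _ _ (j k (x *ᵥ v)), e2]
  have e4 : ‖j k (x *ᵥ v)‖ * ‖j k (x *ᵥ v)‖ ≤ ‖j k (x *ᵥ v)‖ * ‖j k v‖ := by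
    have := norm_inner_le_norm (𝕜 := ℂ) (j k ((xᴴ * x) *ᵥ v)) (j k v)
    rw [e1, e3, inner_self_eq_norm_sq_to_K] at this
    simpa [sq] using this
  rcases (norm_nonneg (j k (x *ᵥ v))).eq_or_lt with h0 | h0
  · rw [← h0]; exact norm_nonneg _
  · exact le_of_mul_le_mul_left e4 h0

end Lim

theorem fn_ind {n : ℕ} {I : Type} [Fintype I] [DecidableEq I] (P : Fn n I → Prop)
    (h0 : P 0) (hadd : ∀ f g, P f → P g → P (f + g)) (hsmul : ∀ (c : ℂ) f, P f → P (c • f))
    (hb : ∀ b, b * star b * b = b → P b) (f : Fn n I) : P f := by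
  have e : f = ∑ y, ∑ i, ∑ i', f y i i' • (Pi.single y (Matrix.single i i' 1) : Fn n I) := by
    funext y
    simp only [Finset.sum_apply, Pi.smul_apply]
    rw [Finset.sum_eq_single y]
    · simp only [Pi.single_eq_same, Matrix.smul_single, smul_eq_mul, mul_one]
      exact Matrix.matrix_eq_sum_single _
    · intro y' _ hy
      simp [Pi.single_eq_of_ne hy.symm]
    · simp
  rw [e]
  refine Finset.sum_induction _ P hadd h0 fun y _ => ?_
  refine Finset.sum_induction _ P hadd h0 fun i _ => ?_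
  refine Finset.sum_induction _ P hadd h0 fun i' _ => ?_
  refine hsmul _ _ (hb _ ?_)
  funext y'
  by_cases hy : y' = y
  · subst hy
    simp [Matrix.star_eq_conjTranspose, Matrix.single_mul_single_same]
  · simp [Pi.single_eq_of_ne hy]

theorem bd_scalar {m : Type} [DecidableEq m] (c : ℂ) :
    (Matrix.blockDiagonal fun _ : Bool => c • (1 : Matrix m m ℂ)) = c • 1 :=
  (Matrix.blockDiagonal_smul c (1 : Bool → Matrix m m ℂ)).trans
    (by rw [Matrix.blockDiagonal_one])

/-- both witness representations at once -/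
def rho (S : Stage) :
    Fn S.n S.I →⋆ₐ[ℂ] Matrix ((S.I × S.K) × Bool) ((S.I × S.K) × Bool) ℂ where
  toFun f := Matrix.blockDiagonal fun ε => S.rep ε f
  map_one' := by
    simp only [map_one]
    exact Matrix.blockDiagonal_one
  map_mul' f g := by
    simp only [map_mul]
    exact Matrix.blockDiagonal_mul _ _
  map_zero' := by
    simp only [map_zero]
    exact Matrix.blockDiagonal_zero
  map_add' f g := by
    simp only [map_add]
    exact Matrix.blockDiagonal_add _ _
  commutes' c := by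
    simp only [AlgHomClass.commutes]
    simp only [Algebra.algebraMap_eq_smul_one]
    exact bd_scalar c
  map_star' f := by
    simp only [map_star, Matrix.star_eq_conjTranspose, Matrix.blockDiagonal_conjTranspose]

theorem rho_apply (S : Stage) (f : Fn S.n S.I) :
    rho S f = Matrix.blockDiagonal fun ε => S.rep ε f := rfl

theorem bd_mulVec {m n : Type} [Fintype n] (M : Bool → Matrix m n ℂ) (v : n × Bool → ℂ)
    (a : m) (ε : Bool) :
    (Matrix.blockDiagonal M *ᵥ v) (a, ε) = (M ε *ᵥ fun b => v (b, ε)) a := by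
  simp only [Matrix.mulVec, dotProduct, Fintype.sum_prod_type, Matrix.blockDiagonal_apply']
  refine Finset.sum_congr rfl fun b _ => ?_
  cases ε <;> simp

/-- the flip of the two copies -/
def flp (m : Type) [DecidableEq m] : Matrix (m × Bool) (m × Bool) ℂ :=
  Matrix.of fun a b => if b = (a.1, !a.2) then 1 else 0

theorem flp_mulVec {m : Type} [Fintype m] [DecidableEq m] (v : m × Bool → ℂ) (a : m × Bool) :
    (flp m *ᵥ v) a = v (a.1, !a.2) := by
  simp [flp, Matrix.mulVec, dotProduct]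

theorem flp_comm {m n : Type} [Fintype m] [DecidableEq m] [Fintype n] [DecidableEq n]
    (M : Matrix m n ℂ) :
    flp m * Matrix.blockDiagonal (fun _ : Bool => M) =
      Matrix.blockDiagonal (fun _ : Bool => M) * flp n := by
  refine Matrix.ext_iff_mulVec.2 fun v => ?_
  funext ⟨a, ε⟩
  rw [← Matrix.mulVec_mulVec, ← Matrix.mulVec_mulVec, flp_mulVec, bd_mulVec, bd_mulVec]
  simp only [flp_mulVec]

theorem flp_sq {m : Type} [Fintype m] [DecidableEq m] : flp m * flp m = 1 := by
  refine Matrix.ext_iff_mulVec.2 fun v => ?_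
  funext a
  rw [← Matrix.mulVec_mulVec, flp_mulVec, flp_mulVec]
  simp

theorem flp_star {m : Type} [DecidableEq m] : (flp m)ᴴ = flp m := by
  ext ⟨a, ε⟩ ⟨b, ε'⟩
  simp only [flp, Matrix.conjTranspose_apply, Matrix.of_apply, Prod.mk.injEq]
  by_cases h : a = b
  · subst h
    cases ε <;> cases ε' <;> simp
  · have h' : ¬ b = a := fun e => h e.symm
    simp [h, h']

variable {S : ℕ → Stage} {β : ℕ → ℕ → Bool} (st : ∀ k, Step (S k) (S (k + 1)) (β k))

/-- iterated inclusion -/
def up (n k : ℕ) (h : n ≤ k) : Fn (S n).n (S n).I →⋆ₐ[ℂ] Fn (S k).n (S k).I :=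
  Nat.leRec (motive := fun k _ => Fn (S n).n (S n).I →⋆ₐ[ℂ] Fn (S k).n (S k).I)
    (StarAlgHom.id ℂ _) (fun k _ ih => (st k).ι.comp ih) h

theorem up_self (n : ℕ) (f : Fn (S n).n (S n).I) : up st n n le_rfl f = f := by
  rw [up, Nat.leRec_self]
  rfl

theorem up_succ (n k : ℕ) (h : n ≤ k) (h' : n ≤ k + 1) (f : Fn (S n).n (S n).I) :
    up st n (k + 1) h' f = (st k).ι (up st n k h f) := by
  rw [up, Nat.leRec_succ _ _ h]
  rfl

theorem up_left (n k : ℕ) (h : n + 1 ≤ k) (h' : n ≤ k) (f : Fn (S n).n (S n).I) :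
    up st (n + 1) k h ((st n).ι f) = up st n k h' f := by
  induction k, h using Nat.le_induction with
  | base => rw [up_self, up_succ st n n le_rfl, up_self]
  | succ m hm ih => rw [up_succ st _ m hm, up_succ st n m (by omega), ih]

theorem up_cst (n k : ℕ) (h : n ≤ k) (a : Matrix (S n).I (S n).I ℂ) :
    ∃ a', up st n k h (cst a) = cst a' := by
  induction k, h using Nat.le_induction with
  | base => exact ⟨a, up_self st n _⟩
  | succ m hm ih =>
    obtain ⟨a', ha'⟩ := ih
    exact ⟨_, by rw [up_succ st n m hm, ha', (st m).ι_cst]⟩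

/-- the doubled isometries -/
def W (k : ℕ) :
    Matrix (((S (k + 1)).I × (S (k + 1)).K) × Bool) (((S k).I × (S k).K) × Bool) ℂ :=
  Matrix.blockDiagonal fun _ => (st k).V

theorem W_iso (k : ℕ) : (W st k)ᴴ * W st k = 1 := by
  rw [W, Matrix.blockDiagonal_conjTranspose, ← Matrix.blockDiagonal_mul]
  simp only [(st k).V_iso]
  exact Matrix.blockDiagonal_one

theorem W_int (k : ℕ) (f : Fn (S k).n (S k).I) :
    rho (S (k + 1)) ((st k).ι f) * W st k = W st k * rho (S k) f := by
  rw [W, rho_apply, rho_apply, ← Matrix.blockDiagonal_mul, ← Matrix.blockDiagonal_mul]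
  simp only [(st k).V_int]

theorem W_m (k w : ℕ) :
    (W st k)ᴴ * rho (S (k + 1)) (cst ((st k).m w)) * W st k = (2⁻¹ : ℂ) • 1 := by
  rw [W, rho_apply, Matrix.blockDiagonal_conjTranspose, ← Matrix.blockDiagonal_mul,
    ← Matrix.blockDiagonal_mul]
  simp only [Stage.rep_cst, (st k).m_V]
  exact bd_scalar _

variable {st} {j : ∀ k, ((((S k).I × (S k).K) × Bool) → ℂ) →ₗ[ℂ] H}

theorem exists_lam (h : IsLim (fun k => ((S k).I × (S k).K) × Bool) (W st) j) (n : ℕ)
    (f : Fn (S n).n (S n).I) :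
    ∃ y : H →L[ℂ] H, ∀ k (hk : n ≤ k) v,
      y (j k v) = j k (rho (S k) (up st n k hk f) *ᵥ v) := by
  have hb : ∃ c : ℝ, ∀ k (hk : n ≤ k) v,
      ‖j k (rho (S k) (up st n k hk f) *ᵥ v)‖ ≤ c * ‖j k v‖ := by
    refine fn_ind (fun f => ∃ c : ℝ, ∀ k (hk : n ≤ k) v,
      ‖j k (rho (S k) (up st n k hk f) *ᵥ v)‖ ≤ c * ‖j k v‖) ?_ ?_ ?_ ?_ f
    · exact ⟨0, fun k hk v => by simp⟩
    · rintro f g ⟨c, hc⟩ ⟨c', hc'⟩
      refine ⟨c + c', fun k hk v => ?_⟩
      rw [map_add, map_add, Matrix.add_mulVec, map_add, add_mul]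
      exact (norm_add_le _ _).trans (add_le_add (hc k hk v) (hc' k hk v))
    · rintro a f ⟨c, hc⟩
      refine ⟨‖a‖ * c, fun k hk v => ?_⟩
      rw [map_smul, map_smul, Matrix.smul_mulVec, map_smul, norm_smul, mul_assoc]
      exact mul_le_mul_of_nonneg_left (hc k hk v) (norm_nonneg _)
    · intro b hb
      refine ⟨1, fun k hk v => ?_⟩
      rw [one_mul]
      refine contr h k _ ?_ v
      rw [← Matrix.star_eq_conjTranspose, ← map_star, ← map_star, ← map_mul, ← map_mul,
        ← map_mul, ← map_mul, hb]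
  obtain ⟨c, hc⟩ := hb
  refine h.exists_op n (fun k hk => rho (S k) (up st n k hk f)) (fun k hk => ?_) hc
  rw [up_succ st n k hk, W_int]

theorem exists_hom (h : IsLim (fun k => ((S k).I × (S k).K) × Bool) (W st) j) (n : ℕ) :
    ∃ lam : Fn (S n).n (S n).I →⋆ₐ[ℂ] (H →L[ℂ] H), ∀ f k (hk : n ≤ k) v,
      lam f (j k v) = j k (rho (S k) (up st n k hk f) *ᵥ v) := by
  choose y hy using exists_lam h n
  have hsm : ∀ (c : ℂ) f, y (c • f) = c • y f := fun c f => h.ext n fun k hk v => by
    rw [hy _ k hk, ContinuousLinearMap.smul_apply, hy _ k hk, map_smul, map_smul,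
      Matrix.smul_mulVec, map_smul]
  have h1 : y 1 = 1 := h.ext n fun k hk v => by
    rw [hy _ k hk, map_one, map_one, Matrix.one_mulVec, ContinuousLinearMap.one_apply]
  refine ⟨{ toFun := y
            map_one' := h1
            map_mul' := fun f g => h.ext n fun k hk v => ?_
            map_zero' := h.ext n fun k hk v => ?_
            map_add' := fun f g => h.ext n fun k hk v => ?_
            commutes' := fun c => ?_
            map_star' := fun f => star_eq h n fun k hk v v' => ?_ }, hy⟩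
  · rw [hy _ k hk, ContinuousLinearMap.mul_apply, hy _ k hk, hy _ k hk, map_mul, map_mul,
      Matrix.mulVec_mulVec]
  · rw [hy _ k hk]
    simp
  · rw [hy _ k hk, ContinuousLinearMap.add_apply, hy _ k hk, hy _ k hk, map_add, map_add,
      Matrix.add_mulVec, map_add]
  · simp only [Algebra.algebraMap_eq_smul_one]
    rw [hsm, h1]
  · rw [hy _ k hk, hy _ k hk, map_star, map_star, Matrix.star_eq_conjTranspose, inner_mv h]

end T4Aux

open T4Aux in
theorem exists_limRep (S : ℕ → Stage) (β : ℕ → ℕ → Bool)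
    (st : ∀ k, Step (S k) (S (k + 1)) (β k)) :
    ∃ (H : Type) (_ : NormedAddCommGroup H) (_ : InnerProductSpace ℂ H) (_ : CompleteSpace H)
      (lam : ∀ k, Fn (S k).n (S k).I →⋆ₐ[ℂ] (H →L[ℂ] H)), LimRep S β st lam := by
  obtain ⟨H, i1, i2, i3, j, h⟩ :=
    exists_lim (fun k => ((S k).I × (S k).K) × Bool) (W st) (W_iso st)
  choose lam hlam using exists_hom h
  have hself : ∀ k f v, lam k f (j k v) = j k (rho (S k) f *ᵥ v) := fun k f v => by
    rw [hlam k f k le_rfl, up_self]
  refine ⟨H, i1, i2, i3, lam, ?_, ?_, ?_, ?_⟩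
  · intro k f
    refine h.ext (k + 1) fun m hm v => ?_
    rw [hlam _ _ m hm, hlam _ _ m (by omega), up_left]
  · obtain ⟨U, hU⟩ := h.exists_op 0 (fun k _ => flp ((S k).I × (S k).K))
      (fun k _ => flp_comm _) (c := 1) (fun k _ v => by
        rw [one_mul]
        exact contr h k _ (by rw [flp_star, flp_sq, Matrix.one_mul]) v)
    refine ⟨U, fun k a => ?_, fun hc => ?_⟩
    · refine h.ext k fun m hm v => ?_
      obtain ⟨a', ha'⟩ := up_cst st k m hm a
      rw [ContinuousLinearMap.mul_apply, ContinuousLinearMap.mul_apply, hlam _ _ m hm,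
        hU m (Nat.zero_le _), hU m (Nat.zero_le _), hlam _ _ m hm, ha', Matrix.mulVec_mulVec,
        Matrix.mulVec_mulVec, rho_apply]
      simp only [Stage.rep_cst]
      rw [flp_comm]
    · let v : Bool → ((S 0).I × (S 0).K) × Bool → ℂ :=
        fun ε a => if a.2 = ε then (S 0).Ω a.1 else 0
      have hv : ∀ ε ε', (fun b => v ε (b, ε')) = if ε' = ε then (S 0).Ω else 0 := by
        intro ε ε'
        funext b
        by_cases e : ε' = ε <;> simp [v, e]
      have h0 : rho (S 0) (S 0).ℓ *ᵥ v false = v false := by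
        funext ⟨a, ε⟩
        rw [rho_apply, bd_mulVec, hv]
        cases ε
        · rw [if_pos rfl, Stage.rep_apply, (S 0).vac0]
          simp [v]
        · simp [v]
      have h1 : rho (S 0) (S 0).ℓ *ᵥ v true = -v true := by
        funext ⟨a, ε⟩
        rw [rho_apply, bd_mulVec, hv]
        cases ε
        · simp [v]
        · rw [if_pos rfl, Stage.rep_apply, (S 0).vac1]
          simp [v]
      have hf : flp _ *ᵥ v false = v true := by
        funext ⟨a, ε⟩
        rw [flp_mulVec]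
        cases ε <;> simp [v]
      have e := congrArg (fun x : H →L[ℂ] H => x (j 0 (v false))) hc.eq
      simp only [ContinuousLinearMap.mul_apply] at e
      rw [hself, h0, hU 0 le_rfl, hf, hself, h1, map_neg] at e
      have e0 : j 0 (v true) = 0 := by
        have : (2 : ℂ) • j 0 (v true) = 0 := by
          rw [two_smul]
          nth_rewrite 1 [e]
          exact neg_add_cancel _
        exact (smul_eq_zero.1 this).resolve_left two_ne_zero
      have e1 := jinj h 0 _ e0
      have e2 : (S 0).Ω = 0 := by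
        funext a
        simpa [v] using congrFun e1 (a, true)
      have e3 := (S 0).Ω_norm
      rw [e2] at e3
      simp at e3
  · intro k f hf
    have h0 : rho (S k) f = 0 := by
      refine Matrix.ext_iff_mulVec.2 fun v => ?_
      rw [Matrix.zero_mulVec]
      refine jinj h k _ ?_
      rw [← hself, hf, ContinuousLinearMap.zero_apply]
    rw [rho_apply, ← Matrix.blockDiagonal_zero] at h0
    have h1 := Matrix.blockDiagonal_injective h0
    exact ⟨congrFun h1 false, congrFun h1 true⟩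
  · refine h.dense.mono ?_
    intro η hη
    simp only [Set.mem_iUnion, Set.mem_range] at hη
    obtain ⟨k₀, v₀, rfl⟩ := hη
    refine ⟨k₀, fun k hk a w => ?_⟩
    obtain ⟨v, hv⟩ := lift h hk v₀
    rw [← hv, hself]
    generalize rho (S k) (cst a) *ᵥ v = u
    have hM : (rho (S (k + 1)) (cst ((st k).m w)))ᴴ * rho (S (k + 1)) (cst ((st k).m w)) =
        rho (S (k + 1)) (cst ((st k).m w)) := by
      rw [← Matrix.star_eq_conjTranspose, ← map_star, ← map_mul]
      congr 1
      funext y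
      have hp := (st k).m_proj w
      simp only [Pi.mul_apply, Pi.star_apply, cst]
      rw [hp.isSelfAdjoint.star_eq, hp.isIdempotentElem.eq]
    have e : ((‖lam (k + 1) (cst ((st k).m w)) (j k u)‖ ^ 2 : ℝ) : ℂ) =
        ((2⁻¹ * ‖j k u‖ ^ 2 : ℝ) : ℂ) := by
      rw [← h.succ k u, hself, normsq h, h.succ k u, Complex.ofReal_mul, normsq h,
        Matrix.mulVec_mulVec, Matrix.star_mulVec, ← Matrix.dotProduct_mulVec,
        Matrix.mulVec_mulVec, Matrix.conjTranspose_mul, Matrix.mul_assoc,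
        ← Matrix.mul_assoc _ (rho _ _) (W st k), hM, ← Matrix.mul_assoc, W_m,
        Matrix.smul_mulVec, Matrix.one_mulVec, dotProduct_smul]
      simp
    exact (Complex.ofReal_injective e).le

end Pool.Agent.P.MP_5d580a_an.Ng
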