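import Pool.Agent.P.MP_5d580a_an.N.TDefs

open scoped ComplexOrder InnerProductSpace ComplexConjugate Matrix Kronecker
open Filter Topology

set_option linter.unusedSectionVars false
set_option linter.unusedVariables false
set_option linter.deprecated false

noncomputable section

namespace Pool.Agent.P.MP_5d580a_an.Ng

variable {D C : Type} [CStarAlgebra D] [CStarAlgebra C]
variable {H : Type} [NormedAddCommGroup H] [InnerProductSpace ℂ H] [CompleteSpace H]
variable {L : Type} [NormedAddCommGroup L] [InnerProductSpace ℂ L] [CompleteSpace L]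

theorem T5_half_tendsto (a : ℕ → ℝ) (k₀ : ℕ) (h0 : ∀ j, 0 ≤ a j)
    (h : ∀ j, k₀ ≤ j → a (j + 1) ^ 2 ≤ 2⁻¹ * a j ^ 2) : Tendsto a atTop (𝓝 0) := by
  have hb : ∀ i, a (i + k₀) ^ 2 ≤ (2⁻¹ : ℝ) ^ i * a k₀ ^ 2 := by
    intro i
    induction i with
    | zero => simp
    | succ i ih =>
      have h1 := h (i + k₀) (Nat.le_add_left _ _)
      have e : i + 1 + k₀ = i + k₀ + 1 := by omega
      rw [e, pow_succ (2⁻¹ : ℝ) i]
      nlinarith
  have hlim : Tendsto (fun i : ℕ => (2⁻¹ : ℝ) ^ i * a k₀ ^ 2) atTop (𝓝 0) := by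
    have := (tendsto_pow_atTop_nhds_zero_of_lt_one (r := (2⁻¹ : ℝ)) (by norm_num)
      (by norm_num)).mul_const (a k₀ ^ 2)
    simpa using this
  have hsq : Tendsto (fun i => a (i + k₀) ^ 2) atTop (𝓝 0) :=
    squeeze_zero (fun i => sq_nonneg _) hb hlim
  have hs : Tendsto (fun i => a (i + k₀)) atTop (𝓝 0) := by
    have := hsq.sqrt
    rw [Real.sqrt_zero] at this
    refine this.congr fun i => ?_
    exact Real.sqrt_sq (h0 _)
  exact (tendsto_add_atTop_iff_nat k₀).1 hs

theorem null_of_half (T : Tower (H →L[ℂ] H))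
    (h : Dense {η : H | ∃ k₀, ∀ k, k₀ ≤ k → ∀ a ∈ T.A k, ∀ w,
      ‖T.m k w (a η)‖ ^ 2 ≤ 2⁻¹ * ‖a η‖ ^ 2}) :
    ∀ ω, IsPath ω → ∀ n η, Tendsto (fun j => T.E n j (ω (n + j)) η) atTop (𝓝 0) := by
  intro ω hω n η
  rw [Metric.tendsto_atTop]
  intro ε hε
  obtain ⟨η', ⟨k₀, hk⟩, hd⟩ := h.exists_dist_lt η (half_pos hε)
  have hlim : Tendsto (fun j => ‖T.E n j (ω (n + j)) η'‖) atTop (𝓝 0) := by
    refine T5_half_tendsto _ k₀ (fun j => norm_nonneg _) fun j hj => ?_
    have e : T.E n (j + 1) (ω (n + (j + 1))) =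
        T.m (n + j) (ω (n + j + 1)) * T.E n j (ω (n + j)) := by
      have e1 : T.E n (j + 1) (ω (n + (j + 1))) =
          T.E n j (ω (n + j + 1) / 2) * T.m (n + j) (ω (n + j + 1)) := rfl
      rw [e1, hω.2 (n + j)]
      exact ((T.m_comm (n + j) _ _ (T.E_mem n j _)).eq).symm
    rw [e, ContinuousLinearMap.mul_apply]
    exact hk (n + j) (by omega) _ (T.E_mem n j _) _
  rw [Metric.tendsto_atTop] at hlim
  obtain ⟨N, hN⟩ := hlim (ε / 2) (half_pos hε)
  refine ⟨N, fun j hj => ?_⟩
  have h1 := hN j hj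
  rw [dist_zero_right, norm_norm] at h1
  rw [dist_zero_right]
  have h2 : ‖T.E n j (ω (n + j)) (η - η')‖ ≤ ‖η - η'‖ := proj_norm_le (T.E_proj n j _) _
  rw [dist_eq_norm] at hd
  have e : T.E n j (ω (n + j)) η = T.E n j (ω (n + j)) η' + T.E n j (ω (n + j)) (η - η') := by
    rw [← map_add]; congr 1; abel
  rw [e]
  have := norm_add_le (T.E n j (ω (n + j)) η') (T.E n j (ω (n + j)) (η - η'))
  linarith

/-- constant functions as a star homomorphism -/
def T5_cst (n : ℕ) (I : Type) [Fintype I] [DecidableEq I] : Matrix I I ℂ →⋆ₐ[ℂ] Fn n I where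
  toFun := cst
  map_one' := rfl
  map_mul' _ _ := rfl
  map_zero' := rfl
  map_add' _ _ := rfl
  commutes' _ := rfl
  map_star' _ := rfl

theorem T5_cst_apply (n : ℕ) (I : Type) [Fintype I] [DecidableEq I] (a : Matrix I I ℂ) :
    T5_cst n I a = cst a := rfl

theorem T5_lab_proj (n : ℕ) (I : Type) [Fintype I] [DecidableEq I] (y : ℕ) :
    IsStarProjection (lab n I y) := by
  constructor
  · show lab n I y * lab n I y = lab n I y
    funext y'
    simp only [Pi.mul_apply, lab]
    split_ifs <;> simp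
  · show star (lab n I y) = lab n I y
    funext y'
    simp only [Pi.star_apply, lab]
    split_ifs <;> simp

theorem T5_lab_orth (n : ℕ) (I : Type) [Fintype I] [DecidableEq I] {y z : ℕ} (h : y ≠ z) :
    lab n I y * lab n I z = 0 := by
  funext y'
  simp only [Pi.mul_apply, lab, Pi.zero_apply]
  split_ifs with h1 h2
  · rw [h1] at h2
    exact absurd (Option.some.inj h2) h
  all_goals simp

theorem T5_lab_comm (n : ℕ) (I : Type) [Fintype I] [DecidableEq I] (y : ℕ) (f : Fn n I) :
    Commute (lab n I y) f := by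
  show lab n I y * f = f * lab n I y
  funext y'
  simp only [Pi.mul_apply, lab]
  split_ifs <;> simp

theorem T5_gen (n : ℕ) (I : Type) [Fintype I] [DecidableEq I] (f : Fn n I) :
    ∃ a : ℕ → Matrix I I ℂ, f = cst (f none) + ∑ w ∈ Finset.range n, cst (a w) * lab n I w := by
  refine ⟨fun w => if h : w < n then f (some ⟨w, h⟩) - f none else 0, ?_⟩
  funext y'
  rw [Pi.add_apply, Finset.sum_apply]
  cases y' with
  | none => simp [cst, lab]
  | some y =>
    rw [Finset.sum_eq_single y.1]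
    · simp [cst, lab, y.2]
    · intro w _ hw
      have : ¬ (y.1 = w) := fun e => hw e.symm
      simp [lab, this]
    · intro hy
      exact absurd (Finset.mem_range.2 y.2) hy

theorem T5_factor {V W U : Type} [AddCommGroup V] [Module ℂ V] [AddCommGroup W] [Module ℂ W]
    [AddCommGroup U] [Module ℂ U] (f : V →ₗ[ℂ] W) (g : V →ₗ[ℂ] U)
    (h : ∀ x, f x = 0 → g x = 0) : ∃ p : W →ₗ[ℂ] U, ∀ x, p (f x) = g x := by
  have hk : LinearMap.ker f ≤ LinearMap.ker g := fun x hx => h x hx
  obtain ⟨p, hp⟩ := LinearMap.exists_extend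
    (((LinearMap.ker f).liftQ g hk).comp f.quotKerEquivRange.symm.toLinearMap)
  refine ⟨p, fun x => ?_⟩
  have h1 := LinearMap.congr_fun hp ⟨f x, LinearMap.mem_range_self f x⟩
  simp only [LinearMap.comp_apply, Submodule.subtype_apply, LinearEquiv.coe_coe] at h1
  rw [h1, LinearMap.quotKerEquivRange_symm_apply_image, Submodule.mkQ_apply,
    Submodule.liftQ_apply]

theorem T5_fin {A : Type} [Ring A] [StarRing A] [Algebra ℂ A] [StarModule ℂ A]
    [FiniteDimensional ℂ A] (f : A →⋆ₐ[ℂ] D) : FiniteDimensional ℂ f.range := by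
  refine Module.Finite.of_surjective (f.rangeRestrict.toAlgHom.toLinearMap) ?_
  rintro ⟨_, x, rfl⟩
  exact ⟨x, rfl⟩

theorem T5_closed (S : StarSubalgebra ℂ D) [FiniteDimensional ℂ S] : IsClosed (S : Set D) := by
  have : FiniteDimensional ℂ (Subalgebra.toSubmodule S.toSubalgebra) := ‹_›
  exact (Subalgebra.toSubmodule S.toSubalgebra).closed_of_finiteDimensional

theorem T5_bas {k y y' : ℕ} (h : bas k y ≠ bas k y') :
    decide (bas k y = 1) ≠ decide (bas k y' = 1) := by
  have h1 : bas k y < 2 := Nat.mod_lt _ (by norm_num)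
  have h2 : bas k y' < 2 := Nat.mod_lt _ (by norm_num)
  intro e
  rw [decide_eq_decide] at e
  omega

theorem tower_of_limRep (S : ℕ → Stage) (b : Base (S 0))
    (st : ∀ k, Step (S k) (S (k + 1)) fun y => decide (bas k y = 1))
    (lam : ∀ k, Fn (S k).n (S k).I →⋆ₐ[ℂ] (H →L[ℂ] H))
    (h : LimRep S (fun k y => decide (bas k y = 1)) st lam) :
    ∃ T : Tower (H →L[ℂ] H), Wit T := by
  have hn : ∀ k, (S k).n = 2 ^ (k + 1) := by
    intro k
    induction k with
    | zero => rw [b.hn]; norm_num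
    | succ k ih => rw [(st k).hn, ih]; ring
  have hℓ : ∀ k, lam k (S k).ℓ = lam 0 (S 0).ℓ := by
    intro k
    induction k with
    | zero => rfl
    | succ k ih => rw [← (st k).ι_ℓ, h.succ, ih]
  let c : ∀ k, Matrix (S k).I (S k).I ℂ →⋆ₐ[ℂ] (H →L[ℂ] H) := fun k =>
    (lam k).comp (T5_cst (S k).n (S k).I)
  have hc : ∀ k a, c k a = lam k (cst a) := fun k a => rfl
  have hup : ∀ k a, c k a = c (k + 1) ((st k).ιA a) := by
    intro k a
    rw [hc, hc, ← (st k).ι_cst, h.succ]
  have hψ : ∀ k y, ∃ p : (H →L[ℂ] H) →ₗ[ℂ] (H →L[ℂ] H),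
      ∀ f, p (lam k f) = lam (k + 1) ((st k).ψ y f) := by
    intro k y
    obtain ⟨p, hp⟩ := T5_factor (lam k).toAlgHom.toLinearMap
      ((lam (k + 1)).comp ((st k).ψ y)).toAlgHom.toLinearMap (fun f hf => by
        obtain ⟨h0, h1⟩ := h.ker k f hf
        show lam (k + 1) ((st k).ψ y f) = 0
        rw [(st k).ψ_ker y f h0 h1, map_zero])
    exact ⟨p, hp⟩
  choose ψ hψ using hψ
  have finB : ∀ k, FiniteDimensional ℂ (lam k).range := fun k => T5_fin (lam k)
  have finA : FiniteDimensional ℂ (c 0).range := T5_fin (c 0)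
  obtain ⟨nN, nc, hnc, hnet⟩ := exists_net (c 0).range
  have mA : ∀ k a, c k a ∈ (c k).range := fun k a => ⟨a, rfl⟩
  have mB : ∀ k f, lam k f ∈ (lam k).range := fun k f => ⟨f, rfl⟩
  have eA : ∀ k x, x ∈ (c k).range → ∃ a, x = c k a := by
    rintro k _ ⟨a, rfl⟩
    exact ⟨a, rfl⟩
  have eB : ∀ k x, x ∈ (lam k).range → ∃ f, x = lam k f := by
    rintro k _ ⟨f, rfl⟩
    exact ⟨f, rfl⟩
  have comm : ∀ k (x : Matrix (S (k + 1)).I (S (k + 1)).I ℂ), (∀ a, Commute x ((st k).ιA a)) →
      ∀ a ∈ (c k).range, Commute (c (k + 1) x) a := by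
    intro k x hx a ha
    obtain ⟨a, rfl⟩ := eA k a ha
    rw [hup k a]
    exact (hx a).map (c (k + 1))
  let T : Tower (H →L[ℂ] H) :=
    { A := fun k => (c k).range
      B := fun k => (lam k).range
      t := fun k w => lam k (lab (S k).n (S k).I w)
      m := fun k w => c (k + 1) ((st k).m w)
      pp := fun k y => c (k + 1) ((st k).pp y)
      pm := fun k y => c (k + 1) ((st k).pm y)
      κ := fun k y => c (k + 1) ((st k).κ y)
      ψ := ψ
      ℓ := lam 0 (S 0).ℓ
      hs := c 0 b.hs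
      h := fun i => c 0 (b.h i)
      Z1 := c 0 b.Z1
      X1 := c 0 b.X1
      Z2 := c 0 b.Z2
      X2 := c 0 b.X2
      nN := nN
      nc := nc
      A_le_B := fun k x hx => by
        obtain ⟨a, rfl⟩ := eA k x hx
        exact mB k _
      A_mono := monotone_nat_of_le_succ fun k x hx => by
        obtain ⟨a, rfl⟩ := eA k x hx
        rw [hup k a]
        exact mA _ _
      B_mono := monotone_nat_of_le_succ fun k x hx => by
        obtain ⟨f, rfl⟩ := eB k x hx
        rw [← h.succ k f]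
        exact mB _ _
      fin := finB
      t_mem := fun k w => mB k _
      t_proj := fun k w => (T5_lab_proj _ _ w).map (lam k)
      t_orth := fun k w w' hw => by
        rw [← map_mul, T5_lab_orth _ _ hw, map_zero]
      t_cent := fun k w x hx => by
        obtain ⟨f, rfl⟩ := eB k x hx
        exact (T5_lab_comm _ _ w f).map (lam k)
      gen := fun k x hx => by
        obtain ⟨f, rfl⟩ := eB k x hx
        obtain ⟨a, ha⟩ := T5_gen _ _ f
        refine ⟨c k (f none), mA _ _, fun w => c k (a w), fun w => mA _ _, ?_⟩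
        rw [← hn k]
        conv_lhs => rw [ha]
        rw [map_add, map_sum]
        simp only [map_mul, hc]
      m_mem := fun k w => mA _ _
      m_proj := fun k w => ((st k).m_proj w).map (c (k + 1))
      m_comm := fun k w => comm k _ ((st k).m_comm w)
      m_add := fun k y => by
        rw [← map_add, (st k).m_add, map_one]
      m_sep := fun k w w' hw => by
        rw [← map_mul, ← map_mul, (st k).m_sep w w' (T5_bas hw), map_smul]
      pp_mem := fun k y => mA _ _
      pm_mem := fun k y => mA _ _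
      pp_proj := fun k y => ((st k).pp_proj y).map (c (k + 1))
      pm_proj := fun k y => ((st k).pm_proj y).map (c (k + 1))
      pp_comm := fun k y => comm k _ ((st k).pp_comm y)
      pm_comm := fun k y => comm k _ ((st k).pm_comm y)
      pp_m := fun k y w => ((st k).pp_m y w).map (c (k + 1))
      pm_m := fun k y w => ((st k).pm_m y w).map (c (k + 1))
      step := fun k y => by
        rw [← h.succ k, (st k).step y, ← map_sub]
        simp only [map_add, map_mul, hc]
      κ_mem := fun k y => mA _ _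
      κ_proj := fun k y => ((st k).κ_proj y).map (c (k + 1))
      κ_comm := fun k y => comm k _ ((st k).κ_comm y)
      ψ_hom := fun k y => by
        have := finB k
        refine HomOn.of_closed (T5_closed _) ?_ ?_
        · intro x hx x' hx'
          obtain ⟨f, rfl⟩ := eB k x hx
          obtain ⟨f', rfl⟩ := eB k x' hx'
          rw [← map_mul, hψ, hψ, hψ, map_mul, map_mul]
        · intro x hx
          obtain ⟨f, rfl⟩ := eB k x hx
          rw [← map_star, hψ, hψ, map_star, map_star]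
      ψ_one := fun k y => by
        rw [← map_one (lam k), hψ, map_one, map_one, map_one]
      ψ_A := fun k y x hx => by
        obtain ⟨a, rfl⟩ := eA k x hx
        obtain ⟨a', ha'⟩ := (st k).ψ_cst y a
        rw [hc, hψ, ha']
        exact mA _ a'
      ψ_B := fun k y x hx => by
        obtain ⟨f, rfl⟩ := eB k x hx
        rw [hψ]
        exact mB _ _
      ψ_comm := fun k y x hx a ha => by
        obtain ⟨f, rfl⟩ := eB k x hx
        obtain ⟨a, rfl⟩ := eA k a ha
        rw [hψ, hup k a, hc]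
        exact ((st k).ψ_comm y f a).map (lam (k + 1))
      ψ_κ := fun k y x hx => by
        obtain ⟨f, rfl⟩ := eB k x hx
        rw [hψ, hc]
        exact ((st k).ψ_κ y f).map (lam (k + 1))
      t_eq := fun k y => by
        rw [← hℓ k, hψ, ← h.succ k, ← map_smul, (st k).t_eq y, map_mul, map_add, map_one, hc]
      ℓ_mem := mB 0 _
      hs_mem := mA 0 _
      h_mem := fun i => mA 0 _
      h_norm := fun i => by
        rw [sq, ← CStarRing.norm_star_mul_self, ← map_star, ← map_mul, b.h_sq, map_smul, map_one,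
          norm_smul]
        have h1 : ‖(1 : H →L[ℂ] H)‖ ≤ 1 := ContinuousLinearMap.norm_id_le
        have h2 : ‖(2 : ℂ)‖ = 2 := by simp
        rw [h2]
        linarith
      root := by
        rw [b.root]
        simp only [map_add, map_mul, hc]
      q1 := ⟨b.Z1_sa.map (c 0), b.X1_sa.map (c 0), by rw [← map_mul, b.Z1_sq, map_one],
        by rw [← map_mul, b.X1_sq, map_one], by rw [← map_mul, b.anti1, map_neg, map_mul]⟩
      q2 := ⟨b.Z2_sa.map (c 0), b.X2_sa.map (c 0), by rw [← map_mul, b.Z2_sq, map_one],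
        by rw [← map_mul, b.X2_sq, map_one], by rw [← map_mul, b.anti2, map_neg, map_mul]⟩
      Z1_mem := mA 0 _
      X1_mem := mA 0 _
      Z2_mem := mA 0 _
      X2_mem := mA 0 _
      Z1_ℓ := b.Z1_ℓ.map (lam 0)
      X1_ℓ := b.X1_ℓ.map (lam 0)
      Z2_ℓ := b.Z2_ℓ.map (lam 0)
      X2_ℓ := b.X2_ℓ.map (lam 0)
      Z1_Z2 := b.Z1_Z2.map (c 0)
      Z1_X2 := b.Z1_X2.map (c 0)
      X1_Z2 := b.X1_Z2.map (c 0)
      X1_X2 := b.X1_X2.map (c 0)
      nc_mem := hnc
      net := hnet }
  refine ⟨T, ?_, null_of_half T ?_⟩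
  · obtain ⟨U, hU, hU'⟩ := h.flip
    refine ⟨U, fun k x hx => ?_, hU'⟩
    obtain ⟨a, rfl⟩ := eA k x hx
    exact hU k a
  · refine h.half.mono ?_
    rintro η ⟨k₀, hk⟩
    refine ⟨k₀, fun k hk' x hx w => ?_⟩
    obtain ⟨a, rfl⟩ := eA k x hx
    exact hk k hk' a w

end Pool.Agent.P.MP_5d580a_an.Ng
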