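import Pool.Agent.P.MP_5d580a_an.N.T1
import Pool.Agent.P.MP_5d580a_an.N.T2
import Pool.Agent.P.MP_5d580a_an.N.T4
import Pool.Agent.P.MP_5d580a_an.N.T5

open scoped ComplexOrder InnerProductSpace ComplexConjugate Matrix Kronecker
open Filter Topology

set_option linter.unusedSectionVars false
set_option linter.unusedVariables false
set_option linter.deprecated false

noncomputable section

namespace Pool.Agent.P.MP_5d580a_an.Ng

variable {D C : Type} [CStarAlgebra D] [CStarAlgebra C]
variable {H : Type} [NormedAddCommGroup H] [InnerProductSpace ℂ H] [CompleteSpace H]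
variable {L : Type} [NormedAddCommGroup L] [InnerProductSpace ℂ L] [CompleteSpace L]

theorem exists_tower :
    ∃ (H : Type) (_ : NormedAddCommGroup H) (_ : InnerProductSpace ℂ H) (_ : CompleteSpace H)
      (T : Tower (H →L[ℂ] H)), Wit T := by
  obtain ⟨S₀, ⟨b⟩⟩ := exists_base
  have hs : ∀ (S : Stage) (β : ℕ → Bool), ∃ S' : Stage, Nonempty (Step S S' β) := fun S β =>
    exists_step S (exists_mid S).some β
  choose nx hnx using hs
  let S : ℕ → Stage := fun k => Nat.rec S₀ (fun k S => nx S fun y => decide (bas k y = 1)) k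
  let st : ∀ k, Step (S k) (S (k + 1)) fun y => decide (bas k y = 1) := fun k =>
    (hnx (S k) _).some
  obtain ⟨H, i1, i2, i3, lam, h⟩ := exists_limRep S (fun k y => decide (bas k y = 1)) st
  obtain ⟨T, hT⟩ := tower_of_limRep S b st lam h
  exact ⟨H, i1, i2, i3, T, hT⟩

end Pool.Agent.P.MP_5d580a_an.Ng
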