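import Pool.Agent.P.MP_5d580a_an.N.Tr4
import Pool.Agent.P.MP_5d580a_an.N.Ch
import Pool.Agent.P.MP_5d580a_an.N.T6

open scoped ComplexOrder InnerProductSpace ComplexConjugate
open Filter Topology

set_option linter.unusedSectionVars false
set_option linter.unusedVariables false
set_option linter.deprecated false

noncomputable section

namespace Pool.Agent.P.MP_5d580a_an.Ng

variable {D C : Type} [CStarAlgebra D] [CStarAlgebra C]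
variable {H : Type} [NormedAddCommGroup H] [InnerProductSpace ℂ H] [CompleteSpace H]
variable {L : Type} [NormedAddCommGroup L] [InnerProductSpace ℂ L] [CompleteSpace L]

/-- an irreducible representation of the large algebra as a linear map on all operators -/
theorem Tree.exists_isR {T : Tower (H →L[ℂ] H)} {Γ : Set (Germ T)} (τ : Tree Γ)
    [IsClosed (τ.lg : Set (H →L[ℂ] H))] (π : τ.lg →⋆ₐ[ℂ] (L →L[ℂ] L))
    (hs : ∀ x ∈ cmt π, ∃ t : ℂ, x = t • (1 : L →L[ℂ] L)) :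
    ∃ σ : (H →L[ℂ] H) →ₗ[ℂ] (L →L[ℂ] L), τ.IsR σ ∧ τ.IrrAt σ [] ∧ ∀ x : τ.lg, σ x = π x := by
  let p : Submodule ℂ (H →L[ℂ] H) := τ.lg.toSubalgebra.toSubmodule
  let f : p →ₗ[ℂ] (L →L[ℂ] L) :=
    { toFun := fun x => π ⟨x.1, x.2⟩
      map_add' := fun x y => map_add π ⟨x.1, x.2⟩ ⟨y.1, y.2⟩
      map_smul' := fun c x => map_smul π c ⟨x.1, x.2⟩ }
  obtain ⟨σ, hσ⟩ := LinearMap.exists_extend f
  have e : ∀ x : τ.lg, σ x = π x := fun x => congrArg (fun g : p →ₗ[ℂ] _ => g ⟨x.1, x.2⟩) hσ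
  have hR : τ.IsR σ := by
    refine ⟨HomOn.of_closed τ.lg_closed (fun x hx y hy => ?_) (fun x hx => ?_), ?_⟩
    · rw [e ⟨x, hx⟩, e ⟨y, hy⟩, ← map_mul]
      exact e (⟨x, hx⟩ * ⟨y, hy⟩)
    · rw [e ⟨x, hx⟩, ← map_star]
      exact e (star ⟨x, hx⟩)
    · rw [← map_one π]
      exact e 1
  refine ⟨σ, hR, fun W hW _ hi => ?_, e⟩
  rw [Tree.KK_root hR]
  obtain ⟨P, hP, rfl⟩ := exists_prj W hW
  have hinv := inv_closure τ.lg_closed (τ.GB_lg []) (τ.GB_star []) hR.hom hR.one hW hi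
  have hc : P ∈ cmt π := by
    rw [mem_cmt]
    intro x
    refine (commute_prj hP (fun η hη => ?_) (fun η hη => ?_)).eq
    · rw [← e]
      exact hinv _ x.2 η hη
    · rw [← map_star, ← e]
      exact hinv _ (star x).2 η hη
  obtain ⟨t, rfl⟩ := hs P hc
  by_cases h1 : t = 1
  · right
    rw [eq_top_iff]
    intro η _
    rw [mem_Fix1, h1, one_smul]
    rfl
  · left
    rw [eq_bot_iff]
    intro η hη
    have h2 : t • η = η := hη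
    have h3 : (t - 1) • η = 0 := by rw [sub_smul, h2, one_smul, sub_self]
    exact (smul_eq_zero.1 h3).resolve_left (sub_ne_zero.2 h1)

theorem adj_eq {V : H →L[ℂ] L} (nV : ‖V‖ ≤ 1) {ξ₁ : H} {ξ₂ : L} (hξ : V ξ₁ = ξ₂)
    (hn : ‖ξ₁‖ ^ 2 = ‖ξ₂‖ ^ 2) : ContinuousLinearMap.adjoint V ξ₂ = ξ₁ := by
  have b1 : ‖ContinuousLinearMap.adjoint V ξ₂‖ ≤ ‖ξ₂‖ := by
    refine ((ContinuousLinearMap.adjoint V).le_opNorm ξ₂).trans ?_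
    rw [LinearIsometryEquiv.norm_map]
    exact mul_le_of_le_one_left (norm_nonneg _) nV
  have b2 : (⟪ContinuousLinearMap.adjoint V ξ₂, ξ₁⟫_ℂ).re = ‖ξ₂‖ ^ 2 := by
    rw [ContinuousLinearMap.adjoint_inner_left, hξ, inner_self_eq_norm_sq_to_K]
    norm_cast
  generalize ContinuousLinearMap.adjoint V ξ₂ = ζ at b1 b2 ⊢
  have b3 := @norm_sub_sq ℂ _ _ _ _ ζ ξ₁
  rw [RCLike.re_to_complex, b2, hn] at b3
  have b4 : ‖ζ‖ ^ 2 ≤ ‖ξ₂‖ ^ 2 := pow_le_pow_left₀ (norm_nonneg _) b1 2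
  have b5 : ‖ζ - ξ₁‖ ^ 2 ≤ 0 := by linarith
  have b6 : ‖ζ - ξ₁‖ = 0 := pow_eq_zero_iff two_ne_zero |>.1 (le_antisymm b5 (sq_nonneg _))
  exact sub_eq_zero.1 (norm_eq_zero.1 b6)

/-- separation of pure states from rigidity of intertwiners -/
theorem sep_abs {B : Type} [CStarAlgebra B] (A : StarSubalgebra ℂ B) (hA : IsClosed (A : Set B))
    (hm : ∀ (L₁ : Type) [NormedAddCommGroup L₁] [InnerProductSpace ℂ L₁] [CompleteSpace L₁]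
      (L₂ : Type) [NormedAddCommGroup L₂] [InnerProductSpace ℂ L₂] [CompleteSpace L₂]
      (π₁ : B →⋆ₐ[ℂ] (L₁ →L[ℂ] L₁)) (π₂ : B →⋆ₐ[ℂ] (L₂ →L[ℂ] L₂)) (V : L₁ →L[ℂ] L₂),
      (∀ x ∈ cmt π₁, ∃ t : ℂ, x = t • (1 : L₁ →L[ℂ] L₁)) →
      (∀ x ∈ cmt π₂, ∃ t : ℂ, x = t • (1 : L₂ →L[ℂ] L₂)) →
      (∀ a ∈ A, ∀ η, V (π₁ a η) = π₂ a (V η)) → ∀ x η, V (π₁ x η) = π₂ x (V η))
    {φ ψ : B →L[ℂ] ℂ} (hφ : PM φ) (hψ : PM ψ) (he : ∀ a ∈ A, φ a = ψ a) : φ = ψ := by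
  obtain ⟨L₁, _, _, _, π₁, ξ₁, e₁, c₁⟩ := exists_gns hφ.1
  obtain ⟨L₂, _, _, _, π₂, ξ₂, e₂, c₂⟩ := exists_gns hψ.1
  have p₁ : PM (vf π₁ ξ₁) := by rw [e₁]; exact hφ
  have p₂ : PM (vf π₂ ξ₂) := by rw [e₂]; exact hψ
  have hv : vf (π₁.comp A.subtype) ξ₁ - vf (π₂.comp A.subtype) ξ₂ = 0 := by
    ext a
    have h1 : vf π₁ ξ₁ a = vf π₂ ξ₂ a := by
      rw [e₁, e₂]
      exact he _ a.2
    exact sub_eq_zero.2 h1
  have hp : IsPos (vf (π₁.comp A.subtype) ξ₁ - vf (π₂.comp A.subtype) ξ₂) := by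
    rw [hv]
    exact isPos_zero
  obtain ⟨V, nV, hV, hξ⟩ := exists_intw (π₁.comp A.subtype) ξ₁ (π₂.comp A.subtype) ξ₂ hp
  have h2 := hm L₁ L₂ π₁ π₂ V (pure_scalar p₁ c₁) (pure_scalar p₂ c₂) fun a ha η => hV ⟨a, ha⟩ η
  have hn : ‖ξ₁‖ ^ 2 = ‖ξ₂‖ ^ 2 := by
    rw [← vf_one π₁, ← vf_one π₂, e₁, e₂, he 1 (one_mem _)]
  have hadj : ContinuousLinearMap.adjoint V ξ₂ = ξ₁ := adj_eq nV hξ hn
  ext x
  have h1 := h2 x ξ₁
  rw [hξ] at h1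
  rw [← e₁, ← e₂, vf_apply, vf_apply, ← h1, ← ContinuousLinearMap.adjoint_inner_left V, hadj]

/-- the small algebra separates the pure states of the large algebra -/
theorem Tree.sep {T : Tower (H →L[ℂ] H)} {Γ : Set (Germ T)} (hΓ : MaxFam Γ) (τ : Tree Γ)
    [IsClosed (τ.lg : Set (H →L[ℂ] H))] {φ ψ : τ.lg →L[ℂ] ℂ} (hφ : PM φ) (hψ : PM ψ)
    (he : ∀ a ∈ τ.sm.comap τ.lg.subtype, φ a = ψ a) : φ = ψ := by
  refine sep_abs (τ.sm.comap τ.lg.subtype) (τ.sm_closed.preimage continuous_subtype_val)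
    ?_ hφ hψ he
  intro L₁ _ _ _ L₂ _ _ _ π₁ π₂ V q₁ q₂ hV x η
  obtain ⟨σ₁, r₁, i₁, s₁⟩ := τ.exists_isR π₁ q₁
  obtain ⟨σ₂, r₂, i₂, s₂⟩ := τ.exists_isR π₂ q₂
  have hm := Tree.main hΓ r₁ r₂ i₁ i₂ (V := V) fun a ha η => by
    have h1 := s₁ ⟨a, τ.sm_le_lg ha⟩
    have h2 := s₂ ⟨a, τ.sm_le_lg ha⟩
    rw [show σ₁ a = _ from h1, show σ₂ a = _ from h2]
    exact hV _ ha η
  rw [← s₁, ← s₂]
  exact hm x x.2 η

theorem counterexample :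
    ¬ (∀ (B : Type) [CStarAlgebra B] (A : StarSubalgebra ℂ B),
      IsClosed (A : Set B) →
      (∀ φ ψ : B →L[ℂ] ℂ,
        φ ∈ insert (0 : B →L[ℂ] ℂ)
          (Set.extremePoints ℝ
            {f : B →L[ℂ] ℂ | (∀ x : B, 0 ≤ f (star x * x)) ∧ ‖f‖ = 1}) →
        ψ ∈ insert (0 : B →L[ℂ] ℂ)
          (Set.extremePoints ℝ
            {f : B →L[ℂ] ℂ | (∀ x : B, 0 ≤ f (star x * x)) ∧ ‖f‖ = 1}) →
        φ ≠ ψ → ∃ a ∈ A, φ a ≠ ψ a) →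
      A = ⊤) := by
  intro hall
  obtain ⟨H, _, _, _, T, hw⟩ := exists_tower
  obtain ⟨Γ, hΓ⟩ := exists_maxFam T
  obtain ⟨τ⟩ := exists_tree hw Γ
  have := τ.lg_closed
  obtain ⟨l1, l2⟩ := τ.not_mem_sm hw
  have key := hall τ.lg (τ.sm.comap τ.lg.subtype)
    (τ.sm_closed.preimage continuous_subtype_val) ?_
  · have : (⟨T.ℓ, l1⟩ : τ.lg) ∈ τ.sm.comap τ.lg.subtype := by
      rw [key]
      trivial
    exact l2 this
  have hpm : ∀ φ : τ.lg →L[ℂ] ℂ, φ ∈ insert (0 : τ.lg →L[ℂ] ℂ) (Set.extremePoints ℝ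
      {f : τ.lg →L[ℂ] ℂ | (∀ x : τ.lg, 0 ≤ f (star x * x)) ∧ ‖f‖ = 1}) → PM φ := by
    rintro φ (rfl | h)
    · exact pm_zero
    · exact (pm_iff_extreme h.1.2).1 h
  intro φ ψ hφ hψ hne
  by_contra hcon
  push Not at hcon
  exact hne (τ.sep hΓ (hpm φ hφ) (hpm ψ hψ) hcon)

end Pool.Agent.P.MP_5d580a_an.Ng
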