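import Pool.Agent.P.MP_5d580a_an.N.Res2
import Pool.Agent.P.MP_5d580a_an.N.Bk
import Pool.Agent.P.MP_5d580a_an.N.Ov

open scoped ComplexOrder InnerProductSpace ComplexConjugate
open Filter Topology

set_option linter.unusedSectionVars false
set_option linter.unusedVariables false
set_option linter.deprecated false

noncomputable section

namespace Pool.Agent.P.MP_5d580a_an.Ng

variable {D C : Type} [CStarAlgebra D] [CStarAlgebra C]
variable {H : Type} [NormedAddCommGroup H] [InnerProductSpace ℂ H] [CompleteSpace H]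
variable {L : Type} [NormedAddCommGroup L] [InnerProductSpace ℂ L] [CompleteSpace L]

variable {T : Tower D}

namespace GermAux

variable (p : Pre T)

theorem up {i : ℕ} {a : D} (ha : a ∈ T.A (p.b.N i)) : a ∈ T.A (p.b.N (i + 1)) :=
  T.A_mono (p.b.mono.monotone (Nat.le_succ i)) ha

theorem w_mem (i : ℕ) : p.w ∈ T.A (p.b.N i) :=
  T.A_mono (p.b.mono.monotone (Nat.zero_le i)) p.w_mem

theorem U_mem : ∀ i, p.U i ∈ T.A (p.b.N i)
  | 0 => p.U_mem
  | i + 1 => by rw [p.U_succ]; exact mul_mem (up p (U_mem i)) (p.b.u_mem i)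

theorem u_U (i : ℕ) : Commute (p.b.u i) (p.U i) := p.b.u_comm i _ (U_mem p i)

theorem U_sa : ∀ i, IsSelfAdjoint (p.U i)
  | 0 => p.U_sa
  | i + 1 => by
    rw [p.U_succ]
    exact (IsSelfAdjoint.commute_iff (U_sa i) (p.b.u_sa i)).1 (u_U p i).symm

theorem U_norm : ∀ i, ‖p.U i‖ ≤ 1
  | 0 => p.U_norm
  | i + 1 => by
    rw [p.U_succ]
    exact (norm_mul_le _ _).trans (mul_le_one₀ (U_norm i) (norm_nonneg _) (p.b.u_norm i))

theorem gg (i : ℕ) : p.g i * p.g i = p.g i := (p.g_proj i).isIdempotentElem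

theorem ee (i : ℕ) : p.b.e i * p.b.e i = p.b.e i := (p.b.e_proj i).isIdempotentElem

theorem e_g (i : ℕ) : Commute (p.b.e i) (p.g i) := p.b.e_comm i (p.g_mem i)

theorem g_succ (i : ℕ) : p.g i * p.g (i + 1) = p.g (i + 1) := by
  conv_lhs => rw [← p.g_succ i]
  rw [← mul_assoc, ← mul_assoc, gg, p.g_succ]

theorem e_succ (i : ℕ) : p.b.e i * p.g (i + 1) = p.g (i + 1) := by
  conv_lhs => rw [← p.g_succ i]
  rw [← mul_assoc, ← mul_assoc, (e_g p i).eq, mul_assoc (p.g i), ee, p.g_succ]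

theorem g_zero : ∀ i, p.g 0 * p.g i = p.g i
  | 0 => gg p 0
  | i + 1 => by rw [← g_succ p i, ← mul_assoc, g_zero i]

theorem UU (i : ℕ) : p.U (i + 1) * p.U (i + 1) = p.U i * p.U i * p.b.e i := by
  rw [p.U_succ, mul_assoc, ← mul_assoc (p.b.u i), (u_U p i).eq, mul_assoc (p.U i),
    p.b.u_sq', mul_assoc]

theorem U_sq : ∀ i, p.U i * p.U i * p.g i = p.g i
  | 0 => p.U_sq
  | i + 1 => by
    rw [UU, mul_assoc _ (p.b.e i), e_succ, ← g_succ p i, ← mul_assoc, U_sq i]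

theorem w_sq (i : ℕ) : p.w * p.w * p.g i = p.g i := by
  rw [← g_zero p i, ← mul_assoc, p.w_sq]

theorem Uw (i : ℕ) : p.U (i + 1) * p.w + p.w * p.U (i + 1) =
    p.b.u i * (p.U i * p.w + p.w * p.U i) := by
  have h := (p.b.u_comm i _ (w_mem p i)).eq
  rw [p.U_succ, ← (u_U p i).eq, mul_add, mul_assoc, ← mul_assoc p.w, ← h, mul_assoc]

theorem anti (h : (p.U 0 * p.w + p.w * p.U 0) * p.g 0 = 0) :
    ∀ i, (p.U i * p.w + p.w * p.U i) * p.g i = 0
  | 0 => h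
  | i + 1 => by
    rw [Uw, ← g_succ p i, mul_assoc, ← mul_assoc _ (p.g i), anti h i, zero_mul, mul_zero]

theorem exists_W : ∃ W ∈ T.A 0, ∀ (i : ℕ) (ρ : D), p.g i * ρ = ρ → (W = 1 ∧ p.w = 1) ∨
    (W = T.X1 ∧ p.w * p.w * ρ = ρ ∧ (p.U i * p.w + p.w * p.U i) * ρ = 0) := by
  rcases p.alt with h | h
  · exact ⟨1, one_mem _, fun _ _ _ => Or.inl ⟨rfl, h⟩⟩
  · refine ⟨T.X1, T.X1_mem, fun i ρ hρ => Or.inr ⟨rfl, ?_, ?_⟩⟩
    · rw [← hρ, ← mul_assoc, w_sq]
    · rw [← hρ, ← mul_assoc, anti p h, zero_mul]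

theorem g_m : ∀ i k, p.b.N 0 ≤ k → k < p.b.N i → T.m k (p.b.ω (k + 1)) * p.g i = p.g i
  | 0, k, h1, h2 => absurd h2 (not_lt.2 h1)
  | i + 1, k, h1, h2 => by
    rcases lt_or_ge k (p.b.N i) with h | h
    · rw [← g_succ p i, ← mul_assoc, g_m i k h1 h]
    · rw [← e_succ p i, ← mul_assoc, p.b.m_e h h2]

/-- the value carried by `g i` -/
def r (i : ℕ) : D := p.U i * p.b.sy i * p.g i

/-- the value carried by the annulus -/
def r' (i : ℕ) : D := r p i - r p i * p.b.e i +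
  p.U (i + 1) * p.b.sy (i + 1) * (p.g i * p.b.e i - p.g (i + 1))

theorem sy_cent (i : ℕ) {x : D} (hx : x ∈ T.A (p.b.N i)) : Commute (p.b.sy i) x :=
  T.s_cent _ _ (T.A_le_B _ hx)

theorem est (i : ℕ) : ‖r' p i - (r p i - r p (i + 1))‖ ≤ (1 / 2 : ℝ) ^ i := by
  have h1 := (sy_cent p (i + 1) (mul_mem (up p (p.g_mem i)) (p.b.e_mem i))).eq
  have h2 := (sy_cent p i (p.g_mem i)).eq
  have h3 := (p.b.u_comm i _ (p.g_mem i)).eq
  have e1 : p.U (i + 1) * p.b.sy (i + 1) * (p.g i * p.b.e i) =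
      p.U i * p.g i * (p.b.u i * p.b.sy (i + 1)) := by
    rw [mul_assoc, h1, p.U_succ, mul_assoc, mul_assoc (p.U i), ← mul_assoc (p.b.u i),
      ← mul_assoc (p.b.u i), h3, mul_assoc (p.g i), p.b.u_e', mul_assoc]
  have e2 : r p i * p.b.e i = p.U i * p.g i * (p.b.sy i * p.b.e i) := by
    rw [r, mul_assoc (p.U i), h2, ← mul_assoc, mul_assoc]
  have e3 : r' p i - (r p i - r p (i + 1)) =
      -(p.U i * p.g i * (p.b.sy i * p.b.e i - p.b.u i * p.b.sy (i + 1))) := by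
    rw [r', mul_sub, e1, e2, mul_sub, r, r]
    abel
  rw [e3, norm_neg]
  refine (norm_mul_le _ _).trans ?_
  refine (mul_le_of_le_one_left (norm_nonneg _) ?_).trans (p.b.est' i)
  exact (norm_mul_le _ _).trans
    (mul_le_one₀ (U_norm p i) (norm_nonneg _) (p.g_proj i).norm_le)

variable {p} {W : D} (hW : ∀ (i : ℕ) (ρ : D), p.g i * ρ = ρ → (W = 1 ∧ p.w = 1) ∨
    (W = T.X1 ∧ p.w * p.w * ρ = ρ ∧ (p.U i * p.w + p.w * p.U i) * ρ = 0))

include hW

theorem pk0 (i : ℕ) : ∃ k : Pk D, IsPk T i (T.A (p.b.N i + 1)) (T.B (p.b.N i + 1)) k (p.g i)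
    (r p i) p.w W := by
  obtain ⟨k, hk⟩ := res_label T (p.b.N i) (p.b.ω (p.b.N i)) (a := 0) (d := 1) (W := W)
    (p.g_mem i) (zero_mem _) (one_mem _) (U_mem p i) (w_mem p i) (p.g_proj i) (.zero _) (.one _)
    (U_sa p i) p.w_sa (.zero_right _) (.one_right _) (p.g_U i) (p.w_g i).symm (.zero_right _)
    (.one_right _) (.zero_right _) (.one_right _) (by simp) (by simp) (U_sq p i)
    (hW i _ (gg p i))
  rw [zero_add, one_mul] at hk
  exact ⟨k, hk.depth (p.b.le_N i)⟩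

theorem piece (i : ℕ) {v : ℕ} (hv : v ∈ desc (p.b.ω (p.b.N i)) (p.b.J i)) {c : D}
    (hc : c ∈ T.A (p.b.N i + p.b.J i)) (pc : IsStarProjection c)
    (cA : ∀ a ∈ T.A (p.b.N i), Commute c a) (cE : Commute c (T.E (p.b.N i) (p.b.J i) v))
    (cAa : Commute c (T.Aa (p.b.N i) (p.b.J i) v)) (cD : Commute c (T.Dd (p.b.N i) (p.b.J i) v)) :
    ∃ k : Pk D, IsPk T (p.b.N i + p.b.J i) (T.A (p.b.N i + p.b.J i + 1))
      (T.B (p.b.N i + p.b.J i + 1)) k (p.g i * (T.E (p.b.N i) (p.b.J i) v * c))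
      (r p i * (T.E (p.b.N i) (p.b.J i) v * c)) p.w W := by
  have up' : ∀ {a : D}, a ∈ T.A (p.b.N i) → a ∈ T.A (p.b.N i + p.b.J i) := fun ha =>
    T.A_mono (Nat.le_add_right _ _) ha
  have hq : ∀ a ∈ T.A (p.b.N i), Commute (T.E (p.b.N i) (p.b.J i) v * c) a := fun a ha =>
    (T.E_comm _ _ v ha).mul_left (cA a ha)
  have gA := (T.Aa_comm _ (p.b.J i) v (p.g_mem i)).symm
  have gD := (T.Dd_comm _ (p.b.J i) v (p.g_mem i)).symm
  have hg : p.g i * (p.g i * (T.E (p.b.N i) (p.b.J i) v * c)) =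
      p.g i * (T.E (p.b.N i) (p.b.J i) v * c) := by rw [← mul_assoc, gg]
  obtain ⟨k, hk⟩ := res_label T (p.b.N i + p.b.J i) v (W := W)
    (mul_mem (up' (p.g_mem i)) (mul_mem (T.E_mem _ _ v) hc)) (T.Aa_mem _ _ v) (T.Dd_mem _ _ v)
    (up' (U_mem p i)) (up' (w_mem p i))
    ((p.g_proj i).mul ((T.E_proj _ _ v).mul pc cE.symm) (hq _ (p.g_mem i)).symm)
    (T.Aa_sa _ _ v) (T.Dd_sa _ _ v) (U_sa p i) p.w_sa
    (gA.mul_left ((T.E_Aa _ _ v _ _ v).mul_left cAa))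
    (gD.mul_left ((T.E_Dd _ _ v _ _ v).mul_left cD))
    ((p.g_U i).mul_left (hq _ (U_mem p i))) ((p.w_g i).symm.mul_left (hq _ (w_mem p i)))
    (T.Aa_comm _ _ v (U_mem p i)).symm (T.Dd_comm _ _ v (U_mem p i)).symm
    (T.Aa_comm _ _ v (w_mem p i)).symm (T.Dd_comm _ _ v (w_mem p i)).symm
    (by rw [T.Aa_sq, one_mul]) (by rw [T.Aa_anti, zero_mul])
    (by rw [← mul_assoc, U_sq]) (hW i _ hg)
  refine ⟨k, ?_⟩
  have h1 : Commute (p.g i) (T.Aa (p.b.N i) (p.b.J i) v +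
      T.Dd (p.b.N i) (p.b.J i) v * T.s (p.b.N i + p.b.J i) v) :=
    gA.add_right (gD.mul_right (T.s_cent _ v (T.A_le_B _ (up' (p.g_mem i)))).symm)
  have h2 := (sy_cent p i (p.g_mem i)).eq
  have e : p.U i * (T.Aa (p.b.N i) (p.b.J i) v +
      T.Dd (p.b.N i) (p.b.J i) v * T.s (p.b.N i + p.b.J i) v) *
      (p.g i * (T.E (p.b.N i) (p.b.J i) v * c)) = r p i * (T.E (p.b.N i) (p.b.J i) v * c) := by
    rw [mul_assoc, ← mul_assoc _ (p.g i), ← h1.eq, mul_assoc (p.g i), ← mul_assoc _ _ c,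
      ← T.s_E _ _ _ hv, r, mul_assoc (p.U i) (p.b.sy i), h2]
    simp only [mul_assoc, Blk.sy]
  rwa [e] at hk

theorem off (i : ℕ) : ∃ k : Pk D, IsPk T (p.b.N (i + 1)) (T.A (p.b.N (i + 1) + 1))
    (T.B (p.b.N (i + 1) + 1)) k (p.g i - p.g i * p.b.e i) (r p i - r p i * p.b.e i) p.w W := by
  classical
  set v₀ := p.b.ω (p.b.N (i + 1)) with hv₀
  have h0 : v₀ ∈ desc (p.b.ω (p.b.N i)) (p.b.J i) := by
    rw [hv₀, p.b.succ]; exact p.b.path.mem_desc _ _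
  let c : ℕ → D := fun v => 1 - if v = v₀ then p.b.χ i else 0
  have hc : ∀ v x, (v = v₀ → Commute (p.b.χ i) x) → Commute (c v) x := fun v x h => by
    refine (Commute.one_left x).sub_left ?_
    split_ifs with hv
    · exact h hv
    · exact Commute.zero_left x
  have hsum : ∑ v ∈ desc (p.b.ω (p.b.N i)) (p.b.J i), T.E (p.b.N i) (p.b.J i) v * c v =
      1 - p.b.e i := by
    simp only [c, mul_sub, mul_one, mul_ite, mul_zero, Finset.sum_sub_distrib, T.sum_E,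
      Finset.sum_ite_eq', if_pos h0]
    rfl
  have key := pk_sum (T := T) (j := p.b.N i + p.b.J i) (w := p.w) (W := W)
    (desc (p.b.ω (p.b.N i)) (p.b.J i))
    (ρ := fun v => p.g i * (T.E (p.b.N i) (p.b.J i) v * c v))
    (r := fun v => r p i * (T.E (p.b.N i) (p.b.J i) v * c v))
    (fun v hv => piece hW i hv
      (sub_mem (one_mem _) (by
        split_ifs
        · rw [← p.b.succ]; exact p.b.χ_mem i
        · exact zero_mem _))
      (IsStarProjection.one_sub (by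
        split_ifs
        · exact p.b.χ_proj i
        · exact .zero _))
      (fun a ha => hc v a fun _ => p.b.χ_comm i a ha) (hc v _ fun h => h ▸ p.b.χ_E i)
      (hc v _ fun h => h ▸ p.b.χ_A i) (hc v _ fun h => h ▸ p.b.χ_D i))
    (fun v hv v' hv' hne => by
      have h1 : Commute (c v) (T.E (p.b.N i) (p.b.J i) v) := hc v _ fun h => h ▸ p.b.χ_E i
      have h2 := (T.E_comm _ (p.b.J i) v (p.g_mem i)).eq
      rw [← h1.eq, mul_assoc, mul_assoc, ← mul_assoc (T.E _ _ v), h2, mul_assoc (p.g i),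
        ← mul_assoc (T.E _ _ v), T.E_orth _ _ _ hv hv' hne]
      simp only [zero_mul, mul_zero])
  rw [← Finset.mul_sum, ← Finset.mul_sum, hsum, mul_sub, mul_sub, mul_one, mul_one,
    ← p.b.succ] at key
  exact key

theorem pk1 (i : ℕ) : ∃ k : Pk D, IsPk T i (T.A (p.b.N (i + 1) + 1)) (T.B (p.b.N (i + 1) + 1)) k
    (p.g i - p.g (i + 1)) (r' p i) p.w W := by
  set ρ := p.g i * p.b.e i - p.g (i + 1) with hρ
  have hg : p.g i * ρ = ρ := by rw [hρ, mul_sub, ← mul_assoc, gg, g_succ]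
  have he : p.b.e i * ρ = ρ := by
    rw [hρ, mul_sub, e_succ, ← mul_assoc, (e_g p i).eq, mul_assoc, ee]
  have eu : Commute (p.b.e i) (p.b.u i) := (p.b.e_u i).trans (p.b.u_e' i).symm
  have ρU : Commute ρ (p.U (i + 1)) := by
    refine Commute.sub_left ?_ (p.g_U _)
    rw [p.U_succ]
    exact ((p.g_U i).mul_right (p.b.u_comm i _ (p.g_mem i)).symm).mul_left
      ((p.b.e_comm i (U_mem p i)).mul_right eu)
  have h1 := res_label T (p.b.N (i + 1)) (p.b.ω (p.b.N (i + 1))) (ρ := ρ) (a := 0) (d := 1)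
    (W := W) (sub_mem (mul_mem (up p (p.g_mem i)) (p.b.e_mem i)) (p.g_mem _)) (zero_mem _)
    (one_mem _) (U_mem p _) (w_mem p _)
    ((p.g_proj _).sub_of_mul_eq_right ((p.g_proj i).mul (p.b.e_proj i) (e_g p i).symm)
      (p.g_succ i)) (.zero _) (.one _) (U_sa p _) p.w_sa (.zero_right _) (.one_right _) ρU
    (((p.w_g i).symm.mul_left (p.b.e_comm i (w_mem p i))).sub_left (p.w_g _).symm)
    (.zero_right _) (.one_right _) (.zero_right _) (.one_right _) (by simp) (by simp)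
    (by rw [UU, mul_assoc _ (p.b.e i), he, ← hg, ← mul_assoc, U_sq])
    ((hW i ρ hg).imp_right fun h => ⟨h.1, h.2.1, by rw [Uw, mul_assoc, h.2.2, mul_zero]⟩)
  rw [zero_add, one_mul] at h1
  obtain ⟨k, hk⟩ := pk_add (off hW i) h1 (by
    rw [← he, ← mul_assoc, sub_mul, mul_assoc (p.g i), ee, sub_self, zero_mul])
  rw [hρ, sub_add_sub_cancel] at hk
  exact ⟨k, hk.depth ((Nat.le_succ i).trans (p.b.le_N _))⟩

end GermAux

open GermAux in
theorem Pre.germ (p : Pre T) : ∃ γ : Germ T, γ.g = p.g := by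
  obtain ⟨W, hW0, hW⟩ := exists_W p
  choose k0 h0 using pk0 hW
  choose k1 h1 using pk1 hW
  refine ⟨⟨p.b.ω, p.b.N, p.g, p.U, r p, r' p, p.w, W, k0, k1, p.b.path, p.b.mono, p.g_mem,
    p.g_proj, GermAux.g_succ p, g_m p, GermAux.U_mem p, GermAux.U_norm p, fun i => ?_,
    fun i => ?_, fun i => ?_, fun i => ?_, p.w_mem, hW0, h0, h1, est p, p.exc⟩, rfl⟩
  · exact mul_mem (mul_mem (T.A_le_B _ (GermAux.U_mem p i)) (p.b.sy_mem i))
      (T.A_le_B _ (p.g_mem i))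
  · refine (norm_mul_le _ _).trans (mul_le_one₀ ?_ (norm_nonneg _) (p.g_proj i).norm_le)
    exact (norm_mul_le _ _).trans
      (mul_le_one₀ (GermAux.U_norm p i) (norm_nonneg _) (T.s_norm _ _))
  · rw [r, mul_assoc, gg]
  · have h := (sy_cent p i (mul_mem (GermAux.U_mem p i) (GermAux.U_mem p i))).eq
    rw [r, ← mul_assoc, ← mul_assoc, ← h, mul_assoc (p.b.sy i), GermAux.U_sq]
    rfl

end Pool.Agent.P.MP_5d580a_an.Ng
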