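import Pool.Agent.P.MP_5d580a_an.N.Defs

open scoped ComplexOrder InnerProductSpace ComplexConjugate
open Filter Topology

set_option linter.unusedSectionVars false
set_option linter.unusedVariables false
set_option linter.deprecated false

noncomputable section

namespace Pool.Agent.P.MP_5d580a_an.Ng

variable {D C : Type} [CStarAlgebra D] [CStarAlgebra C]
variable {H : Type} [NormedAddCommGroup H] [InnerProductSpace ℂ H] [CompleteSpace H]
variable {L : Type} [NormedAddCommGroup L] [InnerProductSpace ℂ L] [CompleteSpace L]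

theorem isClosed_Fix1 (P : H →L[ℂ] H) : IsClosed (Fix1 P : Set H) := by
  exact isClosed_eq P.continuous continuous_id

theorem isClosed_Fix (q : ℕ → (H →L[ℂ] H)) : IsClosed (Fix q : Set H) := by
  rw [Fix, Submodule.coe_iInf]
  exact isClosed_iInter fun i => isClosed_Fix1 (q i)

theorem exists_prj (K : Submodule ℂ H) (hK : IsClosed (K : Set H)) :
    ∃ P : H →L[ℂ] H, IsStarProjection P ∧ Fix1 P = K := by
  have : CompleteSpace K := hK.completeSpace_coe
  refine ⟨K.starProjection, isStarProjection_starProjection, ?_⟩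
  ext η
  rw [mem_Fix1, Submodule.starProjection_eq_self_iff]

theorem prj_mem {P : H →L[ℂ] H} (hP : IsStarProjection P) (η : H) : P η ∈ Fix1 P := by
  rw [mem_Fix1, ← mul_apply_eq_comp, hP.isIdempotentElem.eq]

theorem prj_orth {P : H →L[ℂ] H} (hP : IsStarProjection P) {η : H}
    (h : ∀ ζ ∈ Fix1 P, ⟪ζ, η⟫_ℂ = 0) : P η = 0 := by
  have h1 := h _ (prj_mem hP η)
  have h2 : ⟪P η, P η⟫_ℂ = ⟪P (P η), η⟫_ℂ := by
    rw [← inner_star_right P (P η) η, hP.isSelfAdjoint.star_eq]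
  rw [mem_Fix1.1 (prj_mem hP η), h1] at h2
  exact inner_self_eq_zero.1 h2

theorem commute_prj {P x : H →L[ℂ] H} (hP : IsStarProjection P)
    (h1 : ∀ η ∈ Fix1 P, x η ∈ Fix1 P) (h2 : ∀ η ∈ Fix1 P, (star x) η ∈ Fix1 P) :
    Commute x P := by
  have e1 : P * x * P = x * P := by
    ext η
    exact h1 _ (prj_mem hP η)
  have e2 : P * star x * P = star x * P := by
    ext η
    exact h2 _ (prj_mem hP η)
  have e3 := congrArg star e2
  simp only [star_mul, star_star, hP.isSelfAdjoint.star_eq] at e3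
  show x * P = P * x
  exact e1.symm.trans ((mul_assoc _ _ _).trans e3)

theorem intw_prj {P : H →L[ℂ] H} {P' : L →L[ℂ] L} (hP : IsStarProjection P)
    (hP' : IsStarProjection P') {V : H →L[ℂ] L} (h1 : ∀ η ∈ Fix1 P, V η ∈ Fix1 P')
    (h2 : ∀ η ∈ Fix1 P', ContinuousLinearMap.adjoint V η ∈ Fix1 P) (η : H) :
    V (P η) = P' (V η) := by
  have e1 : P' (V (P η)) = V (P η) := h1 _ (prj_mem hP η)
  have e2 : P' (V (η - P η)) = 0 := by
    refine prj_orth hP' fun ζ hζ => ?_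
    have h3 : P (ContinuousLinearMap.adjoint V ζ) = ContinuousLinearMap.adjoint V ζ := h2 ζ hζ
    rw [← ContinuousLinearMap.adjoint_inner_left, ← h3, ← inner_star_right,
      hP.isSelfAdjoint.star_eq, map_sub, mem_Fix1.1 (prj_mem hP η), sub_self, inner_zero_right]
  rw [map_sub, map_sub, e1, sub_eq_zero] at e2
  exact e2.symm

/-- an intertwiner of adjoints gives an intertwiner in the other direction -/
theorem intw_adj {V : H →L[ℂ] L} {x : H →L[ℂ] H} {y : L →L[ℂ] L}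
    (h : ∀ η, V ((star x) η) = (star y) (V η)) (η : L) :
    ContinuousLinearMap.adjoint V (y η) = x (ContinuousLinearMap.adjoint V η) := by
  refine ext_inner_left ℂ fun ξ => ?_
  rw [ContinuousLinearMap.adjoint_inner_right, ← inner_star_left x,
    ContinuousLinearMap.adjoint_inner_right, h, inner_star_left]

theorem dec_mul {q : ℕ → D} (hq : ∀ i, IsStarProjection (q i))
    (hs : ∀ i, q i * q (i + 1) = q (i + 1)) {i j : ℕ} (hij : i ≤ j) :
    q i * q j = q j ∧ q j * q i = q j := by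
  have h1 : q i * q j = q j := by
    induction j, hij using Nat.le_induction with
    | base => exact (hq i).isIdempotentElem.eq
    | succ j hij ih => rw [← hs j, ← mul_assoc, ih]
  refine ⟨h1, ?_⟩
  have := congrArg star h1
  rwa [star_mul, (hq i).isSelfAdjoint.star_eq, (hq j).isSelfAdjoint.star_eq] at this

theorem dec_lim {q : ℕ → (H →L[ℂ] H)} (hq : ∀ i, IsStarProjection (q i))
    (hs : ∀ i, q i * q (i + 1) = q (i + 1)) {P : H →L[ℂ] H} (hP : IsStarProjection P)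
    (hF : Fix1 P = Fix q) (η : H) : Tendsto (fun i => q i η) atTop (𝓝 (P η)) := by
  obtain ⟨p, -, -, h2, h3⟩ := lim_proj_lim (fun n => 1 - q n) (fun n => (hq n).one_sub)
    (fun n m hnm => by
      rw [sub_mul, one_mul, mul_sub, mul_one, (dec_mul hq hs hnm).2, sub_self, sub_zero])
  have h4 : η - p η ∈ Fix q := by
    rw [mem_Fix]
    intro i
    have h5 : (1 - q i) (p η) = (1 - q i) η := by rw [← mul_apply_eq_comp, h2 i]
    simp only [sub_apply, one_apply_eq_self] at h5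
    rw [map_sub]
    linear_combination (norm := module) h5
  have h6 : P (p η) = 0 := by
    refine prj_orth hP fun ζ hζ => ?_
    rw [hF, mem_Fix] at hζ
    have h7 : Tendsto (fun n => ⟪ζ, (1 - q n) η⟫_ℂ) atTop (𝓝 ⟪ζ, p η⟫_ℂ) :=
      tendsto_const_nhds.inner (h3 η)
    have h8 : ∀ n, ⟪ζ, (1 - q n) η⟫_ℂ = 0 := by
      intro n
      rw [← inner_star_left, (hq n).one_sub.isSelfAdjoint.star_eq]
      simp [hζ n]
    simp only [h8] at h7
    exact tendsto_nhds_unique h7 tendsto_const_nhds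
  have h9 : P η = η - p η := by
    rw [← hF, mem_Fix1, map_sub, h6, sub_zero] at h4
    exact h4
  rw [h9]
  have h10 := (tendsto_const_nhds (x := η)).sub (h3 η)
  simpa using h10

theorem prod_fix {q : ℕ → (H →L[ℂ] H)} (hq : ∀ i, IsStarProjection (q i))
    (hc : ∀ i j, Commute (q i) (q j)) {ζ₀ : H} (h0 : ζ₀ ≠ 0)
    (hs : ∀ i, ‖ζ₀ - q i ζ₀‖ ≤ (1 / 2 : ℝ) ^ i * (‖ζ₀‖ / 4)) :
    ∃ ζ : H, ζ ≠ 0 ∧ ∀ i, q i ζ = ζ := by
  let p : ℕ → (H →L[ℂ] H) := fun k => Nat.rec 1 (fun k x => x * q k) k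
  have p0 : p 0 = 1 := rfl
  have ps : ∀ k, p (k + 1) = p k * q k := fun k => rfl
  have pc : ∀ k j, Commute (p k) (q j) := by
    intro k j
    induction k with
    | zero => rw [p0]; exact Commute.one_left _
    | succ k ih => rw [ps]; exact ih.mul_left (hc k j)
  have pp : ∀ k, IsStarProjection (p k) := by
    intro k
    induction k with
    | zero => rw [p0]; exact IsStarProjection.one _
    | succ k ih => rw [ps]; exact ih.mul (hq k) (pc k k)
  have pd : ∀ k, p k * p (k + 1) = p (k + 1) := by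
    intro k
    rw [ps, ← mul_assoc, (pp k).isIdempotentElem.eq]
  have pe : ∀ k, ‖ζ₀ - p k ζ₀‖ ≤ (1 - (1 / 2 : ℝ) ^ k) * (‖ζ₀‖ / 2) := by
    intro k
    induction k with
    | zero => simp [p0]
    | succ k ih =>
      have e : ζ₀ - p (k + 1) ζ₀ = (ζ₀ - p k ζ₀) + p k (ζ₀ - q k ζ₀) := by
        rw [ps, mul_apply_eq_comp, map_sub]; abel
      rw [e]
      refine (norm_add_le _ _).trans ?_
      have h1 := (proj_norm_le (pp k) (ζ₀ - q k ζ₀)).trans (hs k)
      rw [pow_succ]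
      nlinarith
  obtain ⟨P, hP, hF⟩ := exists_prj (Fix p) (isClosed_Fix p)
  have hl := dec_lim pp pd hP hF ζ₀
  have hb : ‖ζ₀ - P ζ₀‖ ≤ ‖ζ₀‖ / 2 := by
    refine le_of_tendsto' (tendsto_const_nhds.sub hl).norm fun k => (pe k).trans ?_
    have h1 : (0 : ℝ) ≤ (1 / 2 : ℝ) ^ k := by positivity
    have h2 := norm_nonneg ζ₀
    nlinarith
  refine ⟨P ζ₀, fun h => ?_, fun i => ?_⟩
  · rw [h, sub_zero] at hb
    have := norm_pos_iff.2 h0
    linarith
  · have h1 : P ζ₀ ∈ Fix p := hF ▸ prj_mem hP ζ₀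
    have h2 := mem_Fix.1 h1 (i + 1)
    have h3 : q i * p (i + 1) = p (i + 1) := by
      rw [ps, ← mul_assoc, ← (pc i i).eq, mul_assoc, (hq i).isIdempotentElem.eq]
    rw [← h2, ← mul_apply_eq_comp, h3]

theorem Irr.of_agree {𝒮 𝒮' : Set (H →L[ℂ] H)} {K : Submodule ℂ H}
    (h : ∀ x ∈ 𝒮, ∃ x' ∈ 𝒮', ∀ η ∈ K, x η = x' η) (hi : Irr 𝒮 K) : Irr 𝒮' K := by
  intro W hW hK hI
  refine hi W hW hK fun x hx η hη => ?_
  obtain ⟨x', hx', he⟩ := h x hx
  rw [he η (hK hη)]
  exact hI x' hx' η hη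

theorem isClosed_orb (𝒮 : Set (H →L[ℂ] H)) (W : Submodule ℂ H) :
    IsClosed (orb 𝒮 W : Set H) := by
  exact Submodule.isClosed_topologicalClosure _

theorem mem_orb {𝒮 : Set (H →L[ℂ] H)} {W : Submodule ℂ H} {x : H →L[ℂ] H} (hx : x ∈ 𝒮)
    {η : H} (hη : η ∈ W) : x η ∈ orb 𝒮 W := by
  exact Submodule.le_topologicalClosure _ (Submodule.subset_span ⟨x, hx, η, hη, rfl⟩)

theorem orb_le {𝒮 : Set (H →L[ℂ] H)} {W W' : Submodule ℂ H} (hW' : IsClosed (W' : Set H))
    (h : ∀ x ∈ 𝒮, ∀ η ∈ W, x η ∈ W') : orb 𝒮 W ≤ W' := by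
  refine Submodule.topologicalClosure_minimal _ (Submodule.span_le.2 ?_) hW'
  rintro _ ⟨x, hx, η, hη, rfl⟩
  exact h x hx η hη

theorem orb_map {𝒮 : Set (H →L[ℂ] H)} {W : Submodule ℂ H} {W' : Submodule ℂ L}
    (hW' : IsClosed (W' : Set L)) (y : H →L[ℂ] L) (h : ∀ x ∈ 𝒮, ∀ η ∈ W, y (x η) ∈ W') :
    ∀ ζ ∈ orb 𝒮 W, y ζ ∈ W' := by
  intro ζ hζ
  exact orb_le (W' := W'.comap (y : H →ₗ[ℂ] L)) (hW'.preimage y.continuous) h hζ

end Pool.Agent.P.MP_5d580a_an.Ng
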