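import Pool.Agent.P.MP_5d580a_an.N.Hom

open scoped ComplexOrder InnerProductSpace ComplexConjugate
open Filter Topology

set_option linter.unusedSectionVars false
set_option linter.unusedVariables false
set_option linter.deprecated false

noncomputable section

namespace Pool.Agent.P.MP_5d580a_an.Ng

variable {D C : Type} [CStarAlgebra D] [CStarAlgebra C]
variable {H : Type} [NormedAddCommGroup H] [InnerProductSpace ℂ H] [CompleteSpace H]
variable {L : Type} [NormedAddCommGroup L] [InnerProductSpace ℂ L] [CompleteSpace L]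

namespace SwAux

/-- ring identities for the exchange element -/
theorem ring_id {R : Type} [Ring R] {r z x u v : R} (rr : r * r = r)
    (rz : r * z = z) (zr : z * r = z) (rx : r * x = x) (xr : x * r = x)
    (ru : r * u = u) (ur : u * r = u) (rv : r * v = v) (vr : v * r = v)
    (zz : z * z = r) (xx : x * x = r) (uu : u * u = r) (vv : v * v = r)
    (xz : x * z = -(z * x)) (vu : v * u = -(u * v))
    (uz : u * z = z * u) (ux : u * x = x * u) (vz : v * z = z * v) (vx : v * x = x * v) :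
    (r + z * u + x * v - z * x * u * v) * (r + z * u + x * v - z * x * u * v) = r + r + r + r ∧
    (r + z * u + x * v - z * x * u * v) * z = u * (r + z * u + x * v - z * x * u * v) ∧
    (r + z * u + x * v - z * x * u * v) * x = v * (r + z * u + x * v - z * x * u * v) ∧
    (r + z * u + x * v - z * x * u * v) * r = (r + z * u + x * v - z * x * u * v) ∧
    r + u * z + v * x - v * (u * (x * z)) = r + z * u + x * v - z * x * u * v := by
  have rz' : ∀ w, r * (z * w) = z * w := fun w => by rw [← mul_assoc, rz]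
  have rx' : ∀ w, r * (x * w) = x * w := fun w => by rw [← mul_assoc, rx]
  have ru' : ∀ w, r * (u * w) = u * w := fun w => by rw [← mul_assoc, ru]
  have rv' : ∀ w, r * (v * w) = v * w := fun w => by rw [← mul_assoc, rv]
  have zz' : ∀ w, z * (z * w) = r * w := fun w => by rw [← mul_assoc, zz]
  have xx' : ∀ w, x * (x * w) = r * w := fun w => by rw [← mul_assoc, xx]
  have uu' : ∀ w, u * (u * w) = r * w := fun w => by rw [← mul_assoc, uu]
  have vv' : ∀ w, v * (v * w) = r * w := fun w => by rw [← mul_assoc, vv]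
  have xz' : ∀ w, x * (z * w) = -(z * (x * w)) := fun w => by
    rw [← mul_assoc, xz, neg_mul, mul_assoc]
  have vu' : ∀ w, v * (u * w) = -(u * (v * w)) := fun w => by
    rw [← mul_assoc, vu, neg_mul, mul_assoc]
  have uz' : ∀ w, u * (z * w) = z * (u * w) := fun w => by rw [← mul_assoc, uz, mul_assoc]
  have ux' : ∀ w, u * (x * w) = x * (u * w) := fun w => by rw [← mul_assoc, ux, mul_assoc]
  have vz' : ∀ w, v * (z * w) = z * (v * w) := fun w => by rw [← mul_assoc, vz, mul_assoc]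
  have vx' : ∀ w, v * (x * w) = x * (v * w) := fun w => by rw [← mul_assoc, vx, mul_assoc]
  refine ⟨?_, ?_, ?_, ?_, ?_⟩ <;>
  · simp only [mul_add, add_mul, mul_sub, sub_mul, mul_assoc, mul_neg, neg_mul, neg_neg, rr, rz,
      zr, rx, xr, ru, ur, rv, vr, zz, xx, uu, vv, xz, vu, uz, ux, vz, vx, rz', rx', ru', rv',
      zz', xx', uu', vv', xz', vu', uz', ux', vz', vx']
    try abel

end SwAux

/-- exchange of a qubit of the source with an external qubit -/
theorem swap {S 𝒜₀ : StarSubalgebra ℂ D} (hle₀ : 𝒜₀ ≤ S) {𝒜 ℬ : StarSubalgebra ℂ C}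
    (hle : 𝒜 ≤ ℬ) {f : D →ₗ[ℂ] C} (hf : HomOn S f) (hA : ∀ a ∈ 𝒜₀, f a ∈ 𝒜)
    (hB : ∀ x ∈ S, f x ∈ ℬ) {Z X : D} (hq : Qubit Z X) (hZ : Z ∈ 𝒜₀) (hX : X ∈ 𝒜₀) {U V : C}
    (hU : U ∈ 𝒜) (hV : V ∈ 𝒜) (sU : IsSelfAdjoint U) (sV : IsSelfAdjoint V)
    (cU : ∀ x ∈ S, Commute U (f x)) (cV : ∀ x ∈ S, Commute V (f x))
    (qU : U * U * f 1 = f 1) (qV : V * V * f 1 = f 1) (an : (U * V + V * U) * f 1 = 0) :
    ∃ f' : D →ₗ[ℂ] C, HomOn S f' ∧ f' 1 = f 1 ∧ (∀ a ∈ 𝒜₀, f' a ∈ 𝒜) ∧ (∀ x ∈ S, f' x ∈ ℬ) ∧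
      f' Z = U * f 1 ∧ f' X = V * f 1 ∧
      (∀ y ∈ S, Commute Z y → Commute X y → f' y = f y) ∧
      ∀ z, Commute z U → Commute z V → (∀ x ∈ S, Commute z (f x)) →
        ∀ x ∈ S, Commute z (f' x) := by
  have h1 : (1 : D) ∈ S := one_mem S
  have hZS : Z ∈ S := hle₀ hZ
  have hXS : X ∈ S := hle₀ hX
  have hρ : IsStarProjection (f 1) := hf.one_proj
  have rr : f 1 * f 1 = f 1 := hf.one_mul h1
  have cU1 : U * f 1 = f 1 * U := (cU 1 h1).eq
  have cV1 : V * f 1 = f 1 * V := (cV 1 h1).eq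
  have cut : ∀ W : C, W * f 1 = f 1 * W → f 1 * (W * f 1) = W * f 1 := fun W h => by
    rw [← mul_assoc, ← h, mul_assoc, rr]
  have cut' : ∀ W : C, W * f 1 * f 1 = W * f 1 := fun W => by rw [mul_assoc, rr]
  have sq : ∀ W W' : C, W' * f 1 = f 1 * W' → W * f 1 * (W' * f 1) = W * W' * f 1 :=
    fun W W' h => by rw [mul_assoc, cut W' h, mul_assoc]
  have cm : ∀ W : C, (∀ x ∈ S, Commute W (f x)) → ∀ y ∈ S, Commute (W * f 1) (f y) :=
    fun W h y hy => Commute.mul_left (h y hy) (hf.commute h1 hy (Commute.one_left y))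
  have zz : f Z * f Z = f 1 := by rw [← hf.mul Z hZS Z hZS, hq.zz]
  have xx : f X * f X = f 1 := by rw [← hf.mul X hXS X hXS, hq.xx]
  have xz : f X * f Z = -(f Z * f X) := by
    rw [← hf.mul X hXS Z hZS, ← hf.mul Z hZS X hXS, hq.anti, map_neg, neg_neg]
  have uu : U * f 1 * (U * f 1) = f 1 := by rw [sq U U cU1, qU]
  have vv : V * f 1 * (V * f 1) = f 1 := by rw [sq V V cV1, qV]
  have vu : V * f 1 * (U * f 1) = -(U * f 1 * (V * f 1)) := by
    rw [sq V U cU1, sq U V cV1, eq_neg_iff_add_eq_zero, ← add_mul, add_comm, an]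
  obtain ⟨e1, e2, e3, e4, e5⟩ := SwAux.ring_id rr (hf.one_mul hZS) (hf.mul_one hZS)
    (hf.one_mul hXS) (hf.mul_one hXS) (cut U cU1) (cut' U) (cut V cV1) (cut' V) zz xx uu vv xz vu
    (cm U cU Z hZS).eq (cm U cU X hXS).eq (cm V cV Z hZS).eq (cm V cV X hXS).eq
  have su : star (U * f 1) = U * f 1 := by
    rw [star_mul, hρ.isSelfAdjoint.star_eq, sU.star_eq, cU1]
  have sv : star (V * f 1) = V * f 1 := by
    rw [star_mul, hρ.isSelfAdjoint.star_eq, sV.star_eq, cV1]
  have sz : star (f Z) = f Z := (hf.sa hZS hq.zsa).star_eq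
  have sx : star (f X) = f X := (hf.sa hXS hq.xsa).star_eq
  have mρ : f 1 ∈ 𝒜 := hA 1 (one_mem _)
  have mz : f Z ∈ 𝒜 := hA Z hZ
  have mx : f X ∈ 𝒜 := hA X hX
  have mu : U * f 1 ∈ 𝒜 := mul_mem hU mρ
  have mv : V * f 1 ∈ 𝒜 := mul_mem hV mρ
  have cW : ∀ w : C, Commute w (f 1) → Commute w (f Z) → Commute w (f X) →
      Commute w (U * f 1) → Commute w (V * f 1) →
      Commute w (f 1 + f Z * (U * f 1) + f X * (V * f 1) - f Z * f X * (U * f 1) * (V * f 1)) :=
    fun w a b c d e => ((a.add_right (b.mul_right d)).add_right (c.mul_right e)).sub_right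
      (((b.mul_right c).mul_right d).mul_right e)
  have mW : f 1 + f Z * (U * f 1) + f X * (V * f 1) - f Z * f X * (U * f 1) * (V * f 1) ∈ 𝒜 :=
    sub_mem (add_mem (add_mem mρ (mul_mem mz mu)) (mul_mem mx mv))
      (mul_mem (mul_mem (mul_mem mz mx) mu) mv)
  have sW : star (f 1 + f Z * (U * f 1) + f X * (V * f 1) - f Z * f X * (U * f 1) * (V * f 1)) =
      f 1 + f Z * (U * f 1) + f X * (V * f 1) - f Z * f X * (U * f 1) * (V * f 1) := by
    rw [star_sub, star_add, star_add, star_mul (f Z), star_mul (f X), star_mul (f Z * f X * _),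
      star_mul (f Z * f X), star_mul (f Z), su, sv, sz, sx, hρ.isSelfAdjoint.star_eq]
    exact e5
  generalize f 1 + f Z * (U * f 1) + f X * (V * f 1) - f Z * f X * (U * f 1) * (V * f 1) = W
    at e1 e2 e3 e4 cW mW sW
  obtain ⟨T, hT⟩ : ∃ T : C, T = (2⁻¹ : ℂ) • W := ⟨_, rfl⟩
  have t1 : T * T = f 1 := by
    rw [hT, smul_mul_smul_comm, e1]
    module
  have t2 : T * f Z = U * f 1 * T := by rw [hT, smul_mul_assoc, mul_smul_comm, e2]
  have t3 : T * f X = V * f 1 * T := by rw [hT, smul_mul_assoc, mul_smul_comm, e3]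
  have t4 : T * f 1 = T := by rw [hT, smul_mul_assoc, e4]
  have mT : T ∈ 𝒜 := by rw [hT]; exact SMulMemClass.smul_mem _ mW
  have sT : star T = T := by
    rw [hT, star_smul, sW]
    simp
  have cT : ∀ w : C, Commute w (f 1) → Commute w (f Z) → Commute w (f X) →
      Commute w (U * f 1) → Commute w (V * f 1) → Commute w T := fun w a b c d e => by
    rw [hT]; exact (cW w a b c d e).smul_right _
  have nT : ‖T‖ ≤ 1 := by
    have h2 : ‖T‖ * ‖T‖ ≤ 1 := by
      rw [← CStarRing.norm_star_mul_self, sT, t1]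
      exact hρ.norm_le
    nlinarith [norm_nonneg T]
  have ev : ∀ y, ((LinearMap.mulLeft ℂ T).comp ((LinearMap.mulRight ℂ T).comp f)) y =
      T * (f y * T) := fun y => rfl
  refine ⟨(LinearMap.mulLeft ℂ T).comp ((LinearMap.mulRight ℂ T).comp f), ⟨?_, ?_, ?_⟩,
    ?_, ?_, ?_, ?_, ?_, ?_, ?_⟩
  · intro a ha b hb
    rw [ev, ev, ev, hf.mul a ha b hb]
    have : T * (f a * T) * (T * (f b * T)) = T * (f a * (T * T) * f b * T) := by
      simp only [mul_assoc]
    rw [this, t1, hf.mul_one ha]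
  · intro a ha
    rw [ev, ev, star_mul, star_mul, sT, hf.star a ha, mul_assoc]
  · intro a ha
    rw [ev]
    have h3 := hf.norm_le a ha
    calc ‖T * (f a * T)‖ ≤ ‖T‖ * (‖f a‖ * ‖T‖) :=
          (norm_mul_le _ _).trans (mul_le_mul_of_nonneg_left (norm_mul_le _ _) (norm_nonneg _))
      _ ≤ 1 * (‖a‖ * 1) := by gcongr
      _ = ‖a‖ := by ring
  · rw [ev, ← mul_assoc, t4, t1]
  · intro a ha
    rw [ev]
    exact mul_mem mT (mul_mem (hA a ha) mT)
  · intro a ha
    rw [ev]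
    exact mul_mem (hle mT) (mul_mem (hB a ha) (hle mT))
  · rw [ev, ← mul_assoc, t2, mul_assoc, t1, cut']
  · rw [ev, ← mul_assoc, t3, mul_assoc, t1, cut']
  · intro y hy c1 c2
    have h4 : Commute (f y) T := cT _ (hf.commute hy h1 (Commute.one_right y))
      (hf.commute hy hZS c1.symm) (hf.commute hy hXS c2.symm) (cm U cU y hy).symm
      (cm V cV y hy).symm
    rw [ev, ← mul_assoc, ← h4.eq, mul_assoc, t1, hf.mul_one hy]
  · intro w c1 c2 c3 a ha
    have h4 : Commute w T := cT _ (c3 1 h1) (c3 Z hZS) (c3 X hXS) (c1.mul_right (c3 1 h1))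
      (c2.mul_right (c3 1 h1))
    rw [ev]
    exact h4.mul_right ((c3 a ha).mul_right h4)

end Pool.Agent.P.MP_5d580a_an.Ng
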