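import Pool.Agent.P.MP_5d580a_an.N.Pk
import Pool.Agent.P.MP_5d580a_an.N.Sw

open scoped ComplexOrder InnerProductSpace ComplexConjugate
open Filter Topology

set_option linter.unusedSectionVars false
set_option linter.unusedVariables false
set_option linter.deprecated false

noncomputable section

namespace Pool.Agent.P.MP_5d580a_an.Ng

variable {D C : Type} [CStarAlgebra D] [CStarAlgebra C]
variable {H : Type} [NormedAddCommGroup H] [InnerProductSpace ℂ H] [CompleteSpace H]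
variable {L : Type} [NormedAddCommGroup L] [InnerProductSpace ℂ L] [CompleteSpace L]

variable {T : Tower D} {j : ℕ} {𝒜 ℬ : StarSubalgebra ℂ D}

theorem Res1_half {f : D →ₗ[ℂ] D} (hf : HomOn (T.B j) f) {v : D} (sv : IsSelfAdjoint v)
    (cv : ∀ x ∈ T.B j, Commute v (f x)) (qv : v * v * f 1 = f 1) :
    IsStarProjection ((2⁻¹ : ℂ) • (f 1 + v * f 1)) := by
  have h1 : f 1 * f 1 = f 1 := hf.one_mul (one_mem _)
  have hs : star (f 1) = f 1 := hf.one_proj.isSelfAdjoint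
  have c1 : v * f 1 = f 1 * v := (cv 1 (one_mem _)).eq
  have e1 : f 1 * (v * f 1) = v * f 1 := by rw [← mul_assoc, ← c1, mul_assoc, h1]
  have e2 : v * f 1 * f 1 = v * f 1 := by rw [mul_assoc, h1]
  have e3 : v * f 1 * (v * f 1) = f 1 := by
    rw [mul_assoc, e1, ← mul_assoc, qv]
  refine ⟨?_, ?_⟩
  · show _ * _ = _
    rw [smul_mul_smul_comm, add_mul, mul_add, mul_add, h1, e1, e2, e3]
    module
  · show star _ = _
    rw [star_smul, star_add, star_mul, hs, sv.star_eq, ← c1]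
    simp

theorem Res1_piece (hle : 𝒜 ≤ ℬ) {f : D →ₗ[ℂ] D} (hf : HomOn (T.B j) f)
    (hA : ∀ a ∈ T.A j, f a ∈ 𝒜) (hB : ∀ x ∈ T.B j, f x ∈ ℬ) {α β : D} (hα : α ∈ T.A 0)
    (hβ : β ∈ T.A 0) (nα : ‖α‖ ≤ 1) (nβ : ‖β‖ ≤ 1) {v : D} (hv : v ∈ 𝒜) (sv : IsSelfAdjoint v)
    (cv : ∀ x ∈ T.B j, Commute v (f x)) (qv : v * v * f 1 = f 1) :
    ∃ k : Pk D, IsPk T j 𝒜 ℬ k ((2⁻¹ : ℂ) • (f 1 + v * f 1))
      (f (α + β * T.ℓ) * ((2⁻¹ : ℂ) • (f 1 + v * f 1))) 1 1 := by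
  set q : D := (2⁻¹ : ℂ) • (f 1 + v * f 1) with hq
  have pq : IsStarProjection q := Res1_half hf sv cv qv
  have h1A : f 1 ∈ 𝒜 := hA 1 (one_mem _)
  have qA : q ∈ 𝒜 := 𝒜.smul_mem (add_mem h1A (mul_mem hv h1A)) _
  have cq : ∀ x ∈ T.B j, Commute q (f x) := by
    intro x hx
    have c1 : Commute (f 1) (f x) := hf.commute (one_mem _) hx (Commute.one_left x)
    exact (c1.add_left ((cv x hx).mul_left c1)).smul_left _
  have h1 : f 1 * f 1 = f 1 := hf.one_mul (one_mem _)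
  have c1 : v * f 1 = f 1 * v := (cv 1 (one_mem _)).eq
  have e1 : f 1 * (v * f 1) = v * f 1 := by rw [← mul_assoc, ← c1, mul_assoc, h1]
  have e : f 1 * q = q := by rw [hq, mul_smul_comm, mul_add, h1, e1]
  obtain ⟨k, hk⟩ := pk_single (T := T) (j := j) (𝒜 := 𝒜) (ℬ := ℬ) (w := 1) (W := 1)
    (f := (LinearMap.mulRight ℂ q).comp f) (hf.cut pq cq)
    (fun a ha => mul_mem (hA a ha) qA) (fun x hx => mul_mem (hB x hx) (hle qA)) hα hβ nα nβ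
    (one_mul _).symm
  refine ⟨k, ?_⟩
  have e' : ((LinearMap.mulRight ℂ q).comp f) 1 = q := e
  rw [e'] at hk
  exact hk

theorem Res1_norm {Z a : D} (sZ : IsSelfAdjoint Z) (zz : Z * Z = 1) (h : ‖a‖ ≤ 1) :
    ‖Z * a‖ ≤ 1 := by
  have e : star (Z * a) * (Z * a) = star a * a := by
    rw [star_mul, sZ.star_eq, mul_assoc, ← mul_assoc Z, zz, one_mul]
  have h2 : ‖Z * a‖ * ‖Z * a‖ = ‖a‖ * ‖a‖ := by
    rw [← CStarRing.norm_star_mul_self, e, CStarRing.norm_star_mul_self]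
  have := (mul_self_inj (norm_nonneg _) (norm_nonneg _)).1 h2
  rw [this]
  exact h

/-- absorption of the sign `u` and of the twist `w` -/
theorem res_one (hle : 𝒜 ≤ ℬ) {f : D →ₗ[ℂ] D} (hf : HomOn (T.B j) f)
    (hA : ∀ a ∈ T.A j, f a ∈ 𝒜) (hB : ∀ x ∈ T.B j, f x ∈ ℬ) {α β : D} (hα : α ∈ T.A 0)
    (hβ : β ∈ T.A 0) (nα : ‖α‖ ≤ 1) (nβ : ‖β‖ ≤ 1) (αZ : Commute T.Z1 α) (αX : Commute T.X1 α)
    (βZ : Commute T.Z1 β) (βX : Commute T.X1 β) {u w W : D} (hu : u ∈ 𝒜) (hw : w ∈ 𝒜)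
    (su : IsSelfAdjoint u) (sw : IsSelfAdjoint w) (cu : ∀ x ∈ T.B j, Commute u (f x))
    (cw : ∀ x ∈ T.B j, Commute w (f x)) (qu : u * u * f 1 = f 1)
    (alt : (W = 1 ∧ w = 1) ∨
      (W = T.X1 ∧ w * w * f 1 = f 1 ∧ (u * w + w * u) * f 1 = 0)) :
    ∃ k : Pk D, IsPk T j 𝒜 ℬ k (f 1) (u * f (α + β * T.ℓ)) w W := by
  have A0 : ∀ a ∈ T.A 0, a ∈ T.B j := fun a ha => T.AB (Nat.zero_le j) ha
  have hℓ : T.ℓ ∈ T.B j := T.B_mono (Nat.zero_le j) T.ℓ_mem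
  have hx : α + β * T.ℓ ∈ T.B j := add_mem (A0 α hα) (mul_mem (A0 β hβ) hℓ)
  have h1 : f 1 * f 1 = f 1 := hf.one_mul (one_mem _)
  have c1 : u * f 1 = f 1 * u := (cu 1 (one_mem _)).eq
  rcases alt with ⟨rfl, rfl⟩ | ⟨rfl, qw, an⟩
  · have P1 := Res1_piece hle hf hA hB hα hβ nα nβ hu su cu qu
    have P2 := Res1_piece hle hf hA hB (neg_mem hα) (neg_mem hβ) (by rwa [norm_neg])
      (by rwa [norm_neg]) (neg_mem hu) su.neg (fun x hx => (cu x hx).neg_left)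
      (by rw [neg_mul_neg, qu])
    have e1 : f 1 * (u * f 1) = u * f 1 := by rw [← mul_assoc, ← c1, mul_assoc, h1]
    have e2 : u * f 1 * f 1 = u * f 1 := by rw [mul_assoc, h1]
    have e3 : u * f 1 * (u * f 1) = f 1 := by
      rw [mul_assoc, e1, ← mul_assoc, qu]
    have ho : ((2⁻¹ : ℂ) • (f 1 + u * f 1)) * ((2⁻¹ : ℂ) • (f 1 + -u * f 1)) = 0 := by
      rw [smul_mul_smul_comm, neg_mul, add_mul, mul_add, mul_add, mul_neg, mul_neg, h1, e1, e2, e3]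
      simp
    obtain ⟨k, hk⟩ := pk_add P1 P2 ho
    refine ⟨k, ?_⟩
    have r1 : (2⁻¹ : ℂ) • (f 1 + u * f 1) + (2⁻¹ : ℂ) • (f 1 + -u * f 1) = f 1 := by
      rw [neg_mul]
      module
    have r2 : f (α + β * T.ℓ) * ((2⁻¹ : ℂ) • (f 1 + u * f 1)) +
        f (-α + -β * T.ℓ) * ((2⁻¹ : ℂ) • (f 1 + -u * f 1)) = u * f (α + β * T.ℓ) := by
      have e4 : -α + -β * T.ℓ = -(α + β * T.ℓ) := by rw [neg_mul, neg_add]
      have e5 : f (α + β * T.ℓ) * (u * f 1) = u * f (α + β * T.ℓ) := by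
        rw [← mul_assoc, ← (cu _ hx).eq, mul_assoc, hf.mul_one hx]
      rw [e4, map_neg, neg_mul, neg_mul, mul_smul_comm, mul_smul_comm, mul_add, mul_add, mul_neg,
        e5]
      module
    rw [r1, r2] at hk
    exact hk
  · obtain ⟨f', hf', one', hA', hB', fZ, fX, fy, -⟩ := swap (T.A_le_B j) hle hf hA hB T.q1
      (T.A_mono (Nat.zero_le j) T.Z1_mem) (T.A_mono (Nat.zero_le j) T.X1_mem) hu hw su sw cu cw
      qu qw an
    obtain ⟨k, hk⟩ := pk_single (T := T) (j := j) (𝒜 := 𝒜) (ℬ := ℬ) (w := w) (W := T.X1) hf' hA'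
      hB' (mul_mem T.Z1_mem hα) (mul_mem T.Z1_mem hβ) (Res1_norm T.q1.zsa T.q1.zz nα)
      (Res1_norm T.q1.zsa T.q1.zz nβ) (by rw [fX, one'])
    refine ⟨k, ?_⟩
    have e : f' (T.Z1 * α + T.Z1 * β * T.ℓ) = u * f (α + β * T.ℓ) := by
      rw [mul_assoc, ← mul_add, hf'.mul _ (A0 _ T.Z1_mem) _ hx, fZ,
        fy _ hx (αZ.add_right (βZ.mul_right T.Z1_ℓ)) (αX.add_right (βX.mul_right T.X1_ℓ)),
        mul_assoc, hf.one_mul hx]
    rw [one', e] at hk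
    exact hk

end Pool.Agent.P.MP_5d580a_an.Ng
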