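import Pool.Agent.P.MP_5d580a_an.N.Res1
import Pool.Agent.P.MP_5d580a_an.N.Spec
import Pool.Agent.P.MP_5d580a_an.N.Exp

open scoped ComplexOrder InnerProductSpace ComplexConjugate
open Filter Topology

set_option linter.unusedSectionVars false
set_option linter.unusedVariables false
set_option linter.deprecated false

noncomputable section

namespace Pool.Agent.P.MP_5d580a_an.Ng

variable {D C : Type} [CStarAlgebra D] [CStarAlgebra C]
variable {H : Type} [NormedAddCommGroup H] [InnerProductSpace ℂ H] [CompleteSpace H]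
variable {L : Type} [NormedAddCommGroup L] [InnerProductSpace ℂ L] [CompleteSpace L]

variable {T : Tower D} {j : ℕ} {𝒜 ℬ : StarSubalgebra ℂ D}

namespace Res2Aux

/-- the hypotheses shared by all cases -/
structure Ctx (T : Tower D) (j : ℕ) (𝒜 ℬ : StarSubalgebra ℂ D) (f : D →ₗ[ℂ] D) (u w W : D) :
    Prop where
  hf : HomOn (T.B j) f
  hA : ∀ a ∈ T.A j, f a ∈ 𝒜
  hB : ∀ x ∈ T.B j, f x ∈ ℬ
  hu : u ∈ 𝒜
  hw : w ∈ 𝒜
  su : IsSelfAdjoint u
  sw : IsSelfAdjoint w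
  cu : ∀ x ∈ T.B j, Commute u (f x)
  cw : ∀ x ∈ T.B j, Commute w (f x)
  qu : u * u * f 1 = f 1
  alt : (W = 1 ∧ w = 1) ∨ (W = T.X1 ∧ w * w * f 1 = f 1 ∧ (u * w + w * u) * f 1 = 0)

variable {f : D →ₗ[ℂ] D} {u w W : D}

theorem Ctx.one (h : Ctx T j 𝒜 ℬ f u w W) (hle : 𝒜 ≤ ℬ) {α β : D} (hα : α ∈ T.A 0)
    (hβ : β ∈ T.A 0) (nα : ‖α‖ ≤ 1) (nβ : ‖β‖ ≤ 1) (αZ : Commute T.Z1 α) (αX : Commute T.X1 α)
    (βZ : Commute T.Z1 β) (βX : Commute T.X1 β) :
    ∃ k : Pk D, IsPk T j 𝒜 ℬ k (f 1) (u * f (α + β * T.ℓ)) w W :=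
  res_one hle h.hf h.hA h.hB hα hβ nα nβ αZ αX βZ βX h.hu h.hw h.su h.sw h.cu h.cw h.qu h.alt

theorem Ctx.cut (h : Ctx T j 𝒜 ℬ f u w W) (hle : 𝒜 ≤ ℬ) {q : D} (hq : IsStarProjection q)
    (hqA : q ∈ 𝒜) (hc : ∀ x ∈ T.B j, Commute q (f x)) (uq : Commute u q) (wq : Commute w q) :
    Ctx T j 𝒜 ℬ ((LinearMap.mulRight ℂ q).comp f) u w W where
  hf := h.hf.cut hq hc
  hA := fun a ha => mul_mem (h.hA a ha) hqA
  hB := fun x hx => mul_mem (h.hB x hx) (hle hqA)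
  hu := h.hu
  hw := h.hw
  su := h.su
  sw := h.sw
  cu := fun x hx => (h.cu x hx).mul_right uq
  cw := fun x hx => (h.cw x hx).mul_right wq
  qu := by
    show u * u * (f 1 * q) = f 1 * q
    rw [← mul_assoc, h.qu]
  alt := by
    rcases h.alt with h1 | ⟨h1, h2, h3⟩
    · exact Or.inl h1
    · refine Or.inr ⟨h1, ?_, ?_⟩
      · show w * w * (f 1 * q) = f 1 * q
        rw [← mul_assoc, h2]
      · show (u * w + w * u) * (f 1 * q) = 0
        rw [← mul_assoc, h3, zero_mul]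

/-- a commuting symmetry is absorbed in the sign -/
theorem Ctx.sign (h : Ctx T j 𝒜 ℬ f u w W) {v : D} (hv : v ∈ 𝒜) (sv : IsSelfAdjoint v)
    (cv : ∀ x ∈ T.B j, Commute v (f x)) (uv : Commute u v) (wv : Commute w v)
    (qv : v * v * f 1 = f 1) : Ctx T j 𝒜 ℬ f (u * v) w W where
  hf := h.hf
  hA := h.hA
  hB := h.hB
  hu := mul_mem h.hu hv
  hw := h.hw
  su := by
    unfold IsSelfAdjoint
    rw [star_mul, sv.star_eq, h.su.star_eq, uv.eq]
  sw := h.sw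
  cu := fun x hx => (h.cu x hx).mul_left (cv x hx)
  cw := h.cw
  qu := by
    have e : u * v * (u * v) = u * u * (v * v) := by
      rw [mul_assoc, ← mul_assoc v u v, ← uv.eq, mul_assoc, mul_assoc]
    rw [e, mul_assoc, qv, h.qu]
  alt := by
    rcases h.alt with h1 | ⟨h1, h2, h3⟩
    · exact Or.inl h1
    · refine Or.inr ⟨h1, h2, ?_⟩
      have e1 : u * v * w = v * (u * w) := by rw [uv.eq, mul_assoc]
      have e2 : w * (u * v) = v * (w * u) := by
        rw [uv.eq, ← mul_assoc, wv.eq, mul_assoc]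
      rw [e1, e2, ← mul_add, mul_assoc, h3, mul_zero]

theorem one_le : ‖(1 : D)‖ ≤ 1 := IsStarProjection.norm_le _ (IsStarProjection.one D)

theorem sym_le {X : D} (hs : IsSelfAdjoint X) (hx : X * X = 1) : ‖X‖ ≤ 1 := by
  have h1 : ‖X‖ * ‖X‖ ≤ 1 := by
    rw [← CStarRing.norm_star_mul_self, hs.star_eq, hx]
    exact one_le
  nlinarith [norm_nonneg X]

theorem sq_cut {x ρ : D} (hx : IsSelfAdjoint x) (hρ : IsStarProjection ρ) (hc : Commute x ρ) :
    star (x * ρ) * (x * ρ) = x * x * ρ := by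
  rw [star_mul, hx.star_eq, hρ.isSelfAdjoint.star_eq, ← hc.eq, mul_assoc, ← mul_assoc ρ x ρ,
    ← hc.eq, mul_assoc x ρ ρ, hρ.isIdempotentElem.eq, ← mul_assoc]

theorem nonneg_of {x ρ : D} (hx : IsSelfAdjoint x) (hρ : IsStarProjection ρ) (hc : Commute x ρ)
    (h0 : ρ ≠ 0) {l : ℝ} (h : x * x * ρ = (l : ℂ) • ρ) : 0 ≤ l := by
  apply spectrum_star_mul_self_nonneg (b := x * ρ) l
  rw [sq_cut hx hρ hc, h, spectrum.mem_iff]
  intro hu
  apply h0
  have e : (algebraMap ℝ D l - (l : ℂ) • ρ) * ρ = 0 := by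
    rw [sub_mul, smul_mul_assoc, hρ.isIdempotentElem.eq, Algebra.algebraMap_eq_smul_one,
      smul_mul_assoc, one_mul, Complex.coe_smul, sub_self]
  exact hu.mul_right_eq_zero.mp e

theorem zero_of {x ρ : D} (hx : IsSelfAdjoint x) (hρ : IsStarProjection ρ) (hc : Commute x ρ)
    (h : x * x * ρ = 0) : x * ρ = 0 := by
  rw [← CStarRing.star_mul_self_eq_zero_iff, sq_cut hx hρ hc, h]

theorem rsa {x : D} (hx : IsSelfAdjoint x) (c : ℝ) : IsSelfAdjoint ((c : ℂ) • x) := by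
  unfold IsSelfAdjoint
  rw [star_smul, hx.star_eq, Complex.star_def, Complex.conj_ofReal]

theorem unit_sq {x ρ : D} {l : ℝ} (hl : 0 < l) (h : x * x * ρ = (l : ℂ) • ρ) :
    (((√l)⁻¹ : ℝ) : ℂ) • x * ((((√l)⁻¹ : ℝ) : ℂ) • x) * ρ = ρ := by
  have e : (√l)⁻¹ * (√l)⁻¹ * l = 1 := by
    rw [← mul_inv, Real.mul_self_sqrt hl.le, inv_mul_cancel₀ hl.ne']
  rw [smul_mul_smul_comm, smul_mul_assoc, h, smul_smul, ← Complex.ofReal_mul,
    ← Complex.ofReal_mul, e, Complex.ofReal_one, one_smul]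

theorem rnorm {X : D} (hX : ‖X‖ ≤ 1) {l : ℝ} (h1 : l ≤ 1) : ‖((√l : ℝ) : ℂ) • X‖ ≤ 1 := by
  rw [norm_smul, Complex.norm_real, Real.norm_eq_abs, abs_of_nonneg (Real.sqrt_nonneg l)]
  have : √l ≤ 1 := Real.sqrt_le_one.mpr h1
  exact mul_le_one₀ this (norm_nonneg X) hX

theorem unsq {x : D} {l : ℝ} (hl : 0 < l) :
    ((√l : ℝ) : ℂ) • ((((√l)⁻¹ : ℝ) : ℂ) • x) = x := by
  rw [smul_smul, ← Complex.ofReal_mul, mul_inv_cancel₀ (Real.sqrt_pos.mpr hl).ne',
    Complex.ofReal_one, one_smul]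

/-- the case of a constant angle -/
theorem Ctx.const (h : Ctx T j 𝒜 ℬ f u w W) (hle : 𝒜 ≤ ℬ) {a d : D} (ha : a ∈ 𝒜) (hd : d ∈ 𝒜)
    (sa : IsSelfAdjoint a) (sd : IsSelfAdjoint d) (ca : ∀ x ∈ T.B j, Commute a (f x))
    (cd : ∀ x ∈ T.B j, Commute d (f x)) (ua : Commute u a) (ud : Commute u d)
    (wa : Commute w a) (wd : Commute w d) (sq : (a * a + d * d) * f 1 = f 1)
    (an : (a * d + d * a) * f 1 = 0) {l : ℝ} (hl : d * d * f 1 = (l : ℂ) • f 1) :
    ∃ k : Pk D, IsPk T j 𝒜 ℬ k (f 1) (u * (a * f 1 + d * f T.ℓ)) w W := by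
  have hℓ : T.ℓ ∈ T.B j := T.B_mono (Nat.zero_le j) T.ℓ_mem
  have pρ := h.hf.one_proj
  have c1a := ca 1 (one_mem _)
  have c1d := cd 1 (one_mem _)
  have eℓ : d * f T.ℓ = d * f 1 * f T.ℓ := by rw [mul_assoc, h.hf.one_mul hℓ]
  have hl' : a * a * f 1 = ((1 - l : ℝ) : ℂ) • f 1 := by
    rw [add_mul, hl] at sq
    rw [Complex.ofReal_sub, Complex.ofReal_one, sub_smul, one_smul]
    exact eq_sub_of_add_eq sq
  by_cases h0 : f 1 = 0
  · rw [eℓ, h0]
    simpa using (pk_zero (T := T) (j := j) (𝒜 := 𝒜) (ℬ := ℬ) (w := w) (W := W))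
  have l0 : 0 ≤ l := nonneg_of sd pρ c1d h0 hl
  have l1 : 0 ≤ 1 - l := nonneg_of sa pρ c1a h0 hl'
  rcases l0.eq_or_lt with l0 | l0
  · subst l0
    have hd0 : d * f 1 = 0 := zero_of sd pρ c1d (by simpa using hl)
    have hq : a * a * f 1 = f 1 := by simpa using hl'
    have key := (h.sign ha sa ca ua wa hq).one hle (α := 1) (β := 0) (one_mem _) (zero_mem _)
      one_le (by simp) (Commute.one_right _) (Commute.one_right _) (Commute.zero_right _)
      (Commute.zero_right _)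
    rw [eℓ, hd0]
    simpa [mul_assoc] using key
  rcases l1.eq_or_lt with l1 | l1
  · have hl1 : l = 1 := by linarith
    subst hl1
    have ha0 : a * f 1 = 0 := zero_of sa pρ c1a (by simpa using hl')
    have hq : d * d * f 1 = f 1 := by simpa using hl
    have key := (h.sign hd sd cd ud wd hq).one hle (α := 0) (β := 1) (zero_mem _) (one_mem _)
      (by simp) one_le (Commute.zero_right _) (Commute.zero_right _) (Commute.one_right _)
      (Commute.one_right _)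
    rw [ha0]
    simpa [mul_assoc] using key
  have hZ : T.Z2 ∈ T.A j := T.A_mono (Nat.zero_le j) T.Z2_mem
  have hX : T.X2 ∈ T.A j := T.A_mono (Nat.zero_le j) T.X2_mem
  have an' : ((((√l)⁻¹ : ℝ) : ℂ) • d * ((((√(1 - l))⁻¹ : ℝ) : ℂ) • a) +
      (((√(1 - l))⁻¹ : ℝ) : ℂ) • a * ((((√l)⁻¹ : ℝ) : ℂ) • d)) * f 1 = 0 := by
    rw [smul_mul_smul_comm, smul_mul_smul_comm, mul_comm (((√(1 - l))⁻¹ : ℝ) : ℂ), ← smul_add,
      smul_mul_assoc, add_comm, an, smul_zero]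
  obtain ⟨g, g1, g2, g3, g4, g5, g6, g7, g8⟩ := swap (T.A_le_B j) hle h.hf h.hA h.hB T.q2 hZ hX
    (𝒜.smul_mem hd _) (𝒜.smul_mem ha _) (rsa sd (√l)⁻¹) (rsa sa (√(1 - l))⁻¹)
    (fun x hx => (cd x hx).smul_left _) (fun x hx => (ca x hx).smul_left _)
    (unit_sq l0 hl) (unit_sq l1 hl') an'
  have hg : Ctx T j 𝒜 ℬ g u w W :=
    { hf := g1, hA := g3, hB := g4, hu := h.hu, hw := h.hw, su := h.su, sw := h.sw
      cu := g8 u (ud.smul_right _) (ua.smul_right _) h.cu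
      cw := g8 w (wd.smul_right _) (wa.smul_right _) h.cw
      qu := by rw [g2]; exact h.qu
      alt := by rw [g2]; exact h.alt }
  have key := hg.one hle (α := ((√(1 - l) : ℝ) : ℂ) • T.X2) (β := ((√l : ℝ) : ℂ) • T.Z2)
    ((T.A 0).smul_mem T.X2_mem _) ((T.A 0).smul_mem T.Z2_mem _)
    (rnorm (sym_le T.q2.xsa T.q2.xx) (by linarith)) (rnorm (sym_le T.q2.zsa T.q2.zz) (by linarith))
    (T.Z1_X2.smul_right _) (T.X1_X2.smul_right _) (T.Z1_Z2.smul_right _) (T.X1_Z2.smul_right _)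
  have e : g (((√(1 - l) : ℝ) : ℂ) • T.X2 + ((√l : ℝ) : ℂ) • T.Z2 * T.ℓ) =
      a * f 1 + d * f T.ℓ := by
    rw [map_add, smul_mul_assoc, map_smul, map_smul, g1.mul _ (T.A_le_B j hZ) _ hℓ, g5, g6,
      g7 _ hℓ T.Z2_ℓ T.X2_ℓ, ← smul_mul_assoc, ← smul_mul_assoc, ← smul_mul_assoc, unsq l0,
      unsq l1, ← eℓ]
  rw [g2, e] at key
  exact key

theorem lab_sq {a d c ρ : D} (cc : c * c = c) (ca : Commute c a) (cd : Commute c d)
    (cρ : Commute c ρ) (sq : (a * a + d * d) * ρ = ρ) (an : (a * d + d * a) * ρ = 0) :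
    ((a - d * (1 - c)) * (a - d * (1 - c)) + d * c * (d * c)) * ρ = ρ ∧
      ((a - d * (1 - c)) * (d * c) + d * c * (a - d * (1 - c))) * ρ = 0 := by
  have e1 : d * c * a = d * a * c := by rw [mul_assoc, ca.eq, ← mul_assoc]
  have e2 : d * c * d = d * d * c := by rw [mul_assoc, cd.eq, ← mul_assoc]
  have e3 : d * c * d * c = d * d * c := by rw [e2, mul_assoc, cc]
  have z : (a * d + d * a) * c * ρ = 0 := by rw [mul_assoc, cρ.eq, ← mul_assoc, an, zero_mul]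
  constructor
  · calc ((a - d * (1 - c)) * (a - d * (1 - c)) + d * c * (d * c)) * ρ
        = (a * a - a * d + a * d * c - d * a + d * c * a + d * d - d * d * c - d * c * d +
            d * c * d * c + d * c * d * c) * ρ := by noncomm_ring
      _ = (a * a + d * d) * ρ - (a * d + d * a) * ρ + (a * d + d * a) * c * ρ := by
            rw [e3, e1, e2]; noncomm_ring
      _ = ρ := by rw [sq, an, z, sub_zero, add_zero]
  · calc ((a - d * (1 - c)) * (d * c) + d * c * (a - d * (1 - c))) * ρ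
        = (a * d * c - d * d * c + d * c * d * c + d * c * a - d * c * d + d * c * d * c) * ρ := by
            noncomm_ring
      _ = (a * d + d * a) * c * ρ := by rw [e3, e1, e2]; noncomm_ring
      _ = 0 := z

end Res2Aux

/-- absorption of an anticommuting pair -/
theorem res_two [FiniteDimensional ℂ 𝒜] (hle : 𝒜 ≤ ℬ) {f : D →ₗ[ℂ] D} (hf : HomOn (T.B j) f)
    (hA : ∀ a ∈ T.A j, f a ∈ 𝒜) (hB : ∀ x ∈ T.B j, f x ∈ ℬ) {a d u w W : D} (ha : a ∈ 𝒜)
    (hd : d ∈ 𝒜) (hu : u ∈ 𝒜) (hw : w ∈ 𝒜) (sa : IsSelfAdjoint a) (sd : IsSelfAdjoint d)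
    (su : IsSelfAdjoint u) (sw : IsSelfAdjoint w) (ca : ∀ x ∈ T.B j, Commute a (f x))
    (cd : ∀ x ∈ T.B j, Commute d (f x)) (cu : ∀ x ∈ T.B j, Commute u (f x))
    (cw : ∀ x ∈ T.B j, Commute w (f x)) (ua : Commute u a) (ud : Commute u d)
    (wa : Commute w a) (wd : Commute w d) (sq : (a * a + d * d) * f 1 = f 1)
    (an : (a * d + d * a) * f 1 = 0) (qu : u * u * f 1 = f 1)
    (alt : (W = 1 ∧ w = 1) ∨
      (W = T.X1 ∧ w * w * f 1 = f 1 ∧ (u * w + w * u) * f 1 = 0)) :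
    ∃ k : Pk D, IsPk T j 𝒜 ℬ k (f 1) (u * (a * f 1 + d * f T.ℓ)) w W := by
  have h : Res2Aux.Ctx T j 𝒜 ℬ f u w W := ⟨hf, hA, hB, hu, hw, su, sw, cu, cw, qu, alt⟩
  have hℓ : T.ℓ ∈ T.B j := T.B_mono (Nat.zero_le j) T.ℓ_mem
  have pρ := hf.one_proj
  have c1a := ca 1 (one_mem _)
  have c1d := cd 1 (one_mem _)
  have hk : d * d * f 1 ∈ 𝒜 := mul_mem (mul_mem hd hd) (hA 1 (one_mem _))
  have sk : IsSelfAdjoint (d * d * f 1) := by
    rw [← Res2Aux.sq_cut sd pρ c1d]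
    exact IsSelfAdjoint.star_mul_self _
  obtain ⟨Λ, e, e1, e2, e3, e4, e5, -, e7⟩ := spec_dec 𝒜 hk sk
  have ad : a * d * f 1 = -(d * a * f 1) := by
    rw [add_mul] at an
    exact eq_neg_of_add_eq_zero_left an
  have ka : Commute a (d * d * f 1) := by
    have t1 : a * (d * d * f 1) = a * d * f 1 * d := by
      rw [mul_assoc d d, c1d.eq]; simp only [mul_assoc]
    have t2 : d * a * f 1 * d = d * (a * d * f 1) := by
      rw [mul_assoc (d * a), ← c1d.eq]; simp only [mul_assoc]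
    have t3 : d * d * f 1 * a = d * (d * a * f 1) := by
      rw [mul_assoc (d * d), ← c1a.eq]; simp only [mul_assoc]
    show a * (d * d * f 1) = d * d * f 1 * a
    rw [t1, t3, ad, neg_mul, t2, ad, mul_neg, neg_neg]
  have kd : Commute d (d * d * f 1) := ((Commute.refl d).mul_right (Commute.refl d)).mul_right c1d
  have ku : Commute u (d * d * f 1) := (ud.mul_right ud).mul_right (cu 1 (one_mem _))
  have kw : Commute w (d * d * f 1) := (wd.mul_right wd).mul_right (cw 1 (one_mem _))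
  have kf : ∀ x ∈ T.B j, Commute (f x) (d * d * f 1) := fun x hx =>
    ((cd x hx).symm.mul_right (cd x hx).symm).mul_right
      (show f x * f 1 = f 1 * f x by rw [hf.mul_one hx, hf.one_mul hx])
  have ρk : f 1 * (d * d * f 1) = d * d * f 1 := by
    rw [(kf 1 (one_mem _)).eq, mul_assoc, pρ.isIdempotentElem.eq]
  have part : ∀ l ∈ Λ, ∃ k : Pk D, IsPk T j 𝒜 ℬ k (f 1 * e l)
      (u * (a * (f 1 * e l) + d * (f T.ℓ * e l))) w W := by
    intro l _
    have hc := h.cut hle (e2 l) (e1 l) (fun x hx => (e7 _ (kf x hx) l).symm) (e7 _ ku l)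
      (e7 _ kw l)
    refine hc.const hle ha hd sa sd (fun x hx => (ca x hx).mul_right (e7 _ ka l))
      (fun x hx => (cd x hx).mul_right (e7 _ kd l)) ua ud wa wd ?_ ?_ (l := l) ?_
    · show (a * a + d * d) * (f 1 * e l) = f 1 * e l
      rw [← mul_assoc, sq]
    · show (a * d + d * a) * (f 1 * e l) = 0
      rw [← mul_assoc, an, zero_mul]
    · show d * d * (f 1 * e l) = (l : ℂ) • (f 1 * e l)
      rw [← mul_assoc, ← ρk, mul_assoc, e5, mul_smul_comm]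
  have key := pk_sum Λ part (fun l _ l' _ hne => by
    rw [mul_assoc, ← mul_assoc (e l), ← (e7 _ (kf 1 (one_mem _)) l).eq, mul_assoc, e3 l l' hne,
      mul_zero, mul_zero])
  have s1 : ∑ l ∈ Λ, f 1 * e l = f 1 := by rw [← Finset.mul_sum, e4, mul_one]
  have s2 : ∑ l ∈ Λ, u * (a * (f 1 * e l) + d * (f T.ℓ * e l)) =
      u * (a * f 1 + d * f T.ℓ) := by
    have : ∀ l, u * (a * (f 1 * e l) + d * (f T.ℓ * e l)) = u * (a * f 1 + d * f T.ℓ) * e l := by
      intro l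
      simp only [mul_add, add_mul, mul_assoc]
    simp only [this]
    rw [← Finset.mul_sum, e4, mul_one]
  rw [s1, s2] at key
  exact key

/-- resolution of an element that is binary in the label `y` of level `n` -/
theorem res_label (T : Tower D) (n y : ℕ) {ρ a d u w W : D} (hρ : ρ ∈ T.A n) (ha : a ∈ T.A n)
    (hd : d ∈ T.A n) (hu : u ∈ T.A n) (hw : w ∈ T.A n) (pρ : IsStarProjection ρ)
    (sa : IsSelfAdjoint a) (sd : IsSelfAdjoint d) (su : IsSelfAdjoint u) (sw : IsSelfAdjoint w)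
    (ρa : Commute ρ a) (ρd : Commute ρ d) (ρu : Commute ρ u) (ρw : Commute ρ w)
    (ua : Commute u a) (ud : Commute u d) (wa : Commute w a) (wd : Commute w d)
    (sq : (a * a + d * d) * ρ = ρ) (an : (a * d + d * a) * ρ = 0) (qu : u * u * ρ = ρ)
    (alt : (W = 1 ∧ w = 1) ∨ (W = T.X1 ∧ w * w * ρ = ρ ∧ (u * w + w * u) * ρ = 0)) :
    ∃ k : Pk D, IsPk T n (T.A (n + 1)) (T.B (n + 1)) k ρ (u * (a + d * T.s n y) * ρ) w W := by
  have := T.finA (n + 1)
  have up : ∀ {x : D}, x ∈ T.A n → x ∈ T.A (n + 1) := fun hx => T.A_mono (Nat.le_succ n) hx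
  have hκ := T.κ_mem n y
  have pκ := T.κ_proj n y
  have κa := T.κ_comm n y a ha
  have κd := T.κ_comm n y d hd
  have κu := T.κ_comm n y u hu
  have κw := T.κ_comm n y w hw
  have κρ := T.κ_comm n y ρ hρ
  have hf : HomOn (T.B n) ((LinearMap.mulRight ℂ ρ).comp (T.ψ n y)) :=
    (T.ψ_hom n y).cut pρ (fun x hx => (T.ψ_comm n y x hx ρ hρ).symm)
  have fx : ∀ x, ((LinearMap.mulRight ℂ ρ).comp (T.ψ n y)) x = T.ψ n y x * ρ := fun x => rfl
  have f1 : ((LinearMap.mulRight ℂ ρ).comp (T.ψ n y)) 1 = ρ := by rw [fx, T.ψ_one, one_mul]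
  have cm : ∀ {z : D}, z ∈ T.A n → Commute ρ z → ∀ x ∈ T.B n,
      Commute z (((LinearMap.mulRight ℂ ρ).comp (T.ψ n y)) x) := fun hz hc x hx =>
    (T.ψ_comm n y x hx _ hz).symm.mul_right hc.symm
  have cκ : ∀ x ∈ T.B n, Commute (T.κ n y) (((LinearMap.mulRight ℂ ρ).comp (T.ψ n y)) x) :=
    fun x hx => (T.ψ_κ n y x hx).symm.mul_right κρ
  have sdκ : IsSelfAdjoint (d * T.κ n y) := by
    unfold IsSelfAdjoint
    rw [star_mul, sd.star_eq, pκ.isSelfAdjoint.star_eq, κd.eq]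
  have sa' : IsSelfAdjoint (a - d * (1 - T.κ n y)) := by
    rw [mul_sub, mul_one]
    exact sa.sub (sd.sub sdκ)
  obtain ⟨q1, q2⟩ := Res2Aux.lab_sq pκ.isIdempotentElem.eq κa κd κρ sq an
  have key := res_two (T := T) (j := n) (T.A_le_B (n + 1)) hf
    (fun x hx => mul_mem (T.ψ_A n y x hx) (up hρ))
    (fun x hx => mul_mem (T.ψ_B n y x hx) (T.A_le_B _ (up hρ)))
    (a := a - d * (1 - T.κ n y)) (d := d * T.κ n y) (u := u) (w := w) (W := W)
    (sub_mem (up ha) (mul_mem (up hd) (sub_mem (one_mem _) hκ))) (mul_mem (up hd) hκ)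
    (up hu) (up hw) sa' sdκ su sw
    (fun x hx => (cm ha ρa x hx).sub_left ((cm hd ρd x hx).mul_left
      ((Commute.one_left _).sub_left (cκ x hx))))
    (fun x hx => (cm hd ρd x hx).mul_left (cκ x hx)) (cm hu ρu) (cm hw ρw)
    (ua.sub_right (ud.mul_right ((Commute.one_right _).sub_right κu.symm)))
    (ud.mul_right κu.symm)
    (wa.sub_right (wd.mul_right ((Commute.one_right _).sub_right κw.symm)))
    (wd.mul_right κw.symm) (by rw [f1]; exact q1) (by rw [f1]; exact q2)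
    (by rw [f1]; exact qu) (by rw [f1]; exact alt)
  have e : u * ((a - d * (1 - T.κ n y)) * ρ + d * T.κ n y * (T.ψ n y T.ℓ * ρ)) =
      u * (a + d * T.s n y) * ρ := by
    unfold Tower.s
    rw [T.t_eq]
    noncomm_ring
  rw [f1, fx, e] at key
  exact key

end Pool.Agent.P.MP_5d580a_an.Ng
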