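import Pool.Agent.P.MP_5d580a_an.N.TDefs

open scoped ComplexOrder InnerProductSpace ComplexConjugate Matrix Kronecker
open Filter Topology

set_option linter.unusedSectionVars false
set_option linter.unusedVariables false
set_option linter.deprecated false

noncomputable section

namespace Pool.Agent.P.MP_5d580a_an.Ng

variable {D C : Type} [CStarAlgebra D] [CStarAlgebra C]
variable {H : Type} [NormedAddCommGroup H] [InnerProductSpace ℂ H] [CompleteSpace H]
variable {L : Type} [NormedAddCommGroup L] [InnerProductSpace ℂ L] [CompleteSpace L]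

namespace T0Aux

/-- diagonal Pauli matrix -/
def sz : Matrix (Fin 2) (Fin 2) ℂ := !![1, 0; 0, -1]

/-- off diagonal Pauli matrix -/
def sx : Matrix (Fin 2) (Fin 2) ℂ := !![0, 1; 1, 0]

theorem sz_star : szᴴ = sz := by
  ext i j
  fin_cases i <;> fin_cases j <;> simp [sz]

theorem sx_star : sxᴴ = sx := by
  ext i j
  fin_cases i <;> fin_cases j <;> simp [sx]

theorem sz_sq : sz * sz = 1 := by
  ext i j
  fin_cases i <;> fin_cases j <;> simp [sz, Matrix.mul_apply, Fin.sum_univ_two]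

theorem sx_sq : sx * sx = 1 := by
  ext i j
  fin_cases i <;> fin_cases j <;> simp [sx, Matrix.mul_apply, Fin.sum_univ_two]

theorem anti : sz * sx = -(sx * sz) := by
  ext i j
  fin_cases i <;> fin_cases j <;> simp [sz, sx, Matrix.mul_apply, Fin.sum_univ_two]

/-- three qubits -/
abbrev I3 : Type := (Fin 2 × Fin 2) × Fin 2

/-- operator on the head qubit -/
def hd (a : Matrix (Fin 2) (Fin 2) ℂ) : Matrix I3 I3 ℂ :=
  (1 : Matrix (Fin 2 × Fin 2) (Fin 2 × Fin 2) ℂ) ⊗ₖ a

/-- operator on the idle qubits -/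
def idl (a b : Matrix (Fin 2) (Fin 2) ℂ) : Matrix I3 I3 ℂ :=
  (a ⊗ₖ b) ⊗ₖ (1 : Matrix (Fin 2) (Fin 2) ℂ)

theorem hd_mul (a b : Matrix (Fin 2) (Fin 2) ℂ) : hd a * hd b = hd (a * b) := by
  rw [hd, hd, hd, ← Matrix.mul_kronecker_mul, one_mul]

theorem hd_star (a : Matrix (Fin 2) (Fin 2) ℂ) : star (hd a) = hd aᴴ := by
  rw [hd, hd, Matrix.star_eq_conjTranspose, Matrix.conjTranspose_kronecker,
    Matrix.conjTranspose_one]

theorem hd_one : hd 1 = 1 := Matrix.one_kronecker_one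

theorem hd_add (a b : Matrix (Fin 2) (Fin 2) ℂ) : hd (a + b) = hd a + hd b :=
  Matrix.kronecker_add _ _ _

theorem hd_smul (c : ℂ) (a : Matrix (Fin 2) (Fin 2) ℂ) : hd (c • a) = c • hd a :=
  Matrix.kronecker_smul _ _ _

theorem idl_mul (a b c d : Matrix (Fin 2) (Fin 2) ℂ) :
    idl a b * idl c d = idl (a * c) (b * d) := by
  rw [idl, idl, idl, ← Matrix.mul_kronecker_mul, ← Matrix.mul_kronecker_mul, one_mul]

theorem idl_star (a b : Matrix (Fin 2) (Fin 2) ℂ) : star (idl a b) = idl aᴴ bᴴ := by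
  rw [idl, idl, Matrix.star_eq_conjTranspose, Matrix.conjTranspose_kronecker,
    Matrix.conjTranspose_kronecker, Matrix.conjTranspose_one]

theorem idl_one : idl 1 1 = 1 := by
  rw [idl, Matrix.one_kronecker_one, Matrix.one_kronecker_one]

theorem idl_neg_left (a b : Matrix (Fin 2) (Fin 2) ℂ) : idl (-a) b = -idl a b := by
  ext ⟨⟨i, j⟩, k⟩ ⟨⟨i', j'⟩, k'⟩
  simp [idl]

theorem idl_neg_right (a b : Matrix (Fin 2) (Fin 2) ℂ) : idl a (-b) = -idl a b := by
  ext ⟨⟨i, j⟩, k⟩ ⟨⟨i', j'⟩, k'⟩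
  simp [idl]

theorem idl_hd (a b c : Matrix (Fin 2) (Fin 2) ℂ) : idl a b * hd c = hd c * idl a b := by
  rw [idl, hd, ← Matrix.mul_kronecker_mul, ← Matrix.mul_kronecker_mul, one_mul, mul_one, one_mul,
    mul_one]

/-- the head operator of a label -/
def pl : Option (Fin 2) → Matrix (Fin 2) (Fin 2) ℂ
  | none => sx
  | some y => if y = 0 then sz else -sz

theorem pl_star (y : Option (Fin 2)) : (pl y)ᴴ = pl y := by
  rcases y with _ | y
  · exact sx_star
  · by_cases h : y = 0 <;> simp [pl, h, sz_star]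

theorem pl_sq (y : Option (Fin 2)) : pl y * pl y = 1 := by
  rcases y with _ | y
  · exact sx_sq
  · by_cases h : y = 0 <;> simp [pl, h, sz_sq]

/-- the witness label -/
def wl (ε : Bool) : Option (Fin 2) := some (if ε then 1 else 0)

/-- the vacuum -/
def Om : I3 × Unit → ℂ := Pi.single (((0, 0), 0), ()) 1

theorem sum_T (ε : Bool) :
    (∑ y : Option (Fin 2), hd (pl y) ⊗ₖ (if y = wl ε then (1 : Matrix Unit Unit ℂ) else 0)) =
      hd (pl (wl ε)) ⊗ₖ (1 : Matrix Unit Unit ℂ) := by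
  rw [Finset.sum_eq_single (wl ε)]
  · rw [if_pos rfl]
  · intro y _ h
    rw [if_neg h, Matrix.kronecker_zero]
  · simp

theorem vac : (hd sz ⊗ₖ (1 : Matrix Unit Unit ℂ)) *ᵥ Om = Om := by
  rw [Om, Matrix.mulVec_single_one]
  ext ⟨⟨⟨i, j⟩, k⟩, u⟩
  fin_cases i <;> fin_cases j <;> fin_cases k <;> simp [hd, sz]

theorem vac' : (hd (-sz) ⊗ₖ (1 : Matrix Unit Unit ℂ)) *ᵥ Om = -Om := by
  rw [Om, Matrix.mulVec_single_one]
  ext ⟨⟨⟨i, j⟩, k⟩, u⟩
  fin_cases i <;> fin_cases j <;> fin_cases k <;> simp [hd, sz]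

/-- the first stage -/
def st : Stage where
  I := I3
  K := Unit
  n := 2
  n_pos := by norm_num
  T ε y := if y = wl ε then 1 else 0
  Ω := Om
  ℓ y := hd (pl y)
  T_proj ε y := by
    split_ifs
    · exact IsStarProjection.one _
    · exact IsStarProjection.zero _
  T_orth ε y y' h := by
    by_cases h1 : y = wl ε
    · rw [if_neg (fun h2 : y' = wl ε => h (h1.trans h2.symm)), mul_zero]
    · rw [if_neg h1, zero_mul]
  T_sum ε := by simp
  Ω_norm := by simp [Om]
  ℓ_sa := by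
    funext y
    show star (hd (pl y)) = hd (pl y)
    rw [hd_star, pl_star]
  ℓ_sq := by
    funext y
    show hd (pl y) * hd (pl y) = 1
    rw [hd_mul, pl_sq, hd_one]
  vac0 := by
    rw [sum_T]
    exact vac
  vac1 := by
    rw [sum_T]
    exact vac'

theorem sq0 : (sz - sx)ᴴ * (sz - sx) = (2 : ℂ) • 1 := by
  rw [Matrix.conjTranspose_sub, sz_star, sx_star, sub_mul, mul_sub, mul_sub, sz_sq, sx_sq, anti]
  module

theorem sq1 : (-sz - sx)ᴴ * (-sz - sx) = (2 : ℂ) • 1 := by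
  rw [Matrix.conjTranspose_sub, Matrix.conjTranspose_neg, sz_star, sx_star, sub_mul, mul_sub,
    mul_sub, neg_mul_neg, neg_mul, mul_neg, sz_sq, sx_sq, anti]
  module

theorem comm_l (a b : Matrix (Fin 2) (Fin 2) ℂ) :
    Commute (cst (idl a b) : Fn 2 I3) (fun y => hd (pl y)) := by
  funext y
  exact idl_hd a b (pl y)

theorem root_eq (y : Option (Fin 2)) :
    hd (pl y) = hd sx + hd (sz - sx) * lab 2 I3 0 y + hd (-sz - sx) * lab 2 I3 1 y := by
  rcases y with _ | y
  · simp [lab, pl]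
  · obtain rfl | rfl : y = 0 ∨ y = 1 := by omega
    · simp [lab, pl, ← hd_add]
    · simp [lab, pl, ← hd_add]

/-- the base data -/
def bs : Base st where
  hn := rfl
  hs := hd sx
  h b := if b = 0 then hd (sz - sx) else hd (-sz - sx)
  Z1 := idl sz 1
  X1 := idl sx 1
  Z2 := idl 1 sz
  X2 := idl 1 sx
  h_sq b := by
    split_ifs
    · exact (congrArg (· * hd (sz - sx)) (hd_star _)).trans
        ((hd_mul _ _).trans (by rw [sq0, hd_smul, hd_one]; rfl))
    · exact (congrArg (· * hd (-sz - sx)) (hd_star _)).trans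
        ((hd_mul _ _).trans (by rw [sq1, hd_smul, hd_one]; rfl))
  root := funext root_eq
  Z1_sa := (idl_star sz 1).trans (by rw [sz_star, Matrix.conjTranspose_one])
  X1_sa := (idl_star sx 1).trans (by rw [sx_star, Matrix.conjTranspose_one])
  Z2_sa := (idl_star 1 sz).trans (by rw [sz_star, Matrix.conjTranspose_one])
  X2_sa := (idl_star 1 sx).trans (by rw [sx_star, Matrix.conjTranspose_one])
  Z1_sq := (idl_mul _ _ _ _).trans (by rw [sz_sq, one_mul]; exact idl_one)
  X1_sq := (idl_mul _ _ _ _).trans (by rw [sx_sq, one_mul]; exact idl_one)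
  Z2_sq := (idl_mul _ _ _ _).trans (by rw [sz_sq, one_mul]; exact idl_one)
  X2_sq := (idl_mul _ _ _ _).trans (by rw [sx_sq, one_mul]; exact idl_one)
  anti1 := by
    show idl sz 1 * idl sx 1 = -(idl sx 1 * idl sz 1)
    rw [idl_mul, idl_mul, anti, idl_neg_left]
  anti2 := by
    show idl 1 sz * idl 1 sx = -(idl 1 sx * idl 1 sz)
    rw [idl_mul, idl_mul, anti, idl_neg_right]
  Z1_ℓ := comm_l _ _
  X1_ℓ := comm_l _ _
  Z2_ℓ := comm_l _ _
  X2_ℓ := comm_l _ _
  Z1_Z2 := by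
    show idl sz 1 * idl 1 sz = idl 1 sz * idl sz 1
    rw [idl_mul, idl_mul, one_mul, mul_one]
  Z1_X2 := by
    show idl sz 1 * idl 1 sx = idl 1 sx * idl sz 1
    rw [idl_mul, idl_mul, one_mul, mul_one, one_mul, mul_one]
  X1_Z2 := by
    show idl sx 1 * idl 1 sz = idl 1 sz * idl sx 1
    rw [idl_mul, idl_mul, one_mul, mul_one, one_mul, mul_one]
  X1_X2 := by
    show idl sx 1 * idl 1 sx = idl 1 sx * idl sx 1
    rw [idl_mul, idl_mul, one_mul, mul_one]

end T0Aux

theorem exists_base : ∃ S : Stage, Nonempty (Base S) :=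
  ⟨T0Aux.st, ⟨T0Aux.bs⟩⟩

end Pool.Agent.P.MP_5d580a_an.Ng
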