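import Pool.Agent.P.MP_5d580a_an.N.TDefs

open scoped ComplexOrder InnerProductSpace ComplexConjugate Matrix Kronecker
open Filter Topology

set_option linter.unusedSectionVars false
set_option linter.unusedVariables false
set_option linter.deprecated false

noncomputable section

namespace Pool.Agent.P.MP_5d580a_an.Ng

namespace T1Aux

section Kron

variable {I J : Type} [Fintype I] [DecidableEq I] [Fintype J] [DecidableEq J]

theorem kron_sub (a : Matrix I I ℂ) (p p' : Matrix J J ℂ) :
    a ⊗ₖ (p - p') = a ⊗ₖ p - a ⊗ₖ p' := by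
  ext ⟨i, j⟩ ⟨k, l⟩
  simp [mul_sub]

theorem kron_star (a : Matrix I I ℂ) (p : Matrix J J ℂ) :
    star (a ⊗ₖ p) = star a ⊗ₖ star p := by
  rw [Matrix.star_eq_conjTranspose, Matrix.star_eq_conjTranspose, Matrix.star_eq_conjTranspose,
    Matrix.conjTranspose_kronecker]

/-- `a ⊗ p + b ⊗ (1 - p)` -/
def mix (p : Matrix J J ℂ) (a b : Matrix I I ℂ) : Matrix (I × J) (I × J) ℂ :=
  a ⊗ₖ p + b ⊗ₖ (1 - p)

theorem mix_same (p : Matrix J J ℂ) (a : Matrix I I ℂ) :
    mix p a a = a ⊗ₖ (1 : Matrix J J ℂ) := by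
  rw [mix, ← Matrix.kronecker_add, add_sub_cancel]

theorem mix_mul {p : Matrix J J ℂ} (hp : IsStarProjection p) (a b a' b' : Matrix I I ℂ) :
    mix p (a * a') (b * b') = mix p a b * mix p a' b' := by
  have h1 : p * p = p := hp.isIdempotentElem.eq
  have h2 : p * (1 - p) = 0 := by rw [mul_sub, mul_one, h1, sub_self]
  have h3 : (1 - p) * p = 0 := by rw [sub_mul, one_mul, h1, sub_self]
  have h4 : (1 - p) * (1 - p) = 1 - p := by rw [mul_sub, mul_one, h3, sub_zero]
  simp only [mix, add_mul, mul_add, ← Matrix.mul_kronecker_mul, h1, h2, h3, h4,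
    Matrix.kronecker_zero, add_zero, zero_add]

theorem mix_add (p : Matrix J J ℂ) (a b a' b' : Matrix I I ℂ) :
    mix p (a + a') (b + b') = mix p a b + mix p a' b' := by
  simp only [mix, Matrix.add_kronecker]
  abel

theorem mix_star {p : Matrix J J ℂ} (hp : IsStarProjection p) (a b : Matrix I I ℂ) :
    mix p (star a) (star b) = star (mix p a b) := by
  have h : star p = p := hp.isSelfAdjoint
  simp only [mix, star_add, kron_star, star_sub, star_one, h]

/-- the map `a ↦ a ⊗ 1` -/
def left (I J : Type) [Fintype I] [DecidableEq I] [Fintype J] [DecidableEq J] :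
    Matrix I I ℂ →⋆ₐ[ℂ] Matrix (I × J) (I × J) ℂ where
  toFun a := a ⊗ₖ (1 : Matrix J J ℂ)
  map_one' := Matrix.one_kronecker_one
  map_mul' a b := by rw [← Matrix.mul_kronecker_mul, mul_one]
  map_zero' := Matrix.zero_kronecker _
  map_add' a b := Matrix.add_kronecker _ _ _
  commutes' c := by
    simp only [Algebra.algebraMap_eq_smul_one, Matrix.smul_kronecker, Matrix.one_kronecker_one]
  map_star' a := by rw [kron_star, star_one]

theorem left_apply (a : Matrix I I ℂ) : left I J a = a ⊗ₖ (1 : Matrix J J ℂ) := rfl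

/-- the map `b ↦ 1 ⊗ b` -/
def right (I J : Type) [Fintype I] [DecidableEq I] [Fintype J] [DecidableEq J] :
    Matrix J J ℂ →⋆ₐ[ℂ] Matrix (I × J) (I × J) ℂ where
  toFun b := (1 : Matrix I I ℂ) ⊗ₖ b
  map_one' := Matrix.one_kronecker_one
  map_mul' a b := by rw [← Matrix.mul_kronecker_mul, mul_one]
  map_zero' := Matrix.kronecker_zero _
  map_add' a b := Matrix.kronecker_add _ _ _
  commutes' c := by
    simp only [Algebra.algebraMap_eq_smul_one, Matrix.kronecker_smul, Matrix.one_kronecker_one]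
  map_star' a := by rw [kron_star, star_one]

theorem right_apply (b : Matrix J J ℂ) : right I J b = (1 : Matrix I I ℂ) ⊗ₖ b := rfl

theorem right_left (a : Matrix I I ℂ) (b : Matrix J J ℂ) :
    Commute (right I J b) (left I J a) := by
  show right I J b * left I J a = left I J a * right I J b
  rw [left_apply, right_apply, ← Matrix.mul_kronecker_mul, ← Matrix.mul_kronecker_mul, one_mul,
    mul_one, one_mul, mul_one]

/-- the embedding `x ↦ x ⊗ v` -/
def emb (I : Type) [DecidableEq I] (v : J → ℂ) : Matrix (I × J) I ℂ :=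
  fun ij i' => if ij.1 = i' then v ij.2 else 0

theorem kron_emb (a : Matrix I I ℂ) (p : Matrix J J ℂ) (v : J → ℂ) :
    (a ⊗ₖ p) * emb I v = emb I (p *ᵥ v) * a := by
  ext ⟨i, j⟩ i'
  simp only [Matrix.mul_apply, emb, Fintype.sum_prod_type, Matrix.kroneckerMap_apply, mul_ite,
    mul_zero, ite_mul, zero_mul, Finset.sum_ite_eq, Finset.mem_univ, if_true, Matrix.mulVec,
    dotProduct]
  rw [Finset.sum_comm]
  simp only [Finset.sum_ite_eq', Finset.mem_univ, if_true, Finset.sum_mul]
  exact Finset.sum_congr rfl fun _ _ => by ring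

theorem emb_zero : emb I (0 : J → ℂ) = 0 := by
  ext ⟨i, j⟩ i'
  simp [emb]

theorem emb_iso (v : J → ℂ) (hv : star v ⬝ᵥ v = 1) : (emb I v)ᴴ * emb I v = 1 := by
  ext i i'
  simp only [Matrix.mul_apply, emb, Fintype.sum_prod_type, Matrix.conjTranspose_apply]
  rw [Finset.sum_eq_single i]
  · by_cases h : i = i'
    · subst h
      simp only [if_true, Matrix.one_apply_eq]
      exact hv
    · simp [h]
  · intro b _ hb
    simp [hb]
  · simp

theorem mix_emb_fix (p : Matrix J J ℂ) (v : J → ℂ) (h : p *ᵥ v = v) (a b : Matrix I I ℂ) :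
    mix p a b * emb I v = emb I v * a := by
  have h' : (1 - p) *ᵥ v = 0 := by rw [Matrix.sub_mulVec, Matrix.one_mulVec, h, sub_self]
  rw [mix, Matrix.add_mul, kron_emb, kron_emb, h, h', emb_zero, Matrix.zero_mul, add_zero]

theorem mix_emb_kill (p : Matrix J J ℂ) (v : J → ℂ) (h : p *ᵥ v = 0) (a b : Matrix I I ℂ) :
    mix p a b * emb I v = emb I v * b := by
  have h' : (1 - p) *ᵥ v = v := by rw [Matrix.sub_mulVec, Matrix.one_mulVec, h, sub_zero]
  rw [mix, Matrix.add_mul, kron_emb, kron_emb, h, h', emb_zero, Matrix.zero_mul, zero_add]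

end Kron

theorem half_proj {A : Type} [Ring A] [StarRing A] [Algebra ℂ A] [StarModule ℂ A] {r : A}
    (h1 : star r = r) (h2 : r * r = 1) : IsStarProjection ((2⁻¹ : ℂ) • (1 + r)) := by
  constructor
  · show _ * _ = _
    have h : (1 + r) * (1 + r) = (2 : ℂ) • (1 + r) := by
      rw [add_mul, mul_add, mul_add, h2, two_smul]
      simp only [one_mul, mul_one]
      abel
    rw [smul_mul_smul_comm, h, smul_smul]
    norm_num
  · show star _ = _
    rw [star_smul, star_add, star_one, h1]
    simp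

theorem map_proj {A B : Type} [Ring A] [StarRing A] [Algebra ℂ A] [Ring B] [StarRing B]
    [Algebra ℂ B] (φ : A →⋆ₐ[ℂ] B) {p : A} (hp : IsStarProjection p) :
    IsStarProjection (φ p) := by
  constructor
  · show _ * _ = _
    rw [← map_mul, hp.isIdempotentElem.eq]
  · show star _ = _
    rw [← map_star, hp.isSelfAdjoint.star_eq]

theorem lab_apply {n : ℕ} {I : Type} [DecidableEq I] (y : Fin n) (y' : Option (Fin n)) :
    lab n I y y' = if y' = some y then 1 else 0 := by
  rcases y' with _ | z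
  · simp [lab]
  · simp [lab, Fin.ext_iff]

theorem cst_mul {n : ℕ} {I : Type} [Fintype I] (a b : Matrix I I ℂ) :
    (cst (a * b) : Fn n I) = cst a * cst b := rfl

/-- the projection carried by the copy of the stage -/
def Q (S : Stage) (ε : Bool) : Matrix (S.I × S.K) (S.I × S.K) ℂ :=
  (2⁻¹ : ℂ) • (1 + S.rep ε S.ℓ)

theorem Q_proj (S : Stage) (ε : Bool) : IsStarProjection (Q S ε) :=
  half_proj (by rw [← map_star, S.ℓ_sa.star_eq]) (by rw [← map_mul, S.ℓ_sq, map_one])

theorem Q_false (S : Stage) : Q S false *ᵥ S.Ω = S.Ω := by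
  have h : S.rep false S.ℓ *ᵥ S.Ω = S.Ω := S.vac0
  rw [Q, Matrix.smul_mulVec, Matrix.add_mulVec, Matrix.one_mulVec, h, ← two_smul ℂ, smul_smul]
  norm_num

theorem Q_true (S : Stage) : Q S true *ᵥ S.Ω = 0 := by
  have h : S.rep true S.ℓ *ᵥ S.Ω = -S.Ω := S.vac1
  rw [Q, Matrix.smul_mulVec, Matrix.add_mulVec, Matrix.one_mulVec, h, add_neg_cancel, smul_zero]

theorem two_Q (S : Stage) (ε : Bool) : (2 : ℂ) • Q S ε = 1 + S.rep ε S.ℓ := by
  rw [Q, smul_smul]
  norm_num

variable (S : Stage) (I : Type) [Fintype I] [DecidableEq I] (y₀ : Fin S.n)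

/-- the label read off the complement of the projection -/
def oth (y : Option (Fin S.n)) : Option (Fin S.n) := if y = some y₀ then none else y

/-- which of the two representations is used over the label `y` -/
def sgn (y : Option (Fin S.n)) : Bool := if y = some y₀ then false else true

/-- the inclusion of one site -/
def io : Fn S.n I →⋆ₐ[ℂ] Fn S.n (I × (S.I × S.K)) where
  toFun f := fun y => mix (Q S (sgn S y₀ y)) (f (some y₀)) (f (oth S y₀ y))
  map_one' := by
    funext y
    simp only [Pi.one_apply]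
    rw [mix_same, Matrix.one_kronecker_one]
  map_mul' f g := by
    funext y
    simp only [Pi.mul_apply]
    exact mix_mul (Q_proj S _) _ _ _ _
  map_zero' := by
    funext y
    simp only [Pi.zero_apply]
    rw [mix_same, Matrix.zero_kronecker]
  map_add' f g := by
    funext y
    simp only [Pi.add_apply]
    exact mix_add _ _ _ _ _
  commutes' c := by
    funext y
    simp only [Algebra.algebraMap_eq_smul_one, Pi.smul_apply, Pi.one_apply]
    rw [mix_same, Matrix.smul_kronecker, Matrix.one_kronecker_one]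
  map_star' f := by
    funext y
    simp only [Pi.star_apply]
    exact mix_star (Q_proj S _) _ _

theorem io_apply (f : Fn S.n I) (y : Option (Fin S.n)) :
    io S I y₀ f y = mix (Q S (sgn S y₀ y)) (f (some y₀)) (f (oth S y₀ y)) := rfl

theorem io_at (f : Fn S.n I) :
    io S I y₀ f (some y₀) = mix (Q S false) (f (some y₀)) (f none) := by
  rw [io_apply]
  simp [sgn, oth]

theorem io_off (f : Fn S.n I) {y : Option (Fin S.n)} (h : y ≠ some y₀) :
    io S I y₀ f y = mix (Q S true) (f (some y₀)) (f y) := by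
  rw [io_apply]
  simp [sgn, oth, h]

/-- the copy of the stage -/
def ps : Fn S.n S.I →⋆ₐ[ℂ] Fn S.n (I × (S.I × S.K)) where
  toFun f := fun y => right I (S.I × S.K) (S.rep (sgn S y₀ y) f)
  map_one' := by
    funext y
    simp only [map_one, Pi.one_apply]
  map_mul' f g := by
    funext y
    simp only [map_mul, Pi.mul_apply]
  map_zero' := by
    funext y
    simp only [map_zero, Pi.zero_apply]
  map_add' f g := by
    funext y
    simp only [map_add, Pi.add_apply]
  commutes' c := by
    funext y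
    simp only [Algebra.algebraMap_eq_smul_one, map_smul, map_one, Pi.smul_apply, Pi.one_apply]
  map_star' f := by
    funext y
    simp only [map_star, Pi.star_apply]

theorem ps_apply (f : Fn S.n S.I) (y : Option (Fin S.n)) :
    ps S I y₀ f y = right I (S.I × S.K) (S.rep (sgn S y₀ y) f) := rfl

end T1Aux

variable {D C : Type} [CStarAlgebra D] [CStarAlgebra C]
variable {H : Type} [NormedAddCommGroup H] [InnerProductSpace ℂ H] [CompleteSpace H]
variable {L : Type} [NormedAddCommGroup L] [InnerProductSpace ℂ L] [CompleteSpace L]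

open T1Aux in
/-- one site carrying a copy of the stage for the label `y₀` -/
theorem fstep (S : Stage) (I : Type) [Fintype I] [DecidableEq I] (y₀ : Fin S.n) :
    ∃ (ι : Fn S.n I →⋆ₐ[ℂ] Fn S.n (I × (S.I × S.K)))
      (ιA : Matrix I I ℂ →⋆ₐ[ℂ] Matrix (I × (S.I × S.K)) (I × (S.I × S.K)) ℂ)
      (ψ : Fn S.n S.I →⋆ₐ[ℂ] Fn S.n (I × (S.I × S.K)))
      (q : Matrix (I × (S.I × S.K)) (I × (S.I × S.K)) ℂ) (e : Matrix (I × (S.I × S.K)) I ℂ),
      (∀ a, ι (cst a) = cst (ιA a)) ∧ eᴴ * e = 1 ∧ (∀ f y, ι f y * e = e * f y) ∧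
      IsStarProjection q ∧ (∀ a, Commute q (ιA a)) ∧
      (2 : ℂ) • ι (lab S.n I y₀) = 1 + ψ S.ℓ ∧
      (∀ y : Fin S.n, y ≠ y₀ → ι (lab S.n I y) = cst q * lab S.n _ y) ∧
      (∀ a, ∃ a', ψ (cst a) = cst a') ∧ (∀ f a, Commute (ψ f) (cst (ιA a))) ∧
      (∀ f, S.rep false f = 0 → S.rep true f = 0 → ψ f = 0) ∧
      ∀ (f : Fn S.n I) (y : Fin S.n), (∀ y', y' ≠ some y → f y' = f none) →
        ∀ y', y' ≠ some y → ι f y' = ι f none := by
  refine ⟨io S I y₀, left I (S.I × S.K), ps S I y₀, right I (S.I × S.K) (1 - Q S true),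
    emb I S.Ω, ?_, emb_iso _ S.Ω_norm, ?_, map_proj _ (Q_proj S true).one_sub,
    fun a => right_left a _, ?_, ?_, ?_, ?_, ?_, ?_⟩
  · intro a
    funext y
    exact mix_same _ a
  · intro f y
    by_cases h : y = some y₀
    · subst h
      rw [io_at, mix_emb_fix _ _ (Q_false S)]
    · rw [io_off S I y₀ f h, mix_emb_kill _ _ (Q_true S)]
  · funext y
    have h0 : lab S.n I y₀ (oth S y₀ y) = 0 := by
      rw [lab_apply, if_neg]
      unfold oth
      split_ifs with h
      · simp
      · exact h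
    rw [Pi.smul_apply, Pi.add_apply, Pi.one_apply, io_apply, ps_apply, h0, lab_apply, if_pos rfl,
      mix, Matrix.zero_kronecker, add_zero, ← right_apply, ← map_smul, two_Q, map_add, map_one]
  · intro y hy
    funext y'
    have h0 : lab S.n I y (some y₀) = 0 := by
      rw [lab_apply, if_neg]
      intro h
      exact hy (Option.some.inj h).symm
    have h1 : lab S.n (I × (S.I × S.K)) y (some y₀) = 0 := by
      rw [lab_apply, if_neg]
      intro h
      exact hy (Option.some.inj h).symm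
    rw [Pi.mul_apply]
    by_cases h : y' = some y₀
    · subst h
      have h2 : lab S.n I y none = 0 := by rw [lab_apply, if_neg (by simp)]
      rw [io_at, h0, h1, h2, mix_same, Matrix.zero_kronecker, mul_zero]
    · rw [io_off S I y₀ _ h, h0, mix, Matrix.zero_kronecker, zero_add, lab_apply, lab_apply]
      split_ifs with h'
      · rw [mul_one]
        rfl
      · rw [Matrix.zero_kronecker, mul_zero]
  · intro a
    refine ⟨right I (S.I × S.K) (a ⊗ₖ (1 : Matrix S.K S.K ℂ)), ?_⟩
    funext y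
    rw [ps_apply, S.rep_cst]
    rfl
  · intro f a
    show _ * _ = _ * _
    funext y
    exact right_left a _
  · intro f h0 h1
    funext y
    rw [ps_apply, Pi.zero_apply]
    cases sgn S y₀ y
    · rw [h0, map_zero]
    · rw [h1, map_zero]
  · intro f y hf y' hy'
    rw [io_off S I y₀ f (y := none) (by simp)]
    by_cases h : y' = some y₀
    · subst h
      rw [io_at, hf _ hy', mix_same, mix_same]
    · rw [io_off S I y₀ f h, hf _ hy']

namespace T1Aux

/-- the state after the sites of the labels in `s` -/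
structure PMid (S : Stage) (s : Finset (Fin S.n)) where
  I : Type
  [fI : Fintype I]
  [dI : DecidableEq I]
  ι : Fn S.n S.I →⋆ₐ[ℂ] Fn S.n I
  ιA : Matrix S.I S.I ℂ →⋆ₐ[ℂ] Matrix I I ℂ
  e : Matrix I S.I ℂ
  κ : Fin S.n → Matrix I I ℂ
  ψ : Fin S.n → (Fn S.n S.I →⋆ₐ[ℂ] Fn S.n I)
  ι_cst : ∀ a, ι (cst a) = cst (ιA a)
  e_iso : eᴴ * e = 1
  e_int : ∀ f y, ι f y * e = e * f y
  κ_proj : ∀ y, IsStarProjection (κ y)
  κ_comm : ∀ y a, Commute (κ y) (ιA a)
  ψ_cst : ∀ y ∈ s, ∀ a, ∃ a', ψ y (cst a) = cst a'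
  ψ_comm : ∀ y ∈ s, ∀ f a, Commute (ψ y f) (cst (ιA a))
  ψ_κ : ∀ y ∈ s, ∀ f, Commute (ψ y f) (cst (κ y))
  ψ_ker : ∀ y ∈ s, ∀ f, S.rep false f = 0 → S.rep true f = 0 → ψ y f = 0
  t_eq : ∀ y ∈ s, (2 : ℂ) • ι (lab S.n S.I y) = cst (κ y) * (1 + ψ y S.ℓ)
  t_out : ∀ y, y ∉ s → ι (lab S.n S.I y) = cst (κ y) * lab S.n I y
  bin : ∀ (y : Fin S.n) (y' : Option (Fin S.n)), y' ≠ some y →
    ι (lab S.n S.I y) y' = ι (lab S.n S.I y) none

instance {S : Stage} {s : Finset (Fin S.n)} (M : PMid S s) : Fintype M.I := M.fI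
instance {S : Stage} {s : Finset (Fin S.n)} (M : PMid S s) : DecidableEq M.I := M.dI

theorem pmid_empty (S : Stage) : Nonempty (PMid S ∅) := by
  refine ⟨{ I := S.I, ι := StarAlgHom.id ℂ _, ιA := StarAlgHom.id ℂ _, e := 1, κ := fun _ => 1,
            ψ := fun _ => StarAlgHom.id ℂ _, ι_cst := fun a => rfl, e_iso := by simp,
            e_int := fun f y => by simp, κ_proj := fun _ => IsStarProjection.one _,
            κ_comm := fun _ _ => Commute.one_left _, ψ_cst := by simp, ψ_comm := by simp,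
            ψ_κ := by simp, ψ_ker := by simp, t_eq := by simp, t_out := ?_, bin := ?_ }⟩
  · intro y _
    exact (one_mul _).symm
  · intro y y' h
    show lab S.n S.I y y' = lab S.n S.I y none
    rw [lab_apply, lab_apply, if_neg h, if_neg (by simp)]

theorem pmid_insert (S : Stage) (s : Finset (Fin S.n)) (y₀ : Fin S.n) (h₀ : y₀ ∉ s)
    (M : PMid S s) : Nonempty (PMid S (insert y₀ s)) := by
  obtain ⟨ι, ιA, ψ, q, e, hc, he, hi, hq, hqc, ht, hl, hψc, hψA, hψk, hb⟩ := fstep S M.I y₀
  have hne : ∀ y ∈ s, y ≠ y₀ := fun y hy h => h₀ (h ▸ hy)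
  have hin : ∀ y ∈ insert y₀ s, y ≠ y₀ → y ∈ s := fun y hy h =>
    (Finset.mem_insert.1 hy).resolve_left h
  refine ⟨{ I := M.I × (S.I × S.K), ι := ι.comp M.ι, ιA := ιA.comp M.ιA, e := e * M.e,
            κ := fun y => if y ∈ insert y₀ s then ιA (M.κ y) else ιA (M.κ y) * q,
            ψ := fun y => if y = y₀ then ψ else ι.comp (M.ψ y),
            ι_cst := ?_, e_iso := ?_, e_int := ?_, κ_proj := ?_, κ_comm := ?_, ψ_cst := ?_,
            ψ_comm := ?_, ψ_κ := ?_, ψ_ker := ?_, t_eq := ?_, t_out := ?_, bin := ?_ }⟩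
  · intro a
    rw [StarAlgHom.comp_apply, StarAlgHom.comp_apply, M.ι_cst, hc]
  · rw [Matrix.conjTranspose_mul, Matrix.mul_assoc, ← Matrix.mul_assoc eᴴ, he, Matrix.one_mul,
      M.e_iso]
  · intro f y
    rw [StarAlgHom.comp_apply, ← Matrix.mul_assoc, hi, Matrix.mul_assoc, M.e_int,
      Matrix.mul_assoc]
  · intro y
    split_ifs with h
    · exact map_proj _ (M.κ_proj y)
    · exact (map_proj _ (M.κ_proj y)).mul hq (hqc _).symm
  · intro y a
    rw [StarAlgHom.comp_apply]
    split_ifs with h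
    · exact (M.κ_comm y a).map ιA
    · exact ((M.κ_comm y a).map ιA).mul_left (hqc _)
  · intro y hy a
    by_cases h : y = y₀
    · rw [if_pos h]
      exact hψc a
    · obtain ⟨a', ha'⟩ := M.ψ_cst y (hin y hy h) a
      exact ⟨ιA a', by rw [if_neg h, StarAlgHom.comp_apply, ha', hc]⟩
  · intro y hy f a
    rw [StarAlgHom.comp_apply]
    by_cases h : y = y₀
    · rw [if_pos h]
      exact hψA f _
    · rw [if_neg h, StarAlgHom.comp_apply, ← hc]
      exact (M.ψ_comm y (hin y hy h) f a).map ι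
  · intro y hy f
    rw [if_pos hy]
    by_cases h : y = y₀
    · rw [if_pos h]
      exact hψA f _
    · rw [if_neg h, StarAlgHom.comp_apply, ← hc]
      exact (M.ψ_κ y (hin y hy h) f).map ι
  · intro y hy f h0 h1
    by_cases h : y = y₀
    · rw [if_pos h]
      exact hψk f h0 h1
    · rw [if_neg h, StarAlgHom.comp_apply, M.ψ_ker y (hin y hy h) f h0 h1, map_zero]
  · intro y hy
    rw [if_pos hy, StarAlgHom.comp_apply]
    by_cases h : y = y₀
    · subst h
      rw [if_pos rfl, M.t_out y h₀, map_mul, hc, ← mul_smul_comm, ht]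
    · rw [if_neg h, StarAlgHom.comp_apply, ← map_smul, M.t_eq y (hin y hy h), map_mul, hc,
        map_add, map_one]
  · intro y hy
    have h1 : y ≠ y₀ := fun h => hy (h ▸ Finset.mem_insert_self _ _)
    have h2 : y ∉ s := fun h => hy (Finset.mem_insert_of_mem h)
    rw [if_neg hy, StarAlgHom.comp_apply, M.t_out y h2, map_mul, hc, hl y h1, cst_mul, mul_assoc]
  · intro y y' h
    rw [StarAlgHom.comp_apply]
    exact hb _ y (M.bin y) y' h

theorem pmid (S : Stage) (s : Finset (Fin S.n)) : Nonempty (PMid S s) := by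
  induction s using Finset.induction_on with
  | empty => exact pmid_empty S
  | insert y₀ s h₀ ih =>
    obtain ⟨M⟩ := ih
    exact pmid_insert S s y₀ h₀ M

end T1Aux

theorem exists_mid (S : Stage) : Nonempty (Mid S) := by
  obtain ⟨M⟩ := T1Aux.pmid S Finset.univ
  exact ⟨{ I := M.I, ι := M.ι, ιA := M.ιA, e := M.e, κ := M.κ, ψ := M.ψ, ι_cst := M.ι_cst,
           e_iso := M.e_iso, e_int := M.e_int, κ_proj := M.κ_proj, κ_comm := M.κ_comm,
           ψ_cst := fun y => M.ψ_cst y (Finset.mem_univ y),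
           ψ_comm := fun y => M.ψ_comm y (Finset.mem_univ y),
           ψ_κ := fun y => M.ψ_κ y (Finset.mem_univ y),
           ψ_ker := fun y => M.ψ_ker y (Finset.mem_univ y),
           t_eq := fun y => M.t_eq y (Finset.mem_univ y), bin := M.bin }⟩

end Pool.Agent.P.MP_5d580a_an.Ng
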