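import Pool.Agent.P.MP_5d580a_an.N.T0

open scoped ComplexOrder InnerProductSpace ComplexConjugate Matrix Kronecker
open Filter Topology

set_option linter.unusedSectionVars false
set_option linter.unusedVariables false
set_option linter.deprecated false

noncomputable section

namespace Pool.Agent.P.MP_5d580a_an.Ng

variable {D C : Type} [CStarAlgebra D] [CStarAlgebra C]
variable {H : Type} [NormedAddCommGroup H] [InnerProductSpace ℂ H] [CompleteSpace H]
variable {L : Type} [NormedAddCommGroup L] [InnerProductSpace ℂ L] [CompleteSpace L]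

namespace T3Aux

variable (J : ℕ → Type) [∀ k, Fintype (J k)] [∀ k, DecidableEq (J k)]

/-- the ambient Hilbert sum -/
abbrev Amb : Type := lp (fun k => EuclideanSpace ℂ (J k)) 2

/-- the inclusion of one summand -/
def sg (k : ℕ) : (J k → ℂ) →ₗ[ℂ] Amb J where
  toFun v := lp.single 2 k (WithLp.toLp 2 v : EuclideanSpace ℂ (J k))
  map_add' v w := by
    rw [WithLp.toLp_add, lp.single_add]
  map_smul' c v := by
    rw [WithLp.toLp_smul, lp.single_smul]
    rfl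

theorem sg_inner_left (k : ℕ) (v : J k → ℂ) (f : Amb J) :
    ⟪sg J k v, f⟫_ℂ = ⟪(WithLp.toLp 2 v : EuclideanSpace ℂ (J k)), f k⟫_ℂ :=
  lp.inner_single_left k _ f

theorem sg_self (k : ℕ) (v : J k → ℂ) : (sg J k v) k = WithLp.toLp 2 v :=
  lp.single_apply_self 2 k _

theorem sg_ne (k : ℕ) (v : J k → ℂ) {i : ℕ} (h : i ≠ k) : (sg J k v) i = 0 :=
  lp.single_apply_ne 2 k _ h

theorem sg_inner (k : ℕ) (v w : J k → ℂ) : ⟪sg J k v, sg J k w⟫_ℂ = star v ⬝ᵥ w := by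
  rw [sg_inner_left, sg_self, EuclideanSpace.inner_toLp_toLp, dotProduct_comm]

variable (V : ∀ k, Matrix (J (k + 1)) (J k) ℂ)

/-- the embeddings of the stages in the ambient space -/
def em : ∀ k, (J k → ℂ) →ₗ[ℂ] Amb J
  | 0 => sg J 0
  | k + 1 => em k ∘ₗ Matrix.mulVecLin (V k)ᴴ +
      sg J (k + 1) ∘ₗ Matrix.mulVecLin (1 - V k * (V k)ᴴ)

theorem em_succ (k : ℕ) (v : J (k + 1) → ℂ) :
    em J V (k + 1) v = em J V k ((V k)ᴴ *ᵥ v) + sg J (k + 1) ((1 - V k * (V k)ᴴ) *ᵥ v) := rfl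

theorem em_supp : ∀ (k : ℕ) (v : J k → ℂ) (i : ℕ), k < i → (em J V k v) i = 0
  | 0, v, i, h => sg_ne J 0 v h.ne'
  | k + 1, v, i, h => by
    rw [em_succ, lp.coeFn_add, Pi.add_apply, em_supp k _ i (by omega), sg_ne J _ _ h.ne', add_zero]

theorem cross (k : ℕ) (v : J (k + 1) → ℂ) (w : J k → ℂ) :
    ⟪sg J (k + 1) v, em J V k w⟫_ℂ = 0 := by
  rw [sg_inner_left, em_supp J V k w (k + 1) k.lt_succ_self, inner_zero_right]

theorem dot_mulVec {m n : Type} [Fintype m] [Fintype n] (A B : Matrix m n ℂ) (v w : n → ℂ) :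
    star (A *ᵥ v) ⬝ᵥ (B *ᵥ w) = star v ⬝ᵥ ((Aᴴ * B) *ᵥ w) := by
  rw [Matrix.star_mulVec, ← Matrix.dotProduct_mulVec, Matrix.mulVec_mulVec]

theorem em_inner (hV : ∀ k, (V k)ᴴ * V k = 1) :
    ∀ (k : ℕ) (v w : J k → ℂ), ⟪em J V k v, em J V k w⟫_ℂ = star v ⬝ᵥ w
  | 0, v, w => sg_inner J 0 v w
  | k + 1, v, w => by
    have h2 : ⟪em J V k ((V k)ᴴ *ᵥ v), sg J (k + 1) ((1 - V k * (V k)ᴴ) *ᵥ w)⟫_ℂ = 0 := by
      rw [← inner_conj_symm, cross, map_zero]
    have h3 : (V k)ᴴᴴ * (V k)ᴴ + (1 - V k * (V k)ᴴ)ᴴ * (1 - V k * (V k)ᴴ) = 1 := by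
      have h4 : V k * (V k)ᴴ * (V k * (V k)ᴴ) = V k * (V k)ᴴ := by
        rw [Matrix.mul_assoc, ← Matrix.mul_assoc (V k)ᴴ, hV k, Matrix.one_mul]
      rw [Matrix.conjTranspose_sub, Matrix.conjTranspose_one, Matrix.conjTranspose_mul,
        Matrix.conjTranspose_conjTranspose, sub_mul, one_mul, mul_sub, mul_one, h4]
      abel
    rw [em_succ, em_succ, inner_add_left, inner_add_right, inner_add_right, cross, h2,
      em_inner hV k, sg_inner, dot_mulVec, dot_mulVec, add_zero, zero_add, ← dotProduct_add,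
      ← Matrix.add_mulVec, h3, Matrix.one_mulVec]

theorem em_V (hV : ∀ k, (V k)ᴴ * V k = 1) (k : ℕ) (v : J k → ℂ) :
    em J V (k + 1) (V k *ᵥ v) = em J V k v := by
  have h : (1 - V k * (V k)ᴴ) * V k = 0 := by
    rw [Matrix.sub_mul, Matrix.one_mul, Matrix.mul_assoc, hV k, Matrix.mul_one, sub_self]
  rw [em_succ, Matrix.mulVec_mulVec, Matrix.mulVec_mulVec, hV k, h, Matrix.one_mulVec,
    Matrix.zero_mulVec, map_zero, add_zero]

end T3Aux

open T3Aux in
theorem exists_lim (J : ℕ → Type) [∀ k, Fintype (J k)] [∀ k, DecidableEq (J k)]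
    (V : ∀ k, Matrix (J (k + 1)) (J k) ℂ) (hV : ∀ k, (V k)ᴴ * V k = 1) :
    ∃ (H : Type) (_ : NormedAddCommGroup H) (_ : InnerProductSpace ℂ H) (_ : CompleteSpace H)
      (j : ∀ k, (J k → ℂ) →ₗ[ℂ] H), IsLim J V j := by
  let K : Submodule ℂ (Amb J) := (⨆ k, LinearMap.range (em J V k)).topologicalClosure
  have hK : CompleteSpace K := (Submodule.isClosed_topologicalClosure _).completeSpace_coe
  have hmem : ∀ k v, em J V k v ∈ K := fun k v =>
    Submodule.le_topologicalClosure _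
      (Submodule.mem_iSup_of_mem k (LinearMap.mem_range_self (em J V k) v))
  have hmono : Monotone fun k => LinearMap.range (em J V k) := by
    refine monotone_nat_of_le_succ fun k => ?_
    rintro _ ⟨v, rfl⟩
    exact ⟨V k *ᵥ v, em_V J V hV k v⟩
  refine ⟨K, inferInstance, inferInstance, hK, fun k => (em J V k).codRestrict K (hmem k),
    fun k v v' => em_inner J V hV k v v', fun k v => Subtype.ext (em_V J V hV k v), ?_⟩
  rw [Subtype.dense_iff]
  intro x hx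
  refine closure_mono ?_
    (show x ∈ closure ((⨆ k, LinearMap.range (em J V k) : Submodule ℂ (Amb J)) : Set (Amb J))
      from hx)
  intro z hz
  obtain ⟨k, v, rfl⟩ := (Submodule.mem_iSup_of_directed _ hmono.directed_le).1 hz
  exact ⟨⟨_, hmem k v⟩, Set.mem_iUnion.2 ⟨k, v, rfl⟩, rfl⟩

variable {J : ℕ → Type} [∀ k, Fintype (J k)] [∀ k, DecidableEq (J k)]
  {V : ∀ k, Matrix (J (k + 1)) (J k) ℂ} {j : ∀ k, (J k → ℂ) →ₗ[ℂ] H}

theorem IsLim.ext (h : IsLim J V j) {x y : H →L[ℂ] H} (n : ℕ)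
    (he : ∀ k, n ≤ k → ∀ v, x (j k v) = y (j k v)) : x = y := by
  have up : ∀ k k', k ≤ k' → ∀ v, ∃ v', j k' v' = j k v := by
    intro k k' hk v
    induction k', hk using Nat.le_induction with
    | base => exact ⟨v, rfl⟩
    | succ k' hk ih =>
      obtain ⟨v', hv'⟩ := ih
      exact ⟨V k' *ᵥ v', (h.succ k' v').trans hv'⟩
  refine ContinuousLinearMap.coeFn_injective
    (Continuous.ext_on h.dense x.continuous y.continuous ?_)
  intro z hz
  obtain ⟨k, v, rfl⟩ := Set.mem_iUnion.1 hz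
  obtain ⟨v', hv'⟩ := up k (max k n) (le_max_left _ _) v
  rw [← hv']
  exact he _ (le_max_right _ _) v'

theorem IsLim.exists_op (h : IsLim J V j) (n : ℕ) (x : ∀ k, n ≤ k → Matrix (J k) (J k) ℂ)
    (hx : ∀ k (hk : n ≤ k), x (k + 1) (hk.trans k.le_succ) * V k = V k * x k hk) {c : ℝ}
    (hc : ∀ k (hk : n ≤ k) v, ‖j k (x k hk *ᵥ v)‖ ≤ c * ‖j k v‖) :
    ∃ y : H →L[ℂ] H, ∀ k (hk : n ≤ k) v, y (j k v) = j k (x k hk *ᵥ v) := by
  classical
  have up : ∀ k (hk : n ≤ k) k' (hk' : k ≤ k') v, ∃ v', j k' v' = j k v ∧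
      j k' (x k' (hk.trans hk') *ᵥ v') = j k (x k hk *ᵥ v) := by
    intro k hk k' hk' v
    induction k', hk' using Nat.le_induction with
    | base => exact ⟨v, rfl, rfl⟩
    | succ k' hk' ih =>
      obtain ⟨v', h1, h2⟩ := ih
      refine ⟨V k' *ᵥ v', (h.succ k' v').trans h1, ?_⟩
      rw [Matrix.mulVec_mulVec, hx k' (hk.trans hk'), ← Matrix.mulVec_mulVec, h.succ, h2]
  let f : (Π₀ k : {k // n ≤ k}, (J k.1 → ℂ)) →ₗ[ℂ] H := DFinsupp.lsum ℕ fun k => j k.1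
  let g : (Π₀ k : {k // n ≤ k}, (J k.1 → ℂ)) →ₗ[ℂ] H :=
    DFinsupp.lsum ℕ fun k => j k.1 ∘ₗ Matrix.mulVecLin (x k.1 k.2)
  have hf : ∀ k v, f (DFinsupp.single k v) = j k.1 v :=
    fun k v => DFinsupp.lsum_single ℕ (fun k : {k // n ≤ k} => j k.1) k v
  have hg : ∀ k v, g (DFinsupp.single k v) = j k.1 (x k.1 k.2 *ᵥ v) :=
    fun k v => DFinsupp.lsum_single ℕ
      (fun k : {k // n ≤ k} => j k.1 ∘ₗ Matrix.mulVecLin (x k.1 k.2)) k v
  have key : ∀ a, ∃ k, ∃ hk : n ≤ k, ∃ v, f a = j k v ∧ g a = j k (x k hk *ᵥ v) := by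
    intro a
    induction a using DFinsupp.induction with
    | h0 => exact ⟨n, le_rfl, 0, by simp, by simp⟩
    | ha k v a _ _ ih =>
      obtain ⟨k', hk', v', h1, h2⟩ := ih
      obtain ⟨w, e1, e2⟩ := up k.1 k.2 (max k.1 k') (le_max_left _ _) v
      obtain ⟨w', e1', e2'⟩ := up k' hk' (max k.1 k') (le_max_right _ _) v'
      refine ⟨max k.1 k', k.2.trans (le_max_left _ _), w + w', ?_, ?_⟩
      · rw [map_add, map_add, hf, h1, e1, e1']
      · rw [map_add, Matrix.mulVec_add, map_add, hg, h2, e2, e2']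
  obtain ⟨W, -, hW, -⟩ := exists_extend f g |c| (abs_nonneg c) fun a => by
    obtain ⟨k, hk, v, h1, h2⟩ := key a
    rw [h1, h2]
    exact (hc k hk v).trans (mul_le_mul_of_nonneg_right (le_abs_self c) (norm_nonneg _))
  refine ⟨W, fun k hk v => ?_⟩
  have := hW (DFinsupp.single ⟨k, hk⟩ v)
  rwa [hf, hg] at this

end Pool.Agent.P.MP_5d580a_an.Ng
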