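import Pool.Agent.P.MP_5d580a_an.N.Exp
import Pool.Agent.P.MP_5d580a_an.N.Hil

/-! The finite stages of the tower as matrix algebras. -/

open scoped ComplexOrder InnerProductSpace ComplexConjugate Matrix Kronecker
open Filter Topology

set_option linter.unusedSectionVars false
set_option linter.unusedVariables false

noncomputable section

namespace Pool.Agent.P.MP_5d580a_an.Ng

/-- matrix valued functions of the label; `none` is the star label -/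
abbrev Fn (n : ℕ) (I : Type) : Type := Option (Fin n) → Matrix I I ℂ

/-- constant functions -/
def cst {n : ℕ} {I : Type} (a : Matrix I I ℂ) : Fn n I := fun _ => a

/-- indicator of the label `y` (zero if `y` is out of range) -/
def lab (n : ℕ) (I : Type) [DecidableEq I] (y : ℕ) : Fn n I :=
  fun y' => if y'.map Fin.val = some y then 1 else 0

/-- a finite stage with its purified pair of witness states -/
structure Stage where
  I : Type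
  K : Type
  [fI : Fintype I]
  [dI : DecidableEq I]
  [fK : Fintype K]
  [dK : DecidableEq K]
  n : ℕ
  n_pos : 0 < n
  T : Bool → Option (Fin n) → Matrix K K ℂ
  Ω : I × K → ℂ
  ℓ : Fn n I
  T_proj : ∀ ε y, IsStarProjection (T ε y)
  T_orth : ∀ ε y y', y ≠ y' → T ε y * T ε y' = 0
  T_sum : ∀ ε, ∑ y, T ε y = 1
  Ω_norm : star Ω ⬝ᵥ Ω = 1
  ℓ_sa : IsSelfAdjoint ℓ
  ℓ_sq : ℓ * ℓ = 1
  vac0 : (∑ y, ℓ y ⊗ₖ T false y) *ᵥ Ω = Ω
  vac1 : (∑ y, ℓ y ⊗ₖ T true y) *ᵥ Ω = -Ω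

instance (S : Stage) : Fintype S.I := S.fI
instance (S : Stage) : DecidableEq S.I := S.dI
instance (S : Stage) : Fintype S.K := S.fK
instance (S : Stage) : DecidableEq S.K := S.dK

theorem kron_sum_left {ι m n p q : Type} (s : Finset ι) (f : ι → Matrix m n ℂ)
    (b : Matrix p q ℂ) : (∑ i ∈ s, f i) ⊗ₖ b = ∑ i ∈ s, f i ⊗ₖ b := by
  ext ⟨i, j⟩ ⟨k, l⟩
  simp [Matrix.sum_apply, Finset.sum_mul]

theorem kron_sum_right {ι m n p q : Type} (s : Finset ι) (a : Matrix m n ℂ)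
    (f : ι → Matrix p q ℂ) : a ⊗ₖ (∑ i ∈ s, f i) = ∑ i ∈ s, a ⊗ₖ f i := by
  ext ⟨i, j⟩ ⟨k, l⟩
  simp [Matrix.sum_apply, Finset.mul_sum]

/-- the two witness representations of a stage -/
def Stage.rep (S : Stage) (ε : Bool) :
    Fn S.n S.I →⋆ₐ[ℂ] Matrix (S.I × S.K) (S.I × S.K) ℂ where
  toFun f := ∑ y, f y ⊗ₖ S.T ε y
  map_one' := by
    simp only [Pi.one_apply]
    rw [← kron_sum_right, S.T_sum, Matrix.one_kronecker_one]
  map_mul' f g := by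
    rw [Finset.sum_mul_sum]
    refine Finset.sum_congr rfl fun y _ => ?_
    rw [Finset.sum_eq_single y]
    · rw [← Matrix.mul_kronecker_mul, (S.T_proj ε y).isIdempotentElem.eq, Pi.mul_apply]
    · intro y' _ h
      rw [← Matrix.mul_kronecker_mul, S.T_orth ε y y' h.symm, Matrix.kronecker_zero]
    · simp
  map_zero' := by simp
  map_add' f g := by
    simp only [Pi.add_apply, Matrix.add_kronecker, Finset.sum_add_distrib]
  commutes' c := by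
    simp only [Algebra.algebraMap_eq_smul_one, Pi.smul_apply, Pi.one_apply, Matrix.smul_kronecker]
    rw [← Finset.smul_sum, ← kron_sum_right, S.T_sum, Matrix.one_kronecker_one]
  map_star' f := by
    rw [star_sum]
    refine Finset.sum_congr rfl fun y _ => ?_
    have h : (S.T ε y)ᴴ = S.T ε y := (S.T_proj ε y).isSelfAdjoint
    rw [Pi.star_apply, Matrix.star_eq_conjTranspose, Matrix.star_eq_conjTranspose,
      Matrix.conjTranspose_kronecker, h]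

theorem Stage.rep_apply (S : Stage) (ε : Bool) (f : Fn S.n S.I) :
    S.rep ε f = ∑ y, f y ⊗ₖ S.T ε y := rfl

theorem Stage.rep_cst (S : Stage) (ε : Bool) (a : Matrix S.I S.I ℂ) :
    S.rep ε (cst a) = a ⊗ₖ (1 : Matrix S.K S.K ℂ) := by
  rw [S.rep_apply, ← S.T_sum ε, kron_sum_right]
  rfl

/-- the state after all sites that carry a copy of the stage -/
structure Mid (S : Stage) where
  I : Type
  [fI : Fintype I]
  [dI : DecidableEq I]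
  ι : Fn S.n S.I →⋆ₐ[ℂ] Fn S.n I
  ιA : Matrix S.I S.I ℂ →⋆ₐ[ℂ] Matrix I I ℂ
  e : Matrix I S.I ℂ
  κ : Fin S.n → Matrix I I ℂ
  ψ : Fin S.n → (Fn S.n S.I →⋆ₐ[ℂ] Fn S.n I)
  ι_cst : ∀ a, ι (cst a) = cst (ιA a)
  e_iso : eᴴ * e = 1
  e_int : ∀ f y, ι f y * e = e * f y
  κ_proj : ∀ y, IsStarProjection (κ y)
  κ_comm : ∀ y a, Commute (κ y) (ιA a)
  ψ_cst : ∀ y a, ∃ a', ψ y (cst a) = cst a'
  ψ_comm : ∀ y f a, Commute (ψ y f) (cst (ιA a))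
  ψ_κ : ∀ y f, Commute (ψ y f) (cst (κ y))
  ψ_ker : ∀ y f, S.rep false f = 0 → S.rep true f = 0 → ψ y f = 0
  t_eq : ∀ y : Fin S.n, (2 : ℂ) • ι (lab S.n S.I y) = cst (κ y) * (1 + ψ y S.ℓ)
  bin : ∀ (y : Fin S.n) (y' : Option (Fin S.n)), y' ≠ some y →
    ι (lab S.n S.I y) y' = ι (lab S.n S.I y) none

instance {S : Stage} (M : Mid S) : Fintype M.I := M.fI
instance {S : Stage} (M : Mid S) : DecidableEq M.I := M.dI

/-- passage from one stage to the next; `β y` is the basis used by the label `y` -/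
structure Step (S S' : Stage) (β : ℕ → Bool) where
  hn : S'.n = 2 * S.n
  ι : Fn S.n S.I →⋆ₐ[ℂ] Fn S'.n S'.I
  ιA : Matrix S.I S.I ℂ →⋆ₐ[ℂ] Matrix S'.I S'.I ℂ
  V : Matrix (S'.I × S'.K) (S.I × S.K) ℂ
  m : ℕ → Matrix S'.I S'.I ℂ
  pp : ℕ → Matrix S'.I S'.I ℂ
  pm : ℕ → Matrix S'.I S'.I ℂ
  κ : ℕ → Matrix S'.I S'.I ℂ
  ψ : ℕ → (Fn S.n S.I →⋆ₐ[ℂ] Fn S'.n S'.I)
  ι_cst : ∀ a, ι (cst a) = cst (ιA a)
  ι_ℓ : ι S.ℓ = S'.ℓ
  V_iso : Vᴴ * V = 1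
  V_int : ∀ ε f, S'.rep ε (ι f) * V = V * S.rep ε f
  m_proj : ∀ w, IsStarProjection (m w)
  m_comm : ∀ w a, Commute (m w) (ιA a)
  m_add : ∀ y, m (2 * y) + m (2 * y + 1) = 1
  m_sep : ∀ w w', β (w / 2) ≠ β (w' / 2) → m w * m w' * m w = (2⁻¹ : ℂ) • m w
  m_V : ∀ w, Vᴴ * (m w ⊗ₖ (1 : Matrix S'.K S'.K ℂ)) * V = (2⁻¹ : ℂ) • 1
  pp_proj : ∀ y, IsStarProjection (pp y)
  pm_proj : ∀ y, IsStarProjection (pm y)
  pp_comm : ∀ y a, Commute (pp y) (ιA a)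
  pm_comm : ∀ y a, Commute (pm y) (ιA a)
  pp_m : ∀ y w, Commute (pp y) (m w)
  pm_m : ∀ y w, Commute (pm y) (m w)
  step : ∀ y, ι (lab S.n S.I y) = cst (pm y) + cst (pp y - pm y) *
    (cst (m (2 * y)) * lab S'.n S'.I (2 * y) + cst (m (2 * y + 1)) * lab S'.n S'.I (2 * y + 1))
  κ_proj : ∀ y, IsStarProjection (κ y)
  κ_comm : ∀ y a, Commute (κ y) (ιA a)
  ψ_cst : ∀ y a, ∃ a', ψ y (cst a) = cst a'
  ψ_comm : ∀ y f a, Commute (ψ y f) (cst (ιA a))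
  ψ_κ : ∀ y f, Commute (ψ y f) (cst (κ y))
  ψ_ker : ∀ y f, S.rep false f = 0 → S.rep true f = 0 → ψ y f = 0
  t_eq : ∀ y, (2 : ℂ) • ι (lab S.n S.I y) = cst (κ y) * (1 + ψ y S.ℓ)

/-- the first stage: two idle qubits and the head qubit -/
structure Base (S : Stage) where
  hn : S.n = 2
  hs : Matrix S.I S.I ℂ
  h : ℕ → Matrix S.I S.I ℂ
  Z1 : Matrix S.I S.I ℂ
  X1 : Matrix S.I S.I ℂ
  Z2 : Matrix S.I S.I ℂ
  X2 : Matrix S.I S.I ℂ
  h_sq : ∀ b, star (h b) * h b = (2 : ℂ) • 1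
  root : S.ℓ = cst hs + cst (h 0) * lab S.n S.I 0 + cst (h 1) * lab S.n S.I 1
  Z1_sa : IsSelfAdjoint Z1
  X1_sa : IsSelfAdjoint X1
  Z2_sa : IsSelfAdjoint Z2
  X2_sa : IsSelfAdjoint X2
  Z1_sq : Z1 * Z1 = 1
  X1_sq : X1 * X1 = 1
  Z2_sq : Z2 * Z2 = 1
  X2_sq : X2 * X2 = 1
  anti1 : Z1 * X1 = -(X1 * Z1)
  anti2 : Z2 * X2 = -(X2 * Z2)
  Z1_ℓ : Commute (cst Z1) S.ℓ
  X1_ℓ : Commute (cst X1) S.ℓ
  Z2_ℓ : Commute (cst Z2) S.ℓ
  X2_ℓ : Commute (cst X2) S.ℓ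
  Z1_Z2 : Commute Z1 Z2
  Z1_X2 : Commute Z1 X2
  X1_Z2 : Commute X1 Z2
  X1_X2 : Commute X1 X2

/-- an inductive limit of finite dimensional Hilbert spaces -/
structure IsLim {H : Type} [NormedAddCommGroup H] [InnerProductSpace ℂ H] (J : ℕ → Type)
    [∀ k, Fintype (J k)] (V : ∀ k, Matrix (J (k + 1)) (J k) ℂ)
    (j : ∀ k, (J k → ℂ) →ₗ[ℂ] H) : Prop where
  inner : ∀ k v v', ⟪j k v, j k v'⟫_ℂ = star v ⬝ᵥ v'
  succ : ∀ k v, j (k + 1) (V k *ᵥ v) = j k v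
  dense : Dense (⋃ k, Set.range (j k))

/-- the limit representation of a sequence of stages -/
structure LimRep {H : Type} [NormedAddCommGroup H] [InnerProductSpace ℂ H] [CompleteSpace H]
    (S : ℕ → Stage) (β : ℕ → ℕ → Bool) (st : ∀ k, Step (S k) (S (k + 1)) (β k))
    (lam : ∀ k, Fn (S k).n (S k).I →⋆ₐ[ℂ] (H →L[ℂ] H)) : Prop where
  succ : ∀ k f, lam (k + 1) ((st k).ι f) = lam k f
  flip : ∃ U : H →L[ℂ] H, (∀ k a, Commute U (lam k (cst a))) ∧ ¬ Commute U (lam 0 (S 0).ℓ)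
  ker : ∀ k f, lam k f = 0 → (S k).rep false f = 0 ∧ (S k).rep true f = 0
  half : Dense {η : H | ∃ k₀, ∀ k, k₀ ≤ k → ∀ a w,
    ‖lam (k + 1) (cst ((st k).m w)) (lam k (cst a) η)‖ ^ 2 ≤ 2⁻¹ * ‖lam k (cst a) η‖ ^ 2}

end Pool.Agent.P.MP_5d580a_an.Ng
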