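import Pool.Agent.P.MP_5d580a_an.N.Ls

open scoped ComplexOrder InnerProductSpace ComplexConjugate
open Filter Topology

set_option linter.unusedSectionVars false
set_option linter.unusedVariables false
set_option linter.deprecated false

noncomputable section

namespace Pool.Agent.P.MP_5d580a_an.Ng

variable {D C : Type} [CStarAlgebra D] [CStarAlgebra C]
variable {H : Type} [NormedAddCommGroup H] [InnerProductSpace ℂ H] [CompleteSpace H]
variable {L : Type} [NormedAddCommGroup L] [InnerProductSpace ℂ L] [CompleteSpace L]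

namespace Tree

variable {T : Tower (H →L[ℂ] H)} {Γ : Set (Germ T)} (τ : Tree Γ)

theorem gen_GA (c : Node Γ) : (τ.ls c).genA ⊆ τ.GA c := by
  exact fun y hy => ⟨[], hy⟩

theorem gen_GB (c : Node Γ) : (τ.ls c).genB ⊆ τ.GB c := by
  exact fun y hy => ⟨[], hy⟩

theorem GB_cons (e : (ℕ → Bool) × Γ) (c : Node Γ) : τ.GB (e :: c) ⊆ τ.GB c := by
  rintro y ⟨l, hy⟩
  refine ⟨l ++ [e], ?_⟩
  rw [List.append_assoc, List.singleton_append]
  exact hy

theorem GB_cases {c : Node Γ} {y : H →L[ℂ] H} (hy : y ∈ τ.GB c) :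
    y ∈ (τ.ls c).genB ∨ ∃ e, y ∈ τ.GB (e :: c) := by
  obtain ⟨l, hy⟩ := hy
  rcases List.eq_nil_or_concat l with rfl | ⟨l', e, rfl⟩
  · exact Or.inl hy
  · refine Or.inr ⟨e, l', ?_⟩
    rw [List.concat_eq_append, List.append_assoc, List.singleton_append] at hy
    exact hy

theorem GA_star (c : Node Γ) : ∀ y ∈ τ.GA c, star y ∈ τ.GA c := by
  rintro y ⟨l, hy⟩
  exact ⟨l, (τ.ls _).genA_star y hy⟩

theorem GB_star (c : Node Γ) : ∀ y ∈ τ.GB c, star y ∈ τ.GB c := by
  rintro y ⟨l, hy⟩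
  exact ⟨l, (τ.ls _).genB_star y hy⟩

theorem GB_lg (c : Node Γ) : τ.GB c ⊆ τ.lg := by
  rintro y ⟨l, hy⟩
  refine StarSubalgebra.le_topologicalClosure _ (StarAlgebra.subset_adjoin ℂ _ ⟨l ++ c, ?_⟩)
  rw [List.append_nil]
  exact hy

theorem genB_lg (c : Node Γ) : (τ.ls c).genB ⊆ τ.lg := by
  exact fun y hy => τ.GB_lg c (τ.gen_GB c hy)

theorem genA_sm (c : Node Γ) :
    (StarAlgebra.adjoin ℂ (τ.ls c).genA).topologicalClosure ≤ τ.sm := by
  refine closure_le (StarSubalgebra.isClosed_topologicalClosure _) fun y hy => ?_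
  refine StarSubalgebra.le_topologicalClosure _ (StarAlgebra.subset_adjoin ℂ _ ⟨c, ?_⟩)
  rw [List.append_nil]
  exact hy

theorem adjB_lg (c : Node Γ) :
    (StarAlgebra.adjoin ℂ (τ.ls c).genB).topologicalClosure ≤ τ.lg := by
  exact closure_le (StarSubalgebra.isClosed_topologicalClosure _) (τ.genB_lg c)

theorem sm_le_lg : τ.sm ≤ τ.lg := by
  refine closure_le (StarSubalgebra.isClosed_topologicalClosure _) ?_
  rintro y ⟨l, hy⟩
  exact τ.genB_lg _ ((τ.ls _).genA_le hy)

theorem lg_closed : IsClosed (τ.lg : Set (H →L[ℂ] H)) := by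
  exact StarSubalgebra.isClosed_topologicalClosure _

theorem sm_closed : IsClosed (τ.sm : Set (H →L[ℂ] H)) := by
  exact StarSubalgebra.isClosed_topologicalClosure _

theorem commA {c : Node Γ} {z : H →L[ℂ] H} (hz : ∀ y ∈ (τ.ls c).genA, Commute z y) :
    ∀ y ∈ τ.GA c, Commute z y := by
  rintro y ⟨l, hy⟩
  induction l generalizing y with
  | nil => exact hz y hy
  | cons e l ih => exact (τ.child e (l ++ c)).commA ih y hy

theorem commB {c : Node Γ} {z : H →L[ℂ] H} (hz : ∀ y ∈ (τ.ls c).genB, Commute z y) :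
    ∀ y ∈ τ.GB c, Commute z y := by
  rintro y ⟨l, hy⟩
  induction l generalizing y with
  | nil => exact hz y hy
  | cons e l ih => exact (τ.child e (l ++ c)).commB ih y hy

theorem F_desc (l c : Node Γ) (i : ℕ) :
    (τ.ls c).F i * (τ.ls (l ++ c)).F i = (τ.ls (l ++ c)).F i := by
  induction l with
  | nil => exact ((τ.ls c).F_proj i).isIdempotentElem.eq
  | cons e l ih =>
    have h := (τ.child e (l ++ c)).F_le i
    show (τ.ls c).F i * (τ.ls (e :: (l ++ c))).F i = (τ.ls (e :: (l ++ c))).F i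
    rw [← h, ← mul_assoc, ih]

theorem cut_desc (e : (ℕ → Bool) × Γ) (c : Node Γ) :
    ∀ y ∈ τ.GB (e :: c), ∀ i,
      y * (1 - (τ.ls (e :: c)).F i) ∈ StarAlgebra.adjoin ℂ (τ.ls c).genB := by
  rintro y ⟨l, hy⟩ i
  have hQp : IsStarProjection (1 - (τ.ls (e :: c)).F i) := ((τ.ls (e :: c)).F_proj i).one_sub
  have hQm : 1 - (τ.ls (e :: c)).F i ∈ StarAlgebra.adjoin ℂ (τ.ls c).genB :=
    sub_mem (one_mem _) (StarAlgebra.adjoin_mono (τ.ls c).genA_le ((τ.child e c).F_mem i))
  induction l generalizing y with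
  | nil => exact (τ.child e c).cutB y hy i
  | cons e' l ih =>
    have hcomm : ∀ z ∈ StarAlgebra.adjoin ℂ (τ.ls (l ++ e :: c)).genB,
        Commute (1 - (τ.ls (e :: c)).F i) z := by
      intro z hz
      refine (Commute.one_left z).sub_left ?_
      exact commute_closure (τ.ls (l ++ e :: c)).genB_star
        (fun w hw => τ.commB ((τ.ls (e :: c)).F_comm i) w ⟨l, hw⟩) z
        (StarSubalgebra.le_topologicalClosure _ hz)
    have hmap : ∀ z ∈ StarAlgebra.adjoin ℂ (τ.ls (l ++ e :: c)).genB,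
        z * (1 - (τ.ls (e :: c)).F i) ∈ StarAlgebra.adjoin ℂ (τ.ls c).genB := by
      intro z hz
      induction hz using StarAlgebra.adjoin_induction with
      | mem w hw => exact ih w hw
      | algebraMap r => exact mul_mem (StarSubalgebra.algebraMap_mem _ r) hQm
      | add w w' hw hw' h1 h2 =>
        rw [add_mul]
        exact add_mem h1 h2
      | mul w w' hw hw' h1 h2 =>
        have h3 : w * w' * (1 - (τ.ls (e :: c)).F i) =
            w * (1 - (τ.ls (e :: c)).F i) * (w' * (1 - (τ.ls (e :: c)).F i)) := by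
          rw [mul_assoc w (1 - _), ← mul_assoc (1 - _) w', (hcomm w' hw').eq, mul_assoc w',
            hQp.isIdempotentElem.eq, mul_assoc]
        rw [h3]
        exact mul_mem h1 h2
      | star w hw h1 =>
        have h3 : star w * (1 - (τ.ls (e :: c)).F i) = star (w * (1 - (τ.ls (e :: c)).F i)) := by
          rw [← (hcomm w hw).eq, star_mul, hQp.isSelfAdjoint.star_eq]
        rw [h3]
        exact star_mem h1
    have h1 := hmap _ ((τ.child e' (l ++ e :: c)).cutB y hy i)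
    have h2 : (τ.ls (e :: c)).F i * (τ.ls (e' :: (l ++ e :: c))).F i =
        (τ.ls (e' :: (l ++ e :: c))).F i := τ.F_desc (e' :: l) (e :: c) i
    have h3 := congrArg star h2
    rw [star_mul, ((τ.ls (e :: c)).F_proj i).isSelfAdjoint.star_eq,
      ((τ.ls (e' :: (l ++ e :: c))).F_proj i).isSelfAdjoint.star_eq] at h3
    have h4 : (1 - (τ.ls (e' :: (l ++ e :: c))).F i) * (1 - (τ.ls (e :: c)).F i) =
        1 - (τ.ls (e :: c)).F i := by
      rw [sub_mul, one_mul, mul_sub, mul_one, h3, sub_self, sub_zero]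
    rw [mul_assoc, h4] at h1
    exact h1

/-- the small algebra is a proper subalgebra -/
theorem not_mem_sm (hw : Wit T) : T.ℓ ∈ τ.lg ∧ T.ℓ ∉ τ.sm := by
  constructor
  · exact τ.genB_lg [] (Or.inl ⟨0, T.ℓ, T.ℓ_mem, (τ.root_Φ 0 T.ℓ T.ℓ_mem).symm⟩)
  · intro h
    obtain ⟨V, hV, hn⟩ := hw.flip
    refine hn (commute_closure (τ.GA_star []) (τ.commA ?_) _ h)
    rintro y (⟨M, a, ha, rfl⟩ | ⟨q, rfl⟩)
    · rw [τ.root_Φ M a (T.A_le_B M ha)]
      exact hV M a ha
    · rw [τ.root_Ξ q]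
      exact Commute.zero_right V

end Tree

end Pool.Agent.P.MP_5d580a_an.Ng
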