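import Pool.Agent.P.MP_5d580a_an.N.Tr0

open scoped ComplexOrder InnerProductSpace ComplexConjugate
open Filter Topology

set_option linter.unusedSectionVars false
set_option linter.unusedVariables false
set_option linter.deprecated false

noncomputable section

namespace Pool.Agent.P.MP_5d580a_an.Ng

variable {D C : Type} [CStarAlgebra D] [CStarAlgebra C]
variable {H : Type} [NormedAddCommGroup H] [InnerProductSpace ℂ H] [CompleteSpace H]
variable {L : Type} [NormedAddCommGroup L] [InnerProductSpace ℂ L] [CompleteSpace L]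

namespace Tree

variable {T : Tower (H →L[ℂ] H)} {Γ : Set (Germ T)} (τ : Tree Γ)

variable {τ} {σ : (H →L[ℂ] H) →ₗ[ℂ] (L →L[ℂ] L)}

theorem Tr1_F_lg (c : Node Γ) (i : ℕ) : (τ.ls c).F i ∈ τ.lg :=
  τ.genB_lg c ((τ.ls c).genA_le ((τ.ls c).F_genA i))

theorem Tr1_mem {c : Node Γ} {η : L} :
    η ∈ τ.KK σ c ↔ ∀ i, σ ((τ.ls c).F i) η = η := mem_Fix

theorem Tr1_Φ_gen (c : Node Γ) (M : ℕ) {x : H →L[ℂ] H} (hx : x ∈ T.B M) :
    (τ.ls c).Φ M x ∈ (τ.ls c).genB := Or.inl ⟨M, x, hx, rfl⟩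

theorem KK_closed (c : Node Γ) : IsClosed (τ.KK σ c : Set L) := by
  exact isClosed_Fix _

theorem KK_root (hσ : τ.IsR σ) : τ.KK σ [] = ⊤ := by
  rw [eq_top_iff]
  intro η _
  rw [Tr1_mem]
  intro i
  have h : (τ.ls []).F i = 1 := τ.root_Φ i 1 (one_mem _)
  rw [h, hσ.one]
  rfl

theorem KK_inv (hσ : τ.IsR σ) (c : Node Γ) : Inv (σ '' τ.GB c) (τ.KK σ c) := by
  rintro _ ⟨y, hy, rfl⟩ η hη
  rw [Tr1_mem] at hη ⊢
  intro i
  have hc : Commute ((τ.ls c).F i) y := τ.commB ((τ.ls c).F_comm i) y hy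
  have hyl : y ∈ τ.lg := τ.GB_lg c hy
  have h1 : σ ((τ.ls c).F i) * σ y = σ y * σ ((τ.ls c).F i) :=
    hσ.hom.commute (Tr1_F_lg c i) hyl hc
  have h2 := congrArg (fun z : L →L[ℂ] L => z η) h1
  simp only [ContinuousLinearMap.mul_apply] at h2
  rw [h2, hη i]

theorem KK_cons (hσ : τ.IsR σ) (e : (ℕ → Bool) × Γ) (c : Node Γ) :
    τ.KK σ (e :: c) ≤ τ.KK σ c := by
  intro η hη
  rw [Tr1_mem] at hη ⊢
  intro i
  have h := (τ.child e c).F_le i
  have h1 : σ ((τ.ls c).F i) * σ ((τ.ls (e :: c)).F i) = σ ((τ.ls (e :: c)).F i) := by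
    rw [← hσ.hom.mul _ (Tr1_F_lg c i) _ (Tr1_F_lg (e :: c) i), h]
  have h2 := congrArg (fun z : L →L[ℂ] L => z η) h1
  simp only [ContinuousLinearMap.mul_apply] at h2
  rw [hη i] at h2
  exact h2

theorem F_lim (hσ : τ.IsR σ) (c : Node Γ) {P : L →L[ℂ] L} (hP : IsStarProjection P)
    (hF : Fix1 P = τ.KK σ c) (η : L) :
    Tendsto (fun i => σ ((τ.ls c).F i) η) atTop (𝓝 (P η)) := by
  refine dec_lim (q := fun i => σ ((τ.ls c).F i))
    (fun i => hσ.hom.proj (Tr1_F_lg c i) ((τ.ls c).F_proj i)) (fun i => ?_) hP hF η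
  show σ ((τ.ls c).F i) * σ ((τ.ls c).F (i + 1)) = σ ((τ.ls c).F (i + 1))
  rw [← hσ.hom.mul _ (Tr1_F_lg c i) _ (Tr1_F_lg c (i + 1)), (τ.ls c).F_succ i]

theorem exists_fib (hσ : τ.IsR σ) (c : Node Γ) : ∃ P π, τ.Fib σ c P π := by
  classical
  obtain ⟨P, hP, hF⟩ := exists_prj (τ.KK σ c) (KK_closed c)
  have hFP : ∀ i, σ ((τ.ls c).F i) * P = P := by
    intro i
    ext η
    have h : P η ∈ τ.KK σ c := hF ▸ prj_mem hP η
    exact (Tr1_mem.1 h) i
  have hle : ∀ M M', M ≤ M' → ∀ x ∈ T.B M,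
      σ ((τ.ls c).Φ M' x) * P = σ ((τ.ls c).Φ M x) * P := by
    intro M M' h x hx
    rw [((τ.ls c).Φ_le h hx).1,
      hσ.hom.mul _ (τ.genB_lg c (Tr1_Φ_gen c M hx)) _ (Tr1_F_lg c M'), mul_assoc, hFP]
  have hind : ∀ M M', ∀ x ∈ T.B M, x ∈ T.B M' →
      σ ((τ.ls c).Φ M' x) * P = σ ((τ.ls c).Φ M x) * P := by
    intro M M' x hx hx'
    rcases le_total M M' with h | h
    · exact hle M M' h x hx
    · exact (hle M' M h x hx').symm
  let U : Submodule ℂ (H →L[ℂ] H) :=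
    { carrier := {x | ∃ M, x ∈ T.B M}
      add_mem' := by
        rintro x y ⟨M, hx⟩ ⟨M', hy⟩
        exact ⟨max M M', add_mem (T.B_mono (le_max_left _ _) hx) (T.B_mono (le_max_right _ _) hy)⟩
      zero_mem' := ⟨0, zero_mem _⟩
      smul_mem' := by
        rintro a x ⟨M, hx⟩
        exact ⟨M, (T.B M).smul_mem hx a⟩ }
  have hU : ∀ x : U, ∃ M, (x : H →L[ℂ] H) ∈ T.B M := fun x => x.2
  choose lv hlv using hU
  let f : U →ₗ[ℂ] (L →L[ℂ] L) :=
    { toFun := fun x => σ ((τ.ls c).Φ (lv x) x) * P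
      map_add' := by
        intro x y
        have hx : (x : H →L[ℂ] H) ∈ T.B (max (lv x) (lv y)) := T.B_mono (le_max_left _ _) (hlv x)
        have hy : (y : H →L[ℂ] H) ∈ T.B (max (lv x) (lv y)) := T.B_mono (le_max_right _ _) (hlv y)
        have hxy : ((x + y : U) : H →L[ℂ] H) ∈ T.B (max (lv x) (lv y)) := add_mem hx hy
        rw [hind _ _ _ hxy (hlv (x + y)), hind _ _ _ hx (hlv x), hind _ _ _ hy (hlv y),
          Submodule.coe_add, map_add, map_add, add_mul]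
      map_smul' := by
        intro a x
        have hx : ((a • x : U) : H →L[ℂ] H) ∈ T.B (lv x) := (T.B (lv x)).smul_mem (hlv x) a
        rw [hind _ _ _ hx (hlv (a • x)), Submodule.coe_smul, map_smul, map_smul, smul_mul_assoc]
        rfl }
  obtain ⟨π, hπ⟩ := f.exists_extend
  have heq : ∀ M, ∀ x ∈ T.B M, π x = σ ((τ.ls c).Φ M x) * P := by
    intro M x hx
    have h1 : π x = f ⟨x, M, hx⟩ := by
      rw [← hπ]
      rfl
    rw [h1]
    exact hind _ _ _ hx (hlv ⟨x, M, hx⟩)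
  have hcomm : ∀ M, ∀ x ∈ T.B M, Commute P (σ ((τ.ls c).Φ M x)) := by
    intro M x hx
    have hy : (τ.ls c).Φ M x ∈ τ.GB c := τ.gen_GB c (Tr1_Φ_gen c M hx)
    refine (commute_prj hP ?_ ?_).symm
    · rw [hF]
      exact KK_inv hσ c _ ⟨_, hy, rfl⟩
    · rw [hF, ← hσ.hom.star _ (τ.GB_lg c hy)]
      exact KK_inv hσ c _ ⟨_, τ.GB_star c _ hy, rfl⟩
  refine ⟨P, π, hP, hF, fun M => ?_, ?_, heq⟩
  · have h0 : HomOn (T.B M) (σ.comp ((τ.ls c).Φ M)) :=
      hσ.hom.comp ((τ.ls c).hom M) fun x hx => τ.genB_lg c (Tr1_Φ_gen c M hx)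
    have h1 := h0.cut hP (hcomm M)
    have h2 : ∀ x ∈ T.B M,
        π x = ((LinearMap.mulRight ℂ P).comp (σ.comp ((τ.ls c).Φ M))) x := fun x hx => heq M x hx
    refine ⟨fun x hx y hy => ?_, fun x hx => ?_, fun x hx => ?_⟩
    · rw [h2 _ (mul_mem hx hy), h2 _ hx, h2 _ hy]
      exact h1.mul x hx y hy
    · rw [h2 _ (star_mem hx), h2 _ hx]
      exact h1.star x hx
    · rw [h2 _ hx]
      exact h1.norm_le x hx
  · rw [heq 0 1 (one_mem _)]
    exact hFP 0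

/-- invariance under all generators below a node -/
theorem inv_all (hσ : τ.IsR σ) {c : Node Γ} {W : Submodule ℂ L} (hW : IsClosed (W : Set L))
    (h0 : Inv (σ '' (τ.ls c).genB) W)
    (h1 : ∀ e, ∀ P : L →L[ℂ] L, IsStarProjection P → Fix1 P = τ.KK σ (e :: c) →
      ∀ y ∈ τ.GB (e :: c), ∀ η ∈ W, σ y (P η) ∈ W) : Inv (σ '' τ.GB c) W := by
  rintro _ ⟨y, hy, rfl⟩ η hη
  rcases τ.GB_cases hy with h | ⟨e, h⟩
  · exact h0 _ ⟨y, h, rfl⟩ η hη
  obtain ⟨P, hP, hF⟩ := exists_prj (τ.KK σ (e :: c)) (KK_closed (e :: c))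
  have hyl : y ∈ τ.lg := τ.GB_lg _ h
  have hin : ∀ i, σ y η - σ y (σ ((τ.ls (e :: c)).F i) η) ∈ W := by
    intro i
    have h2 := inv_closure τ.lg_closed (τ.genB_lg c) (τ.ls c).genB_star hσ.hom hσ.one hW h0
      (y * (1 - (τ.ls (e :: c)).F i))
      (StarSubalgebra.le_topologicalClosure _ (τ.cut_desc e c y h i)) η hη
    rw [mul_sub, mul_one, map_sub, hσ.hom.mul _ hyl _ (Tr1_F_lg (e :: c) i)] at h2
    exact h2
  have hlim : Tendsto (fun i => σ y η - σ y (σ ((τ.ls (e :: c)).F i) η)) atTop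
      (𝓝 (σ y η - σ y (P η))) :=
    tendsto_const_nhds.sub (((σ y).continuous.tendsto _).comp (F_lim hσ (e :: c) hP hF η))
  have h3 : σ y η - σ y (P η) ∈ W := hW.mem_of_tendsto hlim (Eventually.of_forall hin)
  have h4 := W.add_mem h3 (h1 e P hP hF y h η hη)
  rwa [sub_add_cancel] at h4

end Tree

end Pool.Agent.P.MP_5d580a_an.Ng
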