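import Pool.Agent.P.MP_5d580a_an.N.Tr1
import Pool.Agent.P.MP_5d580a_an.N.Ct
import Pool.Agent.P.MP_5d580a_an.N.Ov

open scoped ComplexOrder InnerProductSpace ComplexConjugate
open Filter Topology

set_option linter.unusedSectionVars false
set_option linter.unusedVariables false
set_option linter.deprecated false

noncomputable section

namespace Pool.Agent.P.MP_5d580a_an.Ng

variable {D C : Type} [CStarAlgebra D] [CStarAlgebra C]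
variable {H : Type} [NormedAddCommGroup H] [InnerProductSpace ℂ H] [CompleteSpace H]
variable {L : Type} [NormedAddCommGroup L] [InnerProductSpace ℂ L] [CompleteSpace L]

namespace Tree

variable {T : Tower (H →L[ℂ] H)} {Γ : Set (Germ T)} {τ : Tree Γ}
  {σ : (H →L[ℂ] H) →ₗ[ℂ] (L →L[ℂ] L)} {c : Node Γ} {P : L →L[ℂ] L}
  {π : (H →L[ℂ] H) →ₗ[ℂ] (L →L[ℂ] L)}

theorem Tr2_adjA_lg (τ : Tree Γ) (c : Node Γ) {y : H →L[ℂ] H}
    (hy : y ∈ StarAlgebra.adjoin ℂ (τ.ls c).genA) : y ∈ τ.lg :=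
  τ.sm_le_lg (τ.genA_sm c (StarSubalgebra.le_topologicalClosure _ hy))

theorem Tr2_adjB_lg (τ : Tree Γ) (c : Node Γ) {y : H →L[ℂ] H}
    (hy : y ∈ StarAlgebra.adjoin ℂ (τ.ls c).genB) : y ∈ τ.lg :=
  τ.adjB_lg c (StarSubalgebra.le_topologicalClosure _ hy)

theorem Tr2_cut_lg (τ : Tree Γ) (c : Node Γ) (x : ℕ → Bool) (M : ℕ) :
    (τ.ls c).cut x M ∈ τ.lg :=
  Tr2_adjA_lg τ c ((τ.ls c).cut_mem x M)

theorem Tr2_Φ_genB (τ : Tree Γ) (c : Node Γ) {M : ℕ} {y : H →L[ℂ] H} (hy : y ∈ T.B M) :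
    (τ.ls c).Φ M y ∈ (τ.ls c).genB :=
  Or.inl ⟨M, y, hy, rfl⟩

theorem Tr2_Ξ_genB (τ : Tree Γ) (c : Node Γ) (q : ℕ) : (τ.ls c).Ξ q ∈ (τ.ls c).genB :=
  Or.inr ⟨q, rfl⟩

theorem Tr2_F_genB (τ : Tree Γ) (c : Node Γ) (M : ℕ) : (τ.ls c).F M ∈ (τ.ls c).genB :=
  (τ.ls c).genA_le ((τ.ls c).F_genA M)

theorem Tr2_F_lg (τ : Tree Γ) (c : Node Γ) (M : ℕ) : (τ.ls c).F M ∈ τ.lg :=
  τ.genB_lg c (Tr2_F_genB τ c M)

theorem Tr2_mul_apply (hσ : τ.IsR σ) {y z : H →L[ℂ] H} (hy : y ∈ τ.lg) (hz : z ∈ τ.lg) (η : L) :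
    σ (y * z) η = σ y (σ z η) := by
  rw [hσ.hom.mul y hy z hz]
  rfl

theorem Tr2_mem_KK {η : L} : η ∈ τ.KK σ c ↔ ∀ i, σ ((τ.ls c).F i) η = η := mem_Fix

/-- a projection commuting with the generators of a node acts as `0` or `1` on an irreducible
fibre -/
theorem Tr2_dich (hσ : τ.IsR σ) (hi : τ.IrrAt σ c) {z : H →L[ℂ] H} (hz : z ∈ τ.lg)
    (hp : IsStarProjection z) (hc : ∀ y ∈ (τ.ls c).genB, Commute z y) :
    (∀ η ∈ τ.KK σ c, σ z η = η) ∨ (∀ η ∈ τ.KK σ c, σ z η = 0) := by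
  have hcG := τ.commB hc
  have hcl : IsClosed ((τ.KK σ c ⊓ Fix1 (σ z) : Submodule ℂ L) : Set L) := by
    rw [Submodule.coe_inf]
    exact (KK_closed c).inter (isClosed_Fix1 _)
  have hinv : Inv (σ '' τ.GB c) (τ.KK σ c ⊓ Fix1 (σ z)) := by
    rintro _ ⟨y, hy, rfl⟩ η ⟨h1, h2⟩
    refine ⟨KK_inv hσ c _ ⟨y, hy, rfl⟩ η h1, ?_⟩
    have h2' : σ z η = η := h2
    show σ z (σ y η) = σ y η
    rw [← Tr2_mul_apply hσ hz (τ.GB_lg c hy), (hcG y hy).eq,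
      Tr2_mul_apply hσ (τ.GB_lg c hy) hz, h2']
  rcases hi _ hcl inf_le_left hinv with h | h
  · right
    intro η hη
    have hm : σ z η ∈ τ.KK σ c ⊓ Fix1 (σ z) := by
      refine ⟨?_, ?_⟩
      · refine Tr2_mem_KK.2 fun i => ?_
        rw [← Tr2_mul_apply hσ (Tr2_F_lg τ c i) hz, ← (hc _ (Tr2_F_genB τ c i)).eq,
          Tr2_mul_apply hσ hz (Tr2_F_lg τ c i), Tr2_mem_KK.1 hη i]
      · show σ z (σ z η) = σ z η
        rw [← Tr2_mul_apply hσ hz hz, hp.isIdempotentElem.eq]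
    rw [h] at hm
    exact (Submodule.mem_bot ℂ).1 hm
  · left
    intro η hη
    have hm : η ∈ τ.KK σ c ⊓ Fix1 (σ z) := by rw [h]; exact hη
    exact hm.2

/-- the digits on a vector fixed by the cuts -/
theorem Tr2_digit (hσ : τ.IsR σ) {x : ℕ → Bool} {η : L}
    (h : ∀ M, σ ((τ.ls c).cut x M) η = η) (q : ℕ) :
    σ ((τ.ls c).Ξ q) η = if x q then η else 0 := by
  have h1 : σ ((τ.ls c).Ξ q) η = σ ((τ.ls c).Ξ q * (τ.ls c).cut x (q + 1)) η := by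
    rw [Tr2_mul_apply hσ (τ.genB_lg c (Tr2_Ξ_genB τ c q)) (Tr2_cut_lg τ c x _), h]
  rw [h1, (τ.ls c).cut_digit x (Nat.lt_succ_self q)]
  split_ifs
  · exact h _
  · simp

theorem Tr2_Φ_apply (hf : τ.Fib σ c P π) {M : ℕ} {y : H →L[ℂ] H} (hy : y ∈ T.B M) {η : L}
    (hη : η ∈ τ.KK σ c) : σ ((τ.ls c).Φ M y) η = π y η := by
  have hP : P η = η := by
    rw [← hf.fix] at hη
    exact hη
  rw [hf.eq M y hy, ContinuousLinearMap.mul_apply, hP]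

/-- the digits are scalars on an irreducible fibre -/
theorem exists_point (hσ : τ.IsR σ) (hi : τ.IrrAt σ c) :
    ∃ x : ℕ → Bool, ∀ M, ∀ η ∈ τ.KK σ c, σ ((τ.ls c).cut x M) η = η := by
  classical
  refine ⟨fun q => decide (∀ η ∈ τ.KK σ c, σ ((τ.ls c).Ξ q) η = η), fun M => ?_⟩
  induction M with
  | zero =>
    intro η _
    show σ 1 η = η
    rw [hσ.one]
    rfl
  | succ M ih =>
    intro η hη
    have hΞ : (τ.ls c).Ξ M ∈ τ.lg := τ.genB_lg c (Tr2_Ξ_genB τ c M)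
    rw [LS.cut]
    split_ifs with hx
    · rw [Tr2_mul_apply hσ (Tr2_cut_lg τ c _ M) hΞ, of_decide_eq_true hx η hη]
      exact ih η hη
    · have h0 : ∀ η ∈ τ.KK σ c, σ ((τ.ls c).Ξ M) η = 0 := by
        rcases Tr2_dich hσ hi hΞ ((τ.ls c).Ξ_proj M) ((τ.ls c).Ξ_gen M) with h | h
        · exact absurd (decide_eq_true h) hx
        · exact h
      rw [Tr2_mul_apply hσ (Tr2_cut_lg τ c _ M) (sub_mem (one_mem _) hΞ), map_sub, hσ.one,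
        ContinuousLinearMap.sub_apply, h0 η hη, sub_zero]
      exact ih η hη

theorem point_of_active (hσ : τ.IsR σ) (hi : τ.IrrAt σ c) {e : (ℕ → Bool) × Γ}
    (ha : τ.KK σ (e :: c) ≠ ⊥) : ∀ M, ∀ η ∈ τ.KK σ c, σ ((τ.ls c).cut e.1 M) η = η := by
  intro M
  rcases Tr2_dich hσ hi (Tr2_cut_lg τ c e.1 M) ((τ.ls c).cut_proj e.1 M)
    ((τ.ls c).cut_comm e.1 M) with h | h
  · exact h
  · exfalso
    apply ha
    rw [Submodule.eq_bot_iff]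
    intro η hη
    have hle : M ≤ e.2.1.N M + 1 := (e.2.1.mono.le_apply (x := M)).trans (Nat.le_succ _)
    have hg : e.2.1.g M ∈ T.B (e.2.1.N M + 1) := T.AB (Nat.le_succ _) (e.2.1.g_mem M)
    have hF : (τ.ls c).cut e.1 M * (τ.ls (e :: c)).F M = (τ.ls (e :: c)).F M := by
      rw [(τ.child e c).F M, LS.Ψ_apply, ← mul_assoc,
        ((τ.ls c).cut_comm e.1 M _ (Tr2_Φ_genB τ c hg)).eq, mul_assoc, (τ.ls c).cut_le e.1 hle]
    have h1 := h η (KK_cons hσ e c hη)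
    have h2 : σ ((τ.ls (e :: c)).F M) η = η := Tr2_mem_KK.1 hη M
    rw [← h2, ← Tr2_mul_apply hσ (Tr2_cut_lg τ c e.1 M) (Tr2_F_lg τ (e :: c) M), hF, h2] at h1
    exact h1

theorem point_unique (hσ : τ.IsR σ) {x x' : ℕ → Bool} {η : L} (h0 : η ≠ 0)
    (h : ∀ M, σ ((τ.ls c).cut x M) η = η) (h' : ∀ M, σ ((τ.ls c).cut x' M) η = η) : x = x' := by
  funext q
  have h1 := Tr2_digit hσ h q
  have h2 := Tr2_digit hσ h' q
  rw [h1] at h2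
  cases hq : x q <;> cases hq' : x' q <;> simp_all

theorem Fib.Ψ (hσ : τ.IsR σ) (hf : τ.Fib σ c P π) {x : ℕ → Bool}
    (hx : ∀ M, ∀ η ∈ τ.KK σ c, σ ((τ.ls c).cut x M) η = η) {M : ℕ} {y : H →L[ℂ] H}
    (hy : y ∈ T.B M) {η : L} (hη : η ∈ τ.KK σ c) : σ ((τ.ls c).Ψ x M y) η = π y η := by
  rw [LS.Ψ_apply, Tr2_mul_apply hσ (τ.genB_lg c (Tr2_Φ_genB τ c hy)) (Tr2_cut_lg τ c x M),
    hx M η hη, Tr2_Φ_apply hf hy hη]

theorem Fib.KK (hσ : τ.IsR σ) (hf : τ.Fib σ c P π) {e : (ℕ → Bool) × Γ}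
    (hx : ∀ M, ∀ η ∈ τ.KK σ c, σ ((τ.ls c).cut e.1 M) η = η) :
    τ.KK σ (e :: c) = Fix fun i => π (e.2.1.g i) := by
  have hg : ∀ i, e.2.1.g i ∈ T.B (e.2.1.N i + 1) := fun i =>
    T.AB (Nat.le_succ _) (e.2.1.g_mem i)
  ext η
  rw [Tr2_mem_KK, mem_Fix]
  constructor
  · intro h i
    have hη : η ∈ τ.KK σ c := KK_cons hσ e c (Tr2_mem_KK.2 h)
    have h1 := h i
    rw [(τ.child e c).F i, Fib.Ψ hσ hf hx (hg i) hη] at h1
    exact h1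
  · intro h i
    have hη : η ∈ τ.KK σ c := by
      rw [← hf.fix, mem_Fix1, ← hf.one]
      have h1 : π 1 (π (e.2.1.g 0) η) = π (e.2.1.g 0) η := by
        rw [← ContinuousLinearMap.mul_apply, (hf.rep _).one_mul (hg 0)]
      rw [h 0] at h1
      exact h1
    rw [(τ.child e c).F i, Fib.Ψ hσ hf hx (hg i) hη]
    exact h i

/-- invariance under the generators of the node itself -/
theorem Fib.inv_gen (hσ : τ.IsR σ) (hf : τ.Fib σ c P π) {x : ℕ → Bool}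
    (hx : ∀ M, ∀ η ∈ τ.KK σ c, σ ((τ.ls c).cut x M) η = η) {W : Submodule ℂ L}
    (hW : W ≤ τ.KK σ c) (hi : Inv (opsB T π) W) : Inv (σ '' (τ.ls c).genB) W := by
  rintro _ ⟨y, hy, rfl⟩ η hη
  rcases hy with ⟨M, z, hz, rfl⟩ | ⟨q, rfl⟩
  · rw [Tr2_Φ_apply hf hz (hW hη)]
    exact hi _ ⟨M, z, hz, rfl⟩ η hη
  · rw [Tr2_digit hσ (fun M => hx M η (hW hη)) q]
    split_ifs
    · exact hη
    · exact W.zero_mem

/-- the path symmetries on the fibre of a child -/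
theorem Fib.rel (hσ : τ.IsR σ) (hf : τ.Fib σ c P π) {e : (ℕ → Bool) × Γ}
    (hx : ∀ M, ∀ η ∈ τ.KK σ c, σ ((τ.ls c).cut e.1 M) η = η) {R : H →L[ℂ] H} (hR : R ∈ τ.lg)
    (hr : ∀ i, ‖R * (τ.ls (e :: c)).F i - (τ.ls c).Ψ e.1 (e.2.1.N i + 1) (e.2.1.r i)‖ ≤
      2 * (1 / 2 : ℝ) ^ i) (i : ℕ) {η : L} (hη : η ∈ τ.KK σ (e :: c)) :
    ‖π (T.s (e.2.1.N i) (e.2.1.ω (e.2.1.N i))) η - π (e.2.1.u i) (σ R η)‖ ≤
      2 * (1 / 2 : ℝ) ^ i * ‖η‖ := by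
  have hηc : η ∈ τ.KK σ c := KK_cons hσ e c hη
  have hgη : π (e.2.1.g i) η = η := by
    have h1 := hη
    rw [Fib.KK hσ hf hx, mem_Fix] at h1
    exact h1 i
  have hs : T.s (e.2.1.N i) (e.2.1.ω (e.2.1.N i)) ∈ T.B (e.2.1.N i) :=
    sub_mem ((T.B _).smul_mem (T.t_mem _ _) _) (one_mem _)
  have hg : e.2.1.g i ∈ T.B (e.2.1.N i) := T.A_le_B _ (e.2.1.g_mem i)
  have hu : e.2.1.u i ∈ T.B (e.2.1.N i) := T.A_le_B _ (e.2.1.u_mem i)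
  have hrB : e.2.1.r i ∈ T.B (e.2.1.N i + 1) := T.B_mono (Nat.le_succ _) (e.2.1.r_mem i)
  have hΨ : (τ.ls c).Ψ e.1 (e.2.1.N i + 1) (e.2.1.r i) ∈ τ.lg :=
    Tr2_adjB_lg τ c ((τ.ls c).Ψ_B e.1 _ hrB)
  have hRF : R * (τ.ls (e :: c)).F i ∈ τ.lg := mul_mem hR (Tr2_F_lg τ (e :: c) i)
  have h1 : π (T.s (e.2.1.N i) (e.2.1.ω (e.2.1.N i))) η =
      π (e.2.1.u i) (σ ((τ.ls c).Ψ e.1 (e.2.1.N i + 1) (e.2.1.r i)) η) := by
    rw [Fib.Ψ hσ hf hx hrB hηc, ← hf.rep.mul_apply hu (e.2.1.r_mem i), ← e.2.1.s_g i,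
      hf.rep.mul_apply hs hg, hgη]
  have h2 : σ R η = σ (R * (τ.ls (e :: c)).F i) η := by
    rw [Tr2_mul_apply hσ hR (Tr2_F_lg τ (e :: c) i), Tr2_mem_KK.1 hη i]
  rw [h1, h2, ← map_sub, ← ContinuousLinearMap.sub_apply, ← map_sub]
  have h3 : ‖σ ((τ.ls c).Ψ e.1 (e.2.1.N i + 1) (e.2.1.r i) - R * (τ.ls (e :: c)).F i)‖ ≤
      2 * (1 / 2 : ℝ) ^ i := by
    refine (hσ.hom.norm_le _ (sub_mem hΨ hRF)).trans ?_
    rw [norm_sub_rev]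
    exact hr i
  refine (hf.rep.apply_le hu _).trans ?_
  calc ‖e.2.1.u i‖ * ‖σ ((τ.ls c).Ψ e.1 (e.2.1.N i + 1) (e.2.1.r i) -
        R * (τ.ls (e :: c)).F i) η‖
      ≤ 1 * (2 * (1 / 2 : ℝ) ^ i * ‖η‖) := by
        refine mul_le_mul (e.2.1.u_norm i) ?_ (norm_nonneg _) zero_le_one
        exact (ContinuousLinearMap.le_opNorm _ _).trans
          (mul_le_mul_of_nonneg_right h3 (norm_nonneg _))
    _ = 2 * (1 / 2 : ℝ) ^ i * ‖η‖ := one_mul _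

/-- without active children the fibre representation is irreducible -/
theorem Fib.irr (hσ : τ.IsR σ) (hf : τ.Fib σ c P π) (hi : τ.IrrAt σ c)
    (hn : ∀ e, τ.KK σ (e :: c) = ⊥) : Irr (opsB T π) (Fix1 (π 1)) := by
  rw [hf.one, hf.fix]
  intro W hW hle hinv
  obtain ⟨x, hx⟩ := exists_point hσ hi
  refine hi W hW hle (inv_all hσ hW (Fib.inv_gen hσ hf hx hle hinv) ?_)
  intro e P' hP' hF y _ η _
  have h1 : P' η ∈ Fix1 P' := prj_mem hP' η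
  rw [hF, hn e] at h1
  rw [(Submodule.mem_bot ℂ).1 h1, map_zero]
  exact W.zero_mem

end Tree

end Pool.Agent.P.MP_5d580a_an.Ng
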