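import Pool.Agent.P.MP_5d580a_an.N.Tr2

open scoped ComplexOrder InnerProductSpace ComplexConjugate
open Filter Topology

set_option linter.unusedSectionVars false
set_option linter.unusedVariables false
set_option linter.deprecated false

noncomputable section

namespace Pool.Agent.P.MP_5d580a_an.Ng

variable {D C : Type} [CStarAlgebra D] [CStarAlgebra C]
variable {H : Type} [NormedAddCommGroup H] [InnerProductSpace ℂ H] [CompleteSpace H]
variable {L : Type} [NormedAddCommGroup L] [InnerProductSpace ℂ L] [CompleteSpace L]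

namespace Tree

variable {T : Tower (H →L[ℂ] H)} {Γ : Set (Germ T)} {τ : Tree Γ}
  {σ : (H →L[ℂ] H) →ₗ[ℂ] (L →L[ℂ] L)} {c : Node Γ} {P : L →L[ℂ] L}
  {π : (H →L[ℂ] H) →ₗ[ℂ] (L →L[ℂ] L)}

theorem Tr3_mem (hf : τ.Fib σ c P π) {n : ℕ} {x : H →L[ℂ] H} (hx : x ∈ T.B n) (η : L) :
    π x η ∈ τ.KK σ c := by
  rw [← hf.fix, mem_Fix1, ← hf.one, ← hf.rep.mul_apply (one_mem (T.B n)) hx, one_mul]

theorem Tr3_one (hf : τ.Fib σ c P π) {η : L} (hη : η ∈ τ.KK σ c) : π 1 η = η := by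
  rw [← hf.fix, mem_Fix1] at hη
  rw [hf.one, hη]

theorem Tr3_atom (hf : τ.Fib σ c P π) (γ : Germ T) {η : L} (hη : ∀ i, π (γ.g i) η = η) :
    η ∈ atom T π γ.ω (γ.N 0) := by
  rw [atom, mem_Fix]
  intro k
  have hk : γ.N 0 + k < γ.N (γ.N 0 + k + 1) :=
    lt_of_lt_of_le (Nat.lt_succ_self _) (γ.mono.le_apply)
  have e := γ.g_m (γ.N 0 + k + 1) (γ.N 0 + k) (Nat.le_add_right _ _) hk
  have h1 := hf.rep.mul_apply (T.A_le_B _ (T.m_mem (γ.N 0 + k) (γ.ω (γ.N 0 + k + 1))))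
    (T.A_le_B _ (γ.g_mem (γ.N 0 + k + 1))) η
  rw [e, hη] at h1
  exact h1.symm

/-- the operator of the relation preserves invariant subspaces of the fibre of the child -/
theorem Tr3_rel (hσ : τ.IsR σ) {e : (ℕ → Bool) × Γ} {W : Submodule ℂ L}
    (hW : IsClosed (W : Set L)) (hinv : Inv (σ '' τ.GB (e :: c)) W) :
    ∃ R ∈ τ.lg, (∀ η ∈ W, σ R η ∈ W) ∧
      ∀ i, ‖R * (τ.ls (e :: c)).F i - (τ.ls c).Ψ e.1 (e.2.1.N i + 1) (e.2.1.r i)‖ ≤
        2 * (1 / 2 : ℝ) ^ i := by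
  obtain ⟨α, hα, β, hβ, -, hr⟩ := (τ.child e c).rel
  have hAB : (τ.ls (e :: c)).genA ⊆ τ.GB (e :: c) :=
    (τ.ls (e :: c)).genA_le.trans (τ.gen_GB (e :: c))
  have hl : (τ.ls (e :: c)).Φ 0 T.ℓ ∈ τ.GB (e :: c) :=
    τ.gen_GB (e :: c) (Or.inl ⟨0, T.ℓ, T.ℓ_mem, rfl⟩)
  have hcl := inv_closure τ.lg_closed (hAB.trans (τ.GB_lg (e :: c))) (τ.ls (e :: c)).genA_star
    hσ.hom hσ.one hW (fun x hx => hinv x (Set.image_mono hAB hx))
  have hαl : α ∈ τ.lg := τ.sm_le_lg (τ.genA_sm (e :: c) hα)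
  have hβl : β ∈ τ.lg := τ.sm_le_lg (τ.genA_sm (e :: c) hβ)
  have hll := τ.GB_lg (e :: c) hl
  refine ⟨α + β * (τ.ls (e :: c)).Φ 0 T.ℓ, add_mem hαl (mul_mem hβl hll), fun η hη => ?_, hr⟩
  rw [map_add, hσ.hom.mul β hβl _ hll]
  exact W.add_mem (hcl α hα η hη) (hcl β hβ _ (hinv _ ⟨_, hl, rfl⟩ η hη))

/-- the twist preserves invariant subspaces of the fibre of the child -/
theorem Tr3_tw (hσ : τ.IsR σ) (hf : τ.Fib σ c P π) {e : (ℕ → Bool) × Γ}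
    (hx : ∀ M, ∀ η ∈ τ.KK σ c, σ ((τ.ls c).cut e.1 M) η = η) {W : Submodule ℂ L}
    (hle : W ≤ τ.KK σ (e :: c)) (hinv : Inv (σ '' τ.GB (e :: c)) W) {η : L} (hη : η ∈ W) :
    π e.2.1.w η ∈ W := by
  have hg : ∀ i, π (e.2.1.g i) η = η := by
    have := hle hη
    rwa [hf.KK hσ hx, mem_Fix] at this
  have hw : e.2.1.w ∈ T.B (e.2.1.N 0 + 1) := T.AB (Nat.le_succ _) e.2.1.w_mem
  have hg0 : e.2.1.g 0 ∈ T.B (e.2.1.N 0 + 1) := T.AB (Nat.le_succ _) (e.2.1.g_mem 0)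
  have h1 : π e.2.1.w η = σ ((τ.ls (e :: c)).Φ 0 e.2.1.W) η := by
    rw [(τ.child e c).tw, hf.Ψ hσ hx (mul_mem hw hg0) (KK_cons hσ e c (hle hη)),
      hf.rep.mul_apply hw hg0, hg]
  rw [h1]
  exact hinv _ ⟨_, τ.gen_GB (e :: c) (Or.inl ⟨0, _, T.A_le_B 0 e.2.1.W_mem, rfl⟩), rfl⟩ η hη

/-- compression of the orbit to the fibre of the child -/
theorem Tr3_comp (hσ : τ.IsR σ) (hf : τ.Fib σ c P π) {e : (ℕ → Bool) × Γ}
    (hx : ∀ M, ∀ η ∈ τ.KK σ c, σ ((τ.ls c).cut e.1 M) η = η) {W : Submodule ℂ L}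
    (hW : IsClosed (W : Set L)) (hle : W ≤ τ.KK σ (e :: c))
    (hinv : Inv (σ '' τ.GB (e :: c)) W) {Q : L →L[ℂ] L} (hQ : IsStarProjection Q)
    (hF : Fix1 Q = τ.KK σ (e :: c)) : ∀ ζ ∈ orb (opsA T π) W, Q ζ ∈ W := by
  refine orb_map hW Q ?_
  rintro _ ⟨n, a, ha, rfl⟩ η hη
  have hK := hf.KK hσ hx
  have hg : ∀ i, π (e.2.1.g i) η = η := by
    have := hle hη
    rwa [hK, mem_Fix] at this
  have hgB : ∀ i, e.2.1.g i ∈ T.B (e.2.1.N i) := fun i => T.A_le_B _ (e.2.1.g_mem i)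
  have hQg : ∀ i ζ, Q (π (e.2.1.g i) ζ) = Q ζ := by
    intro i ζ
    have h1 : π (e.2.1.g i) * Q = Q := by
      ext ξ
      have := prj_mem hQ ξ
      rw [hF, hK, mem_Fix] at this
      exact this i
    have h2 := congrArg star h1
    rw [star_mul, hQ.isSelfAdjoint.star_eq,
      ((hf.rep _).sa (hgB i) (e.2.1.g_proj i).isSelfAdjoint).star_eq] at h2
    exact congrArg (fun y : L →L[ℂ] L => y ζ) h2
  have hwB : e.2.1.w ∈ T.B (e.2.1.N 0) := T.A_le_B _ e.2.1.w_mem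
  have hcl : Q (π a η) ∈ closure (W : Set L) := by
    rw [Metric.mem_closure_iff]
    intro ε hε
    have hε' : 0 < ε / (2 * (‖η‖ + 1)) := by positivity
    obtain ⟨i, z, z', hi⟩ := e.2.1.exc n a ha _ hε'
    have hζ : z • η + z' • π e.2.1.w η ∈ W :=
      W.add_mem (W.smul_mem z hη) (W.smul_mem z' (Tr3_tw hσ hf hx hle hinv hη))
    refine ⟨_, hζ, ?_⟩
    set m := max (max n (e.2.1.N i)) (e.2.1.N 0) with hm
    have ham : a ∈ T.B m := T.AB ((le_max_left _ _).trans (le_max_left _ _)) ha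
    have hgm : e.2.1.g i ∈ T.B m :=
      T.AB ((le_max_right _ _).trans (le_max_left _ _)) (e.2.1.g_mem i)
    have hwm : e.2.1.w ∈ T.B m := T.AB (le_max_right _ _) e.2.1.w_mem
    have hz : z • (1 : H →L[ℂ] H) + z' • e.2.1.w ∈ T.B m :=
      add_mem (SMulMemClass.smul_mem z (one_mem _)) (SMulMemClass.smul_mem z' hwm)
    have hy : e.2.1.g i * a * e.2.1.g i - (z • (1 : H →L[ℂ] H) + z' • e.2.1.w) * e.2.1.g i ∈
        T.B m := sub_mem (mul_mem (mul_mem hgm ham) hgm) (mul_mem hz hgm)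
    have hQζ : Q (z • η + z' • π e.2.1.w η) = z • η + z' • π e.2.1.w η := by
      have := hle hζ
      rwa [← hF, mem_Fix1] at this
    have e1 : Q (π a η) - (z • η + z' • π e.2.1.w η) =
        Q (π (e.2.1.g i * a * e.2.1.g i -
          (z • (1 : H →L[ℂ] H) + z' • e.2.1.w) * e.2.1.g i) η) := by
      rw [map_sub, ContinuousLinearMap.sub_apply, map_sub,
        hf.rep.mul_apply (mul_mem hgm ham) hgm, hf.rep.mul_apply hgm ham, hQg,
        hf.rep.mul_apply hz hgm, hg, map_add, map_smul, map_smul, ContinuousLinearMap.add_apply,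
        ContinuousLinearMap.smul_apply, ContinuousLinearMap.smul_apply,
        Tr3_one hf (KK_cons hσ e c (hle hη)), hQζ]
    rw [dist_eq_norm, e1]
    have h3 := hf.rep.apply_le hy η
    have h4 : ‖Q‖ ≤ 1 := hQ.norm_le
    have h5 := Q.le_opNorm (π (e.2.1.g i * a * e.2.1.g i -
          (z • (1 : H →L[ℂ] H) + z' • e.2.1.w) * e.2.1.g i) η)
    have h6 : ε / (2 * (‖η‖ + 1)) * ‖η‖ < ε := by
      rw [div_mul_eq_mul_div, div_lt_iff₀ (by positivity)]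
      nlinarith [norm_nonneg η]
    have h7 := mul_le_mul_of_nonneg_right hi (norm_nonneg η)
    have h8 := mul_le_of_le_one_left (norm_nonneg (π (e.2.1.g i * a * e.2.1.g i -
          (z • (1 : H →L[ℂ] H) + z' • e.2.1.w) * e.2.1.g i) η)) h4
    linarith
  rwa [hW.closure_eq] at hcl

/-- other children do not see the orbit -/
theorem Tr3_other (hΓ : MaxFam Γ) (hσ : τ.IsR σ) (hf : τ.Fib σ c P π) (hi : τ.IrrAt σ c)
    {e e' : (ℕ → Bool) × Γ} (hee : e' ≠ e) {W : Submodule ℂ L} (hle : W ≤ τ.KK σ (e :: c))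
    (hne : W ≠ ⊥) {Q : L →L[ℂ] L} (hQ : IsStarProjection Q)
    (hF : Fix1 Q = τ.KK σ (e' :: c)) : ∀ ζ ∈ orb (opsA T π) W, Q ζ = 0 := by
  by_cases hb : τ.KK σ (e' :: c) = ⊥
  · intro ζ _
    have := prj_mem hQ ζ
    rwa [hF, hb, Submodule.mem_bot] at this
  have ha : τ.KK σ (e :: c) ≠ ⊥ := fun h => hne (le_bot_iff.mp (h ▸ hle))
  have hx := point_of_active hσ hi ha
  have hx' := point_of_active hσ hi hb
  obtain ⟨η₀, hη₀, h0⟩ := Submodule.exists_mem_ne_zero_of_ne_bot hne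
  have hK₀ := KK_cons hσ e c (hle hη₀)
  have h1 : e.1 = e'.1 := point_unique hσ h0 (fun M => hx M η₀ hK₀) fun M => hx' M η₀ hK₀
  have h2 : e.2.1 ≠ e'.2.1 := fun h => hee (Prod.ext h1.symm (Subtype.ext h.symm))
  have hno := hΓ.disj _ e.2.2 _ e'.2.2 h2
  have key := orb_map (𝒮 := opsA T π) (W := W) (W' := (⊥ : Submodule ℂ L))
    (by simp) Q (by
      rintro _ ⟨n, a, ha', rfl⟩ η hη
      rw [Submodule.mem_bot]
      refine prj_orth hQ fun ζ hζ => ?_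
      rw [hF, hf.KK hσ hx', mem_Fix] at hζ
      have hg := hle hη
      rw [hf.KK hσ hx, mem_Fix] at hg
      exact orth_of_not_overlap hf.rep hno hg hζ ha')
  intro ζ hζ
  exact (Submodule.mem_bot ℂ).mp (key ζ hζ)

/-- the orbit of an invariant subspace of the fibre of a child -/
theorem Fib.orb_child (hΓ : MaxFam Γ) (hσ : τ.IsR σ) (hf : τ.Fib σ c P π) (hi : τ.IrrAt σ c)
    {e : (ℕ → Bool) × Γ} {W : Submodule ℂ L} (hW : IsClosed (W : Set L))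
    (hle : W ≤ τ.KK σ (e :: c)) (hinv : Inv (σ '' τ.GB (e :: c)) W) (hne : W ≠ ⊥) :
    orb (opsA T π) W = τ.KK σ c ∧ W = τ.KK σ (e :: c) := by
  have ha : τ.KK σ (e :: c) ≠ ⊥ := fun h => hne (le_bot_iff.mp (h ▸ hle))
  have hx := point_of_active hσ hi ha
  have hK := hf.KK hσ hx
  have hOK : orb (opsA T π) W ≤ τ.KK σ c := by
    refine orb_le (KK_closed c) ?_
    rintro _ ⟨n, a, ha', rfl⟩ η _
    exact Tr3_mem hf (T.A_le_B n ha') η
  have hWO : W ≤ orb (opsA T π) W := by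
    intro η hη
    have := mem_orb (𝒮 := opsA T π) (x := π 1) ⟨0, 1, one_mem _, rfl⟩ hη
    rwa [Tr3_one hf (KK_cons hσ e c (hle hη))] at this
  have hat : W ≤ atom T π e.2.1.ω (e.2.1.N 0) := by
    intro η hη
    have := hle hη
    rw [hK, mem_Fix] at this
    exact Tr3_atom hf e.2.1 this
  obtain ⟨R, hR, hRW, hr⟩ := Tr3_rel hσ hW hinv
  have hB : Inv (opsB T π) (orb (opsA T π) W) := by
    refine orb_inv hf.rep e.2.1.path e.2.1.mono hat fun η hη ε hε => ?_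
    have ht : Tendsto (fun i : ℕ => 2 * (1 / 2 : ℝ) ^ i * ‖η‖) atTop (𝓝 (2 * 0 * ‖η‖)) :=
      ((tendsto_pow_atTop_nhds_zero_of_lt_one (by norm_num) (by norm_num)).const_mul 2).mul_const _
    rw [mul_zero, zero_mul] at ht
    filter_upwards [ht.eventually (ge_mem_nhds hε)] with i hi'
    exact ⟨e.2.1.u i, e.2.1.u_mem i, σ R η, hRW η hη, (hf.rel hσ hx hR hr i (hle hη)).trans hi'⟩
  have hall : Inv (σ '' τ.GB c) (orb (opsA T π) W) := by
    refine inv_all hσ (isClosed_orb _ _) (hf.inv_gen hσ hx hOK hB) fun e' Q hQ hF y hy ζ hζ => ?_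
    by_cases hee : e' = e
    · subst hee
      exact hWO (hinv _ ⟨y, hy, rfl⟩ _ (Tr3_comp hσ hf hx hW hle hinv hQ hF ζ hζ))
    · rw [Tr3_other hΓ hσ hf hi hee hle hne hQ hF ζ hζ, map_zero]
      exact Submodule.zero_mem _
  have hO : orb (opsA T π) W = τ.KK σ c := by
    rcases hi _ (isClosed_orb _ _) hOK hall with h | h
    · exact absurd (le_bot_iff.mp (h ▸ hWO)) hne
    · exact h
  refine ⟨hO, le_antisymm hle fun η hη => ?_⟩
  obtain ⟨Q, hQ, hF⟩ := exists_prj (τ.KK σ (e :: c)) (KK_closed (e :: c))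
  have h1 := Tr3_comp hσ hf hx hW hle hinv hQ hF η (hO ▸ KK_cons hσ e c hη)
  rw [← hF, mem_Fix1] at hη
  rwa [hη] at h1

theorem irrAt_cons (hΓ : MaxFam Γ) (hσ : τ.IsR σ) (hi : τ.IrrAt σ c) (e : (ℕ → Bool) × Γ) :
    τ.IrrAt σ (e :: c) := by
  intro W hW hle hinv
  by_cases hne : W = ⊥
  · exact Or.inl hne
  · obtain ⟨P, π, hf⟩ := exists_fib hσ c
    exact Or.inr (hf.orb_child hΓ hσ hi hW hle hinv hne).2

theorem irrAt_all (hΓ : MaxFam Γ) (hσ : τ.IsR σ) (hi : τ.IrrAt σ []) (c : Node Γ) :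
    τ.IrrAt σ c := by
  induction c with
  | nil => exact hi
  | cons e c ih => exact irrAt_cons hΓ hσ ih e

theorem Fib.span (hΓ : MaxFam Γ) (hσ : τ.IsR σ) (hf : τ.Fib σ c P π) (hi : τ.IrrAt σ c)
    {e : (ℕ → Bool) × Γ} (ha : τ.KK σ (e :: c) ≠ ⊥) :
    Fix1 (π 1) ≤ orb (opsA T π) (Fix fun i => π (e.2.1.g i)) := by
  have h := (hf.orb_child hΓ hσ hi (KK_closed (e :: c)) le_rfl (KK_inv hσ (e :: c)) ha).1
  rw [hf.KK hσ (point_of_active hσ hi ha)] at h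
  rw [h, hf.one, hf.fix]

end Tree

end Pool.Agent.P.MP_5d580a_an.Ng
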