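import Pool.Agent.P.MP_5d580a_an.N.Tr3
import Pool.Agent.P.MP_5d580a_an.N.Di

open scoped ComplexOrder InnerProductSpace ComplexConjugate
open Filter Topology

set_option linter.unusedSectionVars false
set_option linter.unusedVariables false
set_option linter.deprecated false

noncomputable section

namespace Pool.Agent.P.MP_5d580a_an.Ng

variable {D C : Type} [CStarAlgebra D] [CStarAlgebra C]
variable {H : Type} [NormedAddCommGroup H] [InnerProductSpace ℂ H] [CompleteSpace H]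
variable {L : Type} [NormedAddCommGroup L] [InnerProductSpace ℂ L] [CompleteSpace L]

namespace Tree

variable {T : Tower (H →L[ℂ] H)} {Γ : Set (Germ T)} {τ : Tree Γ}
variable {L' : Type} [NormedAddCommGroup L'] [InnerProductSpace ℂ L'] [CompleteSpace L']
variable {σ₁ : (H →L[ℂ] H) →ₗ[ℂ] (L →L[ℂ] L)} {σ₂ : (H →L[ℂ] H) →ₗ[ℂ] (L' →L[ℂ] L')}
  {V : L →L[ℂ] L'}

theorem Fib.good (hΓ : MaxFam Γ) {c : Node Γ} {P : L →L[ℂ] L}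
    {π : (H →L[ℂ] H) →ₗ[ℂ] (L →L[ℂ] L)} (hσ : τ.IsR σ₁) (hf : τ.Fib σ₁ c P π)
    (hi : τ.IrrAt σ₁ c) (hn : ∀ e, τ.KK σ₁ (e :: c) = ⊥) : Good T π := by
  by_contra hg
  obtain ⟨γ, hγ, η, h0, hη⟩ := active_germ hf.rep (hf.irr hσ hi hn) hg hΓ
  obtain ⟨x, hx⟩ := exists_point hσ hi
  have e1 := hf.KK hσ (e := (x, ⟨γ, hγ⟩)) hx
  have h2 : η ∈ τ.KK σ₁ ((x, ⟨γ, hγ⟩) :: c) := by
    rw [e1]
    exact mem_Fix.2 hη
  rw [hn] at h2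
  exact h0 h2

theorem genA_mem {c : Node Γ} {y : H →L[ℂ] H} (hy : y ∈ (τ.ls c).genA) : y ∈ τ.sm :=
  τ.genA_sm c (StarSubalgebra.le_topologicalClosure _ (StarAlgebra.subset_adjoin ℂ _ hy))

theorem adj_intw (h₁ : τ.IsR σ₁) (h₂ : τ.IsR σ₂)
    (hV : ∀ a ∈ τ.sm, ∀ η, V (σ₁ a η) = σ₂ a (V η)) :
    ∀ a ∈ τ.sm, ∀ η, ContinuousLinearMap.adjoint V (σ₂ a η) =
      σ₁ a (ContinuousLinearMap.adjoint V η) := by
  intro a ha η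
  refine intw_adj (fun ζ => ?_) η
  rw [← h₁.hom.star a (τ.sm_le_lg ha), ← h₂.hom.star a (τ.sm_le_lg ha)]
  exact hV _ (star_mem ha) ζ

theorem map_KK (hV : ∀ a ∈ τ.sm, ∀ η, V (σ₁ a η) = σ₂ a (V η)) (c : Node Γ) {η : L}
    (hη : η ∈ τ.KK σ₁ c) : V η ∈ τ.KK σ₂ c := by
  refine mem_Fix.2 fun i => ?_
  rw [← hV _ (genA_mem ((τ.ls c).F_genA i)), mem_Fix.1 hη i]

section Two

variable {c : Node Γ} {P₁ : L →L[ℂ] L} {P₂ : L' →L[ℂ] L'}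
  {π₁ : (H →L[ℂ] H) →ₗ[ℂ] (L →L[ℂ] L)} {π₂ : (H →L[ℂ] H) →ₗ[ℂ] (L' →L[ℂ] L')}

theorem intw_P (h₁ : τ.IsR σ₁) (h₂ : τ.IsR σ₂)
    (hV : ∀ a ∈ τ.sm, ∀ η, V (σ₁ a η) = σ₂ a (V η)) (f₁ : τ.Fib σ₁ c P₁ π₁)
    (f₂ : τ.Fib σ₂ c P₂ π₂) (η : L) : V (P₁ η) = P₂ (V η) := by
  refine intw_prj f₁.proj f₂.proj (fun ζ hζ => ?_) (fun ζ hζ => ?_) η
  · rw [f₂.fix]
    rw [f₁.fix] at hζ
    exact map_KK hV c hζ
  · rw [f₁.fix]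
    rw [f₂.fix] at hζ
    exact map_KK (adj_intw h₁ h₂ hV) c hζ

theorem intw_A (h₁ : τ.IsR σ₁) (h₂ : τ.IsR σ₂)
    (hV : ∀ a ∈ τ.sm, ∀ η, V (σ₁ a η) = σ₂ a (V η)) (f₁ : τ.Fib σ₁ c P₁ π₁)
    (f₂ : τ.Fib σ₂ c P₂ π₂) : ∀ n, ∀ a ∈ T.A n, ∀ η, V (π₁ a η) = π₂ a (V η) := by
  intro n a ha η
  rw [f₁.eq n a (T.A_le_B n ha), f₂.eq n a (T.A_le_B n ha), ContinuousLinearMap.mul_apply,
    ContinuousLinearMap.mul_apply, hV _ (genA_mem (Or.inl ⟨n, a, ha, rfl⟩)),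
    intw_P h₁ h₂ hV f₁ f₂]

/-- an intertwiner that kills the fibre of an active child kills the fibre of the node -/
theorem kill (hΓ : MaxFam Γ) (h₁ : τ.IsR σ₁) (h₂ : τ.IsR σ₂)
    (hV : ∀ a ∈ τ.sm, ∀ η, V (σ₁ a η) = σ₂ a (V η)) (f₁ : τ.Fib σ₁ c P₁ π₁)
    (f₂ : τ.Fib σ₂ c P₂ π₂) (i₁ : τ.IrrAt σ₁ c) {e : (ℕ → Bool) × Γ}
    (ha : τ.KK σ₁ (e :: c) ≠ ⊥) (hb : τ.KK σ₂ (e :: c) = ⊥) : ∀ η ∈ τ.KK σ₁ c, V η = 0 := by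
  intro η hη
  have hs := f₁.span hΓ h₁ i₁ ha
  have hk := f₁.KK h₁ (point_of_active h₁ i₁ ha)
  rw [f₁.one, f₁.fix] at hs
  refine orb_map (W' := ⊥) (by simp) V (fun x hx ζ hζ => ?_) η (hs hη)
  obtain ⟨n, a, ha', rfl⟩ := hx
  rw [← hk] at hζ
  have h0 : V ζ = 0 := by
    have := map_KK hV (e :: c) hζ
    rw [hb] at this
    exact this
  rw [intw_A h₁ h₂ hV f₁ f₂ n a ha', h0, map_zero]
  exact zero_mem _

end Two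

/-- the defect of the labels at a node is controlled by the defect of the root at its children -/
theorem step_defect (hΓ : MaxFam Γ) (h₁ : τ.IsR σ₁) (h₂ : τ.IsR σ₂) (i₁ : τ.IrrAt σ₁ [])
    (i₂ : τ.IrrAt σ₂ []) (hV : ∀ a ∈ τ.sm, ∀ η, V (σ₁ a η) = σ₂ a (V η))
    {P₁ : Node Γ → (L →L[ℂ] L)} {P₂ : Node Γ → (L' →L[ℂ] L')}
    {π₁ : Node Γ → ((H →L[ℂ] H) →ₗ[ℂ] (L →L[ℂ] L))}
    {π₂ : Node Γ → ((H →L[ℂ] H) →ₗ[ℂ] (L' →L[ℂ] L'))}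
    (f₁ : ∀ c, τ.Fib σ₁ c (P₁ c) (π₁ c)) (f₂ : ∀ c, τ.Fib σ₂ c (P₂ c) (π₂ c)) (c : Node Γ)
    {κ : ℝ} (hκ : 0 ≤ κ)
    (hd : ∀ e ζ, ‖V (π₁ (e :: c) T.ℓ ζ) - π₂ (e :: c) T.ℓ (V ζ)‖ ≤ κ * ‖ζ‖) :
    ∃ ω, IsPath ω ∧ ∀ n y, y < 2 ^ (n + 1) → ∀ ζ,
      ‖V (π₁ c (T.t n y) ζ) - π₂ c (T.t n y) (V ζ)‖ ≤ if y = ω n then κ / 2 * ‖ζ‖ else 0 := by
  have j₁ := irrAt_all hΓ h₁ i₁ c
  have j₂ := irrAt_all hΓ h₂ i₂ c
  have hA := intw_A h₁ h₂ hV (f₁ c) (f₂ c)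
  have p0 : IsPath fun _ => 0 := ⟨by norm_num, fun k => by simp⟩
  have zero : (∀ n y, y < 2 ^ (n + 1) → ∀ ζ,
      V (π₁ c (T.t n y) ζ) = π₂ c (T.t n y) (V ζ)) → ∃ ω, IsPath ω ∧ ∀ n y, y < 2 ^ (n + 1) → ∀ ζ,
      ‖V (π₁ c (T.t n y) ζ) - π₂ c (T.t n y) (V ζ)‖ ≤ if y = ω n then κ / 2 * ‖ζ‖ else 0 := by
    intro h
    refine ⟨fun _ => 0, p0, fun n y hy ζ => ?_⟩
    rw [h n y hy, sub_self, norm_zero]
    split_ifs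
    · positivity
    · exact le_rfl
  by_cases hz : ∀ η ∈ τ.KK σ₁ c, V η = 0
  · refine zero fun n y hy ζ => ?_
    have hP : P₁ c ζ ∈ τ.KK σ₁ c := (f₁ c).fix ▸ prj_mem (f₁ c).proj ζ
    rw [(f₁ c).eq n _ (T.t_mem n y), (f₂ c).eq n _ (T.t_mem n y), ContinuousLinearMap.mul_apply,
      ContinuousLinearMap.mul_apply, ← intw_P h₁ h₂ hV (f₁ c) (f₂ c), hz _ hP, map_zero]
    exact hz _ (KK_inv h₁ c _ ⟨_, τ.gen_GB c (Or.inl ⟨n, _, T.t_mem n y, rfl⟩), rfl⟩ _ hP)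
  by_cases hact : ∀ e, τ.KK σ₁ (e :: c) = ⊥
  · have hact2 : ∀ e, τ.KK σ₂ (e :: c) = ⊥ := by
      intro e
      by_contra hne
      have hk := kill hΓ h₂ h₁ (adj_intw h₁ h₂ hV) (f₂ c) (f₁ c) j₂ hne (hact e)
      refine hz fun η hη => ?_
      have h3 := hk _ (map_KK hV c hη)
      have h4 : ⟪V η, V η⟫_ℂ = 0 := by
        rw [← ContinuousLinearMap.adjoint_inner_right, h3, inner_zero_right]
      exact inner_self_eq_zero.1 h4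
    exact zero fun n y hy ζ => good_intw (f₁ c).rep (f₂ c).rep ((f₁ c).good hΓ h₁ j₁ hact)
      ((f₂ c).good hΓ h₂ j₂ hact2) hA hy ζ
  push Not at hact
  obtain ⟨e, a₁⟩ := hact
  have a₂ : τ.KK σ₂ (e :: c) ≠ ⊥ := fun hb => hz (kill hΓ h₁ h₂ hV (f₁ c) (f₂ c) j₁ a₁ hb)
  have x₁ := point_of_active h₁ j₁ a₁
  have x₂ := point_of_active h₂ j₂ a₂
  have k₁ := (f₁ c).KK h₁ x₁
  obtain ⟨α, hα, β, hβ, nβ, hr⟩ := (τ.child e c).rel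
  have hα' := τ.genA_sm _ hα
  have hβ' := τ.genA_sm _ hβ
  have hl : (τ.ls (e :: c)).Φ 0 T.ℓ ∈ τ.lg := τ.genB_lg _ (Or.inl ⟨0, _, T.ℓ_mem, rfl⟩)
  have hR : α + β * (τ.ls (e :: c)).Φ 0 T.ℓ ∈ τ.lg :=
    add_mem (τ.sm_le_lg hα') (mul_mem (τ.sm_le_lg hβ') hl)
  refine ⟨e.2.1.ω, e.2.1.path, fun n y hy ζ => ?_⟩
  refine contract (f₁ c).rep (f₂ c).rep hA e.2.1.path e.2.1.mono e.2.1.g_mem e.2.1.g_m
    ((f₁ c).span hΓ h₁ j₁ a₁) ((f₂ c).span hΓ h₂ j₂ a₂) hκ (fun η hη ε hε => ?_) hy ζ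
  rw [← k₁] at hη
  have hη2 := map_KK hV (e :: c) hη
  have key : ‖V (σ₁ (α + β * (τ.ls (e :: c)).Φ 0 T.ℓ) η) -
      σ₂ (α + β * (τ.ls (e :: c)).Φ 0 T.ℓ) (V η)‖ ≤ κ * ‖η‖ := by
    have e1 : σ₁ ((τ.ls (e :: c)).Φ 0 T.ℓ) η = π₁ (e :: c) T.ℓ η := by
      rw [(f₁ (e :: c)).eq 0 _ T.ℓ_mem, ContinuousLinearMap.mul_apply,
        show P₁ (e :: c) η = η from mem_Fix1.1 (by rw [(f₁ _).fix]; exact hη)]
    have e2 : σ₂ ((τ.ls (e :: c)).Φ 0 T.ℓ) (V η) = π₂ (e :: c) T.ℓ (V η) := by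
      rw [(f₂ (e :: c)).eq 0 _ T.ℓ_mem, ContinuousLinearMap.mul_apply,
        show P₂ (e :: c) (V η) = V η from mem_Fix1.1 (by rw [(f₂ _).fix]; exact hη2)]
    rw [map_add, map_add, h₁.hom.mul _ (τ.sm_le_lg hβ') _ hl, h₂.hom.mul _ (τ.sm_le_lg hβ') _ hl]
    simp only [ContinuousLinearMap.add_apply, ContinuousLinearMap.mul_apply, map_add]
    rw [hV _ hα', hV _ hβ', e1, e2, add_sub_add_left_eq_sub, ← map_sub]
    calc _ ≤ ‖σ₂ β‖ * ‖V (π₁ (e :: c) T.ℓ η) - π₂ (e :: c) T.ℓ (V η)‖ :=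
          (σ₂ β).le_opNorm _
      _ ≤ 1 * (κ * ‖η‖) := by
        gcongr
        · exact (h₂.hom.norm_le _ (τ.sm_le_lg hβ')).trans nβ
        · exact hd e η
      _ = κ * ‖η‖ := one_mul _
  have hlim : Tendsto (fun i : ℕ => 2 * (1 / 2 : ℝ) ^ i * (‖V‖ * ‖η‖ + ‖V η‖)) atTop (𝓝 0) := by
    have := (tendsto_pow_atTop_nhds_zero_of_lt_one (r := (1 / 2 : ℝ)) (by norm_num)
      (by norm_num)).const_mul 2 |>.mul_const (‖V‖ * ‖η‖ + ‖V η‖)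
    simpa using this
  filter_upwards [hlim.eventually (ge_mem_nhds hε)] with i hi
  have r₁ := (f₁ c).rel h₁ x₁ hR hr i hη
  have r₂ := (f₂ c).rel h₂ x₂ hR hr i hη2
  set R := α + β * (τ.ls (e :: c)).Φ 0 T.ℓ
  set s := T.s (e.2.1.N i) (e.2.1.ω (e.2.1.N i))
  have hu := e.2.1.u_mem i
  have e3 : V (π₁ c s η) - π₂ c s (V η) = V (π₁ c s η - π₁ c (e.2.1.u i) (σ₁ R η)) +
      π₂ c (e.2.1.u i) (V (σ₁ R η) - σ₂ R (V η)) -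
      (π₂ c s (V η) - π₂ c (e.2.1.u i) (σ₂ R (V η))) := by
    rw [map_sub, map_sub, hA _ _ hu]
    abel
  have b1 : ‖V (π₁ c s η - π₁ c (e.2.1.u i) (σ₁ R η))‖ ≤ ‖V‖ * (2 * (1 / 2 : ℝ) ^ i * ‖η‖) :=
    (V.le_opNorm _).trans (by gcongr)
  have b2 : ‖π₂ c (e.2.1.u i) (V (σ₁ R η) - σ₂ R (V η))‖ ≤ 1 * (κ * ‖η‖) := by
    refine ((f₂ c).rep.apply_le (T.A_le_B _ hu) _).trans ?_
    gcongr
    exact e.2.1.u_norm i
  rw [e3]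
  calc _ ≤ ‖V (π₁ c s η - π₁ c (e.2.1.u i) (σ₁ R η))‖ +
        ‖π₂ c (e.2.1.u i) (V (σ₁ R η) - σ₂ R (V η))‖ +
        ‖π₂ c s (V η) - π₂ c (e.2.1.u i) (σ₂ R (V η))‖ :=
        (norm_sub_le _ _).trans (by gcongr; exact norm_add_le _ _)
    _ ≤ κ * ‖η‖ + 2 * (1 / 2 : ℝ) ^ i * (‖V‖ * ‖η‖ + ‖V η‖) := by nlinarith
    _ ≤ κ * ‖η‖ + ε := by linarith

/-- every intertwiner of the small algebra between irreducible representations of the large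
algebra intertwines the large algebra -/
theorem main (hΓ : MaxFam Γ) (h₁ : τ.IsR σ₁) (h₂ : τ.IsR σ₂) (i₁ : τ.IrrAt σ₁ [])
    (i₂ : τ.IrrAt σ₂ []) (hV : ∀ a ∈ τ.sm, ∀ η, V (σ₁ a η) = σ₂ a (V η)) :
    ∀ x ∈ τ.lg, ∀ η, V (σ₁ x η) = σ₂ x (V η) := by
  choose P₁ π₁ f₁ using exists_fib h₁
  choose P₂ π₂ f₂ using exists_fib h₂
  have hA := fun c => intw_A h₁ h₂ hV (f₁ c) (f₂ c)
  have hk : ∀ k : ℕ, ∀ c ζ, ‖V (π₁ c T.ℓ ζ) - π₂ c T.ℓ (V ζ)‖ ≤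
      (3 / 4 : ℝ) ^ k * (2 * ‖V‖ * ‖T.ℓ‖) * ‖ζ‖ := by
    intro k
    induction k with
    | zero =>
      intro c ζ
      have b1 : ‖V (π₁ c T.ℓ ζ)‖ ≤ ‖V‖ * (‖T.ℓ‖ * ‖ζ‖) :=
        (V.le_opNorm _).trans (by gcongr; exact (f₁ c).rep.apply_le T.ℓ_mem ζ)
      have b2 : ‖π₂ c T.ℓ (V ζ)‖ ≤ ‖T.ℓ‖ * (‖V‖ * ‖ζ‖) :=
        ((f₂ c).rep.apply_le T.ℓ_mem _).trans (by gcongr; exact V.le_opNorm ζ)
      refine (norm_sub_le _ _).trans ?_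
      rw [pow_zero]
      nlinarith
    | succ k ih =>
      intro c ζ
      have hκ : 0 ≤ (3 / 4 : ℝ) ^ k * (2 * ‖V‖ * ‖T.ℓ‖) := by positivity
      obtain ⟨ω, hω, h⟩ := step_defect hΓ h₁ h₂ i₁ i₂ hV f₁ f₂ c hκ fun e => ih (e :: c)
      refine (root_defect (f₁ c).rep (f₂ c).rep (hA c) hω hκ (fun y hy => h 0 y hy) ζ).trans
        (le_of_eq ?_)
      ring
  have h0 : ∀ c ζ, ‖V (π₁ c T.ℓ ζ) - π₂ c T.ℓ (V ζ)‖ ≤ 0 * ‖ζ‖ := by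
    intro c ζ
    have hlim : Tendsto (fun k : ℕ => (3 / 4 : ℝ) ^ k * (2 * ‖V‖ * ‖T.ℓ‖) * ‖ζ‖) atTop
        (𝓝 (0 * (2 * ‖V‖ * ‖T.ℓ‖) * ‖ζ‖)) :=
      ((tendsto_pow_atTop_nhds_zero_of_lt_one (by norm_num) (by norm_num)).mul_const _).mul_const _
    have := ge_of_tendsto' hlim fun k => hk k c ζ
    simpa using this
  have hB : ∀ c n, ∀ x ∈ T.B n, ∀ η, V (π₁ c x η) = π₂ c x (V η) := by
    intro c
    obtain ⟨ω, hω, h⟩ := step_defect hΓ h₁ h₂ i₁ i₂ hV f₁ f₂ c le_rfl fun e => h0 (e :: c)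
    refine intw_B (f₁ c).rep (f₂ c).rep (hA c) fun n y hy η => ?_
    have := h n y hy η
    simp only [zero_div, zero_mul, ite_self] at this
    exact sub_eq_zero.1 (norm_le_zero_iff.1 this)
  have hG : ∀ c, ∀ y ∈ (τ.ls c).genB, ∀ η, V (σ₁ y η) = σ₂ y (V η) := by
    intro c
    induction c with
    | nil =>
      rintro y (⟨M, x, hx, rfl⟩ | ⟨q, rfl⟩) η
      · have := hB [] M x hx η
        have e1 : P₁ [] η = η := mem_Fix1.1 (by rw [(f₁ []).fix, KK_root h₁]; trivial)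
        have e2 : P₂ [] (V η) = V η := mem_Fix1.1 (by rw [(f₂ []).fix, KK_root h₂]; trivial)
        rwa [(f₁ []).eq M x hx, (f₂ []).eq M x hx, ContinuousLinearMap.mul_apply,
          ContinuousLinearMap.mul_apply, e1, e2] at this
      · exact hV _ (genA_mem (Or.inr ⟨q, rfl⟩)) η
    | cons e c ih =>
      have hc := intw_closure τ.lg_closed (τ.genB_lg c) (τ.ls c).genB_star h₁.hom h₂.hom h₁.one
        h₂.one ih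
      rintro y hy η
      rcases hy with ⟨M, x, hx, hy⟩ | ⟨q, rfl⟩
      swap
      · exact hV _ (genA_mem (Or.inr ⟨q, rfl⟩)) η
      have hy' : y ∈ (τ.ls (e :: c)).genB := Or.inl ⟨M, x, hx, hy⟩
      have hyl := τ.genB_lg _ hy'
      have hF : ∀ i, (τ.ls (e :: c)).F i ∈ τ.lg := fun i =>
        τ.sm_le_lg (genA_mem ((τ.ls (e :: c)).F_genA i))
      have e1 : ∀ i, V (σ₁ y (η - σ₁ ((τ.ls (e :: c)).F i) η)) =
          σ₂ y (V η - σ₂ ((τ.ls (e :: c)).F i) (V η)) := by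
        intro i
        have := hc _ (StarSubalgebra.le_topologicalClosure _ ((τ.child e c).cutB y hy' i)) η
        rw [h₁.hom.mul _ hyl _ (sub_mem (one_mem _) (hF i)),
          h₂.hom.mul _ hyl _ (sub_mem (one_mem _) (hF i)), map_sub, map_sub, h₁.one,
          h₂.one] at this
        exact this
      have l1 := F_lim h₁ (e :: c) (f₁ _).proj (f₁ _).fix η
      have l2 := F_lim h₂ (e :: c) (f₂ _).proj (f₂ _).fix (V η)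
      have m1 := (V.continuous.tendsto _).comp (((σ₁ y).continuous.tendsto _).comp
        (l1.const_sub η))
      have m2 := ((σ₂ y).continuous.tendsto _).comp (l2.const_sub (V η))
      have e2 : V (σ₁ y (η - P₁ (e :: c) η)) = σ₂ y (V η - P₂ (e :: c) (V η)) :=
        tendsto_nhds_unique m1 (m2.congr fun i => (e1 i).symm)
      have e3 := hB (e :: c) M x hx η
      rw [(f₁ _).eq M x hx, (f₂ _).eq M x hx, ContinuousLinearMap.mul_apply,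
        ContinuousLinearMap.mul_apply, ← hy] at e3
      rw [map_sub, map_sub, map_sub, e3] at e2
      exact sub_left_injective e2
  refine intw_closure τ.lg_closed (τ.GB_lg []) (τ.GB_star []) h₁.hom h₂.hom h₁.one h₂.one ?_
  rintro y ⟨l, hy⟩
  exact hG _ y hy

end Tree

end Pool.Agent.P.MP_5d580a_an.Ng
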