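import Pool.Agent.P.MP_5d580a_an.N.Hil

open scoped ComplexOrder InnerProductSpace ComplexConjugate
open Filter Topology

set_option linter.unusedSectionVars false
set_option linter.unusedVariables false
set_option linter.deprecated false

noncomputable section

namespace Pool.Agent.P.MP_5d580a_an.Ng

variable {D C : Type} [CStarAlgebra D] [CStarAlgebra C]
variable {H : Type} [NormedAddCommGroup H] [InnerProductSpace ℂ H] [CompleteSpace H]
variable {L : Type} [NormedAddCommGroup L] [InnerProductSpace ℂ L] [CompleteSpace L]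

variable {P r : H →L[ℂ] H} {𝒪 : Set (H →L[ℂ] H)}

/-- the submodule with carrier `𝒪` -/
def ZSet.Z0_sub (h : ZSet P r 𝒪) : Submodule ℂ (H →L[ℂ] H) where
  carrier := 𝒪
  add_mem' := fun {x y} hx hy => h.add x hx y hy
  zero_mem' := by simpa using h.smul 0 P h.P_mem
  smul_mem' := fun c x hx => h.smul c x hx

theorem ZSet.Z0_Pr (h : ZSet P r 𝒪) : P * r = r := by
  have h1 := congrArg Star.star h.r_P
  rwa [star_mul, h.r_sa.star_eq, h.P_proj.isSelfAdjoint.star_eq] at h1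

theorem ZSet.Z0_inv (h : ZSet P r 𝒪) : Inv 𝒪 (Fix1 P) := by
  intro x hx η _
  rw [mem_Fix1, ← ContinuousLinearMap.mul_apply, h.left x hx]

theorem ZSet.Z0_orb_inv (h : ZSet P r 𝒪) (W : Submodule ℂ H) : Inv 𝒪 (orb 𝒪 W) := by
  intro x hx
  refine orb_map (isClosed_orb 𝒪 W) x fun y hy η hη => ?_
  rw [← ContinuousLinearMap.mul_apply]
  exact mem_orb (h.mul x hx y hy) hη

/-- equal vector states give an intertwiner -/
theorem ZSet.state (h : ZSet P r 𝒪) {ζ ζ' : H} (h1 : P ζ = ζ) (h2 : P ζ' = ζ')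
    (he : ∀ x ∈ 𝒪, ⟪ζ, x ζ⟫_ℂ = ⟪ζ', x ζ'⟫_ℂ) :
    ∃ U : H →L[ℂ] H, (∀ x ∈ 𝒪, Commute U x) ∧ U ζ = ζ' ∧
      ∀ γ, (∀ x ∈ 𝒪, ⟪x ζ, γ⟫_ℂ = 0) → U γ = 0 := by
  let ev : H → (h.Z0_sub →ₗ[ℂ] H) := fun ξ =>
    (ContinuousLinearMap.apply ℂ H ξ).toLinearMap.comp h.Z0_sub.subtype
  have hev : ∀ ξ (c : h.Z0_sub), ev ξ c = (c : H →L[ℂ] H) ξ := fun ξ c => rfl
  have hn : ∀ c : h.Z0_sub, ‖ev ζ' c‖ ≤ 1 * ‖ev ζ c‖ := by
    intro c
    have hc : (c : H →L[ℂ] H) ∈ 𝒪 := c.2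
    have h3 := he _ (h.mul _ (h.star _ hc) _ hc)
    rw [ContinuousLinearMap.mul_apply, ContinuousLinearMap.mul_apply, inner_star_right,
      inner_star_right, inner_self_eq_norm_sq_to_K, inner_self_eq_norm_sq_to_K] at h3
    have h4 : ‖(c : H →L[ℂ] H) ζ‖ ^ 2 = ‖(c : H →L[ℂ] H) ζ'‖ ^ 2 := by exact_mod_cast h3
    rw [one_mul, hev, hev]
    exact le_of_sq_le_sq h4.ge (norm_nonneg _)
  obtain ⟨U, -, hU1, hU2⟩ := exists_extend (ev ζ) (ev ζ') 1 zero_le_one hn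
  refine ⟨U, fun x hx => ?_, ?_, fun γ hγ => hU2 γ fun c => hγ c c.2⟩
  · refine ext_range_orth (ev ζ) (fun d => ?_) (fun γ hγ => ?_)
    · have h3 := hU1 ⟨x * d, h.mul x hx d d.2⟩
      rw [ContinuousLinearMap.mul_apply, ContinuousLinearMap.mul_apply, hU1]
      exact h3
    · rw [ContinuousLinearMap.mul_apply, ContinuousLinearMap.mul_apply, hU2 γ hγ, map_zero]
      refine hU2 _ fun d => ?_
      rw [← inner_star_left]
      exact hγ ⟨Star.star x * d, h.mul _ (h.star x hx) d d.2⟩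
  · have h3 := hU1 ⟨P, h.P_mem⟩
    rwa [hev, hev, h1, h2] at h3

theorem ZSet.Z0_even (h : ZSet P r 𝒪) (hi : Irr 𝒪 (Fix1 P)) {c : ℂ} (hc : c * c = 1) :
    Irr {x | x ∈ 𝒪 ∧ r * x = x * r} (Fix1 (c • r)) := by
  have hle : Fix1 (c • r) ≤ Fix1 P := by
    intro η hη
    rw [mem_Fix1] at hη ⊢
    rw [← hη, ← ContinuousLinearMap.mul_apply, mul_smul_comm, h.Z0_Pr]
  intro W hW hWK hinv
  by_cases hb : W = ⊥
  · exact Or.inl hb
  refine Or.inr (le_antisymm hWK fun ξ hξ => ?_)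
  have h1 : W ≤ orb 𝒪 W := fun η hη => by
    have h2 : P η = η := hle (hWK hη)
    rw [← h2]
    exact mem_orb h.P_mem hη
  have h2 : orb 𝒪 W = Fix1 P := by
    refine (hi _ (isClosed_orb 𝒪 W) ?_ (h.Z0_orb_inv W)).resolve_left ?_
    · exact orb_le (isClosed_Fix1 P) fun x hx η hη => h.Z0_inv x hx η (hle (hWK hη))
    · intro h3
      exact hb (le_bot_iff.1 (h3 ▸ h1))
  have h3 : ((2⁻¹ : ℂ) • (P + c • r)) ξ ∈ W := by
    refine orb_map hW _ (fun x hx η hη => ?_) ξ (h2 ▸ hle hξ)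
    have hη' : (c • r) η = η := hWK hη
    have hy : (2⁻¹ : ℂ) • (x + r * x * r) ∈ {x | x ∈ 𝒪 ∧ r * x = x * r} := by
      refine ⟨h.smul _ _ (h.add _ hx _ (h.cj x hx)), ?_⟩
      rw [mul_smul_comm, smul_mul_assoc, mul_add, add_mul, ← mul_assoc, ← mul_assoc, h.r_sq,
        h.left x hx, mul_assoc (r * x), h.r_sq, mul_assoc r x P, h.right x hx, add_comm]
    have h4 : ((2⁻¹ : ℂ) • (P + c • r)) (x η) = ((2⁻¹ : ℂ) • (x + r * x * r)) η := by
      have h5 : P (x η) = x η := by rw [← ContinuousLinearMap.mul_apply, h.left x hx]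
      have h6 : (c • r) (x η) = (r * x * r) η := by
        conv_lhs => rw [← hη']
        simp only [ContinuousLinearMap.smul_apply, map_smul, smul_smul, hc, one_smul,
          ContinuousLinearMap.mul_apply]
      rw [ContinuousLinearMap.smul_apply, ContinuousLinearMap.smul_apply,
        ContinuousLinearMap.add_apply, ContinuousLinearMap.add_apply, h5, h6]
    rw [h4]
    exact hinv _ hy η hη
  have h4 : P ξ = ξ := hle hξ
  have h5 : (c • r) ξ = ξ := hξ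
  rw [ContinuousLinearMap.smul_apply, ContinuousLinearMap.add_apply, h4, h5, ← two_smul ℂ ξ,
    smul_smul, inv_mul_cancel₀ two_ne_zero, one_smul] at h3
  exact h3

/-- first case: the even part is irreducible on an eigenspace of `r` -/
theorem ZSet.even (h : ZSet P r 𝒪) (hi : Irr 𝒪 (Fix1 P)) (hne : Fix1 P ≠ ⊥) :
    ∃ c : ℂ, (c = 1 ∨ c = -1) ∧ Fix1 (c • r) ≠ ⊥ ∧
      Irr {x | x ∈ 𝒪 ∧ r * x = x * r} (Fix1 (c • r)) := by
  obtain ⟨ζ, hζ, h0⟩ := Submodule.exists_mem_ne_zero_of_ne_bot hne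
  have h1 : r (r ζ) = ζ := by
    rw [← ContinuousLinearMap.mul_apply, h.r_sq]
    exact hζ
  by_cases h2 : ζ + r ζ = 0
  · refine ⟨-1, Or.inr rfl, ?_, h.Z0_even hi (by norm_num)⟩
    rw [Submodule.ne_bot_iff]
    refine ⟨ζ, ?_, h0⟩
    rw [mem_Fix1, ContinuousLinearMap.smul_apply, neg_one_smul]
    exact (eq_neg_of_add_eq_zero_left h2).symm
  · refine ⟨1, Or.inl rfl, ?_, h.Z0_even hi (by norm_num)⟩
    rw [Submodule.ne_bot_iff]
    refine ⟨ζ + r ζ, ?_, h2⟩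
    rw [mem_Fix1, one_smul, map_add, h1, add_comm]

theorem ZSet.not_orth (h : ZSet P r 𝒪) (hi : Irr 𝒪 (Fix1 P)) {ζ ζ' : H} (h1 : P ζ = ζ)
    (h2 : P ζ' = ζ') (hn : ζ ≠ 0) (he : ∀ x ∈ 𝒪, ⟪ζ, x ζ⟫_ℂ = ⟪ζ', x ζ'⟫_ℂ) :
    ⟪ζ, ζ'⟫_ℂ ≠ 0 := by
  obtain ⟨U, hU, hζ, -⟩ := h.state h1 h2 he
  have hP : ∀ y : H →L[ℂ] H, Commute y P → ∀ η ∈ Fix1 P, y η ∈ Fix1 P := by
    intro y hy η hη
    rw [mem_Fix1] at hη ⊢
    rw [← ContinuousLinearMap.mul_apply, ← hy.eq, ContinuousLinearMap.mul_apply, hη]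
  have hs : Commute (Star.star U) P := by
    have h3 := (hU P h.P_mem).star_star
    rwa [h.P_proj.isSelfAdjoint.star_eq] at h3
  obtain ⟨c, hc⟩ := schur (isClosed_Fix1 P) h.star h.Z0_inv hi (hP U (hU P h.P_mem)) (hP _ hs)
    (fun x hx η _ => by
      rw [← ContinuousLinearMap.mul_apply, (hU x hx).eq, ContinuousLinearMap.mul_apply])
  have h3 : ζ' = c • ζ := by rw [← hζ, hc ζ h1]
  have h4 := he P h.P_mem
  rw [h1, h2] at h4
  have h5 : ⟪ζ, ζ⟫_ℂ ≠ 0 := fun h6 => hn (inner_self_eq_zero.1 h6)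
  have h6 : c ≠ 0 := by
    rintro rfl
    rw [h3, zero_smul, inner_zero_left] at h4
    exact h5 h4
  rw [h3, inner_smul_right]
  exact mul_ne_zero h6 h5

/-- compression of an irreducible algebra -/
theorem ZSet.compress (h : ZSet P r 𝒪) {W : Submodule ℂ H} (hW : IsClosed (W : Set H))
    (hinv : Inv 𝒪 W) (hi : Irr 𝒪 W) {q : H →L[ℂ] H} (hq : q ∈ 𝒪) (hp : IsStarProjection q) :
    Irr {x | x ∈ 𝒪 ∧ q * x = x ∧ x * q = x} (W ⊓ Fix1 q) := by
  intro W' hW' hle hinv'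
  by_cases hb : W' = ⊥
  · exact Or.inl hb
  refine Or.inr (le_antisymm hle fun ξ hξ => ?_)
  have hqq : q * q = q := hp.isIdempotentElem.eq
  have h1 : W' ≤ orb 𝒪 W' := fun η hη => by
    have h2 : q η = η := (hle hη).2
    rw [← h2]
    exact mem_orb hq hη
  have h2 : orb 𝒪 W' = W := by
    refine (hi _ (isClosed_orb 𝒪 W') ?_ (h.Z0_orb_inv W')).resolve_left ?_
    · exact orb_le hW fun x hx η hη => hinv x hx η (hle hη).1
    · intro h3
      exact hb (le_bot_iff.1 (h3 ▸ h1))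
  have h3 : q ξ ∈ W' := by
    refine orb_map hW' q (fun x hx η hη => ?_) ξ (h2 ▸ hξ.1)
    have hη' : q η = η := (hle hη).2
    have h4 : q (x η) = (q * x * q) η := by
      rw [ContinuousLinearMap.mul_apply, ContinuousLinearMap.mul_apply, hη']
    rw [h4]
    refine hinv' _ ⟨h.mul _ (h.mul q hq x hx) q hq, ?_, ?_⟩ η hη
    · rw [← mul_assoc, ← mul_assoc, hqq]
    · rw [mul_assoc, hqq]
  have h4 : q ξ = ξ := hξ.2
  rwa [h4] at h3

end Pool.Agent.P.MP_5d580a_an.Ng
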